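import Pool.Agent.Helper10.GN.Defs
import Pool.Agent.Helper68.QM.Basic

set_option autoImplicit false

/-!
# Project GN (MP_63c74b, `g ≤ 0`): definitions, plane curves

`p ∈ A = ℝ[x, y]`; `IsCrv p s π`: `F` is the function field of the complex curve `p = 0`,
`π : ℂ[x, y] → F` the restriction of polynomials.
-/

namespace Pool.Agent.Helper10.GN

open VC FF MvPolynomial Pool.Agent.Helper68.QM

/-- complex polynomials in two variables -/
abbrev CP : Type := MvPolynomial (Fin 2) ℂ

/-- complexification -/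
noncomputable def cx : A →+* CP := MvPolynomial.map Complex.ofRealHom

/-- complex conjugation of the coefficients -/
noncomputable def cjp : CP →+* CP := MvPolynomial.map (starRingEnd ℂ)

/-- a real point as a complex point -/
noncomputable def cz (z : Fin 2 → ℝ) : Fin 2 → ℂ := fun i => (z i : ℂ)

/-- the conjugate point -/
noncomputable def zbar (z : Fin 2 → ℂ) : Fin 2 → ℂ := fun i => (starRingEnd ℂ) (z i)

/-- a nonreal point -/
def NR (z : Fin 2 → ℂ) : Prop := ∃ i, (z i).im ≠ 0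

/-- `p` changes sign on the real plane -/
def SC (p : A) : Prop := (∃ z : Fin 2 → ℝ, 0 < eval z p) ∧ ∃ z : Fin 2 → ℝ, eval z p < 0

/-- the Hessian determinant -/
noncomputable def hess (p : A) (z : Fin 2 → ℝ) : ℝ :=
  eval z (pderiv 0 (pderiv 0 p)) * eval z (pderiv 1 (pderiv 1 p)) -
    eval z (pderiv 0 (pderiv 1 p)) ^ 2

/-- `z` is a real singular point of `p` -/
def Sg (p : A) (z : Fin 2 → ℝ) : Prop := eval z p = 0 ∧ ∀ i, eval z (pderiv i p) = 0

/-- `z` is a complex singular point of `p` -/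
def SgC (p : A) (z : Fin 2 → ℂ) : Prop :=
  eval z (cx p) = 0 ∧ ∀ i, eval z (pderiv i (cx p)) = 0

/-- some polynomial, not constant on the curve, is bounded on the real zeros of `p` -/
def NTy (p : A) : Prop :=
  ∃ q : A, (∃ K : ℝ, ∀ z : Fin 2 → ℝ, eval z p = 0 → |eval z q| ≤ K) ∧ ∀ c : ℝ, ¬ p ∣ q - C c

variable {F : Type} [Field F] [Algebra ℂ F]

/-- `F` is the function field of the curve `p = 0` -/
structure IsCrv (p : A) (s : RStr F) (π : CP →ₐ[ℂ] F) : Prop where
  ker : ∀ h : CP, π h = 0 ↔ cx p ∣ h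
  frac : ∀ f : F, ∃ a b : CP, π b ≠ 0 ∧ f = π a / π b
  conj : ∀ h : CP, s.σ (π h) = π (cjp h)

/-- a finite place -/
def FinP (π : CP →ₐ[ℂ] F) (P : Place ℂ F) : Prop := ∀ i, π (X i) ∈ P.ring

/-- the finite place `P` lies over the point `z` -/
def Over (hF : IsFunctionField ℂ F) (π : CP →ₐ[ℂ] F) (P : Place ℂ F) (z : Fin 2 → ℂ) : Prop :=
  FinP π P ∧ ∀ i, vl hF P (π (X i)) = z i

/-- `f` lies in the local ring of the plane curve at `z` -/
def Loc (π : CP →ₐ[ℂ] F) (z : Fin 2 → ℂ) (f : F) : Prop :=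
  ∃ a b : CP, eval z b ≠ 0 ∧ π b * f = π a

end Pool.Agent.Helper10.GN
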