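import Pool.Agent.Helper10.TC.AL
import Pool.Agent.Helper10.GN.Crv

set_option autoImplicit false

/-!
# Project GN, block ALC: the Artin-Lang theorem for plane curves

Adapt `Pool/Agent/Helper10/TC/AL.lean` (theorem `artin_lang`). The injectivity of `φ` was used there only to see that
`ξ = φ (X 0)` is not a root of a nonzero real polynomial; this is now the hypothesis `hξ`. The list of polynomials for
`transfer` is now `{Φ p, Φ a}`, with signs `0` and `-1`; instead of `los` (TC/Hyp.lean) we need the version with an equation: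
if `p.eval₂ hr w = 0` and `a.eval₂ hr w < 0` for hyperreal `w` then there is a real `z` with `eval z p = 0`, `eval z a < 0`
(same proof as `los`: the set of indices is in the ultrafilter).
-/

open Polynomial

namespace Pool.Agent.Helper10.GN

open Pool.Agent.Helper10.TC

open Filter

/-- the class of a sequence, a ring homomorphism -/
private noncomputable def sq52 : (ℕ → ℝ) →+* Hyperreal where
  toFun := Hyperreal.ofSeq
  map_one' := rfl
  map_mul' _ _ := rfl
  map_zero' := rfl
  map_add' _ _ := rfl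

private lemma sq52_surj : Function.Surjective sq52 := Hyperreal.ofSeq_surjective

private lemma sq52_lt {f g : ℕ → ℝ} :
    sq52 f < sq52 g ↔ ∀ᶠ n in hyperfilter ℕ, f n < g n := Hyperreal.ofSeq_lt_ofSeq

private lemma sq52_eq {f g : ℕ → ℝ} (h : sq52 f = sq52 g) : ∀ᶠ n in hyperfilter ℕ, f n = g n :=
  Germ.coe_eq.1 h

private lemma mv52 (F : MvPolynomial (Fin 2) ℝ) (z : Fin 2 → ℕ → ℝ) :
    F.eval₂ hr (fun i => sq52 (z i)) = sq52 (fun n => MvPolynomial.eval (fun i => z i n) F) := by
  induction F using MvPolynomial.induction_on with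
  | C r =>
    rw [MvPolynomial.eval₂_C]
    simp only [MvPolynomial.eval_C]
    rfl
  | add p q hp hq =>
    rw [MvPolynomial.eval₂_add, hp, hq, ← map_add]
    congr 1
    funext n
    simp
  | mul_X p i hp =>
    rw [MvPolynomial.eval₂_mul, MvPolynomial.eval₂_X, hp, ← map_mul]
    congr 1
    funext n
    simp

private theorem los52 (F G : MvPolynomial (Fin 2) ℝ) (w : Fin 2 → Hyperreal)
    (hF : F.eval₂ hr w = 0) (hG : G.eval₂ hr w < 0) :
    ∃ z : Fin 2 → ℝ, MvPolynomial.eval z F = 0 ∧ MvPolynomial.eval z G < 0 := by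
  choose z hz using fun i => sq52_surj (w i)
  obtain rfl : (fun i => sq52 (z i)) = w := funext hz
  rw [mv52] at hF hG
  have h0 : (0 : Hyperreal) = sq52 (fun _ => 0) := rfl
  rw [h0, sq52_lt] at hG
  rw [h0] at hF
  obtain ⟨n, h1, h2⟩ := ((sq52_eq hF).and hG).exists
  exact ⟨fun i => z i n, h1, h2⟩

private theorem al_sign_cancel52 {a b c s : SignType} (hs : s ≠ 0) (h1 : a * s = c) (h2 : b * s = c) :
    a = b := by
  revert hs h1 h2
  revert a b c s
  decide

theorem artin_lang_curve {K : Type*} [Field K] [LinearOrder K] [IsStrictOrderedRing K]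
    (hK : IVT K) (φ : MvPolynomial (Fin 2) ℝ →+* K)
    (hξ : ∀ q : ℝ[X], q ≠ 0 → q.eval₂ (φ.comp MvPolynomial.C) (φ (MvPolynomial.X 0)) ≠ 0)
    (p a : MvPolynomial (Fin 2) ℝ) (hp : φ p = 0) (ha : φ a < 0) :
    ∃ z : Fin 2 → ℝ, MvPolynomial.eval z p = 0 ∧ MvPolynomial.eval z a < 0 := by
  classical
  let ι : ℝ →+* K := φ.comp MvPolynomial.C
  let ξ : K := φ (MvPolynomial.X 0)
  let y : K := φ (MvPolynomial.X 1)
  obtain ⟨ξ', hξ'⟩ := exists_cut ι ξ hξ
  have hξ2 : ∀ q : ℝ[X], q ≠ 0 → q.eval₂ hr ξ' ≠ 0 := by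
    intro q hq h
    have h1 := hξ' q
    rw [h, sign_zero, sign_eq_zero_iff] at h1
    exact hξ q hq h1
  let g₁ : ℝ[X] →+* K := eval₂RingHom ι ξ
  let g₂ : ℝ[X] →+* Hyperreal := eval₂RingHom hr ξ'
  have hg₁ : Function.Injective g₁ := by
    rw [injective_iff_map_eq_zero]
    intro q hq
    by_contra hne
    exact hξ q hne hq
  have hg₂ : Function.Injective g₂ := by
    rw [injective_iff_map_eq_zero]
    intro q hq
    by_contra hne
    exact hξ2 q hne hq
  let k := FractionRing ℝ[X]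
  let i₁ : k →+* K := IsFractionRing.lift hg₁
  let i₂ : k →+* Hyperreal := IsFractionRing.lift hg₂
  have hi₁ : ∀ q : ℝ[X], i₁ (algebraMap ℝ[X] k q) = g₁ q := fun q => IsFractionRing.lift_algebraMap hg₁ q
  have hi₂ : ∀ q : ℝ[X], i₂ (algebraMap ℝ[X] k q) = g₂ q := fun q => IsFractionRing.lift_algebraMap hg₂ q
  have hsgn : ∀ a : k, SignType.sign (i₁ a) = SignType.sign (i₂ a) := by
    intro a
    obtain ⟨u, v, hv, rfl⟩ := IsFractionRing.div_surjective (A := ℝ[X]) a
    have hv0 : v ≠ 0 := nonZeroDivisors.ne_zero hv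
    have e1 : i₁ (algebraMap ℝ[X] k u / algebraMap ℝ[X] k v) * g₁ v = g₁ u := by
      rw [map_div₀, hi₁, hi₁]
      exact div_mul_cancel₀ _ (hξ v hv0)
    have e2 : i₂ (algebraMap ℝ[X] k u / algebraMap ℝ[X] k v) * g₂ v = g₂ u := by
      rw [map_div₀, hi₂, hi₂]
      exact div_mul_cancel₀ _ (hξ2 v hv0)
    have s1 := congrArg SignType.sign e1
    have s2 := congrArg SignType.sign e2
    rw [sign_mul] at s1 s2
    have s3 : SignType.sign (g₁ u) = SignType.sign (g₂ u) := hξ' u
    have s4 : SignType.sign (g₁ v) = SignType.sign (g₂ v) := hξ' v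
    rw [← s3, ← s4] at s2
    refine al_sign_cancel52 ?_ s1 s2
    rw [Ne, sign_eq_zero_iff]
    exact hξ v hv0
  let Φ : MvPolynomial (Fin 2) ℝ →+* k[X] :=
    MvPolynomial.eval₂Hom ((C : k →+* k[X]).comp ((algebraMap ℝ[X] k).comp C)) ![C (algebraMap ℝ[X] k X), X]
  have hΦ₁ : ∀ F, ((Φ F).map i₁).eval y = φ F := by
    intro F
    have h1 : ((evalRingHom y).comp (mapRingHom i₁)).comp Φ = φ := by
      refine MvPolynomial.ringHom_ext (fun r => ?_) (fun i => ?_)
      · change ((Φ (MvPolynomial.C r)).map i₁).eval y = _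
        have h2 : Φ (MvPolynomial.C r) = C (algebraMap ℝ[X] k (C r)) := MvPolynomial.eval₂Hom_C _ _ _
        rw [h2, Polynomial.map_C, Polynomial.eval_C, hi₁]
        exact Polynomial.eval₂_C _ _
      · change ((Φ (MvPolynomial.X i)).map i₁).eval y = _
        fin_cases i
        · have h2 : Φ (MvPolynomial.X 0) = C (algebraMap ℝ[X] k X) := MvPolynomial.eval₂Hom_X' _ _ _
          change ((Φ (MvPolynomial.X 0)).map i₁).eval y = _
          rw [h2, Polynomial.map_C, Polynomial.eval_C, hi₁]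
          exact Polynomial.eval₂_X _ _
        · have h2 : Φ (MvPolynomial.X 1) = X := MvPolynomial.eval₂Hom_X' _ _ _
          change ((Φ (MvPolynomial.X 1)).map i₁).eval y = _
          rw [h2, Polynomial.map_X, Polynomial.eval_X]
          rfl
    exact congrArg (fun f : MvPolynomial (Fin 2) ℝ →+* K => f F) h1
  have hΦ₂ : ∀ η : Hyperreal, ∀ F, ((Φ F).map i₂).eval η = F.eval₂ hr ![ξ', η] := by
    intro η F
    have h1 : ((evalRingHom η).comp (mapRingHom i₂)).comp Φ = MvPolynomial.eval₂Hom hr ![ξ', η] := by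
      refine MvPolynomial.ringHom_ext (fun r => ?_) (fun i => ?_)
      · change ((Φ (MvPolynomial.C r)).map i₂).eval η = _
        have h2 : Φ (MvPolynomial.C r) = C (algebraMap ℝ[X] k (C r)) := MvPolynomial.eval₂Hom_C _ _ _
        rw [h2, Polynomial.map_C, Polynomial.eval_C, hi₂, MvPolynomial.eval₂Hom_C]
        exact Polynomial.eval₂_C _ _
      · change ((Φ (MvPolynomial.X i)).map i₂).eval η = _
        fin_cases i
        · have h2 : Φ (MvPolynomial.X 0) = C (algebraMap ℝ[X] k X) := MvPolynomial.eval₂Hom_X' _ _ _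
          change ((Φ (MvPolynomial.X 0)).map i₂).eval η = MvPolynomial.eval₂Hom hr ![ξ', η] (MvPolynomial.X 0)
          rw [h2, Polynomial.map_C, Polynomial.eval_C, hi₂, MvPolynomial.eval₂Hom_X']
          exact Polynomial.eval₂_X _ _
        · have h2 : Φ (MvPolynomial.X 1) = X := MvPolynomial.eval₂Hom_X' _ _ _
          change ((Φ (MvPolynomial.X 1)).map i₂).eval η = MvPolynomial.eval₂Hom hr ![ξ', η] (MvPolynomial.X 1)
          rw [h2, Polynomial.map_X, Polynomial.eval_X, MvPolynomial.eval₂Hom_X']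
          rfl
    exact congrArg (fun f : MvPolynomial (Fin 2) ℝ →+* Hyperreal => f F) h1
  obtain ⟨η, hη⟩ := transfer i₁ i₂ hsgn hK ivt_hyperreal {Φ p, Φ a} y
  have hP := hη (Φ p) (by simp)
  have hA := hη (Φ a) (by simp)
  rw [hΦ₁, hΦ₂] at hP hA
  rw [hp, sign_zero] at hP
  rw [sign_neg ha] at hA
  exact los52 p a ![ξ', η] (sign_eq_zero_iff.1 hP.symm) (sign_eq_neg_one_iff.1 hA.symm)
end Pool.Agent.Helper10.GN
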