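import Pool.Agent.Helper10.GN.Conj

set_option autoImplicit false

/-!
# Project GN, block SUP: `L (D₁ ⊔ D₂) = L D₁ + L D₂` in large degree

`sup`: `L D₁ ⊓ L D₂ = L (D₁ ⊓ D₂)` (`mem_L`, `Finsupp.inf_apply`), so
`dim (L D₁ ⊔ L D₂) = ℓ(D₁) + ℓ(D₂) - ℓ(D₁ ⊓ D₂)` (`Submodule.finrank_sup_add_finrank_inf_eq`,
`FF.finite_rr`), and with `c` from `FF.ell_eq_of_large` (`FF.exists_genus`), all degrees `≥ deg (D₁ ⊓ D₂) ≥ c`
(`FF.deg_mono`) and `deg D₁ + deg D₂ = deg (D₁ ⊓ D₂) + deg (D₁ ⊔ D₂)` (pointwise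
`min + max`), this is `ℓ(D₁ ⊔ D₂)`; conclude with `Submodule.eq_of_le_of_finrank_eq`
(`L D₁ ⊔ L D₂ ≤ L (D₁ ⊔ D₂)` by `rr_mono`).
-/

namespace Pool.Agent.Helper10.GN

open VC FF

variable {F : Type} [Field F] [Algebra ℂ F] (hF : IsFunctionField ℂ F)
include hF

theorem inf_L (D₁ D₂ : Place ℂ F →₀ ℤ) : L D₁ ⊓ L D₂ = L (D₁ ⊓ D₂) := by
  ext f
  rw [Submodule.mem_inf, mem_L hF, mem_L hF, mem_L hF]
  constructor
  · rintro ⟨h1, h2⟩ P
    rcases h1 P with h | h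
    · exact Or.inl h
    rcases h2 P with h' | h'
    · exact Or.inl h'
    refine Or.inr ?_
    rw [Finsupp.inf_apply]
    rcases le_total (D₁ P) (D₂ P) with h3 | h3
    · rw [inf_eq_left.mpr h3]
      exact h
    · rw [inf_eq_right.mpr h3]
      exact h'
  · intro h
    refine ⟨fun P => (h P).mono ?_, fun P => (h P).mono ?_⟩
    · rw [Finsupp.inf_apply]
      exact neg_le_neg inf_le_left
    · rw [Finsupp.inf_apply]
      exact neg_le_neg inf_le_right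

theorem sup_L : ∃ c : ℤ, ∀ D₁ D₂ : Place ℂ F →₀ ℤ, c ≤ deg (D₁ ⊓ D₂) →
    L (D₁ ⊔ D₂) = L D₁ ⊔ L D₂ := by
  obtain ⟨g, hg⟩ := FF.exists_genus hF
  obtain ⟨c, hc⟩ := FF.ell_eq_of_large hF hg
  refine ⟨c, fun D₁ D₂ hD => ?_⟩
  have f1 : FiniteDimensional ℂ (L D₁) := FF.finite_rr hF D₁
  have f2 : FiniteDimensional ℂ (L D₂) := FF.finite_rr hF D₂
  have f3 : FiniteDimensional ℂ (L (D₁ ⊔ D₂)) := FF.finite_rr hF (D₁ ⊔ D₂)
  have m1 : deg (D₁ ⊓ D₂) ≤ deg D₁ := FF.deg_mono fun P => by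
    rw [Finsupp.inf_apply]
    exact inf_le_left
  have m2 : deg (D₁ ⊓ D₂) ≤ deg D₂ := FF.deg_mono fun P => by
    rw [Finsupp.inf_apply]
    exact inf_le_right
  have m3 : deg D₁ ≤ deg (D₁ ⊔ D₂) := FF.deg_mono fun P => by
    rw [Finsupp.sup_apply]
    exact le_sup_left
  have hsum : D₁ + D₂ = (D₁ ⊓ D₂) + (D₁ ⊔ D₂) := by
    ext P
    rw [Finsupp.add_apply, Finsupp.add_apply, Finsupp.inf_apply, Finsupp.sup_apply]
    exact (min_add_max (D₁ P) (D₂ P)).symm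
  have hdeg : deg D₁ + deg D₂ = deg (D₁ ⊓ D₂) + deg (D₁ ⊔ D₂) := by
    rw [← map_add, ← map_add, hsum]
  have e0 := hc _ hD
  have e1 := hc D₁ (hD.trans m1)
  have e2 := hc D₂ (hD.trans m2)
  have e3 := hc (D₁ ⊔ D₂) ((hD.trans m1).trans m3)
  have hle : L D₁ ⊔ L D₂ ≤ L (D₁ ⊔ D₂) := by
    refine sup_le ?_ ?_
    · exact FF.rr_mono hF fun P => by
        rw [Finsupp.sup_apply]
        exact le_sup_left
    · exact FF.rr_mono hF fun P => by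
        rw [Finsupp.sup_apply]
        exact le_sup_right
  have hdim := Submodule.finrank_sup_add_finrank_inf_eq (L D₁) (L D₂)
  rw [inf_L hF] at hdim
  symm
  refine Submodule.eq_of_le_of_finrank_eq hle ?_
  unfold ell at e0 e1 e2 e3
  have hdim' : (Module.finrank ℂ ↥(L D₁ ⊔ L D₂) : ℤ) + Module.finrank ℂ ↥(L (D₁ ⊓ D₂)) =
      Module.finrank ℂ ↥(L D₁) + Module.finrank ℂ ↥(L D₂) := by exact_mod_cast hdim
  have : (Module.finrank ℂ ↥(L D₁ ⊔ L D₂) : ℤ) = Module.finrank ℂ ↥(L (D₁ ⊔ D₂)) := by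
    linarith
  exact_mod_cast this

end Pool.Agent.Helper10.GN
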