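import Pool.Agent.Helper10.GN.Val
import Pool.Agent.Helper10.GN.Sup

set_option autoImplicit false

/-!
# Project GN, block APPR: strong approximation with poles in `S`

`appr`: weak approximation `FF.approx` gives `z` with `Oge P r (z - y P)` for `P ∈ Z` (translate between
`val` and `ord`: `FF.val_eq_exp`). Let `N` be a bound for the pole orders of `z` (`z ≠ 0` w.l.o.g.;
`FF.finite_support_ord`), and for `m : ℕ` let `D₁, D₂` be the divisors with
`D₁ P = -r` on `Z`, `m` on `S`, `max (-ord_P z) 0` at the other places (poles of `z` outside `Z ∪ S`), and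
`D₂ P = max (-ord_P z) (-r)` on `Z`, `m` on `S`, `0` elsewhere. For `m` large
`z ∈ L (D₁ ⊔ D₂)`, `deg (D₁ ⊓ D₂) ≥ c` (the value at `P ∈ S`, nonempty, is `m`, the others are fixed), so by
`sup_L` `z = z₁ + z₂`; `f = z₂` is regular outside `S ∪ Z` and `f - y P = (z - y P) - z₁` has order `≥ r` at
`P ∈ Z`.
`appr_real`: apply `appr` and take `(f + σ f)/2`: for `P ∈ Z` we have `s.cj P ∈ Z`,
`Oge (s.cj P) r (f - y (s.cj P))`, so `Oge P r (σ f - σ (y (s.cj P)))` (`oge_cj`), and the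
hypothesis `hy`. The places outside `S ∪ Z` are permuted by conjugation.
`exists_vl`: separating functions: for distinct places `P`, `Q` outside `S` apply `appr` with
`Z = {P, Q}`, `y P = 0`, `y Q = 1`, `r = 1`. `exists_pole`: for `P ∈ S`: `L (N P)` with `N` large
(`FF.ell_ge`) is not contained in the constants and its nonconstant elements (`FF.rr_zero_eq`)
have a pole at `P` and nowhere else.
-/

namespace Pool.Agent.Helper10.GN

open VC FF

variable {F : Type} [Field F] [Algebra ℂ F] (s : RStr F) (hF : IsFunctionField ℂ F)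

include hF in
theorem appr {S : Finset (Place ℂ F)} (hS : S.Nonempty) (Z : Finset (Place ℂ F))
    (hZ : Disjoint Z S) (y : Place ℂ F → F) (r : ℤ) :
    ∃ f : F, (∀ P ∈ Z, Oge P r (f - y P)) ∧ ∀ P, P ∉ S → P ∉ Z → f ∈ P.ring := by
  classical
  obtain ⟨z, hz⟩ := FF.approx hF Z y (-r)
  have hz' : ∀ P ∈ Z, Oge P r (z - y P) := by
    intro P hP
    have h1 := hz P hP
    rcases eq_or_ne (z - y P) 0 with h0 | h0
    · exact Or.inl h0
    · right
      rw [val_eq_exp hF P h0, WithZero.exp_lt_exp] at h1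
      omega
  obtain ⟨c, hc⟩ := sup_L hF
  have hS1 : 1 ≤ S.card := hS.card_pos
  obtain ⟨m, hm⟩ : ∃ m : ℕ, max 0 (c + Z.card * r) ≤ (m : ℤ) :=
    ⟨(max 0 (c + Z.card * r)).toNat, Int.self_le_toNat _⟩
  have hm0 : (0 : ℤ) ≤ m := Int.natCast_nonneg m
  have hmc : c + Z.card * r ≤ (m : ℤ) := (le_max_right _ _).trans hm
  set C : Place ℂ F →₀ ℤ := dS S m + dS Z (-r) with hC
  set W : Place ℂ F →₀ ℤ := (-(dv hF z) + dS Z r) ⊔ 0 with hW
  have hWapp : ∀ P, W P = max (-(ord P.ring z) + dS Z r P) 0 := by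
    intro P
    rw [hW, Finsupp.sup_apply, Finsupp.add_apply, Finsupp.neg_apply, dv_apply, Finsupp.zero_apply]
  have hW0 : ∀ P, 0 ≤ W P := fun P => by rw [hWapp]; exact le_max_right _ _
  set B₁ : Place ℂ F →₀ ℤ := W.filter (fun P => P ∉ Z) with hB₁
  set B₂ : Place ℂ F →₀ ℤ := W.filter (fun P => P ∈ Z) with hB₂
  have hinf : (C + B₁) ⊓ (C + B₂) = C := by
    ext P
    rw [Finsupp.inf_apply, Finsupp.add_apply C B₁ P, Finsupp.add_apply C B₂ P, hB₁, hB₂,
      Finsupp.filter_apply, Finsupp.filter_apply]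
    have := hW0 P
    clear_value C W
    by_cases hP : P ∈ Z
    · rw [if_neg (not_not.mpr hP), if_pos hP]
      exact (min_eq_left (by omega)).trans (by omega)
    · rw [if_pos hP, if_neg hP]
      exact (min_eq_right (by omega)).trans (by omega)
  have hsup : (C + B₁) ⊔ (C + B₂) = C + W := by
    ext P
    rw [Finsupp.sup_apply, Finsupp.add_apply C B₁ P, Finsupp.add_apply C B₂ P,
      Finsupp.add_apply C W P, hB₁, hB₂, Finsupp.filter_apply, Finsupp.filter_apply]
    have := hW0 P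
    clear_value C W
    by_cases hP : P ∈ Z
    · rw [if_neg (not_not.mpr hP), if_pos hP]
      exact max_eq_right (by omega)
    · rw [if_pos hP, if_neg hP]
      exact max_eq_left (by omega)
  have hdeg : c ≤ deg ((C + B₁) ⊓ (C + B₂)) := by
    rw [hinf, hC, map_add, deg_dS, deg_dS]
    have h1 : (m : ℤ) ≤ S.card * m := by
      have : (1 : ℤ) ≤ S.card := by exact_mod_cast hS1
      nlinarith
    have h2 : (Z.card : ℤ) * (-r) = - (Z.card * r) := by ring
    rw [h2]
    linarith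
  have hLL := hc _ _ hdeg
  have hzL : z ∈ L ((C + B₁) ⊔ (C + B₂)) := by
    rw [hsup, mem_L hF]
    intro P
    right
    rw [Finsupp.add_apply, hWapp, hC, Finsupp.add_apply]
    by_cases hP : P ∈ Z
    · rw [dS_notMem _ (Finset.disjoint_left.mp hZ hP), dS_mem _ hP, dS_mem _ hP]
      have := le_max_left (-(ord P.ring z) + r) 0
      linarith
    · rw [dS_notMem _ hP, dS_notMem _ hP]
      have h1 : 0 ≤ dS S (m : ℤ) P := by
        by_cases hP' : P ∈ S
        · rw [dS_mem _ hP']; exact hm0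
        · rw [dS_notMem _ hP']
      have := le_max_left (-(ord P.ring z) + 0) 0
      linarith
  rw [hLL, Submodule.mem_sup] at hzL
  obtain ⟨z₁, h₁, z₂, h₂, he⟩ := hzL
  rw [mem_L hF] at h₁ h₂
  refine ⟨z₂, fun P hP => ?_, fun P hPS hPZ => ?_⟩
  · have e : z₂ - y P = (z - y P) - z₁ := by rw [← he]; ring
    rw [e]
    refine oge_sub hF (hz' P hP) ?_
    have h3 := h₁ P
    rw [Finsupp.add_apply, hC, Finsupp.add_apply, hB₁, Finsupp.filter_apply,
      if_neg (not_not.mpr hP), dS_notMem _ (Finset.disjoint_left.mp hZ hP), dS_mem _ hP] at h3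
    exact h3.mono (by omega)
  · have h3 := h₂ P
    rw [Finsupp.add_apply, hC, Finsupp.add_apply, hB₂, Finsupp.filter_apply,
      if_neg hPZ, dS_notMem _ hPS, dS_notMem _ hPZ] at h3
    exact (oge_zero_iff hF).mp (h3.mono (by omega))

include hF in
theorem appr_real {S : Finset (Place ℂ F)} (hS : SData s S) (Z : Finset (Place ℂ F))
    (hZ : Disjoint Z S) (hcj : ∀ P ∈ Z, s.cj P ∈ Z) (y : Place ℂ F → F) (r : ℤ)
    (hy : ∀ P ∈ Z, Oge P r (s.σ (y (s.cj P)) - y P)) :
    ∃ f : F, s.σ f = f ∧ (∀ P ∈ Z, Oge P r (f - y P)) ∧ ∀ P, P ∉ S → P ∉ Z → f ∈ P.ring := by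
  obtain ⟨f₀, h1, h2⟩ := appr hF hS.ne Z hZ y r
  refine ⟨algebraMap ℂ F (1 / 2) * (f₀ + s.σ f₀), ?_, fun P hP => ?_, fun P hPS hPZ => ?_⟩
  · rw [map_mul, s.alg, map_add, s.inv]
    have e : (starRingEnd ℂ) (1 / 2 : ℂ) = 1 / 2 := by
      rw [map_div₀, map_one, Complex.conj_ofNat]
    rw [e, add_comm]
  · have e2 : (algebraMap ℂ F (1 / 2)) * (2 : F) = 1 := by
      have : (2 : F) = algebraMap ℂ F 2 := by rw [map_ofNat]
      rw [this, ← map_mul]
      norm_num
    have e : algebraMap ℂ F (1 / 2) * (f₀ + s.σ f₀) - y P =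
        algebraMap ℂ F (1 / 2) * ((f₀ - y P) + (s.σ (f₀ - y (s.cj P)) +
          (s.σ (y (s.cj P)) - y P))) := by
      rw [map_sub]
      linear_combination (y P) * e2
    rw [e]
    have h3 : Oge P r (s.σ (f₀ - y (s.cj P))) := (oge_cj s hF).mp (h1 _ (hcj P hP))
    have h4 := oge_mul hF (oge_alg hF (P := P) (1 / 2 : ℂ))
      (oge_add hF (h1 P hP) (oge_add hF h3 (hy P hP)))
    rwa [zero_add] at h4
  · have h3 : s.cj P ∉ S := fun h => hPS (by have := hS.cj_mem _ h; rwa [cj_cj] at this)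
    have h4 : s.cj P ∉ Z := fun h => hPZ (by have := hcj _ h; rwa [cj_cj] at this)
    have h5 := h2 _ h3 h4
    rw [mem_cj] at h5
    exact P.ring.mul_mem _ _ (P.algebraMap_mem _) (P.ring.add_mem _ _ (h2 P hPS hPZ) h5)

theorem exists_vl {S : Finset (Place ℂ F)} (hS : S.Nonempty) {P Q : Place ℂ F} (hPQ : P ≠ Q)
    (hP : P ∉ S) (hQ : Q ∉ S) :
    ∃ f : F, (∀ P', P' ∉ S → f ∈ P'.ring) ∧ vl hF P f = 0 ∧ vl hF Q f = 1 := by
  classical
  have hd : Disjoint ({P, Q} : Finset (Place ℂ F)) S := by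
    rw [Finset.disjoint_left]
    intro R hR
    rw [Finset.mem_insert, Finset.mem_singleton] at hR
    rcases hR with rfl | rfl
    · exact hP
    · exact hQ
  obtain ⟨f, h1, h2⟩ := appr hF hS {P, Q} hd (fun R => if R = Q then 1 else 0) 1
  have h3 : Oge P 1 f := by
    have := h1 P (by simp)
    rwa [if_neg hPQ, sub_zero] at this
  have h4 : Oge Q 1 (f - 1) := by
    have := h1 Q (by simp)
    rwa [if_pos rfl] at this
  have h5 : f ∈ P.ring := (oge_zero_iff hF).mp (h3.mono zero_le_one)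
  have h6 : f ∈ Q.ring := by
    have := (oge_zero_iff hF).mp (h4.mono zero_le_one)
    have h7 := Q.ring.add_mem _ _ this Q.ring.one_mem
    rwa [sub_add_cancel] at h7
  refine ⟨f, fun P' hP' => ?_, ?_, ?_⟩
  · by_cases e1 : P' = P
    · rw [e1]; exact h5
    by_cases e2 : P' = Q
    · rw [e2]; exact h6
    · exact h2 P' hP' (by simp [e1, e2])
  · rw [vl_eq_zero hF h5]
    exact h3
  · rw [vl_eq_iff hF h6, map_one]
    exact (oge_one_iff hF).mp h4

include hF in
theorem exists_pole {S : Finset (Place ℂ F)} {P : Place ℂ F} (hP : P ∈ S) :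
    ∃ f : F, (∀ P', P' ∉ S → f ∈ P'.ring) ∧ f ∉ P.ring := by
  classical
  obtain ⟨g, hg⟩ := exists_genus hF
  have h1 := ell_ge hg (Finsupp.single P ((g : ℤ) + 1))
  rw [deg_single] at h1
  have h2 : 2 ≤ ell (Finsupp.single P ((g : ℤ) + 1)) := by omega
  have h3 : ∃ f ∈ L (Finsupp.single P ((g : ℤ) + 1)), f ∉ L (0 : Place ℂ F →₀ ℤ) := by
    by_contra hcon
    push Not at hcon
    have h4 : L (Finsupp.single P ((g : ℤ) + 1)) ≤ L (0 : Place ℂ F →₀ ℤ) := hcon
    rw [show L (0 : Place ℂ F →₀ ℤ) = Submodule.span ℂ {(1 : F)} from rr_zero_eq hF] at h4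
    have h5 := Submodule.finrank_mono h4
    have h6 : Module.finrank ℂ (Submodule.span ℂ {(1 : F)}) = 1 :=
      finrank_span_singleton one_ne_zero
    rw [h6] at h5
    have h7 : 2 ≤ Module.finrank ℂ (L (Finsupp.single P ((g : ℤ) + 1))) := h2
    omega
  obtain ⟨f, hf, hf0⟩ := h3
  rw [mem_L hF] at hf hf0
  have hne : ∀ P', P' ≠ P → f ∈ P'.ring := by
    intro P' hP'
    have := hf P'
    rw [Finsupp.single_apply, if_neg (Ne.symm hP')] at this
    exact (oge_zero_iff hF).mp (this.mono (by simp))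
  refine ⟨f, fun P' hP' => hne P' (fun e => hP' (by rw [e]; exact hP)), fun hfP => ?_⟩
  apply hf0
  intro P'
  rw [Finsupp.zero_apply, neg_zero, oge_zero_iff hF]
  by_cases e : P' = P
  · rw [e]; exact hfP
  · exact hne P' e

end Pool.Agent.Helper10.GN
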