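import Pool.Agent.Helper10.GN.Mxi

set_option autoImplicit false

/-!
# Project GN, block APX: local solutions

`f - ∑ b_j² = P c`, `f - ∑ B_j² = P r` with `r` in an ideal `I`, so `P x(δ) = f - ∑ (b_j + P δ_j)²`.

`apx`: `E ∉ m`, `E b_j + P δ₀_j = w_j`, `∑ w_j² = E² ∑ B_j²`. Let `E E' = 1 + μ`, `μ ∈ m^L` (`exists_inv`), `δ = E' δ₀`. Then
`E (b + P δ) = w + μ P δ₀`, so `E² P x(δ) = E² f - ∑ (w_j + μ P δ₀_j)² = P (E² r - μ (2 ∑ w_j δ₀_j + μ P ∑ δ₀_j²))`; cancel `P ≠ 0`: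
`E² x(δ) ∈ I + m^L`, and `E²` is invertible modulo `m^L`: `x(δ) = (E E')² x(δ) - (terms in m^L)`.
`loc_one` (L1): `a ∉ m`, `P ∣ a (B_j - b_j)`: `E = a`, `w = a B`, `δ₀ = a (B - b)/P`.
`loc_two` (L2): `P ∈ m`, `b i ∉ m`: solve `c - 2 b_i t - P t² ∈ m^L` by iteration: `β b_i ≡ 1 mod m^L`, `t_0 = 0`,
`t_{k+1} = β (c - P t_k²)/2` (`C (1/2)`): `t_{k+1} - t_k = - β P (t_k - t_{k-1}) (t_k + t_{k-1}) / 2 ∈ m^k` for all `k ≥ 1` (mod `m^L`), so
`c - 2 b_i t_L - P t_L² ∈ m^L`; `δ = t e_i`.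
`loc_rot` (L3): `m = mz (cz z)` and `Rot P z b B` with `D, M`, `s = B + b`, `e = B - b`: `M s = D e + P y`. Let `T = D • 1 + M` (matrix over `A`),
`E = det T`, `w = adj(T) (D • 1 - M) B`, `δ₀ = - adj(T) y`. `E(z) ≠ 0`: at `z` the real matrix `D(z) + M(z)`, `M(z)` antisymmetric,
`D(z) ≠ 0`, has trivial kernel: `v·(D + M) v = D |v|²`. `w - E b = adj(T) ((D - M) B - (D + M) b) = adj(T) (D e - M s) = - adj(T) P y`.
`∑ w_j² = wᵀ w = Bᵀ (D - M)ᵀ adj(T)ᵀ adj(T) (D - M) B`, `(D - M)ᵀ = T`, `adj(T)ᵀ = adj(Tᵀ) = adj(D - M)`; `T` and `D - M` commute, so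
`adj(D - M) adj(T) = adj(T (D - M)) = adj((D - M) T) = adj(T) adj(D - M)` and the product is
`T adj(T) adj(D - M) (D - M) = E * det (D - M) = E * det (Tᵀ) = E²`.
-/

namespace Pool.Agent.Helper10.GN

open VC FF MvPolynomial Pool.Agent.Helper68.QM

variable {N : ℕ} {f P c r : A} {b B : Fin N → A} {I : Ideal A}

theorem xf_spec (hc : f - ∑ j, b j ^ 2 = P * c) (δ : Fin N → A) :
    P * xf P c b δ = f - ∑ j, (b j + P * δ j) ^ 2 := by
  have e1 : ∑ j, (b j + P * δ j) ^ 2 =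
      ∑ j, b j ^ 2 + P * (2 * (∑ j, b j * δ j)) + P * (P * ∑ j, δ j ^ 2) := by
    rw [Finset.mul_sum, Finset.mul_sum, Finset.mul_sum, Finset.mul_sum, ← Finset.sum_add_distrib,
      ← Finset.sum_add_distrib]
    exact Finset.sum_congr rfl fun j _ => by ring
  unfold xf
  rw [e1]
  linear_combination -hc

theorem xf_congr (K : Ideal A) (P c : A) (b δ δ' : Fin N → A) (h : ∀ j, δ j - δ' j ∈ K) :
    xf P c b δ - xf P c b δ' ∈ K := by
  have e1 : xf P c b δ - xf P c b δ' =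
      ∑ j, (-(2 * b j) - P * (δ j + δ' j)) * (δ j - δ' j) := by
    have e2 : ∑ j, (-(2 * b j) - P * (δ j + δ' j)) * (δ j - δ' j) =
        -(2 * ∑ j, b j * δ j) + 2 * (∑ j, b j * δ' j) - P * (∑ j, δ j ^ 2) +
          P * ∑ j, δ' j ^ 2 := by
      rw [Finset.mul_sum, Finset.mul_sum, Finset.mul_sum, Finset.mul_sum, ← Finset.sum_neg_distrib,
        ← Finset.sum_add_distrib, ← Finset.sum_sub_distrib, ← Finset.sum_add_distrib]
      exact Finset.sum_congr rfl fun j _ => by ring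
    rw [e2]
    unfold xf
    ring
  rw [e1]
  exact Ideal.sum_mem _ fun j _ => K.mul_mem_left _ (h j)

theorem apx (hP : P ≠ 0) (hc : f - ∑ j, b j ^ 2 = P * c) (hr : f - ∑ j, B j ^ 2 = P * r)
    (hrI : r ∈ I) {m : Ideal A} (hm : m.IsMaximal) {E : A} (hE : E ∉ m) (w δ₀ : Fin N → A)
    (hw : ∀ j, E * b j + P * δ₀ j = w j) (hsq : ∑ j, w j ^ 2 = E ^ 2 * ∑ j, B j ^ 2) (L : ℕ) :
    ∃ δ : Fin N → A, xf P c b δ ∈ I ⊔ m ^ L := by
  obtain ⟨E', hE'⟩ := exists_inv hm hE L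
  obtain ⟨μ, hμ⟩ : ∃ μ, μ = E * E' - 1 := ⟨_, rfl⟩
  have hμm : μ ∈ m ^ L := by rw [hμ]; exact hE'
  refine ⟨fun j => E' * δ₀ j, ?_⟩
  have h1 := xf_spec hc (fun j => E' * δ₀ j)
  obtain ⟨x, hx⟩ : ∃ x, x = xf P c b (fun j => E' * δ₀ j) := ⟨_, rfl⟩
  rw [← hx] at h1 ⊢
  have h2 : E ^ 2 * ∑ j, (b j + P * (E' * δ₀ j)) ^ 2 =
      ∑ j, w j ^ 2 + P * (μ * (2 * ∑ j, w j * δ₀ j)) + P * (μ * (μ * (P * ∑ j, δ₀ j ^ 2))) := by
    rw [Finset.mul_sum, Finset.mul_sum, Finset.mul_sum, Finset.mul_sum, Finset.mul_sum,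
      Finset.mul_sum, Finset.mul_sum, Finset.mul_sum, ← Finset.sum_add_distrib,
      ← Finset.sum_add_distrib]
    refine Finset.sum_congr rfl fun j _ => ?_
    have h3 : E * (b j + P * (E' * δ₀ j)) = w j + μ * (P * δ₀ j) := by
      rw [← hw j, hμ]; ring
    calc E ^ 2 * (b j + P * (E' * δ₀ j)) ^ 2 = (E * (b j + P * (E' * δ₀ j))) ^ 2 := by ring
      _ = _ := by rw [h3]; ring
  have h4 : E ^ 2 * x = E ^ 2 * r - μ * (2 * (∑ j, w j * δ₀ j) + μ * (P * ∑ j, δ₀ j ^ 2)) := by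
    apply mul_left_cancel₀ hP
    linear_combination E ^ 2 * h1 - h2 - hsq + E ^ 2 * hr
  have h5 : E ^ 2 * x ∈ I ⊔ m ^ L := by
    rw [h4]
    exact Ideal.sub_mem _ (Ideal.mul_mem_left _ _ (Ideal.mem_sup_left hrI))
      (Ideal.mul_mem_right _ _ (Ideal.mem_sup_right hμm))
  have h6 : x = E' ^ 2 * (E ^ 2 * x) - μ * ((μ + 2) * x) := by
    rw [hμ]; ring
  rw [h6]
  exact Ideal.sub_mem _ (Ideal.mul_mem_left _ _ h5)
    (Ideal.mul_mem_right _ _ (Ideal.mem_sup_right hμm))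

theorem loc_one (hP : P ≠ 0) (hc : f - ∑ j, b j ^ 2 = P * c) (hr : f - ∑ j, B j ^ 2 = P * r)
    (hrI : r ∈ I) {m : Ideal A} (hm : m.IsMaximal) {a : A} (ha : a ∉ m)
    (h : ∀ j, P ∣ a * (B j - b j)) (L : ℕ) : ∃ δ : Fin N → A, xf P c b δ ∈ I ⊔ m ^ L := by
  choose g hg using h
  refine apx hP hc hr hrI hm ha (fun j => a * B j) g (fun j => ?_) ?_ L
  · rw [← hg j]; ring
  · rw [Finset.mul_sum]
    exact Finset.sum_congr rfl fun j _ => by ring

theorem loc_two {m : Ideal A} (hm : m.IsMaximal) (hP : P ∈ m) {i : Fin N} (hb : b i ∉ m) (L : ℕ) :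
    ∃ δ : Fin N → A, xf P c b δ ∈ m ^ L := by
  obtain ⟨β, hβ⟩ := exists_inv hm hb L
  have hh : (2 : A) * C (1 / 2 : ℝ) = 1 := by
    have e : (2 : A) = C (2 : ℝ) := (map_ofNat C 2).symm
    rw [e, ← C_mul]
    norm_num
  have key : ∀ k : ℕ, ∃ t t' : A, t' - t ∈ m ^ k ∧ 2 * t' = β * (c - P * t ^ 2) := by
    intro k
    induction k with
    | zero =>
      refine ⟨0, C (1 / 2 : ℝ) * (β * c), ?_, ?_⟩
      · rw [pow_zero, Ideal.one_eq_top]; trivial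
      · linear_combination (β * c) * hh
    | succ k ih =>
      obtain ⟨t, t', h1, h2⟩ := ih
      refine ⟨t', C (1 / 2 : ℝ) * (β * (c - P * t' ^ 2)), ?_, ?_⟩
      · have e : C (1 / 2 : ℝ) * (β * (c - P * t' ^ 2)) - t' =
            (-(C (1 / 2 : ℝ) * β * (t' + t))) * ((t' - t) * P) := by
          linear_combination (-(C (1 / 2 : ℝ))) * h2 + t' * hh
        rw [e, pow_succ]
        exact Ideal.mul_mem_left _ _ (Ideal.mul_mem_mul h1 hP)
      · linear_combination (β * (c - P * t' ^ 2)) * hh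
  obtain ⟨t, t', h1, h2⟩ := key L
  refine ⟨Pi.single i t', ?_⟩
  have e : xf P c b (Pi.single i t') =
      -((c - P * t ^ 2) * (b i * β - 1)) - (P * (t' + t)) * (t' - t) := by
    unfold xf
    have e1 : ∑ j, b j * (Pi.single i t' : Fin N → A) j = b i * t' := by
      rw [Finset.sum_eq_single i]
      · rw [Pi.single_eq_same]
      · intro j _ hj
        rw [Pi.single_eq_of_ne hj, mul_zero]
      · intro h; exact absurd (Finset.mem_univ _) h
    have e2 : ∑ j, (Pi.single i t' : Fin N → A) j ^ 2 = t' ^ 2 := by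
      rw [Finset.sum_eq_single i]
      · rw [Pi.single_eq_same]
      · intro j _ hj
        rw [Pi.single_eq_of_ne hj]; ring
      · intro h; exact absurd (Finset.mem_univ _) h
    rw [e1, e2]
    linear_combination (-(b i)) * h2
  rw [e]
  exact Ideal.sub_mem _ (Ideal.neg_mem_iff _ |>.2 (Ideal.mul_mem_left _ _ hβ))
    (Ideal.mul_mem_left _ _ h1)

open Matrix in
theorem det_ne_of_antisymm (D : ℝ) (hD : D ≠ 0) (M : Matrix (Fin N) (Fin N) ℝ)
    (hM : ∀ i j, M i j = - M j i) : (D • (1 : Matrix (Fin N) (Fin N) ℝ) + M).det ≠ 0 := by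
  intro h0
  obtain ⟨v, hv, hv0⟩ := Matrix.exists_mulVec_eq_zero_iff.2 h0
  apply hv
  have h1 : v ⬝ᵥ (M *ᵥ v) = 0 := by
    have hT : Mᵀ = -M := by
      ext i j
      rw [Matrix.transpose_apply, Matrix.neg_apply]
      exact hM j i
    have h2 : v ⬝ᵥ (M *ᵥ v) = -(v ⬝ᵥ (M *ᵥ v)) := by
      calc v ⬝ᵥ (M *ᵥ v) = (v ᵥ* M) ⬝ᵥ v := Matrix.dotProduct_mulVec _ _ _
        _ = (Mᵀ *ᵥ v) ⬝ᵥ v := by rw [Matrix.mulVec_transpose]
        _ = -(v ⬝ᵥ (M *ᵥ v)) := by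
          rw [hT, Matrix.neg_mulVec, neg_dotProduct, dotProduct_comm]
    linarith
  have h2 : v ⬝ᵥ ((D • (1 : Matrix (Fin N) (Fin N) ℝ) + M) *ᵥ v) = 0 := by
    rw [hv0, dotProduct_zero]
  rw [Matrix.add_mulVec, Matrix.smul_mulVec, Matrix.one_mulVec, dotProduct_add, h1, add_zero,
    dotProduct_smul, smul_eq_mul] at h2
  rcases mul_eq_zero.1 h2 with h | h
  · exact absurd h hD
  · exact dotProduct_self_eq_zero.1 h

open Matrix in
theorem loc_rot (hP : P ≠ 0) (hc : f - ∑ j, b j ^ 2 = P * c) (hr : f - ∑ j, B j ^ 2 = P * r)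
    (hrI : r ∈ I) {z : Fin 2 → ℝ} (h : Rot P z b B) (L : ℕ) :
    ∃ δ : Fin N → A, xf P c b δ ∈ I ⊔ mz (cz z) ^ L := by
  obtain ⟨D, M, hD, hM, hy⟩ := h
  choose y hy using hy
  obtain ⟨T, hT⟩ : ∃ T : Matrix (Fin N) (Fin N) A, T = D • (1 : Matrix (Fin N) (Fin N) A) + M :=
    ⟨_, rfl⟩
  have hMT : Mᵀ = -M := by
    ext i j
    rw [Matrix.transpose_apply, Matrix.neg_apply, hM j i]
  have hTT : Tᵀ = D • (1 : Matrix (Fin N) (Fin N) A) - M := by
    rw [hT, Matrix.transpose_add, Matrix.transpose_smul, Matrix.transpose_one, hMT, sub_eq_add_neg]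
  have hE : T.det ∉ mz (cz z) := by
    rw [mz_real, RingHom.map_det]
    have e : (eval z).mapMatrix T = eval z D • (1 : Matrix (Fin N) (Fin N) ℝ) +
        (eval z).mapMatrix M := by
      rw [hT, map_add]
      congr 1
      ext i j
      rw [RingHom.mapMatrix_apply, Matrix.map_apply, Matrix.smul_apply, Matrix.smul_apply,
        smul_eq_mul, smul_eq_mul, map_mul, Matrix.one_apply, Matrix.one_apply]
      split_ifs <;> simp
    rw [e]
    refine det_ne_of_antisymm _ hD _ fun i j => ?_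
    rw [RingHom.mapMatrix_apply, Matrix.map_apply, Matrix.map_apply, hM i j, map_neg]
  have hcomm : T * Tᵀ = Tᵀ * T := by
    rw [hTT, hT]
    simp only [Matrix.mul_sub, Matrix.sub_mul, Matrix.mul_add, Matrix.add_mul, Matrix.smul_mul,
      Matrix.mul_smul, Matrix.one_mul, Matrix.mul_one, smul_add, smul_sub]
    abel
  have hadj : adjugate Tᵀ * adjugate T = adjugate T * adjugate Tᵀ := by
    rw [← Matrix.adjugate_mul_distrib, hcomm, Matrix.adjugate_mul_distrib]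
  have hbig : T * adjugate Tᵀ * (adjugate T * Tᵀ) = (T.det ^ 2) • (1 : Matrix (Fin N) (Fin N) A) := by
    calc T * adjugate Tᵀ * (adjugate T * Tᵀ) = T * (adjugate Tᵀ * adjugate T) * Tᵀ := by
          simp only [Matrix.mul_assoc]
      _ = (T * adjugate T) * (adjugate Tᵀ * Tᵀ) := by
          rw [hadj]; simp only [Matrix.mul_assoc]
      _ = _ := by
          rw [Matrix.mul_adjugate, Matrix.adjugate_mul, Matrix.det_transpose, Matrix.smul_mul,
            Matrix.one_mul, smul_smul, pow_two]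
  refine apx hP hc hr hrI (mz_max _) hE (adjugate T *ᵥ (Tᵀ *ᵥ B)) (-(adjugate T *ᵥ y)) ?_ ?_ L
  · intro i
    have e1 : Tᵀ *ᵥ B = T *ᵥ b - P • y := by
      ext1 i
      have h1 := hy i
      have h2 : (∑ j, M i j * (B j + b j)) = (M *ᵥ B) i + (M *ᵥ b) i := by
        simp only [Matrix.mulVec, dotProduct, mul_add, Finset.sum_add_distrib]
      rw [h2] at h1
      rw [hTT, hT]
      simp only [Matrix.sub_mulVec, Matrix.add_mulVec, Matrix.smul_mulVec, Matrix.one_mulVec,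
        Pi.sub_apply, Pi.add_apply, Pi.smul_apply, smul_eq_mul]
      linear_combination -h1
    rw [e1, Matrix.mulVec_sub, Matrix.mulVec_mulVec, Matrix.adjugate_mul, Matrix.smul_mulVec,
      Matrix.one_mulVec, Matrix.mulVec_smul]
    simp only [Pi.sub_apply, Pi.smul_apply, Pi.neg_apply, smul_eq_mul]
    ring
  · have e1 : ∀ v : Fin N → A, ∑ j, v j ^ 2 = v ⬝ᵥ v := by
      intro v
      simp only [dotProduct, pow_two]
    rw [e1, e1, Matrix.mulVec_mulVec]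
    have e2 : (adjugate T * Tᵀ) *ᵥ B ⬝ᵥ (adjugate T * Tᵀ) *ᵥ B =
        B ⬝ᵥ (((adjugate T * Tᵀ)ᵀ * (adjugate T * Tᵀ)) *ᵥ B) := by
      rw [Matrix.dotProduct_mulVec, ← Matrix.mulVec_transpose, Matrix.mulVec_mulVec,
        dotProduct_comm]
    rw [e2, Matrix.transpose_mul, Matrix.transpose_transpose, Matrix.adjugate_transpose, hbig,
      Matrix.smul_mulVec, Matrix.one_mulVec, dotProduct_smul, smul_eq_mul]

end Pool.Agent.Helper10.GN
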