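import Pool.Agent.Helper10.GN.Crv

set_option autoImplicit false

/-!
# Project GN, block CB: real and complex polynomials

`cx` is injective (`MvPolynomial.map_injective`), `eval_cx`: `MvPolynomial.eval_map`/`eval₂` on generators;
`cjp` is an involution, `eval z (cjp h) = conj (eval (zbar z) h)`. `exists_re_im`: every `h` is
`cx a + i cx b` (take real and imaginary parts of the coefficients; or induction on `h`).
`cjp_eq_iff`: `cjp h = h` iff `h = cx a` (from `exists_re_im` and injectivity of `(a, b) ↦ cx a + i cx b`).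
`cx_dvd`: if `cx a = cx p * h` with `h = cx u + i cx v` then `a = p u`, `p v = 0`.
`totalDegree_cx`: `MvPolynomial.totalDegree_map_of_injective` or supports. `pderiv_cx`: on generators/`MvPolynomial.pderiv_map`.
`real_range`: if `f = π h` is real, then `f = (π h + π (cjp h))/2`, and `(h + cjp h)/2 = cx a`.
`pderiv_ne_zero`: `p` is not constant (irreducible), so some `pderiv i p ≠ 0` (char 0); its total degree is smaller
than that of `p`, so `p ∤ pderiv i p` (`totalDegree_mul` for nonzero polynomials over a domain).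
-/

namespace Pool.Agent.Helper10.GN

open VC FF MvPolynomial Pool.Agent.Helper68.QM

theorem cx_injective : Function.Injective cx := by
  exact map_injective _ Complex.ofReal_injective

theorem eval_cx (z : Fin 2 → ℝ) (a : A) : eval (cz z) (cx a) = ((eval z a : ℝ) : ℂ) := by
  induction a using MvPolynomial.induction_on with
  | C r => simp [cx]
  | add p q hp hq => rw [map_add, map_add, hp, hq, map_add, Complex.ofReal_add]
  | mul_X p i hp =>
    rw [map_mul, map_mul, hp, map_mul, Complex.ofReal_mul]
    congr 1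
    simp [cx, cz]

theorem cx_C (r : ℝ) : cx (C r) = C (r : ℂ) := by
  exact map_C _ _

theorem cx_X (i : Fin 2) : cx (X i) = X i := by
  exact map_X _ _

theorem cjp_cx (a : A) : cjp (cx a) = cx a := by
  unfold cjp cx
  rw [map_map]
  have e : (starRingEnd ℂ).comp Complex.ofRealHom = Complex.ofRealHom :=
    RingHom.ext fun r => Complex.conj_ofReal r
  rw [e]

theorem cjp_cjp (h : CP) : cjp (cjp h) = h := by
  unfold cjp
  rw [map_map]
  have e : (starRingEnd ℂ).comp (starRingEnd ℂ) = RingHom.id ℂ := by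
    ext r
    simp
  rw [e, map_id]

theorem cjp_C (c : ℂ) : cjp (C c) = C ((starRingEnd ℂ) c) := by
  exact map_C _ _

theorem cjp_X (i : Fin 2) : cjp (X i) = X i := by
  exact map_X _ _

theorem eval_cjp (z : Fin 2 → ℂ) (h : CP) :
    eval z (cjp h) = (starRingEnd ℂ) (eval (zbar z) h) := by
  induction h using MvPolynomial.induction_on with
  | C r => rw [cjp_C, eval_C, eval_C]
  | add p q hp hq => rw [map_add, map_add, hp, hq, map_add, map_add]
  | mul_X p i hp =>
    rw [map_mul, map_mul, hp, cjp_X, map_mul, map_mul, eval_X, eval_X]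
    congr 1
    unfold zbar
    exact (Complex.conj_conj (z i)).symm

theorem eval_zbar (z : Fin 2 → ℂ) (a : A) :
    eval (zbar z) (cx a) = (starRingEnd ℂ) (eval z (cx a)) := by
  have h := eval_cjp z (cx a)
  rw [cjp_cx] at h
  rw [h, Complex.conj_conj]

theorem exists_re_im (h : CP) : ∃ a b : A, h = cx a + C Complex.I * cx b := by
  induction h using MvPolynomial.induction_on with
  | C c =>
    refine ⟨C c.re, C c.im, ?_⟩
    rw [cx_C, cx_C, ← C_mul, ← C_add]
    congr 1
    rw [mul_comm]
    exact (Complex.re_add_im c).symm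
  | add p q hp hq =>
    obtain ⟨a, b, h1⟩ := hp
    obtain ⟨a', b', h2⟩ := hq
    refine ⟨a + a', b + b', ?_⟩
    rw [h1, h2, map_add, map_add]
    ring
  | mul_X p i hp =>
    obtain ⟨a, b, h1⟩ := hp
    refine ⟨a * X i, b * X i, ?_⟩
    rw [h1, map_mul, map_mul, cx_X]
    ring

theorem re_im_unique {a b a' b' : A} (h : cx a + C Complex.I * cx b = cx a' + C Complex.I * cx b') :
    a = a' ∧ b = b' := by
  have h2 := congrArg cjp h
  simp only [map_add, map_mul, cjp_cx, cjp_C, Complex.conj_I, map_neg] at h2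
  have h3 : (2 : CP) * cx a = 2 * cx a' := by linear_combination h + h2
  have h20 : (2 : CP) ≠ 0 := by
    have : (2 : CP) = C (2 : ℂ) := rfl
    rw [this, Ne, C_eq_zero]
    norm_num
  have h4 : cx a = cx a' := mul_left_cancel₀ h20 h3
  rw [h4] at h
  have h5 : C Complex.I * cx b = C Complex.I * cx b' := add_left_cancel h
  have hI : (C Complex.I : CP) ≠ 0 := by
    rw [Ne, C_eq_zero]
    exact Complex.I_ne_zero
  exact ⟨cx_injective h4, cx_injective (mul_left_cancel₀ hI h5)⟩

theorem cjp_eq_iff (h : CP) : cjp h = h ↔ ∃ a : A, h = cx a := by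
  constructor
  · intro hh
    obtain ⟨a, b, h1⟩ := exists_re_im h
    have h2 : cx a + C Complex.I * cx (-b) = cx a + C Complex.I * cx b := by
      rw [← h1, ← hh, h1]
      simp only [map_add, map_mul, cjp_cx, cjp_C, Complex.conj_I, map_neg]
      ring
    have h3 := (re_im_unique h2).2
    have h4 : b = 0 := by
      have h5 : (2 : A) * b = 0 := by linear_combination -h3
      rcases mul_eq_zero.1 h5 with h6 | h6
      · exfalso
        have h7 : (2 : A) = C (2 : ℝ) := rfl
        rw [h7, C_eq_zero] at h6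
        norm_num at h6
      · exact h6
    refine ⟨a, ?_⟩
    rw [h1, h4, map_zero, mul_zero, add_zero]
  · rintro ⟨a, rfl⟩
    exact cjp_cx a

theorem cx_dvd (p a : A) : cx p ∣ cx a ↔ p ∣ a := by
  constructor
  · rintro ⟨h, hh⟩
    obtain ⟨u, v, h1⟩ := exists_re_im h
    have h2 : cx a + C Complex.I * cx 0 = cx (p * u) + C Complex.I * cx (p * v) := by
      rw [hh, h1, map_zero, map_mul, map_mul]
      ring
    exact ⟨u, (re_im_unique h2).1⟩
  · intro h
    exact map_dvd cx h

theorem totalDegree_cx (a : A) : (cx a).totalDegree = a.totalDegree := by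
  unfold totalDegree cx
  rw [support_map_of_injective _ Complex.ofReal_injective]

theorem pderiv_cx (i : Fin 2) (a : A) : pderiv i (cx a) = cx (pderiv i a) := by
  exact pderiv_map

variable {F : Type} [Field F] [Algebra ℂ F] {s : RStr F} {p : A} {π : CP →ₐ[ℂ] F}

theorem IsCrv.pi_C (c : ℂ) : π (C c) = algebraMap ℂ F c := by
  exact π.commutes c

theorem IsCrv.real (hc : IsCrv p s π) (a : A) : s.σ (π (cx a)) = π (cx a) := by
  rw [hc.conj, cjp_cx]

theorem IsCrv.eq_zero_iff (hc : IsCrv p s π) (a : A) : π (cx a) = 0 ↔ p ∣ a := by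
  rw [hc.ker, cx_dvd]

theorem real_range (hc : IsCrv p s π) {f : F} (hf : s.σ f = f) (h : ∃ h : CP, f = π h) :
    ∃ a : A, f = π (cx a) := by
  obtain ⟨h, rfl⟩ := h
  obtain ⟨a, b, h1⟩ := exists_re_im h
  refine ⟨a, ?_⟩
  have h2 : π (cjp h) = π h := by rw [← hc.conj, hf]
  have h3 : h + cjp h = C (2 : ℂ) * cx a := by
    rw [h1]
    simp only [map_add, map_mul, cjp_cx, cjp_C, Complex.conj_I, C_neg]
    have h7 : (C (2 : ℂ) : CP) = 2 := rfl
    rw [h7]
    ring
  have h4 := congrArg π h3
  rw [map_add, h2, map_mul, IsCrv.pi_C] at h4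
  have h5 : algebraMap ℂ F 2 ≠ 0 := (map_ne_zero (algebraMap ℂ F)).2 (by norm_num)
  refine mul_left_cancel₀ h5 ?_
  rw [← h4, map_ofNat]
  ring

private theorem not_dvd_pderiv {p : A} {i : Fin 2} (h : pderiv i p ≠ 0) : ¬ p ∣ pderiv i p := by
  rintro ⟨r, hr⟩
  have hp0 : p ≠ 0 := by
    rintro rfl
    exact h (map_zero _)
  have hr0 : r ≠ 0 := by
    rintro rfl
    exact h (by rw [hr, mul_zero])
  have h1 : (pderiv i p).totalDegree = p.totalDegree + r.totalDegree := by
    conv_lhs => rw [hr]
    exact totalDegree_mul_of_isDomain hp0 hr0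
  obtain ⟨m, hm, hm2⟩ : ∃ m ∈ (pderiv i p).support, (m.sum fun _ e => e) = (pderiv i p).totalDegree := by
    have h2 : (pderiv i p).support.Nonempty := support_nonempty.2 h
    obtain ⟨m, hm, hm2⟩ := Finset.exists_mem_eq_sup _ h2 (fun s : Fin 2 →₀ ℕ => s.sum fun _ e => e)
    exact ⟨m, hm, hm2.symm⟩
  have h3 : m + Finsupp.single i 1 ∈ p.support := by
    rw [mem_support_iff] at hm ⊢
    rw [coeff_pderiv] at hm
    exact left_ne_zero_of_mul hm
  have h4 := le_totalDegree h3
  rw [Finsupp.sum_add_index' (fun _ => rfl) (fun _ _ _ => rfl), Finsupp.sum_single_index rfl, hm2, h1] at h4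
  omega

theorem IsCrv.pderiv_ne_zero (hc : IsCrv p s π) (hp : Irreducible p) :
    ∃ i, π (pderiv i (cx p)) ≠ 0 := by
  by_contra hcon
  push Not at hcon
  have h0 : ∀ i, pderiv i p = 0 := by
    intro i
    by_contra hi
    have h1 := hcon i
    rw [pderiv_cx, hc.eq_zero_iff] at h1
    exact not_dvd_pderiv hi h1
  have h1 : p = C (coeff 0 p) := by
    ext m
    rw [coeff_C]
    by_cases hm : 0 = m
    · rw [if_pos hm, hm]
    · rw [if_neg hm]
      obtain ⟨i, hi⟩ : ∃ i, m i ≠ 0 := by
        by_contra h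
        push Not at h
        exact hm (Finsupp.ext fun i => (h i).symm)
      have h2 := coeff_pderiv (i := i) p (m - Finsupp.single i 1)
      have h3 : m - Finsupp.single i 1 + Finsupp.single i 1 = m := by
        apply tsub_add_cancel_of_le
        rw [Finsupp.single_le_iff]
        omega
      rw [h0 i, coeff_zero, h3] at h2
      rcases mul_eq_zero.1 h2.symm with h4 | h4
      · exact h4
      · exfalso
        exact Nat.cast_add_one_ne_zero _ h4
  rw [h1] at hp
  rcases eq_or_ne (coeff 0 p) 0 with h2 | h2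
  · rw [h2, C_0] at hp
    exact hp.ne_zero rfl
  · exact hp.not_isUnit ((isUnit_iff_ne_zero.2 h2).map C)

end Pool.Agent.Helper10.GN
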