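import Pool.Agent.Helper10.GN.Val

set_option autoImplicit false

/-!
# Project GN, block SOSB: sums of squares of real functions, positivity at real places

`exists_real_unif`: `P` real, `π` a uniformizer (`FF.exists_uniformizer`); `a = (π + σ π) / 2` and
`b = (π - σ π) / (2 i)` are real, `π = a + i b`, both have order `≥ 1` or vanish (`ord_cj`, `P` real); if
both had order `≥ 2` (or vanished) so would `π`.
`Sos.posAt`: `f = ∑ g_i²`, all `g_i` real, not all zero; `m` = the minimum of the orders of the nonzero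
`g_i`, `h = π^m` (`zpow`, `π` a real uniformizer); `f / h² = ∑ (g_i / h)²`, all `g_i / h` are regular with
real values, not all of them zero.
`PosAt.even`: `ord f = 2 ord h`. `PosAt.rv_nonneg`: `g` regular, `g = h² (g/h²)`, `ord h ≥ 0`, `h` regular
with real value, so the value of `g` is `(value of h)² * positive`.
`HS.sos`: `v σ v = a² + b²`, `a = (v + σ v)/2`, `b = (v - σ v)/(2 i)` real.
-/

namespace Pool.Agent.Helper10.GN

open VC FF

variable {F : Type} [Field F] [Algebra ℂ F] {s : RStr F} {hF : IsFunctionField ℂ F}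

private lemma two_ne40 (F : Type) [Field F] [Algebra ℂ F] : (2 : F) ≠ 0 := by
  have h : algebraMap ℂ F 2 ≠ 0 := (_root_.map_ne_zero _).mpr two_ne_zero
  rwa [map_ofNat] at h

private lemma parts40 (s : RStr F) (v : F) : ∃ a b : F, s.σ a = a ∧ s.σ b = b ∧
    v = a + algebraMap ℂ F Complex.I * b ∧ s.σ v = a - algebraMap ℂ F Complex.I * b ∧
    a = algebraMap ℂ F (1 / 2) * (v + s.σ v) ∧
    b = algebraMap ℂ F (-Complex.I / 2) * (v - s.σ v) := by
  have hI : algebraMap ℂ F Complex.I * algebraMap ℂ F Complex.I = -1 := by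
    rw [← map_mul, Complex.I_mul_I, map_neg, map_one]
  have h2 := two_ne40 F
  have h3 : algebraMap ℂ F (1 / 2) = 1 / 2 := by
    rw [map_div₀, map_one, map_ofNat]
  have h4 : algebraMap ℂ F (-Complex.I / 2) = -algebraMap ℂ F Complex.I / 2 := by
    rw [map_div₀, map_neg, map_ofNat]
  refine ⟨algebraMap ℂ F (1 / 2) * (v + s.σ v), algebraMap ℂ F (-Complex.I / 2) * (v - s.σ v),
    ?_, ?_, ?_, ?_, rfl, rfl⟩
  · rw [map_mul, map_add, s.alg, s.inv]
    have h5 : (starRingEnd ℂ) (1 / 2 : ℂ) = 1 / 2 := by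
      rw [map_div₀, map_one, map_ofNat]
    rw [h5, add_comm]
  · rw [map_mul, map_sub, s.alg, s.inv]
    have h5 : (starRingEnd ℂ) (-Complex.I / 2 : ℂ) = -(-Complex.I / 2) := by
      rw [map_div₀, map_neg, Complex.conj_I, map_ofNat]
      ring
    rw [h5, map_neg]
    ring
  · rw [h3, h4]
    field_simp
    linear_combination (v - s.σ v) * hI
  · rw [h3, h4]
    field_simp
    linear_combination (-(v - s.σ v)) * hI

theorem exists_real_unif (s : RStr F) (hF : IsFunctionField ℂ F) {P : Place ℂ F}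
    (hP : s.cj P = P) : ∃ π : F, π ≠ 0 ∧ s.σ π = π ∧ ord P.ring π = 1 := by
  obtain ⟨π, hπ0, hπ⟩ := FF.exists_uniformizer hF P
  obtain ⟨a, b, ha, hb, hab, -, ha', hb'⟩ := parts40 s π
  have h1 : ord P.ring (s.σ π) = 1 := by
    have h2 := ord_cj s hF P π
    rw [hP, hπ] at h2
    exact h2.symm
  have hg1 : Oge P 1 π := Or.inr hπ.ge
  have hg2 : Oge P 1 (s.σ π) := Or.inr h1.ge
  have hga : Oge P 1 a := by
    rw [ha']
    have h3 := oge_mul hF (oge_alg hF (P := P) (1 / 2)) (oge_add hF hg1 hg2)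
    rwa [zero_add] at h3
  have hgb : Oge P 1 b := by
    rw [hb']
    have h3 := oge_mul hF (oge_alg hF (P := P) (-Complex.I / 2)) (oge_sub hF hg1 hg2)
    rwa [zero_add] at h3
  by_cases h3 : a ≠ 0 ∧ ord P.ring a = 1
  · exact ⟨a, h3.1, ha, h3.2⟩
  by_cases h4 : b ≠ 0 ∧ ord P.ring b = 1
  · exact ⟨b, h4.1, hb, h4.2⟩
  exfalso
  have h5 : Oge P 2 a := by
    rcases hga with h | h
    · exact Or.inl h
    · by_cases h0 : a = 0
      · exact Or.inl h0
      · right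
        have h6 : ord P.ring a ≠ 1 := fun h7 => h3 ⟨h0, h7⟩
        omega
  have h6 : Oge P 2 b := by
    rcases hgb with h | h
    · exact Or.inl h
    · by_cases h0 : b = 0
      · exact Or.inl h0
      · right
        have h6 : ord P.ring b ≠ 1 := fun h7 => h4 ⟨h0, h7⟩
        omega
  have h7 : Oge P 2 π := by
    rw [hab]
    have h8 := oge_mul hF (oge_alg hF (P := P) Complex.I) h6
    rw [zero_add] at h8
    exact oge_add hF h5 h8
  rcases h7 with h | h
  · exact hπ0 h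
  · omega

/-! ### `Sos` -/

theorem Sos.real {f : F} (h : Sos s f) : s.σ f = f := by
  obtain ⟨n, g, hg, rfl⟩ := h
  rw [map_sum]
  refine Finset.sum_congr rfl fun i _ => ?_
  rw [map_pow, hg]

theorem Sos.zero : Sos s (0 : F) := ⟨0, fun i => i.elim0, fun i => i.elim0, by simp⟩

theorem Sos.add {f g : F} (h : Sos s f) (h' : Sos s g) : Sos s (f + g) := by
  obtain ⟨n, u, hu, rfl⟩ := h
  obtain ⟨m, v, hv, rfl⟩ := h'
  refine ⟨n + m, Fin.append u v, ?_, ?_⟩
  · intro i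
    induction i using Fin.addCases with
    | left i => rw [Fin.append_left]; exact hu i
    | right i => rw [Fin.append_right]; exact hv i
  · rw [Fin.sum_univ_add]
    simp only [Fin.append_left, Fin.append_right]

theorem Sos.sq {f : F} (h : s.σ f = f) : Sos s (f ^ 2) :=
  ⟨1, fun _ => f, fun _ => h, by simp⟩

theorem Sos.sum {ι : Type} (t : Finset ι) (f : ι → F) (h : ∀ i ∈ t, Sos s (f i)) :
    Sos s (∑ i ∈ t, f i) := by
  classical
  induction t using Finset.induction_on with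
  | empty => rw [Finset.sum_empty]; exact Sos.zero
  | insert a t ha ih =>
    rw [Finset.sum_insert ha]
    exact Sos.add (h a (Finset.mem_insert_self a t))
      (ih fun i hi => h i (Finset.mem_insert_of_mem hi))

theorem Sos.mul {f g : F} (h : Sos s f) (h' : Sos s g) : Sos s (f * g) := by
  obtain ⟨n, u, hu, rfl⟩ := h
  obtain ⟨m, v, hv, rfl⟩ := h'
  rw [Finset.sum_mul_sum]
  refine Sos.sum _ _ fun i _ => Sos.sum _ _ fun j _ => ?_
  rw [← mul_pow]
  exact Sos.sq (by rw [map_mul, hu, hv])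

theorem Sos.const {r : ℝ} (h : 0 ≤ r) : Sos s (algebraMap ℂ F (r : ℂ)) := by
  have h1 : (r : ℂ) = ((√r : ℝ) : ℂ) ^ 2 := by
    rw [← Complex.ofReal_pow, Real.sq_sqrt h]
  rw [h1, map_pow]
  exact Sos.sq (by rw [s.alg, Complex.conj_ofReal])

theorem Sos.mul_cj (v : F) : Sos s (v * s.σ v) := by
  obtain ⟨a, b, ha, hb, h1, h2, -, -⟩ := parts40 s v
  have hI : algebraMap ℂ F Complex.I * algebraMap ℂ F Complex.I = -1 := by
    rw [← map_mul, Complex.I_mul_I, map_neg, map_one]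
  have h3 : v * s.σ v = a ^ 2 + b ^ 2 := by
    rw [h2]
    nth_rw 1 [h1]
    linear_combination (-b ^ 2) * hI
  rw [h3]
  exact Sos.add (Sos.sq ha) (Sos.sq hb)

theorem Sos.div {f g : F} (h : Sos s f) (h' : Sos s g) : Sos s (f / g) := by
  have h1 : f / g = f * g * (g⁻¹) ^ 2 := by
    rcases eq_or_ne g 0 with h0 | h0
    · rw [h0]; simp
    · field_simp
  rw [h1]
  exact Sos.mul (Sos.mul h h') (Sos.sq (by rw [map_inv₀, h'.real]))

/-! ### `HS` -/

theorem HS.sos {D : Place ℂ F →₀ ℤ} {f : F} (h : HS s D f) : Sos s f := by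
  obtain ⟨n, v, -, rfl⟩ := h
  exact Sos.sum _ _ fun i _ => Sos.mul_cj (v i)

theorem HS.zero {D : Place ℂ F →₀ ℤ} : HS s D (0 : F) :=
  ⟨0, fun i => i.elim0, fun i => i.elim0, by simp⟩

theorem HS.add {D : Place ℂ F →₀ ℤ} {f g : F} (h : HS s D f) (h' : HS s D g) :
    HS s D (f + g) := by
  obtain ⟨n, u, hu, rfl⟩ := h
  obtain ⟨m, v, hv, rfl⟩ := h'
  refine ⟨n + m, Fin.append u v, ?_, ?_⟩
  · intro i
    induction i using Fin.addCases with
    | left i => rw [Fin.append_left]; exact hu i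
    | right i => rw [Fin.append_right]; exact hv i
  · rw [Fin.sum_univ_add]
    simp only [Fin.append_left, Fin.append_right]

theorem HS.sum {D : Place ℂ F →₀ ℤ} {ι : Type} (t : Finset ι) (f : ι → F)
    (h : ∀ i ∈ t, HS s D (f i)) : HS s D (∑ i ∈ t, f i) := by
  classical
  induction t using Finset.induction_on with
  | empty => rw [Finset.sum_empty]; exact HS.zero
  | insert a t ha ih =>
    rw [Finset.sum_insert ha]
    exact HS.add (h a (Finset.mem_insert_self a t))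
      (ih fun i hi => h i (Finset.mem_insert_of_mem hi))

theorem HS.mul_cj {D : Place ℂ F →₀ ℤ} {v : F} (h : v ∈ L D) : HS s D (v * s.σ v) :=
  ⟨1, fun _ => v, fun _ => h, by simp⟩

include hF in
theorem HS.mul {D D' : Place ℂ F →₀ ℤ} {f g : F} (h : HS s D f) (h' : HS s D' g) :
    HS s (D + D') (f * g) := by
  obtain ⟨n, u, hu, rfl⟩ := h
  obtain ⟨m, v, hv, rfl⟩ := h'
  rw [Finset.sum_mul_sum]
  refine HS.sum _ _ fun i _ => HS.sum _ _ fun j _ => ?_
  have h1 : u i * s.σ (u i) * (v j * s.σ (v j)) = (u i * v j) * s.σ (u i * v j) := by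
    rw [map_mul]
    ring
  rw [h1]
  exact HS.mul_cj (L_mul hF (hu i) (hv j))

include hF in
theorem HS.mono {D D' : Place ℂ F →₀ ℤ} {f : F} (h : HS s D f) (hD : ∀ P, D P ≤ D' P) :
    HS s D' f := by
  obtain ⟨n, u, hu, rfl⟩ := h
  exact ⟨n, u, fun i => L_mono hF hD (hu i), rfl⟩

theorem HS.smul {D : Place ℂ F →₀ ℤ} {f : F} {r : ℝ} (hr : 0 ≤ r) (h : HS s D f) :
    HS s D (algebraMap ℂ F (r : ℂ) * f) := by
  obtain ⟨n, u, hu, rfl⟩ := h
  have h1 : (r : ℂ) = ((√r : ℝ) : ℂ) * ((√r : ℝ) : ℂ) := by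
    rw [← Complex.ofReal_mul, Real.mul_self_sqrt hr]
  refine ⟨n, fun i => algebraMap ℂ F ((√r : ℝ) : ℂ) * u i, ?_, ?_⟩
  · intro i
    change algebraMap ℂ F ((√r : ℝ) : ℂ) * u i ∈ L D
    rw [← Algebra.smul_def]
    exact Submodule.smul_mem _ _ (hu i)
  · rw [Finset.mul_sum]
    refine Finset.sum_congr rfl fun i _ => ?_
    rw [map_mul, s.alg, Complex.conj_ofReal, h1, map_mul]
    ring

include hF in
theorem HS.const {S : Finset (Place ℂ F)} {m : ℕ} {r : ℝ} (hr : 0 ≤ r) :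
    HS s (dS S m) (algebraMap ℂ F (r : ℂ)) := by
  have h1 : (1 : F) ∈ L (dS S m) := by
    rw [mem_L_dS_iff hF]
    refine ⟨fun P _ => Or.inr ?_, fun P _ => P.ring.one_mem⟩
    rw [FF.ord_one hF P]
    omega
  have h2 := HS.smul hr (HS.mul_cj (s := s) h1)
  rw [map_one, mul_one, mul_one] at h2
  exact h2

/-- values of `HS` at real places outside the poles -/
theorem HS.rv_nonneg {S : Finset (Place ℂ F)} (hS : SData s S) {m : ℤ} {f : F}
    (h : HS s (dS S m) f) {P : Place ℂ F} (hP : s.cj P = P) : f ∈ P.ring ∧ 0 ≤ rv hF P f := by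
  obtain ⟨n, v, hv, rfl⟩ := h
  have hPS : P ∉ S := fun h1 => hS.cj_ne P h1 hP
  have h1 : ∀ i, v i ∈ P.ring := fun i => ((mem_L_dS_iff hF).1 (hv i)).2 P hPS
  have h2 : ∀ i, v i * s.σ (v i) ∈ P.ring := fun i =>
    P.ring.mul_mem _ _ (h1 i) (sigma_mem s hP (h1 i))
  refine ⟨P.ring.toSubring.sum_mem fun i _ => h2 i, ?_⟩
  rw [rv_sum hF _ _ fun i _ => h2 i]
  refine Finset.sum_nonneg fun i _ => ?_
  rw [rv_mul_cj s hF hP (h1 i)]
  positivity

/-! ### `PosAt` -/

theorem Sos.posAt {f : F} (h : Sos s f) (h0 : f ≠ 0) {P : Place ℂ F} (hP : s.cj P = P) :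
    PosAt s hF P f := by
  obtain ⟨n, g, hg, rfl⟩ := h
  have hex : ∃ i, g i ≠ 0 := by
    by_contra hcon
    push Not at hcon
    apply h0
    refine Finset.sum_eq_zero fun i _ => ?_
    rw [hcon i]
    simp
  classical
  have hne : (Finset.univ.filter fun i => g i ≠ 0).Nonempty := by
    obtain ⟨i, hi⟩ := hex
    exact ⟨i, by simp [hi]⟩
  obtain ⟨i₀, hi₀, hmin⟩ := Finset.exists_min_image _ (fun i => ord P.ring (g i)) hne
  have hi₀' : g i₀ ≠ 0 := (Finset.mem_filter.1 hi₀).2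
  obtain ⟨π, hπ0, hπσ, hπ⟩ := exists_real_unif s hF hP
  obtain ⟨u, hu⟩ : ∃ u, u = π ^ (ord P.ring (g i₀)) := ⟨_, rfl⟩
  have hu0 : u ≠ 0 := by rw [hu]; exact zpow_ne_zero _ hπ0
  have huσ : s.σ u = u := by rw [hu, map_zpow₀, hπσ]
  have huo : ord P.ring u = ord P.ring (g i₀) := by
    rw [hu, FF.ord_zpow hF P hπ0, hπ, mul_one]
  have h1 : ∀ i, g i / u ∈ P.ring := by
    intro i
    by_cases hi : g i = 0
    · rw [hi, zero_div]
      exact P.ring.zero_mem
    · rw [← FF.ord_nonneg_iff hF P (div_ne_zero hi hu0), FF.ord_div hF P hi hu0, huo]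
      have := hmin i (by simp [hi])
      omega
  have hσ1 : ∀ i, s.σ (g i / u) = g i / u := fun i => by rw [map_div₀, hg, huσ]
  have h2 : (∑ i, g i ^ 2) / u ^ 2 = ∑ i, (g i / u) ^ 2 := by
    rw [Finset.sum_div]
    exact Finset.sum_congr rfl fun i _ => (div_pow _ _ _).symm
  have h3 : ∀ i, (g i / u) ^ 2 ∈ P.ring := fun i => P.ring.toSubring.pow_mem (h1 i) 2
  refine ⟨u, hu0, huσ, ?_, ?_⟩
  · rw [h2]
    exact P.ring.toSubring.sum_mem fun i _ => h3 i
  · rw [h2, rv_sum hF _ _ fun i _ => h3 i]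
    have h4 : ∀ i, rv hF P ((g i / u) ^ 2) = rv hF P (g i / u) ^ 2 := fun i =>
      rv_pow s hF hP (h1 i) (hσ1 i) 2
    have h5 : rv hF P (g i₀ / u) ≠ 0 := by
      intro h6
      have h7 := vl_real s hF hP (hσ1 i₀)
      rw [h6, Complex.ofReal_zero] at h7
      refine vl_ne_zero hF (div_ne_zero hi₀' hu0) ?_ h7
      rw [FF.ord_div hF P hi₀' hu0, huo, sub_self]
    have h6 : 0 < rv hF P ((g i₀ / u) ^ 2) := by
      rw [h4]
      positivity
    exact lt_of_lt_of_le h6 (Finset.single_le_sum (f := fun i => rv hF P ((g i / u) ^ 2))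
      (fun i _ => by change 0 ≤ rv hF P ((g i / u) ^ 2); rw [h4]; positivity)
      (Finset.mem_univ i₀))

theorem PosAt.ne_zero {P : Place ℂ F} {g : F} (h : PosAt s hF P g) : g ≠ 0 := by
  rintro rfl
  obtain ⟨u, -, -, -, h1⟩ := h
  rw [zero_div] at h1
  unfold rv at h1
  rw [vl_zero, Complex.zero_re] at h1
  exact lt_irrefl _ h1

private lemma vl_ne40 {P : Place ℂ F} {g : F} (h : 0 < rv hF P g) : vl hF P g ≠ 0 := by
  intro h1
  unfold rv at h
  rw [h1, Complex.zero_re] at h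
  exact lt_irrefl _ h

theorem PosAt.even {P : Place ℂ F} {g : F} (h : PosAt s hF P g) : ∃ k : ℤ, ord P.ring g = 2 * k := by
  have hg0 := h.ne_zero
  obtain ⟨u, hu0, -, h1, h2⟩ := h
  have h3 := ord_eq_zero_of_vl hF h1 (vl_ne40 h2)
  rw [FF.ord_div hF P hg0 (pow_ne_zero 2 hu0), FF.ord_pow hF P hu0] at h3
  refine ⟨ord P.ring u, ?_⟩
  push_cast at h3
  omega

theorem PosAt.of_pos {P : Place ℂ F} {g : F} (h : g ∈ P.ring) (h' : 0 < rv hF P g) :
    PosAt s hF P g := by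
  refine ⟨1, one_ne_zero, map_one _, ?_, ?_⟩
  · rw [one_pow, div_one]; exact h
  · rw [one_pow, div_one]; exact h'

theorem PosAt.mul {P : Place ℂ F} (hP : s.cj P = P) {f g : F} (hf : s.σ f = f) (hg : s.σ g = g)
    (h : PosAt s hF P f) (h' : PosAt s hF P g) : PosAt s hF P (f * g) := by
  obtain ⟨u, hu0, hu, h1, h2⟩ := h
  obtain ⟨v, hv0, hv, h3, h4⟩ := h'
  have h5 : f * g / (u * v) ^ 2 = f / u ^ 2 * (g / v ^ 2) := by
    field_simp
  refine ⟨u * v, mul_ne_zero hu0 hv0, by rw [map_mul, hu, hv], ?_, ?_⟩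
  · rw [h5]
    exact P.ring.mul_mem _ _ h1 h3
  · rw [h5, rv_mul s hF hP h1 h3 (by rw [map_div₀, map_pow, hf, hu])
      (by rw [map_div₀, map_pow, hg, hv])]
    exact mul_pos h2 h4

theorem PosAt.div {P : Place ℂ F} (hP : s.cj P = P) {f g : F} (hf : s.σ f = f) (hg : s.σ g = g)
    (h : PosAt s hF P f) (h' : PosAt s hF P g) : PosAt s hF P (f / g) := by
  have hg0 := h'.ne_zero
  obtain ⟨u, hu0, hu, h1, h2⟩ := h
  obtain ⟨v, hv0, hv, h3, h4⟩ := h'
  have h5 : f / g / (u / v) ^ 2 = f / u ^ 2 * (g / v ^ 2)⁻¹ := by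
    field_simp
  have h6 := vl_inv hF h3 (vl_ne40 h4)
  have h7 : s.σ (g / v ^ 2) = g / v ^ 2 := by rw [map_div₀, map_pow, hg, hv]
  have h8 : rv hF P (g / v ^ 2)⁻¹ = (rv hF P (g / v ^ 2))⁻¹ := by
    have h9 := h6.2
    rw [vl_real s hF hP h7, ← Complex.ofReal_inv] at h9
    unfold rv at h9 ⊢
    rw [h9, Complex.ofReal_re]
  refine ⟨u / v, div_ne_zero hu0 hv0, by rw [map_div₀, hu, hv], ?_, ?_⟩
  · rw [h5]
    exact P.ring.mul_mem _ _ h1 h6.1
  · rw [h5, rv_mul s hF hP h1 h6.1 (by rw [map_div₀, map_pow, hf, hu])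
      (by rw [map_inv₀, h7]), h8]
    exact mul_pos h2 (inv_pos.2 h4)

theorem PosAt.rv_nonneg {P : Place ℂ F} (hP : s.cj P = P) {g : F} (_hg : s.σ g = g)
    (h : PosAt s hF P g) (hr : g ∈ P.ring) : 0 ≤ rv hF P g := by
  have hg0 := h.ne_zero
  obtain ⟨u, hu0, hu, h1, h2⟩ := h
  have h3 := ord_eq_zero_of_vl hF h1 (vl_ne40 h2)
  rw [FF.ord_div hF P hg0 (pow_ne_zero 2 hu0), FF.ord_pow hF P hu0] at h3
  have h4 := (FF.ord_nonneg_iff hF P hg0).2 hr
  have h5 : u ∈ P.ring := by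
    rw [← FF.ord_nonneg_iff hF P hu0]
    push_cast at h3
    omega
  have h6 : g = u ^ 2 * (g / u ^ 2) := by field_simp
  have h7 : u ^ 2 ∈ P.ring := P.ring.toSubring.pow_mem h5 2
  rw [h6, rv_mul s hF hP h7 h1 (by rw [map_pow, hu]) (by rw [map_div₀, map_pow, _hg, hu]),
    rv_pow s hF hP h5 hu]
  exact mul_nonneg (sq_nonneg _) h2.le

theorem PosAt.rv_pos {P : Place ℂ F} (hP : s.cj P = P) {g : F} (hg : s.σ g = g)
    (h : PosAt s hF P g) (h0 : ord P.ring g = 0) : 0 < rv hF P g := by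
  have hg0 := h.ne_zero
  have hr : g ∈ P.ring := (FF.ord_nonneg_iff hF P hg0).1 h0.ge
  refine lt_of_le_of_ne (h.rv_nonneg hP hg hr) ?_
  intro h1
  refine vl_ne_zero hF hg0 h0 ?_
  rw [vl_real s hF hP hg, ← h1, Complex.ofReal_zero]

theorem Sos.rv_nonneg {f : F} (h : Sos s f) {P : Place ℂ F} (hP : s.cj P = P)
    (hr : f ∈ P.ring) : 0 ≤ rv hF P f := by
  rcases eq_or_ne f 0 with h0 | h0
  · rw [h0]
    unfold rv
    rw [vl_zero, Complex.zero_re]
  · exact (h.posAt (hF := hF) h0 hP).rv_nonneg hP h.real hr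

end Pool.Agent.Helper10.GN
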