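import Pool.Agent.Helper10.GN.Alc
import Pool.Agent.Helper10.GN.CB
import Pool.Agent.Helper10.GN.SosB
import Pool.Agent.Helper10.TC.Ord
import Pool.Agent.Helper10.TC.CloB

set_option autoImplicit false

/-!
# Project GN, block ART: nonnegative polynomials on the curve are sums of squares of functions

Adapt `Pool/Agent/Helper10/TC/Art.lean`. Let `F₀ = {f ∈ F : σ f = f}` (a subfield, `Subfield` or
`IntermediateField` over `ℝ`), `T` the set of sums of squares in `F₀` (`Sos`), suppose `b = π (cx a) ∉ T` (`b ≠ 0`). `-1 ∉ T` (otherwise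
every element `x = ((x+1)/2)² + (-1) ((x-1)/2)²` is in `T`). Then `T - b T` is a preordering of the field `F₀` not containing `-1`, by
`TC.exists_order` there is an ordering of `F₀` with `b < 0`; by `TC.exists_ivt` an ordered extension `E` with `IVT E`. Let
`φ : A → F₀ → E`, `φ = i ∘ π ∘ cx`; `φ p = 0`, `φ a < 0`. If `p` involves `X 1`, then `X 0` is transcendental: for a nonzero real
polynomial `q` with `q(φ (X 0)) = 0` we get `π (cx (q(X 0))) = 0`, so `p ∣ q(X 0)`, impossible. `artin_lang_curve` gives a real `z` with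
`eval z p = 0`, `eval z a < 0`, contradiction. If `p` does not involve `X 1` it is linear in `X 0` (irreducible with a real zero:
`SC p`): exchange the variables (apply the argument to `φ ∘ swap`, `swap p`, `swap a`).
`sos_regular`: if `c - f² ` is `Sos` for a real `f` and a real constant `c` then `f` is regular at all real places: at a real place of negative
order of `f`, `f² + ∑ g_i² = c` has negative order (the sum of the squares `f², g_i²` is `Sos`; `Sos.posAt`: its order is twice the minimum: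
divide by the square `h²` with `h` a power of a real uniformizer, values of squares cannot cancel).
-/

namespace Pool.Agent.Helper10.GN

open VC FF MvPolynomial Pool.Agent.Helper68.QM

variable {F : Type} [Field F] [Algebra ℂ F] {s : RStr F}
variable {p : A} {π : CP →ₐ[ℂ] F}

private lemma deg_aeval86 {i j : Fin 2} (h : i ≠ j) (q : Polynomial ℝ) :
    degreeOf i (Polynomial.aeval (X j : A) q) = 0 := by
  induction q using Polynomial.induction_on' with
  | add p q hp hq =>
    rw [map_add]
    have h1 := degreeOf_add_le i (Polynomial.aeval (X j : A) p) (Polynomial.aeval (X j : A) q)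
    rw [hp, hq, max_self] at h1
    exact Nat.le_zero.1 h1
  | monomial n a =>
    rw [Polynomial.aeval_monomial]
    have h1 := degreeOf_C_mul_le ((X j : A) ^ n) i a
    rw [degreeOf_X_pow_of_ne n h] at h1
    exact Nat.le_zero.1 h1

private lemma deg_dvd86 {i j : Fin 2} (h : i ≠ j) {q : Polynomial ℝ} (hq : q ≠ 0) {p : A}
    (hd : p ∣ Polynomial.aeval (X j : A) q) : degreeOf i p = 0 := by
  have h0 : Polynomial.aeval (X j : A) q ≠ 0 := by
    intro h1
    exact hq ((transcendental_iff.1 (transcendental_X ℝ j)) q h1)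
  obtain ⟨r, hr⟩ := hd
  have hp0 : p ≠ 0 := by
    rintro rfl
    exact h0 (by rw [hr, zero_mul])
  have hr0 : r ≠ 0 := by
    rintro rfl
    exact h0 (by rw [hr, mul_zero])
  have h1 := degreeOf_mul_eq (n := i) hp0 hr0
  rw [← hr, deg_aeval86 h] at h1
  omega

private lemma const86 {p : A} (h0 : degreeOf 0 p = 0) (h1 : degreeOf 1 p = 0) :
    ¬ Irreducible p := by
  intro hp
  have h2 : p = C (coeff 0 p) := by
    ext m
    rw [coeff_C]
    split_ifs with hm
    · rw [hm]
    · by_contra h3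
      apply hm
      have h4 : m ∈ p.support := mem_support_iff.2 h3
      have h5 := monomial_le_degreeOf 0 h4
      have h6 := monomial_le_degreeOf 1 h4
      rw [h0] at h5
      rw [h1] at h6
      ext i
      fin_cases i
      · exact (Nat.le_zero.1 h5).symm
      · exact (Nat.le_zero.1 h6).symm
  rw [h2] at hp
  by_cases h4 : coeff 0 p = 0
  · rw [h4, C_0] at hp
    exact not_irreducible_zero hp
  · exact hp.not_isUnit ((isUnit_iff_ne_zero.2 h4).map C)

/-- the field of real functions -/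
private def realF86 (s : RStr F) : Subfield F where
  carrier := {x | s.σ x = x}
  mul_mem' := fun {a b} ha hb => by
    change s.σ (a * b) = a * b
    rw [map_mul]
    exact congrArg₂ _ ha hb
  add_mem' := fun {a b} ha hb => by
    change s.σ (a + b) = a + b
    rw [map_add]
    exact congrArg₂ _ ha hb
  one_mem' := map_one _
  zero_mem' := map_zero _
  neg_mem' := fun {a} ha => by
    change s.σ (-a) = -a
    rw [map_neg]
    exact congrArg _ ha
  inv_mem' := fun a ha => by
    change s.σ a⁻¹ = a⁻¹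
    rw [map_inv₀]
    exact congrArg _ ha

private lemma al86 {K : Type} [Field K] [LinearOrder K] [IsStrictOrderedRing K]
    (hK : Pool.Agent.Helper10.TC.IVT K) (φ : A →+* K) {p a : A} (hp : Irreducible p)
    (hk : ∀ h, φ h = 0 → p ∣ h) (hφp : φ p = 0) (hφa : φ a < 0) :
    ∃ z : Fin 2 → ℝ, eval z p = 0 ∧ eval z a < 0 := by
  have key : ∀ (j : Fin 2) (q : Polynomial ℝ),
      q.eval₂ (φ.comp C) (φ (X j)) = φ (Polynomial.aeval (X j : A) q) := by
    intro j q
    rw [Polynomial.aeval_def, ← Polynomial.hom_eval₂]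
    rfl
  by_cases h0 : ∀ q : Polynomial ℝ, q ≠ 0 → q.eval₂ (φ.comp C) (φ (X 0)) ≠ 0
  · exact artin_lang_curve hK φ h0 p a hφp hφa
  · push Not at h0
    obtain ⟨q, hq, hq0⟩ := h0
    rw [key] at hq0
    have hd1 : degreeOf 1 p = 0 := deg_dvd86 (by decide) hq (hk _ hq0)
    let sw : Fin 2 → Fin 2 := Equiv.swap 0 1
    have hsw : ∀ h : A, rename sw (rename sw h) = h := by
      intro h
      rw [rename_rename]
      have e : sw ∘ sw = id := by
        funext i
        exact Equiv.swap_apply_self 0 1 i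
      rw [e, rename_id_apply]
    let ψ : A →+* K := φ.comp (rename sw : A →ₐ[ℝ] A).toRingHom
    have hψ : ∀ h : A, ψ h = φ (rename sw h) := fun h => rfl
    have hψC : ψ.comp C = φ.comp C := by
      refine RingHom.ext fun r => ?_
      change φ (rename sw (C r)) = φ (C r)
      rw [rename_C]
    have hψX : ψ (X 0) = φ (X 1) := by
      rw [hψ, rename_X]
      rfl
    obtain ⟨z, hz1, hz2⟩ := artin_lang_curve hK ψ (by
        intro r hr h1
        rw [hψC, hψX, key] at h1
        have hd0 : degreeOf 0 p = 0 := deg_dvd86 (by decide) hr (hk _ h1)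
        exact const86 hd0 hd1 hp) (rename sw p) (rename sw a)
      (by rw [hψ, hsw, hφp]) (by rw [hψ, hsw]; exact hφa)
    refine ⟨z ∘ sw, ?_, ?_⟩
    · rwa [eval_rename] at hz1
    · rwa [eval_rename] at hz2

theorem art (hc : IsCrv p s π) (hp : Irreducible p) (hsc : SC p) {a : A}
    (ha : ∀ z : Fin 2 → ℝ, eval z p = 0 → 0 ≤ eval z a) : Sos s (π (cx a)) := by
  by_contra hcon
  have hreal : ∀ h : A, s.σ (π (cx h)) = π (cx h) := fun h => by rw [hc.conj, cjp_cx]
  have h20 : (2 : F) ≠ 0 := by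
    have h : algebraMap ℂ F 2 ≠ 0 := (_root_.map_ne_zero _).mpr two_ne_zero
    rwa [map_ofNat] at h
  obtain ⟨b, hb⟩ : ∃ b, b = π (cx a) := ⟨_, rfl⟩
  have hbσ : s.σ b = b := by rw [hb, hreal]
  rw [← hb] at hcon
  have hm1 : ¬ Sos s (-1 : F) := by
    intro h1
    apply hcon
    have h3 : b = ((b + 1) / 2) ^ 2 + (-1) * ((b - 1) / 2) ^ 2 := by
      field_simp
      ring
    rw [h3]
    have h2σ : s.σ (2 : F) = 2 := map_ofNat _ _
    refine Sos.add (Sos.sq ?_) (Sos.mul h1 (Sos.sq ?_))
    · rw [map_div₀, map_add, hbσ, map_one, h2σ]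
    · rw [map_div₀, map_sub, hbσ, map_one, h2σ]
  have hone : Sos s (1 : F) := by
    have h := Sos.sq (s := s) (map_one s.σ)
    rwa [one_pow] at h
  let F₀ := realF86 s
  have hF₀ : ∀ x : F₀, s.σ (x : F) = (x : F) := fun x => x.2
  obtain ⟨lo, so, ho⟩ := Pool.Agent.Helper10.TC.exists_order (F := F₀)
    {w : F₀ | ∃ t t' : F, Sos s t ∧ Sos s t' ∧ (w : F) = t - b * t'}
    (by
      rintro w ⟨t, t', ht, ht', h⟩ w' ⟨u, u', hu, hu', h'⟩
      refine ⟨t + u, t' + u', ht.add hu, ht'.add hu', ?_⟩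
      rw [Subfield.coe_add, h, h']
      ring)
    (by
      rintro w ⟨t, t', ht, ht', h⟩ w' ⟨u, u', hu, hu', h'⟩
      refine ⟨t * u + b ^ 2 * (t' * u'), t * u' + t' * u,
        (ht.mul hu).add ((Sos.sq hbσ).mul (ht'.mul hu')), (ht.mul hu').add (ht'.mul hu), ?_⟩
      rw [Subfield.coe_mul, h, h']
      ring)
    (fun w => ⟨(w : F) ^ 2, 0, Sos.sq (hF₀ w), Sos.zero, by
      rw [mul_zero, sub_zero]
      exact map_pow F₀.subtype w 2⟩)
    (by
      rintro ⟨t, t', ht, ht', h⟩
      have h0 : (-1 : F) = t - b * t' := by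
        rw [← h]
        push_cast
        rfl
      have h3 : b * t' = 1 + t := by linear_combination h0
      have h4 : t' ≠ 0 := by
        rintro rfl
        apply hm1
        have h5 : (-1 : F) = t := by linear_combination h0
        rwa [h5]
      apply hcon
      have h5 : b = (1 + t) / t' := by
        rw [← h3]
        field_simp
      rw [h5]
      exact (hone.add ht).div ht')
  obtain ⟨E, _, _, _, i, hi, hE⟩ := Pool.Agent.Helper10.TC.exists_ivt F₀
  let ρ : A →+* F₀ := (π.toRingHom.comp cx).codRestrict F₀ hreal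
  have hρ : ∀ h : A, (ρ h : F) = π (cx h) := fun h => rfl
  have hρ0 : ∀ h : A, (i.comp ρ) h = 0 → p ∣ h := by
    intro h hh
    have h1 : ρ h = 0 := (_root_.map_eq_zero i).1 hh
    have h2 : π (cx h) = 0 := by
      rw [← hρ, h1]
      rfl
    exact (cx_dvd p h).1 ((hc.ker _).1 h2)
  have hρp : (i.comp ρ) p = 0 := by
    have h1 : ρ p = 0 := by
      apply Subtype.ext
      rw [hρ]
      exact (hc.ker _).2 dvd_rfl
    change i (ρ p) = 0
    rw [h1, map_zero]
  have hneg : 0 ≤ -(ρ a) := ho _ ⟨0, 1, Sos.zero, hone, by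
    rw [Subfield.coe_neg, hρ, ← hb]
    ring⟩
  have hne : -(ρ a) ≠ 0 := by
    intro h1
    apply hcon
    have h2 : ρ a = 0 := neg_eq_zero.1 h1
    rw [hb, ← hρ, h2]
    exact Sos.zero
  have hρa : (i.comp ρ) a < 0 := by
    have h1 := hi _ (lt_of_le_of_ne hneg hne.symm)
    rw [map_neg] at h1
    exact neg_pos.1 h1
  obtain ⟨z, hz1, hz2⟩ := al86 hE (i.comp ρ) hp hρ0 hρp hρa
  exact absurd (ha z hz1) (not_le.2 hz2)

theorem sos_regular (hF : IsFunctionField ℂ F) {f : F} (hf : s.σ f = f) (c : ℝ)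
    (h : Sos s (algebraMap ℂ F (c : ℂ) - f ^ 2)) : Reg s f := by
  intro P hP
  by_contra hfP
  have hf0 : f ≠ 0 := by
    rintro rfl
    exact hfP P.ring.zero_mem
  have hinv : f⁻¹ ∈ P.ring := (P.ring.mem_or_inv_mem f).resolve_left hfP
  have hinvσ : s.σ f⁻¹ = f⁻¹ := by rw [map_inv₀, hf]
  have hv : vl hF P f⁻¹ = 0 := by
    by_contra h1
    have h2 := (vl_inv hF hinv h1).1
    rw [inv_inv] at h2
    exact hfP h2
  have hrv : rv hF P f⁻¹ = 0 := by
    unfold rv
    rw [hv, Complex.zero_re]
  have h2 : Sos s ((algebraMap ℂ F (c : ℂ) - f ^ 2) / f ^ 2) := h.div (Sos.sq hf)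
  have e : (algebraMap ℂ F (c : ℂ) - f ^ 2) / f ^ 2 = algebraMap ℂ F (c : ℂ) * f⁻¹ ^ 2 - 1 := by
    field_simp
  rw [e] at h2
  have h3 : f⁻¹ ^ 2 ∈ P.ring := P.ring.toSubring.pow_mem hinv 2
  have h4 : algebraMap ℂ F (c : ℂ) ∈ P.ring := P.algebraMap_mem _
  have h5 : algebraMap ℂ F (c : ℂ) * f⁻¹ ^ 2 ∈ P.ring := P.ring.mul_mem _ _ h4 h3
  have h6 := h2.rv_nonneg (hF := hF) hP (P.ring.toSubring.sub_mem h5 P.ring.one_mem)
  rw [rv_sub hF h5 P.ring.one_mem,
    rv_mul s hF hP h4 h3 (by rw [s.alg, Complex.conj_ofReal]) (by rw [map_pow, hinvσ]),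
    rv_pow s hF hP hinv hinvσ, hrv] at h6
  have h7 : rv hF P (1 : F) = 1 := by
    unfold rv
    rw [vl_one, Complex.one_re]
  rw [h7] at h6
  norm_num at h6

end Pool.Agent.Helper10.GN
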