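import Pool.Agent.Helper10.GN.PosB
import Pool.Agent.Helper10.GN.Appr

set_option autoImplicit false

/-!
# Project GN, block BLW: functions bounded below at the real places

`blw_reg`: `w, q` real, regular at all real places, `q ≥ 0`, and `w > 0` where `q = 0`. Then `w + M q > 0` at all real places for some `M`.
Proof: `S` with `w, q` regular outside `S` (`exists_sdata_poles'`), `R = BSub s S`, `T = {b : ∃ m, HS s (dS S m) b}` (as in block POSB, Archimedean) and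
`T' = {t - w t' : t, t' ∈ T}`. A homomorphism `φ ≥ 0` on `T'` is `rv P` for a real place (`exists_place_of_hom`), `w(P) ≤ 0`, so `q(P) > 0`;
`kadison_dubois` for `T'`, `b = q`: `q = ε + t - w t'`, `ε > 0`. At a real place with `w(P) ≤ 0`: `q(P) ≥ ε`. Take `M = (C + 1)/ε`, `C` a bound for `|w|`
(`bdd`): if `w(P) ≤ 0` then `w + M q ≥ - C + C + 1`; if `w(P) > 0` clear.
`blw`: `v` real, at every real place regular or `PosAt`. Then `v + M` is `PosAt` at all real places for some `M > 0`. Let `P_1, ..., P_k` be the real poles of `v` (finite),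
`h_j` real with `v/h_j²` regular and positive at `P_j`. By `appr_real` a real `h`, `≡ h_j` at `P_j` to sufficiently high order (so `v/h²` is regular and
positive at `P_j`, `h` has a pole there), regular at the other real places. `q = 1/(1 + h²)` and `w = v q` are regular at all real places: at `P_j`
`w` has the positive value of `v/h²`, `q` vanishes exactly at the `P_j`. So `w + M q > 0` and `v + M = (w + M q)(1 + h²)` is
`PosAt` (`1 + h²` is a nonzero sum of squares, `Sos.posAt`).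
-/

namespace Pool.Agent.Helper10.GN

open VC FF

variable {F : Type} [Field F] [Algebra ℂ F] {s : RStr F} (hF : IsFunctionField ℂ F)

private theorem inv_pos11 {P : Place ℂ F} (hP : s.cj P = P) {a : F} (ha : s.σ a = a) (hr : a ∈ P.ring)
    (hpos : 0 < rv hF P a) : a⁻¹ ∈ P.ring ∧ 0 < rv hF P a⁻¹ := by
  have h0 : vl hF P a ≠ 0 := by
    intro h
    unfold rv at hpos
    rw [h, Complex.zero_re] at hpos
    exact lt_irrefl _ hpos
  obtain ⟨h1, h2⟩ := vl_inv hF hr h0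
  refine ⟨h1, ?_⟩
  rw [vl_real s hF hP ha, ← Complex.ofReal_inv] at h2
  unfold rv at h2 ⊢
  rw [h2, Complex.ofReal_re]
  exact inv_pos.2 hpos

private theorem one_add_sq11 {P : Place ℂ F} (hP : s.cj P = P) {h : F} (hh : s.σ h = h) (hr : h ∈ P.ring) :
    1 + h ^ 2 ∈ P.ring ∧ 0 < rv hF P (1 + h ^ 2) := by
  have h1 : h ^ 2 ∈ P.ring := P.ring.toSubring.pow_mem hr 2
  refine ⟨P.ring.add_mem _ _ P.ring.one_mem h1, ?_⟩
  rw [rv_add hF P.ring.one_mem h1, rv_pow s hF hP hr hh]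
  have h2 : rv hF P (1 : F) = 1 := by
    unfold rv
    rw [vl_one, Complex.one_re]
  rw [h2]
  positivity

private theorem pole11 {P : Place ℂ F} {h : F} (hr : h ∉ P.ring) : h⁻¹ ∈ P.ring ∧ vl hF P h⁻¹ = 0 := by
  have h1 : h⁻¹ ∈ P.ring := (P.ring.mem_or_inv_mem h).resolve_left hr
  refine ⟨h1, ?_⟩
  by_contra h2
  have h3 := (vl_inv hF h1 h2).1
  rw [inv_inv] at h3
  exact hr h3

private theorem sigma_one_add11 {h : F} (hh : s.σ h = h) : s.σ (1 + h ^ 2) = 1 + h ^ 2 := by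
  rw [map_add, map_one, map_pow, hh]

/-- `1 + h²` is positive at all real places -/
private theorem posAt11 {P : Place ℂ F} (hP : s.cj P = P) {h : F} (hh : s.σ h = h) :
    PosAt s hF P (1 + h ^ 2) := by
  by_cases hr : h ∈ P.ring
  · exact PosAt.of_pos (one_add_sq11 hF hP hh hr).1 (one_add_sq11 hF hP hh hr).2
  · have h0 : h ≠ 0 := by
      rintro rfl
      exact hr P.ring.zero_mem
    have h1 := (pole11 hF hr).1
    have h2 := one_add_sq11 hF hP (h := h⁻¹) (by rw [map_inv₀, hh]) h1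
    have e : (1 + h ^ 2) / h ^ 2 = 1 + h⁻¹ ^ 2 := by
      field_simp
      ring
    refine ⟨h, h0, hh, ?_, ?_⟩
    · rw [e]; exact h2.1
    · rw [e]; exact h2.2

/-- `1 / (1 + h²)` at a real place which is not a pole of `h` -/
private theorem qreg11 {P : Place ℂ F} (hP : s.cj P = P) {h : F} (hh : s.σ h = h) (hr : h ∈ P.ring) :
    (1 + h ^ 2)⁻¹ ∈ P.ring ∧ 0 < rv hF P (1 + h ^ 2)⁻¹ :=
  inv_pos11 hF hP (sigma_one_add11 hh) (one_add_sq11 hF hP hh hr).1 (one_add_sq11 hF hP hh hr).2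

/-- at a pole: `h² / (1 + h²)` is regular and positive, `1 / (1 + h²)` is regular with value `0` -/
private theorem qpole11 {P : Place ℂ F} (hP : s.cj P = P) {h : F} (hh : s.σ h = h) (hr : h ∉ P.ring) :
    h ^ 2 * (1 + h ^ 2)⁻¹ ∈ P.ring ∧ 0 < rv hF P (h ^ 2 * (1 + h ^ 2)⁻¹) ∧
      (1 + h ^ 2)⁻¹ ∈ P.ring ∧ rv hF P (1 + h ^ 2)⁻¹ = 0 := by
  have h0 : h ≠ 0 := by
    rintro rfl
    exact hr P.ring.zero_mem
  obtain ⟨h1, h1'⟩ := pole11 hF hr
  have hσ : s.σ h⁻¹ = h⁻¹ := by rw [map_inv₀, hh]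
  obtain ⟨h2, h3⟩ := qreg11 hF hP hσ h1
  have e : h ^ 2 * (1 + h ^ 2)⁻¹ = (1 + h⁻¹ ^ 2)⁻¹ := by
    have e1 : (1 + h⁻¹ ^ 2) = (1 + h ^ 2) * (h ^ 2)⁻¹ := by
      field_simp
      ring
    rw [e1, mul_inv, inv_inv, mul_comm]
  have h4 : h ^ 2 * (1 + h ^ 2)⁻¹ ∈ P.ring := by rw [e]; exact h2
  have e2 : (1 + h ^ 2)⁻¹ = h⁻¹ * (h⁻¹ * (h ^ 2 * (1 + h ^ 2)⁻¹)) := by
    field_simp
  refine ⟨h4, by rw [e]; exact h3, ?_, ?_⟩
  · rw [e2]
    exact P.ring.mul_mem _ _ h1 (P.ring.mul_mem _ _ h1 h4)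
  · unfold rv
    rw [e2, vl_mul hF h1 (P.ring.mul_mem _ _ h1 h4), h1', zero_mul, Complex.zero_re]

theorem blw_reg {w q : F} (hw : s.σ w = w) (hq : s.σ q = q) (hwr : Reg s w) (hqr : Reg s q)
    (hq0 : ∀ P, s.cj P = P → 0 ≤ rv hF P q)
    (h : ∀ P, s.cj P = P → rv hF P q = 0 → 0 < rv hF P w) :
    ∃ M : ℝ, 0 < M ∧ ∀ P, s.cj P = P → 0 < rv hF P (w + algebraMap ℂ F (M : ℂ) * q) := by
  classical
  obtain ⟨S, hS, hreg⟩ := exists_sdata_poles' s hF (ι := Bool) (f := fun i => if i then w else q)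
    (fun i => by
      cases i
      · exact hqr
      · exact hwr)
  have hwS : ∀ P, P ∉ S → w ∈ P.ring := hreg true
  have hqS : ∀ P, P ∉ S → q ∈ P.ring := hreg false
  let T : Set (BSub s S) := {b | ∃ m : ℕ, HS s (dS S m) (b : F)}
  let W : BSub s S := ⟨w, hw, hwS⟩
  let Q : BSub s S := ⟨q, hq, hqS⟩
  have hle : ∀ {m n : ℤ}, m ≤ n → ∀ P, dS S m P ≤ dS S n P := by
    intro m n h P
    by_cases hP : P ∈ S
    · rw [dS_mem m hP, dS_mem n hP]
      exact h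
    · rw [dS_notMem m hP, dS_notMem n hP]
  have hadd : ∀ x ∈ T, ∀ y ∈ T, x + y ∈ T := by
    rintro x ⟨m, hm⟩ y ⟨n, hn⟩
    refine ⟨max m n, ?_⟩
    have h1 : (m : ℤ) ≤ ((max m n : ℕ) : ℤ) := by exact_mod_cast le_max_left m n
    have h2 : (n : ℤ) ≤ ((max m n : ℕ) : ℤ) := by exact_mod_cast le_max_right m n
    exact HS.add (HS.mono (hF := hF) hm (hle h1)) (HS.mono (hF := hF) hn (hle h2))
  have hmul : ∀ x ∈ T, ∀ y ∈ T, x * y ∈ T := by
    rintro x ⟨m, hm⟩ y ⟨n, hn⟩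
    refine ⟨m + n, ?_⟩
    have h := HS.mul (hF := hF) hm hn
    rw [← dS_add] at h
    push_cast
    exact h
  have hsq : ∀ x : BSub s S, x ^ 2 ∈ T := by
    intro x
    obtain ⟨m, hm⟩ := exists_mem_L_dS hF x.2.2
    refine ⟨m, ?_⟩
    have h := HS.mul_cj (s := s) hm
    rw [x.2.1] at h
    have e : ((x ^ 2 : BSub s S) : F) = (x : F) * (x : F) := by
      rw [pow_two]
      rfl
    rw [e]
    exact h
  have hzero : (0 : BSub s S) ∈ T := by
    have := hsq 0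
    rwa [zero_pow two_ne_zero] at this
  have hone : (1 : BSub s S) ∈ T := by
    have := hsq 1
    rwa [one_pow] at this
  have harch : ∀ x : BSub s S, ∃ n : ℕ, (n : BSub s S) - x ∈ T := by
    intro x
    obtain ⟨m, hm⟩ := exists_mem_L_dS hF x.2.2
    obtain ⟨m', hm'⟩ := inter hF hS m
    obtain ⟨ε, hε, h⟩ := hm' (-(x : F)) (by rw [map_neg, x.2.1]) (neg_mem hm)
    obtain ⟨n, hn⟩ := exists_nat_ge (1 / ε)
    refine ⟨n, m', ?_⟩
    have h1 : HS s (dS S m') (algebraMap ℂ F ((n - 1 / ε : ℝ) : ℂ)) := HS.const (hF := hF) (by linarith)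
    have h2 := HS.smul (r := 1 / ε) (by positivity) h
    have h3 := HS.add h1 h2
    have e : algebraMap ℂ F ((n - 1 / ε : ℝ) : ℂ) + algebraMap ℂ F ((1 / ε : ℝ) : ℂ) *
        (1 + (ε : ℂ) • (-(x : F))) = (((n : BSub s S) - x : BSub s S) : F) := by
      have e1 : ((((n : BSub s S) - x : BSub s S)) : F) = (n : F) - (x : F) := rfl
      have e2 : algebraMap ℂ F ((1 / ε : ℝ) : ℂ) * algebraMap ℂ F (ε : ℂ) = 1 := by
        rw [← map_mul, ← Complex.ofReal_mul, one_div_mul_cancel hε.ne', Complex.ofReal_one, map_one]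
      have e3 : algebraMap ℂ F ((n - 1 / ε : ℝ) : ℂ) = (n : F) - algebraMap ℂ F ((1 / ε : ℝ) : ℂ) := by
        rw [Complex.ofReal_sub, map_sub, Complex.ofReal_natCast, map_natCast]
      rw [e1, e3, Algebra.smul_def, mul_add, ← mul_assoc, e2]
      ring
    rw [← e]
    exact h3
  let T' : Set (BSub s S) := {x | ∃ t ∈ T, ∃ t' ∈ T, x = t - W * t'}
  have hsub : ∀ x ∈ T, x ∈ T' := fun x hx => ⟨x, hx, 0, hzero, by ring⟩
  have hadd' : ∀ x ∈ T', ∀ y ∈ T', x + y ∈ T' := by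
    rintro x ⟨m₁, h₁, m₂, h₂, rfl⟩ y ⟨n₁, k₁, n₂, k₂, rfl⟩
    exact ⟨m₁ + n₁, hadd _ h₁ _ k₁, m₂ + n₂, hadd _ h₂ _ k₂, by ring⟩
  have hmul' : ∀ x ∈ T', ∀ y ∈ T', x * y ∈ T' := by
    rintro x ⟨m₁, h₁, m₂, h₂, rfl⟩ y ⟨n₁, k₁, n₂, k₂, rfl⟩
    exact ⟨m₁ * n₁ + W ^ 2 * (m₂ * n₂), hadd _ (hmul _ h₁ _ k₁) _
      (hmul _ (hsq W) _ (hmul _ h₂ _ k₂)), m₁ * n₂ + m₂ * n₁,
      hadd _ (hmul _ h₁ _ k₂) _ (hmul _ h₂ _ k₁), by ring⟩
  have harch' : ∀ x : BSub s S, ∃ n : ℕ, (n : BSub s S) - x ∈ T' := by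
    intro x
    obtain ⟨n, hn⟩ := harch x
    exact ⟨n, hsub _ hn⟩
  obtain ⟨ε, hε, t, ⟨m, ht⟩, t', ⟨m', ht'⟩, he⟩ := kadison_dubois T' hadd' hmul' (fun x => hsub _ (hsq x)) harch' Q (by
    intro φ hφ
    obtain ⟨P, hP, hv⟩ := exists_place_of_hom hF hS φ
    have h1 : -W ∈ T' := ⟨0, hzero, 1, hone, by ring⟩
    have h2 := hφ _ h1
    rw [map_neg, hv] at h2
    have h3 : rv hF P w ≤ 0 := by linarith
    rw [hv]
    refine lt_of_le_of_ne (hq0 P hP) fun h4 => ?_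
    have h5 := h P hP h4.symm
    linarith)
  have he' : q = algebraMap ℂ F (ε : ℂ) + ((t : F) - w * (t' : F)) := by
    have h1 : (((Q - algebraMap ℝ (BSub s S) ε : BSub s S)) : F) = q - algebraMap ℂ F (ε : ℂ) := rfl
    have h2 : (((t - W * t' : BSub s S)) : F) = (t : F) - w * (t' : F) := rfl
    rw [← h2, ← he, h1]
    ring
  obtain ⟨C, hC, hb⟩ := bdd hF hwr
  refine ⟨(C + 1) / ε, by positivity, ?_⟩
  intro P hP
  have hwP := hwr P hP
  have hqP := hqr P hP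
  have halg : s.σ (algebraMap ℂ F (((C + 1) / ε : ℝ) : ℂ)) = algebraMap ℂ F (((C + 1) / ε : ℝ) : ℂ) := by
    rw [s.alg, Complex.conj_ofReal]
  rw [rv_add hF hwP (P.ring.mul_mem _ _ (P.algebraMap_mem _) hqP),
    rv_mul s hF hP (P.algebraMap_mem _) hqP halg hq, rv_ofReal]
  have hq1 := hq0 P hP
  have hM : 0 < (C + 1) / ε := by positivity
  rcases lt_or_ge 0 (rv hF P w) with h1 | h1
  · have := mul_nonneg hM.le hq1
    linarith
  · obtain ⟨h2, h3⟩ := HS.rv_nonneg (hF := hF) hS ht hP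
    obtain ⟨h4, h5⟩ := HS.rv_nonneg (hF := hF) hS ht' hP
    have h6 : rv hF P q = ε + (rv hF P (t : F) - rv hF P w * rv hF P (t' : F)) := by
      have h7 : w * (t' : F) ∈ P.ring := P.ring.mul_mem _ _ hwP h4
      have h8 : (t : F) - w * (t' : F) ∈ P.ring := P.ring.toSubring.sub_mem h2 h7
      have h9 := congrArg (rv hF P) he'
      rw [rv_add hF (P.algebraMap_mem _) h8, rv_sub hF h2 h7, rv_mul s hF hP hwP h4 hw t'.2.1, rv_ofReal] at h9
      exact h9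
    have h7 : ε ≤ rv hF P q := by
      have := mul_nonneg (neg_nonneg.2 h1) h5
      rw [h6]
      linarith
    have h8 : -C ≤ rv hF P w := by
      have h9 := hb P hP
      have h10 := Complex.abs_re_le_norm (vl hF P w)
      have h11 := neg_abs_le (vl hF P w).re
      have h12 : rv hF P w = (vl hF P w).re := rfl
      rw [h12]
      linarith
    have h9 : C + 1 ≤ (C + 1) / ε * rv hF P q := by
      calc C + 1 = (C + 1) / ε * ε := by field_simp
        _ ≤ _ := mul_le_mul_of_nonneg_left h7 hM.le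
    linarith

theorem blw {v : F} (hv : s.σ v = v) (h : ∀ P, s.cj P = P → v ∈ P.ring ∨ PosAt s hF P v) :
    ∃ M : ℝ, 0 < M ∧ ∀ M' : ℝ, M ≤ M' → ∀ P, s.cj P = P →
      PosAt s hF P (v + algebraMap ℂ F (M' : ℂ)) := by
  classical
  by_cases hex : ∃ P : Place ℂ F, s.cj P = P
  swap
  · push Not at hex
    exact ⟨1, one_pos, fun _ _ P hP => absurd hP (hex P)⟩
  obtain ⟨P₀, hP₀⟩ := hex
  have hfin : {P : Place ℂ F | s.cj P = P ∧ v ∉ P.ring}.Finite := by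
    rcases eq_or_ne v 0 with h0 | h0
    · refine Set.finite_empty.subset ?_
      rintro P ⟨-, h1⟩
      exact h1 (by rw [h0]; exact P.ring.zero_mem)
    · refine (finite_support_ord hF h0).subset fun P hP => ?_
      intro h1
      exact hP.2 ((FF.ord_nonneg_iff hF P h0).1 (le_of_eq h1.symm))
  have hZ : ∀ P, P ∈ hfin.toFinset ↔ s.cj P = P ∧ v ∉ P.ring := fun P => by
    rw [Set.Finite.mem_toFinset]
    rfl
  generalize hfin.toFinset = Z at hZ
  have hpos : ∀ P ∈ Z, PosAt s hF P v := fun P hP =>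
    (h P ((hZ P).1 hP).1).resolve_left ((hZ P).1 hP).2
  obtain ⟨S, hS, hd⟩ := exists_sdata s hF Z
  let y : Place ℂ F → F := fun P => if hP : P ∈ Z then (hpos P hP).choose else 0
  have hy : ∀ P (hP : P ∈ Z), y P ≠ 0 ∧ s.σ (y P) = y P ∧ v / y P ^ 2 ∈ P.ring ∧ 0 < rv hF P (v / y P ^ 2) := by
    intro P hP
    have h1 := (hpos P hP).choose_spec
    have e : y P = (hpos P hP).choose := dif_pos hP
    rw [e]
    exact h1
  obtain ⟨g, hg, h1, h2⟩ := appr_real s hF hS Z hd (fun P hP => by rwa [((hZ P).1 hP).1]) y 0 (by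
    intro P hP
    rw [((hZ P).1 hP).1, (hy P hP).2.1, sub_self]
    exact oge_zero)
  have hne : (1 : F) + g ^ 2 ≠ 0 := (posAt11 hF hP₀ hg).ne_zero
  -- the poles of `g` at the places of `Z`
  have hpole : ∀ P ∈ Z, g ∉ P.ring ∧ v / g ^ 2 ∈ P.ring ∧ 0 < rv hF P (v / g ^ 2) := by
    intro P hP
    obtain ⟨hPr, hvP⟩ := (hZ P).1 hP
    obtain ⟨hy0, hyσ, hy1, hy2⟩ := hy P hP
    have hyn : y P ∉ P.ring := by
      intro h3
      apply hvP
      have h4 : v = v / y P ^ 2 * y P ^ 2 := by field_simp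
      rw [h4]
      exact P.ring.mul_mem _ _ hy1 (P.ring.toSubring.pow_mem h3 2)
    obtain ⟨h3, h4⟩ := pole11 hF hyn
    have h5 : g - y P ∈ P.ring := (oge_zero_iff hF).mp (h1 P hP)
    have hgn : g ∉ P.ring := by
      intro h6
      apply hyn
      have h7 : y P = g - (g - y P) := by ring
      rw [h7]
      exact P.ring.toSubring.sub_mem h6 h5
    have hg0 : g ≠ 0 := by
      rintro rfl
      exact hgn P.ring.zero_mem
    -- `u = g / y P` has value `1`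
    have hu : g / y P = 1 + (g - y P) * (y P)⁻¹ := by
      field_simp
      ring
    have h6 : (g - y P) * (y P)⁻¹ ∈ P.ring := P.ring.mul_mem _ _ h5 h3
    have h7 : g / y P ∈ P.ring := by
      rw [hu]
      exact P.ring.add_mem _ _ P.ring.one_mem h6
    have h8 : rv hF P (g / y P) = 1 := by
      unfold rv
      rw [hu, vl_add hF P.ring.one_mem h6, vl_one, vl_mul hF h5 h3, h4, mul_zero, add_zero, Complex.one_re]
    have huσ : s.σ (g / y P) = g / y P := by rw [map_div₀, hg, hyσ]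
    obtain ⟨h9, h10⟩ := inv_pos11 hF hPr huσ h7 (by rw [h8]; exact one_pos)
    have huσ' : s.σ (g / y P)⁻¹ = (g / y P)⁻¹ := by rw [map_inv₀, huσ]
    have h11 : (g / y P)⁻¹ ^ 2 ∈ P.ring := P.ring.toSubring.pow_mem h9 2
    have e : v / g ^ 2 = v / y P ^ 2 * (g / y P)⁻¹ ^ 2 := by
      field_simp
    refine ⟨hgn, ?_, ?_⟩
    · rw [e]
      exact P.ring.mul_mem _ _ hy1 h11
    · rw [e, rv_mul s hF hPr hy1 h11 (by rw [map_div₀, map_pow, hv, hyσ]) (by rw [map_pow, huσ']),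
        rv_pow s hF hPr h9 huσ']
      exact mul_pos hy2 (by positivity)
  have hreg : ∀ P, s.cj P = P → P ∉ Z → v ∈ P.ring ∧ g ∈ P.ring := by
    intro P hP hPZ
    refine ⟨?_, h2 P (fun h3 => hS.cj_ne P h3 hP) hPZ⟩
    by_contra h3
    exact hPZ ((hZ P).2 ⟨hP, h3⟩)
  have hqσ : s.σ (1 + g ^ 2)⁻¹ = (1 + g ^ 2)⁻¹ := by rw [map_inv₀, sigma_one_add11 hg]
  have hwσ : s.σ (v * (1 + g ^ 2)⁻¹) = v * (1 + g ^ 2)⁻¹ := by rw [map_mul, hv, hqσ]
  have hw : ∀ P ∈ Z, v * (1 + g ^ 2)⁻¹ ∈ P.ring ∧ 0 < rv hF P (v * (1 + g ^ 2)⁻¹) := by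
    intro P hP
    have hPr := ((hZ P).1 hP).1
    obtain ⟨h3, h4, h5⟩ := hpole P hP
    obtain ⟨h6, h7, -, -⟩ := qpole11 hF hPr hg h3
    have hg0 : g ≠ 0 := by
      rintro rfl
      exact h3 P.ring.zero_mem
    have e : v * (1 + g ^ 2)⁻¹ = v / g ^ 2 * (g ^ 2 * (1 + g ^ 2)⁻¹) := by
      field_simp
    refine ⟨?_, ?_⟩
    · rw [e]
      exact P.ring.mul_mem _ _ h4 h6
    · rw [e, rv_mul s hF hPr h4 h6 (by rw [map_div₀, map_pow, hv, hg]) (by rw [map_mul, map_pow, hg, hqσ])]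
      exact mul_pos h5 h7
  have hqr : Reg s (1 + g ^ 2)⁻¹ := by
    intro P hP
    by_cases hPg : g ∈ P.ring
    · exact (qreg11 hF hP hg hPg).1
    · exact (qpole11 hF hP hg hPg).2.2.1
  have hwr : Reg s (v * (1 + g ^ 2)⁻¹) := by
    intro P hP
    by_cases hPZ : P ∈ Z
    · exact (hw P hPZ).1
    · exact P.ring.mul_mem _ _ (hreg P hP hPZ).1 (hqr P hP)
  have hq0 : ∀ P, s.cj P = P → 0 ≤ rv hF P (1 + g ^ 2)⁻¹ := by
    intro P hP
    by_cases hPg : g ∈ P.ring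
    · exact (qreg11 hF hP hg hPg).2.le
    · exact (qpole11 hF hP hg hPg).2.2.2.ge
  obtain ⟨M, hM, hMp⟩ := blw_reg hF hwσ hqσ hwr hqr hq0 (by
    intro P hP h3
    by_cases hPZ : P ∈ Z
    · exact (hw P hPZ).2
    · have h4 := (qreg11 hF hP hg (hreg P hP hPZ).2).2
      rw [h3] at h4
      exact absurd h4 (lt_irrefl _))
  refine ⟨M, hM, ?_⟩
  intro M' hM' P hP
  have halg : ∀ r : ℝ, s.σ (algebraMap ℂ F (r : ℂ)) = algebraMap ℂ F (r : ℂ) := fun r => by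
    rw [s.alg, Complex.conj_ofReal]
  have h3 : ∀ r : ℝ, rv hF P (v * (1 + g ^ 2)⁻¹ + algebraMap ℂ F (r : ℂ) * (1 + g ^ 2)⁻¹) =
      rv hF P (v * (1 + g ^ 2)⁻¹) + r * rv hF P (1 + g ^ 2)⁻¹ := by
    intro r
    rw [rv_add hF (hwr P hP) (P.ring.mul_mem _ _ (P.algebraMap_mem _) (hqr P hP)),
      rv_mul s hF hP (P.algebraMap_mem _) (hqr P hP) (halg r) hqσ, rv_ofReal]
  have h4 : 0 < rv hF P (v * (1 + g ^ 2)⁻¹ + algebraMap ℂ F (M' : ℂ) * (1 + g ^ 2)⁻¹) := by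
    have h5 := hMp P hP
    rw [h3] at h5 ⊢
    have h6 := mul_le_mul_of_nonneg_right hM' (hq0 P hP)
    linarith
  have h5 : v * (1 + g ^ 2)⁻¹ + algebraMap ℂ F (M' : ℂ) * (1 + g ^ 2)⁻¹ ∈ P.ring :=
    P.ring.add_mem _ _ (hwr P hP) (P.ring.mul_mem _ _ (P.algebraMap_mem _) (hqr P hP))
  have h6 := PosAt.mul hP (by rw [map_add, map_mul, hv, map_mul, halg, hqσ]) (sigma_one_add11 hg)
    (PosAt.of_pos h5 h4) (posAt11 hF hP hg)
  have e : v + algebraMap ℂ F (M' : ℂ) =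
      (v * (1 + g ^ 2)⁻¹ + algebraMap ℂ F (M' : ℂ) * (1 + g ^ 2)⁻¹) * (1 + g ^ 2) := by
    field_simp
  rw [e]
  exact h6

end Pool.Agent.Helper10.GN
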