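import Pool.Agent.Helper10.GN.Val

set_option autoImplicit false

/-!
# Project GN, block BPF: the matrices `κ` and their base points

`Kap`: matrices `κ` of functions in `L (2 k S)` which look like `w_a σ(w_b) / f`.

`kap_bpf`: let `G = dS S k`, `n = k * S.card = deg G`, `r = n + 1 - g > 0` (`r` the size of `κ`), where
`ℓ(D) = deg D + 1 - g` for `deg D ≥ c`, and `n > c`. Then at every place `Q` some `κ a b` has order exactly `- 2 G Q`.

Proof. Fix an index `1` (`r > 0`). `κ 1 1 ≠ 0` by `nrm` (`∑ j vl (P j) (κ 1 1) = 1`, `vl_zero`).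
(i) the functions `ω a = κ a 1` are linearly independent: if `∑ c a • κ a 1 = 0` multiply by `κ 1 d` and use
`rk`: `κ a 1 * κ 1 d = κ a d * κ 1 1`, so `∑ c a • κ a d = 0` for all `d`, and applying
`∑ j vl (P j)` (`vl_sum`, `vl_smul`; the `κ a b` are regular at the real places `P j ∉ S`): `c d = 0`.
(ii) Let `D Q = min_a ord_Q (ω a)` (a finitely supported function: `ω a ≠ 0`), so `ω a ∈ L (- D)`
(`FF.mem_rr`) and `r ≤ ℓ(-D)`. If `deg (-D) < n`, then with `D' = - D + (n - 1 + deg D) • (a place)`, `- D ≤ D'`,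
`deg D' = n - 1 ≥ c`: `r ≤ ℓ(D') = n - 1 + 1 - g = r - 1`, contradiction. So `deg D ≤ - n`.
(iii) `κ 1 b = σ (κ b 1)`, so `min_b ord_Q (κ 1 b) = D (s.cj Q)` (`ord_cj`), and from
`κ a b * κ 1 1 = κ a 1 * κ 1 b`: `min_{a,b} ord_Q (κ a b) = D Q + D (s.cj Q) - ord_Q (κ 1 1)`
(all `κ a 1 ≠ 0`, `κ 1 b ≠ 0`, so `κ a b ≠ 0`). As `κ a b ∈ L (2G)`:
`E Q := D Q + D (s.cj Q) - ord_Q (κ 1 1) + 2 G Q ≥ 0` for all `Q`, and the sum over all `Q` is
`2 deg D - 0 + 2 n ≤ 0` (`FF.deg_dv`, `deg_cjD`, `deg_dS`). So `E = 0` (`FF.eq_zero_of_deg`).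
-/

namespace Pool.Agent.Helper10.GN

open VC FF

variable {F : Type} [Field F] [Algebra ℂ F]

/-- matrices `κ` of functions which look like `w_a σ(w_b) / f` for an orthonormal basis `w` -/
structure Kap (s : RStr F) (hF : IsFunctionField ℂ F) (S : Finset (Place ℂ F)) (k : ℕ) {N r : ℕ}
    (P : Fin N → Place ℂ F) (κ : Fin r → Fin r → F) : Prop where
  mem : ∀ a b, κ a b ∈ L (dS S (2 * k))
  cj : ∀ a b, s.σ (κ a b) = κ b a
  rk : ∀ a b c d, κ a b * κ c d = κ a d * κ c b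
  nrm : ∀ a b, ∑ j, vl hF (P j) (κ a b) = if a = b then 1 else 0
  pos : ∀ (v : Fin r → ℂ) (Q : Place ℂ F), s.cj Q = Q →
    0 ≤ rv hF Q (∑ a, ∑ b, (v a * (starRingEnd ℂ) (v b)) • κ a b)

private theorem inf_apply86 {ι : Type} (t : Finset ι) (H : t.Nonempty)
    (f : ι → (Place ℂ F →₀ ℤ)) (Q : Place ℂ F) :
    (t.inf' H f) Q = t.inf' H (fun i => f i Q) :=
  Finset.apply_inf'_eq_inf'_comp H (fun D : Place ℂ F →₀ ℤ => D Q) (fun _ _ => rfl)

private theorem kap_reg86 {s : RStr F} (hF : IsFunctionField ℂ F) {S : Finset (Place ℂ F)}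
    (hS : SData s S) {k N r : ℕ}
    {P : Fin N → Place ℂ F} (hP : ∀ j, s.cj (P j) = P j) {κ : Fin r → Fin r → F}
    (h : Kap s hF S k P κ) (j : Fin N) (a b : Fin r) : κ a b ∈ (P j).ring :=
  ((mem_L_dS_iff hF).1 (h.mem a b)).2 (P j) (fun hm => hS.cj_ne _ hm (hP j))

private theorem kap_diag86 {s : RStr F} (hF : IsFunctionField ℂ F) {S : Finset (Place ℂ F)}
    {k N r : ℕ} {P : Fin N → Place ℂ F} {κ : Fin r → Fin r → F}
    (h : Kap s hF S k P κ) (a : Fin r) : κ a a ≠ 0 := by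
  intro h0
  have h1 := h.nrm a a
  rw [h0, if_pos rfl] at h1
  rw [Finset.sum_eq_zero (fun j _ => vl_zero hF)] at h1
  exact zero_ne_one h1

private theorem kap_li86 {s : RStr F} (hF : IsFunctionField ℂ F) {S : Finset (Place ℂ F)}
    (hS : SData s S) {k N r : ℕ}
    {P : Fin N → Place ℂ F} (hP : ∀ j, s.cj (P j) = P j) {κ : Fin r → Fin r → F}
    (h : Kap s hF S k P κ) (o : Fin r) : LinearIndependent ℂ (fun a => κ a o) := by
  rw [Fintype.linearIndependent_iff]
  intro c hc d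
  have h1 : ∑ a, c a • κ a d = 0 := by
    have h2 : (∑ a, c a • κ a d) * κ o o = (∑ a, c a • κ a o) * κ o d := by
      rw [Finset.sum_mul, Finset.sum_mul]
      refine Finset.sum_congr rfl fun a _ => ?_
      rw [smul_mul_assoc, smul_mul_assoc, h.rk a d o o]
    rw [hc, zero_mul] at h2
    exact (mul_eq_zero.1 h2).resolve_right (kap_diag86 hF h o)
  have h3 : ∀ j, ∑ a, c a * vl hF (P j) (κ a d) = 0 := by
    intro j
    have h4 := vl_sum hF (P := P j) Finset.univ (fun a => c a • κ a d) (fun a _ => by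
      rw [Algebra.smul_def]
      exact (P j).ring.mul_mem _ _ ((P j).algebraMap_mem _) (kap_reg86 hF hS hP h j a d))
    rw [h1, vl_zero] at h4
    rw [h4]
    exact Finset.sum_congr rfl fun a _ => (vl_smul hF (c a) (kap_reg86 hF hS hP h j a d)).symm
  have h5 : ∑ a, c a * ∑ j, vl hF (P j) (κ a d) = 0 := by
    rw [Finset.sum_congr rfl fun a _ => Finset.mul_sum _ _ _, Finset.sum_comm]
    exact Finset.sum_eq_zero fun j _ => h3 j
  rw [Finset.sum_congr rfl fun a _ => by rw [h.nrm a d], Finset.sum_eq_single d] at h5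
  · simpa using h5
  · intro a _ had
    rw [if_neg had, mul_zero]
  · intro hd
    exact absurd (Finset.mem_univ d) hd

theorem kap_bpf {s : RStr F} (hF : IsFunctionField ℂ F) {S : Finset (Place ℂ F)} (hS : SData s S)
    {g : ℕ} {c : ℤ} (hc : ∀ D : Place ℂ F →₀ ℤ, c ≤ deg D → (ell D : ℤ) = deg D + 1 - g)
    {k N r : ℕ} (hr : (r : ℤ) = k * S.card + 1 - g) (hr0 : 0 < r) (hkc : c < k * S.card)
    {P : Fin N → Place ℂ F} (hP : ∀ j, s.cj (P j) = P j) {κ : Fin r → Fin r → F}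
    (h : Kap s hF S k P κ) (Q : Place ℂ F) :
    ∃ a b, κ a b ≠ 0 ∧ ord Q.ring (κ a b) = - dS S (2 * k) Q := by
  classical
  set o : Fin r := ⟨0, hr0⟩ with ho
  have hn : (Finset.univ : Finset (Fin r)).Nonempty := ⟨o, Finset.mem_univ _⟩
  have hli := kap_li86 hF hS hP h o
  have hne : ∀ a, κ a o ≠ 0 := fun a => hli.ne_zero a
  have hoo : κ o o ≠ 0 := hne o
  have hne' : ∀ b, κ o b ≠ 0 := by
    intro b
    rw [← h.cj b o]
    exact (map_ne_zero_iff s.σ s.σ.injective).mpr (hne b)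
  have hrk : ∀ a b, κ a b * κ o o = κ a o * κ o b := fun a b => h.rk a b o o
  have hab : ∀ a b, κ a b ≠ 0 := by
    intro a b h0
    have h1 := hrk a b
    rw [h0, zero_mul] at h1
    exact mul_ne_zero (hne a) (hne' b) h1.symm
  set D : Place ℂ F →₀ ℤ := Finset.univ.inf' hn (fun a => dv hF (κ a o)) with hD
  have hDle : ∀ (Q : Place ℂ F) a, D Q ≤ ord Q.ring (κ a o) := by
    intro Q a
    rw [hD, inf_apply86]
    exact (Finset.inf'_le _ (Finset.mem_univ a)).trans (le_of_eq (dv_apply hF _ _))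
  have hDex : ∀ Q : Place ℂ F, ∃ a, D Q = ord Q.ring (κ a o) := by
    intro Q
    obtain ⟨a, _, ha⟩ := Finset.exists_mem_eq_inf' hn (fun a => dv hF (κ a o) Q)
    refine ⟨a, ?_⟩
    rw [hD, inf_apply86, ha, dv_apply]
  -- (ii)
  have hmem : ∀ a, κ a o ∈ riemannRochSpace ℂ F (-D) := by
    intro a
    rw [mem_rr hF _ (hne a)]
    intro Q
    rw [Finsupp.neg_apply]
    have := hDle Q a
    linarith
  have hrle : r ≤ ell (-D) := by
    have hfd := finite_rr hF (-D)
    have hli2 : LinearIndependent ℂ (fun a => (⟨κ a o, hmem a⟩ : riemannRochSpace ℂ F (-D))) := by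
      apply LinearIndependent.of_comp (Submodule.subtype _)
      exact hli
    have h1 := hli2.fintype_card_le_finrank
    rwa [Fintype.card_fin] at h1
  obtain ⟨P0, hP0⟩ := hS.ne
  have hdegD : deg D ≤ -(k * S.card : ℤ) := by
    by_contra hcon
    push Not at hcon
    set D' : Place ℂ F →₀ ℤ := -D + Finsupp.single P0 ((k * S.card : ℤ) - 1 + deg D) with hD'
    have h1 : deg D' = (k * S.card : ℤ) - 1 := by
      rw [hD', map_add, map_neg, deg_single]
      ring
    have h2 : ∀ Q, (-D) Q ≤ D' Q := by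
      intro Q
      rw [hD', Finsupp.add_apply, Finsupp.single_apply]
      split_ifs
      · linarith
      · linarith
    have h3 := hc D' (by rw [h1]; linarith)
    have h4 := ell_mono hF h2
    have h5 : (r : ℤ) ≤ ell D' := by exact_mod_cast hrle.trans h4
    rw [h3, h1] at h5
    linarith
  -- (iii)
  set E : Place ℂ F →₀ ℤ := D + cjD s D - dv hF (κ o o) + dS S (2 * k) with hE
  have hEapp : ∀ Q, E Q = D Q + D (s.cj Q) - ord Q.ring (κ o o) + dS S (2 * k) Q := by
    intro Q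
    rw [hE, Finsupp.add_apply, Finsupp.sub_apply, Finsupp.add_apply, cjD_apply, dv_apply]
  have hmin : ∀ Q : Place ℂ F, ∃ a b, ord Q.ring (κ a b) =
      D Q + D (s.cj Q) - ord Q.ring (κ o o) := by
    intro Q
    obtain ⟨a, ha⟩ := hDex Q
    obtain ⟨b, hb⟩ := hDex (s.cj Q)
    refine ⟨a, b, ?_⟩
    have h1 := congrArg (ord Q.ring) (hrk a b)
    rw [FF.ord_mul hF Q (hab a b) hoo, FF.ord_mul hF Q (hne a) (hne' b)] at h1
    have h2 : ord Q.ring (κ o b) = D (s.cj Q) := by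
      rw [hb, ord_cj s hF, h.cj]
    rw [← ha, h2] at h1
    linarith
  have hE0 : ∀ Q, 0 ≤ E Q := by
    intro Q
    obtain ⟨a, b, hab'⟩ := hmin Q
    have h1 := ((mem_rr hF _ (hab a b)).1 (h.mem a b)) Q
    rw [hEapp]
    linarith
  have hdE : deg E = 0 := by
    have h1 : deg E = deg D + deg (cjD s D) - deg (dv hF (κ o o)) + deg (dS S (2 * k)) := by
      rw [hE, map_add, map_sub, map_add]
    rw [deg_cjD, deg_dv hF hoo, deg_dS] at h1
    have h2 := deg_nonneg hE0
    have h3 : deg E ≤ 0 := by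
      rw [h1]
      nlinarith [hdegD]
    linarith
  have hEz := eq_zero_of_deg hE0 hdE
  obtain ⟨a, b, hab'⟩ := hmin Q
  refine ⟨a, b, hab a b, ?_⟩
  have h1 := hEapp Q
  rw [hEz, Finsupp.zero_apply] at h1
  linarith

end Pool.Agent.Helper10.GN
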