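import Pool.Agent.Helper10.GN.Glu

set_option autoImplicit false

/-!
# Project GN, block CAL: the conditions on `P = ∏ p_i`

Let `i` be of N-type and `z` a real zero of `p i`. `P = p i * R`. If `Sg (p i) z` then `∇P(z) = 0`, so by hypothesis `hess P z < 0`; the second
derivatives of `P` at `z` are `R(z)` times those of `p i`, so `hess P z = R(z)² hess (p i) z`: `hess (p i) z < 0` and `R(z) ≠ 0`: `node`, `nodeoff`.
If `p j (z) = 0`, `j ≠ i`: `P = p i * p j * R`, `∇P(z) = 0` and `∂_k ∂_l P (z) = R(z) (∂_k p_i ∂_l p_j + ∂_l p_i ∂_k p_j)(z)`, so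
`hess P z = - R(z)² (∂_0 p_i ∂_1 p_j - ∂_1 p_i ∂_0 p_j)(z)² < 0`: `Trv` and `R(z) ≠ 0`: `trv`, `two`. (`pderiv` of products: `Derivation.leibniz`, `map_add`;
evaluate; `linear_combination`/`ring`.)
-/

namespace Pool.Agent.Helper10.GN

open VC FF MvPolynomial Pool.Agent.Helper68.QM

/-- `∇P = 0` at common zeros, and the Hessian of a product there -/
theorem hess_mul {u v : A} {z : Fin 2 → ℝ} (hu : eval z u = 0) (hv : eval z v = 0) :
    (∀ k, eval z (pderiv k (u * v)) = 0) ∧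
      hess (u * v) z = - (eval z (pderiv 0 u) * eval z (pderiv 1 v) -
        eval z (pderiv 1 u) * eval z (pderiv 0 v)) ^ 2 := by
  constructor
  · intro k
    simp only [pderiv_mul, map_add, map_mul, hu, hv]
    ring
  · simp only [hess, pderiv_mul, map_add, map_mul, hu, hv]
    ring

theorem hess_unit {u r : A} {z : Fin 2 → ℝ} (hu : Sg u z) :
    (∀ k, eval z (pderiv k (u * r)) = 0) ∧ hess (u * r) z = eval z r ^ 2 * hess u z := by
  obtain ⟨h0, h1⟩ := hu
  have h10 := h1 0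
  have h11 := h1 1
  constructor
  · intro k
    have h1k := h1 k
    simp only [pderiv_mul, map_add, map_mul, h0, h1k]
    ring
  · simp only [hess, pderiv_mul, map_add, map_mul, h0, h10, h11]
    ring

theorem goodF_of {ι : Type} [Fintype ι] [DecidableEq ι] {p : ι → A}
    (h : ∀ i, NTy (p i) → (∀ z : Fin 2 → ℝ, eval z (p i) = 0 →
      (∃ k, eval z (pderiv k (∏ i, p i)) ≠ 0) ∨ hess (∏ i, p i) z < 0) ∧
      ∀ j, j ≠ i → ∀ z : Fin 2 → ℂ, eval z (cx (p i)) = 0 → eval z (cx (p j)) = 0 → ¬ NR z) :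
    GoodF p := by
  have key : ∀ i, NTy (p i) → ∀ z : Fin 2 → ℝ, ∀ u r : A, (∏ i, p i) = u * r → Sg u z →
      eval z (p i) = 0 → hess u z < 0 ∧ eval z r ≠ 0 := by
    intro i hi z u r hP hu hz
    obtain ⟨g0, g1⟩ := hess_unit (r := r) hu
    have h2 := (h i hi).1 z hz
    rw [hP] at h2
    have h3 : hess (u * r) z < 0 := by
      rcases h2 with ⟨k, hk⟩ | h2
      · exact absurd (g0 k) hk
      · exact h2
    rw [g1] at h3
    constructor
    · by_contra hc
      push Not at hc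
      exact absurd h3 (not_lt.2 (mul_nonneg (sq_nonneg _) hc))
    · intro hr
      rw [hr] at h3
      simp at h3
  have e1 : ∀ i, (∏ i, p i) = p i * ∏ j ∈ Finset.univ.erase i, p j := fun i =>
    (Finset.mul_prod_erase Finset.univ p (Finset.mem_univ i)).symm
  have e2 : ∀ i j, j ≠ i → (∏ i, p i) =
      (p i * p j) * ∏ k ∈ (Finset.univ.erase i).erase j, p k := by
    intro i j hji
    rw [e1 i, ← Finset.mul_prod_erase (Finset.univ.erase i) p
      (Finset.mem_erase.2 ⟨hji, Finset.mem_univ j⟩), mul_assoc]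
  have hprod0 : ∀ (z : Fin 2 → ℝ) (s : Finset ι) (j : ι), j ∈ s → eval z (p j) = 0 →
      eval z (∏ k ∈ s, p k) = 0 := by
    intro z s j hj h0
    rw [map_prod]
    exact Finset.prod_eq_zero hj h0
  have keyij : ∀ i, NTy (p i) → ∀ j, j ≠ i → ∀ z : Fin 2 → ℝ, eval z (p i) = 0 →
      eval z (p j) = 0 → Trv (p i) (p j) z ∧
        eval z (∏ k ∈ (Finset.univ.erase i).erase j, p k) ≠ 0 := by
    intro i hi j hji z hz hzj
    obtain ⟨g0, g1⟩ := hess_mul hz hzj
    have hSg : Sg (p i * p j) z := ⟨by rw [map_mul, hz, zero_mul], g0⟩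
    obtain ⟨k1, k2⟩ := key i hi z _ _ (e2 i j hji) hSg hz
    refine ⟨?_, k2⟩
    intro h0
    rw [g1, h0] at k1
    simp at k1
  refine ⟨?_, ?_, ?_, ?_, ?_⟩
  · intro i hi z hz
    exact (key i hi z _ _ (e1 i) hz hz.1).1
  · intro i hi z hz j hji h0
    exact (key i hi z _ _ (e1 i) hz hz.1).2
      (hprod0 z _ j (Finset.mem_erase.2 ⟨hji, Finset.mem_univ j⟩) h0)
  · intro i hi j hji z hz hzj
    exact (h i hi).2 j hji z hz hzj
  · intro i hi j hji z hz hzj
    exact (keyij i hi j hji z hz hzj).1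
  · intro i hi j hji k hki hkj z hz hzj h0
    exact (keyij i hi j hji z hz hzj).2
      (hprod0 z _ k (Finset.mem_erase.2 ⟨hkj, Finset.mem_erase.2 ⟨hki, Finset.mem_univ k⟩⟩) h0)

end Pool.Agent.Helper10.GN
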