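import Pool.Agent.Helper10.GN.Plc

set_option autoImplicit false

/-!
# Project GN, block CDR: the conductor, monic case

`x, y ∈ F` generate `F`; `Q ∈ ℂ[X, Y]` generates the kernel of `h ↦ h(x, y)`, and the coefficient of `Y^n`, `n` = total degree
of `Q`, `n ≥ 1`, is not `0` (so `Q` is a constant times a monic polynomial in `Y` over `ℂ[X]`). If `f` is regular at all places at which
`x` and `y` are regular, then `∂Q/∂Y (x, y) * f` is a polynomial in `x, y`.

Proof. `x` is transcendental over `ℂ` (`h(x) = 0` gives `Q ∣ h(X)`, impossible because of the `Y^n` term unless `h = 0`).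
Let `Ax = ℂ[x] ⊆ F` (or the algebra `F` over `ℂ[X]` via `X ↦ x`; use `Polynomial ℂ` with
`(Polynomial.aeval x).toRingHom.toAlgebra`), `K = ℂ(x)` its fraction field (`FractionRing (Polynomial ℂ)` or `RatFunc ℂ` as a subfield).
`y` is integral over `ℂ[x]` with minimal polynomial `Q/c` (irreducible over `ℂ[X]`, hence over `K`), and
`K(y) = F`. `f` is integral over `ℂ[x]`: otherwise there is a valuation ring `R ⊇ ℂ[x]` of `F` with `f ∉ R` (integral closure =
intersection of valuation rings; in Mathlib: if `f` is not integral over the subring `ℂ[x]` then `f⁻¹` is not a unit of `ℂ[x][f⁻¹]`,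
take a maximal ideal containing `f⁻¹` and apply `FF.exists_place_of_subring` to `ℂ[x][f⁻¹]` and this ideal; the place
`P` contains `x`, and `f⁻¹` is a nonunit, so `f ∉ P.ring`); `y` is integral over `ℂ[x]`, so `y ∈ P.ring`, contradiction.
The trace form: for all `b ∈ ℂ[x][y]`, `Tr(f b)` is integral over `ℂ[x]` and in `K`, so in `ℂ[x]` (integrally
closed: `Algebra.isIntegral_trace`), so `f` is in the dual of `ℂ[x][y]`, and Mathlib's `traceForm_dualSubmodule_adjoin`
(RingTheory/DedekindDomain/Different) says `m'(y) f ∈ ℂ[x][y]`, `m` the minimal polynomial of `y`.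
-/

namespace Pool.Agent.Helper10.GN

open VC FF MvPolynomial Pool.Agent.Helper68.QM


section Gen24

open Polynomial in
private theorem cond24 {A L : Type} [CommRing A] [IsDomain A] [IsIntegrallyClosed A] [CharZero A]
    [Field L] [Algebra A L] [FaithfulSMul A L] {y f : L} (hy : IsIntegral A y)
    (hgen : ∀ g : L, ∃ a b : A[X], Polynomial.aeval y b ≠ 0 ∧
      g = Polynomial.aeval y a / Polynomial.aeval y b)
    (hf : IsIntegral A f) :
    ∃ h : A[X], Polynomial.aeval y (derivative (minpoly A y)) * f = Polynomial.aeval y h := by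
  let K := FractionRing A
  let : Algebra K L := FractionRing.liftAlgebra A L
  have : IsScalarTower A K L := FractionRing.isScalarTower_liftAlgebra A L
  have : CharZero K := charZero_of_injective_algebraMap (IsFractionRing.injective A K)
  have hyK : IsIntegral K y := hy.tower_top
  have hmem : ∀ a : A[X], Polynomial.aeval y a ∈ Algebra.adjoin K {y} := by
    intro a
    rw [← Polynomial.aeval_map_algebraMap K]
    exact Polynomial.aeval_mem_adjoin_singleton K y
  have hadj : Algebra.adjoin K {y} = ⊤ := by
    rw [eq_top_iff]
    intro g _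
    obtain ⟨a, b, hb, rfl⟩ := hgen g
    have e1 := IntermediateField.adjoin_simple_toSubalgebra_of_isAlgebraic hyK.isAlgebraic
    rw [← e1] at hmem ⊢
    exact IntermediateField.div_mem _ (hmem a) (hmem b)
  have : FiniteDimensional K L := by
    have h1 := hyK.fg_adjoin_singleton
    rw [hadj] at h1
    exact Module.finite_def.mpr h1
  have hne : Polynomial.aeval y (derivative (minpoly K y)) ≠ 0 :=
    Polynomial.Separable.aeval_derivative_ne_zero
      (minpoly.irreducible hyK).separable (minpoly.aeval K y)
  have key := traceForm_dualSubmodule_adjoin A K hadj hy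
  have hfd : f ∈ (Algebra.traceForm K L).dualSubmodule
      (Subalgebra.toSubmodule (Algebra.adjoin A {y})) := by
    rw [LinearMap.BilinForm.mem_dualSubmodule]
    intro b hb
    rw [Algebra.traceForm_apply]
    have hbi : IsIntegral A b := by
      have h1 : Algebra.adjoin A {y} ≤ integralClosure A L := by
        rw [Algebra.adjoin_le_iff]
        intro z hz
        rw [Set.mem_singleton_iff] at hz
        rw [hz]
        exact hy
      exact h1 hb
    have h2 : IsIntegral A (Algebra.trace K L (f * b)) := Algebra.isIntegral_trace (hf.mul hbi)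
    obtain ⟨c, hc⟩ := IsIntegrallyClosed.isIntegral_iff.mp h2
    rw [Submodule.mem_one]
    exact ⟨c, hc⟩
  rw [key] at hfd
  obtain ⟨g, hg, hgf⟩ := Submodule.mem_smul_pointwise_iff_exists _ _ _ |>.mp hfd
  have hg' : g ∈ Algebra.adjoin A {y} := hg
  rw [Algebra.adjoin_singleton_eq_range_aeval] at hg'
  obtain ⟨h, hh⟩ := hg'
  refine ⟨h, ?_⟩
  have e2 : Polynomial.aeval y (derivative (minpoly K y))
      = Polynomial.aeval y (derivative (minpoly A y)) := by
    rw [minpoly.isIntegrallyClosed_eq_field_fractions' K hy, derivative_map,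
      Polynomial.aeval_map_algebraMap]
  rw [← e2, ← hgf]
  have hh' : Polynomial.aeval y h = g := hh
  rw [hh', smul_eq_mul, ← mul_assoc, mul_inv_cancel₀ hne, one_mul]

private noncomputable abbrev e24 : Polynomial (Polynomial ℂ) ≃ₐ[ℂ] MvPolynomial (Fin 2) ℂ :=
  Polynomial.Bivariate.equivMvPolynomial ℂ

private theorem coeff24 (q : Polynomial (Polynomial ℂ)) (i j : ℕ) :
    coeff (Finsupp.single 0 i + Finsupp.single 1 j) (e24 q) = (q.coeff j).coeff i := by
  induction q using Polynomial.induction_on' with
  | add p q hp hq => rw [map_add, coeff_add, hp, hq, Polynomial.coeff_add, Polynomial.coeff_add]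
  | monomial n a =>
    induction a using Polynomial.induction_on' with
    | add p q hp hq =>
      rw [map_add, map_add, coeff_add, hp, hq, Polynomial.coeff_add, Polynomial.coeff_add]
    | monomial k c =>
      have h1 : (Polynomial.monomial n (Polynomial.monomial k c) : Polynomial (Polynomial ℂ))
          = Polynomial.C (Polynomial.C c) * Polynomial.C Polynomial.X ^ k * Polynomial.X ^ n := by
        rw [← Polynomial.C_mul_X_pow_eq_monomial, ← Polynomial.C_mul_X_pow_eq_monomial,
          Polynomial.C_mul, Polynomial.C_pow]
      have h2 : e24 (Polynomial.monomial n (Polynomial.monomial k c))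
          = MvPolynomial.monomial (Finsupp.single 0 k + Finsupp.single 1 n) c := by
        rw [h1, map_mul, map_mul, map_pow, map_pow, Polynomial.Bivariate.equivMvPolynomial_C_C,
          Polynomial.Bivariate.equivMvPolynomial_C_X, Polynomial.Bivariate.equivMvPolynomial_X,
          MvPolynomial.C_mul_X_pow_eq_monomial, ← MvPolynomial.monomial_add_single]
      rw [h2, MvPolynomial.coeff_monomial, Polynomial.coeff_monomial]
      by_cases hn : n = j
      · subst hn
        rw [if_pos rfl, Polynomial.coeff_monomial]
        by_cases hk : k = i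
        · subst hk
          rw [if_pos rfl, if_pos rfl]
        · rw [if_neg hk, if_neg]
          intro h
          have := DFunLike.congr_fun h 0
          simp at this
          exact hk this
      · rw [if_neg hn, Polynomial.coeff_zero, if_neg]
        intro h
        have := DFunLike.congr_fun h 1
        simp at this
        exact hn this

end Gen24

variable {F : Type} [Field F] [Algebra ℂ F] (hF : IsFunctionField ℂ F)
include hF

theorem conductor_monic {x y : F} {Q : CP} (hn : 1 ≤ Q.totalDegree)
    (hQ : coeff (Finsupp.single 1 Q.totalDegree) Q ≠ 0)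
    (hker : ∀ h : CP, aeval ![x, y] h = 0 ↔ Q ∣ h)
    (hgen : ∀ f : F, ∃ a b : CP, aeval ![x, y] b ≠ 0 ∧ f = aeval ![x, y] a / aeval ![x, y] b)
    {f : F} (hf : ∀ P : Place ℂ F, x ∈ P.ring → y ∈ P.ring → f ∈ P.ring) :
    ∃ h : CP, aeval ![x, y] (pderiv 1 Q) * f = aeval ![x, y] h := by
  classical
  let alg : Algebra (Polynomial ℂ) F := (Polynomial.aeval (R := ℂ) x).toRingHom.toAlgebra
  have halg : ∀ a : Polynomial ℂ, algebraMap (Polynomial ℂ) F a = Polynomial.aeval x a :=
    fun a => rfl
  set m0 : Polynomial (Polynomial ℂ) := e24.symm Q with hm0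
  have hem0 : e24 m0 = Q := by rw [hm0, AlgEquiv.apply_symm_apply]
  -- evaluation
  have hev : ∀ q : Polynomial (Polynomial ℂ), aeval ![x, y] (e24 q) = Polynomial.aeval y q := by
    intro q
    induction q using Polynomial.induction_on' with
    | add p q hp hq => rw [map_add, map_add, hp, hq, map_add]
    | monomial n a =>
      induction a using Polynomial.induction_on' with
      | add p q hp hq => rw [map_add, map_add, map_add, hp, hq, map_add]
      | monomial k c =>
        have h1 : (Polynomial.monomial n (Polynomial.monomial k c) : Polynomial (Polynomial ℂ))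
            = Polynomial.C (Polynomial.C c) * Polynomial.C Polynomial.X ^ k
              * Polynomial.X ^ n := by
          rw [← Polynomial.C_mul_X_pow_eq_monomial, ← Polynomial.C_mul_X_pow_eq_monomial,
            Polynomial.C_mul, Polynomial.C_pow]
        rw [h1]
        simp only [map_mul, map_pow, Polynomial.Bivariate.equivMvPolynomial_C_C,
          Polynomial.Bivariate.equivMvPolynomial_C_X, Polynomial.Bivariate.equivMvPolynomial_X,
          Polynomial.aeval_C, Polynomial.aeval_X, halg, MvPolynomial.aeval_X,
          MvPolynomial.aeval_C, Matrix.cons_val_zero, Matrix.cons_val_one]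
  -- coefficients of m0
  have hQ0 : Q ≠ 0 := by
    intro h
    rw [h] at hQ
    simp at hQ
  have hdeg : ∀ i j : ℕ, (m0.coeff j).coeff i ≠ 0 → i + j ≤ Q.totalDegree := by
    intro i j hij
    rw [← coeff24, hem0] at hij
    have h1 := MvPolynomial.le_totalDegree (MvPolynomial.mem_support_iff.mpr hij)
    rw [Finsupp.sum_fintype _ _ (fun _ => rfl), Fin.sum_univ_two] at h1
    simpa using h1
  have hnat : m0.natDegree ≤ Q.totalDegree := by
    rw [Polynomial.natDegree_le_iff_coeff_eq_zero]
    intro N hN
    ext i
    rw [Polynomial.coeff_zero]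
    by_contra hne
    have := hdeg i N hne
    omega
  set c : ℂ := coeff (Finsupp.single 1 Q.totalDegree) Q with hc
  have hlead : m0.coeff Q.totalDegree = Polynomial.C c := by
    ext i
    rw [Polynomial.coeff_C]
    split_ifs with hi
    · rw [hi, ← coeff24, hem0, Finsupp.single_zero, zero_add]
    · by_contra hne
      have := hdeg i Q.totalDegree hne
      omega
  set m : Polynomial (Polynomial ℂ) := Polynomial.C (Polynomial.C c⁻¹) * m0 with hm
  have hmonic : m.Monic := by
    apply Polynomial.monic_of_natDegree_le_of_coeff_eq_one Q.totalDegree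
    · rw [hm]
      exact (Polynomial.natDegree_C_mul_le _ _).trans hnat
    · rw [hm, Polynomial.coeff_C_mul, hlead, ← Polynomial.C_mul, inv_mul_cancel₀ hQ,
        Polynomial.C_1]
  have hmQ : m0 = Polynomial.C (Polynomial.C c) * m := by
    rw [hm, ← mul_assoc, ← Polynomial.C_mul, ← Polynomial.C_mul, mul_inv_cancel₀ hQ,
      Polynomial.C_1, Polynomial.C_1, one_mul]
  have hmnat : m.natDegree = Q.totalDegree := by
    apply le_antisymm
    · rw [hm]
      exact (Polynomial.natDegree_C_mul_le _ _).trans hnat
    · apply Polynomial.le_natDegree_of_ne_zero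
      rw [hm, Polynomial.coeff_C_mul, hlead, ← Polynomial.C_mul, inv_mul_cancel₀ hQ,
        Polynomial.C_1]
      exact one_ne_zero
  -- kernel
  have hker' : ∀ q : Polynomial (Polynomial ℂ), Polynomial.aeval y q = 0 ↔ m ∣ q := by
    intro q
    rw [← hev, hker, ← hem0]
    constructor
    · rintro ⟨r, hr⟩
      refine ⟨Polynomial.C (Polynomial.C c) * e24.symm r, ?_⟩
      apply e24.injective
      rw [hr, hmQ]
      simp only [map_mul, AlgEquiv.apply_symm_apply]
      ring
    · rintro ⟨r, hr⟩
      refine ⟨e24 (Polynomial.C (Polynomial.C c⁻¹) * r), ?_⟩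
      rw [← map_mul]
      congr 1
      rw [hr, hm]
      ring
  have hfaith : FaithfulSMul (Polynomial ℂ) F := by
    rw [faithfulSMul_iff_algebraMap_injective, injective_iff_map_eq_zero]
    intro a ha
    by_contra hane
    have h1 : Polynomial.aeval y (Polynomial.C a) = 0 := by
      rw [Polynomial.aeval_C]
      exact ha
    rw [hker'] at h1
    have h2 : m.natDegree ≤ (Polynomial.C a).natDegree :=
      Polynomial.natDegree_le_of_dvd h1 (by rwa [Ne, Polynomial.C_eq_zero])
    rw [Polynomial.natDegree_C, hmnat] at h2
    omega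
  have hmy : Polynomial.aeval y m = 0 := (hker' m).mpr dvd_rfl
  have hyint : IsIntegral (Polynomial ℂ) y := ⟨m, hmonic, hmy⟩
  have hmin : minpoly (Polynomial ℂ) y = m := by
    apply Polynomial.eq_of_monic_of_associated (minpoly.monic hyint) hmonic
    apply associated_of_dvd_dvd
    · exact minpoly.isIntegrallyClosed_dvd hyint hmy
    · exact (hker' _).mp (minpoly.aeval _ _)
  have hgen' : ∀ g : F, ∃ a b : Polynomial (Polynomial ℂ), Polynomial.aeval y b ≠ 0 ∧
      g = Polynomial.aeval y a / Polynomial.aeval y b := by
    intro g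
    obtain ⟨a, b, hb, hg⟩ := hgen g
    refine ⟨e24.symm a, e24.symm b, ?_, ?_⟩
    · rw [← hev, AlgEquiv.apply_symm_apply]
      exact hb
    · rw [← hev, ← hev, AlgEquiv.apply_symm_apply, AlgEquiv.apply_symm_apply]
      exact hg
  have hfint : IsIntegral (Polynomial ℂ) f := by
    by_contra hnot
    have hnot' : f ∉ (integralClosure (Polynomial ℂ) F).toSubring := hnot
    obtain ⟨V, hV, hfV⟩ := Subring.exists_le_valuationSubring_of_isIntegrallyClosedIn hnot'
    have hVi : ∀ z : F, IsIntegral (Polynomial ℂ) z → z ∈ V := fun z hz => hV hz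
    have hVa : ∀ a : Polynomial ℂ, Polynomial.aeval x a ∈ V := fun a =>
      hVi _ (by rw [← halg]; exact isIntegral_algebraMap)
    let P : Place ℂ F :=
      { ring := V
        algebraMap_mem := fun a => by
          have := hVa (Polynomial.C a)
          rwa [Polynomial.aeval_C] at this
        ne_top := fun h => hfV (by rw [h]; trivial) }
    apply hfV
    apply hf P
    · have := hVa Polynomial.X
      rwa [Polynomial.aeval_X] at this
    · exact hVi y hyint
  obtain ⟨h, hh⟩ := cond24 hyint hgen' hfint
  rw [hmin] at hh
  refine ⟨e24 (Polynomial.C (Polynomial.C c) * h), ?_⟩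
  rw [hev, ← hem0, Polynomial.Bivariate.pderiv_one_equivMvPolynomial, hev, hmQ,
    Polynomial.derivative_C_mul, map_mul (Polynomial.aeval y) (Polynomial.C (Polynomial.C c))
      (Polynomial.derivative m), map_mul (Polynomial.aeval y) (Polynomial.C (Polynomial.C c)) h,
    mul_assoc, hh]

end Pool.Agent.Helper10.GN
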