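import Pool.Agent.Helper10.GN.Appr
import Pool.Agent.Helper10.GN.SosB

set_option autoImplicit false

/-!
# Project GN, block CHAR: homomorphisms from the ring of real functions regular outside `S`

Every `ℝ`-algebra homomorphism `φ : BSub s S → ℝ` is the value at a real place.

Proof. Let `B' ⊆ F` be the subring of all functions regular outside `S`; `b ∈ B'` iff `σ b ∈ B'`
(`S` closed under conjugation, `mem_cj`), and `b = Re b + i Im b` with `Re b = (b + σ b)/2`,
`Im b = (b - σ b)/(2 i)` in `BSub s S`; the map `Φ b = φ (Re b) + i φ (Im b)` is a ring homomorphism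
`B' → ℂ`, the identity on constants. `FF.exists_place_of_subring` for `A = B'` and `I = ker Φ` (check its
hypotheses: `I` is proper, and contains a transcendental / nonzero element: `B'` contains a nonconstant
`f` by `exists_pole`, and `f - Φ f ∈ I`) gives a place `P` with `B' ⊆ P.ring` and `I ⊆ P.ring.nonunits`.
Then `P ∉ S` by `exists_pole`. For `b ∈ B'` we have `b - Φ b ∈ I`, so `vl P b = Φ b`. For `b ∈ B'`:
`vl (s.cj P) b = conj (vl P (σ b)) = conj (Φ (σ b)) = Φ b = vl P b` (`s.cj P ∉ S`; `Φ (σ b) = conj (Φ b)`).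
By `exists_vl` (`S` nonempty, places outside `S`) `s.cj P = P`. For `b ∈ BSub s S`: `φ b = Φ b`, which is
real, so `φ b = rv P b`.
-/

namespace Pool.Agent.Helper10.GN

open VC FF

variable {F : Type} [Field F] [Algebra ℂ F] {s : RStr F} (hF : IsFunctionField ℂ F)

/-- the subring of all functions regular outside `S` -/
private def BC (S : Finset (Place ℂ F)) : Subring F where
  carrier := {b | ∀ P : Place ℂ F, P ∉ S → b ∈ P.ring}
  mul_mem' := fun ha hb P hP => P.ring.mul_mem _ _ (ha P hP) (hb P hP)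
  one_mem' := fun P _ => P.ring.one_mem
  add_mem' := fun ha hb P hP => P.ring.add_mem _ _ (ha P hP) (hb P hP)
  zero_mem' := fun P _ => P.ring.zero_mem
  neg_mem' := fun ha P hP => P.ring.neg_mem _ (ha P hP)

private theorem cj_notMem16 {S : Finset (Place ℂ F)} (hS : SData s S) {P : Place ℂ F}
    (hP : P ∉ S) : s.cj P ∉ S := fun h => hP (by
  have := hS.cj_mem _ h
  rwa [cj_cj] at this)

private theorem sig_mem16 {S : Finset (Place ℂ F)} (hS : SData s S) {b : F} (hb : b ∈ BC S) :
    s.σ b ∈ BC S := fun P hP => (mem_cj s P b).1 (hb _ (cj_notMem16 hS hP))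

private theorem two_half16 : (2 : F) * algebraMap ℂ F (1 / 2) = 1 := by
  have h : (2 : F) = algebraMap ℂ F 2 := by rw [map_ofNat]
  rw [h, ← map_mul]
  norm_num

private theorem i_sq16 : algebraMap ℂ F Complex.I * algebraMap ℂ F Complex.I = -1 := by
  rw [← map_mul, Complex.I_mul_I, map_neg, map_one]

/-- real part -/
private noncomputable def reB {S : Finset (Place ℂ F)} (hS : SData s S) (b : BC S) : BSub s S :=
  ⟨algebraMap ℂ F (1 / 2) * ((b : F) + s.σ (b : F)), by
    constructor
    · rw [map_mul, s.alg, map_add, s.inv, add_comm (b : F)]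
      congr 2
      rw [map_div₀, map_one, Complex.conj_ofNat]
    · intro P hP
      exact P.ring.mul_mem _ _ (P.algebraMap_mem _)
        (P.ring.add_mem _ _ (b.2 P hP) (sig_mem16 hS b.2 P hP))⟩

/-- imaginary part -/
private noncomputable def imB {S : Finset (Place ℂ F)} (hS : SData s S) (b : BC S) : BSub s S :=
  ⟨algebraMap ℂ F (-Complex.I / 2) * ((b : F) - s.σ (b : F)), by
    constructor
    · rw [map_mul, s.alg, map_sub, s.inv]
      have h : (starRingEnd ℂ) (-Complex.I / 2) = Complex.I / 2 := by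
        rw [map_div₀, map_neg, Complex.conj_I, neg_neg, Complex.conj_ofNat]
      rw [h]
      have h2 : algebraMap ℂ F (-Complex.I / 2) = - algebraMap ℂ F (Complex.I / 2) := by
        rw [← map_neg, neg_div]
      rw [h2]
      ring
    · intro P hP
      exact P.ring.mul_mem _ _ (P.algebraMap_mem _)
        (sub_mem (b.2 P hP) (sig_mem16 hS b.2 P hP))⟩

private theorem coe_re16 {S : Finset (Place ℂ F)} (hS : SData s S) (b : BC S) :
    ((reB hS b : BSub s S) : F) = algebraMap ℂ F (1 / 2) * ((b : F) + s.σ (b : F)) := rfl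

private theorem coe_im16 {S : Finset (Place ℂ F)} (hS : SData s S) (b : BC S) :
    ((imB hS b : BSub s S) : F) =
      - (algebraMap ℂ F Complex.I * algebraMap ℂ F (1 / 2)) * ((b : F) - s.σ (b : F)) := by
  change algebraMap ℂ F (-Complex.I / 2) * ((b : F) - s.σ (b : F)) = _
  congr 1
  rw [← map_mul, ← map_neg]
  congr 1
  ring

private theorem re_mul16 {S : Finset (Place ℂ F)} (hS : SData s S) (b c : BC S) :
    reB hS (b * c) = reB hS b * reB hS c - imB hS b * imB hS c := by
  apply Subtype.ext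
  rw [AddSubgroupClass.coe_sub, MulMemClass.coe_mul, MulMemClass.coe_mul, coe_re16, coe_re16,
    coe_re16, coe_im16, coe_im16, Subring.coe_mul, map_mul]
  have h1 := two_half16 (F := F)
  have h2 := i_sq16 (F := F)
  generalize algebraMap ℂ F (1 / 2) = h at *
  generalize algebraMap ℂ F Complex.I = i at *
  generalize (b : F) = x at *
  generalize (c : F) = y at *
  generalize s.σ x = x' at *
  generalize s.σ y = y' at *
  linear_combination (-h * (x * y + x' * y')) * h1 + ((h ^ 2) * (x - x') * (y - y')) * h2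

private theorem im_mul16 {S : Finset (Place ℂ F)} (hS : SData s S) (b c : BC S) :
    imB hS (b * c) = reB hS b * imB hS c + imB hS b * reB hS c := by
  apply Subtype.ext
  rw [AddMemClass.coe_add, MulMemClass.coe_mul, MulMemClass.coe_mul, coe_re16, coe_re16,
    coe_im16, coe_im16, coe_im16, Subring.coe_mul, map_mul]
  have h1 := two_half16 (F := F)
  generalize algebraMap ℂ F (1 / 2) = h at *
  generalize algebraMap ℂ F Complex.I = i at *
  generalize (b : F) = x at *
  generalize (c : F) = y at *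
  generalize s.σ x = x' at *
  generalize s.σ y = y' at *
  linear_combination (i * h * (x * y - x' * y')) * h1

private theorem re_add16 {S : Finset (Place ℂ F)} (hS : SData s S) (b c : BC S) :
    reB hS (b + c) = reB hS b + reB hS c := by
  apply Subtype.ext
  rw [AddMemClass.coe_add, coe_re16, coe_re16, coe_re16, Subring.coe_add, map_add]
  ring

private theorem im_add16 {S : Finset (Place ℂ F)} (hS : SData s S) (b c : BC S) :
    imB hS (b + c) = imB hS b + imB hS c := by
  apply Subtype.ext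
  rw [AddMemClass.coe_add, coe_im16, coe_im16, coe_im16, Subring.coe_add, map_add]
  ring

private theorem re_const16 {S : Finset (Place ℂ F)} (hS : SData s S) (b : BC S) (c : ℂ)
    (hb : (b : F) = algebraMap ℂ F c) : reB hS b = algebraMap ℝ (BSub s S) c.re := by
  apply Subtype.ext
  rw [coe_re16, hb, s.alg]
  change _ = algebraMap ℂ F ((c.re : ℝ) : ℂ)
  rw [← map_add, ← map_mul, Complex.add_conj]
  congr 1
  push_cast
  ring

private theorem im_const16 {S : Finset (Place ℂ F)} (hS : SData s S) (b : BC S) (c : ℂ)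
    (hb : (b : F) = algebraMap ℂ F c) : imB hS b = algebraMap ℝ (BSub s S) c.im := by
  apply Subtype.ext
  change algebraMap ℂ F (-Complex.I / 2) * ((b : F) - s.σ (b : F)) = _
  rw [hb, s.alg]
  change _ = algebraMap ℂ F ((c.im : ℝ) : ℂ)
  rw [← map_sub, ← map_mul, Complex.sub_conj]
  congr 1
  push_cast
  linear_combination (-(c.im : ℂ)) * Complex.I_mul_I

/-- the complex extension of `φ` -/
private noncomputable def PhiB {S : Finset (Place ℂ F)} (hS : SData s S)
    (φ : BSub s S →ₐ[ℝ] ℝ) : BC S →+* ℂ where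
  toFun b := (φ (reB hS b) : ℂ) + Complex.I * (φ (imB hS b) : ℂ)
  map_one' := by
    have h1 : ((1 : BC S) : F) = algebraMap ℂ F 1 := by rw [map_one]; rfl
    rw [re_const16 hS 1 1 h1, im_const16 hS 1 1 h1, AlgHom.commutes, AlgHom.commutes]
    simp
  map_zero' := by
    have h1 : ((0 : BC S) : F) = algebraMap ℂ F 0 := by rw [map_zero]; rfl
    rw [re_const16 hS 0 0 h1, im_const16 hS 0 0 h1, AlgHom.commutes, AlgHom.commutes]
    simp
  map_add' b c := by
    rw [re_add16, im_add16, map_add, map_add]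
    push_cast
    ring
  map_mul' b c := by
    rw [re_mul16, im_mul16, map_sub, map_mul, map_mul, map_add, map_mul, map_mul]
    push_cast
    linear_combination (-(φ (imB hS b) : ℂ) * (φ (imB hS c) : ℂ)) * Complex.I_mul_I

private theorem Phi_const16 {S : Finset (Place ℂ F)} (hS : SData s S)
    (φ : BSub s S →ₐ[ℝ] ℝ) (b : BC S) (c : ℂ) (hb : (b : F) = algebraMap ℂ F c) :
    PhiB hS φ b = c := by
  change (φ (reB hS b) : ℂ) + Complex.I * (φ (imB hS b) : ℂ) = c
  rw [re_const16 hS b c hb, im_const16 hS b c hb, AlgHom.commutes, AlgHom.commutes]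
  change ((c.re : ℝ) : ℂ) + Complex.I * ((c.im : ℝ) : ℂ) = c
  rw [mul_comm, Complex.re_add_im]

private theorem Phi_sig16 {S : Finset (Place ℂ F)} (hS : SData s S)
    (φ : BSub s S →ₐ[ℝ] ℝ) (b : BC S) :
    PhiB hS φ ⟨s.σ (b : F), sig_mem16 hS b.2⟩ = (starRingEnd ℂ) (PhiB hS φ b) := by
  have h1 : reB hS ⟨s.σ (b : F), sig_mem16 hS b.2⟩ = reB hS b := by
    apply Subtype.ext
    rw [coe_re16, coe_re16]
    change algebraMap ℂ F (1 / 2) * (s.σ (b : F) + s.σ (s.σ (b : F))) = _
    rw [s.inv, add_comm]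
  have h2 : imB hS ⟨s.σ (b : F), sig_mem16 hS b.2⟩ = - imB hS b := by
    apply Subtype.ext
    rw [NegMemClass.coe_neg, coe_im16, coe_im16]
    change _ * (s.σ (b : F) - s.σ (s.σ (b : F))) = _
    rw [s.inv]
    ring
  change (φ (reB hS _) : ℂ) + Complex.I * (φ (imB hS _) : ℂ) =
    (starRingEnd ℂ) ((φ (reB hS b) : ℂ) + Complex.I * (φ (imB hS b) : ℂ))
  rw [h1, h2, map_neg, map_add, map_mul, Complex.conj_I, Complex.conj_ofReal, Complex.conj_ofReal]
  push_cast
  ring

theorem exists_place_of_hom {S : Finset (Place ℂ F)} (hS : SData s S)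
    (φ : BSub s S →ₐ[ℝ] ℝ) :
    ∃ P : Place ℂ F, s.cj P = P ∧ ∀ b : BSub s S, φ b = rv hF P (b : F) := by
  classical
  set Φ := PhiB hS φ with hΦ
  have hconst : ∀ c : ℂ, algebraMap ℂ F c ∈ BC S := fun c P _ => P.algebraMap_mem c
  have hker : ∀ b : BC S, b - ⟨algebraMap ℂ F (Φ b), hconst _⟩ ∈ RingHom.ker Φ := by
    intro b
    rw [RingHom.mem_ker, map_sub, hΦ, Phi_const16 hS φ ⟨algebraMap ℂ F (PhiB hS φ b), hconst _⟩
      (PhiB hS φ b) rfl, sub_self]
  obtain ⟨Q, hQ⟩ := hS.ne
  obtain ⟨f, hf1, hf2⟩ := exists_pole hF hQ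
  obtain ⟨P, hP1, hP2⟩ := FF.exists_place_of_subring (k := ℂ) (BC S) hconst (RingHom.ker Φ)
    (RingHom.ker_ne_top Φ) ⟨(⟨f, hf1⟩ : BC S) - ⟨algebraMap ℂ F (Φ ⟨f, hf1⟩), hconst _⟩,
      hker _, fun h => hf2 (by
        have h1 := congrArg Subtype.val h
        have h2 : f = algebraMap ℂ F (Φ ⟨f, hf1⟩) := sub_eq_zero.mp h1
        rw [h2]
        exact Q.algebraMap_mem _)⟩
  have hPS : P ∉ S := by
    intro h
    obtain ⟨g, hg1, hg2⟩ := exists_pole hF h
    exact hg2 (hP1 g hg1)
  have hvl : ∀ b : BC S, vl hF P (b : F) = Φ b := by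
    intro b
    rw [vl_eq_iff hF (hP1 _ b.2)]
    exact hP2 _ (hker b)
  have hcj : s.cj P = P := by
    by_contra hne
    obtain ⟨g, hg1, hg2, hg3⟩ := exists_vl (S := S) hF hS.ne (Ne.symm hne) hPS
      (cj_notMem16 hS hPS)
    have hg : g ∈ BC S := hg1
    have h1 := hvl ⟨g, hg⟩
    have h2 := hvl ⟨s.σ g, sig_mem16 hS hg⟩
    rw [hΦ, Phi_sig16 hS φ ⟨g, hg⟩, ← hΦ, ← h1] at h2
    change vl hF P (s.σ g) = (starRingEnd ℂ) (vl hF P g) at h2
    rw [vl_cj s hF (hP1 _ (sig_mem16 hS hg)), h2, Complex.conj_conj, hg2] at hg3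
    exact zero_ne_one hg3
  refine ⟨P, hcj, fun b => ?_⟩
  have hb : (b : F) ∈ BC S := b.2.2
  have h1 := hvl ⟨b, hb⟩
  have h2 : reB hS ⟨(b : F), hb⟩ = b := by
    apply Subtype.ext
    rw [coe_re16]
    change algebraMap ℂ F (1 / 2) * ((b : F) + s.σ (b : F)) = b
    rw [b.2.1]
    linear_combination (b : F) * two_half16 (F := F)
  have h3 : imB hS ⟨(b : F), hb⟩ = 0 := by
    apply Subtype.ext
    rw [coe_im16]
    change _ * ((b : F) - s.σ (b : F)) = 0
    rw [b.2.1, sub_self, mul_zero]
  unfold rv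
  change vl hF P (b : F) = (φ (reB hS _) : ℂ) + Complex.I * (φ (imB hS _) : ℂ) at h1
  rw [h1, h2, h3, map_zero]
  simp

end Pool.Agent.Helper10.GN
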