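import Pool.Agent.Helper10.GN.Glu
import Pool.Agent.Helper68.QM.Compact

set_option autoImplicit false

/-!
# Project GN, block CLM: sums of squares modulo a real ideal are closed in bounded degree

`P ∣ ∑ B_j²` implies `P ∣ B_j` (hypothesis `hP`). If for every `ε > 0` `f + ε` is congruent modulo `P` to a sum of squares of polynomials of degree
`≤ D`, then `f` is congruent to a sum of squares.

Proof. Let `V` be the space of the polynomials of degree `≤ D` (finite-dimensional), `V' = V ∩ (P)`, `U` a complement of `V'` in `V`,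
`r = dim U`. Every sum of squares of elements of `V` is congruent modulo `P` to a sum of squares of elements of `U`, and this to a sum of `r` squares
of elements of `U` (Gram matrix: in coordinates `∑_k c_k c_kᵀ` is positive semidefinite, `= Bᵀ B` with an `r × r` matrix; compare `few_squares` in
QM/Compact.lean). Let `W` be the space of the polynomials of degree `≤ 2 D + totalDegree f` modulo multiples of `P`
(finite-dimensional) and `Φ : U^r → W`, `(u_k) ↦ ∑ u_k²`, continuous, homogeneous of degree `2`, `Φ(u) = 0` only for `u = 0` (`hP`, `U ∩ (P) = 0`). So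
`|Φ(u)| ≥ c |u|²` with `c > 0` (compactness of the unit sphere), the vectors `u^(n)` for `ε = 1/n` are bounded, a subsequence converges to `u` and
`Φ(u) = f` in `W`.
-/

namespace Pool.Agent.Helper10.GN

open VC FF MvPolynomial Pool.Agent.Helper68.QM

private theorem gram14 {Q : Type*} [CommRing Q] [Algebra ℝ Q] {κ ι : Type*} [Fintype κ] [Fintype ι] (e : ι → Q)
    (M : Matrix κ ι ℝ) :
    ∑ k, (∑ i, M k i • e i) ^ 2 = ∑ p, ∑ q, (M.transpose * M) p q • (e p * e q) := by
  have h1 : ∀ k, (∑ i, M k i • e i) ^ 2 = ∑ p, ∑ q, (M k p * M k q) • (e p * e q) := by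
    intro k
    rw [pow_two, Finset.sum_mul_sum]
    refine Finset.sum_congr rfl fun p _ => Finset.sum_congr rfl fun q _ => ?_
    rw [smul_mul_smul_comm]
  simp only [h1]
  rw [Finset.sum_comm]
  refine Finset.sum_congr rfl fun p _ => ?_
  rw [Finset.sum_comm]
  refine Finset.sum_congr rfl fun q _ => ?_
  rw [← Finset.sum_smul, Matrix.mul_apply]
  rfl

open scoped MatrixOrder in
private theorem few14 {Q : Type*} [CommRing Q] [Algebra ℝ Q] {n r : ℕ} (e : Fin r → Q)
    (c : Fin n → Fin r → ℝ) :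
    ∃ B : Fin r → Fin r → ℝ, ∑ k, (∑ i, c k i • e i) ^ 2 = ∑ k, (∑ i, B k i • e i) ^ 2 := by
  let M : Matrix (Fin n) (Fin r) ℝ := c
  have hG : (M.conjTranspose * M).PosSemidef := Matrix.posSemidef_conjTranspose_mul_self M
  obtain ⟨B, hB⟩ := CStarAlgebra.nonneg_iff_eq_star_mul_self.mp hG.nonneg
  refine ⟨B, ?_⟩
  have h2 : M.transpose * M = Matrix.transpose B * B := by
    have h3 : M.conjTranspose = M.transpose := by
      ext i j; simp [Matrix.conjTranspose_apply]
    have h4 : star B = Matrix.transpose B := by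
      ext i j; simp [Matrix.star_apply]
    rw [h3, h4] at hB
    exact hB
  have h5 := gram14 e M
  have h6 := gram14 e B
  rw [h2, ← h6] at h5
  exact h5

open Filter Topology in
private theorem closed14 {Q : Type*} [CommRing Q] [Algebra ℝ Q]
    (hQ : ∀ (n : ℕ) (b : Fin n → Q), ∑ j, b j ^ 2 = 0 → ∀ j, b j = 0) {r : ℕ} (e : Fin r → Q)
    (he : LinearIndependent ℝ e) (f : Q)
    (h : ∀ ε : ℝ, 0 < ε → ∃ (n : ℕ) (c : Fin n → Fin r → ℝ),
      f + algebraMap ℝ Q ε = ∑ k, (∑ i, c k i • e i) ^ 2) :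
    ∃ B : Fin r → Fin r → ℝ, f = ∑ k, (∑ i, B k i • e i) ^ 2 := by
  classical
  -- a finite-dimensional space containing everything
  let T : Set Q := Set.range (fun p : Fin r × Fin r => e p.1 * e p.2) ∪ {f, 1}
  have hT : T.Finite := (Set.finite_range _).union (by simp)
  let W : Submodule ℝ Q := Submodule.span ℝ T
  haveI : FiniteDimensional ℝ W := FiniteDimensional.span_of_finite ℝ hT
  have hfW : f ∈ W := Submodule.subset_span (Or.inr (by simp))
  have h1W : (1 : Q) ∈ W := Submodule.subset_span (Or.inr (by simp))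
  have hee : ∀ p q, e p * e q ∈ W := fun p q => Submodule.subset_span (Or.inl ⟨(p, q), rfl⟩)
  let ψ := (Module.finBasis ℝ W).equivFun
  obtain ⟨π, hπ⟩ := LinearMap.exists_extend (ψ : W →ₗ[ℝ] (Fin (Module.finrank ℝ W) → ℝ))
  have hπinj : ∀ x ∈ W, ∀ y ∈ W, π x = π y → x = y := by
    intro x hx y hy hxy
    have h1 : π x = ψ ⟨x, hx⟩ := LinearMap.congr_fun hπ ⟨x, hx⟩
    have h2 : π y = ψ ⟨y, hy⟩ := LinearMap.congr_fun hπ ⟨y, hy⟩
    rw [h1, h2] at hxy
    exact congrArg Subtype.val (ψ.injective hxy)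
  let S : (Fin r → Fin r → ℝ) → Q := fun B => ∑ k, (∑ i, B k i • e i) ^ 2
  have hSform : ∀ B, S B = ∑ p, ∑ q, (∑ k, B k p * B k q) • (e p * e q) := by
    intro B
    have h1 := gram14 e (B : Matrix (Fin r) (Fin r) ℝ)
    exact h1
  have hSW : ∀ B, S B ∈ W := by
    intro B
    rw [hSform]
    exact Submodule.sum_mem _ fun p _ => Submodule.sum_mem _ fun q _ => Submodule.smul_mem _ _ (hee p q)
  let G : (Fin r → Fin r → ℝ) → (Fin (Module.finrank ℝ W) → ℝ) := fun B => π (S B)
  have hGform : ∀ B, G B = ∑ p, ∑ q, (∑ k, B k p * B k q) • π (e p * e q) := by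
    intro B
    change π (S B) = _
    rw [hSform]
    simp only [map_sum, map_smul]
  have hGc : Continuous G := by
    have h1 : G = fun B => ∑ p, ∑ q, (∑ k, B k p * B k q) • π (e p * e q) := funext hGform
    rw [h1]
    fun_prop
  have hGh : ∀ (t : ℝ) B, G (t • B) = t ^ 2 • G B := by
    intro t B
    change π (S (t • B)) = _
    have h1 : S (t • B) = t ^ 2 • S B := by
      change ∑ k, (∑ i, (t • B) k i • e i) ^ 2 = _
      rw [Finset.smul_sum]
      refine Finset.sum_congr rfl fun k _ => ?_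
      have h2 : ∑ i, (t • B) k i • e i = t • ∑ i, B k i • e i := by
        rw [Finset.smul_sum]
        refine Finset.sum_congr rfl fun i _ => ?_
        rw [Pi.smul_apply, Pi.smul_apply, smul_eq_mul, mul_smul]
      rw [h2, smul_pow]
    rw [h1, map_smul]
  have hG0 : ∀ B, G B = 0 → B = 0 := by
    intro B hB
    have h1 : S B = 0 := hπinj _ (hSW B) _ W.zero_mem (by rw [map_zero]; exact hB)
    have h2 := hQ r (fun k => ∑ i, B k i • e i) h1
    funext k i
    exact (Fintype.linearIndependent_iff.1 he) (B k) (h2 k) i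
  -- the lower bound
  have hK : IsCompact (Metric.sphere (0 : Fin r → Fin r → ℝ) 1) := isCompact_sphere _ _
  obtain ⟨c, hc0, hc⟩ := hK.exists_forall_le' (f := fun B => ‖G B‖) hGc.norm.continuousOn (a := 0)
    (fun B hB => by
      rw [norm_pos_iff]
      intro h0
      rw [mem_sphere_zero_iff_norm, hG0 B h0, norm_zero] at hB
      exact zero_ne_one hB)
  have hbd : ∀ B, c * ‖B‖ ^ 2 ≤ ‖G B‖ := by
    intro B
    by_cases hB : B = 0
    · rw [hB, norm_zero]
      simp
    · have hB' : ‖B‖ ≠ 0 := norm_ne_zero_iff.2 hB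
      have h1 : ‖B‖⁻¹ • B ∈ Metric.sphere (0 : Fin r → Fin r → ℝ) 1 := by
        rw [mem_sphere_zero_iff_norm, norm_smul, norm_inv, norm_norm, inv_mul_cancel₀ hB']
      have h2 := hc _ h1
      rw [hGh, norm_smul, norm_pow, norm_inv, norm_norm, inv_pow] at h2
      have h3 : 0 < ‖B‖ ^ 2 := by positivity
      calc c * ‖B‖ ^ 2 ≤ (‖B‖ ^ 2)⁻¹ * ‖G B‖ * ‖B‖ ^ 2 := mul_le_mul_of_nonneg_right h2 h3.le
        _ = ‖G B‖ := by field_simp
  -- the sequence
  have hseq : ∀ n : ℕ, ∃ B : Fin r → Fin r → ℝ, f + algebraMap ℝ Q (1 / ((n : ℝ) + 1)) = S B := by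
    intro n
    obtain ⟨m, d, hd⟩ := h (1 / ((n : ℝ) + 1)) (by positivity)
    obtain ⟨B, hB⟩ := few14 e d
    exact ⟨B, hd.trans hB⟩
  choose B hB using hseq
  have hGB : ∀ n, G (B n) = π f + (1 / ((n : ℝ) + 1)) • π 1 := by
    intro n
    change π (S (B n)) = _
    rw [← hB n, map_add, Algebra.algebraMap_eq_smul_one, map_smul]
  have hmem : ∀ n, B n ∈ Metric.closedBall (0 : Fin r → Fin r → ℝ) (Real.sqrt ((‖π f‖ + ‖π 1‖) / c)) := by
    intro n
    rw [mem_closedBall_zero_iff]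
    refine Real.le_sqrt_of_sq_le ?_
    rw [le_div_iff₀ hc0, mul_comm]
    refine (hbd (B n)).trans ?_
    rw [hGB n]
    refine (norm_add_le _ _).trans (add_le_add le_rfl ?_)
    rw [norm_smul]
    refine mul_le_of_le_one_left (norm_nonneg _) ?_
    have h1 : (0 : ℝ) < (n : ℝ) + 1 := by positivity
    rw [Real.norm_of_nonneg (by positivity), div_le_one h1]
    linarith [Nat.cast_nonneg (α := ℝ) n]
  obtain ⟨B0, -, φ, hφ, hlim⟩ := tendsto_subseq_of_bounded Metric.isBounded_closedBall hmem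
  refine ⟨B0, hπinj _ hfW _ (hSW B0) ?_⟩
  have h1 : Tendsto (fun n => G (B (φ n))) atTop (𝓝 (G B0)) := (hGc.tendsto B0).comp hlim
  have h2 : Tendsto (fun n : ℕ => π f + (1 / ((n : ℝ) + 1)) • π 1) atTop (𝓝 (π f + (0 : ℝ) • π 1)) :=
    (tendsto_one_div_add_atTop_nhds_zero_nat.smul_const (π 1)).const_add _
  have h3 : Tendsto (fun n : ℕ => π f + (1 / (((φ n : ℕ) : ℝ) + 1)) • π 1) atTop (𝓝 (π f + (0 : ℝ) • π 1)) :=
    h2.comp hφ.tendsto_atTop
  rw [zero_smul, add_zero] at h3
  refine tendsto_nhds_unique h3 (h1.congr fun n => ?_)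
  rw [hGB]

theorem closed_mod {P : A} (hP : ∀ (n : ℕ) (B : Fin n → A), P ∣ ∑ j, B j ^ 2 → ∀ j, P ∣ B j)
    (D : ℕ) {f : A}
    (h : ∀ ε : ℝ, 0 < ε → ∃ (n : ℕ) (B : Fin n → A), (∀ j, (B j).totalDegree ≤ D) ∧
      P ∣ f + C ε - ∑ j, B j ^ 2) : ∃ (n : ℕ) (B : Fin n → A), P ∣ f - ∑ j, B j ^ 2 := by
  classical
  let I : Ideal A := Ideal.span {P}
  have hI : ∀ x : A, Ideal.Quotient.mk I x = 0 ↔ P ∣ x := fun x => by
    rw [Ideal.Quotient.eq_zero_iff_mem, Ideal.mem_span_singleton]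
  have hQ : ∀ (n : ℕ) (b : Fin n → A ⧸ I), ∑ j, b j ^ 2 = 0 → ∀ j, b j = 0 := by
    intro n b hb j
    choose B hB using fun j => Ideal.Quotient.mk_surjective (I := I) (b j)
    rw [← hB j, hI]
    refine hP n B ?_ j
    rw [← hI, map_sum, ← hb]
    exact Finset.sum_congr rfl fun j _ => by rw [map_pow, hB]
  let Ψ : (J D → ℝ) →ₗ[ℝ] (A ⧸ I) := (Ideal.Quotient.mkₐ ℝ I).toLinearMap ∘ₗ Phi D
  let V : Submodule ℝ (A ⧸ I) := LinearMap.range Ψ
  let b := Module.finBasis ℝ V
  have hmem : ∀ a : A, a.totalDegree ≤ D → Ideal.Quotient.mk I a ∈ V := by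
    intro a ha
    obtain ⟨c, hc⟩ := exists_Phi ha
    exact ⟨c, congrArg (Ideal.Quotient.mk I) hc⟩
  have hli : LinearIndependent ℝ (fun i => (b i : A ⧸ I)) :=
    b.linearIndependent.map' V.subtype (Submodule.ker_subtype V)
  have hrep : ∀ x ∈ V, ∃ c : Fin (Module.finrank ℝ V) → ℝ, x = ∑ i, c i • (b i : A ⧸ I) := by
    intro x hx
    refine ⟨b.repr ⟨x, hx⟩, ?_⟩
    have h1 := congrArg V.subtype (b.sum_repr ⟨x, hx⟩)
    rw [map_sum] at h1
    simp only [map_smul, Submodule.subtype_apply] at h1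
    exact h1.symm
  obtain ⟨B, hB⟩ := closed14 hQ (fun i => (b i : A ⧸ I)) hli (Ideal.Quotient.mk I f) (by
    intro ε hε
    obtain ⟨n, a, ha, hd⟩ := h ε hε
    choose c hc using fun j => hrep _ (hmem (a j) (ha j))
    refine ⟨n, c, ?_⟩
    have h1 := (hI _).2 hd
    rw [map_sub, sub_eq_zero, map_add, map_sum] at h1
    refine Eq.trans ?_ (h1.trans ?_)
    · rfl
    · exact Finset.sum_congr rfl fun j _ => by rw [map_pow, hc j])
  choose a ha using fun i => Ideal.Quotient.mk_surjective (I := I) ((b i : V) : A ⧸ I)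
  refine ⟨_, fun k => ∑ i, B k i • a i, ?_⟩
  rw [← hI, map_sub, sub_eq_zero, hB, map_sum]
  refine Finset.sum_congr rfl fun k _ => ?_
  rw [map_pow, map_sum]
  congr 1
  refine Finset.sum_congr rfl fun i _ => ?_
  rw [← ha i]
  rfl

end Pool.Agent.Helper10.GN
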