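import Pool.Agent.Helper10.GN.Plc

set_option autoImplicit false

/-!
# Project GN, block DEG: degrees and poles

`exists_Dinf`: `D P = max (0, - ord_P (π X 0), - ord_P (π X 1))` for the finitely many infinite places (`finite_inf`),
`0` at the finite places; a monomial of degree `≤ d` has order `≥ - d D P`; `oge_sum`.
`deg_bound`: the complex space of all `f ∈ L D` in the range of `π` is finite-dimensional (`FF.finite_rr`), choose a basis
`π h_j`, `l = max totalDegree h_j`; so `f = π h` with `totalDegree h ≤ l`; for real `f` replace `h` by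
`(h + cjp h)/2 = cx a` (`cjp_eq_iff`, `totalDegree_cx`; `cjp` does not increase the total degree).
`exists_count`: the number of zeros: for `f : A`, `¬ p ∣ f`, `totalDegree f ≤ d`, and every finite set `Z` of finite places
`∑ P ∈ Z, ord_P (π (cx f)) ≤ d * K`, and at every infinite place `ord_P ≤ d * K` (`K = deg D`; `FF.deg_dv`).
-/

namespace Pool.Agent.Helper10.GN

open VC FF MvPolynomial Pool.Agent.Helper68.QM

variable {F : Type} [Field F] [Algebra ℂ F] {s : RStr F} (hF : IsFunctionField ℂ F)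
variable {p : A} {π : CP →ₐ[ℂ] F}

include hF in
private theorem pi_mem_L61 {D : Place ℂ F →₀ ℤ} (hD0 : ∀ P, 0 ≤ D P)
    (hX : ∀ P, ∀ i, Oge P (- D P) (π (X i))) {d : ℕ} {h : CP} (hd : h.totalDegree ≤ d) :
    π h ∈ L ((d : ℤ) • D) := by
  rw [mem_L hF]
  intro P
  rw [Finsupp.smul_apply, smul_eq_mul]
  have e1 : π h = ∑ m ∈ h.support, π (monomial m (coeff m h)) := by
    conv_lhs => rw [h.as_sum]
    rw [map_sum]
  rw [e1]
  refine oge_sum hF _ _ fun m hm => ?_
  have h1 : m.sum (fun _ e => e) ≤ d := (le_totalDegree hm).trans hd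
  have h2 : m 0 + m 1 ≤ d := by
    have h3 : m.sum (fun _ e => e) = m 0 + m 1 := by
      rw [Finsupp.sum_fintype _ _ (fun _ => rfl), Fin.sum_univ_two]
    omega
  have e2 : π (monomial m (coeff m h)) =
      algebraMap ℂ F (coeff m h) * (π (X 0) ^ m 0 * π (X 1) ^ m 1) := by
    rw [monomial_eq, map_mul, Finsupp.prod_fintype _ _ (fun _ => pow_zero _), Fin.prod_univ_two,
      map_mul, map_pow, map_pow]
    congr 1
    exact π.commutes _
  rw [e2]
  have h4 := oge_mul hF (oge_alg hF (P := P) (coeff m h))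
    (oge_mul hF (oge_pow hF (hX P 0) (m 0)) (oge_pow hF (hX P 1) (m 1)))
  refine h4.mono ?_
  have h5 : ((m 0 : ℤ) + m 1) * D P ≤ d * D P :=
    mul_le_mul_of_nonneg_right (by exact_mod_cast h2) (hD0 P)
  linarith

include hF in
theorem exists_Dinf (hc : IsCrv p s π) : ∃ D : Place ℂ F →₀ ℤ, (∀ P, 0 ≤ D P) ∧
    (∀ P, FinP π P → D P = 0) ∧
    ∀ (d : ℕ) (h : CP), h.totalDegree ≤ d → π h ∈ L ((d : ℤ) • D) := by
  classical
  let S : Finset (Place ℂ F) := (finite_inf hF hc).toFinset
  have hS : ∀ P, P ∈ S ↔ ¬ FinP π P := fun P => by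
    rw [Set.Finite.mem_toFinset]
    exact Iff.rfl
  let D : Place ℂ F →₀ ℤ := Finsupp.onFinset S (fun P => if FinP π P then 0 else
    ((ord P.ring (π (X 0))).natAbs + (ord P.ring (π (X 1))).natAbs : ℤ)) (fun P hP => by
      rw [hS]
      intro h
      exact hP (if_pos h))
  have hD : ∀ P, D P = if FinP π P then 0 else
    ((ord P.ring (π (X 0))).natAbs + (ord P.ring (π (X 1))).natAbs : ℤ) := fun P => rfl
  have hD0 : ∀ P, 0 ≤ D P := by
    intro P
    rw [hD]
    split_ifs
    · exact le_refl _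
    · omega
  refine ⟨D, hD0, fun P hP => by rw [hD, if_pos hP], fun d h hd => ?_⟩
  refine pi_mem_L61 hF hD0 (fun P i => ?_) hd
  by_cases hP : FinP π P
  · rw [hD, if_pos hP, neg_zero, oge_zero_iff hF]
    exact hP i
  · rw [hD, if_neg hP]
    refine Or.inr ?_
    fin_cases i
    · change - (((ord P.ring (π (X 0))).natAbs : ℤ) + (ord P.ring (π (X 1))).natAbs) ≤
        ord P.ring (π (X 0))
      omega
    · change - (((ord P.ring (π (X 0))).natAbs : ℤ) + (ord P.ring (π (X 1))).natAbs) ≤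
        ord P.ring (π (X 1))
      omega

private theorem totalDegree_cjp_le61 (h : CP) : (cjp h).totalDegree ≤ h.totalDegree := by
  unfold cjp
  exact totalDegree_le_of_support_subset (support_map_subset _ _)

include hF in
theorem deg_bound (hc : IsCrv p s π) (D : Place ℂ F →₀ ℤ) : ∃ l : ℕ, ∀ f ∈ L D, s.σ f = f →
    (∃ h : CP, f = π h) → ∃ a : A, a.totalDegree ≤ l ∧ f = π (cx a) := by
  classical
  have hfd : FiniteDimensional ℂ (L D) := FF.finite_rr hF D
  let W : Submodule ℂ F := L D ⊓ LinearMap.range π.toLinearMap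
  have hWfd : FiniteDimensional ℂ W := Submodule.finiteDimensional_of_le inf_le_left
  obtain ⟨t, ht⟩ := (Submodule.fg_iff_finiteDimensional W).2 hWfd
  have hex : ∀ x : F, ∃ h : CP, x ∈ t → π h = x := by
    intro x
    by_cases hx : x ∈ t
    · have h1 : x ∈ W := by
        rw [← ht]
        exact Submodule.subset_span hx
      obtain ⟨h, hh⟩ := h1.2
      exact ⟨h, fun _ => hh⟩
    · exact ⟨0, fun h => absurd h hx⟩
  choose g hg using hex
  let l : ℕ := t.sup fun x => (g x).totalDegree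
  have hW : W ≤ (restrictTotalDegree (Fin 2) ℂ l).map π.toLinearMap := by
    rw [← ht, Submodule.span_le]
    intro x hx
    refine ⟨g x, ?_, hg x hx⟩
    rw [SetLike.mem_coe, mem_restrictTotalDegree]
    exact Finset.le_sup (f := fun x => (g x).totalDegree) hx
  refine ⟨l, fun f hf hσ hh => ?_⟩
  obtain ⟨h0, rfl⟩ := hh
  obtain ⟨h, hl, hh⟩ := hW ⟨hf, ⟨h0, rfl⟩⟩
  rw [SetLike.mem_coe, mem_restrictTotalDegree] at hl
  have hh' : π h = π h0 := hh
  obtain ⟨a, ha⟩ := (cjp_eq_iff (C (1 / 2) * (h + cjp h))).1 (by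
    rw [map_mul, map_add, cjp_cjp, cjp_C, add_comm (cjp h) h]
    congr 2
    rw [map_div₀, map_one, map_ofNat])
  refine ⟨a, ?_, ?_⟩
  · rw [← totalDegree_cx, ← ha]
    refine (totalDegree_mul _ _).trans ?_
    rw [totalDegree_C, zero_add]
    refine (totalDegree_add _ _).trans (max_le hl ((totalDegree_cjp_le61 h).trans hl))
  · rw [← ha, map_mul, map_add, ← hc.conj, hh', hσ]
    have e : π (C (1 / 2)) = 1 / 2 := by
      rw [IsCrv.pi_C, map_div₀, map_one, map_ofNat]
    have : CharZero F := charZero_of_injective_algebraMap (algebraMap ℂ F).injective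
    rw [e]
    ring

private theorem sum_le_deg61 {E : Place ℂ F →₀ ℤ} (hE : ∀ P, 0 ≤ E P) (Z : Finset (Place ℂ F)) :
    ∑ P ∈ Z, E P ≤ deg E := by
  classical
  rw [deg_eq, Finsupp.sum_of_support_subset E (Finset.subset_union_right (s₁ := Z)) _
    (fun _ _ => rfl)]
  exact Finset.sum_le_sum_of_subset_of_nonneg Finset.subset_union_left fun P _ _ => hE P

include hF in
theorem exists_count (hc : IsCrv p s π) : ∃ K : ℕ, ∀ (d : ℕ) (f : A), f.totalDegree ≤ d →
    ¬ p ∣ f → (∀ Z : Finset (Place ℂ F), (∀ P ∈ Z, FinP π P) →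
      ∑ P ∈ Z, ord P.ring (π (cx f)) ≤ d * K) ∧
    ∀ P : Place ℂ F, ¬ FinP π P → ord P.ring (π (cx f)) ≤ d * K := by
  obtain ⟨D, hD0, -, hD⟩ := exists_Dinf hF hc
  refine ⟨(deg D).toNat, fun d f hd hpf => ?_⟩
  have hK : (((deg D).toNat : ℕ) : ℤ) = deg D := Int.toNat_of_nonneg (deg_nonneg hD0)
  have hf0 : π (cx f) ≠ 0 := fun h => hpf ((hc.eq_zero_iff f).1 h)
  have h1 := hD d (cx f) (by rw [totalDegree_cx]; exact hd)
  rw [mem_rr hF _ hf0] at h1
  let E : Place ℂ F →₀ ℤ := dv hF (π (cx f)) + (d : ℤ) • D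
  have hE : ∀ P, E P = ord P.ring (π (cx f)) + d * D P := fun P => by
    rw [Finsupp.add_apply, dv_apply, Finsupp.smul_apply, smul_eq_mul]
  have hE0 : ∀ P, 0 ≤ E P := by
    intro P
    have h2 := h1 P
    rw [Finsupp.smul_apply, smul_eq_mul] at h2
    rw [hE]
    exact h2
  have hdeg : deg E = d * deg D := by
    rw [map_add, deg_dv hF hf0, map_zsmul, zero_add, smul_eq_mul]
  have key : ∀ Z : Finset (Place ℂ F), ∑ P ∈ Z, ord P.ring (π (cx f)) ≤ d * deg D := by
    intro Z
    rw [← hdeg]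
    refine le_trans (Finset.sum_le_sum fun P _ => ?_) (sum_le_deg61 hE0 Z)
    rw [hE]
    have := mul_nonneg (Int.natCast_nonneg d) (hD0 P)
    linarith
  rw [hK]
  refine ⟨fun Z _ => key Z, fun P _ => ?_⟩
  have h3 := key {P}
  rwa [Finset.sum_singleton] at h3

end Pool.Agent.Helper10.GN
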