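import Pool.Agent.Helper10.GN.Sup

set_option autoImplicit false

/-!
# Project GN, block HALF: halves of `S`, splitting of `L (2 m S)`

`exists_half`: choose one place of every pair `{P, s.cj P}`, `P ∈ S` (no fixed points, `s.cj` is an
involution): strong induction on `S.card`, remove a pair. `T ⊆ S`, and for `P ∈ S` exactly one of `P`,
`s.cj P` lies in `T`.
`half_split`: with `T' = T.image s.cj` we have `S = T ∪ T'` (disjoint), `t = T.card ≥ 1`. Let `c` be the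
constant of `sup_L` and `m₀ ≥ c`, `m₀ ≥ 1`. For `m ≥ m₀`: the divisors `D₁ = 2m T` and
`D₂ = m T + 2m T'` have `D₁ ⊔ D₂ = 2m S` and `D₁ ⊓ D₂ = m T` of degree `m t ≥ c`, so
`L (2mS) = L (2m T) + L (m T + 2m T')`; and `D₃ = 2m T'`, `D₄ = m T + m T' = m S` have
`D₃ ⊔ D₄ = m T + 2m T'` and `D₃ ⊓ D₄ = m T'`, so `L (m T + 2m T') = L (2m T') + L (m S)`. Finally
`L (2m T') = σ (L (2m T))` (`mem_L_cjD`, `cjD` of `dS T (2m)` is `dS T' (2m)`).
-/

namespace Pool.Agent.Helper10.GN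

open VC FF

variable {F : Type} [Field F] [Algebra ℂ F] (s : RStr F) (hF : IsFunctionField ℂ F)

theorem exists_half {S : Finset (Place ℂ F)} (hS : SData s S) :
    ∃ T : Finset (Place ℂ F), T.Nonempty ∧ T ⊆ S ∧ (∀ P ∈ S, P ∈ T ∨ s.cj P ∈ T) ∧
      ∀ P ∈ T, s.cj P ∉ T := by
  classical
  let r : Place ℂ F → Place ℂ F → Prop := WellOrderingRel
  have htri : ∀ P Q : Place ℂ F, P ≠ Q → r P Q ∨ r Q P := by
    intro P Q h
    rcases trichotomous_of r P Q with h1 | h1 | h1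
    · exact Or.inl h1
    · exact absurd h1 h
    · exact Or.inr h1
  have hasym : ∀ P Q : Place ℂ F, r P Q → ¬ r Q P := fun P Q h h' => asymm_of r h h'
  have hT : ∀ P ∈ S, P ∈ S.filter (fun P => r P (s.cj P)) ∨
      s.cj P ∈ S.filter (fun P => r P (s.cj P)) := by
    intro P hP
    rcases htri P (s.cj P) (hS.cj_ne P hP).symm with h | h
    · exact Or.inl (Finset.mem_filter.2 ⟨hP, h⟩)
    · refine Or.inr (Finset.mem_filter.2 ⟨hS.cj_mem P hP, ?_⟩)
      rw [cj_cj]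
      exact h
  refine ⟨S.filter (fun P => r P (s.cj P)), ?_, Finset.filter_subset _ _, hT, ?_⟩
  · obtain ⟨P, hP⟩ := hS.ne
    rcases hT P hP with h | h
    · exact ⟨_, h⟩
    · exact ⟨_, h⟩
  · intro P hP h
    have h1 := (Finset.mem_filter.1 hP).2
    have h2 := (Finset.mem_filter.1 h).2
    rw [cj_cj] at h2
    exact hasym _ _ h1 h2

include hF in
theorem half_split {S T : Finset (Place ℂ F)} (hT : T.Nonempty) (hTS : T ⊆ S)
    (hor : ∀ P ∈ S, P ∈ T ∨ s.cj P ∈ T) (hnot : ∀ P ∈ T, s.cj P ∉ T)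
    (hcj : ∀ P ∈ S, s.cj P ∈ S) :
    ∃ m₀ : ℕ, ∀ m : ℕ, m₀ ≤ m → ∀ b ∈ L (dS S (2 * m)), ∃ u v c : F,
      u ∈ L (dS T (2 * m)) ∧ v ∈ L (dS T (2 * m)) ∧ c ∈ L (dS S m) ∧ b = u + s.σ v + c := by
  classical
  obtain ⟨c₀, hc₀⟩ := sup_L hF
  refine ⟨c₀.toNat, fun m hm b hb => ?_⟩
  have hcm : c₀ ≤ (m : ℤ) := by omega
  have hm0 : (0 : ℤ) ≤ (m : ℤ) := Int.natCast_nonneg m
  set T' : Finset (Place ℂ F) := T.image s.cj with hT'
  have hmem' : ∀ P, P ∈ T' ↔ s.cj P ∈ T := by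
    intro P
    rw [hT', Finset.mem_image]
    constructor
    · rintro ⟨Q, hQ, rfl⟩
      rw [cj_cj]
      exact hQ
    · intro h
      exact ⟨s.cj P, h, cj_cj s P⟩
  have hcases : ∀ P, (P ∈ T ∧ P ∉ T' ∧ P ∈ S) ∨ (P ∉ T ∧ P ∈ T' ∧ P ∈ S) ∨
      (P ∉ T ∧ P ∉ T' ∧ P ∉ S) := by
    intro P
    by_cases h1 : P ∈ T
    · exact Or.inl ⟨h1, fun h2 => hnot P h1 ((hmem' P).1 h2), hTS h1⟩
    · by_cases h2 : P ∈ T'
      · refine Or.inr (Or.inl ⟨h1, h2, ?_⟩)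
        have h3 := hcj _ (hTS ((hmem' P).1 h2))
        rwa [cj_cj] at h3
      · refine Or.inr (Or.inr ⟨h1, h2, fun h3 => ?_⟩)
        rcases hor P h3 with h4 | h4
        · exact h1 h4
        · exact h2 ((hmem' P).2 h4)
  have hcard : T'.card = T.card := Finset.card_image_of_injective _ (cj_inj s)
  have hT1 : (1 : ℤ) ≤ (T.card : ℤ) := by exact_mod_cast Finset.card_pos.2 hT
  have hTm : c₀ ≤ (T.card : ℤ) * (m : ℤ) := by nlinarith
  have e1 : dS T (2 * m) ⊔ (dS T m + dS T' (2 * m)) = dS S (2 * m) := by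
    ext P
    rw [Finsupp.sup_apply, Finsupp.add_apply]
    rcases hcases P with ⟨h1, h2, h3⟩ | ⟨h1, h2, h3⟩ | ⟨h1, h2, h3⟩
    · rw [dS_mem _ h1, dS_mem _ h1, dS_notMem _ h2, dS_mem _ h3]
      exact max_eq_left (by linarith)
    · rw [dS_notMem _ h1, dS_notMem _ h1, dS_mem _ h2, dS_mem _ h3]
      rw [zero_add]
      exact max_eq_right (by linarith)
    · rw [dS_notMem _ h1, dS_notMem _ h1, dS_notMem _ h2, dS_notMem _ h3]
      simp
  have e2 : dS T (2 * m) ⊓ (dS T m + dS T' (2 * m)) = dS T m := by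
    ext P
    rw [Finsupp.inf_apply, Finsupp.add_apply]
    rcases hcases P with ⟨h1, h2, h3⟩ | ⟨h1, h2, h3⟩ | ⟨h1, h2, h3⟩
    · rw [dS_mem _ h1, dS_mem _ h1, dS_notMem _ h2, add_zero]
      exact min_eq_right (by linarith)
    · rw [dS_notMem _ h1, dS_notMem _ h1, dS_mem _ h2, zero_add]
      exact min_eq_left (by linarith)
    · rw [dS_notMem _ h1, dS_notMem _ h1, dS_notMem _ h2]
      simp
  have e3 : dS T' (2 * m) ⊔ dS S m = dS T m + dS T' (2 * m) := by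
    ext P
    rw [Finsupp.sup_apply, Finsupp.add_apply]
    rcases hcases P with ⟨h1, h2, h3⟩ | ⟨h1, h2, h3⟩ | ⟨h1, h2, h3⟩
    · rw [dS_mem _ h1, dS_notMem _ h2, dS_mem _ h3, add_zero]
      exact max_eq_right (by linarith)
    · rw [dS_notMem _ h1, dS_mem _ h2, dS_mem _ h3, zero_add]
      exact max_eq_left (by linarith)
    · rw [dS_notMem _ h1, dS_notMem _ h2, dS_notMem _ h3]
      simp
  have e4 : dS T' (2 * m) ⊓ dS S m = dS T' m := by
    ext P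
    rw [Finsupp.inf_apply]
    rcases hcases P with ⟨h1, h2, h3⟩ | ⟨h1, h2, h3⟩ | ⟨h1, h2, h3⟩
    · rw [dS_notMem _ h2, dS_notMem _ h2, dS_mem _ h3]
      exact min_eq_left (by linarith)
    · rw [dS_mem _ h2, dS_mem _ h2, dS_mem _ h3]
      exact min_eq_right (by linarith)
    · rw [dS_notMem _ h2, dS_notMem _ h2, dS_notMem _ h3]
      simp
  have e5 : cjD s (dS T' (2 * m)) = dS T (2 * m) := by
    ext P
    rw [cjD_apply]
    by_cases h : P ∈ T
    · rw [dS_mem _ h, dS_mem]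
      rw [hmem', cj_cj]
      exact h
    · rw [dS_notMem _ h, dS_notMem]
      rw [hmem', cj_cj]
      exact h
  rw [← e1, hc₀ _ _ (by rw [e2, deg_dS]; exact hTm)] at hb
  obtain ⟨u, hu, w, hw, huw⟩ := Submodule.mem_sup.1 hb
  rw [← e3, hc₀ _ _ (by rw [e4, deg_dS, hcard]; exact hTm)] at hw
  obtain ⟨v', hv', c, hc, hvc⟩ := Submodule.mem_sup.1 hw
  refine ⟨u, s.σ v', c, hu, ?_, hc, ?_⟩
  · rw [← e5, mem_L_cjD s hF]
    exact hv'
  · rw [s.inv, ← huw, ← hvc]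
    ring

end Pool.Agent.Helper10.GN
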