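import Mathlib

set_option autoImplicit false

/-!
# Project GN, block SEP (Mathlib only): interior points of a convex cone

`cone_interior`: `V` finite-dimensional real vector space, `C` a set closed under addition and under
multiplication by nonnegative reals (so a convex cone, `0 ∈ C`), `e ∈ C`, and every linear functional
`Λ` which is `≥ 0` on `C` and `0` at `e` vanishes identically. Then for every `b` some `e + ε b`,
`ε > 0`, lies in `C`.

Proof. Transfer to `EuclideanSpace ℝ (Fin n)` (or `Fin n → ℝ`) by a basis. If `e` is in the interior of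
`C` we are done (`e + ε b → e`). Otherwise separate: `interior C` is convex and open; if it is nonempty,
`e ∉ interior C` gives (`geometric_hahn_banach_open_point`) a continuous functional `Λ'` with
`Λ' x < Λ' e` for `x ∈ interior C`, hence `Λ' x ≤ Λ' e` for all `x ∈ closure (interior C) ⊇ C`
(`Convex.closure_interior_eq_closure_of_nonempty_interior` or so); as `C` is a cone, `Λ' ≤ 0` on `C` and
with `0 ∈ C`, `2 e ∈ C`: `Λ' e = 0`; `Λ = - Λ'` contradicts the hypothesis (`Λ' ≠ 0` because of the
strict inequality). If the interior is empty, `C` lies in a proper subspace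
(`Convex.interior_nonempty_iff_affineSpan_eq_top`; `0 ∈ C`, so the affine span is the linear span), and
a nonzero functional vanishing on this subspace contradicts the hypothesis.

Alternatively avoid topology: induct on the dimension.
-/

namespace Pool.Agent.Helper10.GN

theorem cone_interior {V : Type*} [AddCommGroup V] [Module ℝ V] [FiniteDimensional ℝ V]
    (C : Set V) (hadd : ∀ x ∈ C, ∀ y ∈ C, x + y ∈ C) (hsmul : ∀ r : ℝ, 0 ≤ r → ∀ x ∈ C, r • x ∈ C)
    (e : V) (he : e ∈ C)
    (h : ∀ Λ : V →ₗ[ℝ] ℝ, (∀ x ∈ C, 0 ≤ Λ x) → Λ e = 0 → Λ = 0) (b : V) :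
    ∃ ε : ℝ, 0 < ε ∧ e + ε • b ∈ C := by
  classical
  let φ : V ≃ₗ[ℝ] (Fin (Module.finrank ℝ V) → ℝ) := (Module.finBasis ℝ V).equivFun
  have hmem : ∀ x, φ x ∈ φ '' C ↔ x ∈ C := fun x => φ.injective.mem_set_image
  have h0 : (0 : V) ∈ C := by
    have := hsmul 0 le_rfl e he
    rwa [zero_smul] at this
  have hconv : Convex ℝ (φ '' C) := by
    rintro _ ⟨x, hx, rfl⟩ _ ⟨y, hy, rfl⟩ a b ha hb _
    exact ⟨a • x + b • y, hadd _ (hsmul a ha x hx) _ (hsmul b hb y hy), by
      rw [map_add, map_smul, map_smul]⟩
  by_cases hint : φ e ∈ interior (φ '' C)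
  · have hc : Continuous fun ε : ℝ => φ e + ε • φ b := by fun_prop
    have h1 : (fun ε : ℝ => φ e + ε • φ b) ⁻¹' interior (φ '' C) ∈ nhds (0 : ℝ) :=
      (isOpen_interior.preimage hc).mem_nhds (by
        rw [Set.mem_preimage, zero_smul, add_zero]
        exact hint)
    obtain ⟨δ, hδ, hball⟩ := Metric.mem_nhds_iff.1 h1
    refine ⟨δ / 2, by positivity, ?_⟩
    have h2 := hball (show δ / 2 ∈ Metric.ball (0 : ℝ) δ by
      rw [Metric.mem_ball, Real.dist_0_eq_abs, abs_of_pos (by positivity)]
      linarith)
    have h3 : φ e + (δ / 2) • φ b ∈ φ '' C := interior_subset h2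
    rw [← hmem, map_add, map_smul]
    exact h3
  · exfalso
    by_cases hne : (interior (φ '' C)).Nonempty
    · obtain ⟨f, hf⟩ := geometric_hahn_banach_open_point hconv.interior isOpen_interior hint
      have hcl : ∀ x ∈ φ '' C, f x ≤ f (φ e) := by
        intro x hx
        have h1 : x ∈ closure (interior (φ '' C)) := by
          rw [hconv.closure_interior_eq_closure_of_nonempty_interior hne]
          exact subset_closure hx
        have h2 : closure (interior (φ '' C)) ⊆ {y | f y ≤ f (φ e)} :=
          closure_minimal (fun y hy => (hf y hy).le) (isClosed_le f.continuous continuous_const)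
        exact h2 h1
      have h2 : f (φ e) = 0 := by
        have h3 := hcl _ ((hmem 0).2 h0)
        have h4 := hcl _ ((hmem _).2 (hsmul 2 zero_le_two e he))
        rw [map_zero, map_zero] at h3
        rw [map_smul, map_smul, smul_eq_mul] at h4
        linarith
      have h5 : -(f.toLinearMap.comp φ.toLinearMap) = 0 := by
        refine h _ (fun x hx => ?_) ?_
        · have h6 := hcl _ ((hmem x).2 hx)
          rw [h2] at h6
          show 0 ≤ -(f (φ x))
          linarith
        · show -(f (φ e)) = 0
          rw [h2, neg_zero]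
      obtain ⟨a, ha⟩ := hne
      have h7 := hf a ha
      have h8 : -(f (φ (φ.symm a))) = 0 := LinearMap.congr_fun h5 (φ.symm a)
      rw [LinearEquiv.apply_symm_apply] at h8
      rw [h2] at h7
      linarith
    · -- the cone spans a proper subspace
      have hspan : Submodule.span ℝ C < ⊤ := by
        rw [lt_top_iff_ne_top]
        intro htop
        apply hne
        rw [hconv.interior_nonempty_iff_affineSpan_eq_top,
          AffineSubspace.affineSpan_eq_top_iff_vectorSpan_eq_top_of_nonempty ℝ _ _
            ⟨φ e, (hmem e).2 he⟩, eq_top_iff]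
        intro y _
        have h1 : φ.symm y ∈ Submodule.span ℝ C := by
          rw [htop]
          trivial
        have h2 : Submodule.span ℝ C ≤
            (vectorSpan ℝ (φ '' C)).comap (φ : V →ₗ[ℝ] (Fin (Module.finrank ℝ V) → ℝ)) := by
          rw [Submodule.span_le]
          intro x hx
          have h3 := vsub_mem_vectorSpan ℝ ((hmem x).2 hx) ((hmem 0).2 h0)
          rw [map_zero, vsub_eq_sub, sub_zero] at h3
          exact h3
        have h4 := h2 h1
        rw [Submodule.mem_comap] at h4
        have h5 : (φ : V →ₗ[ℝ] (Fin (Module.finrank ℝ V) → ℝ)) (φ.symm y) = y :=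
          φ.apply_symm_apply y
        rwa [h5] at h4
      obtain ⟨f, hf0, hf⟩ := Submodule.exists_le_ker_of_lt_top _ hspan
      apply hf0
      have h6 : ∀ x ∈ C, f x = 0 := fun x hx => hf (Submodule.subset_span hx)
      exact h f (fun x hx => (h6 x hx).ge) (h6 e he)

end Pool.Agent.Helper10.GN
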