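import Pool.Agent.Helper10.GN.SosB
import Pool.Agent.Helper10.GN.Sep
import Pool.Agent.Helper10.GN.Half

set_option autoImplicit false

/-!
# Project GN, block INTER: the constant `1` is an interior point

For every `m` there is an `m'` such that for all real `b ∈ L (m S)` some `1 + ε b`, `ε > 0`, is a sum of
products `v σ v` with `v ∈ L (m' S)`.

Proof. Let `T`, `m₀` be from `exists_half`, `half_split`; it suffices to treat
`b ∈ L (2 n S)` real where `n ≥ max m m₀` (`L_mono`), and `m' = 2 n`. Let `V` be the real vector space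
`{b ∈ L (2nS) : σ b = b}` (finite-dimensional: `FF.finite_rr`, `Module.Finite.trans`/`restrictScalars ℝ`, a
subspace), `C ⊆ V` the set of all `b ∈ V` which are finite sums `∑ w_i σ w_i + ∑ c_j σ c_j` with
`w_i ∈ L (2n T)`, `c_j ∈ L (n S)`
(these products do lie in `V`: `w ∈ L (2nT)`, `σ w ∈ L (2n T')`, `L_mul`, `T, T'` disjoint; and
`dS_add`), and `e = 1`. Apply `cone_interior`. Let `Λ ≥ 0` on `C`, `Λ 1 = 0`.
For `w ∈ L (2nT)` and real `t`: `0 ≤ Λ ((1 + t w) σ (1 + t w)) = t Λ (w + σ w) + t² Λ (w σ w)`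
for all `t` (`1 + t w ∈ L (2nT)`), so `Λ (w + σ w) = 0`. In the same way `Λ (2 c) = 0` for
real `c ∈ L (nS)` (`(1 + t c)²`). By `half_split` a real `b ∈ L (2nS)` is `b = u + σ v + c`; taking the mean
with the conjugate: `b = (u + σ u)/2 + (v + σ v)/2 + (c + σ c)/2`, so `Λ b = 0`. Every element of `C` is
`HS s (dS S (2n))`: `L (2nT) ≤ L (2nS)`, `L (nS) ≤ L (2nS)` (`L_mono`).
-/

namespace Pool.Agent.Helper10.GN

open VC FF

variable {F : Type} [Field F] [Algebra ℂ F] {s : RStr F} (hF : IsFunctionField ℂ F)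
include hF

omit hF in
private theorem quad56 {a b : ℝ} (h : ∀ t : ℝ, 0 ≤ t * a + t ^ 2 * b) : a = 0 := by
  have h1 : discrim b a 0 ≤ 0 := discrim_le_zero fun x => by
    have h2 := h x
    linarith
  unfold discrim at h1
  have h3 : a ^ 2 ≤ 0 := by linarith
  exact pow_eq_zero_iff two_ne_zero |>.1 (le_antisymm h3 (sq_nonneg a))

private theorem one_mem56 (U : Finset (Place ℂ F)) {k : ℤ} (hk : 0 ≤ k) : (1 : F) ∈ L (dS U k) := by
  rw [mem_L_dS_iff hF]
  refine ⟨fun P _ => Or.inr ?_, fun P _ => one_mem P.ring⟩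
  rw [FF.ord_one hF P]
  omega

theorem inter {S : Finset (Place ℂ F)} (hS : SData s S) (m : ℕ) :
    ∃ m' : ℕ, ∀ b : F, s.σ b = b → b ∈ L (dS S m) →
      ∃ ε : ℝ, 0 < ε ∧ HS s (dS S m') (1 + (ε : ℂ) • b) := by
  classical
  obtain ⟨T, hTne, hTS, hor, hnot⟩ := exists_half s hS
  obtain ⟨m₀, hm₀⟩ := half_split s hF hTne hTS hor hnot hS.cj_mem
  obtain ⟨n, hnm, hnm₀⟩ : ∃ n : ℕ, m ≤ n ∧ m₀ ≤ n := ⟨max m m₀, le_max_left _ _, le_max_right _ _⟩
  have hn0 : (0 : ℤ) ≤ n := Int.natCast_nonneg n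
  have hσR : ∀ r : ℝ, s.σ (algebraMap ℂ F (r : ℂ)) = algebraMap ℂ F (r : ℂ) := by
    intro r
    rw [s.alg, Complex.conj_ofReal]
  have hTle : ∀ P, dS T (2 * (n : ℤ)) P ≤ dS S (2 * (n : ℤ)) P := by
    intro P
    by_cases hP : P ∈ T
    · rw [dS_mem _ hP, dS_mem _ (hTS hP)]
    · rw [dS_notMem _ hP]
      by_cases hP' : P ∈ S
      · rw [dS_mem _ hP']
        omega
      · rw [dS_notMem _ hP']
  have hSle : ∀ P, dS S (n : ℤ) P ≤ dS S (2 * (n : ℤ)) P := by
    intro P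
    by_cases hP : P ∈ S
    · rw [dS_mem _ hP, dS_mem _ hP]
      omega
    · rw [dS_notMem _ hP, dS_notMem _ hP]
  have hTcj : ∀ P, (dS T (2 * (n : ℤ)) + cjD s (dS T (2 * (n : ℤ)))) P ≤ dS S (2 * (n : ℤ)) P := by
    intro P
    rw [Finsupp.add_apply, cjD_apply]
    by_cases hP : P ∈ T
    · rw [dS_mem _ hP, dS_notMem _ (hnot P hP), dS_mem _ (hTS hP)]
      omega
    · rw [dS_notMem _ hP]
      by_cases hP' : s.cj P ∈ T
      · have h1 : P ∈ S := by
          have h2 := hS.cj_mem _ (hTS hP')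
          rwa [cj_cj] at h2
        rw [dS_mem _ hP', dS_mem _ h1]
        omega
      · rw [dS_notMem _ hP']
        by_cases h1 : P ∈ S
        · rw [dS_mem _ h1]
          omega
        · rw [dS_notMem _ h1]
          omega
  -- products
  have hqT : ∀ v ∈ L (dS T (2 * (n : ℤ))), v * s.σ v ∈ L (dS S (2 * (n : ℤ))) := by
    intro v hv
    exact L_mono hF hTcj (L_mul hF hv ((mem_L_cjD s hF).2 hv))
  have hqS : ∀ v ∈ L (dS S (n : ℤ)), v * s.σ v ∈ L (dS S (2 * (n : ℤ))) := by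
    intro v hv
    have h1 := L_mul hF hv (sigma_mem_L_dS s hF hS hv)
    rw [← dS_add] at h1
    rwa [two_mul]
  have haT : ∀ v ∈ L (dS T (2 * (n : ℤ))), v + s.σ v ∈ L (dS S (2 * (n : ℤ))) := by
    intro v hv
    have h1 := L_mono hF hTle hv
    exact Submodule.add_mem _ h1 (sigma_mem_L_dS s hF hS h1)
  have haS : ∀ v ∈ L (dS S (n : ℤ)), v + s.σ v ∈ L (dS S (2 * (n : ℤ))) := by
    intro v hv
    have h1 := L_mono hF hSle hv
    exact Submodule.add_mem _ h1 (sigma_mem_L_dS s hF hS h1)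
  -- the real vector space
  let V : Submodule ℝ F :=
    { carrier := {b | s.σ b = b ∧ b ∈ L (dS S (2 * (n : ℤ)))}
      add_mem' := fun ha hb => ⟨by rw [map_add, ha.1, hb.1], Submodule.add_mem _ ha.2 hb.2⟩
      zero_mem' := ⟨map_zero _, Submodule.zero_mem _⟩
      smul_mem' := fun r x hx => by
        have h1 : r • x = algebraMap ℂ F (r : ℂ) * x := Algebra.smul_def r x
        rw [h1]
        refine ⟨by rw [map_mul, hσR, hx.1], ?_⟩
        rw [← Algebra.smul_def]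
        exact Submodule.smul_mem _ _ hx.2 }
  have hVs : ∀ (r : ℝ) (x : V), ((r • x : V) : F) = algebraMap ℂ F (r : ℂ) * x := fun r x =>
    Algebra.smul_def r (x : F)
  have hfinV : FiniteDimensional ℝ V := by
    have h1 : Module.Finite ℂ (L (dS S (2 * (n : ℤ)))) := FF.finite_rr hF _
    have h2 : Module.Finite ℝ (L (dS S (2 * (n : ℤ)))) := Module.Finite.trans ℂ _
    let ι : V →ₗ[ℝ] L (dS S (2 * (n : ℤ))) :=
      { toFun := fun x => ⟨x.1, x.2.2⟩
        map_add' := fun x y => rfl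
        map_smul' := fun r x => rfl }
    refine Module.Finite.of_injective ι fun x y h => ?_
    have h3 : (ι x).1 = (ι y).1 := by rw [h]
    exact Subtype.ext h3
  let C : Set V := {x | ∃ f g : F, HS s (dS T (2 * (n : ℤ))) f ∧ HS s (dS S (n : ℤ)) g ∧
    (x : F) = f + g}
  have hCadd : ∀ x ∈ C, ∀ y ∈ C, x + y ∈ C := by
    rintro x ⟨f, g, hf, hg, hx⟩ y ⟨f', g', hf', hg', hy⟩
    refine ⟨f + f', g + g', hf.add hf', hg.add hg', ?_⟩
    rw [Submodule.coe_add, hx, hy]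
    ring
  have hCsmul : ∀ r : ℝ, 0 ≤ r → ∀ x ∈ C, r • x ∈ C := by
    rintro r hr x ⟨f, g, hf, hg, hx⟩
    refine ⟨_, _, hf.smul hr, hg.smul hr, ?_⟩
    rw [hVs, hx, mul_add]
  have hCT : ∀ v ∈ L (dS T (2 * (n : ℤ))), ∀ x : V, (x : F) = v * s.σ v → x ∈ C := by
    intro v hv x hx
    exact ⟨_, 0, HS.mul_cj hv, HS.zero, by rw [hx, add_zero]⟩
  have hCS : ∀ v ∈ L (dS S (n : ℤ)), ∀ x : V, (x : F) = v * s.σ v → x ∈ C := by
    intro v hv x hx
    exact ⟨0, _, HS.zero, HS.mul_cj hv, by rw [hx, zero_add]⟩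
  let e : V := ⟨1, map_one _, one_mem56 hF S (by omega)⟩
  have heC : e ∈ C := hCS 1 (one_mem56 hF S hn0) e (by rw [map_one, mul_one])
  have hreal1 : ∀ v : F, s.σ (v + s.σ v) = v + s.σ v := by
    intro v
    rw [map_add, s.inv, add_comm]
  have hreal2 : ∀ v : F, s.σ (v * s.σ v) = v * s.σ v := by
    intro v
    rw [map_mul, s.inv, mul_comm]
  have hΛ : ∀ Λ : V →ₗ[ℝ] ℝ, (∀ x ∈ C, 0 ≤ Λ x) → Λ e = 0 → Λ = 0 := by
    intro Λ hpos he
    have key : ∀ v : F, ∀ x y : V, (x : F) = v + s.σ v → (y : F) = v * s.σ v →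
        (∀ t : ℝ, ∀ z : V, (z : F) = (1 + algebraMap ℂ F (t : ℂ) * v) *
          s.σ (1 + algebraMap ℂ F (t : ℂ) * v) → z ∈ C) → Λ x = 0 := by
      intro v x y hx hy hz
      refine quad56 (b := Λ y) fun t => ?_
      have h1 : (e + t • x + t ^ 2 • y : V) ∈ C := by
        refine hz t _ ?_
        rw [Submodule.coe_add, Submodule.coe_add, hVs, hVs, hx, hy, map_add, map_one, map_mul,
          hσR]
        have h2 : (((t ^ 2 : ℝ) : ℂ)) = (t : ℂ) ^ 2 := by push_cast; ring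
        rw [h2, map_pow]
        change 1 + algebraMap ℂ F (t : ℂ) * (v + s.σ v) + algebraMap ℂ F (t : ℂ) ^ 2 *
          (v * s.σ v) = _
        ring
      have h3 := hpos _ h1
      rw [map_add, map_add, map_smul, map_smul, he, zero_add] at h3
      exact h3
    have hadm : ∀ (U : Finset (Place ℂ F)) (k : ℤ), 0 ≤ k → ∀ v ∈ L (dS U k), ∀ t : ℝ,
        1 + algebraMap ℂ F (t : ℂ) * v ∈ L (dS U k) := by
      intro U k hk v hv t
      refine Submodule.add_mem _ (one_mem56 hF U hk) ?_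
      rw [← Algebra.smul_def]
      exact Submodule.smul_mem _ _ hv
    have keyT : ∀ v ∈ L (dS T (2 * (n : ℤ))), ∀ x : V, (x : F) = v + s.σ v → Λ x = 0 := by
      intro v hv x hx
      exact key v x ⟨v * s.σ v, hreal2 v, hqT v hv⟩ hx rfl fun t z hz =>
        hCT _ (hadm T _ (by omega) v hv t) z hz
    have keyS : ∀ v ∈ L (dS S (n : ℤ)), ∀ x : V, (x : F) = v + s.σ v → Λ x = 0 := by
      intro v hv x hx
      exact key v x ⟨v * s.σ v, hreal2 v, hqS v hv⟩ hx rfl fun t z hz =>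
        hCS _ (hadm S _ hn0 v hv t) z hz
    ext b
    obtain ⟨u, v, c, hu, hv, hc, hb⟩ := hm₀ n hnm₀ b b.2.2
    let x : V := ⟨u + s.σ u, hreal1 u, haT u hu⟩
    let y : V := ⟨v + s.σ v, hreal1 v, haT v hv⟩
    let z : V := ⟨c + s.σ c, hreal1 c, haS c hc⟩
    have h1 : (2 : ℝ) • b = x + y + z := by
      apply Subtype.ext
      rw [hVs, Submodule.coe_add, Submodule.coe_add]
      change algebraMap ℂ F (((2 : ℝ) : ℂ)) * (b : F) = u + s.σ u + (v + s.σ v) + (c + s.σ c)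
      have h2 : s.σ (b : F) = s.σ u + v + s.σ c := by
        rw [hb, map_add, map_add, s.inv]
      rw [b.2.1] at h2
      have h3 : algebraMap ℂ F (((2 : ℝ) : ℂ)) = 2 := by
        push_cast
        exact map_ofNat _ 2
      rw [h3]
      linear_combination hb + h2
    have h4 : (2 : ℝ) * Λ b = 0 := by
      rw [← smul_eq_mul, ← map_smul, h1, map_add, map_add, keyT u hu x rfl, keyT v hv y rfl,
        keyS c hc z rfl, add_zero, add_zero]
    change Λ b = 0
    linarith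
  refine ⟨2 * n, fun b hσ hb => ?_⟩
  have hb2 : b ∈ L (dS S (2 * (n : ℤ))) := by
    refine L_mono hF (fun P => ?_) hb
    by_cases hP : P ∈ S
    · rw [dS_mem _ hP, dS_mem _ hP]
      have : (m : ℤ) ≤ n := by exact_mod_cast hnm
      omega
    · rw [dS_notMem _ hP, dS_notMem _ hP]
  obtain ⟨ε, hε, f, g, hf, hg, hfg⟩ := cone_interior C hCadd hCsmul e heC hΛ ⟨b, hσ, hb2⟩
  refine ⟨ε, hε, ?_⟩
  have h1 : (1 : F) + (ε : ℂ) • b = f + g := by
    rw [← hfg, Submodule.coe_add, hVs, Algebra.smul_def]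
  have h2 : (((2 * n : ℕ) : ℤ)) = 2 * (n : ℤ) := by push_cast; ring
  rw [h1, h2]
  exact (hf.mono (hF := hF) hTle).add (hg.mono (hF := hF) hSle)

end Pool.Agent.Helper10.GN
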