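import Mathlib

set_option autoImplicit false

/-!
# Project GN, block KD (Mathlib only): the Archimedean Positivstellensatz

`R` a commutative `ℝ`-algebra, `T ⊆ R` an Archimedean preordering, `b ∈ R` with `φ b > 0` for all
`ℝ`-algebra homomorphisms `φ : R → ℝ` with `φ ≥ 0` on `T`. Then `b - ε ∈ T` for some `ε > 0`.

Proof. (1) If `-1 ∉ T'` for a preordering `T' ⊇ T` then there is a `φ ≥ 0` on `T'`. Zorn
(`zorn_subset_nonempty`): a maximal preordering `M ⊇ T'` with `-1 ∉ M`. For `a ∉ M` the set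
`M + a M` is a preordering (`(a)^2 ∈ M`), so it contains `-1`: `-1 = m₁ + a m₂`. If also `-a ∉ M`:
`-1 = m₃ - a m₄`. Then `(1 + m₁)(1 + m₃) = (- a m₂)(a m₄) = - a² m₂ m₄`, so
`-1 = m₁ + m₃ + m₁ m₃ + a² m₂ m₄ ∈ M`, contradiction; so `M ∪ -M = R`. For `a ∈ R` let
`φ a = sup {r : a - r ∈ M}`; the set is nonempty and bounded above by the Archimedean property
(`n - a, n + a ∈ M`, `-1 ∉ M`). Every `r < φ a` has `a - r ∈ M` and every `r > φ a` has `r - a ∈ M`
(`M ∪ -M = R`). Hence `φ` is additive, real homogeneous, `φ 1 = 1`, and `φ ≥ 0` on `M`. Multiplicative: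
if `a, a' ∈ M` and `r, r' > 0` with `a - r, a' - r' ∈ M` then
`a a' - r r' = (a - r) a' + r (a' - r') ∈ M`; similarly for upper bounds (`r - a ∈ M`, `r' - a' ∈ M`:
`r r' - a a' = (r - a) r' + a (r' - a')`); so `φ (a a') = φ a φ a'` if `a, a' ∈ M` with `φ a, φ a' ≥ 0`
(the lower estimate is trivial if one of them is `0`), and in general shift by constants: `a + n ∈ M`.
(2) Let `T' = {t - b t' : t, t' ∈ T}`, a preordering containing `T`, `-b`. By (1) and the hypothesis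
`-1 ∈ T'`: `b t' = 1 + t`, `t, t' ∈ T`.
(3) Choose a natural number `n ≥ 1` with `n - t' ∈ T`. If `r ≥ 0` and `b + r ∈ T` then
`(n - t') (b + r) + (t' b - 1) + r t' = n b + n r - 1 ∈ T`, so `b + (r - 1/n) ∈ T`. Start with `r` a
natural number with `b + r ∈ T` and iterate (downward steps of `1/n`) until the constant is negative.
-/

namespace Pool.Agent.Helper10.GN

/-- preorderings -/
private structure KDPO {R : Type*} [CommRing R] (M : Set R) : Prop where
  add : ∀ x ∈ M, ∀ y ∈ M, x + y ∈ M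
  mul : ∀ x ∈ M, ∀ y ∈ M, x * y ∈ M
  sq : ∀ x : R, x ^ 2 ∈ M

section KD

variable {R : Type*} [CommRing R] {M : Set R}

private lemma KDPO.zero (h : KDPO M) : (0 : R) ∈ M := by
  simpa using h.sq 0

private lemma KDPO.one (h : KDPO M) : (1 : R) ∈ M := by
  simpa using h.sq 1

private lemma KDPO.exists_max (h : KDPO M) (h1 : (-1 : R) ∉ M) :
    ∃ N : Set R, M ⊆ N ∧ KDPO N ∧ (-1 : R) ∉ N ∧ ∀ a, a ∈ N ∨ -a ∈ N := by
  obtain ⟨N, hMN, hN⟩ := zorn_subset_nonempty {N : Set R | KDPO N ∧ (-1 : R) ∉ N} (by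
    intro c hc hchain hne
    refine ⟨⋃₀ c, ⟨⟨?_, ?_, ?_⟩, ?_⟩, fun s hs => Set.subset_sUnion_of_mem hs⟩
    · rintro x ⟨s, hs, hx⟩ y ⟨t, ht, hy⟩
      rcases hchain.total hs ht with hst | hst
      · exact ⟨t, ht, (hc ht).1.add x (hst hx) y hy⟩
      · exact ⟨s, hs, (hc hs).1.add x hx y (hst hy)⟩
    · rintro x ⟨s, hs, hx⟩ y ⟨t, ht, hy⟩
      rcases hchain.total hs ht with hst | hst
      · exact ⟨t, ht, (hc ht).1.mul x (hst hx) y hy⟩
      · exact ⟨s, hs, (hc hs).1.mul x hx y (hst hy)⟩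
    · intro x
      obtain ⟨s, hs⟩ := hne
      exact ⟨s, hs, (hc hs).1.sq x⟩
    · rintro ⟨s, hs, hx⟩
      exact (hc hs).2 hx) M ⟨h, h1⟩
  have hP : KDPO N := hN.prop.1
  have hN1 : (-1 : R) ∉ N := hN.prop.2
  refine ⟨N, hMN, hP, hN1, ?_⟩
  have key : ∀ a, a ∉ N → ∃ m₁ ∈ N, ∃ m₂ ∈ N, (-1 : R) = m₁ + a * m₂ := by
    intro a ha
    by_contra hcon
    push Not at hcon
    let N' : Set R := {x | ∃ m₁ ∈ N, ∃ m₂ ∈ N, x = m₁ + a * m₂}
    have hsub : N ⊆ N' := fun x hx => ⟨x, hx, 0, hP.zero, by ring⟩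
    have hPO : KDPO N' := by
      refine ⟨?_, ?_, fun x => hsub (hP.sq x)⟩
      · rintro x ⟨m₁, h₁, m₂, h₂, rfl⟩ y ⟨n₁, k₁, n₂, k₂, rfl⟩
        exact ⟨m₁ + n₁, hP.add _ h₁ _ k₁, m₂ + n₂, hP.add _ h₂ _ k₂, by ring⟩
      · rintro x ⟨m₁, h₁, m₂, h₂, rfl⟩ y ⟨n₁, k₁, n₂, k₂, rfl⟩
        exact ⟨m₁ * n₁ + a ^ 2 * (m₂ * n₂), hP.add _ (hP.mul _ h₁ _ k₁) _
          (hP.mul _ (hP.sq a) _ (hP.mul _ h₂ _ k₂)), m₁ * n₂ + m₂ * n₁,
          hP.add _ (hP.mul _ h₁ _ k₂) _ (hP.mul _ h₂ _ k₁), by ring⟩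
    have hmem : N' ∈ {N : Set R | KDPO N ∧ (-1 : R) ∉ N} := by
      refine ⟨hPO, ?_⟩
      rintro ⟨m₁, h₁, m₂, h₂, e⟩
      exact hcon m₁ h₁ m₂ h₂ e
    have haN : a ∈ N' := ⟨0, hP.zero, 1, hP.one, by ring⟩
    exact ha (hN.le_of_ge hmem hsub haN)
  intro a
  by_contra hcon
  push Not at hcon
  obtain ⟨m₁, h₁, m₂, h₂, e⟩ := key a hcon.1
  obtain ⟨m₃, h₃, m₄, h₄, e'⟩ := key (-a) hcon.2
  apply hN1
  have e2 : (-1 : R) = m₁ + m₃ + m₁ * m₃ + a ^ 2 * (m₂ * m₄) := by
    have k1 : 1 + m₁ = - (a * m₂) := by linear_combination -e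
    have k2 : 1 + m₃ = a * m₄ := by linear_combination -e'
    have k3 : (1 + m₁) * (1 + m₃) = - (a * m₂) * (a * m₄) := by rw [k1, k2]
    linear_combination -k3
  rw [e2]
  exact hP.add _ (hP.add _ (hP.add _ h₁ _ h₃) _ (hP.mul _ h₁ _ h₃)) _
    (hP.mul _ (hP.sq a) _ (hP.mul _ h₂ _ h₄))

variable [Algebra ℝ R]

private lemma KDPO.real (h : KDPO M) {r : ℝ} (hr : 0 ≤ r) : algebraMap ℝ R r ∈ M := by
  have h1 := h.sq (algebraMap ℝ R (Real.sqrt r))
  rwa [← map_pow, Real.sq_sqrt hr] at h1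

private lemma KDPO.real_nonneg (h : KDPO M) (h1 : (-1 : R) ∉ M) {r : ℝ}
    (hr : algebraMap ℝ R r ∈ M) : 0 ≤ r := by
  by_contra hneg
  push Not at hneg
  apply h1
  have h2 : algebraMap ℝ R (-r⁻¹) ∈ M := h.real (by
    have := inv_lt_zero.2 hneg
    linarith)
  have h3 := h.mul _ hr _ h2
  rw [← map_mul] at h3
  have e : r * -r⁻¹ = -1 := by
    rw [mul_neg, mul_inv_cancel₀ hneg.ne]
  rw [e, map_neg, map_one] at h3
  exact h3

/-- the cut of `a` -/
private noncomputable def kdf (M : Set R) (a : R) : ℝ := sSup {r : ℝ | a - algebraMap ℝ R r ∈ M}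

section total

variable (h : KDPO M) (h1 : (-1 : R) ∉ M) (htot : ∀ a, a ∈ M ∨ -a ∈ M)
  (harch : ∀ x : R, ∃ n : ℕ, (n : R) - x ∈ M)

include h h1 harch

private lemma kd_bdd (a : R) : BddAbove {r : ℝ | a - algebraMap ℝ R r ∈ M} := by
  obtain ⟨n, hn⟩ := harch a
  refine ⟨n, fun r hr => ?_⟩
  have h2 := h.add _ hn _ hr
  have e : (n : R) - a + (a - algebraMap ℝ R r) = algebraMap ℝ R ((n : ℝ) - r) := by
    rw [map_sub, map_natCast]; ring
  rw [e] at h2
  have := h.real_nonneg h1 h2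
  linarith

omit h h1 in
private lemma kd_ne (a : R) : {r : ℝ | a - algebraMap ℝ R r ∈ M}.Nonempty := by
  obtain ⟨n, hn⟩ := harch (-a)
  refine ⟨-(n : ℝ), ?_⟩
  show a - algebraMap ℝ R (-(n : ℝ)) ∈ M
  rw [map_neg, map_natCast]
  have e : a - -(n : R) = (n : R) - -a := by ring
  rw [e]; exact hn

omit h1 in
private lemma kd_lt {a : R} {r : ℝ} (hr : r < kdf M a) : a - algebraMap ℝ R r ∈ M := by
  obtain ⟨r', hr', hlt⟩ := exists_lt_of_lt_csSup (kd_ne harch a) hr
  have h2 := h.add _ hr' _ (h.real (sub_nonneg.2 hlt.le))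
  have e : a - algebraMap ℝ R r' + algebraMap ℝ R (r' - r) = a - algebraMap ℝ R r := by
    rw [map_sub]; ring
  rwa [e] at h2

include htot

private lemma kd_gt {a : R} {r : ℝ} (hr : kdf M a < r) : algebraMap ℝ R r - a ∈ M := by
  have h2 : a - algebraMap ℝ R r ∉ M := fun h3 =>
    (not_le.2 hr) (le_csSup (kd_bdd h h1 harch a) h3)
  have h3 := (htot (a - algebraMap ℝ R r)).resolve_left h2
  rwa [neg_sub] at h3

private lemma kd_uniq {a : R} {x : ℝ} (h2 : ∀ r < x, a - algebraMap ℝ R r ∈ M)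
    (h3 : ∀ r, x < r → algebraMap ℝ R r - a ∈ M) : kdf M a = x := by
  have aux : ∀ r r' : ℝ, algebraMap ℝ R r - a ∈ M → a - algebraMap ℝ R r' ∈ M → r' ≤ r := by
    intro r r' h4 h5
    have h6 := h.add _ h4 _ h5
    have e : algebraMap ℝ R r - a + (a - algebraMap ℝ R r') = algebraMap ℝ R (r - r') := by
      rw [map_sub]; ring
    rw [e] at h6
    have := h.real_nonneg h1 h6
    linarith
  apply le_antisymm
  · by_contra hcon
    push Not at hcon
    obtain ⟨r, hr1, hr2⟩ := exists_between hcon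
    obtain ⟨r', hr3, hr4⟩ := exists_between hr2
    have := aux r r' (h3 r hr1) (kd_lt h harch hr4)
    linarith
  · by_contra hcon
    push Not at hcon
    obtain ⟨r, hr1, hr2⟩ := exists_between hcon
    obtain ⟨r', hr3, hr4⟩ := exists_between hr2
    have := aux r r' (kd_gt h h1 htot harch hr1) (h2 r' hr4)
    linarith

private lemma kd_add (a b : R) : kdf M (a + b) = kdf M a + kdf M b := by
  apply kd_uniq h h1 htot harch
  · intro r hr
    have k1 : kdf M a - (kdf M a + kdf M b - r) / 2 < kdf M a := by linarith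
    have k2 : kdf M b - (kdf M a + kdf M b - r) / 2 < kdf M b := by linarith
    have h2 := h.add _ (kd_lt h harch k1) _ (kd_lt h harch k2)
    convert h2 using 1
    rw [show r = (kdf M a - (kdf M a + kdf M b - r) / 2) +
      (kdf M b - (kdf M a + kdf M b - r) / 2) by ring, map_add]
    ring_nf
  · intro r hr
    have k1 : kdf M a < kdf M a + (r - (kdf M a + kdf M b)) / 2 := by linarith
    have k2 : kdf M b < kdf M b + (r - (kdf M a + kdf M b)) / 2 := by linarith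
    have h2 := h.add _ (kd_gt h h1 htot harch k1) _ (kd_gt h h1 htot harch k2)
    convert h2 using 1
    rw [show r = (kdf M a + (r - (kdf M a + kdf M b)) / 2) +
      (kdf M b + (r - (kdf M a + kdf M b)) / 2) by ring, map_add]
    ring_nf

private lemma kd_real (r : ℝ) : kdf M (algebraMap ℝ R r) = r := by
  apply kd_uniq h h1 htot harch
  · intro r' hr'
    rw [← map_sub]
    exact h.real (by linarith)
  · intro r' hr'
    rw [← map_sub]
    exact h.real (by linarith)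

private lemma kd_mul_pos {a b : R} (ha : 0 < kdf M a) (hb : 0 < kdf M b) :
    kdf M (a * b) = kdf M a * kdf M b := by
  have haM : a ∈ M := by
    have := kd_lt h harch ha
    rwa [map_zero, sub_zero] at this
  have hbM : b ∈ M := by
    have := kd_lt h harch hb
    rwa [map_zero, sub_zero] at this
  set x := kdf M a with hx
  set y := kdf M b with hy
  apply kd_uniq h h1 htot harch
  · intro r hr
    -- `r < r₁ r₂`
    obtain ⟨r₁, r₂, k1, k2, k3, k4, k5⟩ : ∃ r₁ r₂ : ℝ, 0 < r₁ ∧ r₁ < x ∧ 0 < r₂ ∧ r₂ < y ∧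
        r ≤ r₁ * r₂ := by
      have hcont : Filter.Tendsto (fun t : ℝ => (x - t) * (y - t)) (nhdsWithin 0 (Set.Ioi 0))
          (nhds ((x - 0) * (y - 0))) := by
        apply tendsto_nhdsWithin_of_tendsto_nhds
        exact (Continuous.tendsto (by fun_prop) _)
      rw [sub_zero, sub_zero] at hcont
      have e1 := hcont.eventually (lt_mem_nhds hr)
      have e2 : ∀ᶠ t in nhdsWithin (0 : ℝ) (Set.Ioi 0), t < x :=
        nhdsWithin_le_nhds (Iio_mem_nhds ha)
      have e3 : ∀ᶠ t in nhdsWithin (0 : ℝ) (Set.Ioi 0), t < y :=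
        nhdsWithin_le_nhds (Iio_mem_nhds hb)
      have e4 : ∀ᶠ t in nhdsWithin (0 : ℝ) (Set.Ioi 0), 0 < t := self_mem_nhdsWithin
      obtain ⟨t, k1, k2, k3, k4⟩ := (e1.and (e2.and (e3.and e4))).exists
      exact ⟨x - t, y - t, by linarith, by linarith, by linarith, by linarith, k1.le⟩
    have m1 := h.mul _ (kd_lt h harch (hx ▸ k2)) _ hbM
    have m2 := h.mul _ (h.real k1.le) _ (kd_lt h harch (hy ▸ k4))
    have m3 := h.real (sub_nonneg.2 k5)
    have m4 := h.add _ (h.add _ m1 _ m2) _ m3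
    convert m4 using 1
    rw [map_sub, map_mul]
    ring
  · intro r hr
    obtain ⟨r₁, r₂, k1, k2, k5⟩ : ∃ r₁ r₂ : ℝ, x < r₁ ∧ y < r₂ ∧ r₁ * r₂ ≤ r := by
      have hcont : Filter.Tendsto (fun t : ℝ => (x + t) * (y + t)) (nhdsWithin 0 (Set.Ioi 0))
          (nhds ((x + 0) * (y + 0))) := by
        apply tendsto_nhdsWithin_of_tendsto_nhds
        exact (Continuous.tendsto (by fun_prop) _)
      rw [add_zero, add_zero] at hcont
      have e1 := hcont.eventually (gt_mem_nhds hr)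
      have e4 : ∀ᶠ t in nhdsWithin (0 : ℝ) (Set.Ioi 0), 0 < t := self_mem_nhdsWithin
      obtain ⟨t, k1, k4⟩ := (e1.and e4).exists
      exact ⟨x + t, y + t, by linarith, by linarith, k1.le⟩
    have m1 := h.mul _ (kd_gt h h1 htot harch (hx ▸ k1)) _ (h.real (hb.le.trans k2.le))
    have m2 := h.mul _ haM _ (kd_gt h h1 htot harch (hy ▸ k2))
    have m3 := h.real (sub_nonneg.2 k5)
    have m4 := h.add _ (h.add _ m1 _ m2) _ m3
    convert m4 using 1
    rw [map_sub, map_mul]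
    ring

private lemma kd_nsmul (n : ℕ) (a : R) : kdf M ((n : R) * a) = n * kdf M a := by
  have h0 : kdf M (0 : R) = 0 := by
    have := kd_real h h1 htot harch 0
    rwa [map_zero] at this
  induction n with
  | zero => simp [h0]
  | succ n ih =>
    push_cast
    rw [add_mul, one_mul, kd_add h h1 htot harch, ih]
    ring

private lemma kd_nat (n : ℕ) : kdf M (n : R) = n := by
  have := kd_real h h1 htot harch n
  rwa [map_natCast] at this

private lemma kd_mul (a b : R) : kdf M (a * b) = kdf M a * kdf M b := by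
  obtain ⟨n, hn⟩ := exists_nat_gt (max (-kdf M a) (-kdf M b))
  have hna : 0 < kdf M (a + n) := by
    rw [kd_add h h1 htot harch, kd_nat h h1 htot harch]
    have := (le_max_left (-kdf M a) (-kdf M b)).trans_lt hn
    linarith
  have hnb : 0 < kdf M (b + n) := by
    rw [kd_add h h1 htot harch, kd_nat h h1 htot harch]
    have := (le_max_right (-kdf M a) (-kdf M b)).trans_lt hn
    linarith
  have h2 := kd_mul_pos h h1 htot harch hna hnb
  have e : (a + (n : R)) * (b + n) = a * b + (n : R) * a + (n : R) * b + ((n * n : ℕ) : R) := by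
    push_cast; ring
  rw [e, kd_add h h1 htot harch, kd_add h h1 htot harch, kd_add h h1 htot harch,
    kd_nsmul h h1 htot harch, kd_nsmul h h1 htot harch, kd_nat h h1 htot harch,
    kd_add h h1 htot harch, kd_add h h1 htot harch, kd_nat h h1 htot harch] at h2
  push_cast at h2
  linarith

private lemma kd_exists_hom : ∃ φ : R →ₐ[ℝ] ℝ, ∀ t ∈ M, 0 ≤ φ t := by
  let f : R →+* ℝ :=
    { toFun := kdf M
      map_one' := by
        have := kd_real h h1 htot harch 1
        rwa [map_one] at this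
      map_mul' := kd_mul h h1 htot harch
      map_zero' := by
        have := kd_real h h1 htot harch 0
        rwa [map_zero] at this
      map_add' := kd_add h h1 htot harch }
  refine ⟨{ f with commutes' := kd_real h h1 htot harch }, fun t ht => ?_⟩
  show 0 ≤ kdf M t
  apply le_csSup (kd_bdd h h1 harch t)
  show t - algebraMap ℝ R 0 ∈ M
  rwa [map_zero, sub_zero]

end total

end KD

theorem kadison_dubois {R : Type*} [CommRing R] [Algebra ℝ R] (T : Set R)
    (hadd : ∀ x ∈ T, ∀ y ∈ T, x + y ∈ T) (hmul : ∀ x ∈ T, ∀ y ∈ T, x * y ∈ T)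
    (hsq : ∀ x : R, x ^ 2 ∈ T) (harch : ∀ x : R, ∃ n : ℕ, (n : R) - x ∈ T) (b : R)
    (hb : ∀ φ : R →ₐ[ℝ] ℝ, (∀ t ∈ T, 0 ≤ φ t) → 0 < φ b) :
    ∃ ε : ℝ, 0 < ε ∧ b - algebraMap ℝ R ε ∈ T := by
  have hT : KDPO T := ⟨hadd, hmul, hsq⟩
  let T' : Set R := {x | ∃ t ∈ T, ∃ t' ∈ T, x = t - b * t'}
  have hsub : T ⊆ T' := fun x hx => ⟨x, hx, 0, hT.zero, by ring⟩
  have hPO : KDPO T' := by
    refine ⟨?_, ?_, fun x => hsub (hsq x)⟩
    · rintro x ⟨m₁, h₁, m₂, h₂, rfl⟩ y ⟨n₁, k₁, n₂, k₂, rfl⟩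
      exact ⟨m₁ + n₁, hadd _ h₁ _ k₁, m₂ + n₂, hadd _ h₂ _ k₂, by ring⟩
    · rintro x ⟨m₁, h₁, m₂, h₂, rfl⟩ y ⟨n₁, k₁, n₂, k₂, rfl⟩
      exact ⟨m₁ * n₁ + b ^ 2 * (m₂ * n₂), hadd _ (hmul _ h₁ _ k₁) _
        (hmul _ (hsq b) _ (hmul _ h₂ _ k₂)), m₁ * n₂ + m₂ * n₁,
        hadd _ (hmul _ h₁ _ k₂) _ (hmul _ h₂ _ k₁), by ring⟩
  have hneg : (-1 : R) ∈ T' := by
    by_contra hcon
    obtain ⟨N, hN, hNP, hN1, htot⟩ := hPO.exists_max hcon
    have harchN : ∀ x : R, ∃ n : ℕ, (n : R) - x ∈ N := fun x => by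
      obtain ⟨n, hn⟩ := harch x
      exact ⟨n, hN (hsub hn)⟩
    obtain ⟨φ, hφ⟩ := kd_exists_hom hNP hN1 htot harchN
    have h2 := hb φ (fun t ht => hφ t (hN (hsub ht)))
    have h3 : -b ∈ T' := ⟨0, hT.zero, 1, hT.one, by ring⟩
    have h4 := hφ _ (hN h3)
    rw [map_neg] at h4
    linarith
  obtain ⟨t, ht, t', ht', e⟩ := hneg
  have e1 : t' * b - 1 = t := by linear_combination e
  obtain ⟨n0, hn0⟩ := harch t'
  obtain ⟨n, hn1, hn⟩ : ∃ n : ℕ, 1 ≤ n ∧ (n : R) - t' ∈ T := by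
    refine ⟨n0 + 1, by omega, ?_⟩
    have := hadd _ hn0 _ hT.one
    push_cast
    convert this using 1
    ring
  have hnpos : (0 : ℝ) < n := by exact_mod_cast hn1
  have step : ∀ r : ℝ, 0 ≤ r → b + algebraMap ℝ R r ∈ T →
      b + algebraMap ℝ R (r - 1 / n) ∈ T := by
    intro r hr hbr
    have m1 := hmul _ hn _ hbr
    have m2 := hadd _ m1 _ ht
    have m3 := hadd _ m2 _ (hmul _ (hT.real hr) _ ht')
    have m4 := hmul _ (hT.real (one_div_pos.2 hnpos).le) _ m3
    convert m4 using 1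
    have e2 : ((n : R) - t') * (b + algebraMap ℝ R r) + t + algebraMap ℝ R r * t' =
        (n : R) * (b + algebraMap ℝ R r) - 1 := by
      rw [← e1]; ring
    rw [e2, mul_sub, ← mul_assoc, ← map_natCast (algebraMap ℝ R) n, ← map_mul,
      one_div_mul_cancel hnpos.ne', map_one, map_sub]
    ring
  obtain ⟨N, hN⟩ := harch (-b)
  have iter : ∀ k : ℕ, k ≤ n * N + 1 → b + algebraMap ℝ R ((N : ℝ) - k / n) ∈ T := by
    intro k
    induction k with
    | zero =>
      intro _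
      have e3 : b + algebraMap ℝ R ((N : ℝ) - (0 : ℕ) / n) = (N : R) - -b := by
        rw [Nat.cast_zero, zero_div, sub_zero, map_natCast]; ring
      rw [e3]; exact hN
    | succ k ih =>
      intro hk
      have h2 := ih (by omega)
      have h3 : (0 : ℝ) ≤ (N : ℝ) - k / n := by
        rw [sub_nonneg, div_le_iff₀ hnpos]
        have : k ≤ n * N := by omega
        have h4 : (k : ℝ) ≤ (n : ℝ) * N := by exact_mod_cast this
        linarith
      have h4 := step _ h3 h2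
      convert h4 using 3
      push_cast
      ring
  refine ⟨1 / n, one_div_pos.2 hnpos, ?_⟩
  have h2 := iter (n * N + 1) le_rfl
  convert h2 using 1
  have e4 : ((N : ℝ) - ((n * N + 1 : ℕ) : ℝ) / n) = -(1 / n) := by
    push_cast
    field_simp
    ring
  rw [e4, map_neg]
  ring

end Pool.Agent.Helper10.GN
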