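import Pool.Agent.Helper10.GN.SosB

set_option autoImplicit false

/-!
# Project GN, block SDX: nonreal places

`exists_real_tr`: a real transcendental function: `F` contains a transcendental `t` (`hF`); `t + σ t` and
`(t - σ t) / i` (i.e. `(-i) • (t - σ t)`) are real and not both algebraic over `ℂ` (otherwise `t` is; use
`FF.exists_const_of_not_transcendental`).
`exists_sdata`: for a finite set `Z` of places there is an `S` with `SData s S`, disjoint from `Z`: take
a nonreal `c ∈ ℂ` different from all values `vl P t`, `P ∈ Z` (for those `P ∈ Z`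
with `t ∈ P.ring`) and from their conjugates; `t - c` is transcendental and has a zero `P`
(`FF.exists_place`); `vl P t = c`. `P` is not real (the value of the real function `t` at a real
place is real, `vl_real`), and `vl (s.cj P) t = conj c` (`vl_cj`), so `P, s.cj P ∉ Z`. Take
`S = {P, s.cj P}`.
`exists_sdata_poles`: if `f` is regular at all real places then there is an `S` with `SData s S` such that
`f` is regular outside `S`: the union of `exists_sdata` for `Z = ∅`, the finite set of poles of `f` and its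
image under `s.cj`.
`exists_sdata_poles'`: the same for finitely many functions.
-/

namespace Pool.Agent.Helper10.GN

open VC FF

variable {F : Type} [Field F] [Algebra ℂ F] (s : RStr F) (hF : IsFunctionField ℂ F)
include hF

theorem exists_real_tr : ∃ t : F, s.σ t = t ∧ Transcendental ℂ t := by
  obtain ⟨t, ht, -⟩ := hF
  have e1 : s.σ (t + s.σ t) = t + s.σ t := by rw [map_add, s.inv, add_comm]
  have e2 : s.σ (algebraMap ℂ F (-Complex.I) * (t - s.σ t)) =
      algebraMap ℂ F (-Complex.I) * (t - s.σ t) := by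
    rw [map_mul, map_sub, s.inv, s.alg, map_neg, Complex.conj_I, neg_neg, map_neg]
    ring
  by_cases h1 : Transcendental ℂ (t + s.σ t)
  · exact ⟨_, e1, h1⟩
  by_cases h2 : Transcendental ℂ (algebraMap ℂ F (-Complex.I) * (t - s.σ t))
  · exact ⟨_, e2, h2⟩
  exfalso
  obtain ⟨a, ha⟩ := FF.exists_const_of_not_transcendental h1
  obtain ⟨b, hb⟩ := FF.exists_const_of_not_transcendental h2
  apply ht
  have h3 : algebraMap ℂ F Complex.I * algebraMap ℂ F (-Complex.I) = 1 := by
    rw [← map_mul, mul_neg, Complex.I_mul_I, neg_neg, map_one]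
  have h4 : algebraMap ℂ F 2 ≠ 0 := by
    rw [Ne, map_eq_zero]
    exact two_ne_zero
  have h5 : t = algebraMap ℂ F ((a + Complex.I * b) / 2) := by
    rw [map_div₀, eq_div_iff h4, map_add, map_mul, ha, hb, ← mul_assoc, h3, one_mul, map_ofNat]
    ring
  rw [h5]
  exact isAlgebraic_algebraMap _

theorem exists_sdata (Z : Finset (Place ℂ F)) :
    ∃ S : Finset (Place ℂ F), SData s S ∧ Disjoint Z S := by
  classical
  obtain ⟨t, hσ, ht⟩ := exists_real_tr s hF
  have hinj : Function.Injective fun n : ℕ => ((n : ℂ) + Complex.I) := by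
    intro m n h
    have h1 : (m : ℂ) + Complex.I = (n : ℂ) + Complex.I := h
    exact_mod_cast add_right_cancel h1
  obtain ⟨c, ⟨n, rfl⟩, hc⟩ := (Set.infinite_range_of_injective hinj).exists_notMem_finset
    (Z.image (fun P => vl hF P t) ∪ Z.image (fun P => (starRingEnd ℂ) (vl hF P t)))
  rw [Finset.mem_union, not_or] at hc
  obtain ⟨hc1, hc2⟩ := hc
  have hc0 : ((fun n : ℕ => ((n : ℂ) + Complex.I)) n).im = 1 := by simp
  generalize (fun n : ℕ => ((n : ℂ) + Complex.I)) n = c at hc1 hc2 hc0
  have htr : Transcendental ℂ (t - algebraMap ℂ F c) := by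
    by_contra h
    obtain ⟨b, hb⟩ := FF.exists_const_of_not_transcendental h
    apply ht
    have h5 : t = algebraMap ℂ F (b + c) := by rw [map_add, hb, sub_add_cancel]
    rw [h5]
    exact isAlgebraic_algebraMap _
  obtain ⟨P, hP⟩ := FF.exists_place htr
  have htP : t ∈ P.ring := by
    have h1 := P.ring.add_mem _ _ (P.ring.nonunits_le hP) (P.algebraMap_mem c)
    rwa [sub_add_cancel] at h1
  have hv : vl hF P t = c := (vl_eq_iff hF htP c).2 hP
  have hPr : s.cj P ≠ P := by
    intro h
    have h1 := vl_real s hF h hσ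
    rw [hv] at h1
    rw [h1, Complex.ofReal_im] at hc0
    exact zero_ne_one hc0
  have hv' : vl hF (s.cj P) t = (starRingEnd ℂ) c := by
    rw [vl_cj s hF (by rw [hσ]; exact htP), hσ, hv]
  refine ⟨{P, s.cj P}, ⟨⟨P, by simp⟩, ?_, ?_⟩, ?_⟩
  · intro Q hQ
    rw [Finset.mem_insert, Finset.mem_singleton] at hQ ⊢
    rcases hQ with rfl | rfl
    · exact Or.inr rfl
    · exact Or.inl (cj_cj s P)
  · intro Q hQ
    rw [Finset.mem_insert, Finset.mem_singleton] at hQ
    rcases hQ with rfl | rfl
    · exact hPr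
    · rw [cj_cj]
      exact hPr.symm
  · rw [Finset.disjoint_left]
    intro Q hQ hQ'
    rw [Finset.mem_insert, Finset.mem_singleton] at hQ'
    rcases hQ' with rfl | rfl
    · exact hc1 (Finset.mem_image.2 ⟨Q, hQ, hv⟩)
    · exact hc2 (Finset.mem_image.2 ⟨s.cj P, hQ, by rw [hv', Complex.conj_conj]⟩)

theorem exists_sdata_poles {f : F} (h : Reg s f) :
    ∃ S : Finset (Place ℂ F), SData s S ∧ ∀ P, P ∉ S → f ∈ P.ring := by
  classical
  obtain ⟨S₀, hS₀, -⟩ := exists_sdata s hF ∅
  have hfin : {P : Place ℂ F | f ∉ P.ring}.Finite := by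
    rcases eq_or_ne f 0 with h0 | h0
    · rw [h0]
      convert Set.finite_empty
      ext P
      simp only [Set.mem_ofPred_eq, Set.mem_empty_iff_false, iff_false, not_not]
      exact P.ring.zero_mem
    · refine (finite_support_ord hF h0).subset fun P hP => ?_
      intro h1
      apply hP
      exact (FF.ord_nonneg_iff hF P h0).1 (le_of_eq h1.symm)
  have hT : ∀ P, P ∈ hfin.toFinset ↔ f ∉ P.ring := fun P => by
    rw [Set.Finite.mem_toFinset]
    rfl
  have hnr : ∀ P ∈ hfin.toFinset, s.cj P ≠ P := fun P hP h1 => (hT P).1 hP (h P h1)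
  refine ⟨S₀ ∪ (hfin.toFinset ∪ hfin.toFinset.image s.cj), ⟨?_, ?_, ?_⟩, ?_⟩
  · obtain ⟨P, hP⟩ := hS₀.ne
    exact ⟨P, Finset.mem_union_left _ hP⟩
  · intro P hP
    rcases Finset.mem_union.1 hP with h1 | h1
    · exact Finset.mem_union_left _ (hS₀.cj_mem P h1)
    · rcases Finset.mem_union.1 h1 with h2 | h2
      · exact Finset.mem_union_right _ (Finset.mem_union_right _ (Finset.mem_image_of_mem _ h2))
      · obtain ⟨Q, hQ, rfl⟩ := Finset.mem_image.1 h2
        rw [cj_cj]
        exact Finset.mem_union_right _ (Finset.mem_union_left _ hQ)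
  · intro P hP
    rcases Finset.mem_union.1 hP with h1 | h1
    · exact hS₀.cj_ne P h1
    · rcases Finset.mem_union.1 h1 with h2 | h2
      · exact hnr P h2
      · obtain ⟨Q, hQ, rfl⟩ := Finset.mem_image.1 h2
        rw [cj_cj]
        exact (hnr Q hQ).symm
  · intro P hP
    by_contra h1
    exact hP (Finset.mem_union_right _ (Finset.mem_union_left _ ((hT P).2 h1)))

theorem exists_sdata_poles' {ι : Type} [Finite ι] {f : ι → F} (h : ∀ i, Reg s (f i)) :
    ∃ S : Finset (Place ℂ F), SData s S ∧ ∀ i, ∀ P, P ∉ S → f i ∈ P.ring := by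
  classical
  have := Fintype.ofFinite ι
  obtain ⟨S₀, hS₀, -⟩ := exists_sdata s hF ∅
  choose S hS hfS using fun i => exists_sdata_poles s hF (h i)
  refine ⟨S₀ ∪ Finset.univ.biUnion S, ⟨?_, ?_, ?_⟩, ?_⟩
  · obtain ⟨P, hP⟩ := hS₀.ne
    exact ⟨P, Finset.mem_union_left _ hP⟩
  · intro P hP
    rcases Finset.mem_union.1 hP with h1 | h1
    · exact Finset.mem_union_left _ (hS₀.cj_mem P h1)
    · obtain ⟨i, hi, h2⟩ := Finset.mem_biUnion.1 h1
      exact Finset.mem_union_right _ (Finset.mem_biUnion.2 ⟨i, hi, (hS i).cj_mem P h2⟩)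
  · intro P hP
    rcases Finset.mem_union.1 hP with h1 | h1
    · exact hS₀.cj_ne P h1
    · obtain ⟨i, hi, h2⟩ := Finset.mem_biUnion.1 h1
      exact (hS i).cj_ne P h2
  · intro i P hP
    exact hfS i P fun h1 => hP (Finset.mem_union_right _ (Finset.mem_biUnion.2
      ⟨i, Finset.mem_univ i, h1⟩))

end Pool.Agent.Helper10.GN
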