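import Pool.Agent.Helper10.GN.Char
import Pool.Agent.Helper10.GN.KD
import Pool.Agent.Helper10.GN.Inter
import Pool.Agent.Helper10.GN.Sdx

set_option autoImplicit false

/-!
# Project GN, block POSB: strictly positive functions, bounds

`posB`: `T = {b ∈ BSub s S : ∃ m : ℕ, HS s (dS S m) b}` is a preordering (`HS.add` after `HS.mono` to the
maximum, `HS.mul` with `dS_add`, squares: `b² = b σ b` with `exists_mem_L_dS`) and Archimedean (`inter` for `-b`: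
`1 + ε (-b) ∈ T`, so `1/ε - b ∈ T`, `n ≥ 1/ε`). A homomorphism `φ ≥ 0` is `rv P` for
a real place (`exists_place_of_hom`), so `0 < φ b`; apply `kadison_dubois`.
`posB'`: for `b` with positive values and its lower bound: `HS.rv_nonneg` for `b - ε`.
`bdd`: `S` from `exists_sdata_poles` (for `f` and `σ f`); for real `b` regular outside `S`:
`inter` for `b` and `-b` gives `|rv P b| ≤ 1/ε` for all real `P` (`HS.rv_nonneg`);
apply this to `b = f σ f`, `rv_mul_cj`.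
`lower`: if `f` is real, regular with positive values at all real places, then `f ≥ δ > 0` there:
`exists_sdata_poles` and `posB`.
-/

namespace Pool.Agent.Helper10.GN

open VC FF

variable {F : Type} [Field F] [Algebra ℂ F] {s : RStr F} (hF : IsFunctionField ℂ F)

private theorem dS_le' (S : Finset (Place ℂ F)) {m n : ℤ} (h : m ≤ n) (P : Place ℂ F) : dS S m P ≤ dS S n P := by
  by_cases hP : P ∈ S
  · rw [dS_mem m hP, dS_mem n hP]
    exact h
  · rw [dS_notMem m hP, dS_notMem n hP]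

include hF in
private theorem arch' {S : Finset (Place ℂ F)} (hS : SData s S) {b : F} (hb : s.σ b = b)
    (hreg : ∀ P, P ∉ S → b ∈ P.ring) : ∃ (m : ℕ) (ε : ℝ), 0 < ε ∧ HS s (dS S m) (1 - algebraMap ℂ F (ε : ℂ) * b) := by
  obtain ⟨m, hm⟩ := exists_mem_L_dS hF hreg
  obtain ⟨m', hm'⟩ := inter hF hS m
  obtain ⟨ε, hε, h⟩ := hm' (-b) (by rw [map_neg, hb]) (neg_mem hm)
  refine ⟨m', ε, hε, ?_⟩
  have e : (1 : F) + (ε : ℂ) • (-b) = 1 - algebraMap ℂ F (ε : ℂ) * b := by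
    rw [Algebra.smul_def]
    ring
  rwa [e] at h

theorem posB {S : Finset (Place ℂ F)} (hS : SData s S) {b : F} (hb : s.σ b = b)
    (hreg : ∀ P, P ∉ S → b ∈ P.ring) (hpos : ∀ P, s.cj P = P → 0 < rv hF P b) :
    ∃ (m : ℕ) (ε : ℝ), 0 < ε ∧ HS s (dS S m) (b - algebraMap ℂ F (ε : ℂ)) := by
  let T : Set (BSub s S) := {b | ∃ m : ℕ, HS s (dS S m) (b : F)}
  have hadd : ∀ x ∈ T, ∀ y ∈ T, x + y ∈ T := by
    rintro x ⟨m, hm⟩ y ⟨n, hn⟩
    refine ⟨max m n, ?_⟩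
    have h1 : (m : ℤ) ≤ ((max m n : ℕ) : ℤ) := by exact_mod_cast le_max_left m n
    have h2 : (n : ℤ) ≤ ((max m n : ℕ) : ℤ) := by exact_mod_cast le_max_right m n
    exact HS.add (HS.mono (hF := hF) hm (dS_le' S h1)) (HS.mono (hF := hF) hn (dS_le' S h2))
  have hmul : ∀ x ∈ T, ∀ y ∈ T, x * y ∈ T := by
    rintro x ⟨m, hm⟩ y ⟨n, hn⟩
    refine ⟨m + n, ?_⟩
    have h := HS.mul (hF := hF) hm hn
    rw [← dS_add] at h
    push_cast
    exact h
  have hsq : ∀ x : BSub s S, x ^ 2 ∈ T := by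
    intro x
    obtain ⟨m, hm⟩ := exists_mem_L_dS hF x.2.2
    refine ⟨m, ?_⟩
    have h := HS.mul_cj (s := s) hm
    rw [x.2.1] at h
    have e : ((x ^ 2 : BSub s S) : F) = (x : F) * (x : F) := by
      rw [pow_two]
      rfl
    rw [e]
    exact h
  have harch : ∀ x : BSub s S, ∃ n : ℕ, (n : BSub s S) - x ∈ T := by
    intro x
    obtain ⟨m, ε, hε, h⟩ := arch' hF hS x.2.1 x.2.2
    obtain ⟨n, hn⟩ := exists_nat_ge (1 / ε)
    refine ⟨n, m, ?_⟩
    have h1 : HS s (dS S m) (algebraMap ℂ F ((n - 1 / ε : ℝ) : ℂ)) := HS.const (hF := hF) (by linarith)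
    have h2 := HS.smul (r := 1 / ε) (by positivity) h
    have h3 := HS.add h1 h2
    have e : algebraMap ℂ F ((n - 1 / ε : ℝ) : ℂ) + algebraMap ℂ F ((1 / ε : ℝ) : ℂ) *
        (1 - algebraMap ℂ F (ε : ℂ) * (x : F)) = (((n : BSub s S) - x : BSub s S) : F) := by
      have e1 : ((((n : BSub s S) - x : BSub s S)) : F) = (n : F) - (x : F) := rfl
      have e2 : algebraMap ℂ F ((1 / ε : ℝ) : ℂ) * algebraMap ℂ F (ε : ℂ) = 1 := by
        rw [← map_mul, ← Complex.ofReal_mul, one_div_mul_cancel hε.ne', Complex.ofReal_one, map_one]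
      have e3 : algebraMap ℂ F ((n - 1 / ε : ℝ) : ℂ) = (n : F) - algebraMap ℂ F ((1 / ε : ℝ) : ℂ) := by
        rw [Complex.ofReal_sub, map_sub, Complex.ofReal_natCast, map_natCast]
      rw [e1, e3, mul_sub, ← mul_assoc, e2]
      ring
    rw [← e]
    exact h3
  obtain ⟨ε, hε, m, hm⟩ := kadison_dubois T hadd hmul hsq harch ⟨b, hb, hreg⟩ (by
    intro φ _
    obtain ⟨P, hP, h⟩ := exists_place_of_hom hF hS φ
    rw [h]
    exact hpos P hP)
  exact ⟨m, ε, hε, hm⟩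

theorem bdd {f : F} (h : Reg s f) : ∃ C : ℝ, 0 < C ∧ ∀ P, s.cj P = P → ‖vl hF P f‖ ≤ C := by
  have hσ : s.σ (f * s.σ f) = f * s.σ f := by rw [map_mul, s.inv, mul_comm]
  have hr : Reg s (f * s.σ f) := fun P hP => P.ring.mul_mem _ _ (h P hP) (sigma_mem s hP (h P hP))
  obtain ⟨S, hS, hreg⟩ := exists_sdata_poles s hF hr
  obtain ⟨m, ε, hε, h1⟩ := arch' hF hS hσ hreg
  refine ⟨1 / ε + 1, by positivity, ?_⟩
  intro P hP
  have h2 := (HS.rv_nonneg (hF := hF) hS h1 hP).2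
  have m1 : (1 : F) ∈ P.ring := P.ring.one_mem
  have m2 : f * s.σ f ∈ P.ring := hr P hP
  have e : (1 : F) - algebraMap ℂ F (ε : ℂ) * (f * s.σ f) = algebraMap ℂ F ((1 : ℝ) : ℂ) - algebraMap ℂ F (ε : ℂ) * (f * s.σ f) := by
    rw [Complex.ofReal_one, map_one]
  have m3 : algebraMap ℂ F (ε : ℂ) ∈ P.ring := P.algebraMap_mem _
  have hε' : s.σ (algebraMap ℂ F (ε : ℂ)) = algebraMap ℂ F (ε : ℂ) := by rw [s.alg, Complex.conj_ofReal]
  rw [e, rv_sub hF (P.algebraMap_mem _) (P.ring.mul_mem _ _ m3 m2), rv_ofReal, rv_mul s hF hP m3 m2 hε' hσ, rv_ofReal,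
    rv_mul_cj s hF hP (h P hP)] at h2
  have h3 : ‖vl hF P f‖ ^ 2 ≤ 1 / ε := by
    rw [le_div_iff₀ hε]
    linarith
  nlinarith [sq_nonneg (‖vl hF P f‖ - 1), norm_nonneg (vl hF P f)]

theorem lower {f : F} (hf : s.σ f = f) (h : Reg s f) (hpos : ∀ P, s.cj P = P → 0 < rv hF P f) :
    ∃ δ : ℝ, 0 < δ ∧ ∀ P, s.cj P = P → δ ≤ rv hF P f := by
  obtain ⟨S, hS, hreg⟩ := exists_sdata_poles s hF h
  obtain ⟨m, ε, hε, h1⟩ := posB hF hS hf hreg hpos
  refine ⟨ε, hε, ?_⟩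
  intro P hP
  have h2 := (HS.rv_nonneg (hF := hF) hS h1 hP).2
  rw [rv_sub hF (h P hP) (P.algebraMap_mem _), rv_ofReal] at h2
  linarith

end Pool.Agent.Helper10.GN
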