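import Pool.Agent.Helper10.GN.Dat
import Pool.Agent.Helper10.GN.Deg
import Pool.Agent.Helper10.GN.PosB

set_option autoImplicit false

/-!
# Project GN, block KP: the component `k` which does not vanish at `T`

Statement: a bound `l` for the degree of a real polynomial `k`, for all nonnegative `f` of degree `≤ d`, such that `k²/f` is regular with
values `≤ 1/2` at all real places, vanishes to order `≥ 2` at the marked places, and `k` does not vanish at the points of a given finite set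
`T` of nonreal points (of arbitrary size).

Proof. (1) Fixed polynomials `k₁, k₂` (depending on `d`): real functions regular outside `S`, vanishing at `Mk`, vanishing to order `≥ M`
at `R`, `≡ 1` at `Zs` up to order `N₀` (of `mem_O`), without common zeros at nonreal points of the curve. By `appr_real` with
`Z = Mk ∪ R ∪ Zs` there is `k₁` (if `Zs` is empty add to `Z` a nonreal finite place and its conjugate with target `1`, so that
`k₁ ≠ 0`; there is one by `exists_sdata`), it is a polynomial by `mem_O` (at the real singular points all places are marked, value `0`) and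
`real_range`. Let `Z₁` be the finite set of the places over the nonreal points of the curve at which `k₁`
vanishes (`finite_common`); `k₂` in the same way with `Z ∪ Z₁` and target `1` at `Z₁`.
(2) For `f` and `T`: for each `z ∈ T` on the curve at most one real `c` has `(k₁ + c k₂)(z) = 0` (the values
`k₁(z), k₂(z)` are not both `0`): choose `c` avoiding these and with `k₁ + c k₂ ≠ 0`. Choose a real linear form
`u = a X₀ + b X₁` with `Im u(z) ≠ 0` for all `z ∈ T` and such that `u - c'` is not divisible by `p` for any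
constant `c'` (finitely many bad directions). For the finitely many real finite places `P` with `ord_P f > 0` over
`z_P` let `λ_P = u - u(z_P)`, `k = ε (k₁ + c k₂) ∏_P λ_P^{ord_P f}`; `∑ ord_P f ≤ d K` (`exists_count`) bounds the degree. `λ_P(z) ≠ 0` for
`z ∈ T`. Orders of `k²/f`: at a real finite place `P`: `≥ 2 ord_P f - ord_P f ≥ 0`; at a marked place: if
`ord_P f = 0`: `≥ 2`; if `ord_P f > 0` it is even (`Sos.posAt`, `PosAt.even`) and `2 (1 + ord_P f) - ord_P f ≥ 2`. At `P ∈ R`: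
`≥ 2 M - 2 (d K) e - d K ≥ 0` if `M` is large, `e` = pole order of `X₀, X₁` at `P`. So `k²/f` is regular at all real places (`Reg`), bounded
(`bdd`), and `ε` is chosen such that the values are `≤ 1/2`.
-/

namespace Pool.Agent.Helper10.GN

open VC FF MvPolynomial Pool.Agent.Helper68.QM

variable {F : Type} [Field F] [Algebra ℂ F] {s : RStr F} {hF : IsFunctionField ℂ F} {p : A}
  {π : CP →ₐ[ℂ] F} {S R Zs Mk : Finset (Place ℂ F)}

private theorem exists_base97 (hd : CData p s hF π S R Zs Mk) (M : ℕ) (Z₁ : Finset (Place ℂ F))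
    (hZ₁ : ∀ P ∈ Z₁, s.cj P ∈ Z₁ ∧ s.cj P ≠ P ∧ FinP π P) :
    ∃ k : A, π (cx k) ≠ 0 ∧ (∀ P ∈ Mk, Oge P 1 (π (cx k))) ∧
      (∀ P ∈ R, Oge P (M : ℤ) (π (cx k))) ∧
      (∀ P, P ∈ Zs ∨ P ∈ Z₁ → vl hF P (π (cx k)) ≠ 0) := by
  classical
  obtain ⟨N₀, hN₀⟩ := mem_O hF hd.crv hd.irr hd.node
  obtain ⟨S', hS', hdisj⟩ := exists_sdata s hF (S ∪ R)
  have hQ1 : ∀ P ∈ Zs ∪ Z₁ ∪ S', s.cj P ∈ Zs ∪ Z₁ ∪ S' ∧ s.cj P ≠ P ∧ FinP π P := by
    intro P hP
    rcases Finset.mem_union.1 hP with h | h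
    · rcases Finset.mem_union.1 h with h | h
      · obtain ⟨a, b, c, -⟩ := hd.zs_cj h
        exact ⟨Finset.mem_union_left _ (Finset.mem_union_left _ a), b, c⟩
      · obtain ⟨a, b, c⟩ := hZ₁ P h
        exact ⟨Finset.mem_union_left _ (Finset.mem_union_right _ a), b, c⟩
    · refine ⟨Finset.mem_union_right _ (hS'.cj_mem P h), hS'.cj_ne P h, ?_⟩
      have h2 := Finset.disjoint_right.1 hdisj h
      rw [Finset.mem_union, not_or] at h2
      exact hd.fin_of h2.1 h2.2
  generalize hQ1e : Zs ∪ Z₁ ∪ S' = Q1 at hQ1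
  have hMkQ : ∀ P ∈ Mk, P ∉ Q1 := fun P hP h => (hQ1 P h).2.1 (hd.mark P hP).1
  have hRQ : ∀ P ∈ R, P ∉ Q1 := fun P hP h => (hQ1 P h).2.1 ((hd.memR P).1 hP).2
  have hcj : ∀ P ∈ Q1 ∪ (Mk ∪ R), s.cj P ∈ Q1 ∪ (Mk ∪ R) := by
    intro P hP
    rcases Finset.mem_union.1 hP with h | h
    · exact Finset.mem_union_left _ (hQ1 P h).1
    · rcases Finset.mem_union.1 h with h' | h'
      · rw [(hd.mark P h').1]
        exact hP
      · rw [((hd.memR P).1 h').2]
        exact hP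
  have hZS : Disjoint (Q1 ∪ (Mk ∪ R)) S := by
    rw [Finset.disjoint_left]
    intro P hP hPS
    obtain ⟨h1, h2⟩ := (hd.memS P).1 hPS
    rcases Finset.mem_union.1 hP with h | h
    · exact h1 (hQ1 P h).2.2
    · rcases Finset.mem_union.1 h with h' | h'
      · exact h1 (hd.mark P h').2
      · exact h2 ((hd.memR P).1 h').2
  obtain ⟨r, hr⟩ : ∃ r : ℕ, N₀ ≤ r ∧ M ≤ r ∧ 1 ≤ r := ⟨N₀ + M + 1, by omega, by omega, by omega⟩
  obtain ⟨f, hσ, hf1, hf2⟩ := appr_real s hF hd.hS (Q1 ∪ (Mk ∪ R)) hZS hcj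
    (fun P => if P ∈ Q1 then 1 else 0) (r : ℤ) (by
      intro P hP
      left
      by_cases h : P ∈ Q1
      · rw [if_pos h, if_pos (hQ1 P h).1, map_one, sub_self]
      · have h' : s.cj P ∉ Q1 := fun h' => h (by
          have := (hQ1 _ h').1
          rwa [cj_cj] at this)
        rw [if_neg h, if_neg h', map_zero, sub_self])
  have hfQ : ∀ P ∈ Q1, Oge P (r : ℤ) (f - 1) := by
    intro P hP
    have h1 := hf1 P (Finset.mem_union_left _ hP)
    rwa [if_pos hP] at h1
  have hfM : ∀ P ∈ Mk, Oge P (r : ℤ) f := by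
    intro P hP
    have h1 := hf1 P (Finset.mem_union_right _ (Finset.mem_union_left _ hP))
    rwa [if_neg (hMkQ P hP), sub_zero] at h1
  have hfR : ∀ P ∈ R, Oge P (r : ℤ) f := by
    intro P hP
    have h1 := hf1 P (Finset.mem_union_right _ (Finset.mem_union_right _ hP))
    rwa [if_neg (hRQ P hP), sub_zero] at h1
  have hr1 : (1 : ℤ) ≤ (r : ℤ) := by exact_mod_cast hr.2.2
  have hr0 : (0 : ℤ) ≤ (r : ℤ) := by linarith
  have hfin : ∀ P : Place ℂ F, FinP π P → f ∈ P.ring := by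
    intro P hP
    have hPR : P ∉ R := fun h => ((hd.memR P).1 h).1 hP
    have hPS : P ∉ S := fun h => ((hd.memS P).1 h).1 hP
    by_cases h1 : P ∈ Q1
    · have h2 := (oge_zero_iff hF).1 ((hfQ P h1).mono hr0)
      have h3 := P.ring.add_mem _ _ h2 P.ring.one_mem
      rwa [sub_add_cancel] at h3
    · by_cases h2 : P ∈ Mk
      · exact (oge_zero_iff hF).1 ((hfM P h2).mono hr0)
      · refine hf2 P hPS ?_
        rw [Finset.mem_union, Finset.mem_union, not_or, not_or]
        exact ⟨h1, h2, hPR⟩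
  have hvM : ∀ P ∈ Mk, vl hF P f = 0 := fun P hP =>
    (vl_eq_zero hF (hfin P (hd.mark P hP).2)).2 ((hfM P hP).mono hr1)
  have hvQ : ∀ P ∈ Q1, vl hF P f = 1 := by
    intro P hP
    rw [vl_eq_iff hF (hfin P (hQ1 P hP).2.2), map_one]
    exact (oge_one_iff hF).1 ((hfQ P hP).mono hr1)
  obtain ⟨h, hh⟩ := hN₀ f hfin (by
      intro z hz hsg
      refine ⟨1, fun P hP => ?_⟩
      rw [map_one]
      have h1 : P ∈ Q1 := by
        rw [← hQ1e]
        exact Finset.mem_union_left _ (Finset.mem_union_left _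
          ((hd.memZs P).2 ⟨z, hz, hsg, hP⟩))
      exact (hfQ P h1).mono (by exact_mod_cast hr.1)) (by
      intro z hz P Q hP hQ
      rw [hvM P (hd.sing z hz P hP), hvM Q (hd.sing z hz Q hQ)])
  obtain ⟨k, hk⟩ := real_range hd.crv hσ ⟨h, hh⟩
  refine ⟨k, ?_, ?_, ?_, ?_⟩
  · rw [← hk]
    rintro rfl
    obtain ⟨P, hP⟩ := hS'.ne
    have h1 := hvQ P (by
      rw [← hQ1e]
      exact Finset.mem_union_right _ hP)
    rw [vl_zero] at h1
    exact zero_ne_one h1
  · intro P hP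
    rw [← hk]
    exact (hfM P hP).mono hr1
  · intro P hP
    rw [← hk]
    exact (hfR P hP).mono (by exact_mod_cast hr.2.1)
  · intro P hP
    rw [← hk, hvQ P (by
      rw [← hQ1e]
      refine Finset.mem_union_left _ (Finset.mem_union.2 hP))]
    exact one_ne_zero

private theorem avoid97 {ι : Type} (T : Finset ι) (B : ι → Set ℝ)
    (hB : ∀ i ∈ T, (B i).Subsingleton) : ∃ c : ℝ, ∀ i ∈ T, c ∉ B i := by
  have h : (⋃ i ∈ T, B i).Finite := T.finite_toSet.biUnion fun i hi => (hB i hi).finite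
  obtain ⟨c, hc⟩ := h.infinite_compl.nonempty
  exact ⟨c, fun i hi h' => hc (Set.mem_biUnion hi h')⟩

/-- two polynomials without common nonreal zeros on the curve -/
private theorem exists_pair97 (hd : CData p s hF π S R Zs Mk) (M : ℕ) :
    ∃ k₁ k₂ : A, (∀ P ∈ Mk, Oge P 1 (π (cx k₁))) ∧ (∀ P ∈ R, Oge P (M : ℤ) (π (cx k₁))) ∧
      (∀ P ∈ Mk, Oge P 1 (π (cx k₂))) ∧ (∀ P ∈ R, Oge P (M : ℤ) (π (cx k₂))) ∧
      ∀ z, NR z → eval z (cx p) = 0 → eval z (cx k₁) = 0 → eval z (cx k₂) ≠ 0 := by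
  classical
  obtain ⟨k₁, h10, h1M, h1R, h1Z⟩ := exists_base97 hd M ∅ (by simp)
  have hfin := FF.finite_support_ord hF h10
  have hmem : ∀ P, P ∈ hfin.toFinset.filter (fun P => FinP π P ∧ s.cj P ≠ P) ↔
      ord P.ring (π (cx k₁)) ≠ 0 ∧ FinP π P ∧ s.cj P ≠ P := by
    intro P
    rw [Finset.mem_filter, Set.Finite.mem_toFinset]
    exact Iff.rfl
  obtain ⟨k₂, h20, h2M, h2R, h2Z⟩ := exists_base97 hd M
    (hfin.toFinset.filter (fun P => FinP π P ∧ s.cj P ≠ P)) (by
      intro P hP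
      have h1 := (hmem P).1 hP
      refine ⟨(hmem _).2 ⟨?_, (fin_cj hd.crv P).2 h1.2.1, ?_⟩, h1.2.2, h1.2.1⟩
      · rw [ord_cj s hF, hd.crv.real]
        exact h1.1
      · rw [cj_cj]
        exact h1.2.2.symm)
  refine ⟨k₁, k₂, h1M, h1R, h2M, h2R, fun z hz hzp hz1 => ?_⟩
  obtain ⟨P, hP⟩ := exists_over hF hd.crv hzp
  have h1 : vl hF P (π (cx k₁)) = 0 := by rw [vl_over hF hP, hz1]
  have h2 : Oge P 1 (π (cx k₁)) := (vl_eq_zero hF (mem_of_fin hP.1 _)).1 h1
  have h3 : s.cj P ≠ P := by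
    intro h
    obtain ⟨i, hi⟩ := hz
    apply hi
    rw [real_of_over hF hd.crv h hP]
    exact Complex.ofReal_im _
  have h4 := h2Z P (Or.inr ((hmem P).2 ⟨by
    have := h2.resolve_left h10
    omega, hP.1, h3⟩))
  rwa [vl_over hF hP] at h4

private noncomputable def lf97 (t : ℝ) : A := X 0 + C t * X 1

private theorem deg_lf97 (t r : ℝ) : (lf97 t - C r).totalDegree ≤ 1 := by
  refine (totalDegree_sub_C_le _ _).trans ?_
  refine (totalDegree_add _ _).trans (max_le ?_ ?_)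
  · rw [totalDegree_X]
  · refine (totalDegree_mul _ _).trans ?_
    rw [totalDegree_C, totalDegree_X]

private theorem eval_lf97 (t r : ℝ) (z : Fin 2 → ℂ) :
    (eval z (cx (lf97 t - C r))).im = (z 0).im + t * (z 1).im := by
  rw [lf97, map_sub, map_add, map_mul, cx_C, cx_C, cx_X, cx_X, map_sub, map_add, map_mul, eval_C,
    eval_C, eval_X, eval_X]
  simp

theorem exists_kp (hd : CData p s hF π S R Zs Mk) (d : ℕ) :
    ∃ l : ℕ, ∀ f : A, f.totalDegree ≤ d → ¬ p ∣ f → Sos s (π (cx f)) →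
      ∀ T : Finset (Fin 2 → ℂ), (∀ z ∈ T, NR z) →
      ∃ k : A, k.totalDegree ≤ l ∧
        (∀ P, s.cj P = P → π (cx k) ^ 2 / π (cx f) ∈ P.ring ∧
          rv hF P (π (cx k) ^ 2 / π (cx f)) ≤ 1 / 2) ∧
        (∀ P ∈ Mk, Oge P 2 (π (cx k) ^ 2 / π (cx f))) ∧
        ∀ z ∈ T, eval z (cx p) = 0 → eval z (cx k) ≠ 0 := by
  classical
  obtain ⟨K, hK⟩ := exists_count hF hd.crv
  obtain ⟨D0, hD0, hDf, hD⟩ := exists_Dinf hF hd.crv
  obtain ⟨M, hM⟩ : ∃ M : ℕ, ∀ P ∈ R, (d * K : ℤ) * (D0 P + 1) ≤ (M : ℤ) := by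
    refine ⟨d * K * ((∑ P ∈ R, (D0 P).toNat) + 1), fun P hP => ?_⟩
    have h1 : (D0 P).toNat ≤ ∑ P ∈ R, (D0 P).toNat :=
      Finset.single_le_sum (f := fun P => (D0 P).toNat) (fun _ _ => Nat.zero_le _) hP
    have h2 : D0 P ≤ ((∑ P ∈ R, (D0 P).toNat : ℕ) : ℤ) := by
      have := hD0 P
      omega
    rw [Nat.cast_mul, Nat.cast_mul, Nat.cast_add, Nat.cast_one]
    exact mul_le_mul_of_nonneg_left (by linarith) (by positivity)
  obtain ⟨k₁, k₂, h1M, h1R, h2M, h2R, h12⟩ := exists_pair97 hd M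
  refine ⟨max k₁.totalDegree k₂.totalDegree + d * K, fun f hfd hpf _ T hT => ?_⟩
  obtain ⟨c, hc⟩ := avoid97 T (fun z => {c : ℝ | eval z (cx p) = 0 ∧
    eval z (cx k₁) + (c : ℂ) * eval z (cx k₂) = 0}) (by
      intro z hz a ha b hb
      obtain ⟨ha1, ha2⟩ := ha
      obtain ⟨-, hb2⟩ := hb
      by_contra hab
      have h1 : ((a : ℂ) - (b : ℂ)) * eval z (cx k₂) = 0 := by
        linear_combination ha2 - hb2
      have h2 : (a : ℂ) - (b : ℂ) ≠ 0 := by
        rw [sub_ne_zero]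
        exact_mod_cast hab
      have h3 := (mul_eq_zero.1 h1).resolve_left h2
      rw [h3, mul_zero, add_zero] at ha2
      exact h12 z (hT z hz) ha1 ha2 h3)
  obtain ⟨t, ht⟩ := avoid97 T (fun z => {t : ℝ | (z 0).im + t * (z 1).im = 0}) (by
      intro z hz a ha b hb
      have ha' : (z 0).im + a * (z 1).im = 0 := ha
      have hb' : (z 0).im + b * (z 1).im = 0 := hb
      by_contra hab
      have h1 : (a - b) * (z 1).im = 0 := by linarith
      have h2 := (mul_eq_zero.1 h1).resolve_left (sub_ne_zero.2 hab)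
      rw [h2, mul_zero, add_zero] at ha'
      obtain ⟨i, hi⟩ := hT z hz
      apply hi
      fin_cases i
      · exact ha'
      · exact h2)
  have hg : π (cx f) ≠ 0 := fun h => hpf ((hd.crv.eq_zero_iff f).1 h)
  have hfin := FF.finite_support_ord hF hg
  obtain ⟨W, hWdef⟩ : ∃ W : Finset (Place ℂ F), ∀ P, P ∈ W ↔
      ord P.ring (π (cx f)) ≠ 0 ∧ FinP π P ∧ s.cj P = P := by
    refine ⟨hfin.toFinset.filter (fun P => FinP π P ∧ s.cj P = P), fun P => ?_⟩
    rw [Finset.mem_filter, Set.Finite.mem_toFinset]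
    exact Iff.rfl
  have hord0 : ∀ P : Place ℂ F, FinP π P → 0 ≤ ord P.ring (π (cx f)) := fun P hP =>
    (FF.ord_nonneg_iff hF P hg).2 (mem_of_fin hP _)
  obtain ⟨lam, hlam⟩ : ∃ lam : Place ℂ F → A,
      ∀ P, lam P = lf97 t - C (rv hF P (π (cx (lf97 t)))) := ⟨_, fun P => rfl⟩
  have hlamO : ∀ P ∈ W, Oge P 1 (π (cx (lam P))) := by
    intro P hP
    obtain ⟨-, hPf, hPr⟩ := (hWdef P).1 hP
    rw [← vl_eq_zero hF (mem_of_fin hPf _), hlam, map_sub, map_sub, cx_C, IsCrv.pi_C,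
      vl_sub hF (mem_of_fin hPf _) (P.algebraMap_mem _), vl_alg, sub_eq_zero]
    exact vl_real s hF hPr (hd.crv.real _)
  obtain ⟨Lam, hLam⟩ : ∃ Lam : A, Lam = ∏ P ∈ W, lam P ^ (ord P.ring (π (cx f))).toNat := ⟨_, rfl⟩
  have hLdeg : Lam.totalDegree ≤ d * K := by
    rw [hLam]
    refine (totalDegree_finsetProd _ _).trans ?_
    have h1 : ∑ P ∈ W, (lam P ^ (ord P.ring (π (cx f))).toNat).totalDegree ≤
        ∑ P ∈ W, (ord P.ring (π (cx f))).toNat := by
      refine Finset.sum_le_sum fun P _ => (totalDegree_pow _ _).trans ?_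
      have h2 := deg_lf97 t (rv hF P (π (cx (lf97 t))))
      rw [← hlam] at h2
      calc _ ≤ (ord P.ring (π (cx f))).toNat * 1 := Nat.mul_le_mul_left _ h2
        _ = _ := mul_one _
    refine h1.trans ?_
    have h2 := (hK d f hfd hpf).1 W fun P hP => ((hWdef P).1 hP).2.1
    have h3 : ((∑ P ∈ W, (ord P.ring (π (cx f))).toNat : ℕ) : ℤ) =
        ∑ P ∈ W, ord P.ring (π (cx f)) := by
      rw [Nat.cast_sum]
      refine Finset.sum_congr rfl fun P hP => Int.toNat_of_nonneg (hord0 P ((hWdef P).1 hP).2.1)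
    rw [← h3] at h2
    exact_mod_cast h2
  have hLW : ∀ P ∈ W, Oge P (ord P.ring (π (cx f))) (π (cx Lam)) := by
    intro P hP
    rw [hLam, ← Finset.mul_prod_erase W _ hP, map_mul, map_mul, map_pow, map_pow]
    have h1 := oge_pow hF (hlamO P hP) (ord P.ring (π (cx f))).toNat
    have h2 : Oge P 0 (π (cx (∏ Q ∈ W.erase P, lam Q ^ (ord Q.ring (π (cx f))).toNat))) :=
      (oge_zero_iff hF).2 (mem_of_fin ((hWdef P).1 hP).2.1 _)
    have h3 := oge_mul hF h1 h2
    rw [Int.toNat_of_nonneg (hord0 P ((hWdef P).1 hP).2.1), mul_one, add_zero] at h3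
    exact h3
  have hLR : ∀ P, Oge P (-((d * K : ℤ) * D0 P)) (π (cx Lam)) := by
    intro P
    have h1 := (mem_L hF).1 (hD (d * K) (cx Lam) (by rw [totalDegree_cx]; exact hLdeg)) P
    rw [Finsupp.smul_apply, smul_eq_mul, Nat.cast_mul] at h1
    exact h1
  have hk0 : π (cx (k₁ + C c * k₂)) = π (cx k₁) + algebraMap ℂ F (c : ℂ) * π (cx k₂) := by
    rw [map_add, map_add, map_mul, map_mul, cx_C, IsCrv.pi_C]
  have hk0M : ∀ P ∈ Mk, Oge P 1 (π (cx (k₁ + C c * k₂))) := by
    intro P hP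
    rw [hk0]
    refine oge_add hF (h1M P hP) ?_
    have := oge_mul hF (oge_alg hF (P := P) (c : ℂ)) (h2M P hP)
    rwa [zero_add] at this
  have hk0R : ∀ P ∈ R, Oge P (M : ℤ) (π (cx (k₁ + C c * k₂))) := by
    intro P hP
    rw [hk0]
    refine oge_add hF (h1R P hP) ?_
    have := oge_mul hF (oge_alg hF (P := P) (c : ℂ)) (h2R P hP)
    rwa [zero_add] at this
  have hkk : π (cx ((k₁ + C c * k₂) * Lam)) = π (cx (k₁ + C c * k₂)) * π (cx Lam) := by
    rw [map_mul, map_mul]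
  have hreal : ∀ P, s.cj P = P → Oge P 0 (π (cx ((k₁ + C c * k₂) * Lam)) ^ 2 / π (cx f)) := by
    intro P hP
    rw [oge_div_iff hF hg, zero_add]
    have hcase : P ∈ R ∨ FinP π P := by
      rcases (hd.real_cases hP).2.2 with h | ⟨z, h⟩
      · exact Or.inl h
      · exact Or.inr h.1
    rcases hcase with h | h
    · have h1 := oge_mul hF (hk0R P h) (hLR P)
      rw [← hkk] at h1
      have h2 := oge_pow hF h1 2
      refine h2.mono ?_
      have h3 := (hK d f hfd hpf).2 P ((hd.memR P).1 h).1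
      have h4 := hM P h
      have h5 : (0 : ℤ) ≤ d * K := by positivity
      push_cast
      nlinarith
    · by_cases h0 : ord P.ring (π (cx f)) = 0
      · rw [h0, oge_zero_iff hF]
        exact P.ring.pow_mem (mem_of_fin h _) 2
      · have hPW : P ∈ W := (hWdef P).2 ⟨h0, h, hP⟩
        have h1 := oge_mul hF ((oge_zero_iff hF).2 (mem_of_fin h (cx (k₁ + C c * k₂)))) (hLW P hPW)
        rw [← hkk] at h1
        refine (oge_pow hF h1 2).mono ?_
        have := hord0 P h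
        push_cast
        linarith
  have hmark : ∀ P ∈ Mk, Oge P 2 (π (cx ((k₁ + C c * k₂) * Lam)) ^ 2 / π (cx f)) := by
    intro P hPM
    obtain ⟨hP, h⟩ := hd.mark P hPM
    rw [oge_div_iff hF hg]
    by_cases h0 : ord P.ring (π (cx f)) = 0
    · have h1 := oge_mul hF (hk0M P hPM) ((oge_zero_iff hF).2 (mem_of_fin h (cx Lam)))
      rw [← hkk] at h1
      refine (oge_pow hF h1 2).mono ?_
      rw [h0]
      norm_num
    · have hPW : P ∈ W := (hWdef P).2 ⟨h0, h, hP⟩
      have h1 := oge_mul hF (hk0M P hPM) (hLW P hPW)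
      rw [← hkk] at h1
      refine (oge_pow hF h1 2).mono ?_
      have := hord0 P h
      push_cast
      linarith
  obtain ⟨B, hB0, hB⟩ := bdd hF (s := s)
    (f := π (cx ((k₁ + C c * k₂) * Lam)) ^ 2 / π (cx f)) fun P hP =>
      (oge_zero_iff hF).1 (hreal P hP)
  obtain ⟨ε, hε0, hε⟩ : ∃ ε : ℝ, ε ≠ 0 ∧ ε ^ 2 * B ≤ 1 / 2 := by
    refine ⟨1 / (B + 1), by positivity, ?_⟩
    rw [div_pow, one_pow, one_div_mul_eq_div, div_le_iff₀ (by positivity)]
    nlinarith
  have hkf : π (cx (C ε * ((k₁ + C c * k₂) * Lam))) ^ 2 / π (cx f) =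
      algebraMap ℂ F ((ε ^ 2 : ℝ) : ℂ) *
        (π (cx ((k₁ + C c * k₂) * Lam)) ^ 2 / π (cx f)) := by
    have e1 : π (cx (C ε * ((k₁ + C c * k₂) * Lam))) =
        algebraMap ℂ F (ε : ℂ) * π (cx ((k₁ + C c * k₂) * Lam)) := by
      rw [map_mul cx (C ε), map_mul π (cx (C ε)), cx_C, IsCrv.pi_C]
    rw [e1, Complex.ofReal_pow, map_pow]
    ring
  refine ⟨C ε * ((k₁ + C c * k₂) * Lam), ?_, fun P hP => ?_, fun P hP => ?_, fun z hz hzp => ?_⟩
  · refine (totalDegree_mul _ _).trans ?_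
    rw [totalDegree_C, zero_add]
    refine (totalDegree_mul _ _).trans (add_le_add ?_ hLdeg)
    refine (totalDegree_add _ _).trans (max_le_max le_rfl ?_)
    refine (totalDegree_mul _ _).trans ?_
    rw [totalDegree_C, zero_add]
  · rw [hkf]
    have h1 := (oge_zero_iff hF).1 (hreal P hP)
    refine ⟨P.ring.mul_mem _ _ (P.algebraMap_mem _) h1, ?_⟩
    unfold rv
    rw [vl_mul hF (P.algebraMap_mem _) h1, vl_alg, Complex.re_ofReal_mul]
    refine le_trans (mul_le_mul_of_nonneg_left ?_ (sq_nonneg ε)) hε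
    exact ((le_abs_self _).trans (Complex.abs_re_le_norm _)).trans (hB P hP)
  · rw [hkf]
    have := oge_mul hF (oge_alg hF (P := P) ((ε ^ 2 : ℝ) : ℂ)) (hmark P hP)
    rwa [zero_add] at this
  · rw [map_mul, map_mul, map_mul, map_mul, cx_C, eval_C]
    refine mul_ne_zero (by exact_mod_cast hε0) (mul_ne_zero ?_ ?_)
    · rw [map_add, map_mul, cx_C, map_add, map_mul, eval_C]
      exact fun h => hc z hz ⟨hzp, h⟩
    · rw [hLam, map_prod, map_prod]
      refine Finset.prod_ne_zero_iff.2 fun P _ => ?_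
      rw [map_pow, map_pow]
      refine pow_ne_zero _ fun h => ht z hz ?_
      have h1 := eval_lf97 t (rv hF P (π (cx (lf97 t)))) z
      rw [← hlam, h, Complex.zero_im] at h1
      exact h1.symm

end Pool.Agent.Helper10.GN
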