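import Pool.Agent.Helper10.GN.PosB
import Pool.Agent.Helper10.GN.Appr

set_option autoImplicit false

/-!
# Project GN, block LPOS: a real function positive at all real places is a sum of squares

Proof. Let `Z` be the finite set of the real places `P` with `ord_P g ≠ 0` (`FF.finite_support_ord`). For
`P ∈ Z` let `h P ≠ 0` be real, `g / (h P)² ∈ P.ring` of positive value (so `ord_P g = 2 ord_P (h P)`).
`SData S` disjoint from `Z` (`exists_sdata`). By `appr_real` there is a real `h₁` regular outside `S ∪ Z`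
with `Oge P r (h₁ - (h P)⁻¹)` on `Z`, `r` large (`r > |ord_P (h P)| + 1` for all `P ∈ Z`): so `h₁ ≠ 0` (if
`Z = ∅` take `h₁ = 1`) and `h₁ = (h P)⁻¹ (1 + δ)` with `δ` vanishing at `P`; `g h₁² ` is regular at `P` of
positive value. Let `Z'` be the finite set of the real zeros of `h₁` outside `Z`; again `appr_real` (with
`S'` disjoint from `Z ∪ Z'`) gives a real `h₂` regular at all real places with `Oge P N (h₂)` on `Z`
(`N` with `2 N + ord_P g ≥ 1`), `Oge P 1 (h₂ - 1)` on `Z'`. Let `q = h₁² + h₂²`, `Sos`. At every real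
place `g q` is regular with positive value: on `Z` `g h₁²` has a positive value and `g h₂²` vanishes;
on `Z'` `g` is a unit of positive value (`PosAt.rv_pos`) and `q` has value `≥ 1`; at the others `g` is a
unit of positive value, `h₁(P)² > 0`. So `g q` is real and positive, regular outside some `S''`
(`exists_sdata_poles`), by `posB` it is `Sos` (`HS.sos`, `Sos.const`, `Sos.add`); `g = (g q)/q` and
`Sos.div`.
-/

namespace Pool.Agent.Helper10.GN

open VC FF

variable {F : Type} [Field F] [Algebra ℂ F] {s : RStr F} (hF : IsFunctionField ℂ F)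

private theorem lpos_ne {a b : F} (ha : s.σ a = a) (hb : s.σ b = b) (h0 : a ≠ 0) :
    a ^ 2 + b ^ 2 ≠ 0 := by
  intro h
  set I : F := algebraMap ℂ F Complex.I with hI
  have hI2 : I * I = -1 := by
    rw [hI, ← map_mul, Complex.I_mul_I, map_neg, map_one]
  have hIs : s.σ I = -I := by
    rw [hI, s.alg, Complex.conj_I, map_neg]
  have h1 : (a + I * b) * (a - I * b) = 0 := by
    have : (a + I * b) * (a - I * b) = a ^ 2 - (I * I) * b ^ 2 := by ring
    rw [this, hI2]
    rw [← h]
    ring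
  have key : ∀ c : F, a + c * b = 0 → s.σ c = -c → a = 0 := by
    intro c hc hs
    have h2 : s.σ (a + c * b) = 0 := by rw [hc, map_zero]
    rw [map_add, map_mul, ha, hb, hs] at h2
    have h3 : (algebraMap ℂ F 2) * a = 0 := by
      have : (algebraMap ℂ F 2) = 2 := by
        rw [map_ofNat]
      rw [this]
      linear_combination hc + h2
    rcases mul_eq_zero.1 h3 with h4 | h4
    · exfalso
      have := (map_eq_zero (algebraMap ℂ F)).1 h4
      norm_num at this
    · exact h4
  rcases mul_eq_zero.1 h1 with h2 | h2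
  · exact h0 (key I h2 hIs)
  · refine h0 (key (-I) ?_ ?_)
    · rw [← h2]; ring
    · rw [map_neg, hIs]

private theorem lpos_bd {A : Type} (Z : Finset A) (o : A → ℤ) :
    ∃ r : ℤ, 1 ≤ r ∧ ∀ P ∈ Z, 1 ≤ r + o P := by
  refine ⟨1 + ∑ P ∈ Z, |o P|, ?_, ?_⟩
  · have : 0 ≤ ∑ P ∈ Z, |o P| := Finset.sum_nonneg fun _ _ => abs_nonneg _
    omega
  · intro P hP
    have h1 : |o P| ≤ ∑ P ∈ Z, |o P| :=
      Finset.single_le_sum (f := fun P => |o P|) (fun _ _ => abs_nonneg _) hP
    have h2 := neg_abs_le (o P)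
    omega

theorem lpos {g : F} (hg : s.σ g = g) (h : ∀ P, s.cj P = P → PosAt s hF P g) : Sos s g := by
  classical
  rcases eq_or_ne g 0 with rfl | hg0
  · exact Sos.zero
  -- the real places where g is not a unit
  obtain ⟨Z, hZmem⟩ : ∃ Z : Finset (Place ℂ F), ∀ P, P ∈ Z ↔ ord P.ring g ≠ 0 ∧ s.cj P = P := by
    refine ⟨(finite_support_ord hF hg0).toFinset.filter (fun P => s.cj P = P), fun P => ?_⟩
    rw [Finset.mem_filter, Set.Finite.mem_toFinset]
    rfl
  have hch : ∀ P, ∃ k : F, s.cj P = P → k ≠ 0 ∧ s.σ k = k ∧ g / k ^ 2 ∈ P.ring ∧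
      0 < rv hF P (g / k ^ 2) := by
    intro P
    by_cases hP : s.cj P = P
    · obtain ⟨k, hk⟩ := h P hP
      exact ⟨k, fun _ => hk⟩
    · exact ⟨0, fun h' => absurd h' hP⟩
  choose k hk using hch
  -- the first function
  obtain ⟨h₁, h₁0, h₁r, h₁Z, h₁reg⟩ : ∃ h₁ : F, h₁ ≠ 0 ∧ s.σ h₁ = h₁ ∧
      (∀ P ∈ Z, h₁ * k P ∈ P.ring ∧ vl hF P (h₁ * k P) = 1) ∧
      (∀ P, s.cj P = P → P ∉ Z → h₁ ∈ P.ring) := by
    rcases Z.eq_empty_or_nonempty with hZe | ⟨P₀, hP₀⟩
    · refine ⟨1, one_ne_zero, map_one _, ?_, fun P _ _ => P.ring.one_mem⟩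
      intro P hP
      rw [hZe] at hP
      exact absurd hP (Finset.notMem_empty _)
    obtain ⟨S, hS, hZS⟩ := exists_sdata s hF Z
    obtain ⟨r, hr1, hrP⟩ := lpos_bd Z (fun P => ord P.ring (k P))
    obtain ⟨f, f1, f2, f3⟩ := appr_real s hF hS Z hZS
      (fun P hP => by rw [((hZmem P).1 hP).2]; exact hP) (fun P => (k P)⁻¹) r
      (fun P hP => by
        have hP' := ((hZmem P).1 hP).2
        have : s.σ ((fun P => (k P)⁻¹) (s.cj P)) - (fun P => (k P)⁻¹) P = 0 := by
          rw [hP']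
          beta_reduce
          rw [map_inv₀, (hk P hP').2.1, sub_self]
        rw [this]
        exact oge_zero)
    have f4 : ∀ P ∈ Z, f * k P ∈ P.ring ∧ vl hF P (f * k P) = 1 := by
      intro P hP
      have hP' := ((hZmem P).1 hP).2
      have hk0 := (hk P hP').1
      have e1 : f * k P - 1 = (f - (k P)⁻¹) * k P := by
        rw [sub_mul, inv_mul_cancel₀ hk0]
      have e2 : Oge P 1 (f * k P - 1) := by
        rw [e1]
        have := oge_mul hF (f2 P hP) (Or.inr le_rfl : Oge P (ord P.ring (k P)) (k P))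
        exact this.mono (hrP P hP)
      have e3 : f * k P - 1 ∈ P.ring := (oge_zero_iff hF).1 (e2.mono zero_le_one)
      have e4 : f * k P ∈ P.ring := by
        have := P.ring.add_mem _ _ e3 P.ring.one_mem
        rwa [sub_add_cancel] at this
      refine ⟨e4, ?_⟩
      rw [vl_eq_iff hF e4, map_one]
      exact (oge_one_iff hF).1 e2
    refine ⟨f, ?_, f1, f4, ?_⟩
    · rintro rfl
      have := (f4 P₀ hP₀).2
      rw [zero_mul, vl_zero] at this
      exact zero_ne_one this
    · intro P hP hPZ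
      exact f3 P (fun hPS => hS.cj_ne P hPS hP) hPZ
  -- real zeros of the first function outside Z
  obtain ⟨Z', hZ'mem⟩ : ∃ Z' : Finset (Place ℂ F),
      ∀ P, P ∈ Z' ↔ ord P.ring h₁ ≠ 0 ∧ s.cj P = P ∧ P ∉ Z := by
    refine ⟨(finite_support_ord hF h₁0).toFinset.filter (fun P => s.cj P = P ∧ P ∉ Z),
      fun P => ?_⟩
    rw [Finset.mem_filter, Set.Finite.mem_toFinset]
    rfl
  obtain ⟨S', hS', hZS'⟩ := exists_sdata s hF (Z ∪ Z')
  obtain ⟨N, hN1, hNP'⟩ := lpos_bd Z (fun P => ord P.ring g)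
  have hNP : ∀ P ∈ Z, 1 ≤ ord P.ring g + 2 * N := by
    intro P hP
    have h2 := hNP' P hP
    beta_reduce at h2
    omega
  have hreal : ∀ P ∈ Z ∪ Z', s.cj P = P := by
    intro P hP
    rcases Finset.mem_union.1 hP with h1 | h1
    · exact ((hZmem P).1 h1).2
    · exact ((hZ'mem P).1 h1).2.1
  obtain ⟨h₂, h₂r, h₂Z, h₂reg⟩ := appr_real s hF hS' (Z ∪ Z') hZS'
    (fun P hP => by rw [hreal P hP]; exact hP) (fun P => if P ∈ Z then 0 else 1) N
    (fun P hP => by
      have : s.σ ((fun P => if P ∈ Z then (0 : F) else 1) (s.cj P)) -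
          (fun P => if P ∈ Z then (0 : F) else 1) P = 0 := by
        rw [hreal P hP]
        beta_reduce
        split_ifs
        · rw [map_zero, sub_self]
        · rw [map_one, sub_self]
      rw [this]
      exact oge_zero)
  have h₂Z1 : ∀ P ∈ Z, Oge P N h₂ := by
    intro P hP
    have h1 := h₂Z P (Finset.mem_union_left _ hP)
    beta_reduce at h1
    rwa [if_pos hP, sub_zero] at h1
  have h₂Z2 : ∀ P ∈ Z', h₂ ∈ P.ring ∧ vl hF P h₂ = 1 := by
    intro P hP
    have h1 := h₂Z P (Finset.mem_union_right _ hP)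
    beta_reduce at h1
    rw [if_neg ((hZ'mem P).1 hP).2.2] at h1
    have e2 : Oge P 1 (h₂ - 1) := h1.mono hN1
    have e3 : h₂ - 1 ∈ P.ring := (oge_zero_iff hF).1 (e2.mono zero_le_one)
    have e4 : h₂ ∈ P.ring := by
      have := P.ring.add_mem _ _ e3 P.ring.one_mem
      rwa [sub_add_cancel] at this
    refine ⟨e4, ?_⟩
    rw [vl_eq_iff hF e4, map_one]
    exact (oge_one_iff hF).1 e2
  have hq0 : h₁ ^ 2 + h₂ ^ 2 ≠ 0 := lpos_ne h₁r h₂r h₁0
  have hqs : Sos s (h₁ ^ 2 + h₂ ^ 2) := (Sos.sq h₁r).add (Sos.sq h₂r)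
  set q : F := h₁ ^ 2 + h₂ ^ 2 with hq
  have hqr : s.σ q = q := hqs.real
  have hmain : ∀ P, s.cj P = P → g * q ∈ P.ring ∧ 0 < rv hF P (g * q) := by
    intro P hP
    by_cases hPZ : P ∈ Z
    · obtain ⟨hk0, hkr, hk1, hk2⟩ := hk P hP
      obtain ⟨e1, e2⟩ := h₁Z P hPZ
      have e3 : g * h₁ ^ 2 = g / k P ^ 2 * (h₁ * k P) ^ 2 := by
        field_simp
      have e4 : (h₁ * k P) ^ 2 ∈ P.ring := by
        rw [pow_two]
        exact P.ring.mul_mem _ _ e1 e1
      have e5 : g * h₁ ^ 2 ∈ P.ring := by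
        rw [e3]
        exact P.ring.mul_mem _ _ hk1 e4
      have e6 : 0 < rv hF P (g * h₁ ^ 2) := by
        have : rv hF P (g * h₁ ^ 2) = rv hF P (g / k P ^ 2) := by
          unfold rv
          rw [e3, vl_mul hF hk1 e4, vl_pow hF e1, e2, one_pow, mul_one]
        rw [this]
        exact hk2
      have e7 : Oge P 1 (g * h₂ ^ 2) := by
        have e8 := oge_pow hF (h₂Z1 P hPZ) 2
        have e9 := oge_mul hF (Or.inr le_rfl : Oge P (ord P.ring g) g) e8
        refine e9.mono ?_
        have := hNP P hPZ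
        push_cast
        exact this
      have e8 : g * h₂ ^ 2 ∈ P.ring := (oge_zero_iff hF).1 (e7.mono zero_le_one)
      have e9 : g * q = g * h₁ ^ 2 + g * h₂ ^ 2 := by rw [hq, mul_add]
      refine ⟨?_, ?_⟩
      · rw [e9]
        exact P.ring.add_mem _ _ e5 e8
      · rw [e9, rv_add hF e5 e8]
        have : rv hF P (g * h₂ ^ 2) = 0 := by
          unfold rv
          rw [(vl_eq_zero hF e8).2 e7]
          rfl
        rw [this, add_zero]
        exact e6
    · have hgo : ord P.ring g = 0 := by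
        by_contra hne
        exact hPZ ((hZmem P).2 ⟨hne, hP⟩)
      have hgP : g ∈ P.ring := (FF.ord_nonneg_iff hF P hg0).1 hgo.ge
      have hgv : 0 < rv hF P g := (h P hP).rv_pos hP hg hgo
      have a1 : h₁ ∈ P.ring := h₁reg P hP hPZ
      have a1' : h₁ ^ 2 ∈ P.ring := by
        rw [pow_two]
        exact P.ring.mul_mem _ _ a1 a1
      have a2 : h₂ ∈ P.ring := by
        by_cases hPZ' : P ∈ Z'
        · exact (h₂Z2 P hPZ').1
        · refine h₂reg P (fun hPS => hS'.cj_ne P hPS hP) ?_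
          rw [Finset.mem_union]
          rintro (h1 | h1)
          · exact hPZ h1
          · exact hPZ' h1
      have a2' : h₂ ^ 2 ∈ P.ring := by
        rw [pow_two]
        exact P.ring.mul_mem _ _ a2 a2
      have a3 : q ∈ P.ring := P.ring.add_mem _ _ a1' a2'
      have a4 : rv hF P q = rv hF P h₁ ^ 2 + rv hF P h₂ ^ 2 := by
        rw [hq, rv_add hF a1' a2', rv_pow s hF hP a1 h₁r, rv_pow s hF hP a2 h₂r]
      have a5 : 0 < rv hF P q := by
        rw [a4]
        by_cases hPZ' : P ∈ Z'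
        · have : rv hF P h₂ = 1 := by
            unfold rv
            rw [(h₂Z2 P hPZ').2]
            rfl
          rw [this]
          positivity
        · have h₁o : ord P.ring h₁ = 0 := by
            by_contra hne
            exact hPZ' ((hZ'mem P).2 ⟨hne, hP, hPZ⟩)
          have h₁v := vl_ne_zero hF h₁0 h₁o
          rw [vl_real s hF hP h₁r] at h₁v
          have h₁v' : rv hF P h₁ ≠ 0 := fun h0 => h₁v (by rw [h0]; rfl)
          have := pow_pos (abs_pos.2 h₁v') 2
          rw [sq_abs] at this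
          have := sq_nonneg (rv hF P h₂)
          linarith
      refine ⟨P.ring.mul_mem _ _ hgP a3, ?_⟩
      rw [rv_mul s hF hP hgP a3 hg hqr]
      exact mul_pos hgv a5
  obtain ⟨S'', hS'', hreg⟩ := exists_sdata_poles s hF (f := g * q) (fun P hP => (hmain P hP).1)
  obtain ⟨m, ε, hε, hHS⟩ := posB hF hS'' (b := g * q) (by rw [map_mul, hg, hqr]) hreg
    (fun P hP => (hmain P hP).2)
  have h1 : Sos s (g * q) := by
    have h2 := (hHS.sos).add (Sos.const (s := s) hε.le)
    rwa [sub_add_cancel] at h2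
  have h2 := h1.div hqs
  rwa [mul_div_cancel_right₀ _ hq0] at h2

end Pool.Agent.Helper10.GN
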