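import Pool.Agent.Helper10.GN.N1E

set_option autoImplicit false

/-!
# Project GN, block N1: bounded sums of squares on a normal real curve, final form

`n1`. Let `F0` be symmetric with `2 F0 P ≤ ord_P f`. Define `E`: at a real place `P`: `E P = ord_P f / 2`
(`ord_P f` is even, `Sos.posAt`, `PosAt.even`); from every pair of
nonreal places `P ≠ s.cj P` in the finite set where `ord f ≠ 0` or `F0 ≠ 0` choose one, `P`, and let
`E P = F0 P`, `E (s.cj P) = ord_P f - F0 P` (`ord` of `f` is the same at `P` and `s.cj P`). So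
`E Q + E (s.cj Q) = ord_Q f` and `F0 ≤ E`, `F0 ≤ cjD s E`. By `n1e` `f = ∑ v σ v`,
`v ∈ L (dS S m - E) ≤ L (dS S m - F0)`, `σ v ∈ L (dS S m - F0)` too (`mem_L_cjD`, `cjD_dS`), and
`v σ v = a² + b²` with `a = (v + σ v)/2`, `b = (v - σ v)/(2i)`.
-/

namespace Pool.Agent.Helper10.GN

open VC FF

variable {F : Type} [Field F] [Algebra ℂ F]

theorem exists_E {s : RStr F} (hF : IsFunctionField ℂ F) {f : F} (hf0 : f ≠ 0) (hf : Sos s f)
    {F0 : Place ℂ F →₀ ℤ} (hcj : cjD s F0 = F0) (h2 : ∀ P, 2 * F0 P ≤ ord P.ring f) :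
    ∃ E : Place ℂ F →₀ ℤ, (∀ Q, E Q + E (s.cj Q) = ord Q.ring f) ∧ ∀ Q, F0 Q ≤ E Q := by
  classical
  have hF0 : ∀ Q, F0 (s.cj Q) = F0 Q := fun Q => by
    have := cjD_apply s F0 Q
    rw [hcj] at this
    exact this.symm
  have hord : ∀ Q : Place ℂ F, ord (s.cj Q).ring f = ord Q.ring f := fun Q => by
    rw [ord_cj s hF, hf.real]
  let e : Place ℂ F → ℤ := fun Q => if s.cj Q = Q then ord Q.ring f / 2 else
    if WellOrderingRel Q (s.cj Q) then F0 Q else ord Q.ring f - F0 Q
  have hfin : (Function.support e).Finite := by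
    have h1 : {P : Place ℂ F | ord P.ring f ≠ 0}.Finite := finite_support_ord hF hf0
    refine (h1.union F0.support.finite_toSet).subset fun Q hQ => ?_
    by_contra hc
    rw [Set.mem_union, not_or] at hc
    obtain ⟨ha, hb⟩ := hc
    rw [Set.mem_ofPred_eq, not_not] at ha
    rw [Finset.mem_coe, Finsupp.notMem_support_iff] at hb
    apply hQ
    change (if s.cj Q = Q then ord Q.ring f / 2 else
      if WellOrderingRel Q (s.cj Q) then F0 Q else ord Q.ring f - F0 Q) = 0
    rw [ha, hb]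
    simp
  refine ⟨Finsupp.ofSupportFinite e hfin, fun Q => ?_, fun Q => ?_⟩
  · change e Q + e (s.cj Q) = _
    by_cases hQ : s.cj Q = Q
    · rw [hQ]
      have he : e Q = ord Q.ring f / 2 := if_pos hQ
      obtain ⟨k, hk⟩ := (hf.posAt (hF := hF) hf0 hQ).even
      rw [he, hk]
      omega
    · have hQ' : s.cj (s.cj Q) ≠ s.cj Q := by
        rw [cj_cj]
        exact fun h => hQ h.symm
      by_cases hr : WellOrderingRel Q (s.cj Q)
      · have h1 : e Q = F0 Q := by
          change (if s.cj Q = Q then ord Q.ring f / 2 else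
            if WellOrderingRel Q (s.cj Q) then F0 Q else ord Q.ring f - F0 Q) = _
          rw [if_neg hQ, if_pos hr]
        have h2' : e (s.cj Q) = ord (s.cj Q).ring f - F0 (s.cj Q) := by
          change (if s.cj (s.cj Q) = s.cj Q then ord (s.cj Q).ring f / 2 else
            if WellOrderingRel (s.cj Q) (s.cj (s.cj Q)) then F0 (s.cj Q) else
              ord (s.cj Q).ring f - F0 (s.cj Q)) = _
          rw [if_neg hQ', cj_cj, if_neg (asymm hr)]
        rw [h1, h2', hord, hF0]
        ring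
      · have hr' : WellOrderingRel (s.cj Q) Q := by
          rcases trichotomous_of WellOrderingRel Q (s.cj Q) with h | h | h
          · exact absurd h hr
          · exact absurd h.symm hQ
          · exact h
        have h1 : e Q = ord Q.ring f - F0 Q := by
          change (if s.cj Q = Q then ord Q.ring f / 2 else
            if WellOrderingRel Q (s.cj Q) then F0 Q else ord Q.ring f - F0 Q) = _
          rw [if_neg hQ, if_neg hr]
        have h2' : e (s.cj Q) = F0 (s.cj Q) := by
          change (if s.cj (s.cj Q) = s.cj Q then ord (s.cj Q).ring f / 2 else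
            if WellOrderingRel (s.cj Q) (s.cj (s.cj Q)) then F0 (s.cj Q) else
              ord (s.cj Q).ring f - F0 (s.cj Q)) = _
          rw [if_neg hQ', cj_cj, if_pos hr']
        rw [h1, h2', hF0]
        ring
  · change F0 Q ≤ (if s.cj Q = Q then ord Q.ring f / 2 else
      if WellOrderingRel Q (s.cj Q) then F0 Q else ord Q.ring f - F0 Q)
    have := h2 Q
    split_ifs <;> omega

theorem n1 {s : RStr F} (hF : IsFunctionField ℂ F) (hreal : {P : Place ℂ F | s.cj P = P}.Infinite)
    {S : Finset (Place ℂ F)} (hS : SData s S) :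
    ∃ m : ℕ, ∀ f : F, f ≠ 0 → Sos s f → ∀ F0 : Place ℂ F →₀ ℤ, cjD s F0 = F0 →
      (∀ P, 2 * F0 P ≤ ord P.ring f) →
      ∃ (n : ℕ) (u : Fin n → F), (∀ i, s.σ (u i) = u i ∧ u i ∈ L (dS S m - F0)) ∧
        f = ∑ i, u i ^ 2 := by
  obtain ⟨m, hm⟩ := n1e hF hreal hS
  refine ⟨m, fun f hf0 hf F0 hcj h2 => ?_⟩
  obtain ⟨E, hE, hFE⟩ := exists_E hF hf0 hf hcj h2
  obtain ⟨n, v, hv, hsum⟩ := hm f hf0 hf E hE
  have hv1 : ∀ i, v i ∈ L (dS S m - F0) := fun i => by
    refine L_mono hF (fun P => ?_) (hv i)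
    rw [Finsupp.sub_apply, Finsupp.sub_apply]
    have := hFE P
    omega
  have hD : cjD s (dS S (m : ℤ) - F0) = dS S (m : ℤ) - F0 := by
    ext P
    rw [cjD_apply, Finsupp.sub_apply, Finsupp.sub_apply, ← cjD_apply, ← cjD_apply s F0 P, hcj,
      cjD_dS s hS]
  have hv2 : ∀ i, s.σ (v i) ∈ L (dS S m - F0) := fun i => by
    have := (mem_L_cjD s hF (D := dS S (m : ℤ) - F0) (f := v i)).mpr (hv1 i)
    rwa [hD] at this
  have hI : s.σ (algebraMap ℂ F Complex.I) = - algebraMap ℂ F Complex.I := by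
    rw [s.alg, Complex.conj_I, map_neg]
  have hI2 : algebraMap ℂ F Complex.I * algebraMap ℂ F Complex.I = -1 := by
    rw [← map_mul, Complex.I_mul_I, map_neg, map_one]
  let J : F := algebraMap ℂ F Complex.I
  let H : F := algebraMap ℂ F (1 / 2 : ℂ)
  have hH : s.σ H = H := by
    change s.σ (algebraMap ℂ F (1 / 2 : ℂ)) = algebraMap ℂ F (1 / 2 : ℂ)
    rw [s.alg]
    congr 1
    have : (1 / 2 : ℂ) = ((1 / 2 : ℝ) : ℂ) := by norm_num
    rw [this, Complex.conj_ofReal]
  have hH2 : H * 2 = 1 := by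
    change algebraMap ℂ F (1 / 2 : ℂ) * 2 = 1
    have : (2 : F) = algebraMap ℂ F (2 : ℂ) := by rw [map_ofNat]
    rw [this, ← map_mul]
    norm_num
  let a : Fin n → F := fun i => H * (v i + s.σ (v i))
  let b : Fin n → F := fun i => (J * H) * (s.σ (v i) - v i)
  have hab : ∀ i, v i * s.σ (v i) = a i ^ 2 + b i ^ 2 := fun i => by
    change v i * s.σ (v i) = (H * (v i + s.σ (v i))) ^ 2 + ((J * H) * (s.σ (v i) - v i)) ^ 2
    have e1 : ((J * H) * (s.σ (v i) - v i)) ^ 2 = (J * J) * H ^ 2 * (s.σ (v i) - v i) ^ 2 := by ring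
    rw [e1, show J * J = -1 from hI2]
    have e2 : (H * (v i + s.σ (v i))) ^ 2 + -1 * H ^ 2 * (s.σ (v i) - v i) ^ 2 =
      (H * 2) ^ 2 * (v i * s.σ (v i)) := by ring
    rw [e2, hH2]
    ring
  have hmemH : ∀ x ∈ L (dS S (m : ℤ) - F0), H * x ∈ L (dS S (m : ℤ) - F0) := fun x hx => by
    have := Submodule.smul_mem _ (1 / 2 : ℂ) hx
    rwa [Algebra.smul_def] at this
  have hmemJ : ∀ x ∈ L (dS S (m : ℤ) - F0), J * x ∈ L (dS S (m : ℤ) - F0) := fun x hx => by
    have := Submodule.smul_mem _ Complex.I hx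
    rwa [Algebra.smul_def] at this
  refine ⟨n + n, Fin.append a b, fun i => ?_, ?_⟩
  · refine Fin.addCases (fun j => ?_) (fun j => ?_) i
    · rw [Fin.append_left]
      constructor
      · change s.σ (H * (v j + s.σ (v j))) = H * (v j + s.σ (v j))
        rw [map_mul, map_add, hH, s.inv]
        ring
      · exact hmemH _ (Submodule.add_mem _ (hv1 j) (hv2 j))
    · rw [Fin.append_right]
      constructor
      · change s.σ ((J * H) * (s.σ (v j) - v j)) = (J * H) * (s.σ (v j) - v j)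
        rw [map_mul, map_mul, map_sub, hH, s.inv, show s.σ J = - J from hI]
        ring
      · change (J * H) * (s.σ (v j) - v j) ∈ _
        rw [mul_assoc]
        exact hmemJ _ (hmemH _ (Submodule.sub_mem _ (hv2 j) (hv1 j)))
  · rw [Fin.sum_univ_add, hsum, ← Finset.sum_add_distrib]
    refine Finset.sum_congr rfl fun i _ => ?_
    rw [Fin.append_left, Fin.append_right]
    exact hab i

end Pool.Agent.Helper10.GN
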