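import Mathlib

set_option autoImplicit false

/-!
# Project GN, block OU (Mathlib only): an orthogonal matrix mapping `x` to `y`

`∑ x i² = ∑ y i²`. If `x = y` take `U = 1`. Otherwise let `v = x - y ≠ 0` and
`U = 1 - (2 / ∑ v i²) v vᵀ` (Householder reflection): symmetric, `U * U = 1`, and
`U x = x - 2 (v·x)/(v·v) v = x - v = y` because `v·v = 2 (x·x - x·y) = 2 v·x`.
-/

namespace Pool.Agent.Helper10.GN

theorem exists_orth {M : ℕ} (x y : Fin M → ℝ) (h : ∑ i, x i ^ 2 = ∑ i, y i ^ 2) :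
    ∃ U : Matrix (Fin M) (Fin M) ℝ, U.transpose * U = 1 ∧ U.mulVec x = y := by
  by_cases hxy : x = y
  · exact ⟨1, by rw [Matrix.transpose_one, one_mul], by rw [Matrix.one_mulVec, hxy]⟩
  · set v : Fin M → ℝ := x - y with hv
    have hv0 : v ≠ 0 := sub_ne_zero.2 hxy
    have hs : v ⬝ᵥ v ≠ 0 := fun h0 => hv0 (dotProduct_self_eq_zero.1 h0)
    have h1 : v ⬝ᵥ v = 2 * (v ⬝ᵥ x) := by
      have h2 : v ⬝ᵥ v - 2 * (v ⬝ᵥ x) = ∑ i, y i ^ 2 - ∑ i, x i ^ 2 := by
        simp only [dotProduct, hv, Pi.sub_apply]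
        rw [Finset.mul_sum, ← Finset.sum_sub_distrib, ← Finset.sum_sub_distrib]
        exact Finset.sum_congr rfl fun i _ => by ring
      rw [h, sub_self] at h2
      linarith
    refine ⟨1 - (2 / (v ⬝ᵥ v)) • Matrix.vecMulVec v v, ?_, ?_⟩
    · rw [Matrix.transpose_sub, Matrix.transpose_one, Matrix.transpose_smul, Matrix.transpose_vecMulVec]
      have h3 : Matrix.vecMulVec v v * Matrix.vecMulVec v v = (v ⬝ᵥ v) • Matrix.vecMulVec v v := by
        ext i j
        simp only [Matrix.mul_apply, Matrix.vecMulVec_apply, Matrix.smul_apply, smul_eq_mul, dotProduct,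
          Finset.sum_mul]
        exact Finset.sum_congr rfl fun k _ => by ring
      rw [sub_mul, mul_sub, mul_sub, one_mul, one_mul, mul_one, Matrix.smul_mul, Matrix.mul_smul, h3, smul_smul,
        smul_smul, mul_assoc (2 / (v ⬝ᵥ v)), div_mul_cancel₀ _ hs]
      rw [mul_comm (2 / (v ⬝ᵥ v)) 2, mul_smul, two_smul]
      abel
    · rw [Matrix.sub_mulVec, Matrix.one_mulVec, Matrix.smul_mulVec]
      have h4 : (Matrix.vecMulVec v v).mulVec x = (v ⬝ᵥ x) • v := by
        funext i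
        simp only [Matrix.mulVec, dotProduct, Matrix.vecMulVec_apply, Pi.smul_apply, smul_eq_mul, Finset.sum_mul]
        exact Finset.sum_congr rfl fun k _ => by ring
      rw [h4, smul_smul]
      have h5 : 2 / (v ⬝ᵥ v) * (v ⬝ᵥ x) = 1 := by
        rw [div_mul_eq_mul_div, ← h1, div_self hs]
      rw [h5, one_smul, hv, sub_sub_cancel]

end Pool.Agent.Helper10.GN
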