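import Pool.Agent.Helper10.GN.Eta
import Pool.Agent.Helper10.GN.Ou
import Pool.Agent.Helper10.GN.SosB

set_option autoImplicit false

/-!
# Project GN, block PSI: the rotated part `ψ`

`f`, `f₁` real functions regular at the marked places, `f₁ ≡ f` relatively up to order `2` there, `f = ∑ B_j²`, `f₁ = ∑ v_j²` with real functions.
`ψ` is a vector of real combinations of the `(η Q)² v_j` with leading coefficients at the marked places equal to those of `B`.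

Proof. `M = max n n₁`; extend `B` and `v` by `0` to `Fin M`. Fix `P ∈ Mk`, a real uniformizer `t` (`exists_real_unif`), and
`a` with `ord_P f = 2 a` (`Sos.posAt`, `PosAt.even`; `ord_P f₁ = 2 a` by `h₂`: `f₁ = f (1 - (f - f₁)/f)`). Then `B_j`, `v_j` have
order `≥ a` at `P` (sum of squares: `Sos.posAt`-argument: `f/t^(2a)` is regular, `∑ (B_j/t^a)²` regular implies every `B_j/t^a` regular at the real place
`P`: otherwise divide by a higher power of `t`, the squares of the real values would sum to `0`). Let `x_j = rv P (v_j/t^a)`,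
`y_j = rv P (B_j/t^a)`: `∑ x_j² = rv (f₁/t^(2a)) = rv (f/t^(2a)) = ∑ y_j²`. `exists_orth` gives `U_P` with `U_P x = y`.
`ψ i = ∑_{Q ∈ Mk} (η Q)² ∑_j (U_Q)_{ij} v_j`.
(c) at `P`: `(η P)² = 1 + O(2N)`, `(η Q)² = O(4N)` for `Q ≠ P`, so `ψ i = ∑_j (U_P)_{ij} v_j + O(a + 2N)` and
`∑_j (U_P)_{ij} v_j - B_i` has order `≥ a + 1` (its quotient by `t^a` has value `0`). `N ≥ 1`.
(d) Let `E = ∑ (η Q)²`, `v^Q = U_Q v` (so `∑_i (v^Q_i)² = f₁`). `f₁ E² - ∑_i ψ_i² = ∑_{Q,Q'} (η Q)² (η Q')² (f₁ - ∑_i v^Q_i v^{Q'}_i)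
= (1/2) ∑_{Q,Q'} (η Q)² (η Q')² ∑_i (v^Q_i - v^{Q'}_i)²`, a sum of squares of real functions.
(e) `ψ_i = v^P_i + O(a + 2N)` at `P`, all `v^P_i = O(a)`, so `∑ ψ_i² = f₁ + O(2a + 2N)`.
-/

namespace Pool.Agent.Helper10.GN

open VC FF

variable {F : Type} [Field F] [Algebra ℂ F] {s : RStr F} {hF : IsFunctionField ℂ F}

omit [Algebra ℂ F] in
private theorem sum_ext46 {n M : ℕ} (h : n ≤ M) (g : Fin n → F) :
    ∑ i : Fin M, (if h : (i : ℕ) < n then g ⟨i, h⟩ else 0) = ∑ i, g i := by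
  obtain ⟨k, rfl⟩ := Nat.exists_eq_add_of_le h
  rw [Fin.sum_univ_add]
  simp

/-- the rotated vector -/
private def rot46 {M : ℕ} (U : Matrix (Fin M) (Fin M) ℝ) (v : Fin M → F) (i : Fin M) : F :=
  ∑ j, algebraMap ℂ F (U i j : ℂ) * v j

private theorem rot_sq46 {M : ℕ} (U : Matrix (Fin M) (Fin M) ℝ) (hU : U.transpose * U = 1) (v : Fin M → F) :
    ∑ i, rot46 U v i ^ 2 = ∑ j, v j ^ 2 := by
  set φ : ℝ →+* F := (algebraMap ℂ F).comp Complex.ofRealHom with hφ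
  have h1 : ∀ i, rot46 U v i = ((U.map φ).mulVec v) i := fun i => rfl
  have h2 : (U.map φ).transpose * U.map φ = 1 := by
    rw [← Matrix.transpose_map, ← Matrix.map_mul, hU]
    exact Matrix.map_one φ (map_zero φ) (map_one φ)
  have h3 : (U.map φ).mulVec v ⬝ᵥ (U.map φ).mulVec v = v ⬝ᵥ v := by
    rw [Matrix.dotProduct_mulVec, ← Matrix.mulVec_transpose, Matrix.mulVec_mulVec, h2, Matrix.one_mulVec]
  calc ∑ i, rot46 U v i ^ 2 = (U.map φ).mulVec v ⬝ᵥ (U.map φ).mulVec v := by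
        unfold dotProduct
        exact Finset.sum_congr rfl fun i _ => by rw [h1, sq]
    _ = v ⬝ᵥ v := h3
    _ = ∑ j, v j ^ 2 := by
        unfold dotProduct
        exact Finset.sum_congr rfl fun i _ => (sq _).symm

private theorem rot_real46 {M : ℕ} (U : Matrix (Fin M) (Fin M) ℝ) (v : Fin M → F) (hv : ∀ j, s.σ (v j) = v j)
    (i : Fin M) : s.σ (rot46 U v i) = rot46 U v i := by
  unfold rot46
  rw [map_sum]
  refine Finset.sum_congr rfl fun j _ => ?_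
  rw [map_mul, s.alg, Complex.conj_ofReal, hv]

include hF in
private theorem rot_oge46 {P : Place ℂ F} {M : ℕ} (U : Matrix (Fin M) (Fin M) ℝ) (v : Fin M → F) (a : ℤ)
    (hv : ∀ j, Oge P a (v j)) (i : Fin M) : Oge P a (rot46 U v i) := by
  refine oge_sum hF _ _ fun j _ => ?_
  have := oge_mul hF (oge_alg hF (P := P) (U i j : ℂ)) (hv j)
  rwa [zero_add] at this

include hF in
private theorem oge_of_sos46 {P : Place ℂ F} (hP : s.cj P = P) {x y : F} (hx : s.σ x = x) (hy : Sos s y) (a : ℤ)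
    (h : Oge P (2 * a) (x ^ 2 + y)) : Oge P a x := by
  rcases eq_or_ne x 0 with h0 | h0
  · exact Or.inl h0
  refine Or.inr ?_
  by_contra hcon
  push Not at hcon
  have hx2 : x ^ 2 ≠ 0 := pow_ne_zero 2 h0
  have hz : Sos s (y / x ^ 2) := Sos.div hy (Sos.sq hx)
  have h1 : Oge P 1 (1 + y / x ^ 2) := by
    have e : 1 + y / x ^ 2 = (x ^ 2 + y) / x ^ 2 := by
      field_simp
    rw [e, oge_div_iff hF hx2, FF.ord_pow hF P h0]
    refine h.mono ?_
    push_cast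
    omega
  have h2 : 1 + y / x ^ 2 ∈ P.ring := (oge_zero_iff hF).1 (h1.mono (by norm_num))
  have h3 : y / x ^ 2 ∈ P.ring := by
    have := P.ring.toSubring.sub_mem h2 P.ring.one_mem
    rwa [add_sub_cancel_left] at this
  have h4 := (vl_eq_zero hF h2).2 h1
  have h5 : rv hF P (1 + y / x ^ 2) = 0 := by
    unfold rv
    rw [h4, Complex.zero_re]
  rw [rv_add hF P.ring.one_mem h3] at h5
  have h6 : rv hF P (1 : F) = 1 := by
    unfold rv
    rw [vl_one, Complex.one_re]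
  have h7 := hz.rv_nonneg (hF := hF) hP h3
  linarith

include hF in
private theorem oge_each46 {P : Place ℂ F} (hP : s.cj P = P) {M : ℕ} (g : Fin M → F) (hg : ∀ j, s.σ (g j) = g j)
    (a : ℤ) (h : Oge P (2 * a) (∑ j, g j ^ 2)) (j : Fin M) : Oge P a (g j) := by
  classical
  rw [← Finset.add_sum_erase _ _ (Finset.mem_univ j)] at h
  exact oge_of_sos46 (hF := hF) hP (hg j) (Sos.sum _ _ fun i _ => Sos.sq (hg i)) a h

include hF in
private theorem exists_rot46 {P : Place ℂ F} (hP : s.cj P = P) {M : ℕ} (B v : Fin M → F)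
    (hB : ∀ j, s.σ (B j) = B j) (hv : ∀ j, s.σ (v j) = v j) (hf : ∑ j, B j ^ 2 ≠ 0)
    (h₂ : Oge P 2 ((∑ j, B j ^ 2 - ∑ j, v j ^ 2) / ∑ j, B j ^ 2)) :
    ∃ U : Matrix (Fin M) (Fin M) ℝ, U.transpose * U = 1 ∧ ∀ a : ℤ, ord P.ring (∑ j, B j ^ 2) = 2 * a →
      (∀ i, Oge P a (v i)) ∧ ∀ i, Oge P (a + 1) (rot46 U v i - B i) := by
  set f := ∑ j, B j ^ 2 with hfd
  set f₁ := ∑ j, v j ^ 2 with hf₁d
  have hsf : Sos s f := Sos.sum _ _ fun i _ => Sos.sq (hB i)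
  obtain ⟨a, ha⟩ := (hsf.posAt (hF := hF) hf hP).even
  have h1 : Oge P (2 * a) f := Or.inr ha.ge
  have h2 : Oge P (2 * a) f₁ := by
    have e : f₁ = f - f * ((f - f₁) / f) := by
      field_simp
      ring
    rw [e]
    refine oge_sub hF h1 ?_
    exact (oge_mul hF h1 h₂).mono (by omega)
  have hBa := oge_each46 (hF := hF) hP B hB a h1
  have hva := oge_each46 (hF := hF) hP v hv a h2
  obtain ⟨π, hπ0, hπσ, hπ⟩ := exists_real_unif s hF hP
  obtain ⟨u, hu⟩ : ∃ u, u = π ^ a := ⟨_, rfl⟩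
  have hu0 : u ≠ 0 := by rw [hu]; exact zpow_ne_zero _ hπ0
  have huσ : s.σ u = u := by rw [hu, map_zpow₀, hπσ]
  have huo : ord P.ring u = a := by
    rw [hu, FF.ord_zpow hF P hπ0, hπ, mul_one]
  have hBr : ∀ j, B j / u ∈ P.ring := fun j => by
    rw [← oge_zero_iff hF, oge_div_iff hF hu0, huo, zero_add]
    exact hBa j
  have hvr : ∀ j, v j / u ∈ P.ring := fun j => by
    rw [← oge_zero_iff hF, oge_div_iff hF hu0, huo, zero_add]
    exact hva j
  have hBσ : ∀ j, s.σ (B j / u) = B j / u := fun j => by rw [map_div₀, hB, huσ]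
  have hvσ : ∀ j, s.σ (v j / u) = v j / u := fun j => by rw [map_div₀, hv, huσ]
  have sq_sum : ∀ g : Fin M → F, (∀ j, g j / u ∈ P.ring) → (∀ j, s.σ (g j / u) = g j / u) →
      (∑ j, g j ^ 2) / u ^ 2 ∈ P.ring ∧ rv hF P ((∑ j, g j ^ 2) / u ^ 2) = ∑ j, rv hF P (g j / u) ^ 2 := by
    intro g hg hgσ
    have e : (∑ j, g j ^ 2) / u ^ 2 = ∑ j, (g j / u) ^ 2 := by
      rw [Finset.sum_div]
      exact Finset.sum_congr rfl fun i _ => (div_pow _ _ _).symm
    have h3 : ∀ j, (g j / u) ^ 2 ∈ P.ring := fun j => P.ring.toSubring.pow_mem (hg j) 2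
    rw [e]
    refine ⟨P.ring.toSubring.sum_mem fun i _ => h3 i, ?_⟩
    rw [rv_sum hF _ _ fun i _ => h3 i]
    exact Finset.sum_congr rfl fun j _ => rv_pow s hF hP (hg j) (hgσ j) 2
  obtain ⟨hfr, hfv⟩ := sq_sum B hBr hBσ
  obtain ⟨hf₁r, hf₁v⟩ := sq_sum v hvr hvσ
  rw [← hfd] at hfr hfv
  rw [← hf₁d] at hf₁r hf₁v
  have heq : rv hF P (f₁ / u ^ 2) = rv hF P (f / u ^ 2) := by
    have h3 : Oge P 1 (f / u ^ 2 - f₁ / u ^ 2) := by
      have e : f / u ^ 2 - f₁ / u ^ 2 = ((f - f₁) / f) * (f / u ^ 2) := by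
        field_simp
      rw [e]
      have h4 := oge_mul hF h₂ ((oge_zero_iff hF).2 hfr)
      exact h4.mono (by norm_num)
    have h5 := (vl_eq_zero hF (P.ring.toSubring.sub_mem hfr hf₁r)).2 h3
    have h6 : rv hF P (f / u ^ 2 - f₁ / u ^ 2) = 0 := by
      unfold rv
      rw [h5, Complex.zero_re]
    rw [rv_sub hF hfr hf₁r] at h6
    linarith
  obtain ⟨U, hU, hUx⟩ := exists_orth (fun j => rv hF P (v j / u)) (fun j => rv hF P (B j / u)) (by
    rw [← hfv, ← hf₁v, heq])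
  refine ⟨U, hU, fun a' ha' => ?_⟩
  have haa : a' = a := by omega
  subst haa
  refine ⟨hva, fun i => ?_⟩
  have h3 : Oge P 1 ((rot46 U v i - B i) / u) := by
    have e : (rot46 U v i - B i) / u = ∑ j, algebraMap ℂ F (U i j : ℂ) * (v j / u) - B i / u := by
      unfold rot46
      rw [sub_div, Finset.sum_div]
      congr 1
      exact Finset.sum_congr rfl fun j _ => by rw [mul_div_assoc]
    have hm : ∀ j, algebraMap ℂ F (U i j : ℂ) * (v j / u) ∈ P.ring := fun j =>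
      P.ring.mul_mem _ _ (P.algebraMap_mem _) (hvr j)
    have hm' : ∑ j, algebraMap ℂ F (U i j : ℂ) * (v j / u) ∈ P.ring := P.ring.toSubring.sum_mem fun j _ => hm j
    rw [e, ← vl_eq_zero hF (P.ring.toSubring.sub_mem hm' (hBr i)), vl_sub hF hm' (hBr i),
      vl_sum hF _ _ fun j _ => hm j, sub_eq_zero, vl_real s hF hP (hBσ i)]
    have h4 : (∑ j, U i j * rv hF P (v j / u)) = rv hF P (B i / u) := congrFun hUx i
    rw [← h4, Complex.ofReal_sum]
    refine Finset.sum_congr rfl fun j _ => ?_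
    rw [vl_mul hF (P.algebraMap_mem _) (hvr j), vl_alg, vl_real s hF hP (hvσ j), Complex.ofReal_mul]
  rw [oge_div_iff hF hu0, huo] at h3
  rwa [add_comm a' 1]

theorem exists_psi {S Mk Zs : Finset (Place ℂ F)} {N : ℕ} {θ : F} {η : Place ℂ F → F}
    (he : EtaData s hF S Mk Zs N θ η) (hN : 1 ≤ N) (hMk : ∀ P ∈ Mk, s.cj P = P) {f f₁ : F}
    (hf : f ≠ 0) (h₂ : ∀ P ∈ Mk, Oge P 2 ((f - f₁) / f)) {n n₁ : ℕ} (B : Fin n → F)
    (hB : ∀ j, s.σ (B j) = B j) (hfB : f = ∑ j, B j ^ 2) (v : Fin n₁ → F)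
    (hv : ∀ j, s.σ (v j) = v j) (hfv : f₁ = ∑ j, v j ^ 2) :
    ∃ (M : ℕ) (ψ : Fin M → F), n ≤ M ∧ (∀ i, s.σ (ψ i) = ψ i) ∧
      (∀ i, ∃ c : Place ℂ F → Fin n₁ → ℝ,
        ψ i = ∑ Q ∈ Mk, ∑ j, algebraMap ℂ F (c Q j : ℂ) * (η Q ^ 2 * v j)) ∧
      (∀ P ∈ Mk, ∀ (i : Fin M) (a : ℤ), ord P.ring f = 2 * a →
        Oge P (a + 1) (ψ i - if h : (i : ℕ) < n then B ⟨i, h⟩ else 0)) ∧
      Sos s (f₁ * (∑ Q ∈ Mk, η Q ^ 2) ^ 2 - ∑ i, ψ i ^ 2) ∧
      ∀ P ∈ Mk, Oge P (ord P.ring f + 2 * N) (f₁ - ∑ i, ψ i ^ 2) := by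
  classical
  obtain ⟨M, hM⟩ : ∃ M, M = max n n₁ := ⟨_, rfl⟩
  have hnM : n ≤ M := hM ▸ le_max_left _ _
  have hn₁M : n₁ ≤ M := hM ▸ le_max_right _ _
  obtain ⟨B', hB'⟩ : ∃ B' : Fin M → F, B' = fun i : Fin M => if h : (i : ℕ) < n then B ⟨i, h⟩ else 0 := ⟨_, rfl⟩
  obtain ⟨v', hv'⟩ : ∃ v' : Fin M → F, v' = fun i : Fin M => if h : (i : ℕ) < n₁ then v ⟨i, h⟩ else 0 := ⟨_, rfl⟩
  have hBσ : ∀ j, s.σ (B' j) = B' j := fun j => by
    rw [hB']
    dsimp only
    split_ifs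
    · exact hB _
    · exact map_zero _
  have hvσ : ∀ j, s.σ (v' j) = v' j := fun j => by
    rw [hv']
    dsimp only
    split_ifs
    · exact hv _
    · exact map_zero _
  have hfB' : f = ∑ j, B' j ^ 2 := by
    rw [hfB, ← sum_ext46 hnM (fun j => B j ^ 2), hB']
    refine Finset.sum_congr rfl fun j _ => ?_
    dsimp only
    split_ifs
    · rfl
    · rw [zero_pow two_ne_zero]
  have hfv' : f₁ = ∑ j, v' j ^ 2 := by
    rw [hfv, ← sum_ext46 hn₁M (fun j => v j ^ 2), hv']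
    refine Finset.sum_congr rfl fun j _ => ?_
    dsimp only
    split_ifs
    · rfl
    · rw [zero_pow two_ne_zero]
  have hex : ∀ P : Place ℂ F, ∃ U : Matrix (Fin M) (Fin M) ℝ, P ∈ Mk → (U.transpose * U = 1 ∧
      ∀ a : ℤ, ord P.ring f = 2 * a → (∀ i, Oge P a (v' i)) ∧ ∀ i, Oge P (a + 1) (rot46 U v' i - B' i)) := by
    intro P
    by_cases hP : P ∈ Mk
    · obtain ⟨U, hU⟩ := exists_rot46 (hF := hF) (hMk P hP) B' v' hBσ hvσ (by rw [← hfB']; exact hf)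
        (by rw [← hfB', ← hfv']; exact h₂ P hP)
      rw [← hfB'] at hU
      exact ⟨U, fun _ => hU⟩
    · exact ⟨1, fun h => absurd h hP⟩
  choose U hU using hex
  obtain ⟨ψ, hψ⟩ : ∃ ψ : Fin M → F, ψ = fun i => ∑ Q ∈ Mk, η Q ^ 2 * rot46 (U Q) v' i := ⟨_, rfl⟩
  have hsos : Sos s f := by
    rw [hfB']
    exact Sos.sum _ _ fun i _ => Sos.sq (hBσ i)
  -- the main estimate at a marked place
  have hmain : ∀ P ∈ Mk, ∀ a : ℤ, ord P.ring f = 2 * a → ∀ i, Oge P (a + 2 * N) (ψ i - rot46 (U P) v' i) := by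
    intro P hP a ha i
    have hva := ((hU P hP).2 a ha).1
    have hW : ∀ Q, Oge P a (rot46 (U Q) v' i) := fun Q => rot_oge46 (hF := hF) (U Q) v' a hva i
    have e : ψ i - rot46 (U P) v' i = (η P - 1) * (η P + 1) * rot46 (U P) v' i +
        ∑ Q ∈ Mk.erase P, η Q ^ 2 * rot46 (U Q) v' i := by
      rw [hψ]
      dsimp only
      rw [← Finset.add_sum_erase _ _ hP]
      ring
    have h1 := he.η_one P hP
    have h2 : Oge P 0 (η P + 1) := by
      have e2 : η P + 1 = (η P - 1) + algebraMap ℂ F 2 := by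
        rw [map_ofNat]
        ring
      rw [e2]
      exact oge_add hF (h1.mono (by positivity)) (oge_alg hF _)
    rw [e]
    refine oge_add hF ?_ (oge_sum hF _ _ fun Q hQ => ?_)
    · have := oge_mul hF (oge_mul hF h1 h2) (hW P)
      exact this.mono (by omega)
    · have h3 := he.η_zero Q (Finset.mem_of_mem_erase hQ) P hP (Finset.ne_of_mem_erase hQ).symm
      have := oge_mul hF (oge_pow hF h3 2) (hW Q)
      refine this.mono ?_
      push_cast
      omega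
  refine ⟨M, ψ, hnM, ?_, ?_, ?_, ?_, ?_⟩
  · intro i
    rw [hψ]
    dsimp only
    rw [map_sum]
    refine Finset.sum_congr rfl fun Q hQ => ?_
    rw [map_mul, map_pow, he.η_real Q hQ, rot_real46 (s := s) (U Q) v' hvσ i]
  · intro i
    refine ⟨fun Q j => U Q i ⟨j, lt_of_lt_of_le j.2 hn₁M⟩, ?_⟩
    rw [hψ]
    dsimp only
    refine Finset.sum_congr rfl fun Q _ => ?_
    unfold rot46
    rw [Finset.mul_sum, ← sum_ext46 hn₁M (fun j => algebraMap ℂ F (U Q i ⟨j, lt_of_lt_of_le j.2 hn₁M⟩ : ℂ) *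
      (η Q ^ 2 * v j))]
    refine Finset.sum_congr rfl fun j _ => ?_
    rw [hv']
    dsimp only
    split_ifs
    · ring
    · rw [mul_zero, mul_zero]
  · intro P hP i a ha
    have h1 := ((hU P hP).2 a ha).2 i
    have h2 := hmain P hP a ha i
    have e : ψ i - (if h : (i : ℕ) < n then B ⟨i, h⟩ else 0) =
        (ψ i - rot46 (U P) v' i) + (rot46 (U P) v' i - B' i) := by
      rw [hB']
      ring
    rw [e]
    exact oge_add hF (h2.mono (by omega)) h1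
  · have hid : f₁ * (∑ Q ∈ Mk, η Q ^ 2) ^ 2 - ∑ i, ψ i ^ 2 =
        ∑ Q ∈ Mk, ∑ R ∈ Mk, ∑ i, algebraMap ℂ F ((1 / 2 : ℝ) : ℂ) *
          (η Q * η R * (rot46 (U Q) v' i - rot46 (U R) v' i)) ^ 2 := by
      have h2 : ∀ Q ∈ Mk, ∑ i, rot46 (U Q) v' i ^ 2 = f₁ := fun Q hQ => by
        rw [rot_sq46 (U Q) (hU Q hQ).1 v', hfv']
      have h3 : ∀ Q ∈ Mk, ∀ R ∈ Mk, ∑ i, algebraMap ℂ F ((1 / 2 : ℝ) : ℂ) *
          (η Q * η R * (rot46 (U Q) v' i - rot46 (U R) v' i)) ^ 2 =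
          η Q ^ 2 * η R ^ 2 * f₁ - ∑ i, (η Q ^ 2 * rot46 (U Q) v' i) * (η R ^ 2 * rot46 (U R) v' i) := by
        intro Q hQ R hR
        have e1 : algebraMap ℂ F ((1 / 2 : ℝ) : ℂ) = 1 / 2 := by
          rw [Complex.ofReal_div, map_div₀, Complex.ofReal_one, Complex.ofReal_ofNat, map_one, map_ofNat]
        have two_ne : (2 : F) ≠ 0 := by
          have h : algebraMap ℂ F 2 ≠ 0 := (_root_.map_ne_zero _).mpr two_ne_zero
          rwa [map_ofNat] at h
        have e2 : η Q ^ 2 * η R ^ 2 * f₁ = 1 / 2 * (η Q ^ 2 * η R ^ 2 * ∑ i, rot46 (U Q) v' i ^ 2) +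
            1 / 2 * (η Q ^ 2 * η R ^ 2 * ∑ i, rot46 (U R) v' i ^ 2) := by
          rw [h2 Q hQ, h2 R hR]
          field_simp
          ring
        rw [e2, e1, Finset.mul_sum, Finset.mul_sum, Finset.mul_sum, Finset.mul_sum, ← Finset.sum_add_distrib,
          ← Finset.sum_sub_distrib]
        refine Finset.sum_congr rfl fun i _ => ?_
        field_simp
        ring
      have h4 : ∑ i, ψ i ^ 2 = ∑ Q ∈ Mk, ∑ R ∈ Mk, ∑ i, (η Q ^ 2 * rot46 (U Q) v' i) *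
          (η R ^ 2 * rot46 (U R) v' i) := by
        have e1 : ∀ i, ψ i ^ 2 = ∑ Q ∈ Mk, ∑ R ∈ Mk, (η Q ^ 2 * rot46 (U Q) v' i) *
            (η R ^ 2 * rot46 (U R) v' i) := by
          intro i
          rw [hψ]
          dsimp only
          rw [sq, Finset.sum_mul_sum]
        rw [Finset.sum_congr rfl fun i _ => e1 i, Finset.sum_comm]
        exact Finset.sum_congr rfl fun Q _ => Finset.sum_comm
      have h5 : f₁ * (∑ Q ∈ Mk, η Q ^ 2) ^ 2 = ∑ Q ∈ Mk, ∑ R ∈ Mk, η Q ^ 2 * η R ^ 2 * f₁ := by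
        rw [sq, Finset.sum_mul_sum, Finset.mul_sum]
        refine Finset.sum_congr rfl fun Q _ => ?_
        rw [Finset.mul_sum]
        exact Finset.sum_congr rfl fun R _ => by ring
      rw [h4, h5, ← Finset.sum_sub_distrib]
      refine Finset.sum_congr rfl fun Q hQ => ?_
      rw [← Finset.sum_sub_distrib]
      exact Finset.sum_congr rfl fun R hR => (h3 Q hQ R hR).symm
    rw [hid]
    refine Sos.sum _ _ fun Q hQ => Sos.sum _ _ fun R hR => Sos.sum _ _ fun i _ =>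
      Sos.mul (Sos.const (by norm_num)) (Sos.sq ?_)
    rw [map_mul, map_mul, map_sub, he.η_real Q hQ, he.η_real R hR, rot_real46 (s := s) (U Q) v' hvσ i,
      rot_real46 (s := s) (U R) v' hvσ i]
  · intro P hP
    obtain ⟨a, ha⟩ := (hsos.posAt (hF := hF) hf (hMk P hP)).even
    have hva := ((hU P hP).2 a ha).1
    have e : f₁ - ∑ i, ψ i ^ 2 = ∑ i, -((ψ i - rot46 (U P) v' i) *
        ((ψ i - rot46 (U P) v' i) + (rot46 (U P) v' i + rot46 (U P) v' i))) := by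
      rw [hfv', ← rot_sq46 (U P) (hU P hP).1 v', ← Finset.sum_sub_distrib]
      exact Finset.sum_congr rfl fun i _ => by ring
    rw [e, ha]
    refine oge_sum hF _ _ fun i _ => oge_neg hF ?_
    have h1 := hmain P hP a ha i
    have h2 : Oge P a (rot46 (U P) v' i) := rot_oge46 (hF := hF) (U P) v' a hva i
    have h3 := oge_mul hF h1 (oge_add hF (h1.mono (m := a) (by omega)) (oge_add hF h2 h2))
    exact h3.mono (by omega)

end Pool.Agent.Helper10.GN
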