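import Pool.Agent.Helper10.GN.Irc

set_option autoImplicit false

/-!
# Project GN, block CVE: existence of the function field of the curve

`B = ℂ[x,y] / (cx p)` is a domain (`irred_cx`, `Ideal.span_singleton_prime`), `F = FractionRing B` with the
`ℂ`-algebra structure, `π = algebraMap ∘ mk`. `cjp` maps the ideal `(cx p)` to itself (`cjp_cx`), so it induces a
ring automorphism of `B` (`Ideal.quotientEquiv` or `Ideal.Quotient.lift`) and of `F` (`IsFractionRing.ringEquivOfRingEquiv`),
semilinear over conjugation. `IsFunctionField`: `p` involves one of the variables, say `X 1` (otherwise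
exchange); then `t = π (X 0)` is transcendental over `ℂ`: if `h(t) = 0`, `h ∈ ℂ[T]`, `h ≠ 0`, then `cx p ∣ h(X 0)`, so `p` does not
involve `X 1` (degree in `X 1`, `MvPolynomial.degreeOf`), contradiction; and `π (X 1)` is algebraic over `ℂ(t)` (a root of
`cx p`, a nonzero polynomial in `X 1` over `ℂ(t)`: its leading coefficient in `X 1` is not divisible by `cx p`), `F = ℂ(t, π (X 1))`.
-/

namespace Pool.Agent.Helper10.GN

open VC FF MvPolynomial Pool.Agent.Helper68.QM

section ff88

variable {F : Type} [Field F] [Algebra ℂ F]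

/-- if both coordinates are constants, then `q` is not irreducible -/
private lemma not_const88 (π : CP →ₐ[ℂ] F) (q : CP) (hq : Irreducible q)
    (hker : ∀ h, π h = 0 ↔ q ∣ h) (c : Fin 2 → ℂ)
    (hc : ∀ i, algebraMap ℂ F (c i) = π (X i)) : False := by
  have h1 : ∀ i, q ∣ (X i - C (c i) : CP) := by
    intro i
    rw [← hker, map_sub, ← hc i]
    have h2 : π (C (c i)) = algebraMap ℂ F (c i) := by
      rw [← MvPolynomial.algebraMap_eq, AlgHom.commutes]
    rw [h2, sub_self]
  have hne : ∀ i, (X i - C (c i) : CP) ≠ 0 := by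
    intro i h0
    have h2 := congrArg (eval (fun _ => c i + 1)) h0
    simp at h2
  have hdeg : ∀ i, (X i - C (c i) : CP).totalDegree ≤ 1 := by
    intro i
    refine (totalDegree_sub _ _).trans ?_
    rw [totalDegree_X, totalDegree_C]
    exact le_rfl
  obtain ⟨u, hu⟩ := h1 0
  obtain ⟨v, hv⟩ := h1 1
  have hq0 : q ≠ 0 := hq.ne_zero
  have hu0 : u ≠ 0 := by
    rintro rfl
    exact hne 0 (by rw [hu, mul_zero])
  have h3 := hdeg 0
  rw [hu, totalDegree_mul_of_isDomain hq0 hu0] at h3
  have h4 : q.totalDegree ≠ 0 := by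
    intro h0
    rw [totalDegree_eq_zero_iff_eq_C] at h0
    apply hq.not_isUnit
    rw [h0]
    apply IsUnit.map
    rw [isUnit_iff_ne_zero]
    intro h5
    rw [h5, C_0] at h0
    exact hq0 h0
  have h5 : u.totalDegree = 0 := by omega
  rw [totalDegree_eq_zero_iff_eq_C] at h5
  have hc0 : coeff 0 u ≠ 0 := by
    intro h6
    rw [h6, C_0] at h5
    exact hu0 h5
  -- at the point `(c 0, c 1 + 1)`
  have h6 := congrArg (eval (![c 0, c 1 + 1] : Fin 2 → ℂ)) hu
  have h7 := congrArg (eval (![c 0, c 1 + 1] : Fin 2 → ℂ)) hv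
  rw [h5] at h6
  simp only [map_sub, map_mul, eval_X, eval_C, Matrix.cons_val_zero, Matrix.cons_val_one,
    sub_self, add_sub_cancel_left] at h6 h7
  have h8 : eval (![c 0, c 1 + 1] : Fin 2 → ℂ) q = 0 :=
    (mul_eq_zero.mp h6.symm).resolve_right hc0
  rw [h8, zero_mul] at h7
  exact one_ne_zero h7

private lemma isFF88 (π : CP →ₐ[ℂ] F) (q : CP) (hq : Irreducible q)
    (hker : ∀ h, π h = 0 ↔ q ∣ h) (hfrac : ∀ f : F, ∃ a b : CP, π b ≠ 0 ∧ f = π a / π b) :
    IsFunctionField ℂ F := by
  obtain ⟨j, hj⟩ : ∃ j, Transcendental ℂ (π (X j)) := by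
    by_contra hcon
    push Not at hcon
    choose c hc using fun i => FF.exists_const_of_not_transcendental (hcon i)
    exact not_const88 π q hq hker c hc
  obtain ⟨i, hij⟩ : ∃ i : Fin 2, i ≠ j := exists_ne j
  have hall : ∀ l : Fin 2, l ≠ i → l = j := by
    intro l hl
    omega
  -- the other coordinate is algebraic
  have hni : ¬ AlgebraicIndependent ℂ (fun l : Fin 2 => π (X l)) := by
    intro h
    rw [algebraicIndependent_iff_injective_aeval] at h
    have h1 : π = aeval (fun l : Fin 2 => π (X l)) := aeval_unique π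
    have h2 : π q = 0 := (hker q).mpr dvd_rfl
    rw [h1] at h2
    exact hq.ne_zero (h (by rw [h2, map_zero]))
  have halg : IsAlgebraic (IntermediateField.adjoin ℂ {π (X j)}) (π (X i)) := by
    rw [IntermediateField.isAlgebraic_adjoin_iff]
    by_contra hcon
    apply hni
    rw [AlgebraicIndependent.iff_transcendental_adjoin_image i]
    have hset : (fun l : Fin 2 => π (X l)) '' {i}ᶜ = {π (X j)} := by
      ext z
      constructor
      · rintro ⟨l, hl, rfl⟩
        have h1 : l = j := hall l hl
        rw [h1]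
        rfl
      · rintro rfl
        exact ⟨j, fun h => hij (Set.mem_singleton_iff.mp h).symm, rfl⟩
    rw [hset]
    refine ⟨?_, hcon⟩
    let _ : Unique {l : Fin 2 // l ≠ i} :=
      { default := ⟨j, hij.symm⟩
        uniq := fun l => Subtype.ext (hall l.1 l.2) }
    rw [algebraicIndependent_unique_type_iff]
    exact hj
  refine ⟨π (X j), hj, ?_⟩
  have hfd : FiniteDimensional (IntermediateField.adjoin ℂ {π (X j)})
      (IntermediateField.adjoin (IntermediateField.adjoin ℂ {π (X j)}) {π (X i)}) :=
    IntermediateField.adjoin.finiteDimensional halg.isIntegral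
  have hpi : ∀ a : CP, π a ∈
      IntermediateField.adjoin (IntermediateField.adjoin ℂ {π (X j)}) {π (X i)} := by
    intro a
    induction a using MvPolynomial.induction_on with
    | C c =>
      have h1 : π (C c) = algebraMap (IntermediateField.adjoin ℂ {π (X j)}) F
          (algebraMap ℂ (IntermediateField.adjoin ℂ {π (X j)}) c) := by
        rw [← MvPolynomial.algebraMap_eq, AlgHom.commutes]
        rfl
      rw [h1]
      exact IntermediateField.algebraMap_mem _ _
    | add a b ha hb =>
      rw [map_add]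
      exact add_mem ha hb
    | mul_X a l ha =>
      rw [map_mul]
      refine mul_mem ha ?_
      by_cases hl : l = i
      · rw [hl]
        exact IntermediateField.mem_adjoin_simple_self _ _
      · rw [hall l hl]
        have h1 : π (X j) = algebraMap (IntermediateField.adjoin ℂ {π (X j)}) F
            ⟨π (X j), IntermediateField.mem_adjoin_simple_self ℂ _⟩ := rfl
        rw [h1]
        exact IntermediateField.algebraMap_mem _ _
  refine Module.Finite.of_surjective (R := IntermediateField.adjoin ℂ {π (X j)})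
    (M := IntermediateField.adjoin (IntermediateField.adjoin ℂ {π (X j)}) {π (X i)})
    (IntermediateField.val _).toLinearMap ?_
  intro f
  obtain ⟨a, b, _, rfl⟩ := hfrac f
  exact ⟨⟨π a / π b, div_mem (hpi a) (hpi b)⟩, rfl⟩

end ff88

theorem exists_crv {p : A} (hp : Irreducible p) (hsc : SC p) :
    ∃ (F : Type) (_ : Field F) (_ : Algebra ℂ F) (s : RStr F) (π : CP →ₐ[ℂ] F),
      IsFunctionField ℂ F ∧ IsCrv p s π := by
  have hq : Irreducible (cx p) := irred_cx hp hsc
  have hqp : Prime (cx p) := hq.prime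
  let I : Ideal CP := Ideal.span {cx p}
  have hI : I.IsPrime := (Ideal.span_singleton_prime hqp.ne_zero).mpr hqp
  let B : Type := CP ⧸ I
  have hB : IsDomain B := Ideal.Quotient.isDomain I
  let F : Type := FractionRing B
  let π : CP →ₐ[ℂ] F := (IsScalarTower.toAlgHom ℂ B F).comp (Ideal.Quotient.mkₐ ℂ I)
  have hπ : ∀ h, π h = algebraMap B F (Ideal.Quotient.mk I h) := fun h => rfl
  have hinj : Function.Injective (algebraMap B F) := IsFractionRing.injective B F
  have hker : ∀ h, π h = 0 ↔ cx p ∣ h := by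
    intro h
    rw [hπ, map_eq_zero_iff _ hinj, Ideal.Quotient.eq_zero_iff_mem, Ideal.mem_span_singleton]
  have hfrac : ∀ f : F, ∃ a b : CP, π b ≠ 0 ∧ f = π a / π b := by
    intro f
    obtain ⟨x, y, hy, rfl⟩ := IsFractionRing.div_surjective B f
    obtain ⟨a, rfl⟩ := Ideal.Quotient.mk_surjective x
    obtain ⟨b, rfl⟩ := Ideal.Quotient.mk_surjective y
    refine ⟨a, b, ?_, rfl⟩
    rw [hπ, Ne, map_eq_zero_iff _ hinj]
    exact nonZeroDivisors.ne_zero hy
  let ce : CP ≃+* CP := RingEquiv.ofRingHom cjp cjp (RingHom.ext cjp_cjp) (RingHom.ext cjp_cjp)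
  have hce : ∀ h, ce h = cjp h := fun h => rfl
  have hIJ : I = Ideal.map (ce : CP →+* CP) I := by
    rw [Ideal.map_span, Set.image_singleton]
    have h1 : (ce : CP →+* CP) (cx p) = cx p := cjp_cx p
    rw [h1]
  let eB : B ≃+* B := Ideal.quotientEquiv I I ce hIJ
  have heB : ∀ h, eB (Ideal.Quotient.mk I h) = Ideal.Quotient.mk I (cjp h) := fun h =>
    Ideal.quotientEquiv_mk I I ce hIJ h
  let σ : F ≃+* F := IsFractionRing.ringEquivOfRingEquiv eB
  have hσ : ∀ h, σ (π h) = π (cjp h) := by
    intro h
    rw [hπ, hπ, ← heB]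
    exact IsFractionRing.ringEquivOfRingEquiv_algebraMap eB _
  have hC : ∀ c : ℂ, algebraMap ℂ F c = π (C c) := by
    intro c
    rw [← MvPolynomial.algebraMap_eq, AlgHom.commutes]
  let s : RStr F :=
    { σ := σ
      alg := by
        intro c
        rw [hC, hσ, cjp_C, hC]
      inv := by
        intro f
        obtain ⟨a, b, _, rfl⟩ := hfrac f
        rw [map_div₀, map_div₀, hσ, hσ, hσ, hσ, cjp_cjp, cjp_cjp] }
  exact ⟨F, inferInstance, inferInstance, s, π, isFF88 π (cx p) hq hker hfrac,
    { ker := hker, frac := hfrac, conj := hσ }⟩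

end Pool.Agent.Helper10.GN
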