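import Pool.Agent.Helper10.GN.Smp
import Pool.Agent.Helper10.GN.Cve

set_option autoImplicit false

/-!
# Project GN, block REA: infinitely many real points and places

`infinite_zeros`: `p` is positive at `z₁` and negative at `z₂`, also near them. Let `v = z₂ - z₁`, `n` a vector not parallel to
`v`; for small real `e` the polynomial `p` changes sign on the segment from `z₁ + e n` to `z₂ + e n`, so it has a zero there
(intermediate value theorem); zeros for different `e` are different. Also for every finite set of excluded points.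
`infinite_real`: only finitely many points `z` of the curve have `∂p/∂X_i(z) = 0` for an `i` with `π (pderiv i (cx p)) ≠ 0`
(`finite_common`, `IsCrv.pderiv_ne_zero`), so there are infinitely many real smooth points; over each of them there is a place
(`exists_over`), it is real (`real_smooth`), and different points have different places (`over_inj`).
`exists_real_off`: `exists_crv` (block CVE; or argue with `Irreducible` and finiteness of common zeros directly): only finitely many points of the curve are zeros of `h` or of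
`pderiv i p` (`finite_common`, `IsCrv.eq_zero_iff`, `IsCrv.pderiv_ne_zero`), but there are infinitely many real zeros of `p`.
-/

namespace Pool.Agent.Helper10.GN

open VC FF MvPolynomial Pool.Agent.Helper68.QM

theorem infinite_zeros {p : A} (hsc : SC p) : {z : Fin 2 → ℝ | eval z p = 0}.Infinite := by
  obtain ⟨⟨z₁, h1⟩, ⟨z₂, h2⟩⟩ := hsc
  have hcont : Continuous fun x : Fin 2 → ℝ => eval x p := MvPolynomial.continuous_eval p
  let v : Fin 2 → ℝ := z₂ - z₁
  let n : Fin 2 → ℝ := ![-(v 1), v 0]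
  let l : (Fin 2 → ℝ) → ℝ := fun z => n 0 * (z 0 - z₁ 0) + n 1 * (z 1 - z₁ 1)
  let N : ℝ := n 0 ^ 2 + n 1 ^ 2
  have hn0 : n 0 = -(v 1) := rfl
  have hn1 : n 1 = v 0 := rfl
  have hN : N ≠ 0 := by
    intro hN
    have hN' : v 0 ^ 2 + v 1 ^ 2 = 0 := by
      have : n 0 ^ 2 + n 1 ^ 2 = 0 := hN
      rw [hn0, hn1] at this
      linarith
    have ha : v 0 = 0 := by nlinarith [sq_nonneg (v 0), sq_nonneg (v 1)]
    have hb : v 1 = 0 := by nlinarith [sq_nonneg (v 0), sq_nonneg (v 1)]
    have hzz : z₂ = z₁ := by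
      funext i
      have hi : v i = 0 := by
        fin_cases i
        · exact ha
        · exact hb
      have : z₂ i - z₁ i = 0 := hi
      linarith
    rw [hzz] at h2
    linarith
  have hc1 : Continuous fun e : ℝ => eval (z₁ + e • n) p :=
    hcont.comp (by fun_prop)
  have hc2 : Continuous fun e : ℝ => eval (z₂ + e • n) p :=
    hcont.comp (by fun_prop)
  have hev1 : ∀ᶠ e : ℝ in nhds 0, 0 < eval (z₁ + e • n) p := by
    apply hc1.continuousAt.eventually_const_lt
    simpa using h1
  have hev2 : ∀ᶠ e : ℝ in nhds 0, eval (z₂ + e • n) p < 0 := by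
    apply hc2.continuousAt.eventually_lt_const
    simpa using h2
  obtain ⟨δ, hδ, hd⟩ := Metric.eventually_nhds_iff.1 (hev1.and hev2)
  have hex : ∀ e ∈ Set.Ioo (0 : ℝ) δ, ∃ z : Fin 2 → ℝ, eval z p = 0 ∧ l z = e * N := by
    intro e he
    have hde : dist e 0 < δ := by
      rw [Real.dist_eq, sub_zero, abs_of_pos he.1]
      exact he.2
    obtain ⟨ha, hb⟩ := hd hde
    have hct : ContinuousOn (fun t : ℝ => eval (z₁ + t • v + e • n) p) (Set.Icc 0 1) :=
      (hcont.comp (by fun_prop)).continuousOn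
    have hivt := intermediate_value_Icc' (zero_le_one' ℝ) hct
    have e1 : z₁ + (1 : ℝ) • v + e • n = z₂ + e • n := by
      have : z₁ + (1 : ℝ) • v = z₂ := by
        rw [one_smul]
        exact add_sub_cancel z₁ z₂
      rw [this]
    have e0 : z₁ + (0 : ℝ) • v + e • n = z₁ + e • n := by rw [zero_smul, add_zero]
    simp only [e1, e0] at hivt
    obtain ⟨t, _, ht⟩ := hivt ⟨hb.le, ha.le⟩
    refine ⟨z₁ + t • v + e • n, ht, ?_⟩
    change n 0 * ((z₁ + t • v + e • n) 0 - z₁ 0) + n 1 * ((z₁ + t • v + e • n) 1 - z₁ 1) =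
      e * (n 0 ^ 2 + n 1 ^ 2)
    simp only [Pi.add_apply, Pi.smul_apply, smul_eq_mul, hn0, hn1]
    ring
  intro hfin
  have hfin2 : (l '' {z : Fin 2 → ℝ | eval z p = 0}).Finite := hfin.image l
  have hfin3 : ((fun e : ℝ => e * N) '' Set.Ioo (0 : ℝ) δ).Finite := by
    apply hfin2.subset
    rintro _ ⟨e, he, rfl⟩
    obtain ⟨z, hz, hl⟩ := hex e he
    exact ⟨z, hz, hl⟩
  have hinj : Function.Injective (fun e : ℝ => e * N) := fun a b hab => mul_right_cancel₀ hN hab
  exact (Set.Ioo_infinite hδ) (Set.Finite.of_finite_image hfin3 hinj.injOn)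

private theorem cz23_inj : Function.Injective cz := by
  intro a b h
  funext i
  exact Complex.ofReal_injective (congrFun h i)

private theorem inf23 {p : A} (hsc : SC p) {B : Set (Fin 2 → ℂ)} (hB : B.Finite) :
    {z : Fin 2 → ℝ | eval z p = 0 ∧ cz z ∉ B}.Infinite := by
  have h1 : (cz ⁻¹' B).Finite := hB.preimage cz23_inj.injOn
  have h2 := (infinite_zeros hsc).sdiff h1
  apply h2.mono
  rintro z ⟨hz1, hz2⟩
  exact ⟨hz1, hz2⟩

variable {F : Type} [Field F] [Algebra ℂ F] {s : RStr F} (hF : IsFunctionField ℂ F)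
variable {p : A} {π : CP →ₐ[ℂ] F}

include hF in
theorem infinite_real (hc : IsCrv p s π) (hp : Irreducible p) (hsc : SC p) :
    {P : Place ℂ F | s.cj P = P}.Infinite := by
  obtain ⟨i, hi⟩ := hc.pderiv_ne_zero hp
  have hinf := inf23 hsc (finite_common hF hc hi)
  have hz0 : ∀ z : Fin 2 → ℝ, eval z p = 0 → eval (cz z) (cx p) = 0 := by
    intro z hz
    rw [eval_cx, hz, Complex.ofReal_zero]
  have hex : ∀ z : Fin 2 → ℝ, eval z p = 0 → ∃ P, Over hF π P (cz z) := fun z hz =>
    exists_over hF hc (hz0 z hz)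
  have : Nonempty (Place ℂ F) := by
    obtain ⟨z, hz, _⟩ := hinf.nonempty
    exact ⟨(hex z hz).choose⟩
  choose! Q hQ using hex
  apply Set.infinite_of_injOn_mapsTo (f := Q) _ _ hinf
  · rintro a ⟨ha, _⟩ b ⟨hb, _⟩ hab
    have h1 := hQ a ha
    have h2 := hQ b hb
    have hab' : Q a = Q b := hab
    rw [hab'] at h1
    exact cz23_inj (over_inj hF h1 h2)
  · rintro z ⟨hz, hz2⟩
    have h3 : eval z (pderiv i p) ≠ 0 := by
      intro h4
      apply hz2
      refine ⟨hz0 z hz, ?_⟩
      rw [pderiv_cx, eval_cx, h4, Complex.ofReal_zero]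
    exact real_smooth hF hc h3 (hQ z hz)

theorem exists_real_off {p : A} (hp : Irreducible p) (hsc : SC p) {h : A} (hh : ¬ p ∣ h) :
    ∃ z : Fin 2 → ℝ, eval z p = 0 ∧ eval z h ≠ 0 ∧ ∃ i, eval z (pderiv i p) ≠ 0 := by
  obtain ⟨F, _, _, s, π, hF, hc⟩ := exists_crv hp hsc
  obtain ⟨i, hi⟩ := hc.pderiv_ne_zero hp
  have hh' : π (cx h) ≠ 0 := fun h1 => hh ((hc.eq_zero_iff h).1 h1)
  have hB := (finite_common hF hc hi).union (finite_common hF hc hh')
  obtain ⟨z, hz, hz2⟩ := (inf23 hsc hB).nonempty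
  have hz0 : eval (cz z) (cx p) = 0 := by
    rw [eval_cx, hz, Complex.ofReal_zero]
  refine ⟨z, hz, fun h1 => hz2 (Or.inr ⟨hz0, ?_⟩), i, fun h1 => hz2 (Or.inl ⟨hz0, ?_⟩)⟩
  · rw [eval_cx, h1, Complex.ofReal_zero]
  · rw [pderiv_cx, eval_cx, h1, Complex.ofReal_zero]

end Pool.Agent.Helper10.GN
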