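import Pool.Agent.Helper10.GN.Wl
import Pool.Agent.Helper10.GN.Kp
import Pool.Agent.Helper10.GN.Psi
import Pool.Agent.Helper10.GN.N1
import Pool.Agent.Helper10.GN.Lpos
import Pool.Agent.Helper10.GN.Rea

set_option autoImplicit false

/-!
# Project GN, block CMAIN: the curve theorem (assembly)

For an N-type curve all of whose real singular points are nodes: a nonnegative `f = ∑ B_j²` (mod `p`) of degree `≤ d` is congruent to a sum of
squares `∑ b_j²` of polynomials of bounded degree, with `b ≡ B` to leading order at the marked places, and not all `b_j(z) = 0` at the points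
`z ∈ T` of the curve.

Proof. Fixed data, depending on `d`: `N₀` of `mem_O`; the number `K` of `exists_count`; `N = N₀ + 1`, `N_w = 2 N₀ + d K + 2`; `θ, η` from
`exists_eta` (for `N`); `l` from `exists_kp`, `d₁ = max d (2 l)`; `Dw` from `exists_w` (for `N_w`, `d₁`); `m` from
`n1` (`infinite_real`, `hd.hS`); `D` from `exists_Dinf`, `D' = D + cjD s D`.
Given `f, B, T` (`f ≡ ∑ B_j²`, `π f` is `Sos`, `≠ 0`): `k` from `exists_kp`, `f₁ = f - k²`, of degree `≤ d₁`; `ρ = f₁/f = 1 - k²/f` has values in `[1/2, 1]`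
at the real places (`k²/f` is `Sos`, `≥ 0`), so `π f₁` is real and `PosAt` everywhere (`PosAt.mul` of `π f` and `ρ`), hence `Sos` (`lpos`),
`≠ 0`. `n1` for `π f₁` with `F0 = - d₁ D'` (`2 F0 ≤ ord f₁`): `π f₁ = ∑ v_j²`, `v_j ∈ L (dS S m + d₁ D')` real; in particular regular at
the finite places. `exists_psi` (with `π f`, `π f₁`, `π B`, `v`; `h₂` because `(f - f₁)/f = k²/f`) gives `M`, `ψ`. `exists_w` gives `w`.
`f₂ = π f₁ - ∑ ψ_i² - w σ(w) = (π f₁ E² - ∑ ψ_i²) + θ π f₁ ((1 - E²)/θ - w σ(w)/(θ π f₁))`, `E = ∑ η²`; the first summand is `Sos`, the last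
factor of the second is regular with values `≥ 1 - 1/2` at the real places, so the second is `PosAt` everywhere, so `Sos` and not `0` (`lpos`); so
`f₂` is `Sos`, and not `0` (if `f₂ = 0` then the second summand and its negative are both `PosAt`; there is a real place).
Orders of `f₂`: at `P ∈ Zs`: `≥ 2 N₀` (`η_Q² = O(4N)`, `w σ w - f₁ = O(N_w)`), at `P ∈ Mk`: `≥ min (ord f + 2 N) (2 N_w) ≥ ord f + 2`
(`ord_P f ≤ d K`), `≥ 1`; at the infinite places bounded below by a fixed symmetric divisor. `n1` for `f₂` with `F0 = N₀` at `Zs`, minus a fixed symmetric divisor at the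
infinite places, `0` else: `f₂ = ∑ v'_j²`, `v'_j` real, `Oge P N₀ (v'_j)` on `Zs`.
`b = (ψ, k, Re w, Im w, v')` (`Re w = (w + σ w)/2`, `Im w = (w - σ w)/(2i)`): real, `∑ b_j² = ∑ ψ² + k² + w σ w + f₂ = π f`. Every entry is in the range of `π`
by `mem_O`: at a nonreal singular point: `ψ_i, v'_j = O(N₀)`; `w ≡ π h_z`, `σ w ≡ π (cjp h_{zbar z})` (`oge_cj`, `hc.conj`); at a real singular
point `z` (places over it are marked): `w = O(N_w)`, `v'_j` vanishes (`f₂` does: `Σ` of squares at a real place), `ψ_i`: if `f(z) ≠ 0` then `ord_P f = 0` and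
`vl P ψ_i = B'_i(z)` for all `P` over `z`; if `f(z) = 0` then `ord_P f = 2a > 0`, `a ≥ 1`, `B'_i = O(a)`, so `ψ_i` vanishes at `P`. By
`deg_bound` for the (fixed) divisors the entries are `π (cx b_j)` with bounded degree. At the marked places: `ψ`: (c) of
`exists_psi`; `k`: `2 ord k ≥ ord f + 2`; `w`: `N_w ≥ a + 1`; `v'_j`: `2 ord ≥ ord f₂ ≥ 2a + 2`; `B'_j = 0` there (`n ≤ M`). `T`: the entry `k`.
-/

namespace Pool.Agent.Helper10.GN

open VC FF MvPolynomial Pool.Agent.Helper68.QM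

variable {F : Type} [Field F] [Algebra ℂ F] {s : RStr F} {hF : IsFunctionField ℂ F} {p : A}
  {π : CP →ₐ[ℂ] F} {S R Zs Mk : Finset (Place ℂ F)}


private theorem oge_of_sq69 (hF : IsFunctionField ℂ F) {P : Place ℂ F} {m : ℤ} {g : F}
    (h : Oge P (2 * m) (g ^ 2)) : Oge P m g := by
  rcases eq_or_ne g 0 with rfl | hg
  · exact oge_zero
  · rcases h with h | h
    · exact absurd ((pow_eq_zero_iff two_ne_zero).1 h) hg
    · rw [FF.ord_pow hF P hg] at h
      right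
      push_cast at h
      omega

/-- a sum of squares of real functions regular at a real place -/
private theorem sosq69 (s : RStr F) (hF : IsFunctionField ℂ F) {P : Place ℂ F} (hP : s.cj P = P)
    {n : ℕ} (v : Fin n → F) (hv : ∀ j, s.σ (v j) = v j) (m : ℕ) (hr : ∀ j, v j ∈ P.ring)
    (h : Oge P (2 * (m : ℤ)) (∑ j, v j ^ 2)) : ∀ j, Oge P (m : ℤ) (v j) := by
  obtain ⟨t, ht0, htr, ht1⟩ := exists_real_unif s hF hP
  have key : ∀ e : ℕ, e ≤ m → ∀ j, Oge P (e : ℤ) (v j) := by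
    intro e
    induction e with
    | zero =>
      intro _ j
      rw [Nat.cast_zero, oge_zero_iff hF]
      exact hr j
    | succ e ih =>
      intro he j
      have ih' := ih (by omega)
      have ht0e : t ^ e ≠ 0 := pow_ne_zero _ ht0
      have hord : ord P.ring (t ^ e) = e := by rw [FF.ord_pow hF P ht0, ht1, mul_one]
      have hu : ∀ i, v i / t ^ e ∈ P.ring := fun i => by
        rw [← oge_zero_iff hF, oge_div_iff hF ht0e, hord, zero_add]
        exact ih' i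
      have hur : ∀ i, s.σ (v i / t ^ e) = v i / t ^ e := fun i => by
        rw [map_div₀, map_pow, htr, hv]
      have hsum : ∑ i, (v i / t ^ e) ^ 2 = (∑ i, v i ^ 2) / (t ^ e) ^ 2 := by
        rw [Finset.sum_div]
        exact Finset.sum_congr rfl fun i _ => div_pow _ _ _
      have h1 : Oge P 1 (∑ i, (v i / t ^ e) ^ 2) := by
        rw [hsum, oge_div_iff hF (pow_ne_zero _ ht0e), FF.ord_pow hF P ht0e, hord]
        refine h.mono ?_
        push_cast
        omega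
      have hsq : ∀ i, (v i / t ^ e) ^ 2 ∈ P.ring := fun i => by
        rw [pow_two]
        exact P.ring.mul_mem _ _ (hu i) (hu i)
      have h2 : rv hF P (∑ i, (v i / t ^ e) ^ 2) = 0 := by
        have hmem : (∑ i, (v i / t ^ e) ^ 2) ∈ P.ring :=
          (oge_zero_iff hF).1 (h1.mono zero_le_one)
        unfold rv
        rw [(vl_eq_zero hF hmem).2 h1]
        rfl
      rw [rv_sum hF _ _ fun i _ => hsq i] at h2
      have h3 : ∀ i, rv hF P ((v i / t ^ e) ^ 2) = rv hF P (v i / t ^ e) ^ 2 := fun i =>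
        rv_pow s hF hP (hu i) (hur i) 2
      rw [Finset.sum_congr rfl fun i _ => h3 i] at h2
      have h4 := (Finset.sum_eq_zero_iff_of_nonneg (fun i _ => sq_nonneg _)).1 h2 j
        (Finset.mem_univ _)
      have h5 : vl hF P (v j / t ^ e) = 0 := by
        rw [vl_real s hF hP (hur j), (pow_eq_zero_iff two_ne_zero).1 h4]
        rfl
      have h6 := (vl_eq_zero hF (hu j)).1 h5
      rw [oge_div_iff hF ht0e, hord] at h6
      refine h6.mono ?_
      push_cast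
      omega
  exact key m le_rfl

private theorem parts69 (s : RStr F) (w : F) :
    s.σ (algebraMap ℂ F (1 / 2) * (w + s.σ w)) = algebraMap ℂ F (1 / 2) * (w + s.σ w) ∧
    s.σ (algebraMap ℂ F (-Complex.I / 2) * (w - s.σ w)) =
      algebraMap ℂ F (-Complex.I / 2) * (w - s.σ w) ∧
    (algebraMap ℂ F (1 / 2) * (w + s.σ w)) ^ 2 +
      (algebraMap ℂ F (-Complex.I / 2) * (w - s.σ w)) ^ 2 = w * s.σ w := by
  refine ⟨?_, ?_, ?_⟩
  · rw [map_mul, s.alg, map_add, s.inv]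
    have : (starRingEnd ℂ) (1 / 2 : ℂ) = 1 / 2 := by
      rw [map_div₀, map_one, map_ofNat]
    rw [this]
    ring
  · rw [map_mul, s.alg, map_sub, s.inv]
    have : (starRingEnd ℂ) (-Complex.I / 2 : ℂ) = -(-Complex.I / 2) := by
      rw [map_div₀, map_neg, Complex.conj_I, map_ofNat]
      ring
    rw [this, map_neg]
    ring
  · have h1 : algebraMap ℂ F (1 / 2) ^ 2 = algebraMap ℂ F (1 / 4) := by
      rw [← map_pow]
      norm_num
    have h2 : algebraMap ℂ F (-Complex.I / 2) ^ 2 = - algebraMap ℂ F (1 / 4) := by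
      rw [← map_pow, ← map_neg]
      congr 1
      rw [div_pow, neg_sq, Complex.I_sq]
      norm_num
    have h3 : algebraMap ℂ F (1 / 4) * 4 = 1 := by
      have : (4 : F) = algebraMap ℂ F 4 := (map_ofNat _ 4).symm
      rw [this, ← map_mul]
      norm_num
    rw [mul_pow, mul_pow, h1, h2]
    linear_combination (w * s.σ w) * h3

/-- symmetric majorant -/
private theorem symm69 (hc : IsCrv p s π) (G : Place ℂ F →₀ ℤ) (hG : ∀ P, FinP π P → G P = 0) :
    ∃ U : Place ℂ F →₀ ℤ, (∀ P, 0 ≤ U P) ∧ (∀ P, U (s.cj P) = U P) ∧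
      (∀ P, FinP π P → U P = 0) ∧ ∀ P, G P ≤ U P := by
  let H : Place ℂ F →₀ ℤ := G.mapRange (fun x => |x|) abs_zero
  have hH : ∀ P, H P = |G P| := fun P => Finsupp.mapRange_apply ..
  refine ⟨H + cjD s H, fun P => ?_, fun P => ?_, fun P hP => ?_, fun P => ?_⟩
  · rw [Finsupp.add_apply, cjD_apply, hH, hH]
    positivity
  · rw [Finsupp.add_apply, Finsupp.add_apply, cjD_apply, cjD_apply, cj_cj, add_comm]
  · rw [Finsupp.add_apply, cjD_apply, hH, hH, hG P hP, hG _ ((fin_cj hc P).2 hP)]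
    simp
  · rw [Finsupp.add_apply, cjD_apply, hH, hH]
    have h1 := le_abs_self (G P)
    have h2 := abs_nonneg (G (s.cj P))
    linarith

private theorem app_in69 {n : ℕ} (x y z : F) (v : Fin n → F) (Q : F → Prop)
    (hx : Q x) (hy : Q y) (hz : Q z) (h2 : ∀ i, Q (v i)) :
    ∀ j, Q (Fin.append ![x, y, z] v j) := by
  intro j
  refine Fin.addCases (fun i => ?_) (fun i => ?_) j
  · rw [Fin.append_left]
    fin_cases i
    exacts [hx, hy, hz]
  · rw [Fin.append_right]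
    exact h2 i

private theorem app69 {M n : ℕ} (ψ : Fin M → F) (x y z : F) (v : Fin n → F) (Q : F → Prop)
    (h1 : ∀ i, Q (ψ i)) (hx : Q x) (hy : Q y) (hz : Q z) (h2 : ∀ i, Q (v i)) :
    ∀ j, Q (Fin.append ψ (Fin.append ![x, y, z] v) j) := by
  intro j
  refine Fin.addCases (fun i => ?_) (fun i => ?_) j
  · rw [Fin.append_left]
    exact h1 i
  · rw [Fin.append_right]
    exact app_in69 x y z v Q hx hy hz h2 i

private theorem sum69 {M n : ℕ} (ψ : Fin M → F) (x y z : F) (v : Fin n → F) :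
    ∑ j, Fin.append ψ (Fin.append ![x, y, z] v) j ^ 2 =
      ∑ i, ψ i ^ 2 + ((x ^ 2 + y ^ 2 + z ^ 2) + ∑ i, v i ^ 2) := by
  rw [Fin.sum_univ_add, Fin.sum_univ_add]
  congr 1
  · exact Finset.sum_congr rfl fun i _ => by rw [Fin.append_left]
  · congr 1
    · rw [Fin.sum_univ_three]
      rw [Fin.append_right, Fin.append_right, Fin.append_right, Fin.append_left,
        Fin.append_left, Fin.append_left]
      rfl
    · exact Finset.sum_congr rfl fun i _ => by rw [Fin.append_right, Fin.append_right]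

private theorem zbar_NR69 {z : Fin 2 → ℂ} (h : NR z) : NR (zbar z) := by
  obtain ⟨i, hi⟩ := h
  refine ⟨i, ?_⟩
  change ((starRingEnd ℂ) (z i)).im ≠ 0
  rw [Complex.conj_im]
  exact neg_ne_zero.2 hi

private theorem zbar_SgC69 {z : Fin 2 → ℂ} (h : SgC p z) : SgC p (zbar z) := by
  refine ⟨?_, fun i => ?_⟩
  · rw [eval_zbar, h.1, map_zero]
  · have h1 := h.2 i
    rw [pderiv_cx] at h1 ⊢
    rw [eval_zbar, h1, map_zero]

theorem curve_main (hd : CData p s hF π S R Zs Mk) (d : ℕ) :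
    ∃ l : ℕ, ∀ f : A, f.totalDegree ≤ d → ¬ p ∣ f →
      ∀ (n : ℕ) (B : Fin n → A), p ∣ f - ∑ j, B j ^ 2 →
      ∀ T : Finset (Fin 2 → ℂ), (∀ z ∈ T, NR z) →
      ∃ (N : ℕ) (b : Fin N → A), n ≤ N ∧ (∀ j, (b j).totalDegree ≤ l) ∧
        p ∣ f - ∑ j, b j ^ 2 ∧
        (∀ P ∈ Mk, ∀ (j : Fin N) (a : ℤ), ord P.ring (π (cx f)) = 2 * a →
          Oge P (a + 1) (π (cx (b j)) - π (cx (if h : (j : ℕ) < n then B ⟨j, h⟩ else 0)))) ∧
        ∀ z ∈ T, eval z (cx p) = 0 → ∃ j, eval z (cx (b j)) ≠ 0 := by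
  classical
  have hc := hd.crv
  have hMk : ∀ P ∈ Mk, s.cj P = P := fun P hP => (hd.mark P hP).1
  have hMkf : ∀ P ∈ Mk, FinP π P := fun P hP => (hd.mark P hP).2
  have hSfin : ∀ P, FinP π P → P ∉ S := fun P hP hPS => ((hd.memS P).1 hPS).1 hP
  have hZsf : ∀ P ∈ Zs, FinP π P := fun P hP => (hd.zs_cj hP).2.2.1
  have hdS0 : ∀ (k : ℤ) (P : Place ℂ F), FinP π P → dS S k P = 0 :=
    fun k P hP => dS_notMem k (hSfin P hP)
  have hdSn : ∀ (k : ℕ) (P : Place ℂ F), 0 ≤ dS S (k : ℤ) P := fun k P => by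
    by_cases h : P ∈ S
    · rw [dS_mem _ h]
      positivity
    · rw [dS_notMem _ h]
  obtain ⟨N₀, hO⟩ := mem_O hF hc hd.irr hd.node
  obtain ⟨K, hK⟩ := exists_count hF hc
  obtain ⟨θ, η, he⟩ := exists_eta hF hd.hS Mk Zs hMk
    (fun P hP => ⟨(hd.zs_cj hP).1, (hd.zs_cj hP).2.1, (hd.zs_cj hP).2.2.2⟩) (N₀ + 1) (by omega)
  obtain ⟨lk, hlk⟩ := exists_kp hd d
  obtain ⟨Dw, hDw0, hDw⟩ := exists_w hd he.θ_ne he.θ_real he.θ_pos he.θ_reg he.θ_rv
    (2 * N₀ + d * K + 2) (max d (2 * lk))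
  have hinf := infinite_real hF hc hd.irr hd.sc
  obtain ⟨m, hm⟩ := n1 hF hinf hd.hS
  obtain ⟨D, hD0, hDf, hD⟩ := exists_Dinf hF hc
  obtain ⟨mη, hmη⟩ : ∃ mη : ℕ, ∀ Q ∈ Mk, η Q ^ 2 ∈ L (dS S (mη : ℤ)) := by
    have h1 : ∀ Q, ∃ k : ℕ, Q ∈ Mk → η Q ^ 2 ∈ L (dS S (k : ℤ)) := fun Q => by
      by_cases hQ : Q ∈ Mk
      · obtain ⟨k, hk⟩ := exists_mem_L_dS hF (S := S) (f := η Q ^ 2) (fun P hP => by
          rw [pow_two]
          exact P.ring.mul_mem _ _ (he.η_reg Q hQ P hP) (he.η_reg Q hQ P hP))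
        exact ⟨k, fun _ => hk⟩
      · exact ⟨0, fun h => absurd h hQ⟩
    choose k hk using h1
    refine ⟨Mk.sup k, fun Q hQ => L_mono hF (fun P => ?_) (hk Q hQ)⟩
    have h2 : k Q ≤ Mk.sup k := Finset.le_sup hQ
    by_cases hP : P ∈ S
    · rw [dS_mem _ hP, dS_mem _ hP]
      exact_mod_cast h2
    · rw [dS_notMem _ hP, dS_notMem _ hP]
  obtain ⟨d₁, hd₁⟩ : ∃ d₁ : ℕ, d₁ = max d (2 * lk) := ⟨_, rfl⟩
  rw [← hd₁] at hDw
  have hdd₁ : d ≤ d₁ := hd₁ ▸ le_max_left _ _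
  -- divisors
  obtain ⟨U1, hU1n, hU1s, hU1f, hU1⟩ := symm69 hc ((d₁ : ℤ) • D) (fun P hP => by
    rw [Finsupp.smul_apply, hDf P hP, smul_zero])
  obtain ⟨X, hX⟩ : ∃ X : Place ℂ F →₀ ℤ, X = dS S (mη : ℤ) + (dS S (m : ℤ) + U1) := ⟨_, rfl⟩
  have hXv : ∀ P, X P = dS S (mη : ℤ) P + (dS S (m : ℤ) P + U1 P) := fun P => by
    rw [hX, Finsupp.add_apply, Finsupp.add_apply]
  have hXn : ∀ P, 0 ≤ X P := fun P => by
    have h1 := hdSn mη P
    have h2 := hdSn m P
    have h3 := hU1n P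
    rw [hXv]
    linarith
  have hXf : ∀ P, FinP π P → X P = 0 := fun P hP => by
    rw [hXv, hdS0 _ P hP, hdS0 _ P hP, hU1f P hP]
    rfl
  obtain ⟨U2, hU2n, hU2s, hU2f, hU2⟩ := symm69 hc (X + X) (fun P hP => by
    rw [Finsupp.add_apply, hXf P hP, add_zero])
  obtain ⟨U3, hU3n, hU3s, hU3f, hU3⟩ := symm69 hc (Dw + cjD s Dw) (fun P hP => by
    rw [Finsupp.add_apply, cjD_apply, hDw0 P hP, hDw0 _ ((fin_cj hc P).2 hP), add_zero])
  obtain ⟨U5, hU5n, hU5s, hU5f, hU5⟩ := symm69 hc Dw hDw0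
  obtain ⟨U, hU⟩ : ∃ U : Place ℂ F →₀ ℤ, U = U1 + U2 + U3 := ⟨_, rfl⟩
  have hUv : ∀ P, U P = U1 P + U2 P + U3 P := fun P => by
    rw [hU, Finsupp.add_apply, Finsupp.add_apply]
  have hUn : ∀ P, 0 ≤ U P := fun P => by
    have h1 := hU1n P
    have h2 := hU2n P
    have h3 := hU3n P
    rw [hUv]
    linarith
  have hUf : ∀ P, FinP π P → U P = 0 := fun P hP => by
    rw [hUv, hU1f P hP, hU2f P hP, hU3f P hP]
    rfl
  obtain ⟨Y, hY⟩ : ∃ Y : Place ℂ F →₀ ℤ, Y = dS S (m : ℤ) + (U + ((lk : ℤ) • D + U5)) :=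
    ⟨_, rfl⟩
  have hYv : ∀ P, Y P = dS S (m : ℤ) P + (U P + (lk * D P + U5 P)) := fun P => by
    rw [hY, Finsupp.add_apply, Finsupp.add_apply, Finsupp.add_apply, Finsupp.smul_apply,
      smul_eq_mul]
  have hlD : ∀ P, 0 ≤ (lk : ℤ) * D P := fun P => mul_nonneg (Int.natCast_nonneg _) (hD0 P)
  obtain ⟨l, hl⟩ := deg_bound hF hc Y
  refine ⟨l, fun f hfd hpf n B hB T hT => ?_⟩
  have hφB : π (cx f) = ∑ j, π (cx (B j)) ^ 2 := by
    have h1 := (hc.eq_zero_iff _).2 hB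
    rw [map_sub, map_sub, map_sum, map_sum, sub_eq_zero] at h1
    rw [h1]
    exact Finset.sum_congr rfl fun j _ => by rw [map_pow, map_pow]
  have hφ0 : π (cx f) ≠ 0 := fun h => hpf ((hc.eq_zero_iff f).1 h)
  have hφr := hc.real f
  have hSφ : Sos s (π (cx f)) := ⟨n, fun j => π (cx (B j)), fun j => hc.real _, hφB⟩
  obtain ⟨k, hkd, hk1, hk2, hk3⟩ := hlk f hfd hpf hSφ T hT
  have hκr := hc.real k
  obtain ⟨f₁, hf₁⟩ : ∃ f₁ : A, f₁ = f - k ^ 2 := ⟨_, rfl⟩
  have hf₁d : f₁.totalDegree ≤ d₁ := by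
    rw [hf₁, hd₁]
    refine (totalDegree_sub _ _).trans (max_le_max hfd ?_)
    refine (totalDegree_pow _ _).trans ?_
    exact Nat.mul_le_mul_left 2 hkd
  have hφ₁ : π (cx f₁) = π (cx f) - π (cx k) ^ 2 := by
    rw [hf₁, map_sub, map_sub, map_pow, map_pow]
  have hφ₁r := hc.real f₁
  have hρ : ∀ P, s.cj P = P → π (cx f₁) / π (cx f) ∈ P.ring ∧
      1 / 2 ≤ rv hF P (π (cx f₁) / π (cx f)) ∧ rv hF P (π (cx f₁) / π (cx f)) ≤ 1 := by
    intro P hP
    have e : π (cx f₁) / π (cx f) = 1 - π (cx k) ^ 2 / π (cx f) := by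
      rw [hφ₁, sub_div, div_self hφ0]
    obtain ⟨h1, h1'⟩ := hk1 P hP
    have h2 : 0 ≤ rv hF P (π (cx k) ^ 2 / π (cx f)) :=
      ((Sos.sq hκr).div hSφ).rv_nonneg hP h1
    have h3 : rv hF P (1 : F) = 1 := by
      unfold rv
      rw [vl_one]
      rfl
    rw [e, rv_sub hF P.ring.one_mem h1, h3]
    exact ⟨sub_mem P.ring.one_mem h1, by linarith, by linarith⟩
  have hφ₁p : ∀ P, s.cj P = P → PosAt s hF P (π (cx f₁)) := by
    intro P hP
    have e : π (cx f₁) = π (cx f) * (π (cx f₁) / π (cx f)) := (mul_div_cancel₀ _ hφ0).symm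
    rw [e]
    refine PosAt.mul hP hφr (by rw [map_div₀, hφ₁r, hφr]) (hSφ.posAt hφ0 hP)
      (PosAt.of_pos (hρ P hP).1 ?_)
    linarith [(hρ P hP).2.1]
  obtain ⟨P₀, hP₀⟩ := hinf.nonempty
  have hφ₁0 : π (cx f₁) ≠ 0 := (hφ₁p P₀ hP₀).ne_zero
  have hSφ₁ : Sos s (π (cx f₁)) := lpos hF hφ₁r hφ₁p
  have hφ₁L : π (cx f₁) ∈ L ((d₁ : ℤ) • D) := hD d₁ _ (by rw [totalDegree_cx]; exact hf₁d)
  -- the representation `v`
  obtain ⟨n₁, v, hv, hφ₁v⟩ := hm _ hφ₁0 hSφ₁ (-U1)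
    (by
      ext P
      rw [cjD_apply, Finsupp.neg_apply, Finsupp.neg_apply, hU1s])
    (fun P => by
      rw [Finsupp.neg_apply]
      have h2 := hU1 P
      have h3 := hU1n P
      rcases (mem_L hF).1 hφ₁L P with h1 | h1
      · exact absurd h1 hφ₁0
      · linarith)
  have hvr : ∀ j, s.σ (v j) = v j := fun j => (hv j).1
  have hvL : ∀ j, v j ∈ L (dS S (m : ℤ) + U1) := fun j => by
    have := (hv j).2
    rwa [sub_neg_eq_add] at this
  have hvf : ∀ j P, FinP π P → v j ∈ P.ring := fun j P hP => by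
    rw [← oge_zero_iff hF]
    refine ((mem_L hF).1 (hvL j) P).mono ?_
    rw [Finsupp.add_apply, hdS0 _ P hP, hU1f P hP]
    norm_num
  -- the rotated part
  obtain ⟨M, ψ, hnM, hψr, hψc, hψB, hψS, hψO⟩ := exists_psi he (by omega) hMk hφ0
    (f₁ := π (cx f₁)) (fun P hP => by
      have e : (π (cx f) - π (cx f₁)) / π (cx f) = π (cx k) ^ 2 / π (cx f) := by
        rw [hφ₁, sub_sub_cancel]
      rw [e]
      exact hk2 P hP) (fun j => π (cx (B j))) (fun j => hc.real _) hφB v hvr hφ₁v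
  have hψL : ∀ i, ψ i ∈ L X := fun i => by
    obtain ⟨c, hcψ⟩ := hψc i
    rw [hcψ, hX]
    refine Submodule.sum_mem _ fun Q hQ => Submodule.sum_mem _ fun j _ => ?_
    rw [← Algebra.smul_def]
    exact Submodule.smul_mem _ _ (L_mul hF (hmη Q hQ) (hvL j))
  have hψf : ∀ i P, FinP π P → ψ i ∈ P.ring := fun i P hP => by
    rw [← oge_zero_iff hF]
    refine ((mem_L hF).1 (hψL i) P).mono ?_
    rw [hXf P hP, neg_zero]
  have hψZ : ∀ i, ∀ P ∈ Zs, Oge P (N₀ : ℤ) (ψ i) := fun i P hP => by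
    obtain ⟨c, hcψ⟩ := hψc i
    rw [hcψ]
    refine oge_sum hF _ _ fun Q hQ => oge_sum hF _ _ fun j _ => ?_
    have h1 := oge_mul hF (oge_alg hF (P := P) (c Q j : ℂ))
      (oge_mul hF (oge_pow hF (he.η_zs Q hQ P hP) 2)
        ((oge_zero_iff hF).2 (hvf j P (hZsf P hP))))
    refine h1.mono ?_
    push_cast
    linarith
  -- the function `w`
  obtain ⟨w, hwL, hwZ, hwS, hwM, hwR⟩ := hDw f f₁ (hfd.trans hdd₁) hf₁d hpf hSφ hρ
  have hswL : s.σ w ∈ L (cjD s Dw) := (mem_L_cjD s hF).2 hwL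
  have hwf : ∀ P, FinP π P → w ∈ P.ring := fun P hP => by
    rw [← oge_zero_iff hF]
    refine ((mem_L hF).1 hwL P).mono ?_
    rw [hDw0 P hP, neg_zero]
  have hswf : ∀ P, FinP π P → s.σ w ∈ P.ring := fun P hP => by
    rw [← oge_zero_iff hF]
    refine ((mem_L hF).1 hswL P).mono ?_
    rw [cjD_apply, hDw0 _ ((fin_cj hc P).2 hP), neg_zero]
  -- the certificate
  obtain ⟨E, hE⟩ : ∃ E : F, E = ∑ Q ∈ Mk, η Q ^ 2 := ⟨_, rfl⟩
  have hquot := he.quot
  rw [← hE] at hψS hquot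
  have hEr : s.σ E = E := by
    rw [hE, map_sum]
    exact Finset.sum_congr rfl fun Q hQ => by rw [map_pow, he.η_real Q hQ]
  have hθ0 := he.θ_ne
  obtain ⟨g₁, hg₁⟩ : ∃ g₁ : F, g₁ = π (cx f₁) * E ^ 2 - ∑ i, ψ i ^ 2 := ⟨_, rfl⟩
  rw [← hg₁] at hψS
  obtain ⟨c, hcdef⟩ : ∃ c : F, c = (1 - E ^ 2) / θ - w * s.σ w / (θ * π (cx f₁)) := ⟨_, rfl⟩
  have hcr : s.σ c = c := by
    rw [hcdef, map_sub, map_div₀, map_sub, map_one, map_pow, hEr, he.θ_real, map_div₀, map_mul,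
      s.inv, map_mul, he.θ_real, hφ₁r, mul_comm (s.σ w) w]
  obtain ⟨f₂, hf₂⟩ : ∃ f₂ : F, f₂ = π (cx f₁) - ∑ i, ψ i ^ 2 - w * s.σ w := ⟨_, rfl⟩
  have hf₂g : f₂ = g₁ + θ * π (cx f₁) * c := by
    rw [hf₂, hg₁, hcdef]
    field_simp
    ring
  have hg₂r : s.σ (θ * π (cx f₁) * c) = θ * π (cx f₁) * c := by
    rw [map_mul, map_mul, he.θ_real, hφ₁r, hcr]
  have hg₂p : ∀ P, s.cj P = P → PosAt s hF P (θ * π (cx f₁) * c) := fun P hP => by
    obtain ⟨h1, h2⟩ := hquot P hP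
    obtain ⟨h3, h4⟩ := hwR P hP
    refine PosAt.mul hP (by rw [map_mul, he.θ_real, hφ₁r]) hcr
      (PosAt.mul hP he.θ_real hφ₁r (he.θ_pos P hP) (hφ₁p P hP)) (PosAt.of_pos ?_ ?_)
    · rw [hcdef]
      exact sub_mem h1 h3
    · rw [hcdef, rv_sub hF h1 h3]
      linarith
  have hg₂S : Sos s (θ * π (cx f₁) * c) := lpos hF hg₂r hg₂p
  have hf₂S : Sos s f₂ := by
    rw [hf₂g]
    exact hψS.add hg₂S
  have hf₂0 : f₂ ≠ 0 := by
    intro h0
    rw [hf₂g] at h0
    have h1 : g₁ = -(θ * π (cx f₁) * c) := eq_neg_of_add_eq_zero_left h0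
    have h2 := hg₂p P₀ hP₀
    have h3 : g₁ ≠ 0 := by
      rw [h1]
      exact neg_ne_zero.2 h2.ne_zero
    have h4 : PosAt s hF P₀ (g₁ / (θ * π (cx f₁) * c)) :=
      PosAt.div hP₀ hψS.real hg₂r (hψS.posAt h3 hP₀) h2
    rw [h1, neg_div, div_self h2.ne_zero] at h4
    have h5 := h4.rv_nonneg hP₀ (by rw [map_neg, map_one]) (neg_mem P₀.ring.one_mem)
    have h6 : rv hF P₀ (-1 : F) = -1 := by
      unfold rv
      rw [vl_neg hF P₀.ring.one_mem, vl_one]
      simp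
    linarith
  have hf₂L : f₂ ∈ L U := by
    rw [hf₂]
    refine Submodule.sub_mem _ (Submodule.sub_mem _ ?_ (Submodule.sum_mem _ fun i _ => ?_)) ?_
    · refine L_mono hF (fun P => ?_) hφ₁L
      have h1 := hU1 P
      have h2 := hU2n P
      have h3 := hU3n P
      rw [hUv]
      linarith
    · rw [pow_two]
      refine L_mono hF (fun P => ?_) (L_mul hF (hψL i) (hψL i))
      have h1 := hU1n P
      have h2 := hU2 P
      have h3 := hU3n P
      rw [hUv]
      linarith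
    · refine L_mono hF (fun P => ?_) (L_mul hF hwL hswL)
      have h1 := hU1n P
      have h2 := hU2n P
      have h3 := hU3 P
      rw [hUv]
      linarith
  have hdK : (0 : ℤ) ≤ (d : ℤ) * K := by positivity
  have hf₂Z : ∀ P ∈ Zs, Oge P (2 * (N₀ : ℤ)) f₂ := fun P hP => by
    have e : f₂ = -(∑ i, ψ i ^ 2) - (w * s.σ w - π (cx f₁)) := by
      rw [hf₂]
      ring
    rw [e]
    refine oge_sub hF (oge_neg hF (oge_sum hF _ _ fun i _ => ?_)) ?_
    · have := oge_pow hF (hψZ i P hP) 2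
      exact_mod_cast this
    · refine (hwS P hP).mono ?_
      push_cast
      linarith
  have hordM : ∀ P ∈ Mk, ∀ a : ℤ, ord P.ring (π (cx f)) = 2 * a → 0 ≤ a ∧ 2 * a ≤ d * K :=
    fun P hP a ha => by
    constructor
    · have h1 : π (cx f) ∈ P.ring := mem_of_fin (hMkf P hP) _
      have h2 := (FF.ord_nonneg_iff hF P hφ0).2 h1
      omega
    · have h1 := (hK d f hfd hpf).1 {P} (fun Q hQ => by
        rw [Finset.mem_singleton.1 hQ]
        exact hMkf P hP)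
      rw [Finset.sum_singleton, ha] at h1
      exact h1
  have hwM' : ∀ P ∈ Mk, Oge P ((2 * N₀ + d * K + 2 : ℕ) : ℤ) (s.σ w) := fun P hP => by
    have h2 : Oge (s.cj P) ((2 * N₀ + d * K + 2 : ℕ) : ℤ) w := by
      rw [hMk P hP]
      exact hwM P hP
    exact (oge_cj s hF).1 h2
  have hf₂M : ∀ P ∈ Mk, ∀ a : ℤ, ord P.ring (π (cx f)) = 2 * a → Oge P (2 * (a + 1)) f₂ :=
    fun P hP a ha => by
    obtain ⟨h1, h2⟩ := hordM P hP a ha
    rw [hf₂]
    refine oge_sub hF ((hψO P hP).mono ?_) ((oge_mul hF (hwM P hP) (hwM' P hP)).mono ?_)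
    · rw [ha]
      push_cast
      linarith
    · push_cast
      linarith
  -- the representation `v'`
  obtain ⟨n₂, v', hv', hf₂v⟩ := hm f₂ hf₂0 hf₂S (dS Zs (N₀ : ℤ) - U)
    (by
      ext P
      rw [cjD_apply, Finsupp.sub_apply, Finsupp.sub_apply]
      have h1 : U (s.cj P) = U P := by rw [hUv, hUv, hU1s, hU2s, hU3s]
      rw [h1]
      by_cases hP : P ∈ Zs
      · rw [dS_mem _ hP, dS_mem _ (hd.zs_cj hP).1]
      · have hP' : s.cj P ∉ Zs := fun h => hP (by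
          have := (hd.zs_cj h).1
          rwa [cj_cj] at this)
        rw [dS_notMem _ hP, dS_notMem _ hP'])
    (fun P => by
      rw [Finsupp.sub_apply]
      by_cases hP : P ∈ Zs
      · rw [dS_mem _ hP, hUf P (hZsf P hP)]
        rcases hf₂Z P hP with h2 | h2
        · exact absurd h2 hf₂0
        · linarith
      · rw [dS_notMem _ hP]
        have h1 := hUn P
        rcases (mem_L hF).1 hf₂L P with h2 | h2
        · exact absurd h2 hf₂0
        · linarith)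
  have hv'r : ∀ i, s.σ (v' i) = v' i := fun i => (hv' i).1
  have hv'o : ∀ i P, Oge P (-(dS S (m : ℤ) P - (dS Zs (N₀ : ℤ) P - U P))) (v' i) := fun i P => by
    have h1 := (mem_L hF).1 (hv' i).2 P
    rwa [Finsupp.sub_apply, Finsupp.sub_apply] at h1
  have hdZn : ∀ P : Place ℂ F, 0 ≤ dS Zs (N₀ : ℤ) P := fun P => by
    by_cases h : P ∈ Zs
    · rw [dS_mem _ h]
      positivity
    · rw [dS_notMem _ h]
  have hv'f : ∀ i P, FinP π P → v' i ∈ P.ring := fun i P hP => by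
    rw [← oge_zero_iff hF]
    refine (hv'o i P).mono ?_
    rw [hdS0 _ P hP, hUf P hP]
    have := hdZn P
    linarith
  have hv'Z : ∀ i, ∀ P ∈ Zs, Oge P (N₀ : ℤ) (v' i) := fun i P hP => by
    refine (hv'o i P).mono ?_
    rw [hdS0 _ P (hZsf P hP), hUf P (hZsf P hP), dS_mem _ hP]
    linarith
  -- behaviour at the marked places
  have hκM : ∀ P ∈ Mk, ∀ a : ℤ, ord P.ring (π (cx f)) = 2 * a → Oge P (a + 1) (π (cx k)) :=
    fun P hP a ha => by
    refine oge_of_sq69 hF ?_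
    have h1 := (oge_div_iff hF hφ0).1 (hk2 P hP)
    refine h1.mono ?_
    rw [ha]
    linarith
  have hwgM : ∀ c₁ c₂ : ℂ, ∀ P ∈ Mk, ∀ a : ℤ, ord P.ring (π (cx f)) = 2 * a →
      Oge P (a + 1) (algebraMap ℂ F c₁ * w + algebraMap ℂ F c₂ * s.σ w) :=
    fun c₁ c₂ P hP a ha => by
    obtain ⟨h1, h2⟩ := hordM P hP a ha
    refine oge_add hF ((oge_mul hF (oge_alg hF c₁) (hwM P hP)).mono ?_)
      ((oge_mul hF (oge_alg hF c₂) (hwM' P hP)).mono ?_)
    · push_cast
      linarith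
    · push_cast
      linarith
  have hv'M : ∀ i, ∀ P ∈ Mk, ∀ a : ℤ, ord P.ring (π (cx f)) = 2 * a → Oge P (a + 1) (v' i) :=
    fun i P hP a ha => by
    obtain ⟨h1, h2⟩ := hordM P hP a ha
    have h3 : ((a + 1).toNat : ℤ) = a + 1 := Int.toNat_of_nonneg (by linarith)
    have h4 := sosq69 s hF (hMk P hP) v' hv'r (a + 1).toNat (fun j => hv'f j P (hMkf P hP))
      (by
        rw [h3, ← hf₂v]
        exact hf₂M P hP a ha) i
    rwa [h3] at h4
  have hvan : ∀ x : F, (∀ P ∈ Mk, ∀ a : ℤ, ord P.ring (π (cx f)) = 2 * a → Oge P (a + 1) x) →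
      (∀ P, FinP π P → x ∈ P.ring) → ∀ P ∈ Mk, vl hF P x = 0 := by
    intro x hx hxf P hP
    obtain ⟨a, ha⟩ := (hSφ.posAt (hF := hF) hφ0 (hMk P hP)).even
    rw [vl_eq_zero hF (hxf P (hMkf P hP))]
    refine (hx P hP a ha).mono ?_
    have := (hordM P hP a ha).1
    linarith
  -- everything is a polynomial
  have hψR : ∀ i, ∃ h : CP, ψ i = π h := fun i => by
    refine hO (ψ i) (fun P hP => hψf i P hP) (fun z hz hsg => ⟨0, fun P hP => ?_⟩)
      (fun z hz P Q hP hQ => ?_)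
    · rw [map_zero, sub_zero]
      exact hψZ i P ((hd.memZs P).2 ⟨z, hz, hsg, hP⟩)
    · have key : ∀ P, Over hF π P (cz z) → vl hF P (ψ i) =
          ((eval z (if h : (i : ℕ) < n then B ⟨i, h⟩ else 0) : ℝ) : ℂ) := by
        intro P hP
        have hPM := hd.sing z hz P hP
        obtain ⟨a, ha⟩ := (hSφ.posAt (hF := hF) hφ0 (hMk P hPM)).even
        have h1 : Oge P (a + 1) (ψ i - if h : (i : ℕ) < n then π (cx (B ⟨i, h⟩)) else 0) :=
          hψB P hPM i a ha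
        have h2 : (if h : (i : ℕ) < n then π (cx (B ⟨i, h⟩)) else 0) =
            π (cx (if h : (i : ℕ) < n then B ⟨i, h⟩ else 0)) := by
          split_ifs
          · rfl
          · rw [map_zero, map_zero]
        rw [h2] at h1
        have h3 := h1.mono (show (1 : ℤ) ≤ a + 1 by
          have := (hordM P hPM a ha).1
          linarith)
        have hm1 := hψf i P hP.1
        have hm2 : π (cx (if h : (i : ℕ) < n then B ⟨i, h⟩ else 0)) ∈ P.ring :=
          mem_of_fin hP.1 _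
        have h4 := (vl_eq_zero hF (sub_mem hm1 hm2)).2 h3
        rw [vl_sub hF hm1 hm2, vl_over hF hP, eval_cx, sub_eq_zero] at h4
        exact h4
      rw [key P hP, key Q hQ]
  have hwgf : ∀ c₁ c₂ : ℂ, ∀ P, FinP π P →
      algebraMap ℂ F c₁ * w + algebraMap ℂ F c₂ * s.σ w ∈ P.ring := fun c₁ c₂ P hP =>
    add_mem (mul_mem (P.algebraMap_mem _) (hwf P hP)) (mul_mem (P.algebraMap_mem _) (hswf P hP))
  have hwgR : ∀ c₁ c₂ : ℂ, ∃ h : CP,
      algebraMap ℂ F c₁ * w + algebraMap ℂ F c₂ * s.σ w = π h := fun c₁ c₂ => by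
    refine hO _ (hwgf c₁ c₂) (fun z hz hsg => ?_) (fun z hz P Q hP hQ => ?_)
    · obtain ⟨h₁, hh₁⟩ := hwZ z hz hsg
      obtain ⟨h₂, hh₂⟩ := hwZ (zbar z) (zbar_NR69 hz) (zbar_SgC69 hsg)
      refine ⟨C c₁ * h₁ + C c₂ * cjp h₂, fun P hP => ?_⟩
      have e : algebraMap ℂ F c₁ * w + algebraMap ℂ F c₂ * s.σ w -
          π (C c₁ * h₁ + C c₂ * cjp h₂) = algebraMap ℂ F c₁ * (w - π h₁) +
          algebraMap ℂ F c₂ * (s.σ (w - π h₂)) := by
        rw [map_add, map_mul, map_mul, IsCrv.pi_C, IsCrv.pi_C, map_sub, hc.conj]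
        ring
      rw [e]
      have h3 := (oge_cj s hF).1 (hh₂ (s.cj P) (over_cj hF hc hP))
      refine oge_add hF ((oge_mul hF (oge_alg hF c₁) (hh₁ P hP)).mono ?_)
        ((oge_mul hF (oge_alg hF c₂) h3).mono ?_)
      · push_cast
        linarith
      · push_cast
        linarith
    · rw [hvan _ (hwgM c₁ c₂) (hwgf c₁ c₂) P (hd.sing z hz P hP),
        hvan _ (hwgM c₁ c₂) (hwgf c₁ c₂) Q (hd.sing z hz Q hQ)]
  have hv'R : ∀ i, ∃ h : CP, v' i = π h := fun i => by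
    refine hO (v' i) (fun P hP => hv'f i P hP) (fun z hz hsg => ⟨0, fun P hP => ?_⟩)
      (fun z hz P Q hP hQ => ?_)
    · rw [map_zero, sub_zero]
      exact hv'Z i P ((hd.memZs P).2 ⟨z, hz, hsg, hP⟩)
    · rw [hvan _ (hv'M i) (hv'f i) P (hd.sing z hz P hP),
        hvan _ (hv'M i) (hv'f i) Q (hd.sing z hz Q hQ)]
  have hwgL : ∀ c₁ c₂ : ℂ, algebraMap ℂ F c₁ * w + algebraMap ℂ F c₂ * s.σ w ∈ L Y :=
    fun c₁ c₂ => by
    rw [← Algebra.smul_def, ← Algebra.smul_def]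
    refine Submodule.add_mem _ (Submodule.smul_mem _ _ (L_mono hF (fun P => ?_) hwL))
      (Submodule.smul_mem _ _ (L_mono hF (fun P => ?_) hswL))
    · have h1 := hU5 P
      have h2 := hdSn m P
      have h3 := hUn P
      have h4 := hlD P
      rw [hYv]
      linarith
    · have h1 := hU5 (s.cj P)
      rw [hU5s] at h1
      have h2 := hdSn m P
      have h3 := hUn P
      have h4 := hlD P
      rw [hYv, cjD_apply]
      linarith
  -- the real and imaginary parts of `w`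
  obtain ⟨hr1, hr2, hr3⟩ := parts69 s w
  obtain ⟨wr, hwr⟩ : ∃ x : F, x = algebraMap ℂ F (1 / 2) * (w + s.σ w) := ⟨_, rfl⟩
  obtain ⟨wi, hwi⟩ : ∃ x : F, x = algebraMap ℂ F (-Complex.I / 2) * (w - s.σ w) := ⟨_, rfl⟩
  rw [← hwr] at hr1 hr3
  rw [← hwi] at hr2 hr3
  have ewr : wr = algebraMap ℂ F (1 / 2) * w + algebraMap ℂ F (1 / 2) * s.σ w := by
    rw [hwr, mul_add]
  have ewi : wi = algebraMap ℂ F (-Complex.I / 2) * w +
      algebraMap ℂ F (-(-Complex.I / 2)) * s.σ w := by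
    rw [hwi, map_neg]
    ring
  have hall : ∀ j, ∃ b : A, b.totalDegree ≤ l ∧
      Fin.append ψ (Fin.append ![π (cx k), wr, wi] v') j = π (cx b) := by
    refine app69 ψ _ _ _ v' (fun x => ∃ b : A, b.totalDegree ≤ l ∧ x = π (cx b))
      (fun i => hl _ ?_ (hψr i) (hψR i)) (hl _ ?_ hκr ⟨_, rfl⟩) (hl _ ?_ hr1 ?_)
      (hl _ ?_ hr2 ?_) (fun i => hl _ ?_ (hv'r i) (hv'R i))
    · refine L_mono hF (fun P => ?_) (hψL i)
      have h1 := hU2 P
      rw [Finsupp.add_apply] at h1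
      have h2 := hdSn m P
      have h3 := hU1n P
      have h4 := hU3n P
      have h5 := hlD P
      have h6 := hU5n P
      have h7 := hXn P
      rw [hYv, hUv]
      linarith
    · refine L_mono hF (fun P => ?_) (hD lk (cx k) (by rw [totalDegree_cx]; exact hkd))
      have h1 := hUn P
      have h2 := hdSn m P
      have h3 := hU5n P
      rw [hYv, Finsupp.smul_apply, smul_eq_mul]
      linarith
    · rw [ewr]
      exact hwgL _ _
    · rw [ewr]
      exact hwgR _ _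
    · rw [ewi]
      exact hwgL _ _
    · rw [ewi]
      exact hwgR _ _
    · rw [mem_L hF]
      intro P
      refine (hv'o i P).mono ?_
      have h1 := hdZn P
      have h2 := hlD P
      have h3 := hU5n P
      rw [hYv]
      linarith
  choose b hbd hbg using hall
  refine ⟨M + (3 + n₂), b, by omega, hbd, ?_, ?_, ?_⟩
  · rw [← hc.eq_zero_iff, map_sub, map_sub, map_sum, map_sum, sub_eq_zero]
    have e1 : ∑ j, π (cx (b j ^ 2)) =
        ∑ j, Fin.append ψ (Fin.append ![π (cx k), wr, wi] v') j ^ 2 :=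
      Finset.sum_congr rfl fun j _ => by rw [map_pow, map_pow, ← hbg j]
    rw [e1, sum69, ← hf₂v, hf₂, hφ₁]
    linear_combination -hr3
  · intro P hP j a ha
    rw [← hbg j]
    refine Fin.addCases (motive := fun j => Oge P (a + 1)
      (Fin.append ψ (Fin.append ![π (cx k), wr, wi] v') j -
        π (cx (if h : (j : ℕ) < n then B ⟨j, h⟩ else 0)))) (fun i => ?_) (fun i => ?_) j
    · have h1 : Oge P (a + 1) (ψ i - if h : (i : ℕ) < n then π (cx (B ⟨i, h⟩)) else 0) :=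
        hψB P hP i a ha
      rw [Fin.append_left]
      by_cases h : (i : ℕ) < n
      · rw [dif_pos h] at h1
        rw [dif_pos (show ((Fin.castAdd (3 + n₂) i : Fin (M + (3 + n₂))) : ℕ) < n from h)]
        exact h1
      · rw [dif_neg h] at h1
        rw [dif_neg (show ¬ ((Fin.castAdd (3 + n₂) i : Fin (M + (3 + n₂))) : ℕ) < n from h),
          map_zero, map_zero]
        exact h1
    · rw [Fin.append_right, dif_neg (show ¬ ((Fin.natAdd M i : Fin (M + (3 + n₂))) : ℕ) < n by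
        rw [Fin.val_natAdd]
        omega), map_zero, map_zero, sub_zero]
      refine app_in69 _ _ _ v' (fun x => Oge P (a + 1) x) (hκM P hP a ha) ?_ ?_
        (fun i => hv'M i P hP a ha) i
      · rw [ewr]
        exact hwgM _ _ P hP a ha
      · rw [ewi]
        exact hwgM _ _ P hP a ha
  · intro z hz hzp
    refine ⟨Fin.natAdd M (Fin.castAdd n₂ 0), ?_⟩
    have h1 := hbg (Fin.natAdd M (Fin.castAdd n₂ 0))
    rw [Fin.append_right, Fin.append_left] at h1
    have h2 : π (cx k) = π (cx (b (Fin.natAdd M (Fin.castAdd n₂ 0)))) := h1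
    have h3 : p ∣ k - b (Fin.natAdd M (Fin.castAdd n₂ 0)) := by
      rw [← hc.eq_zero_iff, map_sub, map_sub, h2, sub_self]
    obtain ⟨q, hq⟩ := h3
    have h4 := congrArg (fun x => eval z (cx x)) hq
    simp only [map_sub, map_mul, hzp, zero_mul] at h4
    rw [← sub_eq_zero.1 h4]
    exact hk3 z hz hzp

end Pool.Agent.Helper10.GN
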