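import Pool.Agent.Helper10.GN.Rot
import Pool.Agent.Helper10.GN.Cmain
import Pool.Agent.Helper10.GN.Cve

set_option autoImplicit false

/-!
# Project GN, block CLOC: the curve theorem in terms of polynomials

Proof. `F, s, π` from `exists_crv`, `Mk` = all places over the (real) points of `Z` (`finite_over`; they are real: `real_smooth`, `node_places`),
`exists_data`, `curve_main`: `l`. For `f, B, T`: `N₀`, `b`; for `N ≥ N₀` extend `b` by zeros (all conditions for the new
indices are trivial, also `extB B N`). Let `P` be a place over a real zero `z` of `p` (`P` is real: smooth points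
`real_smooth`, singular points `node_places`), `2 a = ord_P (π f)` (even: `π f = ∑ (π B_j)²` is `Sos`, nonzero), `t` a real
uniformizer, `β_j = rv (B_j/t^a)`, `γ_j = rv (b_j/t^a)` (regular, as in block RTY), `∑ β_j² = ∑ γ_j² = rv (f/t^(2a)) > 0`.
`z ∈ Z`: by `curve_main` `Oge P (a + 1) (B_j - b_j)`, so `β = γ`, `β_j + γ_j = 2 β_j`, not all zero: `rot_van`.
Any `z`: if `z ∈ Z` take `ε = 1` (`RotV` implies `Rot`); otherwise `z` is smooth (`hsing`), there is one place over `z`
(`over_unique`), and for `ε = 1` or `ε = -1` the vector `ε β + γ` is not zero: `rot_smooth` for `ε B` (`p ∣ ∑ (ε B_j)² - ∑ b_j²`).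
-/

namespace Pool.Agent.Helper10.GN

open VC FF MvPolynomial Pool.Agent.Helper68.QM

variable {F : Type} [Field F] [Algebra ℂ F]

private theorem sosq_cl69 (s : RStr F) (hF : IsFunctionField ℂ F) {P : Place ℂ F}
    (hP : s.cj P = P) {n : ℕ} (v : Fin n → F) (hv : ∀ j, s.σ (v j) = v j) (m : ℕ)
    (hr : ∀ j, v j ∈ P.ring) (h : Oge P (2 * (m : ℤ)) (∑ j, v j ^ 2)) :
    ∀ j, Oge P (m : ℤ) (v j) := by
  obtain ⟨t, ht0, htr, ht1⟩ := exists_real_unif s hF hP
  have key : ∀ e : ℕ, e ≤ m → ∀ j, Oge P (e : ℤ) (v j) := by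
    intro e
    induction e with
    | zero =>
      intro _ j
      rw [Nat.cast_zero, oge_zero_iff hF]
      exact hr j
    | succ e ih =>
      intro he j
      have ih' := ih (by omega)
      have ht0e : t ^ e ≠ 0 := pow_ne_zero _ ht0
      have hord : ord P.ring (t ^ e) = e := by rw [FF.ord_pow hF P ht0, ht1, mul_one]
      have hu : ∀ i, v i / t ^ e ∈ P.ring := fun i => by
        rw [← oge_zero_iff hF, oge_div_iff hF ht0e, hord, zero_add]
        exact ih' i
      have hur : ∀ i, s.σ (v i / t ^ e) = v i / t ^ e := fun i => by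
        rw [map_div₀, map_pow, htr, hv]
      have hsum : ∑ i, (v i / t ^ e) ^ 2 = (∑ i, v i ^ 2) / (t ^ e) ^ 2 := by
        rw [Finset.sum_div]
        exact Finset.sum_congr rfl fun i _ => div_pow _ _ _
      have h1 : Oge P 1 (∑ i, (v i / t ^ e) ^ 2) := by
        rw [hsum, oge_div_iff hF (pow_ne_zero _ ht0e), FF.ord_pow hF P ht0e, hord]
        refine h.mono ?_
        push_cast
        omega
      have hsq : ∀ i, (v i / t ^ e) ^ 2 ∈ P.ring := fun i => by
        rw [pow_two]
        exact P.ring.mul_mem _ _ (hu i) (hu i)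
      have h2 : rv hF P (∑ i, (v i / t ^ e) ^ 2) = 0 := by
        have hmem : (∑ i, (v i / t ^ e) ^ 2) ∈ P.ring :=
          (oge_zero_iff hF).1 (h1.mono zero_le_one)
        unfold rv
        rw [(vl_eq_zero hF hmem).2 h1]
        rfl
      rw [rv_sum hF _ _ fun i _ => hsq i] at h2
      have h3 : ∀ i, rv hF P ((v i / t ^ e) ^ 2) = rv hF P (v i / t ^ e) ^ 2 := fun i =>
        rv_pow s hF hP (hu i) (hur i) 2
      rw [Finset.sum_congr rfl fun i _ => h3 i] at h2
      have h4 := (Finset.sum_eq_zero_iff_of_nonneg (fun i _ => sq_nonneg _)).1 h2 j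
        (Finset.mem_univ _)
      have h5 : vl hF P (v j / t ^ e) = 0 := by
        rw [vl_real s hF hP (hur j), (pow_eq_zero_iff two_ne_zero).1 h4]
        rfl
      have h6 := (vl_eq_zero hF (hu j)).1 h5
      rw [oge_div_iff hF ht0e, hord] at h6
      refine h6.mono ?_
      push_cast
      omega
  exact key m le_rfl

private theorem extB_lt69 {n N : ℕ} (B : Fin n → A) {j : Fin N} (h : (j : ℕ) < n) :
    extB B N j = B ⟨j, h⟩ := dif_pos h

private theorem extB_ge69 {n N : ℕ} (B : Fin n → A) {j : Fin N} (h : ¬ (j : ℕ) < n) :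
    extB B N j = 0 := dif_neg h

private theorem sum_extB69 {n N : ℕ} (B : Fin n → A) (hN : n ≤ N) :
    ∑ j, extB B N j ^ 2 = ∑ j, B j ^ 2 := by
  obtain ⟨k, rfl⟩ := Nat.exists_eq_add_of_le hN
  rw [Fin.sum_univ_add]
  have h1 : ∑ i : Fin k, extB B (n + k) (Fin.natAdd n i) ^ 2 = 0 :=
    Finset.sum_eq_zero fun i _ => by
      rw [extB_ge69 B (j := Fin.natAdd n i) (by rw [Fin.val_natAdd]; omega)]
      ring
  rw [h1, add_zero]
  exact Finset.sum_congr rfl fun i _ => by
    rw [extB_lt69 B (j := Fin.castAdd k i) i.2]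
    rfl

/-- orders of the terms of a sum of squares at a real place -/
private theorem ord69 {s : RStr F} (hF : IsFunctionField ℂ F) {p : A} {π : CP →ₐ[ℂ] F}
    (hc : IsCrv p s π) {f : A} (hpf : ¬ p ∣ f) {P : Place ℂ F} (hP : s.cj P = P)
    (hfin : FinP π P) :
    ∃ a : ℤ, ∀ (N : ℕ) (b : Fin N → A), p ∣ f - ∑ j, b j ^ 2 →
      (∀ j, Oge P a (π (cx (b j)))) ∧ ∃ j, ¬ Oge P (a + 1) (π (cx (b j))) := by
  have hφ0 : π (cx f) ≠ 0 := fun h => hpf ((hc.eq_zero_iff f).1 h)
  have hn0 : 0 ≤ ord P.ring (π (cx f)) :=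
    (FF.ord_nonneg_iff hF P hφ0).2 (mem_of_fin hfin _)
  refine ⟨ord P.ring (π (cx f)) / 2, fun N b hb => ?_⟩
  have hφB : π (cx f) = ∑ j, π (cx (b j)) ^ 2 := by
    have h1 := (hc.eq_zero_iff _).2 hb
    rw [map_sub, map_sub, map_sum, map_sum, sub_eq_zero] at h1
    rw [h1]
    exact Finset.sum_congr rfl fun j _ => by rw [map_pow, map_pow]
  have hSφ : Sos s (π (cx f)) := ⟨N, fun j => π (cx (b j)), fun j => hc.real _, hφB⟩
  obtain ⟨a, ha⟩ := (hSφ.posAt (hF := hF) hφ0 hP).even
  have ha2 : ord P.ring (π (cx f)) / 2 = a := by omega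
  rw [ha2]
  have ha0 : 0 ≤ a := by omega
  have h3 : (a.toNat : ℤ) = a := Int.toNat_of_nonneg ha0
  refine ⟨fun j => ?_, ?_⟩
  · have h4 := sosq_cl69 s hF hP (fun j => π (cx (b j))) (fun j => hc.real _) a.toNat
      (fun j => mem_of_fin hfin _) (by
        rw [h3, ← hφB]
        exact Or.inr ha.ge) j
    rwa [h3] at h4
  · by_contra hcon
    push Not at hcon
    have h5 : Oge P (2 * (a + 1)) (π (cx f)) := by
      rw [hφB]
      refine oge_sum hF _ _ fun j _ => ?_
      have := oge_pow hF (hcon j) 2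
      exact_mod_cast this
    rcases h5 with h5 | h5
    · exact hφ0 h5
    · omega

theorem curve_loc {p : A} (hp : Irreducible p) (hsc : SC p) (hn : NTy p)
    (hnode : ∀ z : Fin 2 → ℝ, Sg p z → hess p z < 0) (Z : Finset (Fin 2 → ℝ))
    (hZ : ∀ z ∈ Z, eval z p = 0) (hsing : ∀ z, Sg p z → z ∈ Z) (d : ℕ) :
    ∃ l : ℕ, ∀ f : A, f.totalDegree ≤ d → ¬ p ∣ f →
      ∀ (n : ℕ) (B : Fin n → A), p ∣ f - ∑ j, B j ^ 2 →
      ∀ T : Finset (Fin 2 → ℂ), (∀ z ∈ T, NR z) →
      ∃ N₀ : ℕ, ∀ N : ℕ, N₀ ≤ N → ∃ b : Fin N → A, (∀ j, (b j).totalDegree ≤ l) ∧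
        p ∣ f - ∑ j, b j ^ 2 ∧ (∀ z ∈ Z, RotV p z b (extB B N)) ∧
        (∀ z : Fin 2 → ℝ, eval z p = 0 → ∃ ε : ℝ, (ε = 1 ∨ ε = -1) ∧
          Rot p z b fun j => C ε * extB B N j) ∧
        ∀ z ∈ T, eval z (cx p) = 0 → ∃ j, eval z (cx (b j)) ≠ 0 := by
  classical
  obtain ⟨F, _, _, s, π, hF, hc⟩ := exists_crv hp hsc
  have hreal : ∀ z : Fin 2 → ℝ, eval z p = 0 → ∀ P, Over hF π P (cz z) → s.cj P = P := by
    intro z hz P hP
    by_cases hsg : Sg p z
    · obtain ⟨P₁, P₂, -, h1, h2, h3, -⟩ := node_places hF hc hsg (hnode z hsg)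
      rcases (h3 P).1 hP with h | h
      · rw [h, h1]
      · rw [h, h2]
    · have : ∃ i, eval z (pderiv i p) ≠ 0 := by
        by_contra hcon
        push Not at hcon
        exact hsg ⟨hz, hcon⟩
      obtain ⟨i, hi⟩ := this
      exact real_smooth hF hc hi hP
  obtain ⟨Mk, hMk⟩ : ∃ Mk : Finset (Place ℂ F), ∀ P, P ∈ Mk ↔ ∃ z ∈ Z, Over hF π P (cz z) := by
    refine ⟨Z.biUnion fun z => (finite_over hF hc (cz z)).toFinset, fun P => ?_⟩
    rw [Finset.mem_biUnion]
    refine exists_congr fun z => and_congr_right fun _ => ?_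
    rw [Set.Finite.mem_toFinset]
    exact Iff.rfl
  obtain ⟨S, R, Zs, hd⟩ := exists_data (hF := hF) (Mk := Mk) hc hp hsc hn hnode
    (fun P hP => by
      obtain ⟨z, hz, hPz⟩ := (hMk P).1 hP
      exact ⟨hreal z (hZ z hz) P hPz, hPz.1⟩)
    (fun z hz P hP => (hMk P).2 ⟨z, hsing z hz, hP⟩)
  obtain ⟨l, hl⟩ := curve_main hd d
  refine ⟨l, fun f hfd hpf n B hB T hT => ?_⟩
  obtain ⟨N₀, b₀, hnN, hbd, hbf, hbM, hbT⟩ := hl f hfd hpf n B hB T hT
  refine ⟨N₀, fun N hN => ⟨extB b₀ N, fun j => ?_, ?_, ?_⟩⟩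
  · by_cases h : (j : ℕ) < N₀
    · rw [extB_lt69 b₀ h]
      exact hbd _
    · rw [extB_ge69 b₀ h, totalDegree_zero]
      exact Nat.zero_le _
  · rw [sum_extB69 b₀ hN]
    exact hbf
  have hB' : p ∣ f - ∑ j, extB B N j ^ 2 := by
    rw [sum_extB69 B (hnN.trans hN)]
    exact hB
  have hb' : p ∣ f - ∑ j, extB b₀ N j ^ 2 := by
    rw [sum_extB69 b₀ hN]
    exact hbf
  have hRV : ∀ z ∈ Z, RotV p z (extB b₀ N) (extB B N) := by
    intro z hz
    refine rot_van hF hc hp (hZ z hz) (hnode z) _ _ ?_ fun P hP => ?_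
    · have := dvd_sub hb' hB'
      rwa [sub_sub_sub_cancel_left] at this
    · have hPr := hreal z (hZ z hz) P hP
      obtain ⟨a, ha⟩ := ord69 hF hc hpf hPr hP.1
      obtain ⟨h1, j, hj⟩ := ha N _ hB'
      obtain ⟨h2, -⟩ := ha N _ hb'
      -- the order of `f` is `2 a`
      have hφ0 : π (cx f) ≠ 0 := fun h => hpf ((hc.eq_zero_iff f).1 h)
      have hφB : π (cx f) = ∑ j, π (cx (extB B N j)) ^ 2 := by
        have h1 := (hc.eq_zero_iff _).2 hB'
        rw [map_sub, map_sub, map_sum, map_sum, sub_eq_zero] at h1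
        rw [h1]
        exact Finset.sum_congr rfl fun j _ => by rw [map_pow, map_pow]
      have hSφ : Sos s (π (cx f)) :=
        ⟨N, fun j => π (cx (extB B N j)), fun j => hc.real _, hφB⟩
      obtain ⟨a', ha'⟩ := (hSφ.posAt (hF := hF) hφ0 hPr).even
      have haa : a ≤ a' := by
        have h5 : Oge P (2 * a) (π (cx f)) := by
          rw [hφB]
          refine oge_sum hF _ _ fun j _ => ?_
          have := oge_pow hF (h1 j) 2
          exact_mod_cast this
        rcases h5 with h5 | h5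
        · exact absurd h5 hφ0
        · omega
      have hdiff : ∀ j, Oge P (a + 1) (π (cx (extB B N j - extB b₀ N j))) := by
        intro j
        rw [map_sub, map_sub]
        by_cases h : (j : ℕ) < N₀
        · have h3 := hbM P ((hMk P).2 ⟨z, hz, hP⟩) ⟨j, h⟩ a' ha'
          have h4 := oge_neg hF h3
          rw [neg_sub] at h4
          rw [extB_lt69 b₀ h]
          exact h4.mono (by omega)
        · rw [extB_ge69 b₀ h, extB_ge69 B (fun h' => h (h'.trans_le hnN)), sub_self]
          exact oge_zero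
      refine ⟨a, hdiff, fun j => ?_, j, fun hcon => hj ?_⟩
      · rw [map_add, map_add]
        exact oge_add hF (h1 j) (h2 j)
      · have e : π (cx (extB B N j)) = algebraMap ℂ F (1 / 2) *
            (π (cx (extB B N j + extB b₀ N j)) + π (cx (extB B N j - extB b₀ N j))) := by
          have e2 : algebraMap ℂ F (1 / 2) * 2 = 1 := by
            have : (2 : F) = algebraMap ℂ F 2 := (map_ofNat _ 2).symm
            rw [this, ← map_mul]
            norm_num
          rw [map_add, map_add, map_sub, map_sub]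
          linear_combination (- π (cx (extB B N j))) * e2
        rw [e]
        have h6 := oge_mul hF (oge_alg hF (P := P) (1 / 2)) (oge_add hF hcon (hdiff j))
        rwa [zero_add] at h6
  refine ⟨hRV, fun z hz => ?_, fun z hz hzp => ?_⟩
  · by_cases hzZ : z ∈ Z
    · refine ⟨1, Or.inl rfl, ?_⟩
      have e : (fun j => C (1 : ℝ) * extB B N j) = extB B N := by
        funext j
        rw [C_1, one_mul]
      rw [e]
      obtain ⟨-, D, M, h1, h2, -, h3⟩ := hRV z hzZ
      exact ⟨D, M, h1, h2, h3⟩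
    · have : ∃ i, eval z (pderiv i p) ≠ 0 := by
        by_contra hcon
        push Not at hcon
        exact hzZ (hsing z ⟨hz, hcon⟩)
      obtain ⟨i, hi⟩ := this
      obtain ⟨P₀, hP₀⟩ := exists_over hF hc (z := cz z) (by rw [eval_cx, hz]; rfl)
      have hi' : eval (cz z) (pderiv i (cx p)) ≠ 0 := by
        rw [pderiv_cx, eval_cx]
        exact_mod_cast hi
      have huniq : ∀ P, Over hF π P (cz z) → P = P₀ := fun P hP =>
        over_unique hF hc hi' hP hP₀
      obtain ⟨a, ha⟩ := ord69 hF hc hpf (hreal z hz P₀ hP₀) hP₀.1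
      obtain ⟨h1, j₀, hj₀⟩ := ha N _ hB'
      obtain ⟨h2, -⟩ := ha N _ hb'
      have hgen : ∀ ε : ℝ, (ε = 1 ∨ ε = -1) →
          (∃ j, ¬ Oge P₀ (a + 1) (π (cx (C ε * extB B N j + extB b₀ N j)))) →
          Rot p z (extB b₀ N) fun j => C ε * extB B N j := by
        intro ε hε hj
        refine rot_smooth hF hc hz hi _ _ ?_ fun P hP => ?_
        · have e : ∑ j, (C ε * extB B N j) ^ 2 = ∑ j, extB B N j ^ 2 := by
            refine Finset.sum_congr rfl fun j _ => ?_
            have h3 : (C ε : A) ^ 2 = 1 := by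
              rcases hε with rfl | rfl
              · rw [C_1, one_pow]
              · rw [C_neg, C_1]
                ring
            rw [mul_pow, h3, one_mul]
          rw [e]
          have := dvd_sub hb' hB'
          rwa [sub_sub_sub_cancel_left] at this
        · rw [huniq P hP]
          have h3 : ∀ j, Oge P₀ a (π (cx (C ε * extB B N j))) := fun j => by
            rw [map_mul, cx_C, map_mul, IsCrv.pi_C]
            have := oge_mul hF (oge_alg hF (P := P₀) (ε : ℂ)) (h1 j)
            rwa [zero_add] at this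
          refine ⟨a, fun j => ?_, fun j => ?_, hj⟩
          · rw [map_sub, map_sub]
            exact oge_sub hF (h3 j) (h2 j)
          · rw [map_add, map_add]
            exact oge_add hF (h3 j) (h2 j)
      by_cases hcase : ∃ j, ¬ Oge P₀ (a + 1) (π (cx (C (1 : ℝ) * extB B N j + extB b₀ N j)))
      · exact ⟨1, Or.inl rfl, hgen 1 (Or.inl rfl) hcase⟩
      · refine ⟨-1, Or.inr rfl, hgen (-1) (Or.inr rfl) ⟨j₀, fun hcon => hj₀ ?_⟩⟩
        push Not at hcase
        have h5 := hcase j₀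
        have e : π (cx (extB B N j₀)) = algebraMap ℂ F (1 / 2) *
            (π (cx (C (1 : ℝ) * extB B N j₀ + extB b₀ N j₀)) -
              π (cx (C (-1 : ℝ) * extB B N j₀ + extB b₀ N j₀))) := by
          have e2 : algebraMap ℂ F (1 / 2) * 2 = 1 := by
            have : (2 : F) = algebraMap ℂ F 2 := (map_ofNat _ 2).symm
            rw [this, ← map_mul]
            norm_num
          rw [C_neg, C_1, map_add, map_add, map_add, map_add, map_mul, map_mul, map_mul, map_mul,
            map_neg, map_one, map_neg, map_one]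
          linear_combination (- π (cx (extB B N j₀))) * e2
        rw [e]
        have h6 := oge_mul hF (oge_alg hF (P := P₀) (1 / 2)) (oge_sub hF h5 hcon)
        rwa [zero_add] at h6
  · obtain ⟨j, hj⟩ := hbT z hz hzp
    refine ⟨⟨j, j.2.trans_le hN⟩, ?_⟩
    rw [extB_lt69 b₀ (j := ⟨j, j.2.trans_le hN⟩) j.2]
    exact hj

end Pool.Agent.Helper10.GN
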