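import Pool.Agent.Helper10.GN.Smo

set_option autoImplicit false

/-!
# Project GN, block SMP: smooth points of the curve

Let `z` be a point of the curve with `∂p/∂X_i (z) ≠ 0`, `j ≠ i` the other index (`j = 1 - i`). Apply `smooth_place` and
`smooth_repr` to `t = π (X i - C (z i))`, `u = π (X j - C (z j))` and
`f(T, U) = cx p` with `X i = z i + T`, `X j = z j + U` (`MvPolynomial.aeval`/`bind₁`; `f(t,u) = π (cx p) = 0`). `t`, `u` generate `F`
by `hc.frac` (substitute back). `P` lies over `z` iff `t, u ∈ P.ring.nonunits` (`vl_eq_iff`).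
`loc_smooth`: for `x ∈ P.ring`, `x ≠ 0`, `ord_P x ≥ 0`, so `x = u^k c(t,u)/d(t,u)` gives `Loc π z x`.
-/

namespace Pool.Agent.Helper10.GN

open VC FF MvPolynomial Pool.Agent.Helper68.QM

variable {F : Type} [Field F] [Algebra ℂ F] {s : RStr F} (hF : IsFunctionField ℂ F)
variable {p : A} {π : CP →ₐ[ℂ] F}

/-- the substitution `X i ↦ T + z i`, `X j ↦ U + z j` -/
private noncomputable def tau50 (z : Fin 2 → ℂ) (i : Fin 2) : CP →ₐ[ℂ] CP :=
  MvPolynomial.aeval fun m => if m = i then X 0 + C (z m) else X 1 + C (z m)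

/-- the substitution `T ↦ X i - z i`, `U ↦ X j - z j` -/
private noncomputable def sub50 (z : Fin 2 → ℂ) (i j : Fin 2) : CP →ₐ[ℂ] CP :=
  MvPolynomial.aeval ![X i - C (z i), X j - C (z j)]

private theorem fin50 {i j : Fin 2} (hj : j ≠ i) (m : Fin 2) : m = i ∨ m = j := by
  omega

private theorem tau50_aeval (π : CP →ₐ[ℂ] F) (z : Fin 2 → ℂ) {i j : Fin 2} (hj : j ≠ i) (h : CP) :
    aeval ![π (X i - C (z i)), π (X j - C (z j))] (tau50 z i h) = π h := by
  have e : (aeval ![π (X i - C (z i)), π (X j - C (z j))] : CP →ₐ[ℂ] F).comp (tau50 z i) = π := by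
    apply MvPolynomial.algHom_ext
    intro m
    rw [AlgHom.comp_apply, tau50, aeval_X]
    rcases fin50 hj m with rfl | rfl
    · rw [if_pos rfl, map_add, aeval_X, algHom_C, Matrix.cons_val_zero, map_sub, algHom_C,
        sub_add_cancel]
    · rw [if_neg hj, map_add, aeval_X, algHom_C, Matrix.cons_val_one, Matrix.cons_val_zero,
        map_sub, algHom_C, sub_add_cancel]
  exact DFunLike.congr_fun e h

private theorem tau50_eval (z : Fin 2 → ℂ) (i : Fin 2) (h : CP) :
    eval 0 (tau50 z i h) = eval z h := by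
  induction h using MvPolynomial.induction_on with
  | C a => rw [algHom_C, algebraMap_eq, eval_C, eval_C]
  | add p q hp hq => rw [map_add, map_add, map_add, hp, hq]
  | mul_X p n hp =>
    rw [map_mul, map_mul, map_mul, hp, eval_X]
    congr 1
    rw [tau50, aeval_X]
    split_ifs <;> simp

private theorem tau50_pderiv (z : Fin 2 → ℂ) (i : Fin 2) (h : CP) :
    pderiv 0 (tau50 z i h) = tau50 z i (pderiv i h) := by
  induction h using MvPolynomial.induction_on with
  | C a => rw [algHom_C, algebraMap_eq, pderiv_C, pderiv_C, map_zero]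
  | add p q hp hq => rw [map_add, map_add, map_add, map_add, hp, hq]
  | mul_X p n hp =>
    rw [map_mul, pderiv_mul, pderiv_mul, hp, map_add, map_mul, map_mul]
    congr 2
    rw [tau50, aeval_X]
    by_cases hn : n = i
    · subst hn
      rw [if_pos rfl, map_add, pderiv_X_self, pderiv_C, pderiv_X_self, add_zero, map_one]
    · rw [if_neg hn, map_add, pderiv_C, pderiv_X_of_ne (by decide), pderiv_X_of_ne hn, add_zero,
        map_zero]

private theorem sub50_aeval (π : CP →ₐ[ℂ] F) (z : Fin 2 → ℂ) (i j : Fin 2) (h : CP) :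
    π (sub50 z i j h) = aeval ![π (X i - C (z i)), π (X j - C (z j))] h := by
  have e : π.comp (sub50 z i j) =
      (aeval ![π (X i - C (z i)), π (X j - C (z j))] : CP →ₐ[ℂ] F) := by
    apply MvPolynomial.algHom_ext
    intro m
    rw [AlgHom.comp_apply, sub50, aeval_X, aeval_X]
    fin_cases m <;> rfl
  exact DFunLike.congr_fun e h

private theorem sub50_eval (z : Fin 2 → ℂ) (i j : Fin 2) (h : CP) :
    eval z (sub50 z i j h) = eval 0 h := by
  induction h using MvPolynomial.induction_on with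
  | C a => rw [algHom_C, algebraMap_eq, eval_C, eval_C]
  | add p q hp hq => rw [map_add, map_add, map_add, hp, hq]
  | mul_X p n hp =>
    rw [map_mul, map_mul, map_mul, hp, eval_X]
    congr 1
    rw [sub50, aeval_X]
    fin_cases n <;> simp

private theorem nonunit50 {P : Place ℂ F} {z : Fin 2 → ℂ} (h : Over hF π P z) (i : Fin 2) :
    π (X i - C (z i)) ∈ P.ring.nonunits := by
  rw [map_sub, algHom_C]
  exact (vl_eq_iff hF (h.1 i) (z i)).1 (h.2 i)

private theorem gen50 (hc : IsCrv p s π) (z : Fin 2 → ℂ) {i j : Fin 2} (hj : j ≠ i) (x : F) :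
    ∃ a b : CP, aeval ![π (X i - C (z i)), π (X j - C (z j))] b ≠ 0 ∧
      x = aeval ![π (X i - C (z i)), π (X j - C (z j))] a /
        aeval ![π (X i - C (z i)), π (X j - C (z j))] b := by
  obtain ⟨a, b, hb, hx⟩ := hc.frac x
  refine ⟨tau50 z i a, tau50 z i b, ?_, ?_⟩
  · rw [tau50_aeval π z hj]
    exact hb
  · rw [tau50_aeval π z hj, tau50_aeval π z hj]
    exact hx

private theorem eq50 (hc : IsCrv p s π) (z : Fin 2 → ℂ) {i j : Fin 2} (hj : j ≠ i) :
    aeval ![π (X i - C (z i)), π (X j - C (z j))] (tau50 z i (cx p)) = 0 := by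
  rw [tau50_aeval π z hj]
  exact (hc.ker _).2 dvd_rfl

private theorem place50 (hc : IsCrv p s π) {z : Fin 2 → ℂ} {i : Fin 2}
    (hd : eval z (pderiv i (cx p)) ≠ 0) {P Q : Place ℂ F} (hP : Over hF π P z)
    (hQ : Over hF π Q z) {j : Fin 2} (hj : j ≠ i) :
    P = Q ∧ π (X j - C (z j)) ≠ 0 ∧ ord P.ring (π (X j - C (z j))) = 1 := by
  refine smooth_place hF (eq50 hc z hj) ?_ ?_ (gen50 hc z hj) (nonunit50 hF hP i)
    (nonunit50 hF hP j) (nonunit50 hF hQ i) (nonunit50 hF hQ j)
  · rw [tau50_eval]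
    exact over_zero hF hc hP
  · rw [tau50_pderiv, tau50_eval]
    exact hd

theorem over_unique (hc : IsCrv p s π) {z : Fin 2 → ℂ} {i : Fin 2}
    (hd : eval z (pderiv i (cx p)) ≠ 0) {P Q : Place ℂ F} (hP : Over hF π P z)
    (hQ : Over hF π Q z) : P = Q := by
  obtain ⟨j, hj⟩ : ∃ j : Fin 2, j ≠ i := ⟨1 - i, by omega⟩
  exact (place50 hF hc hd hP hQ hj).1

theorem ord_param (hc : IsCrv p s π) {z : Fin 2 → ℂ} {i : Fin 2}
    (hd : eval z (pderiv i (cx p)) ≠ 0) {P : Place ℂ F} (hP : Over hF π P z) {j : Fin 2}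
    (hj : j ≠ i) : π (X j - C (z j)) ≠ 0 ∧ ord P.ring (π (X j - C (z j))) = 1 := by
  exact (place50 hF hc hd hP hP hj).2

theorem loc_smooth (hc : IsCrv p s π) {z : Fin 2 → ℂ} {i : Fin 2}
    (hd : eval z (pderiv i (cx p)) ≠ 0) {P : Place ℂ F} (hP : Over hF π P z) {x : F}
    (hx : x ∈ P.ring) : Loc π z x := by
  obtain ⟨j, hj⟩ : ∃ j : Fin 2, j ≠ i := ⟨1 - i, by omega⟩
  by_cases hx0 : x = 0
  · refine ⟨0, 1, ?_, ?_⟩
    · rw [map_one]
      exact one_ne_zero
    · rw [hx0, mul_zero, map_zero]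
  obtain ⟨c, d, hc0, hd0, hx1⟩ := smooth_repr hF (eq50 hc z hj) (by
      rw [tau50_eval]
      exact over_zero hF hc hP) (by
      rw [tau50_pderiv, tau50_eval]
      exact hd) (gen50 hc z hj) (nonunit50 hF hP i) (nonunit50 hF hP j) x hx0
  obtain ⟨n, hn⟩ : ∃ n : ℕ, ord P.ring x = n :=
    ⟨(ord P.ring x).toNat, (Int.toNat_of_nonneg ((FF.ord_nonneg_iff hF P hx0).2 hx)).symm⟩
  rw [hn, zpow_natCast] at hx1
  have hb : eval z (sub50 z i j d) ≠ 0 := by
    rw [sub50_eval]
    exact hd0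
  have hb' : aeval ![π (X i - C (z i)), π (X j - C (z j))] d ≠ 0 := by
    rw [← sub50_aeval]
    intro h0
    apply hb
    rw [← vl_over hF hP, h0, vl_zero]
  refine ⟨(X j - C (z j)) ^ n * sub50 z i j c, sub50 z i j d, hb, ?_⟩
  rw [map_mul, map_pow, sub50_aeval, sub50_aeval]
  rw [hx1]
  field_simp

/-- the place over a real smooth point is real -/
theorem real_smooth (hc : IsCrv p s π) {z : Fin 2 → ℝ} {i : Fin 2}
    (hd : eval z (pderiv i p) ≠ 0) {P : Place ℂ F} (hP : Over hF π P (cz z)) : s.cj P = P := by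
  have hz : zbar (cz z) = cz z := by
    funext m
    exact Complex.conj_ofReal _
  have hd' : eval (cz z) (pderiv i (cx p)) ≠ 0 := by
    rw [pderiv_cx, eval_cx]
    exact_mod_cast hd
  have h1 := over_cj hF hc hP
  rw [hz] at h1
  exact over_unique hF hc hd' h1 hP

end Pool.Agent.Helper10.GN
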