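import Pool.Agent.Helper10.GN.Cdr
import Pool.Agent.Helper10.GN.Smp

set_option autoImplicit false

/-!
# Project GN, block CO2: conductor, local membership

`conductor`: for `l ∈ ℂ` let `Q_l(X, Y) = (cx p)(X + l Y, Y)`, `x' = π (X 0) - l π (X 1)`, `y = π (X 1)`. The coefficient of
`Y^n` in `Q_l` is the value of the top form of `cx p` at `(l, 1)`, nonzero for all but finitely many `l`; the other hypotheses of
`conductor_monic` follow from `hc` by substitution (automorphism of `ℂ[X, Y]`); `x'` and `y` are regular at `P` iff `FinP π P`.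
`∂Q_l/∂Y (x', y) = π (l • pderiv 0 (cx p) + pderiv 1 (cx p))` (chain rule). So for two different `l` we get
that `π (l • p_x + p_y) * f` is in the range of `π`; subtract.

`mem_of_loc`: the set `I` of all `b : CP` with `π b * f ∈ range π` is an ideal containing `cx p`. If `I ≠ ⊤` it is
contained in a maximal ideal, which is the ideal of a point `z` (`MvPolynomial.isMaximal_iff_eq_vanishingIdeal_singleton`,
Nullstellensatz), `eval z (cx p) = 0`; but `Loc π z f` gives an element of `I` not vanishing at `z`.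

`loc_of_cond`: `f = 0` is clear. Let `D = ∑ c_i pderiv i (cx p)`, `f' = f / π D`, regular at all places over `z`. For the finitely
many finite places `P` not over `z` with `f' ∉ P.ring` there is a `b_P : CP` vanishing at the center of `P`, `b_P(z) ≠ 0`
(a linear form); a large power `b` of the product makes `π b * f'` regular at all finite places, so
`π D * (π b * f') = π b * f` is in the range of `π` by `conductor` (sum over `i`), `eval z b ≠ 0`.

`loc_add`, `loc_pi`: `Loc` is closed under addition, contains `π h`.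
-/

namespace Pool.Agent.Helper10.GN

open VC FF MvPolynomial Pool.Agent.Helper68.QM

variable {F : Type} [Field F] [Algebra ℂ F] {s : RStr F} (hF : IsFunctionField ℂ F)
variable {p : A} {π : CP →ₐ[ℂ] F}

/-- the substitution `X ↦ X + l Y` -/
private noncomputable def sb (l : ℂ) : CP →ₐ[ℂ] CP := aeval ![X 0 + C l * X 1, X 1]

private theorem sb_X0 (l : ℂ) : sb l (X 0) = X 0 + C l * X 1 := by
  unfold sb
  rw [aeval_X]
  rfl

private theorem sb_X1 (l : ℂ) : sb l (X 1) = X 1 := by
  unfold sb
  rw [aeval_X]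
  rfl

private theorem sb_C (l c : ℂ) : sb l (C c) = C c := by
  rw [← MvPolynomial.algebraMap_eq, AlgHom.commutes]

private theorem sb_sb (l : ℂ) (h : CP) : sb l (sb (-l) h) = h := by
  induction h using MvPolynomial.induction_on with
  | C a => rw [sb_C, sb_C]
  | add p q hp hq => rw [map_add, map_add, hp, hq]
  | mul_X p i hp =>
    have h0 : sb l (sb (-l) (X 0)) = X 0 := by
      rw [sb_X0, map_add, map_mul, sb_C, sb_X0, sb_X1, C_neg]
      ring
    have h1 : sb l (sb (-l) (X 1)) = X 1 := by rw [sb_X1, sb_X1]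
    have h2 : ∀ i, sb l (sb (-l) (X i)) = X i := Fin.forall_fin_two.2 ⟨h0, h1⟩
    rw [map_mul, map_mul, hp, h2]

private theorem sb_sb' (l : ℂ) (h : CP) : sb (-l) (sb l h) = h := by
  have := sb_sb (-l) h
  rwa [neg_neg] at this

private theorem pderiv_sb (l : ℂ) (h : CP) :
    pderiv 1 (sb l h) = sb l (C l * pderiv 0 h + pderiv 1 h) := by
  have h0 : pderiv 1 (sb l (X 0)) = sb l (C l * pderiv 0 (X 0) + pderiv 1 (X 0)) := by
    rw [sb_X0, map_add, pderiv_mul, pderiv_C, pderiv_X_self, pderiv_X_self,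
      pderiv_X_of_ne (by decide : (0 : Fin 2) ≠ 1), map_add, map_mul, map_one, map_zero, sb_C]
    ring
  have h1 : pderiv 1 (sb l (X 1)) = sb l (C l * pderiv 0 (X 1) + pderiv 1 (X 1)) := by
    rw [sb_X1, pderiv_X_self, pderiv_X_of_ne (by decide : (1 : Fin 2) ≠ 0), map_add, map_mul,
      map_one, map_zero]
    ring
  have h2 : ∀ i, pderiv 1 (sb l (X i)) = sb l (C l * pderiv 0 (X i) + pderiv 1 (X i)) :=
    Fin.forall_fin_two.2 ⟨h0, h1⟩
  induction h using MvPolynomial.induction_on with
  | C a => simp only [sb_C, pderiv_C, mul_zero, add_zero, map_zero]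
  | add p q hp hq =>
    simp only [map_add, map_mul] at hp hq ⊢
    rw [hp, hq]
    ring
  | mul_X p i hp =>
    have h3 := h2 i
    rw [map_mul, pderiv_mul, hp, h3, pderiv_mul, pderiv_mul]
    simp only [map_add, map_mul]
    ring

/-- the restriction to `X 0 = 0` -/
private noncomputable def th : CP →ₐ[ℂ] Polynomial ℂ := aeval ![0, Polynomial.X]

private theorem th_X0 : th (X 0) = 0 := by
  unfold th
  rw [aeval_X]
  rfl

private theorem th_X1 : th (X 1) = Polynomial.X := by
  unfold th
  rw [aeval_X]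
  rfl

private theorem th_C (c : ℂ) : th (C c) = Polynomial.C c := by
  rw [← MvPolynomial.algebraMap_eq, AlgHom.commutes, Polynomial.algebraMap_eq]

private theorem mono_eq (m : Fin 2 →₀ ℕ) (c : ℂ) :
    monomial m c = C c * (X 0 ^ m 0 * X 1 ^ m 1) := by
  rw [monomial_eq, Finsupp.prod_fintype _ _ (fun i => pow_zero _), Fin.prod_univ_two]

private theorem th_coeff (h : CP) (n : ℕ) : (th h).coeff n = coeff (Finsupp.single 1 n) h := by
  classical
  induction h using MvPolynomial.induction_on' with
  | monomial m c =>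
    rw [mono_eq, map_mul, map_mul, map_pow, map_pow, th_X0, th_X1, ← mono_eq, coeff_monomial,
      ← MvPolynomial.algebraMap_eq, AlgHom.commutes, Polynomial.algebraMap_eq]
    by_cases h0 : m 0 = 0
    · rw [h0, pow_zero, one_mul, Polynomial.coeff_C_mul, Polynomial.coeff_X_pow]
      by_cases h1 : n = m 1
      · have e : m = Finsupp.single 1 n := by
          ext i
          fin_cases i
          · simpa using h0
          · simpa using h1.symm
        rw [if_pos h1, if_pos e, mul_one]
      · have e : ¬ m = Finsupp.single 1 n := by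
          intro h2
          apply h1
          rw [h2]
          simp
        rw [if_neg h1, if_neg e, mul_zero]
    · have e : ¬ m = Finsupp.single 1 n := by
        intro h2
        apply h0
        rw [h2]
        simp
      rw [zero_pow h0, zero_mul, mul_zero, Polynomial.coeff_zero, if_neg e]
  | add p q hp hq => rw [map_add, Polynomial.coeff_add, hp, hq, coeff_add]

private theorem as_mono (h : CP) :
    h = ∑ m ∈ h.support, C (coeff m h) * (X 0 ^ m 0 * X 1 ^ m 1) := by
  conv_lhs => rw [h.as_sum]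
  exact Finset.sum_congr rfl fun m _ => mono_eq m _

private theorem deg_mono (h : CP) {m : Fin 2 →₀ ℕ} (hm : m ∈ h.support) :
    m 0 + m 1 ≤ h.totalDegree := by
  have h1 := le_totalDegree hm
  rwa [Finsupp.sum_fintype _ _ (fun i => rfl), Fin.sum_univ_two] at h1

private theorem sb_deg (l : ℂ) (h : CP) : (sb l h).totalDegree ≤ h.totalDegree := by
  conv_lhs => rw [as_mono h]
  rw [map_sum]
  refine (totalDegree_finsetSum _ _).trans (Finset.sup_le fun m hm => ?_)
  refine le_trans ?_ (deg_mono h hm)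
  rw [map_mul, map_mul, map_pow, map_pow, sb_C, sb_X0, sb_X1]
  refine (totalDegree_mul _ _).trans ?_
  rw [totalDegree_C, zero_add]
  refine (totalDegree_mul _ _).trans ?_
  apply Nat.add_le_add
  · refine (totalDegree_pow _ _).trans ?_
    have h1 : (X 0 + C l * X 1 : CP).totalDegree ≤ 1 := by
      refine (totalDegree_add _ _).trans (max_le ?_ ?_)
      · rw [totalDegree_X]
      · refine (totalDegree_mul _ _).trans ?_
        rw [totalDegree_C, totalDegree_X]
    calc m 0 * (X 0 + C l * X 1 : CP).totalDegree ≤ m 0 * 1 := Nat.mul_le_mul_left _ h1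
      _ = m 0 := mul_one _
  · refine (totalDegree_pow _ _).trans ?_
    rw [totalDegree_X, mul_one]

/-- the value of the top form at `(l, 1)`, as a polynomial in `l` -/
private noncomputable def tp (h : CP) : Polynomial ℂ :=
  ∑ m ∈ h.support.filter (fun m => m 0 + m 1 = h.totalDegree),
    Polynomial.C (coeff m h) * Polynomial.X ^ m 0

private theorem tp_ne (h : CP) (h0 : h ≠ 0) : tp h ≠ 0 := by
  classical
  obtain ⟨m, hm, hd⟩ : ∃ m ∈ h.support, m 0 + m 1 = h.totalDegree := by
    have h1 : h.support.Nonempty := support_nonempty.2 h0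
    obtain ⟨m, hm, hd⟩ := Finset.exists_mem_eq_sup h.support h1 (fun m => m.sum fun _ e => e)
    refine ⟨m, hm, ?_⟩
    have h2 : h.totalDegree = m.sum fun _ e => e := hd
    rw [h2, Finsupp.sum_fintype _ _ (fun i => rfl), Fin.sum_univ_two]
  intro h1
  have h2 := congrArg (fun q => Polynomial.coeff q (m 0)) h1
  simp only [Polynomial.coeff_zero] at h2
  unfold tp at h2
  rw [Polynomial.finsetSum_coeff, Finset.sum_eq_single m] at h2
  · rw [Polynomial.coeff_C_mul, Polynomial.coeff_X_pow, if_pos rfl, mul_one] at h2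
    exact (mem_support_iff.1 hm) h2
  · intro m' hm' hne
    rw [Finset.mem_filter] at hm'
    rw [Polynomial.coeff_C_mul, Polynomial.coeff_X_pow, if_neg, mul_zero]
    intro h3
    apply hne
    ext i
    fin_cases i
    · exact h3.symm
    · change m' 1 = m 1
      have h4 := hm'.2
      omega
  · intro h3
    exact absurd (Finset.mem_filter.2 ⟨hm, hd⟩) h3

private theorem sb_top (l : ℂ) (h : CP) :
    coeff (Finsupp.single 1 h.totalDegree) (sb l h) = (tp h).eval l := by
  classical
  rw [← th_coeff]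
  conv_lhs => rw [as_mono h]
  unfold tp
  rw [map_sum, map_sum, Polynomial.finsetSum_coeff, Polynomial.eval_finsetSum, Finset.sum_filter]
  rw [← as_mono h]
  apply Finset.sum_congr rfl
  intro m _
  have e : th (sb l (C (coeff m h) * (X 0 ^ m 0 * X 1 ^ m 1))) =
      Polynomial.C (coeff m h * l ^ m 0) * Polynomial.X ^ (m 0 + m 1) := by
    simp only [map_mul, map_pow, map_add, sb_C, sb_X0, sb_X1, th_X0, th_X1, th_C, zero_add]
    rw [mul_pow, pow_add]
    ring
  rw [e, Polynomial.coeff_C_mul, Polynomial.coeff_X_pow]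
  by_cases h1 : m 0 + m 1 = h.totalDegree
  · rw [if_pos h1, if_pos h1.symm, Polynomial.eval_mul, Polynomial.eval_C, Polynomial.eval_pow,
      Polynomial.eval_X, mul_one]
  · rw [if_neg h1, if_neg (fun h2 => h1 h2.symm), mul_zero]

private theorem two_good (h : CP) (h0 : h ≠ 0) :
    ∃ l l' : ℂ, l ≠ l' ∧ (tp h).eval l ≠ 0 ∧ (tp h).eval l' ≠ 0 := by
  classical
  obtain ⟨l, hl⟩ := Infinite.exists_notMem_finset (tp h).roots.toFinset
  obtain ⟨l', hl'⟩ := Infinite.exists_notMem_finset (insert l (tp h).roots.toFinset)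
  have key : ∀ x, x ∉ (tp h).roots.toFinset → (tp h).eval x ≠ 0 := by
    intro x hx h1
    apply hx
    rw [Multiset.mem_toFinset, Polynomial.mem_roots (tp_ne h h0)]
    exact h1
  refine ⟨l, l', ?_, key l hl, key l' fun h1 => hl' (Finset.mem_insert_of_mem h1)⟩
  rintro rfl
  exact hl' (Finset.mem_insert_self _ _)

private theorem aeval_sb (π : CP →ₐ[ℂ] F) (l : ℂ) (h : CP) :
    aeval ![π (X 0) - algebraMap ℂ F l * π (X 1), π (X 1)] (sb l h) = π h := by
  induction h using MvPolynomial.induction_on with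
  | C a => rw [sb_C, ← MvPolynomial.algebraMap_eq, AlgHom.commutes, AlgHom.commutes]
  | add p q hp hq => rw [map_add, map_add, hp, hq, map_add]
  | mul_X p i hp =>
    rw [map_mul, map_mul, hp, map_mul]
    congr 1
    fin_cases i
    · change aeval _ (sb l (X 0)) = π (X 0)
      rw [sb_X0, map_add, map_mul, aeval_X, aeval_X, ← MvPolynomial.algebraMap_eq,
        AlgHom.commutes]
      simp
    · change aeval _ (sb l (X 1)) = π (X 1)
      rw [sb_X1, aeval_X]
      rfl

private theorem aeval_sb' (π : CP →ₐ[ℂ] F) (l : ℂ) (h : CP) :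
    aeval ![π (X 0) - algebraMap ℂ F l * π (X 1), π (X 1)] h = π (sb (-l) h) := by
  rw [← aeval_sb π l (sb (-l) h), sb_sb]

theorem conductor (hF : IsFunctionField ℂ F) (hc : IsCrv p s π) (hp : Irreducible p)
    (i : Fin 2) {f : F} (hf : ∀ P : Place ℂ F, FinP π P → f ∈ P.ring) :
    ∃ h : CP, π (pderiv i (cx p)) * f = π h := by
  have hcx : cx p ≠ 0 := by
    intro h0
    apply hp.ne_zero
    apply cx_injective
    rw [h0, map_zero]
  have key : ∀ l : ℂ, (tp (cx p)).eval l ≠ 0 →
      ∃ h : CP, (algebraMap ℂ F l * π (pderiv 0 (cx p)) + π (pderiv 1 (cx p))) * f = π h := by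
    intro l hl
    have h1 : coeff (Finsupp.single 1 (cx p).totalDegree) (sb l (cx p)) ≠ 0 := by
      rwa [sb_top]
    have h2 : (sb l (cx p)).totalDegree = (cx p).totalDegree := by
      apply le_antisymm (sb_deg l _)
      have h3 := le_totalDegree (mem_support_iff.2 h1)
      rwa [Finsupp.sum_single_index rfl] at h3
    have h3 : 1 ≤ (sb l (cx p)).totalDegree := by
      rw [h2]
      by_contra h4
      have h5 : (cx p).totalDegree = 0 := by omega
      rw [totalDegree_eq_zero_iff_eq_C] at h5
      have h6 : coeff 0 (cx p) ≠ 0 := by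
        intro h7
        apply hcx
        rw [h5, h7, C_0]
      have h7 : cx p ∣ 1 := by
        refine ⟨C (coeff 0 (cx p))⁻¹, ?_⟩
        conv_rhs => rw [h5]
        rw [coeff_C, if_pos rfl, ← C_mul, mul_inv_cancel₀ h6, C_1]
      have h8 := (hc.ker 1).2 h7
      rw [map_one] at h8
      exact one_ne_zero h8
    obtain ⟨h, hh⟩ := conductor_monic hF
      (x := π (X 0) - algebraMap ℂ F l * π (X 1)) (y := π (X 1)) (Q := sb l (cx p)) h3
      (by rw [h2]; exact h1)
      (by
        intro h
        rw [aeval_sb', hc.ker]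
        constructor
        · rintro ⟨u, hu⟩
          exact ⟨sb l u, by rw [← map_mul, ← hu, sb_sb]⟩
        · rintro ⟨u, hu⟩
          exact ⟨sb (-l) u, by rw [hu, map_mul, sb_sb']⟩)
      (by
        intro g
        obtain ⟨a, b, hb, hg⟩ := hc.frac g
        exact ⟨sb l a, sb l b, by rwa [aeval_sb], by rw [aeval_sb, aeval_sb]; exact hg⟩)
      (f := f)
      (by
        intro P hx hy
        apply hf P
        intro i
        fin_cases i
        · change π (X 0) ∈ P.ring
          have h4 := add_mem hx (P.ring.mul_mem _ _ (P.algebraMap_mem l) hy)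
          rwa [sub_add_cancel] at h4
        · exact hy)
    refine ⟨sb (-l) h, ?_⟩
    rw [pderiv_sb, aeval_sb, aeval_sb', map_add, map_mul, ← MvPolynomial.algebraMap_eq,
      AlgHom.commutes] at hh
    exact hh
  obtain ⟨l, l', hll, hl, hl'⟩ := two_good (cx p) hcx
  obtain ⟨h, hh⟩ := key l hl
  obtain ⟨h', hh'⟩ := key l' hl'
  have hne : algebraMap ℂ F (l - l') ≠ 0 := by
    rw [map_ne_zero_iff _ (algebraMap ℂ F).injective]
    exact sub_ne_zero.2 hll
  have e0 : π (pderiv 0 (cx p)) * f = π (C (l - l')⁻¹ * (h - h')) := by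
    rw [map_mul, map_sub, ← hh, ← hh', ← MvPolynomial.algebraMap_eq, AlgHom.commutes, map_inv₀]
    rw [map_sub] at hne ⊢
    field_simp
    ring
  fin_cases i
  · exact ⟨_, e0⟩
  · refine ⟨h - C l * (C (l - l')⁻¹ * (h - h')), ?_⟩
    change π (pderiv 1 (cx p)) * f = _
    rw [map_sub, map_mul, ← e0, ← hh, ← MvPolynomial.algebraMap_eq, AlgHom.commutes]
    ring

theorem mem_of_loc (hc : IsCrv p s π) {f : F} (h : ∀ z, eval z (cx p) = 0 → Loc π z f) :
    ∃ h : CP, f = π h := by
  let I : Ideal CP :=
    { carrier := {b | ∃ h : CP, π b * f = π h}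
      zero_mem' := ⟨0, by rw [map_zero, zero_mul]⟩
      add_mem' := by
        rintro a b ⟨h, hh⟩ ⟨h', hh'⟩
        exact ⟨h + h', by rw [map_add, add_mul, hh, hh', map_add]⟩
      smul_mem' := by
        rintro c b ⟨h, hh⟩
        exact ⟨c * h, by rw [smul_eq_mul, map_mul, mul_assoc, hh, map_mul]⟩ }
  have hI : ∀ b, b ∈ I ↔ ∃ h : CP, π b * f = π h := fun b => Iff.rfl
  by_cases htop : I = ⊤
  · have h1 : (1 : CP) ∈ I := by rw [htop]; trivial
    obtain ⟨h, hh⟩ := (hI 1).1 h1
    rw [map_one, one_mul] at hh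
    exact ⟨h, hh⟩
  · exfalso
    obtain ⟨M, hM, hIM⟩ := I.exists_le_maximal htop
    obtain ⟨z, hz⟩ := isMaximal_iff_eq_vanishingIdeal_singleton.1 hM
    have hmem : ∀ b, b ∈ M ↔ eval z b = 0 := by
      intro b
      rw [hz, mem_vanishingIdeal_singleton_iff]
      rfl
    have h1 : cx p ∈ I := ⟨0, by rw [(hc.ker (cx p)).2 dvd_rfl, zero_mul, map_zero]⟩
    obtain ⟨a, b, hb, hab⟩ := h z ((hmem _).1 (hIM h1))
    exact hb ((hmem b).1 (hIM ⟨a, hab⟩))

theorem loc_of_cond (hc : IsCrv p s π) (hp : Irreducible p) {z : Fin 2 → ℂ} (c : Fin 2 → ℂ)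
    (hne : π (∑ i, C (c i) * pderiv i (cx p)) ≠ 0) {f : F}
    (h : ∀ P, Over hF π P z → Oge P (ord P.ring (π (∑ i, C (c i) * pderiv i (cx p)))) f) :
    Loc π z f := by
  classical
  by_cases hf0 : f = 0
  · exact ⟨0, 1, by rw [map_one]; exact one_ne_zero, by rw [hf0, mul_zero, map_zero]⟩
  set D : CP := ∑ i, C (c i) * pderiv i (cx p) with hD
  set f' := f / π D with hf'
  have hf'0 : f' ≠ 0 := div_ne_zero hf0 hne
  have key : ∀ P : Place ℂ F, ∃ b : CP, eval z b ≠ 0 ∧ (FinP π P → π b * f' ∈ P.ring) := by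
    intro P
    by_cases h1 : f' ∈ P.ring
    · exact ⟨1, by rw [map_one]; exact one_ne_zero, fun _ => by rwa [map_one, one_mul]⟩
    by_cases h2 : FinP π P
    swap
    · exact ⟨1, by rw [map_one]; exact one_ne_zero, fun h3 => absurd h3 h2⟩
    obtain ⟨w, hw⟩ := exists_point hF h2
    have hwz : w ≠ z := by
      rintro rfl
      apply h1
      rw [← FF.ord_nonneg_iff hF P hf'0, hf', FF.ord_div hF P hf0 hne]
      rcases h P hw with h3 | h3
      · exact absurd h3 hf0
      · omega
    obtain ⟨i, hi⟩ := Function.ne_iff.1 hwz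
    refine ⟨(X i - C (w i)) ^ (- ord P.ring f').toNat, ?_, fun _ => ?_⟩
    · rw [map_pow, map_sub, eval_X, eval_C]
      exact pow_ne_zero _ (sub_ne_zero.2 hi.symm)
    · by_cases h3 : π (X i - C (w i)) = 0
      · have h4 : (- ord P.ring f').toNat ≠ 0 := by
          have h5 : ¬ 0 ≤ ord P.ring f' := fun h6 => h1 ((FF.ord_nonneg_iff hF P hf'0).1 h6)
          omega
        rw [map_pow, h3, zero_pow h4, zero_mul]
        exact P.ring.zero_mem
      · have h4 : 0 < ord P.ring (π (X i - C (w i))) := by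
          have h5 : π (X i - C (w i)) ∈ P.ring := mem_of_fin h2 _
          have h6 : vl hF P (π (X i - C (w i))) = 0 := by
            rw [vl_over hF hw, map_sub, eval_X, eval_C, sub_self]
          rcases (vl_eq_zero hF h5).1 h6 with h7 | h7
          · exact absurd h7 h3
          · omega
        rw [map_pow, ← FF.ord_nonneg_iff hF P (mul_ne_zero (pow_ne_zero _ h3) hf'0),
          FF.ord_mul hF P (pow_ne_zero _ h3) hf'0, FF.ord_pow hF P h3]
        have h5 : ((- ord P.ring f').toNat : ℤ) ≥ - ord P.ring f' := Int.self_le_toNat _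
        nlinarith
  choose b hb hbf using key
  have hfin : {P : Place ℂ F | ord P.ring f' ≠ 0}.Finite := FF.finite_support_ord hF hf'0
  set B : CP := ∏ P ∈ hfin.toFinset, b P with hB
  have hBz : eval z B ≠ 0 := by
    rw [hB, map_prod]
    exact Finset.prod_ne_zero_iff.2 fun P _ => hb P
  have hBf : ∀ P : Place ℂ F, FinP π P → π B * f' ∈ P.ring := by
    intro P hP
    by_cases h1 : P ∈ hfin.toFinset
    · rw [hB, ← Finset.mul_prod_erase _ _ h1, map_mul, mul_right_comm]
      exact P.ring.mul_mem _ _ (hbf P hP) (mem_of_fin hP _)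
    · have h2 : ord P.ring f' = 0 := by
        by_contra h3
        exact h1 (hfin.mem_toFinset.2 h3)
      exact P.ring.mul_mem _ _ (mem_of_fin hP _) ((FF.ord_nonneg_iff hF P hf'0).1 h2.ge)
  have h1 := fun i => conductor hF hc hp i hBf
  choose g hg using h1
  refine ⟨∑ i, C (c i) * g i, B, hBz, ?_⟩
  have h2 : π B * f = π D * (π B * f') := by
    rw [hf']
    field_simp
  rw [h2]
  have h3 : π D = ∑ i, π (C (c i)) * π (pderiv i (cx p)) := by
    rw [hD, map_sum]
    exact Finset.sum_congr rfl fun i _ => map_mul _ _ _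
  rw [h3, Finset.sum_mul, map_sum]
  apply Finset.sum_congr rfl
  intro i _
  rw [map_mul, ← hg i]
  ring

theorem loc_add {z : Fin 2 → ℂ} {f g : F} (hf : Loc π z f) (hg : Loc π z g) :
    Loc π z (f + g) := by
  obtain ⟨a, b, hb, hab⟩ := hf
  obtain ⟨a', b', hb', hab'⟩ := hg
  refine ⟨b' * a + b * a', b * b', ?_, ?_⟩
  · rw [map_mul]
    exact mul_ne_zero hb hb'
  · rw [map_mul, map_add, map_mul, map_mul, ← hab, ← hab']
    ring

theorem loc_mul {z : Fin 2 → ℂ} {f g : F} (hf : Loc π z f) (hg : Loc π z g) :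
    Loc π z (f * g) := by
  obtain ⟨a, b, hb, hab⟩ := hf
  obtain ⟨a', b', hb', hab'⟩ := hg
  refine ⟨a * a', b * b', ?_, ?_⟩
  · rw [map_mul]
    exact mul_ne_zero hb hb'
  · rw [map_mul, map_mul, ← hab, ← hab']
    ring

theorem loc_pi (z : Fin 2 → ℂ) (h : CP) : Loc π z (π h) := by
  exact ⟨h, 1, by rw [map_one]; exact one_ne_zero, by rw [map_one, one_mul]⟩

end Pool.Agent.Helper10.GN
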