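import Pool.Agent.Helper10.GN.Nu

set_option autoImplicit false

/-!
# Project GN, block COL: the colength of `I₀ (f, q)` is bounded

Choose real `l₁ ≠ l₂` as in `exists_lin`, `u_k = X 0 + l_k X 1`. `fc_monic`: nonzero `μ_k` with `μ_k(u_k) ∈ I₀`. For `f` of
degree `≤ d`: `exists_nu` for `u₁` and `u₂`: `ν_k(u_k) ∈ (f, q)` with degrees `≤ D`. So `(μ_k ν_k)(u_k) ∈ I₀ (f, q) = J`. Every
polynomial is a polynomial in `u₁, u₂` (`X 0, X 1` are linear combinations of them), and modulo `J` the powers of `u_k` of exponent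
`≥ deg (μ_k ν_k)` can be reduced (division with remainder by `μ_k ν_k`), so `A/J` is spanned by the classes of the `u₁^i u₂^j`,
`i, j < D + deg μ_k`; bounded degree of representatives. `col_fc`: `A/J` is finite-dimensional.
-/

namespace Pool.Agent.Helper10.GN

open VC FF MvPolynomial Pool.Agent.Helper68.QM

variable {ι : Type} [Fintype ι]

private theorem h80_degu (l : ℝ) : (X 0 + C l * X 1 : A).totalDegree ≤ 1 := by
  refine (totalDegree_add _ _).trans (max_le ?_ ((totalDegree_mul _ _).trans ?_))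
  · rw [totalDegree_X]
  · rw [totalDegree_C, totalDegree_X]

private theorem h80_deg_aeval (u : A) (hu : u.totalDegree ≤ 1) (ν : Polynomial ℝ) :
    (Polynomial.aeval u ν).totalDegree ≤ ν.natDegree := by
  rw [Polynomial.aeval_eq_sum_range]
  refine totalDegree_finsetSum_le fun i hi => ?_
  rw [Finset.mem_range] at hi
  refine (totalDegree_smul_le _ _).trans ((totalDegree_pow _ _).trans ?_)
  have := Nat.mul_le_mul_left i hu
  omega

/-- every polynomial is a polynomial in two linear forms -/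
private theorem h80_span {l₁ l₂ : ℝ} (hl : l₁ ≠ l₂) (h : A) :
    h ∈ Submodule.span ℝ {x : A | ∃ a b : Polynomial ℝ,
      x = Polynomial.aeval (X 0 + C l₁ * X 1 : A) a * Polynomial.aeval (X 0 + C l₂ * X 1 : A) b} := by
  set u₁ : A := X 0 + C l₁ * X 1 with hu₁
  set u₂ : A := X 0 + C l₂ * X 1 with hu₂
  set N := Submodule.span ℝ {x : A | ∃ a b : Polynomial ℝ,
      x = Polynomial.aeval u₁ a * Polynomial.aeval u₂ b} with hN
  have hm1 : ∀ x ∈ N, x * u₁ ∈ N := by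
    intro x hx
    induction hx using Submodule.span_induction with
    | mem x hx =>
      obtain ⟨a, b, rfl⟩ := hx
      refine Submodule.subset_span ⟨a * Polynomial.X, b, ?_⟩
      rw [map_mul, Polynomial.aeval_X]
      ring
    | zero => rw [zero_mul]; exact N.zero_mem
    | add x y _ _ hx hy => rw [add_mul]; exact N.add_mem hx hy
    | smul c x _ hx => rw [smul_mul_assoc]; exact N.smul_mem c hx
  have hm2 : ∀ x ∈ N, x * u₂ ∈ N := by
    intro x hx
    induction hx using Submodule.span_induction with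
    | mem x hx =>
      obtain ⟨a, b, rfl⟩ := hx
      refine Submodule.subset_span ⟨a, b * Polynomial.X, ?_⟩
      rw [map_mul, Polynomial.aeval_X]
      ring
    | zero => rw [zero_mul]; exact N.zero_mem
    | add x y _ _ hx hy => rw [add_mul]; exact N.add_mem hx hy
    | smul c x _ hx => rw [smul_mul_assoc]; exact N.smul_mem c hx
  have hne : l₁ - l₂ ≠ 0 := sub_ne_zero.2 hl
  have hC : (C (l₁ - l₂)⁻¹ : A) * (C l₁ - C l₂) = 1 := by
    rw [← C_sub, ← C_mul, inv_mul_cancel₀ hne, C_1]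
  have hX1 : (X 1 : A) = (l₁ - l₂)⁻¹ • u₁ - (l₁ - l₂)⁻¹ • u₂ := by
    rw [smul_eq_C_mul, smul_eq_C_mul, hu₁, hu₂]
    linear_combination (-(X 1 : A)) * hC
  have hX0 : (X 0 : A) = ((l₁ - l₂)⁻¹ * l₁) • u₂ - ((l₁ - l₂)⁻¹ * l₂) • u₁ := by
    rw [smul_eq_C_mul, smul_eq_C_mul, hu₁, hu₂, C_mul, C_mul]
    linear_combination (-(X 0 : A)) * hC
  induction h using MvPolynomial.induction_on with
  | C a =>
    refine Submodule.subset_span ⟨Polynomial.C a, 1, ?_⟩
    rw [map_one, mul_one, Polynomial.aeval_C]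
    rfl
  | add p q hp hq => exact N.add_mem hp hq
  | mul_X p n hp =>
    fin_cases n
    · change p * X 0 ∈ N
      rw [hX0, mul_sub, mul_smul_comm, mul_smul_comm]
      exact N.sub_mem (N.smul_mem _ (hm2 p hp)) (N.smul_mem _ (hm1 p hp))
    · change p * X 1 ∈ N
      rw [hX1, mul_sub, mul_smul_comm, mul_smul_comm]
      exact N.sub_mem (N.smul_mem _ (hm1 p hp)) (N.smul_mem _ (hm2 p hp))

/-- division with remainder -/
private theorem h80_rem {J : Ideal A} {u : A} {P : Polynomial ℝ} (hP : P ≠ 0)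
    (hPJ : Polynomial.aeval u P ∈ J) (a : Polynomial ℝ) :
    ∃ r : Polynomial ℝ, r.natDegree ≤ P.natDegree ∧ Polynomial.aeval u a - Polynomial.aeval u r ∈ J := by
  refine ⟨a % P, ?_, ?_⟩
  · exact Polynomial.natDegree_le_natDegree (EuclideanDomain.mod_lt a hP).le
  · have h1 := EuclideanDomain.div_add_mod a P
    have h2 : Polynomial.aeval u a - Polynomial.aeval u (a % P) =
        Polynomial.aeval u P * Polynomial.aeval u (a / P) := by
      have h3 := congrArg (Polynomial.aeval u) h1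
      rw [map_add, map_mul] at h3
      linear_combination -h3
    rw [h2]
    exact J.mul_mem_right _ hPJ

private theorem h80_reduce {J : Ideal A} {l₁ l₂ : ℝ} (hl : l₁ ≠ l₂) {P₁ P₂ : Polynomial ℝ}
    (h1 : P₁ ≠ 0) (h2 : P₂ ≠ 0) (hJ1 : Polynomial.aeval (X 0 + C l₁ * X 1 : A) P₁ ∈ J)
    (hJ2 : Polynomial.aeval (X 0 + C l₂ * X 1 : A) P₂ ∈ J) (h : A) :
    ∃ h' : A, h'.totalDegree ≤ P₁.natDegree + P₂.natDegree ∧ h - h' ∈ J := by
  have hh := h80_span hl h
  induction hh using Submodule.span_induction with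
  | mem x hx =>
    obtain ⟨a, b, rfl⟩ := hx
    obtain ⟨r, hr, hr'⟩ := h80_rem h1 hJ1 a
    obtain ⟨t, ht, ht'⟩ := h80_rem h2 hJ2 b
    refine ⟨Polynomial.aeval (X 0 + C l₁ * X 1 : A) r * Polynomial.aeval (X 0 + C l₂ * X 1 : A) t,
      (totalDegree_mul _ _).trans (add_le_add ((h80_deg_aeval _ (h80_degu l₁) r).trans hr)
        ((h80_deg_aeval _ (h80_degu l₂) t).trans ht)), ?_⟩
    have e : ∀ x y x' y' : A, x * y - x' * y' = (x - x') * y + x' * (y - y') := fun x y x' y' => by ring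
    rw [e]
    exact J.add_mem (J.mul_mem_right _ hr') (J.mul_mem_left _ ht')
  | zero => exact ⟨0, by rw [totalDegree_zero]; exact Nat.zero_le _, by rw [sub_zero]; exact J.zero_mem⟩
  | add x y _ _ hx hy =>
    obtain ⟨x', hx1, hx2⟩ := hx
    obtain ⟨y', hy1, hy2⟩ := hy
    refine ⟨x' + y', (totalDegree_add _ _).trans (max_le hx1 hy1), ?_⟩
    rw [add_sub_add_comm]
    exact J.add_mem hx2 hy2
  | smul c x _ hx =>
    obtain ⟨x', hx1, hx2⟩ := hx
    refine ⟨c • x', (totalDegree_smul_le _ _).trans hx1, ?_⟩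
    rw [← smul_sub, smul_eq_C_mul]
    exact J.mul_mem_left _ hx2

theorem col_reduce {p : ι → A} (hirr : ∀ i, Irreducible (p i)) (hsc : ∀ i, SC (p i))
    (m : ι → ℕ) {I₀ : Ideal A} (hI : FC I₀) (d : ℕ) :
    ∃ L : ℕ, ∀ f : A, f.totalDegree ≤ d → (∀ i, ¬ p i ∣ f) → ∀ h : A,
      ∃ h' : A, h'.totalDegree ≤ L ∧ h - h' ∈ I₀ * Ideal.span {f, ∏ i, p i ^ m i} := by
  have hinf := (exists_lin hirr hsc).infinite_compl
  obtain ⟨l₁, hl₁, l₂, hl₂, hne⟩ := hinf.nontrivial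
  have g₁ : ∀ i, ∀ ν : Polynomial ℝ, ν ≠ 0 → ¬ p i ∣ Polynomial.aeval (X 0 + C l₁ * X 1 : A) ν := by
    by_contra hcon
    exact hl₁ hcon
  have g₂ : ∀ i, ∀ ν : Polynomial ℝ, ν ≠ 0 → ¬ p i ∣ Polynomial.aeval (X 0 + C l₂ * X 1 : A) ν := by
    by_contra hcon
    exact hl₂ hcon
  obtain ⟨μ₁, hμ₁, hμ₁'⟩ := fc_monic hI (X 0 + C l₁ * X 1 : A)
  obtain ⟨μ₂, hμ₂, hμ₂'⟩ := fc_monic hI (X 0 + C l₂ * X 1 : A)
  obtain ⟨D₁, hD₁⟩ := exists_nu hirr hsc m (X 0 + C l₁ * X 1 : A) g₁ d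
  obtain ⟨D₂, hD₂⟩ := exists_nu hirr hsc m (X 0 + C l₂ * X 1 : A) g₂ d
  refine ⟨(μ₁.natDegree + D₁) + (μ₂.natDegree + D₂), fun f hf hpf h => ?_⟩
  obtain ⟨ν₁, α₁, β₁, n1, n2, -, -, n5⟩ := hD₁ f hf hpf
  obtain ⟨ν₂, α₂, β₂, m1, m2, -, -, m5⟩ := hD₂ f hf hpf
  have hJ : ∀ (u : A) (μ ν : Polynomial ℝ) (α β : A), Polynomial.aeval u μ ∈ I₀ →
      f * α + (∏ i, p i ^ m i) * β = Polynomial.aeval u ν →
      Polynomial.aeval u (μ * ν) ∈ I₀ * Ideal.span {f, ∏ i, p i ^ m i} := by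
    intro u μ ν α β h1 h2
    rw [map_mul]
    refine Ideal.mul_mem_mul h1 ?_
    rw [← h2]
    refine Ideal.add_mem _ (Ideal.mul_mem_right _ _ (Ideal.subset_span (by simp)))
      (Ideal.mul_mem_right _ _ (Ideal.subset_span (by simp)))
  obtain ⟨h', e1, e2⟩ := h80_reduce hne (mul_ne_zero hμ₁ n1) (mul_ne_zero hμ₂ m1)
    (hJ _ μ₁ ν₁ α₁ β₁ hμ₁' n5) (hJ _ μ₂ ν₂ α₂ β₂ hμ₂' m5) h
  refine ⟨h', e1.trans ?_, e2⟩
  have f1 : (μ₁ * ν₁).natDegree ≤ μ₁.natDegree + D₁ := Polynomial.natDegree_mul_le.trans (by omega)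
  have f2 : (μ₂ * ν₂).natDegree ≤ μ₂.natDegree + D₂ := Polynomial.natDegree_mul_le.trans (by omega)
  omega

theorem col_fc {p : ι → A} (hirr : ∀ i, Irreducible (p i)) (hsc : ∀ i, SC (p i))
    (m : ι → ℕ) {I₀ : Ideal A} (hI : FC I₀) {f : A} (hf : ∀ i, ¬ p i ∣ f) :
    FC (I₀ * Ideal.span {f, ∏ i, p i ^ m i}) := by
  obtain ⟨L, hL⟩ := col_reduce hirr hsc m hI f.totalDegree
  have h1 := hL f le_rfl hf
  let J := I₀ * Ideal.span {f, ∏ i, p i ^ m i}
  let φ : restrictTotalDegree (Fin 2) ℝ L →ₗ[ℝ] A ⧸ J :=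
    ((Ideal.Quotient.mkₐ ℝ J).toLinearMap).comp (Submodule.subtype _)
  have hφ : Function.Surjective φ := by
    intro y
    obtain ⟨h, rfl⟩ := Ideal.Quotient.mk_surjective y
    obtain ⟨h', e1, e2⟩ := h1 h
    refine ⟨⟨h', (mem_restrictTotalDegree _ _ _).2 e1⟩, ?_⟩
    change Ideal.Quotient.mk J h' = Ideal.Quotient.mk J h
    exact (Ideal.Quotient.eq.2 e2).symm
  exact Module.Finite.of_surjective φ hφ

end Pool.Agent.Helper10.GN
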