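import Pool.Agent.Helper10.GN.Defs

set_option autoImplicit false

/-!
# Project GN, block CONJ: conjugate places, orders, Riemann-Roch spaces

`mem_cj`: by definition (`ValuationSubring.mem_comap`). `cj_cj`: `s.inv`. `nonunits_cj`:
`ValuationSubring.mem_nonunits_iff_or` (`x = 0 ∨ x⁻¹ ∉ R`), `map_inv₀`. `ord_cj`: `σ` maps a
uniformizer of `(s.cj P).ring` to one of `P.ring`; write `f = u π ^ n` (`FF.exists_uniformizer`,
`FF.ord_eq_iff`, or compare `val`: the valuation `val hF P ∘ σ` has the valuation ring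
`(s.cj P).ring`; `VC.valuation_eq_exp_ord`). `ord` of `0` is `0` (`FF.ord_zero`).
`cjD_apply`: `Finsupp.mapDomain_apply` for the injective `s.cj` and `cj_cj`. `deg_cjD`: `deg` is the
sum of the values. `mem_L`: `FF.mem_rr`, `0 ∈ L D`. `mem_L_cjD`: `mem_L`, `ord_cj`, `cj_cj`.
`dS_mem`, `dS_notMem`: `Finsupp.finset_sum_apply`, `Finsupp.single_apply`. `Oge` lemmas: from
`FF.ord_add_ge`, `FF.ord_mul`, `FF.ord_inv`, `FF.ord_nonneg_iff`, `FF.ord_pos_iff`.
-/

namespace Pool.Agent.Helper10.GN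

open VC FF

variable {F : Type} [Field F] [Algebra ℂ F] (s : RStr F) (hF : IsFunctionField ℂ F)

theorem mem_cj (P : Place ℂ F) (f : F) : f ∈ (s.cj P).ring ↔ s.σ f ∈ P.ring := by
  exact ValuationSubring.mem_comap

theorem cj_cj (P : Place ℂ F) : s.cj (s.cj P) = P := by
  have h : (s.cj (s.cj P)).ring = P.ring := by
    ext f
    rw [mem_cj, mem_cj, s.inv]
  exact Place.ext h

theorem cj_inj : Function.Injective s.cj := by
  intro P Q h
  rw [← cj_cj s P, h, cj_cj]

theorem nonunits_cj (P : Place ℂ F) (f : F) :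
    f ∈ (s.cj P).ring.nonunits ↔ s.σ f ∈ P.ring.nonunits := by
  rw [ValuationSubring.mem_nonunits_iff_or, ValuationSubring.mem_nonunits_iff_or, mem_cj, map_inv₀,
    map_eq_zero_iff s.σ s.σ.injective]

include hF in
theorem ord_cj (P : Place ℂ F) (f : F) : ord (s.cj P).ring f = ord P.ring (s.σ f) := by
  rcases eq_or_ne f 0 with h0 | h0
  · rw [h0, map_zero, FF.ord_zero, FF.ord_zero]
  have hσ0 : ∀ y : F, y ≠ 0 → s.σ y ≠ 0 := fun y hy => (map_ne_zero_iff s.σ s.σ.injective).mpr hy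
  obtain ⟨t, ht0, ht⟩ := FF.exists_uniformizer hF (s.cj P)
  have hunit : ∀ u : F, u ≠ 0 → ord (s.cj P).ring u = 0 → ord P.ring (s.σ u) = 0 := by
    intro u hu0 hu
    have h1 := (FF.ord_nonneg_iff hF P (hσ0 u hu0)).mpr ((mem_cj s P u).mp
      ((FF.ord_nonneg_iff hF (s.cj P) hu0).mp hu.ge))
    have h2 : ¬ 0 < ord P.ring (s.σ u) := by
      rw [FF.ord_pos_iff hF _ (hσ0 u hu0), ← nonunits_cj, ← FF.ord_pos_iff hF (s.cj P) hu0, hu]
      exact lt_irrefl _
    omega
  have key : ∀ y : F, y ≠ 0 → ord P.ring (s.σ y) = ord (s.cj P).ring y * ord P.ring (s.σ t) := by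
    intro y hy
    set m := ord (s.cj P).ring y with hm
    have h1 : y = (y / t ^ m) * t ^ m := by rw [div_mul_cancel₀ _ (zpow_ne_zero _ ht0)]
    have h2 : y / t ^ m ≠ 0 := div_ne_zero hy (zpow_ne_zero _ ht0)
    have h3 : ord (s.cj P).ring (y / t ^ m) = 0 := by
      rw [FF.ord_div hF _ hy (zpow_ne_zero _ ht0), FF.ord_zpow hF _ ht0, ht]
      ring
    conv_lhs => rw [h1]
    rw [map_mul, map_zpow₀, FF.ord_mul hF _ (hσ0 _ h2) (zpow_ne_zero _ (hσ0 _ ht0)), hunit _ h2 h3,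
      FF.ord_zpow hF _ (hσ0 _ ht0)]
    ring
  have hpos : 0 < ord P.ring (s.σ t) := by
    rw [FF.ord_pos_iff hF _ (hσ0 t ht0), ← nonunits_cj, ← FF.ord_pos_iff hF (s.cj P) ht0, ht]
    norm_num
  have hone : ord P.ring (s.σ t) = 1 := by
    obtain ⟨r, hr0, hr⟩ := FF.exists_uniformizer hF P
    have h2 := key _ (hσ0 r hr0)
    rw [s.inv, hr] at h2
    have h3 : ord P.ring (s.σ t) ∣ 1 := ⟨_, by rw [h2]; ring⟩
    have h4 := Int.le_of_dvd one_pos h3
    omega
  rw [key f h0, hone, mul_one]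

theorem cjD_apply (D : Place ℂ F →₀ ℤ) (P : Place ℂ F) : cjD s D P = D (s.cj P) := by
  have h := Finsupp.mapDomain_apply (cj_inj s) D (s.cj P)
  rw [cj_cj] at h
  exact h

theorem deg_cjD (D : Place ℂ F →₀ ℤ) : deg (cjD s D) = deg D := by
  rw [deg_eq, deg_eq]
  exact Finsupp.sum_mapDomain_index (fun _ => rfl) (fun _ _ _ => rfl)

theorem dS_mem {S : Finset (Place ℂ F)} (m : ℤ) {P : Place ℂ F} (h : P ∈ S) : dS S m P = m := by
  classical
  rw [dS, Finsupp.finsetSum_apply, Finset.sum_eq_single P]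
  · rw [Finsupp.single_apply, if_pos rfl]
  · intro Q _ hQ
    rw [Finsupp.single_apply, if_neg hQ]
  · intro h'
    exact absurd h h'

theorem dS_notMem {S : Finset (Place ℂ F)} (m : ℤ) {P : Place ℂ F} (h : P ∉ S) :
    dS S m P = 0 := by
  classical
  rw [dS, Finsupp.finsetSum_apply]
  refine Finset.sum_eq_zero fun Q hQ => ?_
  rw [Finsupp.single_apply, if_neg]
  rintro rfl
  exact h hQ

theorem deg_dS (S : Finset (Place ℂ F)) (m : ℤ) : deg (dS S m) = S.card * m := by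
  rw [dS, map_sum, Finset.sum_congr rfl fun P _ => deg_single P m, Finset.sum_const, nsmul_eq_mul]

theorem dS_add (S : Finset (Place ℂ F)) (m n : ℤ) : dS S (m + n) = dS S m + dS S n := by
  rw [dS, dS, dS, ← Finset.sum_add_distrib]
  exact Finset.sum_congr rfl fun P _ => Finsupp.single_add _ _ _

theorem cjD_dS {S : Finset (Place ℂ F)} (hS : SData s S) (m : ℤ) : cjD s (dS S m) = dS S m := by
  ext P
  rw [cjD_apply]
  by_cases h : P ∈ S
  · rw [dS_mem m (hS.cj_mem P h), dS_mem m h]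
  · have h' : s.cj P ∉ S := fun h' => h (by
      have h2 := hS.cj_mem _ h'
      rwa [cj_cj] at h2)
    rw [dS_notMem m h', dS_notMem m h]

/-! ### `Oge` -/

theorem Oge.mono {P : Place ℂ F} {m n : ℤ} {f : F} (h : Oge P n f) (hmn : m ≤ n) : Oge P m f := by
  rcases h with h | h
  · exact Or.inl h
  · exact Or.inr (hmn.trans h)

theorem oge_zero {P : Place ℂ F} {n : ℤ} : Oge P n (0 : F) := Or.inl rfl

include hF

theorem oge_zero_iff {P : Place ℂ F} {f : F} : Oge P 0 f ↔ f ∈ P.ring := by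
  rcases eq_or_ne f 0 with h0 | h0
  · rw [h0]
    exact ⟨fun _ => P.ring.zero_mem, fun _ => Or.inl rfl⟩
  · rw [← FF.ord_nonneg_iff hF P h0]
    exact ⟨fun h => h.resolve_left h0, fun h => Or.inr h⟩

theorem oge_one_iff {P : Place ℂ F} {f : F} : Oge P 1 f ↔ f ∈ P.ring.nonunits := by
  rcases eq_or_ne f 0 with h0 | h0
  · rw [h0]
    exact ⟨fun _ => by rw [ValuationSubring.mem_nonunits_iff_or]; exact Or.inl rfl, fun _ => Or.inl rfl⟩
  · rw [← FF.ord_pos_iff hF P h0]
    exact ⟨fun h => h.resolve_left h0, fun h => Or.inr h⟩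

theorem oge_add {P : Place ℂ F} {n : ℤ} {f g : F} (h : Oge P n f) (h' : Oge P n g) :
    Oge P n (f + g) := by
  rcases eq_or_ne (f + g) 0 with h0 | h0
  · exact Or.inl h0
  rcases eq_or_ne f 0 with hf | hf
  · rw [hf, zero_add]
    exact h'
  rcases eq_or_ne g 0 with hg | hg
  · rw [hg, add_zero]
    exact h
  exact Or.inr ((le_min (h.resolve_left hf) (h'.resolve_left hg)).trans (FF.ord_add_ge hF P hf hg h0))

theorem oge_neg {P : Place ℂ F} {n : ℤ} {f : F} (h : Oge P n f) : Oge P n (-f) := by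
  rcases eq_or_ne f 0 with hf | hf
  · rw [hf, neg_zero]
    exact Or.inl rfl
  · refine Or.inr ?_
    rw [FF.ord_neg hF P hf]
    exact h.resolve_left hf

theorem oge_sub {P : Place ℂ F} {n : ℤ} {f g : F} (h : Oge P n f) (h' : Oge P n g) :
    Oge P n (f - g) := by
  rw [sub_eq_add_neg]
  exact oge_add hF h (oge_neg hF h')

theorem oge_sum {P : Place ℂ F} {n : ℤ} {ι : Type} (t : Finset ι) (f : ι → F)
    (h : ∀ i ∈ t, Oge P n (f i)) : Oge P n (∑ i ∈ t, f i) := by
  classical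
  induction t using Finset.induction_on with
  | empty =>
    rw [Finset.sum_empty]
    exact Or.inl rfl
  | insert a t ha ih =>
    rw [Finset.sum_insert ha]
    exact oge_add hF (h a (Finset.mem_insert_self a t))
      (ih fun i hi => h i (Finset.mem_insert_of_mem hi))

theorem oge_mul {P : Place ℂ F} {m n : ℤ} {f g : F} (h : Oge P m f) (h' : Oge P n g) :
    Oge P (m + n) (f * g) := by
  rcases eq_or_ne f 0 with hf | hf
  · rw [hf, zero_mul]
    exact Or.inl rfl
  rcases eq_or_ne g 0 with hg | hg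
  · rw [hg, mul_zero]
    exact Or.inl rfl
  refine Or.inr ?_
  rw [FF.ord_mul hF P hf hg]
  exact add_le_add (h.resolve_left hf) (h'.resolve_left hg)

theorem oge_pow {P : Place ℂ F} {m : ℤ} {f : F} (h : Oge P m f) (n : ℕ) :
    Oge P (n * m) (f ^ n) := by
  induction n with
  | zero =>
    rw [pow_zero, Nat.cast_zero, zero_mul]
    exact Or.inr (by rw [FF.ord_one hF P])
  | succ n ih =>
    have h1 := oge_mul hF ih h
    rw [pow_succ]
    have h2 : ((n + 1 : ℕ) : ℤ) * m = n * m + m := by push_cast; ring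
    rw [h2]
    exact h1

theorem oge_alg {P : Place ℂ F} (c : ℂ) : Oge P 0 (algebraMap ℂ F c) := by
  rw [oge_zero_iff hF]
  exact P.algebraMap_mem c

theorem oge_mul_iff {P : Place ℂ F} {n : ℤ} {f g : F} (hg : g ≠ 0) :
    Oge P (n + ord P.ring g) (f * g) ↔ Oge P n f := by
  rcases eq_or_ne f 0 with hf | hf
  · rw [hf, zero_mul]
    exact ⟨fun _ => Or.inl rfl, fun _ => Or.inl rfl⟩
  constructor
  · intro h
    have h1 := h.resolve_left (mul_ne_zero hf hg)
    rw [FF.ord_mul hF P hf hg] at h1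
    exact Or.inr (by linarith)
  · intro h
    refine Or.inr ?_
    rw [FF.ord_mul hF P hf hg]
    have h1 := h.resolve_left hf
    linarith

theorem oge_div_iff {P : Place ℂ F} {n : ℤ} {f g : F} (hg : g ≠ 0) :
    Oge P n (f / g) ↔ Oge P (n + ord P.ring g) f := by
  rw [← oge_mul_iff hF hg, div_mul_cancel₀ f hg]

theorem oge_cj {P : Place ℂ F} {n : ℤ} {f : F} : Oge (s.cj P) n f ↔ Oge P n (s.σ f) := by
  unfold Oge
  rw [ord_cj s hF, map_eq_zero_iff s.σ s.σ.injective]

/-! ### the spaces `L D` -/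

theorem mem_L {D : Place ℂ F →₀ ℤ} {f : F} : f ∈ L D ↔ ∀ P, Oge P (- D P) f := by
  rcases eq_or_ne f 0 with hf | hf
  · rw [hf]
    exact ⟨fun _ P => Or.inl rfl, fun _ => Submodule.zero_mem _⟩
  · rw [mem_rr hF D hf]
    constructor
    · intro h P
      exact Or.inr (by have := h P; linarith)
    · intro h P
      have := (h P).resolve_left hf
      linarith

theorem mem_L_cjD {D : Place ℂ F →₀ ℤ} {f : F} : s.σ f ∈ L (cjD s D) ↔ f ∈ L D := by
  rw [mem_L hF, mem_L hF]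
  constructor
  · intro h P
    have h1 := h (s.cj P)
    rw [cjD_apply, cj_cj, oge_cj s hF, s.inv] at h1
    exact h1
  · intro h P
    rw [cjD_apply, ← oge_cj s hF]
    exact h (s.cj P)

theorem mem_L_dS_iff {S : Finset (Place ℂ F)} {m : ℤ} {f : F} :
    f ∈ L (dS S m) ↔ (∀ P ∈ S, Oge P (-m) f) ∧ ∀ P, P ∉ S → f ∈ P.ring := by
  rw [mem_L hF]
  constructor
  · intro h
    refine ⟨fun P hP => ?_, fun P hP => ?_⟩
    · have h1 := h P
      rw [dS_mem m hP] at h1
      exact h1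
    · have h1 := h P
      rw [dS_notMem m hP, neg_zero, oge_zero_iff hF] at h1
      exact h1
  · rintro ⟨h1, h2⟩ P
    by_cases hP : P ∈ S
    · rw [dS_mem m hP]
      exact h1 P hP
    · rw [dS_notMem m hP, neg_zero, oge_zero_iff hF]
      exact h2 P hP

theorem sigma_mem_L_dS {S : Finset (Place ℂ F)} (hS : SData s S) {m : ℤ} {f : F}
    (h : f ∈ L (dS S m)) : s.σ f ∈ L (dS S m) := by
  rw [← cjD_dS s hS m, mem_L_cjD s hF]
  exact h

theorem L_mono {D D' : Place ℂ F →₀ ℤ} (h : ∀ P, D P ≤ D' P) {f : F} (hf : f ∈ L D) :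
    f ∈ L D' := by
  rw [mem_L hF] at hf ⊢
  exact fun P => (hf P).mono (by have := h P; linarith)

theorem L_mul {D D' : Place ℂ F →₀ ℤ} {f g : F} (hf : f ∈ L D) (hg : g ∈ L D') :
    f * g ∈ L (D + D') := by
  rw [mem_L hF] at hf hg ⊢
  intro P
  have h := oge_mul hF (hf P) (hg P)
  rw [Finsupp.add_apply, neg_add]
  exact h

/-- a function regular outside `S` lies in `L (m S)` for some `m` -/
theorem exists_mem_L_dS {S : Finset (Place ℂ F)} {f : F} (h : ∀ P, P ∉ S → f ∈ P.ring) :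
    ∃ m : ℕ, f ∈ L (dS S m) := by
  refine ⟨∑ P ∈ S, (ord P.ring f).natAbs, ?_⟩
  rw [mem_L_dS_iff hF]
  refine ⟨fun P hP => Or.inr ?_, h⟩
  have h1 : (ord P.ring f).natAbs ≤ ∑ P ∈ S, (ord P.ring f).natAbs :=
    Finset.single_le_sum (f := fun P : Place ℂ F => (ord P.ring f).natAbs) (fun _ _ => Nat.zero_le _) hP
  omega

end Pool.Agent.Helper10.GN
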