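import Mathlib

set_option autoImplicit false

/-!
# Project GN, block HERM (Mathlib only): Hermitian squares span

There are finitely many vectors `cv n ∈ ℂ^r` and constants `μ n a b` such that for every complex vector
space `V` and all `κ : Fin r → Fin r → V`: `κ a b = ∑ n, μ n a b • (∑ a' b', cv n a' conj (cv n b') • κ a' b')`.

Proof. Take the vectors `e_a`, `e_a + e_b`, `e_a + i e_b` (for all pairs `a, b`; index set a sum type,
`Fintype.equivFin`). With `s (v) = ∑ a' b', v a' conj (v b') • κ a' b'`: `s (e_a) = κ a a`,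
`s (e_a + e_b) = κ a a + κ b b + κ a b + κ b a`, `s (e_a + i e_b) = κ a a + κ b b - i κ a b + i κ b a` for
`a ≠ b`, so `κ a b = 1/2 (s (e_a + e_b) - s (e_a) - s (e_b)) + i/2 (s (e_a + i e_b) - s (e_a) - s (e_b))`
for `a ≠ b`, and `κ a a = s (e_a)`.
-/

namespace Pool.Agent.Helper10.GN

/-- the value `∑ a b, v a conj (v b) • κ a b` of a Hermitian form -/
noncomputable def hval {V : Type*} [AddCommGroup V] [Module ℂ V] {r : ℕ}
    (κ : Fin r → Fin r → V) (v : Fin r → ℂ) : V :=
  ∑ a, ∑ b, (v a * (starRingEnd ℂ) (v b)) • κ a b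

/-- the sesquilinear form -/
private noncomputable def bval16 {V : Type*} [AddCommGroup V] [Module ℂ V] {r : ℕ}
    (κ : Fin r → Fin r → V) (u v : Fin r → ℂ) : V :=
  ∑ a, ∑ b, (u a * (starRingEnd ℂ) (v b)) • κ a b

private lemma hval_add16 {V : Type*} [AddCommGroup V] [Module ℂ V] {r : ℕ}
    (κ : Fin r → Fin r → V) (u v : Fin r → ℂ) :
    hval κ (u + v) = bval16 κ u u + bval16 κ u v + bval16 κ v u + bval16 κ v v := by
  unfold hval bval16
  simp only [← Finset.sum_add_distrib]
  refine Finset.sum_congr rfl fun a _ => Finset.sum_congr rfl fun b _ => ?_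
  rw [Pi.add_apply, Pi.add_apply, map_add, ← add_smul, ← add_smul, ← add_smul]
  congr 1
  ring

private lemma bval_single16 {V : Type*} [AddCommGroup V] [Module ℂ V] {r : ℕ}
    (κ : Fin r → Fin r → V) (a b : Fin r) (x y : ℂ) :
    bval16 κ (Pi.single a x) (Pi.single b y) = (x * (starRingEnd ℂ) y) • κ a b := by
  unfold bval16
  rw [Finset.sum_eq_single a]
  · rw [Finset.sum_eq_single b]
    · rw [Pi.single_eq_same, Pi.single_eq_same]
    · intro b' _ hb
      rw [Pi.single_eq_of_ne hb, map_zero, mul_zero, zero_smul]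
    · intro h
      exact absurd (Finset.mem_univ _) h
  · intro a' _ ha
    refine Finset.sum_eq_zero fun b' _ => ?_
    rw [Pi.single_eq_of_ne ha, zero_mul, zero_smul]
  · intro h
    exact absurd (Finset.mem_univ _) h

private lemma hval_single16 {V : Type*} [AddCommGroup V] [Module ℂ V] {r : ℕ}
    (κ : Fin r → Fin r → V) (a : Fin r) : hval κ (Pi.single a 1) = κ a a := by
  have h := bval_single16 κ a a 1 1
  rw [map_one, mul_one, one_smul] at h
  exact h

private lemma sum_single16 {ι V : Type*} [Fintype ι] [DecidableEq ι] [AddCommGroup V] [Module ℂ V]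
    (S : ι → V) (j : ι) : ∑ i, (Pi.single j (1 : ℂ) : ι → ℂ) i • S i = S j := by
  rw [Finset.sum_eq_single j]
  · rw [Pi.single_eq_same, one_smul]
  · intro i _ hi
    rw [Pi.single_eq_of_ne hi, zero_smul]
  · intro h
    exact absurd (Finset.mem_univ _) h

theorem herm_span (r : ℕ) : ∃ (N : ℕ) (cv : Fin N → Fin r → ℂ) (μ : Fin N → Fin r → Fin r → ℂ),
    ∀ {V : Type} [AddCommGroup V] [Module ℂ V] (κ : Fin r → Fin r → V) (a b : Fin r),
      κ a b = ∑ n, μ n a b • hval κ (cv n) := by
  classical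
  let ι := Fin r ⊕ ((Fin r × Fin r) ⊕ (Fin r × Fin r))
  let w : ι → Fin r → ℂ := fun i => Sum.elim (fun a => Pi.single a 1)
    (Sum.elim (fun p => Pi.single p.1 1 + Pi.single p.2 1)
      (fun p => Pi.single p.1 1 + Pi.single p.2 Complex.I)) i
  let m : Fin r → Fin r → ι → ℂ := fun a b =>
    (1 / 2 : ℂ) • (Pi.single (Sum.inr (Sum.inl (a, b))) (1 : ℂ) - Pi.single (Sum.inl a) 1 -
      Pi.single (Sum.inl b) 1) +
    (Complex.I / 2) • (Pi.single (Sum.inr (Sum.inr (a, b))) (1 : ℂ) - Pi.single (Sum.inl a) 1 -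
      Pi.single (Sum.inl b) 1)
  let e : ι ≃ Fin (Fintype.card ι) := Fintype.equivFin ι
  refine ⟨Fintype.card ι, fun n => w (e.symm n), fun n a b => m a b (e.symm n), ?_⟩
  intro V _ _ κ a b
  have h1 : ∑ n, m a b (e.symm n) • hval κ (w (e.symm n)) = ∑ i, m a b i • hval κ (w i) :=
    Equiv.sum_comp e.symm (fun i => m a b i • hval κ (w i))
  rw [h1]
  have h2 : ∑ i, m a b i • hval κ (w i) =
      (1 / 2 : ℂ) • (hval κ (w (Sum.inr (Sum.inl (a, b)))) - hval κ (w (Sum.inl a)) -
        hval κ (w (Sum.inl b))) +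
      (Complex.I / 2) • (hval κ (w (Sum.inr (Sum.inr (a, b)))) - hval κ (w (Sum.inl a)) -
        hval κ (w (Sum.inl b))) := by
    rw [← sum_single16 (fun i => hval κ (w i)) (Sum.inr (Sum.inl (a, b))),
      ← sum_single16 (fun i => hval κ (w i)) (Sum.inr (Sum.inr (a, b))),
      ← sum_single16 (fun i => hval κ (w i)) (Sum.inl a),
      ← sum_single16 (fun i => hval κ (w i)) (Sum.inl b),
      ← Finset.sum_sub_distrib, ← Finset.sum_sub_distrib, ← Finset.sum_sub_distrib,
      ← Finset.sum_sub_distrib, Finset.smul_sum, Finset.smul_sum, ← Finset.sum_add_distrib]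
    refine Finset.sum_congr rfl fun i _ => ?_
    rw [← sub_smul, ← sub_smul, ← sub_smul, ← sub_smul, smul_smul, smul_smul, ← add_smul]
    rfl
  rw [h2]
  have e1 : hval κ (w (Sum.inl a)) = κ a a := hval_single16 κ a
  have e2 : hval κ (w (Sum.inl b)) = κ b b := hval_single16 κ b
  have e3 : hval κ (w (Sum.inr (Sum.inl (a, b)))) = κ a a + κ a b + κ b a + κ b b := by
    have hw : w (Sum.inr (Sum.inl (a, b))) =
        (Pi.single a (1 : ℂ) : Fin r → ℂ) + (Pi.single b (1 : ℂ) : Fin r → ℂ) := rfl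
    rw [hw, hval_add16, bval_single16, bval_single16, bval_single16, bval_single16, map_one, mul_one,
      one_smul, one_smul, one_smul, one_smul]
  have e4 : hval κ (w (Sum.inr (Sum.inr (a, b)))) = κ a a + (-Complex.I) • κ a b +
      Complex.I • κ b a + κ b b := by
    have hw : w (Sum.inr (Sum.inr (a, b))) =
        (Pi.single a (1 : ℂ) : Fin r → ℂ) + (Pi.single b Complex.I : Fin r → ℂ) := rfl
    rw [hw, hval_add16, bval_single16, bval_single16, bval_single16, bval_single16, map_one, mul_one,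
      one_mul, mul_one, Complex.conj_I, one_smul, mul_neg, Complex.I_mul_I, neg_neg, one_smul]
  rw [e1, e2, e3, e4]
  have hI : Complex.I * Complex.I = -1 := Complex.I_mul_I
  have e5 : (1 / 2 : ℂ) • (κ a a + κ a b + κ b a + κ b b - κ a a - κ b b) +
      (Complex.I / 2) • (κ a a + (-Complex.I) • κ a b + Complex.I • κ b a + κ b b - κ a a - κ b b) =
      ((1 / 2 : ℂ) + (Complex.I / 2) * (-Complex.I)) • κ a b +
      ((1 / 2 : ℂ) + (Complex.I / 2) * Complex.I) • κ b a := by
    module
  rw [e5]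
  have e6 : (1 / 2 : ℂ) + (Complex.I / 2) * (-Complex.I) = 1 := by
    linear_combination (-1 / 2 : ℂ) * hI
  have e7 : (1 / 2 : ℂ) + (Complex.I / 2) * Complex.I = 0 := by
    linear_combination (1 / 2 : ℂ) * hI
  rw [e6, e7, one_smul, zero_smul, add_zero]

end Pool.Agent.Helper10.GN
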