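import Pool.Agent.Helper10.GN.Bpf
import Pool.Agent.Helper10.GN.SosB
import Pool.Agent.Helper10.GN.Herm

set_option autoImplicit false

/-!
# Project GN, block CPT: compactness of the set of matrices `κ`

`kap_compact`: there are real functions `y j ∈ L (2kS)` (`j < M`) and a compact set `K` of real vectors
`x : Fin n × Fin M → ℝ` such that the families `(hval κ (cv i))_i`, `κ` with `Kap`, are exactly the families
`(∑ j, x (i, j) • y j)_i` with `x ∈ K`.

Proof. Let `y j` be a basis of the real vector space `{b ∈ L (2kS) : σ b = b}`; it is also a basis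
of the complex space `L (2kS)` (`b = (b + σ b)/2 + i (b - σ b)/(2i)`; linear independence over `ℂ`: apply `σ`).
For `α : Fin r → Fin r → Fin M → ℂ` let `κ_α a b = ∑ j, α a b j • y j`; every `κ` with `Kap.mem` is a `κ_α`. The set
`A = {α | Kap s hF S k P κ_α}` is closed: `cj` says `α b a j = conj (α a b j)`; `rk` says that for
all linear functionals `Λ : F →ₗ[ℂ] ℂ` we have
`∑_{j,l} (α a b j * α c d l - α a d j * α c b l) * Λ (y j * y l) = 0` (`Module.forall_dual_apply_eq_zero_iff`), polynomial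
equations; `nrm` and `pos` are (in)equalities for continuous functions of `α` (`vl_sum`, `vl_smul`).
Bounded: for `α ∈ A` and each `j`: `vl (P j) (κ a a) = rv ≥ 0` (`pos` for the unit vector `a`) with sum
`1` over `j` (`nrm`), so `≤ 1`, and
`|vl (P j) (κ a b)|² = vl (P j) (κ a b * κ b a) = vl (P j) (κ a a) vl (P j) (κ b b) ≤ 1` (`cj`, `vl_sigma`,
`rk`). The linear map `α ↦ (vl (P j) (κ_α a b))_{j,a,b}` is injective (an element of `L (2kS)` which vanishes at
more than `2 k S.card` places is `0`: `FF.ell_eq_zero_of_deg_neg`), hence antilipschitz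
(`LinearMap.exists_antilipschitzWith`), so `A` is bounded, compact. `K` = the image of `A` under the continuous map
`α ↦ ((i, j) ↦ Re ∑_{a,b} cv i a conj (cv i b) α a b j)` (for `α ∈ A` this sum is real by `cj`).
-/

namespace Pool.Agent.Helper10.GN

open VC FF

variable {F : Type} [Field F] [Algebra ℂ F]

/-- the real subspace of the real elements of `L D` -/
private noncomputable def realPart1 (s : RStr F) (D : Place ℂ F →₀ ℤ) : Submodule ℝ F where
  carrier := {b | b ∈ L D ∧ s.σ b = b}
  zero_mem' := ⟨Submodule.zero_mem _, map_zero _⟩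
  add_mem' := fun ha hb => ⟨Submodule.add_mem _ ha.1 hb.1, by rw [map_add, ha.2, hb.2]⟩
  smul_mem' := fun r b hb => by
    have e : r • b = (r : ℂ) • b := rfl
    refine ⟨?_, ?_⟩
    · rw [e]
      exact Submodule.smul_mem _ _ hb.1
    · rw [e, Algebra.smul_def, map_mul, s.alg, Complex.conj_ofReal, hb.2]

private lemma sigma_smul1 (s : RStr F) (c : ℂ) (f : F) :
    s.σ (c • f) = (starRingEnd ℂ) c • s.σ f := by
  rw [Algebra.smul_def, map_mul, s.alg, ← Algebra.smul_def]

/-- a real basis of `L (2kS)` -/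
private lemma exists_real_basis1 {s : RStr F} (hF : IsFunctionField ℂ F)
    {S : Finset (Place ℂ F)} (hS : SData s S) (m : ℤ) :
    ∃ (M : ℕ) (y : Fin M → F), (∀ j, s.σ (y j) = y j ∧ y j ∈ L (dS S m)) ∧
      (∀ c : Fin M → ℂ, ∑ j, c j • y j = 0 → c = 0) ∧
      (∀ f ∈ L (dS S m), ∃ c : Fin M → ℂ, f = ∑ j, c j • y j) := by
  classical
  have hfin : FiniteDimensional ℂ (L (dS S m)) := finite_rr hF _
  have hfinR : FiniteDimensional ℝ ((L (dS S m)).restrictScalars ℝ) := by
    have h1 : Module.Finite ℝ (L (dS S m)) := Module.Finite.trans ℂ _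
    exact h1
  have hle : realPart1 s (dS S m) ≤ (L (dS S m)).restrictScalars ℝ := fun b hb => hb.1
  have hfinE : FiniteDimensional ℝ (realPart1 s (dS S m)) :=
    Submodule.finiteDimensional_of_le hle
  let B := Module.finBasis ℝ (realPart1 s (dS S m))
  refine ⟨_, fun j => (B j : F), fun j => ⟨(B j).2.2, (B j).2.1⟩, ?_, ?_⟩
  · intro c hc
    have hc' : ∑ j, (starRingEnd ℂ) (c j) • (B j : F) = 0 := by
      have h1 := congrArg s.σ hc
      rw [map_sum, map_zero] at h1
      rw [← h1]
      refine Finset.sum_congr rfl fun j _ => ?_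
      rw [sigma_smul1, (B j).2.2]
    have hind := Fintype.linearIndependent_iff.mp B.linearIndependent
    have hre : ∀ j, (c j).re = 0 := by
      refine hind (fun j => (c j).re) ?_
      apply Subtype.ext
      rw [Submodule.coe_sum, Submodule.coe_zero]
      have h2 : ∑ j, ((((c j).re : ℝ) : ℂ)) • (B j : F) = 0 := by
        have h3 : ∑ j, ((2 : ℂ) * (((c j).re : ℝ) : ℂ)) • (B j : F) = 0 := by
          have hc0 : ∑ j, c j • (B j : F) = 0 := hc
          have h5 : ∑ j, (c j • (B j : F) + (starRingEnd ℂ) (c j) • (B j : F)) = 0 := by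
            rw [Finset.sum_add_distrib, hc', hc0, add_zero]
          rw [← h5]
          refine Finset.sum_congr rfl fun j _ => ?_
          rw [← add_smul, Complex.add_conj]
          push_cast
          rfl
        have h4 : (2 : ℂ) • ∑ j, ((((c j).re : ℝ) : ℂ)) • (B j : F) = 0 := by
          rw [Finset.smul_sum, ← h3]
          exact Finset.sum_congr rfl fun j _ => by rw [smul_smul]
        exact (smul_eq_zero.mp h4).resolve_left two_ne_zero
      exact h2
    have him : ∀ j, (c j).im = 0 := by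
      refine hind (fun j => (c j).im) ?_
      apply Subtype.ext
      rw [Submodule.coe_sum, Submodule.coe_zero]
      have h2 : ∑ j, ((((c j).im : ℝ) : ℂ)) • (B j : F) = 0 := by
        have h4 : Complex.I • ∑ j, ((((c j).im : ℝ) : ℂ)) • (B j : F) = 0 := by
          rw [Finset.smul_sum, ← hc]
          refine Finset.sum_congr rfl fun j _ => ?_
          rw [smul_smul]
          congr 1
          apply Complex.ext
          · simp [hre j]
          · simp
        exact (smul_eq_zero.mp h4).resolve_left Complex.I_ne_zero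
      exact h2
    funext j
    exact Complex.ext (hre j) (him j)
  · intro f hf
    have hσf : s.σ f ∈ L (dS S m) := sigma_mem_L_dS s hF hS hf
    have h1 : ((1 / 2 : ℂ)) • (f + s.σ f) ∈ realPart1 s (dS S m) := by
      refine ⟨Submodule.smul_mem _ _ (Submodule.add_mem _ hf hσf), ?_⟩
      rw [sigma_smul1, map_add, s.inv, add_comm (s.σ f) f]
      congr 1
      simp [map_ofNat]
    have h2 : ((1 / 2 : ℂ) * (-Complex.I)) • (f - s.σ f) ∈ realPart1 s (dS S m) := by
      refine ⟨Submodule.smul_mem _ _ (Submodule.sub_mem _ hf hσf), ?_⟩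
      rw [sigma_smul1, map_sub, s.inv, ← neg_sub f (s.σ f), smul_neg, ← neg_smul]
      congr 1
      simp [map_ofNat]
    have h3 := B.sum_repr ⟨_, h1⟩
    have h4 := B.sum_repr ⟨_, h2⟩
    have h3' := congrArg Subtype.val h3
    have h4' := congrArg Subtype.val h4
    rw [Submodule.coe_sum] at h3' h4'
    refine ⟨fun j => ((B.repr ⟨_, h1⟩ j : ℝ) : ℂ) + Complex.I * ((B.repr ⟨_, h2⟩ j : ℝ) : ℂ), ?_⟩
    have e : f = ((1 / 2 : ℂ)) • (f + s.σ f) +
        Complex.I • (((1 / 2 : ℂ) * (-Complex.I)) • (f - s.σ f)) := by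
      rw [smul_smul]
      have e2 : Complex.I * ((1 / 2 : ℂ) * (-Complex.I)) = 1 / 2 := by
        have := Complex.I_mul_I
        linear_combination (-(1 / 2 : ℂ)) * this
      rw [e2, ← smul_add, add_add_sub_cancel, ← two_smul ℂ f, smul_smul]
      norm_num
    have e3 : (∑ j, (((B.repr ⟨_, h1⟩ j : ℝ) : ℂ) + Complex.I * ((B.repr ⟨_, h2⟩ j : ℝ) : ℂ)) •
        (B j : F)) = (∑ j, ((B.repr ⟨_, h1⟩ j : ℝ) : ℂ) • (B j : F)) +
          Complex.I • ∑ j, ((B.repr ⟨_, h2⟩ j : ℝ) : ℂ) • (B j : F) := by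
      rw [Finset.smul_sum, ← Finset.sum_add_distrib]
      exact Finset.sum_congr rfl fun j _ => by rw [add_smul, mul_smul]
    rw [e3]
    conv_lhs => rw [e]
    congr 1
    · exact h3'.symm
    · congr 1
      exact h4'.symm


/-- the matrix of functions with coefficients `α` -/
private noncomputable def kmat1 {M r : ℕ} (y : Fin M → F) (α : Fin r → Fin r → Fin M → ℂ) :
    Fin r → Fin r → F := fun a b => ∑ j, α a b j • y j

private lemma mem_ring_of_real1 {s : RStr F} {hF : IsFunctionField ℂ F} {S : Finset (Place ℂ F)}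
    (hS : SData s S) {m : ℤ} {f : F} (hf : f ∈ L (dS S m)) {Q : Place ℂ F} (hQ : s.cj Q = Q) :
    f ∈ Q.ring :=
  ((mem_L_dS_iff hF).mp hf).2 Q fun h => hS.cj_ne Q h hQ

private lemma vl_lin1 {s : RStr F} {hF : IsFunctionField ℂ F} {S : Finset (Place ℂ F)}
    (hS : SData s S) {m : ℤ} {M : ℕ} {y : Fin M → F} (hy : ∀ j, y j ∈ L (dS S m))
    {Q : Place ℂ F} (hQ : s.cj Q = Q) (c : Fin M → ℂ) :
    vl hF Q (∑ j, c j • y j) = ∑ j, c j * vl hF Q (y j) := by
  have hm : ∀ j, y j ∈ Q.ring := fun j => mem_ring_of_real1 (hF := hF) hS (hy j) hQ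
  have hm' : ∀ j, c j • y j ∈ Q.ring := fun j => by
    rw [Algebra.smul_def]
    exact Q.ring.mul_mem _ _ (Q.algebraMap_mem _) (hm j)
  rw [vl_sum hF _ _ fun j _ => hm' j]
  exact Finset.sum_congr rfl fun j _ => vl_smul hF (c j) (hm j)

/-- a function in `L (m S)` with too many zeros vanishes -/
private lemma eq_zero_of_vl1 {s : RStr F} {hF : IsFunctionField ℂ F} {S : Finset (Place ℂ F)}
    (hS : SData s S) {k N : ℕ} {P : Fin N → Place ℂ F} (hP : ∀ j, s.cj (P j) = P j)
    (hPi : Function.Injective P) (hN : 2 * k * S.card < N) {f : F} (hf : f ∈ L (dS S (2 * k)))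
    (h : ∀ j, vl hF (P j) f = 0) : f = 0 := by
  classical
  have hmem : f ∈ L (dS S (2 * k) - ∑ j, Finsupp.single (P j) 1) := by
    rw [mem_L hF]
    intro Q
    have hD : (dS S (2 * k) - ∑ j, Finsupp.single (P j) (1 : ℤ)) Q =
        dS S (2 * k) Q - ∑ j, Finsupp.single (P j) (1 : ℤ) Q := by
      rw [Finsupp.sub_apply, Finsupp.finsetSum_apply]
    rw [hD]
    by_cases hQ : ∃ j, P j = Q
    · obtain ⟨j, rfl⟩ := hQ
      have h1 : ∑ i, Finsupp.single (P i) (1 : ℤ) (P j) = 1 := by
        rw [Finset.sum_eq_single j]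
        · rw [Finsupp.single_eq_same]
        · intro i _ hi
          rw [Finsupp.single_apply, if_neg fun h' => hi (hPi h')]
        · intro h'
          exact absurd (Finset.mem_univ j) h'
      have h2 : dS S (2 * (k : ℤ)) (P j) = 0 :=
        dS_notMem _ fun h' => hS.cj_ne _ h' (hP j)
      rw [h1, h2]
      have h3 := (vl_eq_zero hF (mem_ring_of_real1 (hF := hF) hS hf (hP j))).mp (h j)
      simpa using h3
    · have h1 : ∑ i, Finsupp.single (P i) (1 : ℤ) Q = 0 := by
        refine Finset.sum_eq_zero fun i _ => ?_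
        rw [Finsupp.single_apply, if_neg fun h' => hQ ⟨i, h'⟩]
      rw [h1, sub_zero]
      exact (mem_L hF).mp hf Q
  have hdeg : deg (dS S (2 * k) - ∑ j, Finsupp.single (P j) (1 : ℤ)) < 0 := by
    rw [map_sub, map_sum, deg_dS, Finset.sum_congr rfl fun j _ => deg_single (P j) 1]
    rw [Finset.sum_const, Finset.card_univ, Fintype.card_fin, nsmul_eq_mul, mul_one]
    have h1 : ((2 * k * S.card : ℕ) : ℤ) < (N : ℤ) := by exact_mod_cast hN
    push_cast at h1
    linarith
  have h0 := ell_eq_zero_of_deg_neg hF hdeg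
  have hfd : FiniteDimensional ℂ (L (dS S (2 * k) - ∑ j, Finsupp.single (P j) (1 : ℤ))) :=
    finite_rr hF _
  have h1 := Submodule.finrank_eq_zero.mp h0
  change f ∈ riemannRochSpace ℂ F _ at hmem
  rw [h1] at hmem
  exact (Submodule.mem_bot ℂ).mp hmem

theorem kap_compact {s : RStr F} (hF : IsFunctionField ℂ F) {S : Finset (Place ℂ F)}
    (hS : SData s S) {k N r n : ℕ} {P : Fin N → Place ℂ F} (hP : ∀ j, s.cj (P j) = P j)
    (hPi : Function.Injective P) (hN : 2 * k * S.card < N) (cv : Fin n → Fin r → ℂ) :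
    ∃ (M : ℕ) (y : Fin M → F) (K : Set (Fin n × Fin M → ℝ)),
      (∀ j, s.σ (y j) = y j ∧ y j ∈ L (dS S (2 * k))) ∧ IsCompact K ∧
      (∀ κ : Fin r → Fin r → F, Kap s hF S k P κ →
        ∃ x ∈ K, ∀ i, hval κ (cv i) = ∑ j, (x (i, j) : ℂ) • y j) ∧
      (∀ x ∈ K, ∃ κ : Fin r → Fin r → F, Kap s hF S k P κ ∧
        ∀ i, hval κ (cv i) = ∑ j, (x (i, j) : ℂ) • y j) := by
  classical
  obtain ⟨M, y, hy, hind, hspan⟩ := exists_real_basis1 hF hS (2 * k)
  have hyL : ∀ j, y j ∈ L (dS S (2 * k)) := fun j => (hy j).2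
  have huniq : ∀ c d : Fin M → ℂ, ∑ j, c j • y j = ∑ j, d j • y j → c = d := by
    intro c d h
    have h1 := hind (c - d) (by
      simp only [Pi.sub_apply, sub_smul, Finset.sum_sub_distrib]
      rw [h, sub_self])
    exact sub_eq_zero.mp h1
  have hmemL : ∀ (c : Fin M → ℂ), ∑ j, c j • y j ∈ L (dS S (2 * k)) := fun c =>
    Submodule.sum_mem _ fun j _ => Submodule.smul_mem _ _ (hyL j)
  set A : Set (Fin r → Fin r → Fin M → ℂ) := {α | Kap s hF S k P (kmat1 y α)} with hA
  -- the conjugation condition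
  have hconj : ∀ α : Fin r → Fin r → Fin M → ℂ, (∀ a b, s.σ (kmat1 y α a b) = kmat1 y α b a) ↔
      ∀ a b j, (starRingEnd ℂ) (α a b j) = α b a j := by
    intro α
    have h1 : ∀ a b, s.σ (kmat1 y α a b) = ∑ j, (starRingEnd ℂ) (α a b j) • y j := by
      intro a b
      unfold kmat1
      rw [map_sum]
      exact Finset.sum_congr rfl fun j _ => by rw [sigma_smul1, (hy j).1]
    constructor
    · intro h a b j
      have h2 := h a b
      rw [h1] at h2
      exact congrFun (huniq _ _ h2) j
    · intro h a b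
      rw [h1]
      unfold kmat1
      exact Finset.sum_congr rfl fun j _ => by rw [h a b j]
  -- real coefficients
  have hval1 : ∀ (α : Fin r → Fin r → Fin M → ℂ) (v : Fin r → ℂ),
      ∑ a, ∑ b, (v a * (starRingEnd ℂ) (v b)) • kmat1 y α a b =
        ∑ j, (∑ a, ∑ b, (v a * (starRingEnd ℂ) (v b)) * α a b j) • y j := by
    intro α v
    have e1 : ∀ a b, (v a * (starRingEnd ℂ) (v b)) • kmat1 y α a b =
        ∑ j, ((v a * (starRingEnd ℂ) (v b)) * α a b j) • y j := fun a b => by
      unfold kmat1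
      rw [Finset.smul_sum]
      exact Finset.sum_congr rfl fun j _ => smul_smul _ _ _
    rw [Finset.sum_congr rfl fun a _ => Finset.sum_congr rfl fun b _ => e1 a b]
    rw [Finset.sum_congr rfl fun a _ => Finset.sum_comm]
    rw [Finset.sum_comm]
    refine Finset.sum_congr rfl fun j _ => ?_
    rw [Finset.sum_smul]
    refine Finset.sum_congr rfl fun a _ => ?_
    rw [Finset.sum_smul]
  have hreal : ∀ α ∈ A, ∀ (v : Fin r → ℂ) (j : Fin M),
      (((∑ a, ∑ b, (v a * (starRingEnd ℂ) (v b)) * α a b j).re : ℝ) : ℂ) =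
        ∑ a, ∑ b, (v a * (starRingEnd ℂ) (v b)) * α a b j := by
    intro α hα v j
    have hc := (hconj α).mp hα.cj
    refine Complex.conj_eq_iff_re.mp ?_
    rw [map_sum]
    simp only [map_sum, map_mul, Complex.conj_conj, hc]
    rw [Finset.sum_comm]
    refine Finset.sum_congr rfl fun a _ => Finset.sum_congr rfl fun b _ => ?_
    ring
  -- closedness
  have hdual : ∀ (Λ : Module.Dual ℂ F) (α : Fin r → Fin r → Fin M → ℂ) (a b c d : Fin r),
      Λ (kmat1 y α a b * kmat1 y α c d) = ∑ j, ∑ l, (α a b j * α c d l) * Λ (y j * y l) := by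
    intro Λ α a b c d
    unfold kmat1
    rw [Finset.sum_mul_sum]
    simp only [smul_mul_smul_comm, map_sum, map_smul, smul_eq_mul]
  have hAeq : A = ({α | ∀ a b j, (starRingEnd ℂ) (α a b j) = α b a j} ∩
      {α | ∀ (a b c d : Fin r) (Λ : Module.Dual ℂ F),
        ∑ j, ∑ l, (α a b j * α c d l) * Λ (y j * y l) =
          ∑ j, ∑ l, (α a d j * α c b l) * Λ (y j * y l)}) ∩
      ({α | ∀ a b, ∑ j, ∑ l, α a b l * vl hF (P j) (y l) = if a = b then 1 else 0} ∩
      {α | ∀ (v : Fin r → ℂ) (Q : Place ℂ F), s.cj Q = Q →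
        0 ≤ (∑ j, (∑ a, ∑ b, (v a * (starRingEnd ℂ) (v b)) * α a b j) * vl hF Q (y j)).re}) := by
    ext α
    constructor
    · intro h
      refine ⟨⟨(hconj α).mp h.cj, ?_⟩, ?_, ?_⟩
      · intro a b c d Λ
        rw [← hdual, ← hdual, h.rk]
      · intro a b
        rw [← h.nrm a b]
        exact Finset.sum_congr rfl fun j _ => (vl_lin1 hS hyL (hP j) _).symm
      · intro v Q hQ
        have h1 := h.pos v Q hQ
        rw [hval1, rv, vl_lin1 hS hyL hQ] at h1
        exact h1
    · rintro ⟨⟨h1, h2⟩, h3, h4⟩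
      refine ⟨fun a b => hmemL _, (hconj α).mpr h1, ?_, ?_, ?_⟩
      · intro a b c d
        rw [← sub_eq_zero, ← Module.forall_dual_apply_eq_zero_iff ℂ]
        intro Λ
        rw [map_sub, hdual, hdual, h2 a b c d Λ, sub_self]
      · intro a b
        rw [← h3 a b]
        exact Finset.sum_congr rfl fun j _ => vl_lin1 hS hyL (hP j) _
      · intro v Q hQ
        rw [hval1, rv, vl_lin1 hS hyL hQ]
        exact h4 v Q hQ
  have hAclosed : IsClosed A := by
    rw [hAeq]
    refine (IsClosed.inter ?_ ?_).inter (IsClosed.inter ?_ ?_)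
    · simp only [Set.ofPred_forall]
      refine isClosed_iInter fun a => isClosed_iInter fun b => isClosed_iInter fun j =>
        isClosed_eq ?_ ?_
      · exact Complex.continuous_conj.comp (by fun_prop)
      · fun_prop
    · simp only [Set.ofPred_forall]
      refine isClosed_iInter fun a => isClosed_iInter fun b => isClosed_iInter fun c =>
        isClosed_iInter fun d => isClosed_iInter fun Λ => isClosed_eq ?_ ?_
      · fun_prop
      · fun_prop
    · simp only [Set.ofPred_forall]
      refine isClosed_iInter fun a => isClosed_iInter fun b => isClosed_eq ?_ continuous_const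
      fun_prop
    · simp only [Set.ofPred_forall]
      refine isClosed_iInter fun v => isClosed_iInter fun Q => isClosed_iInter fun _ =>
        isClosed_le continuous_const (Complex.continuous_re.comp ?_)
      fun_prop
  -- boundedness
  let T : (Fin M → ℂ) →ₗ[ℂ] (Fin N → ℂ) :=
    { toFun := fun c j => ∑ l, c l * vl hF (P j) (y l)
      map_add' := fun c d => by
        funext j
        simp only [Pi.add_apply, add_mul, Finset.sum_add_distrib]
      map_smul' := fun c d => by
        funext j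
        simp only [Pi.smul_apply, smul_eq_mul, RingHom.id_apply, Finset.mul_sum, mul_assoc] }
  have hT : ∀ c j, T c j = vl hF (P j) (∑ l, c l • y l) := fun c j =>
    (vl_lin1 hS hyL (hP j) c).symm
  have hTker : LinearMap.ker T = ⊥ := by
    rw [LinearMap.ker_eq_bot']
    intro c hc
    refine hind c (eq_zero_of_vl1 (hF := hF) hS hP hPi hN (hmemL c) fun j => ?_)
    rw [← hT, hc]
    rfl
  obtain ⟨C, _, hC⟩ := T.exists_antilipschitzWith hTker
  have hTnorm : ∀ c, ‖c‖ ≤ C * ‖T c‖ := by
    intro c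
    have h1 := hC.le_mul_dist c 0
    rw [map_zero, dist_zero_right, dist_zero_right] at h1
    exact h1
  have hring : ∀ (α : Fin r → Fin r → Fin M → ℂ) (a b : Fin r) (j : Fin N),
      kmat1 y α a b ∈ (P j).ring := fun α a b j =>
    mem_ring_of_real1 (hF := hF) hS (hmemL (α a b)) (hP j)
  have hdiag : ∀ α ∈ A, ∀ (a : Fin r) (j : Fin N),
      0 ≤ rv hF (P j) (kmat1 y α a a) ∧ rv hF (P j) (kmat1 y α a a) ≤ 1 := by
    intro α hα a
    have h0 : ∀ j, 0 ≤ rv hF (P j) (kmat1 y α a a) := by
      intro j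
      have h1 := hα.pos (Pi.single a 1) (P j) (hP j)
      have h2 : ∑ a', ∑ b', ((Pi.single a (1 : ℂ) : Fin r → ℂ) a' *
          (starRingEnd ℂ) ((Pi.single a (1 : ℂ) : Fin r → ℂ) b')) • kmat1 y α a' b' =
          kmat1 y α a a := by
        rw [Finset.sum_eq_single a, Finset.sum_eq_single a]
        · rw [Pi.single_eq_same, map_one, one_mul, one_smul]
        · intro b' _ hb'
          rw [Pi.single_eq_of_ne hb', map_zero, mul_zero, zero_smul]
        · intro h
          exact absurd (Finset.mem_univ a) h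
        · intro b' _ hb'
          refine Finset.sum_eq_zero fun b'' _ => ?_
          rw [Pi.single_eq_of_ne hb', zero_mul, zero_smul]
        · intro h
          exact absurd (Finset.mem_univ a) h
      rw [h2] at h1
      exact h1
    intro j
    refine ⟨h0 j, ?_⟩
    have h1 := congrArg Complex.re (hα.nrm a a)
    rw [if_pos rfl, Complex.re_sum, Complex.one_re] at h1
    rw [← h1]
    exact Finset.single_le_sum (f := fun j => (vl hF (P j) (kmat1 y α a a)).re)
      (fun i _ => h0 i) (Finset.mem_univ j)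
  have hentry : ∀ α ∈ A, ∀ (a b : Fin r) (j : Fin N), ‖vl hF (P j) (kmat1 y α a b)‖ ≤ 1 := by
    intro α hα a b j
    have h1 := rv_mul_cj s hF (hP j) (hring α a b j)
    rw [hα.cj a b, hα.rk a b b a, rv_mul s hF (hP j) (hring α a a j) (hring α b b j) (hα.cj a a)
      (hα.cj b b)] at h1
    have h2 := hdiag α hα a j
    have h3 := hdiag α hα b j
    have h4 : ‖vl hF (P j) (kmat1 y α a b)‖ ^ 2 ≤ 1 := by
      rw [← h1]
      exact mul_le_one₀ h2.2 h3.1 h3.2
    have h5 := norm_nonneg (vl hF (P j) (kmat1 y α a b))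
    nlinarith
  have hAbdd : Bornology.IsBounded A := by
    rw [isBounded_iff_forall_norm_le]
    refine ⟨C, fun α hα => ?_⟩
    have hC0 : (0 : ℝ) ≤ C := C.2
    rw [pi_norm_le_iff_of_nonneg hC0]
    intro a
    rw [pi_norm_le_iff_of_nonneg hC0]
    intro b
    refine (hTnorm _).trans ?_
    have h1 : ‖T (α a b)‖ ≤ 1 := by
      rw [pi_norm_le_iff_of_nonneg zero_le_one]
      intro j
      rw [hT]
      exact hentry α hα a b j
    calc (C : ℝ) * ‖T (α a b)‖ ≤ C * 1 := mul_le_mul_of_nonneg_left h1 hC0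
      _ = C := mul_one _
  have hAcpt : IsCompact A := Metric.isCompact_of_isClosed_isBounded hAclosed hAbdd
  -- the compact set
  let Φ : (Fin r → Fin r → Fin M → ℂ) → (Fin n × Fin M → ℝ) := fun α p =>
    (∑ a, ∑ b, (cv p.1 a * (starRingEnd ℂ) (cv p.1 b)) * α a b p.2).re
  have hΦ : Continuous Φ := by
    refine continuous_pi fun p => Complex.continuous_re.comp ?_
    fun_prop
  have hΦval : ∀ α ∈ A, ∀ i, hval (kmat1 y α) (cv i) = ∑ j, (Φ α (i, j) : ℂ) • y j := by
    intro α hα i
    unfold hval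
    rw [hval1]
    exact Finset.sum_congr rfl fun j _ => by rw [hreal α hα (cv i) j]
  refine ⟨M, y, Φ '' A, hy, hAcpt.image hΦ, ?_, ?_⟩
  · intro κ hκ
    have h1 : ∀ a b, ∃ c : Fin M → ℂ, κ a b = ∑ j, c j • y j := fun a b => hspan _ (hκ.mem a b)
    choose α hα using h1
    have h2 : kmat1 y α = κ := by
      funext a b
      exact (hα a b).symm
    have h3 : α ∈ A := by
      change Kap s hF S k P (kmat1 y α)
      rw [h2]
      exact hκ
    refine ⟨Φ α, ⟨α, h3, rfl⟩, fun i => ?_⟩
    rw [← h2]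
    exact hΦval α h3 i
  · rintro x ⟨α, hα, rfl⟩
    exact ⟨kmat1 y α, hα, hΦval α hα⟩

end Pool.Agent.Helper10.GN
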