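import Pool.Agent.Helper10.GN.Mxi

set_option autoImplicit false

/-!
# Project GN, block CRT: from local to global solutions

`J` of finite colength: `A/J` is Artinian, so there are finitely many maximal ideals `m_1, ..., m_t ⊇ J` and `L` with
`∏ m_k^L ≤ J` (`IsArtinianRing`: the Jacobson radical of `A/J` is nilpotent and is the product of the finitely many
maximal ideals). If `t = 0`, `J = ⊤`. Choose solutions `δ_k` for `m_k`, `L`; by the Chinese remainder theorem (the `m_k^L` are pairwise coprime;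
`Ideal.quotientInfRingEquivPiQuotient` or `Ideal.exists_forall_sub_mem_ideal`) there is `δ` with `δ j - δ_k j ∈ m_k^L` for all `k, j`. So
`x(δ) ∈ J ⊔ m_k^L` for all `k`, and the product of the pairwise coprime ideals `J ⊔ m_k^L` is their intersection and is contained in
`J ⊔ ∏ m_k^L = J`.
-/

namespace Pool.Agent.Helper10.GN

open VC FF MvPolynomial Pool.Agent.Helper68.QM

private theorem crt_prod {ι R : Type*} [CommRing R] (s : Finset ι) (J : Ideal R) (K : ι → Ideal R) :
    ∏ i ∈ s, (J ⊔ K i) ≤ J ⊔ ∏ i ∈ s, K i := by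
  classical
  induction s using Finset.induction_on with
  | empty => simp
  | insert a s ha ih =>
    rw [Finset.prod_insert ha, Finset.prod_insert ha]
    refine (Ideal.mul_mono_right ih).trans ?_
    rw [Ideal.sup_mul, Ideal.mul_sup, Ideal.mul_sup]
    refine sup_le (sup_le ?_ ?_) (sup_le ?_ ?_)
    · exact Ideal.mul_le_left.trans le_sup_left
    · exact Ideal.mul_le_left.trans le_sup_left
    · exact Ideal.mul_le_right.trans le_sup_left
    · exact le_sup_right

private theorem crt_max {R : Type} [CommRing R] (J : Ideal R) [IsArtinianRing (R ⧸ J)] :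
    ∃ (ι : Type) (_ : Fintype ι) (M : ι → Ideal R) (n : ℕ), (∀ i, (M i).IsMaximal) ∧ (∀ i, J ≤ M i) ∧
      Function.Injective M ∧ ∏ i, M i ^ n ≤ J := by
  classical
  haveI : Fintype (MaximalSpectrum (R ⧸ J)) := Fintype.ofFinite _
  obtain ⟨n, hn⟩ := IsArtinianRing.isNilpotent_jacobson_bot (R := R ⧸ J)
  have hsurj : Function.Surjective (Ideal.Quotient.mk J) := Ideal.Quotient.mk_surjective
  refine ⟨MaximalSpectrum (R ⧸ J), inferInstance, fun i => i.asIdeal.comap (Ideal.Quotient.mk J), n, ?_, ?_, ?_, ?_⟩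
  · intro i
    haveI := i.isMaximal
    exact Ideal.comap_isMaximal_of_surjective _ hsurj
  · intro i
    refine le_trans (le_of_eq ?_) (Ideal.comap_mono (bot_le : ⊥ ≤ i.asIdeal))
    rw [← RingHom.ker_eq_comap_bot, Ideal.mk_ker]
  · intro i j hij
    exact MaximalSpectrum.ext (Ideal.comap_injective_of_surjective _ hsurj hij)
  · have h1 : (∏ i : MaximalSpectrum (R ⧸ J), (i.asIdeal.comap (Ideal.Quotient.mk J)) ^ n).map (Ideal.Quotient.mk J) ≤ ⊥ := by
      have h0 : ∀ f : MaximalSpectrum (R ⧸ J) → Ideal R, (∏ i, f i).map (Ideal.Quotient.mk J) =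
          ∏ i, (f i).map (Ideal.Quotient.mk J) := fun f => map_prod (Ideal.mapHom (Ideal.Quotient.mk J)) f _
      rw [h0]
      have h2 : ∀ i : MaximalSpectrum (R ⧸ J), ((i.asIdeal.comap (Ideal.Quotient.mk J)) ^ n).map (Ideal.Quotient.mk J) =
          i.asIdeal ^ n := by
        intro i
        rw [Ideal.map_pow, Ideal.map_comap_of_surjective _ hsurj]
      rw [Finset.prod_congr rfl fun i _ => h2 i, Finset.prod_pow, ← Ideal.zero_eq_bot, ← hn]
      refine Ideal.pow_right_mono ?_ n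
      refine Ideal.prod_le_inf.trans ?_
      rw [Ideal.jacobson, le_sInf_iff]
      rintro K ⟨-, hK⟩
      exact Finset.inf_le (f := fun i : MaximalSpectrum (R ⧸ J) => i.asIdeal) (Finset.mem_univ ⟨K, hK⟩)
    have h3 := Ideal.map_le_iff_le_comap.1 h1
    rwa [← RingHom.ker_eq_comap_bot, Ideal.mk_ker] at h3

theorem crt_sol {N : ℕ} {J : Ideal A} (hJ : FC J) (x : (Fin N → A) → A)
    (hx : ∀ (K : Ideal A) (δ δ' : Fin N → A), (∀ j, δ j - δ' j ∈ K) → x δ - x δ' ∈ K)
    (h : ∀ m : Ideal A, m.IsMaximal → J ≤ m → ∀ L : ℕ, ∃ δ, x δ ∈ J ⊔ m ^ L) :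
    ∃ δ, x δ ∈ J := by
  classical
  haveI : Module.Finite ℝ (A ⧸ J) := hJ
  haveI : IsArtinianRing (A ⧸ J) := IsArtinianRing.of_finite ℝ (A ⧸ J)
  obtain ⟨ι, _, M, n, hM, hJM, hinj, hprod⟩ := crt_max J
  choose d hd using fun i => h (M i) (hM i) (hJM i) n
  have hcop : Pairwise (Function.onFun IsCoprime fun i => M i ^ n) := by
    intro i j hij
    refine IsCoprime.pow ?_
    haveI := hM i
    haveI := hM j
    exact Ideal.isCoprime_iff_sup_eq.2 (Ideal.IsMaximal.coprime_of_ne (hM i) (hM j) fun e => hij (hinj e))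
  choose δ hδ using fun j => Ideal.exists_forall_sub_mem_ideal hcop (fun i => d i j)
  refine ⟨δ, ?_⟩
  have h1 : ∀ i, x δ ∈ J ⊔ M i ^ n := by
    intro i
    have h2 := hx (M i ^ n) δ (d i) (fun j => hδ j i)
    have h3 := (J ⊔ M i ^ n).add_mem (Ideal.mem_sup_right h2) (hd i)
    rwa [sub_add_cancel] at h3
  have h4 : ∏ i, (J ⊔ M i ^ n) = ⨅ i ∈ (Finset.univ : Finset ι), (J ⊔ M i ^ n) := by
    refine Ideal.prod_eq_iInf_of_pairwise_isCoprime ?_
    intro i _ j _ hij
    exact Ideal.isCoprime_iff_sup_eq.2 (top_le_iff.1 ((Ideal.isCoprime_iff_sup_eq.1 (hcop hij)).ge.trans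
      (sup_le_sup le_sup_right le_sup_right)))
  have h5 : x δ ∈ ∏ i, (J ⊔ M i ^ n) := by
    rw [h4]
    simp only [Ideal.mem_iInf]
    exact fun i _ => h1 i
  have h6 := crt_prod Finset.univ J (fun i => M i ^ n) h5
  rwa [sup_eq_left.2 hprod] at h6

end Pool.Agent.Helper10.GN
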