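import Pool.Agent.Helper10.GN.Smo

set_option autoImplicit false

/-!
# Project GN, block NOD: nodes

`z` real, `Sg p z`, `hess p z < 0`. There are exactly two places over `z`, both real, and a real combination `c` of
the partial derivatives of `p` has order `1` at both.

Proof. Translate `z` to `0`: `p(z + (x,y)) = q₂ + (terms of degree ≥ 3)`, `2 q₂ = p_xx x² + 2 p_xy x y + p_yy y²` with negative
determinant, so `q₂ = ℓ₁ ℓ₂` with linearly independent real linear forms. Let `a_i = π (ℓ_i(X - z)) ∈ F`, real functions. (Since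
`ℓ₁, ℓ₂` is a basis of the linear forms, `p(z + ·) = G(ℓ₁, ℓ₂)` with a real polynomial
`G(V, W) = V W + (terms of degree ≥ 3)`, and `F = ℂ(a₁, a₂)`, `G(a₁, a₂) = 0`.) `a₁, a₂ ≠ 0` (else `F = ℂ`:
if `a₁ = 0` then `ℓ₁(X - z) ∈ (cx p)`, so `p` is linear, contradicting `Sg`).
A place `P` lies over `z` iff `a₁, a₂ ∈ P.ring.nonunits`. For such `P` let `e_i = ord_P a_i ≥ 1`; from
`a₁ a₂ = - (terms of degree ≥ 3)`: `e₁ + e₂ ≥ 3 min(e₁, e₂)`, so `e₁ ≠ e₂`; say `P` is of type I if `e₁ > e₂` and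
of type II otherwise.
Type I: `t = a₁/a₂`, `u = a₂` satisfy `f(t, u) = 0`, `f(T, U) = G(T U, U) / U² = T + U (...)`, so `f(0,0) = 0`,
`∂f/∂T(0,0) = 1`, and `t, u ∈ P.ring.nonunits`; `F = ℂ(t, u)`. By `smooth_place` there is at most one place of type I and
`ord a₂ = 1` there. Existence: `smooth_exists`: let `g(t,u) = 0`; `U^N g(T, U) = H(T U, U)` for large `N ≥ 2` and a
polynomial `H`, and `H(a₁, a₂) = 0`, so `G ∣ H` (the kernel of `π` is `(cx p)`); `H = G h`, so
`U^N g = U² f h(TU, U)`, and `U` does not divide `f` (`f(T, 0) = T`), so `U^(N-2) ∣ h(TU, U)`, `g = f h'`, `g(0,0) = 0`.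
The place of type I is real: `s.cj P` is also over `z` (`a_i` real) and of type I (`ord_cj`). Type II: by symmetry.
`c`: `π` of a directional derivative `∑ c_i pderiv i p`, for a direction `v` with `ℓ₁(v), ℓ₂(v) ≠ 0`: it is
`ℓ₁(v) a₂ + ℓ₂(v) a₁ + (terms of degree ≥ 2 in a₁, a₂)`; at the place of type I `ord a₂ = 1`, `ord a₁ ≥ 2`, so the order is `1`.
-/

namespace Pool.Agent.Helper10.GN

open VC FF MvPolynomial Pool.Agent.Helper68.QM

section aux


private theorem tay1 (G : CP) : ∃ A B : CP, G = C (eval 0 G) + X 0 * A + X 1 * B := by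
  induction G using MvPolynomial.induction_on with
  | C a => exact ⟨0, 0, by simp⟩
  | add p q hp hq =>
    obtain ⟨A, B, h⟩ := hp
    obtain ⟨A', B', h'⟩ := hq
    refine ⟨A + A', B + B', ?_⟩
    rw [map_add, C_add]
    linear_combination h + h'
  | mul_X p i hp =>
    have e : eval (0 : Fin 2 → ℂ) (p * X i) = 0 := by simp
    rw [e]
    fin_cases i
    · exact ⟨p, 0, by simp [mul_comm]⟩
    · exact ⟨0, p, by simp [mul_comm]⟩

private theorem tay3 (G : CP) : ∃ (a b c d : ℂ) (E A B : CP),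
    G = C (eval 0 G) + C a * X 0 + C b * X 1 + C c * X 0 ^ 2 + C d * X 1 ^ 2 +
      X 0 * X 1 * E + X 0 ^ 3 * A + X 1 ^ 3 * B := by
  obtain ⟨A, B, h⟩ := tay1 G
  obtain ⟨A1, A2, hA⟩ := tay1 A
  obtain ⟨B1, B2, hB⟩ := tay1 B
  obtain ⟨A3, A4, hA1⟩ := tay1 A1
  obtain ⟨B3, B4, hB2⟩ := tay1 B2
  refine ⟨eval 0 A, eval 0 B, eval 0 A1, eval 0 B2, A2 + B1 + X 0 * A4 + X 1 * B3, A3, B4, ?_⟩
  linear_combination h + X 0 * hA + X 1 * hB + X 0 ^ 2 * hA1 + X 1 ^ 2 * hB2

private theorem nform {G : CP} (h0 : eval 0 G = 0) (hi : ∀ i, eval 0 (pderiv i G) = 0)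
    (h00 : eval 0 (pderiv 0 (pderiv 0 G)) = 0) (h11 : eval 0 (pderiv 1 (pderiv 1 G)) = 0)
    (h01 : eval 0 (pderiv 0 (pderiv 1 G)) ≠ 0) :
    ∃ E A B : CP, G = X 0 * X 1 * E + X 0 ^ 3 * A + X 1 ^ 3 * B ∧ eval 0 E ≠ 0 := by
  obtain ⟨a, b, c, d, E, A, B, h⟩ := tay3 G
  rw [h0] at h
  have e10 : pderiv (0 : Fin 2) (X 1 : CP) = 0 := pderiv_X_of_ne (by decide)
  have e01 : pderiv (1 : Fin 2) (X 0 : CP) = 0 := pderiv_X_of_ne (by decide)
  have ha : a = 0 := by
    have := hi 0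
    rw [h] at this
    simpa [Derivation.leibniz, Derivation.leibniz_pow, e10, e01] using this
  have hb : b = 0 := by
    have := hi 1
    rw [h] at this
    simpa [Derivation.leibniz, Derivation.leibniz_pow, e10, e01] using this
  have hc : c = 0 := by
    rw [h] at h00
    have e2 : (constantCoeff : CP →+* ℂ) 2 ≠ 0 := by rw [map_ofNat]; exact two_ne_zero
    simpa [Derivation.leibniz, Derivation.leibniz_pow, e10, e01, e2] using h00
  have hd : d = 0 := by
    rw [h] at h11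
    have e2 : (constantCoeff : CP →+* ℂ) 2 ≠ 0 := by rw [map_ofNat]; exact two_ne_zero
    simpa [Derivation.leibniz, Derivation.leibniz_pow, e10, e01, e2] using h11
  refine ⟨E, A, B, ?_, ?_⟩
  · rw [ha, hb, hc, hd] at h
    rw [h]
    simp
  · rw [h] at h01
    simpa [Derivation.leibniz, Derivation.leibniz_pow, e10, e01] using h01


/-- the affine substitution -/
private noncomputable def ph (z v w : Fin 2 → ℂ) : CP →ₐ[ℂ] CP :=
  aeval fun i => C (z i) + C (v i) * X 0 + C (w i) * X 1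

private theorem ph_X (z v w : Fin 2 → ℂ) (i : Fin 2) :
    ph z v w (X i) = C (z i) + C (v i) * X 0 + C (w i) * X 1 := by
  unfold ph
  rw [aeval_X]

private theorem ph_C (z v w : Fin 2 → ℂ) (a : ℂ) : ph z v w (C a) = C a := by
  unfold ph
  rw [aeval_C]
  rfl

private theorem ph_eval (z v w : Fin 2 → ℂ) (h : CP) : eval 0 (ph z v w h) = eval z h := by
  induction h using MvPolynomial.induction_on with
  | C a => rw [ph_C, eval_C, eval_C]
  | add p q hp hq => rw [map_add, map_add, map_add, hp, hq]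
  | mul_X p i hp => rw [map_mul, map_mul, map_mul, hp, ph_X]; simp

private theorem ph_d0 (z v w : Fin 2 → ℂ) (h : CP) :
    pderiv 0 (ph z v w h) = ∑ i, C (v i) * ph z v w (pderiv i h) := by
  have e01 : pderiv (0 : Fin 2) (X 1 : CP) = 0 := pderiv_X_of_ne (by decide)
  induction h using MvPolynomial.induction_on with
  | C a => simp
  | add p q hp hq =>
    simp only [map_add, mul_add, Finset.sum_add_distrib, hp, hq]
  | mul_X p i hp =>
    rw [map_mul, Derivation.leibniz, hp, ph_X]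
    simp only [Derivation.leibniz, map_add, smul_eq_mul, map_mul, ph_X, pderiv_C, e01, mul_add,
      Fin.sum_univ_two, pderiv_X_self, mul_one, mul_zero, add_zero, zero_add]
    fin_cases i
    · have e : pderiv (1 : Fin 2) (X 0 : CP) = 0 := pderiv_X_of_ne (by decide)
      simp [e]
      ring
    · simp [e01]
      ring

private theorem ph_d1 (z v w : Fin 2 → ℂ) (h : CP) :
    pderiv 1 (ph z v w h) = ∑ i, C (w i) * ph z v w (pderiv i h) := by
  have e10 : pderiv (1 : Fin 2) (X 0 : CP) = 0 := pderiv_X_of_ne (by decide)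
  induction h using MvPolynomial.induction_on with
  | C a => simp
  | add p q hp hq =>
    simp only [map_add, mul_add, Finset.sum_add_distrib, hp, hq]
  | mul_X p i hp =>
    rw [map_mul, Derivation.leibniz, hp, ph_X]
    simp only [Derivation.leibniz, map_add, smul_eq_mul, map_mul, ph_X, pderiv_C, e10, mul_add,
      Fin.sum_univ_two, pderiv_X_self, mul_one, mul_zero, add_zero, zero_add]
    fin_cases i
    · simp [e10]
      ring
    · have e : pderiv (0 : Fin 2) (X 1 : CP) = 0 := pderiv_X_of_ne (by decide)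
      simp [e]
      ring

/-- isotropic vectors of an indefinite form -/
private theorem iso {a b c : ℝ} (h : a * c - b ^ 2 < 0) :
    ∃ v w : Fin 2 → ℝ, a * v 0 ^ 2 + 2 * b * v 0 * v 1 + c * v 1 ^ 2 = 0 ∧
      a * w 0 ^ 2 + 2 * b * w 0 * w 1 + c * w 1 ^ 2 = 0 ∧
      a * v 0 * w 0 + b * (v 0 * w 1 + v 1 * w 0) + c * v 1 * w 1 ≠ 0 ∧
      v 0 * w 1 - v 1 * w 0 ≠ 0 := by
  by_cases ha : a = 0
  · subst ha
    have hb : b ≠ 0 := by
      rintro rfl
      norm_num at h
    refine ⟨![1, 0], ![c, -2 * b], ?_, ?_, ?_, ?_⟩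
    · simp
    · simp
      ring
    · simp
      exact hb
    · simp
      exact hb
  · have hd : 0 ≤ b ^ 2 - a * c := by linarith
    have hs := Real.sq_sqrt hd
    have hs0 : 0 < Real.sqrt (b ^ 2 - a * c) := Real.sqrt_pos.2 (by linarith)
    set d := Real.sqrt (b ^ 2 - a * c) with hdd
    refine ⟨![-b + d, a], ![-b - d, a], ?_, ?_, ?_, ?_⟩
    · simp only [Matrix.cons_val_zero, Matrix.cons_val_one]
      linear_combination a * hs
    · simp only [Matrix.cons_val_zero, Matrix.cons_val_one]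
      linear_combination a * hs
    · simp only [Matrix.cons_val_zero, Matrix.cons_val_one]
      have e : a * (-b + d) * (-b - d) + b * ((-b + d) * a + a * (-b - d)) + c * a * a =
          -2 * a * d ^ 2 := by
        linear_combination a * hs
      rw [e]
      have : d ^ 2 ≠ 0 := pow_ne_zero _ hs0.ne'
      exact mul_ne_zero (mul_ne_zero (by norm_num) ha) this
    · simp only [Matrix.cons_val_zero, Matrix.cons_val_one]
      have e : (-b + d) * a - a * (-b - d) = 2 * a * d := by ring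
      rw [e]
      exact mul_ne_zero (mul_ne_zero two_ne_zero ha) hs0.ne'


/-- substitution `(T U, U)` -/
private noncomputable def be : CP →ₐ[ℂ] CP := aeval ![X 0 * X 1, X 1]

private theorem be_X0 : be (X 0) = X 0 * X 1 := by
  unfold be
  rw [aeval_X]
  rfl

private theorem be_X1 : be (X 1) = X 1 := by
  unfold be
  rw [aeval_X]
  rfl

private theorem be_C (a : ℂ) : be (C a) = C a := by
  unfold be
  rw [aeval_C]
  rfl

private theorem be_lift (g : CP) : ∃ (N : ℕ) (H : CP), X 1 ^ N * g = be H := by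
  induction g using MvPolynomial.induction_on with
  | C a => exact ⟨0, C a, by rw [be_C]; ring⟩
  | add p q hp hq =>
    obtain ⟨N, H, h⟩ := hp
    obtain ⟨N', H', h'⟩ := hq
    refine ⟨N + N', X 1 ^ N' * H + X 1 ^ N * H', ?_⟩
    rw [map_add, map_mul, map_mul, map_pow, map_pow, be_X1]
    linear_combination X 1 ^ N' * h + X 1 ^ N * h'
  | mul_X p i hp =>
    obtain ⟨N, H, h⟩ := hp
    fin_cases i
    · refine ⟨N + 1, H * X 0, ?_⟩
      rw [map_mul, be_X0]
      simp only [Fin.zero_eta]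
      linear_combination X 0 * X 1 * h
    · refine ⟨N, H * X 1, ?_⟩
      rw [map_mul, be_X1]
      simp only [Fin.mk_one]
      linear_combination X 1 * h

private theorem be_eval0 (h : CP) : eval 0 (be h) = eval 0 h := by
  induction h using MvPolynomial.induction_on with
  | C a => rw [be_C]
  | add p q hp hq => rw [map_add, map_add, map_add, hp, hq]
  | mul_X p i hp =>
    rw [map_mul, map_mul, map_mul, hp]
    fin_cases i
    · simp [be_X0]
    · simp [be_X1]

private theorem be_eval1 (h : CP) : eval ![1, 0] (be h) = eval 0 h := by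
  induction h using MvPolynomial.induction_on with
  | C a => rw [be_C, eval_C, eval_C]
  | add p q hp hq => rw [map_add, map_add, map_add, hp, hq]
  | mul_X p i hp =>
    rw [map_mul, map_mul, map_mul, hp]
    fin_cases i
    · simp [be_X0]
    · simp [be_X1]

variable {F : Type} [Field F] [Algebra ℂ F] (hF : IsFunctionField ℂ F)

private theorem be_aeval {ψ : CP →ₐ[ℂ] F} (h1 : ψ (X 1) ≠ 0) (g : CP) :
    aeval ![ψ (X 0) / ψ (X 1), ψ (X 1)] (be g) = ψ g := by
  have e : (aeval ![ψ (X 0) / ψ (X 1), ψ (X 1)]).comp be = ψ := by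
    apply MvPolynomial.algHom_ext
    intro i
    fin_cases i
    · simp [be_X0, h1]
    · simp [be_X1]
  exact DFunLike.congr_fun e g

private theorem X1_ne {ψ : CP →ₐ[ℂ] F} {G E A B : CP}
    (hG : G = X 0 * X 1 * E + X 0 ^ 3 * A + X 1 ^ 3 * B)
    (hker : ∀ h, ψ h = 0 ↔ G ∣ h) : ψ (X 1) ≠ 0 := by
  intro h
  obtain ⟨k, hk⟩ := (hker _).1 h
  have e01 : pderiv (1 : Fin 2) (X 0 : CP) = 0 := pderiv_X_of_ne (by decide)
  have := congrArg (fun a => eval 0 (pderiv 1 a)) hk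
  rw [hG] at this
  simp [Derivation.leibniz, Derivation.leibniz_pow, e01] at this

include hF in
private theorem typeI {ψ : CP →ₐ[ℂ] F} {G E A B : CP}
    (hG : G = X 0 * X 1 * E + X 0 ^ 3 * A + X 1 ^ 3 * B) (hE : eval 0 E ≠ 0)
    (hker : ∀ h, ψ h = 0 ↔ G ∣ h) (hfrac : ∀ f : F, ∃ a b : CP, ψ b ≠ 0 ∧ f = ψ a / ψ b) :
    ∃ P : Place ℂ F, (ψ (X 0) / ψ (X 1) ∈ P.ring.nonunits ∧ ψ (X 1) ∈ P.ring.nonunits) ∧
      ord P.ring (ψ (X 1)) = 1 ∧
      ∀ R : Place ℂ F, ψ (X 0) / ψ (X 1) ∈ R.ring.nonunits → ψ (X 1) ∈ R.ring.nonunits →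
        R = P := by
  have h1 : ψ (X 1) ≠ 0 := X1_ne hG hker
  set t := ψ (X 0) / ψ (X 1) with ht
  set u := ψ (X 1) with hu
  have hbe : ∀ g, aeval ![t, u] (be g) = ψ g := be_aeval h1
  have hX0 : aeval ![t, u] (X 0 : CP) = t := by simp
  have hX1 : aeval ![t, u] (X 1 : CP) = u := by simp
  set f : CP := X 0 * be E + X 0 ^ 3 * X 1 * be A + X 1 * be B with hf
  have hGf : be G = X 1 ^ 2 * f := by
    rw [hG, hf]
    simp only [map_add, map_mul, map_pow, be_X0, be_X1]
    ring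
  have hf0 : aeval ![t, u] f = 0 := by
    have e := hbe G
    rw [(hker G).2 dvd_rfl, hGf, map_mul, map_pow, hX1] at e
    exact (mul_eq_zero.1 e).resolve_left (pow_ne_zero 2 h1)
  have hfe : eval 0 f = 0 := by
    rw [hf]
    simp
  have hfd : eval 0 (pderiv 0 f) ≠ 0 := by
    rw [hf]
    have e10 : pderiv (0 : Fin 2) (X 1 : CP) = 0 := pderiv_X_of_ne (by decide)
    have e : eval 0 (pderiv 0 (X 0 * be E + X 0 ^ 3 * X 1 * be A + X 1 * be B)) = eval 0 E := by
      rw [← be_eval0 E]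
      simp [Derivation.leibniz, Derivation.leibniz_pow, e10]
    rw [e]
    exact hE
  have hgen : ∀ x : F, ∃ a b : CP, aeval ![t, u] b ≠ 0 ∧
      x = aeval ![t, u] a / aeval ![t, u] b := by
    intro x
    obtain ⟨a, b, hb, hx⟩ := hfrac x
    exact ⟨be a, be b, by rwa [hbe], by rw [hbe, hbe]; exact hx⟩
  have hfX : ¬ (X 1 : CP) ∣ f := by
    rintro ⟨k, hk⟩
    have e := congrArg (eval ![1, 0]) hk
    rw [hf] at e
    simp [be_eval1] at e
    exact hE (by simpa using e)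
  obtain ⟨P, hP1, hP2⟩ : ∃ P : Place ℂ F, t ∈ P.ring.nonunits ∧ u ∈ P.ring.nonunits := by
    apply smooth_exists hF (Or.inr h1)
    intro g hg
    obtain ⟨N, H, hH⟩ := be_lift g
    have e1 : ψ H = 0 := by
      rw [← hbe, ← hH, map_mul, hg, mul_zero]
    obtain ⟨k, hk⟩ := (hker H).1 e1
    rw [hk, map_mul, hGf] at hH
    have e2 : (X 1 : CP) ^ N ∣ f * (X 1 ^ 2 * be k) := ⟨g, by rw [hH]; ring⟩
    have e3 : (X 1 : CP) ^ N ∣ X 1 ^ 2 * be k :=
      (X_prime (R := ℂ) (i := (1 : Fin 2))).pow_dvd_of_dvd_mul_left N hfX e2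
    obtain ⟨m, hm⟩ := e3
    have e4 : g = f * m := by
      have e5 : (X 1 : CP) ^ N * g = X 1 ^ N * (f * m) := by
        rw [hH]
        linear_combination f * hm
      exact mul_left_cancel₀ (pow_ne_zero N (X_ne_zero 1)) e5
    rw [e4, map_mul, hfe, zero_mul]
  refine ⟨P, ⟨hP1, hP2⟩, (smooth_place hF hf0 hfe hfd hgen hP1 hP2 hP1 hP2).2.2, ?_⟩
  intro R hR1 hR2
  exact (smooth_place hF hf0 hfe hfd hgen hR1 hR2 hP1 hP2).1


section place

variable {ψ : CP →ₐ[ℂ] F} {R : Place ℂ F} (h0 : ψ (X 0) ∈ R.ring.nonunits)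
  (h1 : ψ (X 1) ∈ R.ring.nonunits)
include hF h0 h1

private theorem mem_all (g : CP) : Oge R 0 (ψ g) := by
  induction g using MvPolynomial.induction_on with
  | C a =>
    have e : ψ (C a) = algebraMap ℂ F a := ψ.commutes a
    rw [e]
    exact oge_alg hF a
  | add p q hp hq =>
    rw [map_add]
    exact oge_add hF hp hq
  | mul_X p i hp =>
    rw [map_mul]
    have hi : Oge R 0 (ψ (X i)) := by
      fin_cases i
      · exact ((oge_one_iff hF).2 h0).mono (by norm_num)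
      · exact ((oge_one_iff hF).2 h1).mono (by norm_num)
    have := oge_mul hF hp hi
    rwa [add_zero] at this

private theorem nu_eval (g : CP) : Oge R 1 (ψ g - algebraMap ℂ F (eval 0 g)) := by
  obtain ⟨A, B, h⟩ := tay1 g
  have e : ψ g - algebraMap ℂ F (eval 0 g) = ψ (X 0) * ψ A + ψ (X 1) * ψ B := by
    conv_lhs => rw [h]
    have e : ψ (C (eval 0 g)) = algebraMap ℂ F (eval 0 g) := ψ.commutes _
    simp only [map_add, map_mul, e, eval_C, eval_X]
    simp
    ring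
  rw [e]
  have e0 := oge_mul hF ((oge_one_iff hF).2 h0) (mem_all hF h0 h1 A)
  have e1 := oge_mul hF ((oge_one_iff hF).2 h1) (mem_all hF h0 h1 B)
  rw [add_zero] at e0 e1
  exact oge_add hF e0 e1

omit h0 h1 in
private theorem unit_of {f : F} {c : ℂ} (hc : c ≠ 0) (h : Oge R 1 (f - algebraMap ℂ F c)) :
    f ≠ 0 ∧ ord R.ring f = 0 := by
  have hf : f ∈ R.ring := by
    have e := add_mem ((oge_zero_iff hF).1 (h.mono (by norm_num))) (R.algebraMap_mem c)
    rwa [sub_add_cancel] at e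
  have hv : vl hF R f ≠ 0 := by
    rw [(vl_eq_iff hF hf c).2 ((oge_one_iff hF).1 h)]
    exact hc
  refine ⟨?_, ord_eq_zero_of_vl hF hf hv⟩
  rintro rfl
  exact hv (vl_zero hF)

/-- a smaller branch slope is a nonunit -/
private theorem slope {G E A B : CP}
    (hG : G = X 0 * X 1 * E + X 0 ^ 3 * A + X 1 ^ 3 * B) (hE : eval 0 E ≠ 0)
    (hGz : ψ G = 0) (hne : ψ (X 1) ≠ 0) (ht : ψ (X 0) / ψ (X 1) ∈ R.ring) :
    ψ (X 0) / ψ (X 1) ∈ R.ring.nonunits := by
  have hu := unit_of hF hE (nu_eval hF h0 h1 E)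
  rw [hG] at hGz
  simp only [map_add, map_mul, map_pow] at hGz
  set t := ψ (X 0) / ψ (X 1) with htd
  have e0 : ψ (X 0) = t * ψ (X 1) := by
    rw [htd, div_mul_cancel₀ _ hne]
  have e1 : t * ψ E = -(ψ (X 1) * (t ^ 3 * ψ A + ψ B)) := by
    rw [e0] at hGz
    have e2 : ψ (X 1) ^ 2 * (t * ψ E + ψ (X 1) * (t ^ 3 * ψ A + ψ B)) = 0 := by
      linear_combination hGz
    have e3 := (mul_eq_zero.1 e2).resolve_left (pow_ne_zero 2 hne)
    linear_combination e3
  have e2 : Oge R 1 (t * ψ E) := by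
    rw [e1]
    apply oge_neg hF
    have ht0 : Oge R 0 t := (oge_zero_iff hF).2 ht
    have e3 : Oge R 0 (t ^ 3 * ψ A + ψ B) := by
      apply oge_add hF _ (mem_all hF h0 h1 B)
      have e4 := oge_mul hF (oge_pow hF ht0 3) (mem_all hF h0 h1 A)
      rwa [mul_zero, add_zero] at e4
    have e5 := oge_mul hF ((oge_one_iff hF).2 h1) e3
    rwa [add_zero] at e5
  rw [← oge_one_iff hF, ← oge_mul_iff hF hu.1, hu.2, add_zero]
  exact e2

end place

include hF in
/-- the order of the sum of the partial derivatives along a branch -/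
private theorem der_ord {ψ : CP →ₐ[ℂ] F} {P : Place ℂ F} {E K L : CP} (hE : eval 0 E ≠ 0)
    (hne : ψ (X 1) ≠ 0) (ht : ψ (X 0) / ψ (X 1) ∈ P.ring.nonunits)
    (h1 : ψ (X 1) ∈ P.ring.nonunits) (ho : ord P.ring (ψ (X 1)) = 1) :
    ord P.ring (ψ (X 1 * E + X 0 * K + X 1 ^ 2 * L)) = 1 := by
  set t := ψ (X 0) / ψ (X 1) with htd
  have e0 : ψ (X 0) = t * ψ (X 1) := by
    rw [htd, div_mul_cancel₀ _ hne]
  have g1 := (oge_one_iff hF).2 h1
  have gt := (oge_one_iff hF).2 ht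
  have g0 : Oge P 1 (ψ (X 0)) := by
    rw [e0]
    exact (oge_mul hF gt g1).mono (by norm_num)
  have h0 := (oge_one_iff hF).1 g0
  have e1 : ψ (X 1 * E + X 0 * K + X 1 ^ 2 * L) =
      ψ (X 1) * (ψ E + t * ψ K + ψ (X 1) * ψ L) := by
    simp only [map_add, map_mul, map_pow, e0]
    ring
  have e2 : Oge P 1 (ψ E + t * ψ K + ψ (X 1) * ψ L - algebraMap ℂ F (eval 0 E)) := by
    have e3 := oge_mul hF gt (mem_all hF h0 h1 K)
    have e4 := oge_mul hF g1 (mem_all hF h0 h1 L)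
    rw [add_zero] at e3 e4
    have e5 := oge_add hF (oge_add hF (nu_eval hF h0 h1 E) e3) e4
    convert e5 using 1
    ring
  have e3 := unit_of hF hE e2
  rw [e1, FF.ord_mul hF P hne e3.1, ho, e3.2]
  norm_num

/-- exchange of the variables -/
private noncomputable def sw : CP →ₐ[ℂ] CP := aeval ![X 1, X 0]

private theorem sw_X0 : sw (X 0) = X 1 := by
  unfold sw
  rw [aeval_X]
  rfl

private theorem sw_X1 : sw (X 1) = X 0 := by
  unfold sw
  rw [aeval_X]
  rfl

private theorem sw_sw (g : CP) : sw (sw g) = g := by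
  have e : sw.comp sw = AlgHom.id ℂ CP := by
    apply MvPolynomial.algHom_ext
    intro i
    fin_cases i
    · simp [sw_X0, sw_X1]
    · simp [sw_X0, sw_X1]
  exact DFunLike.congr_fun e g

private theorem sw_eval (g : CP) : eval 0 (sw g) = eval 0 g := by
  induction g using MvPolynomial.induction_on with
  | C a =>
    unfold sw
    rw [aeval_C]
    simp
  | add p q hp hq => rw [map_add, map_add, map_add, hp, hq]
  | mul_X p i hp =>
    rw [map_mul, map_mul, map_mul, hp]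
    fin_cases i
    · simp [sw_X0]
    · simp [sw_X1]

include hF in
private theorem nodeN {ψ : CP →ₐ[ℂ] F} {G E A B : CP}
    (hG : G = X 0 * X 1 * E + X 0 ^ 3 * A + X 1 ^ 3 * B) (hE : eval 0 E ≠ 0)
    (hker : ∀ h, ψ h = 0 ↔ G ∣ h) (hfrac : ∀ f : F, ∃ a b : CP, ψ b ≠ 0 ∧ f = ψ a / ψ b) :
    ∃ P Q : Place ℂ F, P ≠ Q ∧
      (∀ R : Place ℂ F, (ψ (X 0) ∈ R.ring.nonunits ∧ ψ (X 1) ∈ R.ring.nonunits) ↔
        R = P ∨ R = Q) ∧
      (ψ (X 0) / ψ (X 1) ∈ P.ring.nonunits ∧ ψ (X 1) ∈ P.ring.nonunits) ∧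
      (ψ (X 1) / ψ (X 0) ∈ Q.ring.nonunits ∧ ψ (X 0) ∈ Q.ring.nonunits) ∧
      (∀ R : Place ℂ F, ψ (X 0) / ψ (X 1) ∈ R.ring.nonunits → ψ (X 1) ∈ R.ring.nonunits →
        R = P) ∧
      (∀ R : Place ℂ F, ψ (X 1) / ψ (X 0) ∈ R.ring.nonunits → ψ (X 0) ∈ R.ring.nonunits →
        R = Q) ∧
      ord P.ring (ψ (pderiv 0 G + pderiv 1 G)) = 1 ∧
      ord Q.ring (ψ (pderiv 0 G + pderiv 1 G)) = 1 := by
  have hGz : ψ G = 0 := (hker G).2 dvd_rfl
  have h1 : ψ (X 1) ≠ 0 := X1_ne hG hker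
  obtain ⟨P, hP, hPo, hPu⟩ := typeI hF hG hE hker hfrac
  -- the exchanged data
  set ψ' : CP →ₐ[ℂ] F := ψ.comp sw with hψ'
  have hG' : sw G = X 0 * X 1 * sw E + X 0 ^ 3 * sw B + X 1 ^ 3 * sw A := by
    rw [hG]
    simp only [map_add, map_mul, map_pow, sw_X0, sw_X1]
    ring
  have hE' : eval 0 (sw E) ≠ 0 := by rwa [sw_eval]
  have hker' : ∀ h, ψ' h = 0 ↔ sw G ∣ h := by
    intro h
    have e : ψ' h = ψ (sw h) := rfl
    rw [e, hker]
    constructor
    · intro hd
      have := map_dvd sw hd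
      rwa [sw_sw] at this
    · intro hd
      have := map_dvd sw hd
      rwa [sw_sw] at this
  have hfrac' : ∀ f : F, ∃ a b : CP, ψ' b ≠ 0 ∧ f = ψ' a / ψ' b := by
    intro f
    obtain ⟨a, b, hb, hf⟩ := hfrac f
    refine ⟨sw a, sw b, ?_, ?_⟩
    · change ψ (sw (sw b)) ≠ 0
      rwa [sw_sw]
    · change f = ψ (sw (sw a)) / ψ (sw (sw b))
      rwa [sw_sw, sw_sw]
  have eX0 : ψ' (X 0) = ψ (X 1) := by
    change ψ (sw (X 0)) = _
    rw [sw_X0]
  have eX1 : ψ' (X 1) = ψ (X 0) := by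
    change ψ (sw (X 1)) = _
    rw [sw_X1]
  have h0 : ψ (X 0) ≠ 0 := by
    have := X1_ne hG' hker'
    rwa [eX1] at this
  obtain ⟨Q, hQ, hQo, hQu⟩ := typeI hF hG' hE' hker' hfrac'
  rw [eX0, eX1] at hQ
  rw [eX1] at hQo
  simp only [eX0, eX1] at hQu
  have nP : ψ (X 0) ∈ P.ring.nonunits := by
    rw [← div_mul_cancel₀ (ψ (X 0)) h1, ← oge_one_iff hF]
    exact (oge_mul hF ((oge_one_iff hF).2 hP.1) ((oge_one_iff hF).2 hP.2)).mono (by norm_num)
  have nQ : ψ (X 1) ∈ Q.ring.nonunits := by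
    rw [← div_mul_cancel₀ (ψ (X 1)) h0, ← oge_one_iff hF]
    exact (oge_mul hF ((oge_one_iff hF).2 hQ.1) ((oge_one_iff hF).2 hQ.2)).mono (by norm_num)
  refine ⟨P, Q, ?_, ?_, hP, hQ, hPu, hQu, ?_, ?_⟩
  · rintro rfl
    have e := oge_mul hF ((oge_one_iff hF).2 hP.1) ((oge_one_iff hF).2 hQ.1)
    have e1 : ψ (X 0) / ψ (X 1) * (ψ (X 1) / ψ (X 0)) = 1 := by
      field_simp
    rw [e1] at e
    rcases e with e | e
    · exact one_ne_zero e
    · rw [FF.ord_one hF] at e
      norm_num at e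
  · intro R
    constructor
    · rintro ⟨hR0, hR1⟩
      rcases R.ring.mem_or_inv_mem (ψ (X 0) / ψ (X 1)) with ht | ht
      · exact Or.inl (hPu R (slope hF hR0 hR1 hG hE hGz h1 ht) hR1)
      · rw [inv_div] at ht
        right
        have e := slope (ψ := ψ') hF (R := R) (by rw [eX0]; exact hR1) (by rw [eX1]; exact hR0)
          hG' hE' ((hker' _).2 dvd_rfl) (by rw [eX1]; exact h0) (by rw [eX0, eX1]; exact ht)
        rw [eX0, eX1] at e
        exact hQu R e hR0
    · rintro (rfl | rfl)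
      · exact ⟨nP, hP.2⟩
      · exact ⟨hQ.2, nQ⟩
  · have e10 : pderiv (0 : Fin 2) (X 1 : CP) = 0 := pderiv_X_of_ne (by decide)
    have e01 : pderiv (1 : Fin 2) (X 0 : CP) = 0 := pderiv_X_of_ne (by decide)
    have e : pderiv 0 G + pderiv 1 G = X 1 * E +
        X 0 * (E + X 1 * (pderiv 0 E + pderiv 1 E) + 3 * X 0 * A +
          X 0 ^ 2 * (pderiv 0 A + pderiv 1 A)) +
        X 1 ^ 2 * (3 * B + X 1 * (pderiv 0 B + pderiv 1 B)) := by
      rw [hG]
      simp only [map_add, Derivation.leibniz, Derivation.leibniz_pow, e10, e01, pderiv_X_self,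
        smul_eq_mul, nsmul_eq_mul]
      push_cast
      ring
    rw [e]
    exact der_ord hF hE h1 hP.1 hP.2 hPo
  · have e10 : pderiv (0 : Fin 2) (X 1 : CP) = 0 := pderiv_X_of_ne (by decide)
    have e01 : pderiv (1 : Fin 2) (X 0 : CP) = 0 := pderiv_X_of_ne (by decide)
    have e : ψ (pderiv 0 G + pderiv 1 G) = ψ' (X 1 * sw E +
        X 0 * sw (E + X 0 * (pderiv 0 E + pderiv 1 E) + 3 * X 1 * B +
          X 1 ^ 2 * (pderiv 0 B + pderiv 1 B)) +
        X 1 ^ 2 * sw (3 * A + X 0 * (pderiv 0 A + pderiv 1 A))) := by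
      change _ = ψ (sw _)
      congr 1
      rw [hG]
      simp only [map_add, map_mul, map_pow, sw_sw, sw_X0, sw_X1]
      simp only [Derivation.leibniz, Derivation.leibniz_pow, e10, e01, pderiv_X_self,
        smul_eq_mul, nsmul_eq_mul]
      push_cast
      ring
    rw [e]
    exact der_ord hF hE' (by rw [eX1]; exact h0) (by rw [eX0, eX1]; exact hQ.1)
      (by rw [eX1]; exact hQ.2) (by rw [eX1]; exact hQo)


private theorem pd_comm (h : CP) : pderiv 1 (pderiv 0 h) = pderiv 0 (pderiv 1 h) := by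
  have e10 : pderiv (0 : Fin 2) (X 1 : CP) = 0 := pderiv_X_of_ne (by decide)
  have e01 : pderiv (1 : Fin 2) (X 0 : CP) = 0 := pderiv_X_of_ne (by decide)
  induction h using MvPolynomial.induction_on with
  | C a => simp
  | add p q hp hq => simp only [map_add, hp, hq]
  | mul_X p i hp =>
    fin_cases i
    · simp [Derivation.leibniz, e01, hp]
      ring
    · simp [Derivation.leibniz, e10, hp]
      ring

/-- the inverse substitution -/
private theorem ph_inv (z v w : Fin 2 → ℝ) (hD : v 0 * w 1 - v 1 * w 0 ≠ 0) :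
    ∃ φ : CP →ₐ[ℂ] CP, (∀ g, φ (ph (cz z) (cz v) (cz w) g) = g) ∧
      (∀ g, ph (cz z) (cz v) (cz w) (φ g) = g) ∧
      ∀ i, ∃ a b : ℝ, φ (X i) = cx (C a * (X 0 - C (z 0)) + C b * (X 1 - C (z 1))) := by
  set D := v 0 * w 1 - v 1 * w 0 with hDd
  set a : Fin 2 → ℝ := ![w 1 / D, -v 1 / D] with ha
  set b : Fin 2 → ℝ := ![-w 0 / D, v 0 / D] with hb
  have r1 : v 0 * a 0 + w 0 * a 1 = 1 := by
    simp only [ha, Matrix.cons_val_zero, Matrix.cons_val_one]
    field_simp
    linarith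
  have r2 : v 0 * b 0 + w 0 * b 1 = 0 := by
    simp only [hb, Matrix.cons_val_zero, Matrix.cons_val_one]
    field_simp
    ring
  have r3 : v 1 * a 0 + w 1 * a 1 = 0 := by
    simp only [ha, Matrix.cons_val_zero, Matrix.cons_val_one]
    field_simp
    ring
  have r4 : v 1 * b 0 + w 1 * b 1 = 1 := by
    simp only [hb, Matrix.cons_val_zero, Matrix.cons_val_one]
    field_simp
    linarith
  have r5 : a 0 * v 0 + b 0 * v 1 = 1 := by
    simp only [ha, hb, Matrix.cons_val_zero]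
    field_simp
    linarith
  have r6 : a 0 * w 0 + b 0 * w 1 = 0 := by
    simp only [ha, hb, Matrix.cons_val_zero]
    field_simp
    ring
  have r7 : a 1 * v 0 + b 1 * v 1 = 0 := by
    simp only [ha, hb, Matrix.cons_val_one, Matrix.cons_val_zero]
    field_simp
    ring
  have r8 : a 1 * w 0 + b 1 * w 1 = 1 := by
    simp only [ha, hb, Matrix.cons_val_one, Matrix.cons_val_zero]
    field_simp
    linarith
  have key : ∀ x y u t : ℝ, ∀ c : ℝ, x * y + u * t = c →
      (C (x : ℂ) * C (y : ℂ) + C (u : ℂ) * C (t : ℂ) : CP) = C (c : ℂ) := by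
    intro x y u t c h
    rw [← C_mul, ← C_mul, ← C_add, ← h]
    push_cast
    rfl
  have k1 := key _ _ _ _ _ r1
  have k2 := key _ _ _ _ _ r2
  have k3 := key _ _ _ _ _ r3
  have k4 := key _ _ _ _ _ r4
  have k5 := key _ _ _ _ _ r5
  have k6 := key _ _ _ _ _ r6
  have k7 := key _ _ _ _ _ r7
  have k8 := key _ _ _ _ _ r8
  simp only [Complex.ofReal_one, Complex.ofReal_zero, C_1, C_0] at k1 k2 k3 k4 k5 k6 k7 k8
  let φ : CP →ₐ[ℂ] CP := aeval fun i =>
    C (a i : ℂ) * (X 0 - C (z 0 : ℂ)) + C (b i : ℂ) * (X 1 - C (z 1 : ℂ))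
  have hφ : ∀ i, φ (X i) = C (a i : ℂ) * (X 0 - C (z 0 : ℂ)) + C (b i : ℂ) * (X 1 - C (z 1 : ℂ)) := by
    intro i
    exact aeval_X _ _
  have hφC : ∀ c : ℂ, φ (C c) = C c := fun c => φ.commutes c
  refine ⟨φ, ?_, ?_, ?_⟩
  · intro g
    have e : φ.comp (ph (cz z) (cz v) (cz w)) = AlgHom.id ℂ CP := by
      apply MvPolynomial.algHom_ext
      intro i
      rw [AlgHom.comp_apply, ph_X, map_add, map_add, map_mul, map_mul, hφC, hφC, hφC, hφ, hφ,
        AlgHom.id_apply]
      unfold cz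
      fin_cases i
      · simp only [Fin.zero_eta]
        linear_combination (X 0 - C (z 0 : ℂ)) * k1 + (X 1 - C (z 1 : ℂ)) * k2
      · simp only [Fin.mk_one]
        linear_combination (X 0 - C (z 0 : ℂ)) * k3 + (X 1 - C (z 1 : ℂ)) * k4
    exact DFunLike.congr_fun e g
  · intro g
    have e : (ph (cz z) (cz v) (cz w)).comp φ = AlgHom.id ℂ CP := by
      apply MvPolynomial.algHom_ext
      intro i
      rw [AlgHom.comp_apply, hφ, map_add, map_mul, map_mul, map_sub, map_sub, ph_C, ph_C, ph_C,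
        ph_C, ph_X, ph_X, AlgHom.id_apply]
      unfold cz
      fin_cases i
      · simp only [Fin.zero_eta]
        linear_combination X 0 * k5 + X 1 * k6
      · simp only [Fin.mk_one]
        linear_combination X 0 * k7 + X 1 * k8
    exact DFunLike.congr_fun e g
  · intro i
    refine ⟨a i, b i, ?_⟩
    rw [hφ]
    simp only [map_add, map_mul, map_sub, cx_C, cx_X]

end aux

variable {F : Type} [Field F] [Algebra ℂ F] {s : RStr F} (hF : IsFunctionField ℂ F)
variable {p : A} {π : CP →ₐ[ℂ] F}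

theorem node_places (hc : IsCrv p s π) {z : Fin 2 → ℝ} (hz : Sg p z) (hh : hess p z < 0) :
    ∃ P Q : Place ℂ F, P ≠ Q ∧ s.cj P = P ∧ s.cj Q = Q ∧
      (∀ R, Over hF π R (cz z) ↔ R = P ∨ R = Q) ∧
      ∃ c : Fin 2 → ℝ, π (cx (∑ i, C (c i) * pderiv i p)) ≠ 0 ∧
        ord P.ring (π (cx (∑ i, C (c i) * pderiv i p))) = 1 ∧
        ord Q.ring (π (cx (∑ i, C (c i) * pderiv i p))) = 1 := by
  obtain ⟨v, w, hv, hw, hvw, hD⟩ := iso hh
  obtain ⟨φ, hφ1, hφ2, hφX⟩ := ph_inv z v w hD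
  set Φ := ph (cz z) (cz v) (cz w) with hΦ
  set G := Φ (cx p) with hG
  have ev1 : ∀ a : A, eval 0 (Φ (cx a)) = ((eval z a : ℝ) : ℂ) := by
    intro a
    rw [hΦ, ph_eval, eval_cx]
  have d0 : ∀ a : A, pderiv 0 (Φ (cx a)) = Φ (cx (∑ i, C (v i) * pderiv i a)) := by
    intro a
    rw [hΦ, ph_d0]
    simp only [map_sum, map_mul, cx_C, ph_C, pderiv_cx, cz]
  have d1 : ∀ a : A, pderiv 1 (Φ (cx a)) = Φ (cx (∑ i, C (w i) * pderiv i a)) := by
    intro a
    rw [hΦ, ph_d1]
    simp only [map_sum, map_mul, cx_C, ph_C, pderiv_cx, cz]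
  have hcomm : eval z (pderiv 1 (pderiv 0 p)) = eval z (pderiv 0 (pderiv 1 p)) := by
    have e := congrArg (eval (cz z)) (pd_comm (cx p))
    rw [pderiv_cx, pderiv_cx, pderiv_cx, pderiv_cx, eval_cx, eval_cx] at e
    exact_mod_cast e
  have n0 : eval 0 G = 0 := by
    rw [hG, ev1, hz.1, Complex.ofReal_zero]
  have n1 : ∀ i, eval 0 (pderiv i G) = 0 := by
    intro i
    fin_cases i
    · simp only [Fin.zero_eta]
      rw [hG, d0, ev1]
      simp [hz.2]
    · simp only [Fin.mk_one]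
      rw [hG, d1, ev1]
      simp [hz.2]
  have n00 : eval 0 (pderiv 0 (pderiv 0 G)) = 0 := by
    rw [hG, d0, d0, ev1]
    simp only [Fin.sum_univ_two, map_add, map_mul, eval_C, pderiv_C_mul, hcomm]
    rw [← Complex.ofReal_zero]
    congr 1
    linarith
  have n11 : eval 0 (pderiv 1 (pderiv 1 G)) = 0 := by
    rw [hG, d1, d1, ev1]
    simp only [Fin.sum_univ_two, map_add, map_mul, eval_C, pderiv_C_mul, hcomm]
    rw [← Complex.ofReal_zero]
    congr 1
    linarith
  have n01 : eval 0 (pderiv 0 (pderiv 1 G)) ≠ 0 := by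
    rw [hG, d1, d0, ev1]
    simp only [Fin.sum_univ_two, map_add, map_mul, eval_C, pderiv_C_mul, hcomm]
    rw [Ne, Complex.ofReal_eq_zero]
    intro e
    apply hvw
    linarith
  obtain ⟨E, A', B', hGE, hE⟩ := nform n0 n1 n00 n11 n01
  set ψ : CP →ₐ[ℂ] F := π.comp φ with hψ
  have hψΦ : ∀ g, ψ (Φ g) = π g := by
    intro g
    change π (φ (Φ g)) = π g
    rw [hφ1]
  have hker : ∀ h, ψ h = 0 ↔ G ∣ h := by
    intro h
    have e : ψ h = π (φ h) := rfl
    rw [e, hc.ker]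
    constructor
    · intro hd
      have := map_dvd Φ hd
      rwa [hφ2] at this
    · intro hd
      have := map_dvd φ hd
      rwa [hG, hφ1] at this
  have hfrac : ∀ f : F, ∃ a b : CP, ψ b ≠ 0 ∧ f = ψ a / ψ b := by
    intro f
    obtain ⟨a, b, hb, hf⟩ := hc.frac f
    exact ⟨Φ a, Φ b, by rwa [hψΦ], by rw [hψΦ, hψΦ]; exact hf⟩
  have hreal : ∀ i, s.σ (ψ (X i)) = ψ (X i) := by
    intro i
    obtain ⟨a, b, hab⟩ := hφX i
    change s.σ (π (φ (X i))) = π (φ (X i))
    rw [hab]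
    exact hc.real _
  obtain ⟨P, Q, hPQ, hR, hP, hQ, hPu, hQu, oP, oQ⟩ := nodeN hF hGE hE hker hfrac
  have hcj : ∀ (R : Place ℂ F) (f : F), s.σ f = f → (f ∈ (s.cj R).ring.nonunits ↔
      f ∈ R.ring.nonunits) := by
    intro R f hf
    rw [nonunits_cj, hf]
  have hr01 : s.σ (ψ (X 0) / ψ (X 1)) = ψ (X 0) / ψ (X 1) := by
    rw [map_div₀, hreal, hreal]
  have hr10 : s.σ (ψ (X 1) / ψ (X 0)) = ψ (X 1) / ψ (X 0) := by
    rw [map_div₀, hreal, hreal]
  refine ⟨P, Q, hPQ, hPu _ ((hcj P _ hr01).2 hP.1) ((hcj P _ (hreal 1)).2 hP.2),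
    hQu _ ((hcj Q _ hr10).2 hQ.1) ((hcj Q _ (hreal 0)).2 hQ.2), ?_, ?_⟩
  · intro R
    rw [← hR R]
    have hπX : ∀ i, π (X i) = algebraMap ℂ F (z i) + algebraMap ℂ F (v i) * ψ (X 0) +
        algebraMap ℂ F (w i) * ψ (X 1) := by
      intro i
      rw [← hψΦ (X i), hΦ, ph_X]
      have eC : ∀ c : ℂ, ψ (C c) = algebraMap ℂ F c := fun c => ψ.commutes c
      simp only [map_add, map_mul, eC, cz]
    constructor
    · rintro ⟨hfin, hvl⟩
      have hi : ∀ i, Oge R 1 (π (X i) - algebraMap ℂ F (z i)) := fun i =>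
        (oge_one_iff hF).2 ((vl_eq_iff hF (hfin i) _).1 (hvl i))
      have hall : ∀ i, ψ (X i) ∈ R.ring.nonunits := by
        intro i
        obtain ⟨a, b, hab⟩ := hφX i
        have e : ψ (X i) = algebraMap ℂ F a * (π (X 0) - algebraMap ℂ F (z 0)) +
            algebraMap ℂ F b * (π (X 1) - algebraMap ℂ F (z 1)) := by
          change π (φ (X i)) = _
          rw [hab]
          have eC : ∀ c : ℂ, π (C c) = algebraMap ℂ F c := fun c => π.commutes c
          simp only [map_add, map_mul, map_sub, cx_C, cx_X, eC]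
        rw [← oge_one_iff hF, e]
        have e0 := oge_mul hF (oge_alg hF (P := R) (a : ℂ)) (hi 0)
        have e1 := oge_mul hF (oge_alg hF (P := R) (b : ℂ)) (hi 1)
        rw [zero_add] at e0 e1
        exact oge_add hF e0 e1
      exact ⟨hall 0, hall 1⟩
    · rintro ⟨h0, h1⟩
      have hi : ∀ i, Oge R 1 (π (X i) - algebraMap ℂ F (z i)) := by
        intro i
        have e : π (X i) - algebraMap ℂ F (z i) = algebraMap ℂ F (v i) * ψ (X 0) +
            algebraMap ℂ F (w i) * ψ (X 1) := by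
          rw [hπX]
          ring
        rw [e]
        have e0 := oge_mul hF (oge_alg hF (P := R) (v i : ℂ)) ((oge_one_iff hF).2 h0)
        have e1 := oge_mul hF (oge_alg hF (P := R) (w i : ℂ)) ((oge_one_iff hF).2 h1)
        rw [zero_add] at e0 e1
        exact oge_add hF e0 e1
      have hmem : ∀ i, π (X i) ∈ R.ring := by
        intro i
        have e := add_mem ((oge_zero_iff hF).1 ((hi i).mono (by norm_num)))
          (R.algebraMap_mem (z i : ℂ))
        rwa [sub_add_cancel] at e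
      exact ⟨hmem, fun i => (vl_eq_iff hF (hmem i) _).2 ((oge_one_iff hF).1 (hi i))⟩
  · have e : π (cx (∑ i, C (v i + w i) * pderiv i p)) = ψ (pderiv 0 G + pderiv 1 G) := by
      have e1 : ∑ i, C (v i + w i) * pderiv i p =
          ∑ i, C (v i) * pderiv i p + ∑ i, C (w i) * pderiv i p := by
        rw [← Finset.sum_add_distrib]
        refine Finset.sum_congr rfl fun i _ => ?_
        rw [C_add, add_mul]
      rw [hG, d0, d1, ← map_add Φ, ← map_add cx, hψΦ, e1]
    rw [← e] at oP oQ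
    refine ⟨fun i => v i + w i, ?_, oP, oQ⟩
    intro h
    rw [h, FF.ord_zero] at oP
    exact zero_ne_one oP

end Pool.Agent.Helper10.GN
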