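import Pool.Agent.Helper10.GN.Co2
import Pool.Agent.Helper10.GN.Nod

set_option autoImplicit false

/-!
# Project GN, block MEMO: which functions are polynomials on the curve

Choose `i₀` with `π (pderiv i₀ (cx p)) ≠ 0` (`IsCrv.pderiv_ne_zero`); its order is `≤ N₀` at all finite places
(`FF.finite_support_ord`). By `mem_of_loc` we have to show `Loc π z f` for all points `z` of the curve. Smooth `z`: `loc_smooth`
with a place over `z` (`exists_over`). Nonreal singular `z` (`NR z`): `f = π h + (f - π h)`, `loc_of_cond` for `f - π h` with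
`c` the unit vector `i₀`. Real singular `z` (`z = cz z'`, `Sg p z'`): `node_places` gives `P ≠ Q` and `c`; let
`v = vl P f = vl Q f`; `f - v` vanishes at `P` and `Q` (`vl_eq_zero`), apply `loc_of_cond` to `f - v` (the
combination `∑ C (c i) * pderiv i (cx p)` is `cx (∑ ...)`, `pderiv_cx`), and `loc_pi` for the constant.
-/

namespace Pool.Agent.Helper10.GN

open VC FF MvPolynomial Pool.Agent.Helper68.QM

variable {F : Type} [Field F] [Algebra ℂ F] {s : RStr F} (hF : IsFunctionField ℂ F)
variable {p : A} {π : CP →ₐ[ℂ] F}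

include hF in
private theorem exists_bound97 {g : F} (hg : g ≠ 0) :
    ∃ N₀ : ℕ, ∀ P : Place ℂ F, ord P.ring g ≤ (N₀ : ℤ) := by
  classical
  have hfin := FF.finite_support_ord hF hg
  refine ⟨∑ P ∈ hfin.toFinset, (ord P.ring g).natAbs, fun P => ?_⟩
  by_cases h : ord P.ring g = 0
  · rw [h]
    exact Int.natCast_nonneg _
  · have hP : P ∈ hfin.toFinset := hfin.mem_toFinset.2 h
    have h1 : (ord P.ring g).natAbs ≤ ∑ P ∈ hfin.toFinset, (ord P.ring g).natAbs :=
      Finset.single_le_sum (f := fun P : Place ℂ F => (ord P.ring g).natAbs)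
        (fun _ _ => Nat.zero_le _) hP
    omega

private theorem sum_cx97 (c : Fin 2 → ℝ) (p : A) :
    (∑ i, C ((c i : ℝ) : ℂ) * pderiv i (cx p)) = cx (∑ i, C (c i) * pderiv i p) := by
  rw [map_sum]
  refine Finset.sum_congr rfl fun i _ => ?_
  rw [map_mul, cx_C, pderiv_cx]

private theorem sum_single97 (i₀ : Fin 2) (q : CP) :
    (∑ i, C ((Pi.single i₀ 1 : Fin 2 → ℂ) i) * pderiv i q) = pderiv i₀ q := by
  rw [Finset.sum_eq_single i₀]
  · rw [Pi.single_eq_same, C_1, one_mul]
  · intro i _ hi
    rw [Pi.single_eq_of_ne hi, C_0, zero_mul]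
  · intro h
    exact absurd (Finset.mem_univ _) h

theorem mem_O (hc : IsCrv p s π) (hp : Irreducible p)
    (hnode : ∀ z : Fin 2 → ℝ, Sg p z → hess p z < 0) :
    ∃ N₀ : ℕ, ∀ f : F, (∀ P : Place ℂ F, FinP π P → f ∈ P.ring) →
      (∀ z : Fin 2 → ℂ, NR z → SgC p z →
        ∃ h : CP, ∀ P, Over hF π P z → Oge P N₀ (f - π h)) →
      (∀ z : Fin 2 → ℝ, Sg p z → ∀ P Q, Over hF π P (cz z) → Over hF π Q (cz z) →
        vl hF P f = vl hF Q f) →
      ∃ h : CP, f = π h := by
  classical
  obtain ⟨i₀, hi₀⟩ := hc.pderiv_ne_zero hp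
  obtain ⟨N₀, hN₀⟩ := exists_bound97 hF hi₀
  refine ⟨N₀, fun f hf hnr hre => ?_⟩
  refine mem_of_loc hc fun z hz => ?_
  by_cases hsm : ∃ i, eval z (pderiv i (cx p)) ≠ 0
  · obtain ⟨i, hd⟩ := hsm
    obtain ⟨P, hP⟩ := exists_over hF hc hz
    exact loc_smooth hF hc hd hP (hf P hP.1)
  · push Not at hsm
    by_cases hz' : NR z
    · obtain ⟨h, hh⟩ := hnr z hz' ⟨hz, hsm⟩
      have h1 : Loc π z (f - π h) := by
        refine loc_of_cond hF hc hp (Pi.single i₀ 1) ?_ fun P hP => ?_
        · rw [sum_single97]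
          exact hi₀
        · rw [sum_single97]
          exact (hh P hP).mono (hN₀ P)
      have h2 := loc_add h1 (loc_pi z h)
      rwa [sub_add_cancel] at h2
    · have hzc : z = cz fun i => (z i).re := by
        funext i
        unfold NR at hz'
        push Not at hz'
        exact Complex.ext rfl (by simp [cz, hz' i])
      set w : Fin 2 → ℝ := fun i => (z i).re with hw
      have hS : Sg p w := by
        constructor
        · rw [hzc, eval_cx] at hz
          exact_mod_cast hz
        · intro i
          have h1 := hsm i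
          rw [hzc, pderiv_cx, eval_cx] at h1
          exact_mod_cast h1
      obtain ⟨P, Q, -, -, -, hPQ, c, hc0, hcP, hcQ⟩ := node_places hF hc hS (hnode w hS)
      have hPo : Over hF π P (cz w) := (hPQ P).2 (Or.inl rfl)
      have hQo : Over hF π Q (cz w) := (hPQ Q).2 (Or.inr rfl)
      have hv := hre w hS P Q hPo hQo
      have h1 : Loc π (cz w) (f - π (C (vl hF P f))) := by
        refine loc_of_cond hF hc hp (fun i => ((c i : ℝ) : ℂ)) ?_ fun R hR => ?_
        · rw [sum_cx97]
          exact hc0
        · rw [sum_cx97]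
          have key : ∀ R : Place ℂ F, Over hF π R (cz w) → vl hF R f = vl hF P f →
              Oge R 1 (f - π (C (vl hF P f))) := by
            intro R hR hv'
            have hpc : π (C (vl hF P f)) = algebraMap ℂ F (vl hF P f) := IsCrv.pi_C _
            rw [oge_one_iff hF, hpc]
            exact (vl_eq_iff hF (hf R hR.1) _).1 hv'
          rcases (hPQ R).1 hR with h | h
          · rw [h, hcP]
            exact key P hPo rfl
          · rw [h, hcQ]
            exact key Q hQo hv.symm
      have h2 := loc_add h1 (loc_pi (cz w) (C (vl hF P f)))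
      rw [sub_add_cancel, ← hzc] at h2
      exact h2

end Pool.Agent.Helper10.GN
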