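import Pool.Agent.Helper10.GN.Nty
import Pool.Agent.Helper10.GN.MemO

set_option autoImplicit false

/-!
# Project GN, block DAT: the data attached to an N-type curve

`CData`: `S` = nonreal infinite places, `R` = real infinite places, `Zs` = places over the nonreal singular points, `Mk` = marked real places.
`exists_data`: `S`, `R`: `finite_inf`, `nty_place`, `fin_cj`; `Zs`: nonreal singular points are finitely many (`finite_common` for
`h = pderiv i (cx p)`, `IsCrv.pderiv_ne_zero`), `finite_over`.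
The small lemmas: `NR` points have nonreal places (`real_of_over`), `Zs` is closed under conjugation (`over_cj`, `eval_zbar`, `pderiv_cx`),
`S`, `R`, `Zs`, `Mk` are disjoint.
-/

namespace Pool.Agent.Helper10.GN

open VC FF MvPolynomial Pool.Agent.Helper68.QM

variable {F : Type} [Field F] [Algebra ℂ F]

/-- the data attached to an N-type curve -/
structure CData (p : A) (s : RStr F) (hF : IsFunctionField ℂ F) (π : CP →ₐ[ℂ] F)
    (S R Zs Mk : Finset (Place ℂ F)) : Prop where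
  crv : IsCrv p s π
  irr : Irreducible p
  sc : SC p
  node : ∀ z : Fin 2 → ℝ, Sg p z → hess p z < 0
  hS : SData s S
  memS : ∀ P, P ∈ S ↔ ¬ FinP π P ∧ s.cj P ≠ P
  memR : ∀ P, P ∈ R ↔ ¬ FinP π P ∧ s.cj P = P
  memZs : ∀ P, P ∈ Zs ↔ ∃ z, NR z ∧ SgC p z ∧ Over hF π P z
  mark : ∀ P ∈ Mk, s.cj P = P ∧ FinP π P
  sing : ∀ z : Fin 2 → ℝ, Sg p z → ∀ P, Over hF π P (cz z) → P ∈ Mk

variable {s : RStr F} {hF : IsFunctionField ℂ F} {p : A} {π : CP →ₐ[ℂ] F}
  {S R Zs Mk : Finset (Place ℂ F)}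

theorem exists_data (hc : IsCrv p s π) (hp : Irreducible p) (hsc : SC p) (hn : NTy p)
    (hnode : ∀ z : Fin 2 → ℝ, Sg p z → hess p z < 0) (hMk : ∀ P ∈ Mk, s.cj P = P ∧ FinP π P)
    (hsing : ∀ z : Fin 2 → ℝ, Sg p z → ∀ P, Over hF π P (cz z) → P ∈ Mk) :
    ∃ S R Zs, CData p s hF π S R Zs Mk := by
  classical
  have hfin : {P : Place ℂ F | ¬ FinP π P}.Finite := finite_inf hF hc
  have hZ : {P : Place ℂ F | ∃ z, NR z ∧ SgC p z ∧ Over hF π P z}.Finite := by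
    obtain ⟨i, hi⟩ := hc.pderiv_ne_zero hp
    have hT := finite_common hF hc hi
    refine (hT.biUnion fun z _ => finite_over hF hc z).subset ?_
    rintro P ⟨z, _, hz, hP⟩
    exact Set.mem_biUnion (show z ∈ {z : Fin 2 → ℂ | eval z (cx p) = 0 ∧
      eval z (pderiv i (cx p)) = 0} from ⟨hz.1, hz.2 i⟩) hP
  have hS : ∀ P, P ∈ hfin.toFinset.filter (fun P => s.cj P ≠ P) ↔ ¬ FinP π P ∧ s.cj P ≠ P := by
    intro P
    rw [Finset.mem_filter, Set.Finite.mem_toFinset]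
    rfl
  have hR : ∀ P, P ∈ hfin.toFinset.filter (fun P => s.cj P = P) ↔ ¬ FinP π P ∧ s.cj P = P := by
    intro P
    rw [Finset.mem_filter, Set.Finite.mem_toFinset]
    rfl
  have hZs : ∀ P, P ∈ hZ.toFinset ↔ ∃ z, NR z ∧ SgC p z ∧ Over hF π P z := by
    intro P
    rw [Set.Finite.mem_toFinset]
    rfl
  refine ⟨hfin.toFinset.filter (fun P => s.cj P ≠ P), hfin.toFinset.filter (fun P => s.cj P = P),
    hZ.toFinset, hc, hp, hsc, hnode, ⟨?_, ?_, ?_⟩, hS, hR, hZs, hMk, hsing⟩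
  · obtain ⟨P, hP1, hP2⟩ := nty_place hF hc hp hsc hn
    exact ⟨P, (hS P).mpr ⟨hP1, hP2⟩⟩
  · intro P hP
    obtain ⟨h1, h2⟩ := (hS P).mp hP
    refine (hS _).mpr ⟨fun h => h1 ((fin_cj hc P).mp h), fun h => h2 ?_⟩
    rw [cj_cj] at h
    exact h.symm
  · intro P hP
    exact ((hS P).mp hP).2

theorem CData.zs_cj (h : CData p s hF π S R Zs Mk) {P : Place ℂ F} (hP : P ∈ Zs) :
    s.cj P ∈ Zs ∧ s.cj P ≠ P ∧ FinP π P ∧ P ∉ S := by
  obtain ⟨z, hz, hsg, hov⟩ := (h.memZs P).mp hP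
  refine ⟨(h.memZs _).mpr ⟨zbar z, ?_, ⟨?_, fun i => ?_⟩, over_cj hF h.crv hov⟩, ?_, hov.1, ?_⟩
  · obtain ⟨i, hi⟩ := hz
    refine ⟨i, ?_⟩
    change ((starRingEnd ℂ) (z i)).im ≠ 0
    rw [Complex.conj_im]
    exact neg_ne_zero.mpr hi
  · rw [eval_zbar, hsg.1, map_zero]
  · have h1 := hsg.2 i
    rw [pderiv_cx] at h1 ⊢
    rw [eval_zbar, h1, map_zero]
  · intro hreal
    have h1 := real_of_over hF h.crv hreal hov
    obtain ⟨i, hi⟩ := hz
    apply hi
    have h2 := congrFun h1 i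
    rw [h2]
    exact Complex.ofReal_im _
  · intro hPS
    exact ((h.memS P).mp hPS).1 hov.1

theorem CData.disj (h : CData p s hF π S R Zs Mk) :
    Disjoint S R ∧ Disjoint S Zs ∧ Disjoint S Mk ∧ Disjoint R Zs ∧ Disjoint R Mk ∧
      Disjoint Zs Mk := by
  refine ⟨?_, ?_, ?_, ?_, ?_, ?_⟩
  · exact Finset.disjoint_left.mpr fun P h1 h2 => ((h.memS P).mp h1).2 ((h.memR P).mp h2).2
  · exact Finset.disjoint_left.mpr fun P h1 h2 => ((h.memS P).mp h1).1 (h.zs_cj h2).2.2.1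
  · exact Finset.disjoint_left.mpr fun P h1 h2 => ((h.memS P).mp h1).1 (h.mark P h2).2
  · exact Finset.disjoint_left.mpr fun P h1 h2 => ((h.memR P).mp h1).1 (h.zs_cj h2).2.2.1
  · exact Finset.disjoint_left.mpr fun P h1 h2 => ((h.memR P).mp h1).1 (h.mark P h2).2
  · exact Finset.disjoint_left.mpr fun P h1 h2 => (h.zs_cj h1).2.1 (h.mark P h2).1

theorem CData.fin_of (h : CData p s hF π S R Zs Mk) {P : Place ℂ F} (h1 : P ∉ S) (h2 : P ∉ R) :
    FinP π P := by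
  by_contra hcon
  by_cases hreal : s.cj P = P
  · exact h2 ((h.memR P).mpr ⟨hcon, hreal⟩)
  · exact h1 ((h.memS P).mpr ⟨hcon, hreal⟩)

/-- a real infinite place is in `R`, a real place is not in `S` and not in `Zs` -/
theorem CData.real_cases (h : CData p s hF π S R Zs Mk) {P : Place ℂ F} (hP : s.cj P = P) :
    P ∉ S ∧ P ∉ Zs ∧ (P ∈ R ∨ ∃ z : Fin 2 → ℝ, Over hF π P (cz z)) := by
  refine ⟨fun h1 => ((h.memS P).mp h1).2 hP, fun h1 => (h.zs_cj h1).2.1 hP, ?_⟩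
  by_cases hfin : FinP π P
  · right
    obtain ⟨z, hz⟩ := exists_point hF hfin
    refine ⟨fun i => (z i).re, ?_⟩
    rw [← real_of_over hF h.crv hP hz]
    exact hz
  · left
    exact (h.memR P).mpr ⟨hfin, hP⟩

end Pool.Agent.Helper10.GN
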