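import Mathlib
import Pool.Agent.Helper17.FF.Genus
import Pool.Agent.Helper17.FF.Approx

set_option autoImplicit false

/-!
# Project GN (MP_63c74b, `g ≤ 0`): definitions, function field part

`F` is a function field over `ℂ` with a real structure: an involution `σ` extending complex
conjugation. Its places are the points of the smooth projective curve, `s.cj P` is the conjugate
place, `P` is real if `s.cj P = P`, `f` is real if `s.σ f = f`. `L D` is the Riemann-Roch space.
-/

namespace Pool.Agent.Helper10.GN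

open VC FF

/-- a real structure on the field `F ⊇ ℂ` -/
structure RStr (F : Type) [Field F] [Algebra ℂ F] where
  /-- the involution -/
  σ : F ≃+* F
  alg : ∀ c : ℂ, σ (algebraMap ℂ F c) = algebraMap ℂ F ((starRingEnd ℂ) c)
  inv : ∀ f : F, σ (σ f) = f

variable {F : Type} [Field F] [Algebra ℂ F]

/-- the conjugate place: `f ∈ (s.cj P).ring ↔ s.σ f ∈ P.ring` -/
noncomputable def RStr.cj (s : RStr F) (P : Place ℂ F) : Place ℂ F where
  ring := P.ring.comap s.σ.toRingHom
  algebraMap_mem := fun a => by
    rw [ValuationSubring.mem_comap]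
    change s.σ (algebraMap ℂ F a) ∈ P.ring
    rw [s.alg]
    exact P.algebraMap_mem _
  ne_top := fun h => by
    apply P.ne_top
    ext x
    constructor
    · intro _; trivial
    · intro _
      have h1 : s.σ x ∈ P.ring.comap s.σ.toRingHom := by rw [h]; trivial
      rw [ValuationSubring.mem_comap] at h1
      have h2 : s.σ.toRingHom (s.σ x) = x := s.inv x
      rwa [h2] at h1

/-- the value of `f` at the place `P` (junk value `0` at a pole) -/
noncomputable def vl (hF : IsFunctionField ℂ F) (P : Place ℂ F) (f : F) : ℂ :=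
  open Classical in if h : f ∈ P.ring then ev hF P ⟨f, h⟩ else 0

/-- the real part of the value of `f` at `P` -/
noncomputable def rv (hF : IsFunctionField ℂ F) (P : Place ℂ F) (f : F) : ℝ := (vl hF P f).re

/-- the order of `f` at `P` is at least `n` (true for `f = 0`) -/
def Oge (P : Place ℂ F) (n : ℤ) (f : F) : Prop := f = 0 ∨ n ≤ ord P.ring f

/-- `f` is a sum of squares of real functions -/
def Sos (s : RStr F) (f : F) : Prop :=
  ∃ (n : ℕ) (g : Fin n → F), (∀ i, s.σ (g i) = g i) ∧ f = ∑ i, g i ^ 2

/-- `g / h²` is regular with positive value at `P`, for some real function `h ≠ 0`: the real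
function `g` has even order and positive leading coefficient at the real place `P` -/
def PosAt (s : RStr F) (hF : IsFunctionField ℂ F) (P : Place ℂ F) (g : F) : Prop :=
  ∃ h : F, h ≠ 0 ∧ s.σ h = h ∧ g / h ^ 2 ∈ P.ring ∧ 0 < rv hF P (g / h ^ 2)

/-- `f` is regular at all real places -/
def Reg (s : RStr F) (f : F) : Prop := ∀ P : Place ℂ F, s.cj P = P → f ∈ P.ring

/-- a nonempty finite set of nonreal places, closed under conjugation -/
structure SData (s : RStr F) (S : Finset (Place ℂ F)) : Prop where
  ne : S.Nonempty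
  cj_mem : ∀ P ∈ S, s.cj P ∈ S
  cj_ne : ∀ P ∈ S, s.cj P ≠ P

/-- the Riemann-Roch space of `D` -/
noncomputable abbrev L (D : Place ℂ F →₀ ℤ) : Submodule ℂ F := riemannRochSpace ℂ F D

/-- the divisor `m S` -/
noncomputable def dS (S : Finset (Place ℂ F)) (m : ℤ) : Place ℂ F →₀ ℤ :=
  ∑ P ∈ S, Finsupp.single P m

/-- the conjugate divisor -/
noncomputable def cjD (s : RStr F) (D : Place ℂ F →₀ ℤ) : Place ℂ F →₀ ℤ :=
  D.mapDomain s.cj

/-- `f` is a sum of products `v * σ v` with `v ∈ L D` -/
def HS (s : RStr F) (D : Place ℂ F →₀ ℤ) (f : F) : Prop :=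
  ∃ (n : ℕ) (v : Fin n → F), (∀ i, v i ∈ L D) ∧ f = ∑ i, v i * s.σ (v i)

/-- the real functions which are regular outside `S` -/
def BSub (s : RStr F) (S : Finset (Place ℂ F)) : Subalgebra ℝ F where
  carrier := {b | s.σ b = b ∧ ∀ P : Place ℂ F, P ∉ S → b ∈ P.ring}
  mul_mem' := fun ha hb => ⟨by rw [map_mul, ha.1, hb.1],
    fun P hP => P.ring.mul_mem _ _ (ha.2 P hP) (hb.2 P hP)⟩
  add_mem' := fun ha hb => ⟨by rw [map_add, ha.1, hb.1],
    fun P hP => P.ring.add_mem _ _ (ha.2 P hP) (hb.2 P hP)⟩
  algebraMap_mem' := fun r => by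
    have e : algebraMap ℝ F r = algebraMap ℂ F (r : ℂ) := rfl
    refine ⟨?_, fun P _ => ?_⟩
    · rw [e, s.alg, Complex.conj_ofReal]
    · rw [e]
      exact P.algebraMap_mem _

end Pool.Agent.Helper10.GN
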