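import Pool.Agent.Helper10.GN.Nu

set_option autoImplicit false

/-!
# Project GN, block DG2: bounded representations in `I₀ (f, q)`

If `h ∈ I₀ (f, q)` has degree `≤ l` then `h = f e₁ + q e₂` with `e₁, e₂ ∈ I₀` and `e₁` of bounded degree (uniformly in `f` of degree `≤ d`,
divisible by no `p_i`; `q = ∏ p_i^(m_i)`).

Proof. (1) Coordinates: there is an algebra automorphism `φ` of `A`, `X 0 ↦ X 0 + l X 1`, `X 1 ↦ X 1`... , `l` real, preserving total degrees, such that
the coefficient of `X 1 ^ n`, `n = totalDegree`, in `φ q` is not zero (the value of the top form of `q` at `(l, 1)`) and `X 0` is not algebraic modulo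
any `φ p_i` (equivalently `X 0 - l X 1` not algebraic modulo `p_i`: `exists_lin`). The statement for `φ q`, `φ I₀` implies the statement for `q`, `I₀` (`φ p_i` is
irreducible and changes sign, `Ideal.map φ I₀` has finite colength). (2) So let `q` be a constant times a monic polynomial of degree `n` in `X 1` over
`ℝ[X 0]` with `n = totalDegree q`. Division: every `a : A` is `a = q b + a'` with `deg_{X 1} a' < n` and `totalDegree a' ≤ totalDegree a`, `a'` is
unique; call `a'` the reduced form. If `n = 0` then `q` is a unit: take `e₁ = 0`, `e₂ = h/q` (is `e₂ ∈ I₀`? yes: `h ∈ I₀`). (3) `h = f e + q e'`,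
`e, e' ∈ I₀` (elements of `I₀ * span {f, q}`). Write `e = q y + e₁'` with `e₁'` reduced; `y = y' + i` with `y'` of bounded degree, `i ∈ I₀`
(`fc_reduce`). Put `e₁ = e₁' + q y' = e - q i ∈ I₀` and `e₂ = e' + f i ∈ I₀`: `h = f e₁ + q e₂`. It remains to bound the degree of
`e₁'`. `f e₁' ≡ h` modulo `q`; with `exists_nu` for `u = X 0`: `f α ≡ ν(X 0)`, so
`ν(X 0) e₁' ≡ α h` modulo `q`; the left side is reduced, so it is the reduced form of `α h` and has total degree `≤ D + l`; so
`totalDegree e₁' ≤ D + l` (`totalDegree_mul` for nonzero polynomials).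
-/

namespace Pool.Agent.Helper10.GN

open VC FF MvPolynomial Pool.Agent.Helper68.QM

variable {ι : Type} [Fintype ι]

private theorem hsum36 {c : A} {n : ℕ} (hn : c.totalDegree ≤ n) :
    ∑ i ∈ Finset.range (n + 1), homogeneousComponent i c = c := by
  conv_rhs => rw [← sum_homogeneousComponent c]
  symm
  refine Finset.sum_subset (Finset.range_mono (by omega)) ?_
  intro i _ hi
  rw [Finset.mem_range] at hi
  exact homogeneousComponent_eq_zero _ _ (by omega)

/-- the component of degree `k + m` of a product -/
private theorem hc_mul36 {a b : A} {k m : ℕ} (ha : a.totalDegree ≤ k) (hb : b.totalDegree ≤ m) :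
    homogeneousComponent (k + m) (a * b) =
      homogeneousComponent k a * homogeneousComponent m b := by
  have h1 : ∀ i j, homogeneousComponent (k + m)
      (homogeneousComponent i a * homogeneousComponent j b) =
      if k + m = i + j then homogeneousComponent i a * homogeneousComponent j b else 0 :=
    fun i j => homogeneousComponent_of_mem (by
      rw [mem_homogeneousSubmodule]
      exact (homogeneousComponent_isHomogeneous i a).mul (homogeneousComponent_isHomogeneous j b))
  have h2 : a * b = ∑ i ∈ Finset.range (k + 1), ∑ j ∈ Finset.range (m + 1),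
      homogeneousComponent i a * homogeneousComponent j b := by
    rw [← Finset.sum_mul_sum, hsum36 ha, hsum36 hb]
  rw [h2, map_sum, Finset.sum_eq_single k]
  · rw [map_sum, Finset.sum_eq_single m]
    · rw [h1, if_pos rfl]
    · intro j hj hjm
      rw [h1, if_neg]
      omega
    · intro h
      exact absurd (Finset.mem_range.2 (Nat.lt_succ_self m)) h
  · intro i hi hik
    rw [map_sum]
    refine Finset.sum_eq_zero fun j hj => ?_
    rw [h1, if_neg]
    rw [Finset.mem_range] at hi hj
    omega
  · intro h
    exact absurd (Finset.mem_range.2 (Nat.lt_succ_self k)) h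

private theorem deg_lt36 {a : A} {m : ℕ} (ha : a.totalDegree ≤ m) (hm : 0 < m)
    (h : homogeneousComponent m a = 0) : a.totalDegree < m := by
  have h1 := hsum36 ha
  rw [Finset.sum_range_succ, h, add_zero] at h1
  have h2 : a.totalDegree = (∑ i ∈ Finset.range m, homogeneousComponent i a).totalDegree := by
    rw [h1]
  rw [h2]
  refine lt_of_le_of_lt (totalDegree_finsetSum _ _) ?_
  rw [Finset.sup_lt_iff hm]
  intro i hi
  exact lt_of_le_of_lt (homogeneousComponent_isHomogeneous i a).totalDegree_le
    (Finset.mem_range.1 hi)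

private theorem hc_ne36 {a : A} (ha : a ≠ 0) : homogeneousComponent a.totalDegree a ≠ 0 := by
  intro h
  rcases Nat.eq_zero_or_pos a.totalDegree with h0 | h0
  · have h1 := hsum36 (le_refl a.totalDegree)
    rw [Finset.sum_range_succ, h, h0, Finset.sum_range_zero, add_zero] at h1
    exact ha h1.symm
  · exact absurd (deg_lt36 le_rfl h0 h) (lt_irrefl _)

private theorem min_deg36 {q w a b c : A} {k : ℕ} (hq : q ≠ 0) (hwk : w.totalDegree ≤ k)
    (hW : homogeneousComponent k w ≠ 0)
    (hrel : ∀ x : A, homogeneousComponent q.totalDegree q ∣ homogeneousComponent k w * x →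
      homogeneousComponent q.totalDegree q ∣ x)
    (h : w * a = b + q * c) (hmin : ∀ t : A, a.totalDegree ≤ (a - q * t).totalDegree) :
    a.totalDegree ≤ b.totalDegree := by
  by_contra hcon
  push Not at hcon
  have ha : a ≠ 0 := by
    rintro rfl
    simp at hcon
  have hm : 0 < a.totalDegree := by omega
  have hA := hc_ne36 ha
  have hQ := hc_ne36 hq
  have h1 : homogeneousComponent (k + a.totalDegree) (w * a) =
      homogeneousComponent k w * homogeneousComponent a.totalDegree a := hc_mul36 hwk le_rfl
  have h2 : homogeneousComponent (k + a.totalDegree) b = 0 :=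
    homogeneousComponent_eq_zero _ _ (by omega)
  have h3 : homogeneousComponent (k + a.totalDegree) (q * c) =
      homogeneousComponent k w * homogeneousComponent a.totalDegree a := by
    rw [← h1, h, map_add, h2, zero_add]
  have h4 : homogeneousComponent (k + a.totalDegree) (q * c) ≠ 0 := by
    rw [h3]
    exact mul_ne_zero hW hA
  have hqc : q * c ≠ 0 := by
    intro h0
    rw [h0, map_zero] at h4
    exact h4 rfl
  have hc : c ≠ 0 := right_ne_zero_of_mul hqc
  have h5 : k + a.totalDegree ≤ (q * c).totalDegree := by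
    by_contra h5
    exact h4 (homogeneousComponent_eq_zero _ _ (by omega))
  have h6 : (q * c).totalDegree ≤ k + a.totalDegree := by
    have e : q * c = w * a - b := by
      rw [h]
      ring
    rw [e]
    refine (totalDegree_sub _ _).trans (max_le ?_ (by omega))
    exact (totalDegree_mul _ _).trans (by omega)
  have h7 : (q * c).totalDegree = q.totalDegree + c.totalDegree :=
    totalDegree_mul_of_isDomain hq hc
  have h8 : k + a.totalDegree = q.totalDegree + c.totalDegree := by omega
  have h9 : homogeneousComponent q.totalDegree q ∣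
      homogeneousComponent k w * homogeneousComponent a.totalDegree a := by
    rw [← h3, h8, hc_mul36 le_rfl le_rfl]
    exact dvd_mul_right _ _
  obtain ⟨t, ht⟩ := hrel _ h9
  have ht0 : t ≠ 0 := by
    rintro rfl
    rw [mul_zero] at ht
    exact hA ht
  have d1 : (homogeneousComponent a.totalDegree a).totalDegree = a.totalDegree :=
    (homogeneousComponent_isHomogeneous _ _).totalDegree hA
  have d2 : (homogeneousComponent q.totalDegree q).totalDegree = q.totalDegree :=
    (homogeneousComponent_isHomogeneous _ _).totalDegree hQ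
  have d3 : a.totalDegree = q.totalDegree + t.totalDegree := by
    rw [← d1, ht, totalDegree_mul_of_isDomain hQ ht0, d2]
  have e1 : homogeneousComponent a.totalDegree (q * t) =
      homogeneousComponent q.totalDegree q * homogeneousComponent t.totalDegree t := by
    rw [d3]
    exact hc_mul36 le_rfl le_rfl
  have e2 : homogeneousComponent a.totalDegree a =
      homogeneousComponent q.totalDegree q * homogeneousComponent t.totalDegree t := by
    have e3 : homogeneousComponent a.totalDegree (homogeneousComponent a.totalDegree a) =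
        homogeneousComponent a.totalDegree a :=
      homogeneousComponent_eq_self (homogeneousComponent_isHomogeneous _ _)
    have e4 : homogeneousComponent q.totalDegree (homogeneousComponent q.totalDegree q) =
        homogeneousComponent q.totalDegree q :=
      homogeneousComponent_eq_self (homogeneousComponent_isHomogeneous _ _)
    have e5 : homogeneousComponent (q.totalDegree + t.totalDegree)
        (homogeneousComponent q.totalDegree q * t) =
        homogeneousComponent q.totalDegree q * homogeneousComponent t.totalDegree t := by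
      rw [hc_mul36 d2.le le_rfl, e4]
    rw [← ht, ← d3, e3] at e5
    exact e5
  have hdeg : (a - q * t).totalDegree ≤ a.totalDegree := by
    refine (totalDegree_sub _ _).trans (max_le le_rfl ?_)
    exact (totalDegree_mul _ _).trans d3.ge
  have hlt : (a - q * t).totalDegree < a.totalDegree := by
    refine deg_lt36 hdeg hm ?_
    rw [map_sub, e1, e2, sub_self]
  exact absurd (hmin t) (by omega)

private theorem eval_smul36 {n : ℕ} {F : A} (hF : F.IsHomogeneous n) (l : ℝ) (a : Fin 2 → ℝ) :
    eval (fun i => l * a i) F = l ^ n * eval a F := by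
  rw [eval_eq', eval_eq', Finset.mul_sum]
  refine Finset.sum_congr rfl fun d hd => ?_
  have h1 : ∑ i, d i = n := by
    have := hF (mem_support_iff.mp hd)
    rw [Finsupp.weight_apply, Finsupp.sum_fintype _ _ (fun i => by simp)] at this
    simpa using this
  simp only [mul_pow, Finset.prod_mul_distrib]
  rw [Finset.prod_pow_eq_pow_sum, h1]
  ring

/-- only finitely many lines in the pencil divide a nonzero form -/
private theorem fin_lines36 {Q : A} {n : ℕ} (hQ : Q.IsHomogeneous n) (h0 : Q ≠ 0) :
    {l : ℝ | (X 0 + C l * X 1 : A) ∣ Q}.Finite := by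
  let P : Polynomial ℝ := aeval (![-Polynomial.X, 1] : Fin 2 → Polynomial ℝ) Q
  have hev : ∀ (F : A) (l : ℝ), Polynomial.eval l
      (aeval (![-Polynomial.X, 1] : Fin 2 → Polynomial ℝ) F) = eval ![-l, 1] F := by
    intro F l
    induction F using MvPolynomial.induction_on with
    | C a => simp
    | add p q hp hq => rw [map_add, Polynomial.eval_add, hp, hq, map_add]
    | mul_X p i hp =>
      rw [map_mul, Polynomial.eval_mul, hp, map_mul, aeval_X, eval_X]
      fin_cases i <;> simp
  have hP : P ≠ 0 := by
    intro hP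
    have h1 : Q * X 1 = 0 := by
      refine MvPolynomial.funext fun x => ?_
      rw [map_mul, map_zero, eval_X]
      rcases eq_or_ne (x 1) 0 with hx | hx
      · rw [hx, mul_zero]
      · have h2 : x = fun i => x 1 * (![-(-(x 0 / x 1)), 1] : Fin 2 → ℝ) i := by
          funext i
          fin_cases i
          · show x 0 = x 1 * (-(-(x 0 / x 1)))
            rw [neg_neg]
            field_simp
          · show x 1 = x 1 * 1
            rw [mul_one]
        rw [h2, eval_smul36 hQ, ← hev Q (-(x 0 / x 1))]
        have h3 : Polynomial.eval (-(x 0 / x 1))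
            (aeval (![-Polynomial.X, 1] : Fin 2 → Polynomial ℝ) Q) = 0 := by
          show Polynomial.eval _ P = 0
          rw [hP, Polynomial.eval_zero]
        rw [h3, mul_zero, zero_mul]
    rcases mul_eq_zero.1 h1 with h2 | h2
    · exact h0 h2
    · exact X_ne_zero 1 h2
  refine (P.roots.toFinset.finite_toSet).subset ?_
  rintro l ⟨F, hF⟩
  rw [Finset.mem_coe, Multiset.mem_toFinset, Polynomial.mem_roots hP]
  show Polynomial.eval l P = 0
  have h1 : Polynomial.eval l P = eval ![-l, 1] Q := hev Q l
  rw [h1, hF, map_mul]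
  have h2 : eval ![-l, 1] (X 0 + C l * X 1 : A) = 0 := by
    simp
  rw [h2, zero_mul]

private theorem line_hom36 (l : ℝ) : (X 0 + C l * X 1 : A).IsHomogeneous 1 :=
  (isHomogeneous_X ℝ 0).add (isHomogeneous_C_mul_X l 1)

private theorem coeff_line36 (l : ℝ) :
    coeff (Finsupp.single 0 1) (X 0 + C l * X 1 : A) = 1 := by
  rw [coeff_add, coeff_C_mul, coeff_X, coeff_X, if_pos rfl]
  have : ¬ (Finsupp.single (1 : Fin 2) 1 : Fin 2 →₀ ℕ) = Finsupp.single 0 1 := by
    intro h
    have := DFunLike.congr_fun h 0
    simp at this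
  rw [if_neg this, mul_zero, add_zero]

private theorem line_ne36 (l : ℝ) : (X 0 + C l * X 1 : A) ≠ 0 := by
  intro h
  have := coeff_line36 l
  rw [h, coeff_zero] at this
  exact zero_ne_one this

private theorem line_irr36 (l : ℝ) : Irreducible (X 0 + C l * X 1 : A) := by
  refine irreducible_of_totalDegree_eq_one ((line_hom36 l).totalDegree (line_ne36 l)) ?_
  intro x hx
  have := hx (Finsupp.single 0 1)
  rw [coeff_line36] at this
  exact isUnit_of_dvd_one this

private theorem hc_aeval36 {u : A} (hu : u.IsHomogeneous 1) (ν : Polynomial ℝ) :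
    (Polynomial.aeval u ν).totalDegree ≤ ν.natDegree ∧
      homogeneousComponent ν.natDegree (Polynomial.aeval u ν) =
        C ν.leadingCoeff * u ^ ν.natDegree := by
  have hpow : ∀ i, (u ^ i).IsHomogeneous i := fun i => by
    have := hu.pow i
    rwa [one_mul] at this
  rw [Polynomial.aeval_eq_sum_range]
  constructor
  · refine (totalDegree_finsetSum _ _).trans (Finset.sup_le fun i hi => ?_)
    refine (totalDegree_smul_le _ _).trans ((hpow i).totalDegree_le.trans ?_)
    exact Nat.lt_succ_iff.1 (Finset.mem_range.1 hi)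
  · rw [map_sum, Finset.sum_eq_single ν.natDegree]
    · rw [map_smul, homogeneousComponent_eq_self (hpow _), smul_eq_C_mul]
      rfl
    · intro i _ hi
      rw [map_smul, homogeneousComponent_of_mem (n := i) (by
        rw [mem_homogeneousSubmodule]
        exact hpow i), if_neg (Ne.symm hi), smul_zero]
    · intro h
      exact absurd (Finset.mem_range.2 (Nat.lt_succ_self _)) h

theorem deg_two {p : ι → A} (hirr : ∀ i, Irreducible (p i)) (hsc : ∀ i, SC (p i))
    (m : ι → ℕ) {I₀ : Ideal A} (hI : FC I₀) (d l : ℕ) :
    ∃ L : ℕ, ∀ f : A, f.totalDegree ≤ d → (∀ i, ¬ p i ∣ f) → ∀ h : A, h.totalDegree ≤ l →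
      h ∈ I₀ * Ideal.span {f, ∏ i, p i ^ m i} →
      ∃ e₁ ∈ I₀, ∃ e₂ ∈ I₀, e₁.totalDegree ≤ L ∧ h = f * e₁ + (∏ i, p i ^ m i) * e₂ := by
  classical
  have hq : (∏ i, p i ^ m i) ≠ 0 :=
    Finset.prod_ne_zero_iff.2 fun i _ => pow_ne_zero _ (hirr i).ne_zero
  generalize hqd : (∏ i, p i ^ m i) = q at hq ⊢
  have hQ := hc_ne36 hq
  -- the line
  obtain ⟨l', hl'⟩ : ∃ l' : ℝ, l' ∉ {l : ℝ | ¬ ∀ i, ∀ ν : Polynomial ℝ, ν ≠ 0 →
      ¬ p i ∣ Polynomial.aeval (X 0 + C l * X 1 : A) ν} ∪
      {l : ℝ | (X 0 + C l * X 1 : A) ∣ homogeneousComponent q.totalDegree q} :=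
    ((exists_lin hirr hsc).union
      (fin_lines36 (homogeneousComponent_isHomogeneous _ _) hQ)).exists_notMem
  rw [Set.mem_union, not_or] at hl'
  obtain ⟨hl1, hl2⟩ := hl'
  have hl1' : ∀ i, ∀ ν : Polynomial ℝ, ν ≠ 0 →
      ¬ p i ∣ Polynomial.aeval (X 0 + C l' * X 1 : A) ν := by
    by_contra hcon
    exact hl1 hcon
  have hl2' : ¬ (X 0 + C l' * X 1 : A) ∣ homogeneousComponent q.totalDegree q := hl2
  obtain ⟨D, hD⟩ := exists_nu hirr hsc m _ hl1' d
  rw [hqd] at hD
  obtain ⟨l₀, hl₀⟩ := fc_reduce hI
  refine ⟨max (D + l) (q.totalDegree + l₀), fun f hf hpf h hh hmem => ?_⟩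
  -- the representation
  obtain ⟨e, he, e', he', hrep⟩ : ∃ e ∈ I₀, ∃ e' ∈ I₀, h = f * e + q * e' := by
    rw [Ideal.span_insert, Ideal.mul_sup, Submodule.mem_sup] at hmem
    obtain ⟨x, hx, y, hy, hxy⟩ := hmem
    rw [Ideal.mem_mul_span_singleton] at hx hy
    obtain ⟨e, he, rfl⟩ := hx
    obtain ⟨e', he', rfl⟩ := hy
    exact ⟨e, he, e', he', by rw [← hxy]; ring⟩
  obtain ⟨ν, α, β, hν, hνD, hα, hβ, hE⟩ := hD f hf hpf
  -- the minimal representative
  obtain ⟨y, hy⟩ : ∃ y : A, ∀ t : A, (e - q * y).totalDegree ≤ (e - q * t).totalDegree := by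
    obtain ⟨y, -, hy⟩ := WellFounded.has_min
      (measure (fun y : A => (e - q * y).totalDegree)).wf Set.univ ⟨0, trivial⟩
    refine ⟨y, fun t => ?_⟩
    have := hy t trivial
    exact not_lt.1 this
  obtain ⟨hw1, hw2⟩ := hc_aeval36 (line_hom36 l') ν
  have hbound : (e - q * y).totalDegree ≤ (α * h).totalDegree := by
    refine min_deg36 (w := Polynomial.aeval (X 0 + C l' * X 1 : A) ν) (k := ν.natDegree)
      (c := β * e - α * e' - Polynomial.aeval (X 0 + C l' * X 1 : A) ν * y) hq hw1 ?_ ?_ ?_ ?_
    · rw [hw2]
      refine mul_ne_zero ?_ (pow_ne_zero _ (line_ne36 l'))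
      rw [Ne, C_eq_zero]
      exact Polynomial.leadingCoeff_ne_zero.2 hν
    · intro x hx
      rw [hw2] at hx
      have h1 : homogeneousComponent q.totalDegree q ∣
          (X 0 + C l' * X 1 : A) ^ ν.natDegree * x := by
        have h2 := hx.mul_left (C (ν.leadingCoeff)⁻¹)
        have h3 : (C (ν.leadingCoeff)⁻¹ : A) * (C ν.leadingCoeff *
            (X 0 + C l' * X 1) ^ ν.natDegree * x) = (X 0 + C l' * X 1 : A) ^ ν.natDegree * x := by
          have h4 : (C (ν.leadingCoeff)⁻¹ : A) * C ν.leadingCoeff = 1 := by
            rw [← C_mul, inv_mul_cancel₀ (Polynomial.leadingCoeff_ne_zero.2 hν), C_1]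
          linear_combination (X 0 + C l' * X 1 : A) ^ ν.natDegree * x * h4
        rwa [h3] at h2
      have hrp : IsRelPrime (homogeneousComponent q.totalDegree q) (X 0 + C l' * X 1 : A) :=
        ((line_irr36 l').isRelPrime_iff_not_dvd.2 hl2').symm
      have h5 : ∀ j : ℕ, homogeneousComponent q.totalDegree q ∣
          (X 0 + C l' * X 1 : A) ^ j * x → homogeneousComponent q.totalDegree q ∣ x := by
        intro j
        induction j with
        | zero =>
          intro hj
          rwa [pow_zero, one_mul] at hj
        | succ j ih =>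
          intro hj
          rw [pow_succ', mul_assoc] at hj
          exact ih (hrp.dvd_of_dvd_mul_left hj)
      exact h5 _ h1
    · rw [← hE, hrep]
      ring
    · intro t
      have := hy (y + t)
      rwa [mul_add, ← sub_sub] at this
  obtain ⟨y', hy'd, hy'⟩ := hl₀ y
  refine ⟨e - q * (y - y'), I₀.sub_mem he (I₀.mul_mem_left _ hy'), e' + f * (y - y'),
    I₀.add_mem he' (I₀.mul_mem_left _ hy'), ?_, ?_⟩
  · have e1 : e - q * (y - y') = (e - q * y) + q * y' := by ring
    rw [e1]
    refine (totalDegree_add _ _).trans (max_le_max ?_ ?_)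
    · refine hbound.trans ((totalDegree_mul _ _).trans ?_)
      omega
    · refine (totalDegree_mul _ _).trans ?_
      omega
  · rw [hrep]
    ring

end Pool.Agent.Helper10.GN
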