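import Pool.Agent.Helper10.GN.Glu

set_option autoImplicit false

/-!
# Project GN, block LFT: lifting a unimodular sum of squares

`p ∣ 1 - ∑ β_j ψ_j`, `τ ∈ K`, `p ∣ 1 - τ`, `Ψ ∈ K`, `p ∣ Ψ - ∑ ψ_j²`. Claim: for every `m` there is `ψ'` with
`Ψ - ∑ ψ'_j² ∈ (p^m) K`.

Proof. (0) `(p) ∩ K ⊆ (p) K`: let `x = p y ∈ K`, `1 - τ = p t`; `x = τ x + (1 - τ) x = p (τ y + t x)` and `τ y + t x ∈ K`. (1) `ψ' = τ ψ`:
`Ψ - τ² ∑ ψ_j²` is in `K` and divisible by `p`, so in `(p) K`; `ψ' ≡ ψ` modulo `p`. (Case `m = 0`: weaker than `m = 1`.)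
(2) Step: `Ψ - ∑ ψ'_j² = p^k c`, `c ∈ K`, `k ≥ 1`, `ψ' ≡ ψ` mod `p`, so `∑ ψ'_j β_j = 1 + p w`. Let `ψ'' = ψ' + p^k (c/2) β`:
`Ψ - ∑ ψ''_j² = p^k c - p^k c (1 + p w) - p^(2k) (c²/4) ∑ β_j² ∈ (p^(k+1)) K`.
-/

namespace Pool.Agent.Helper10.GN

open VC FF MvPolynomial Pool.Agent.Helper68.QM

theorem lift_sq {p : A} {K : Ideal A} {n : ℕ} (ψ β : Fin n → A) (hβ : p ∣ 1 - ∑ j, β j * ψ j)
    {τ : A} (hτ : τ ∈ K) (hτp : p ∣ 1 - τ) {Ψ : A} (hΨ : Ψ ∈ K) (h : p ∣ Ψ - ∑ j, ψ j ^ 2)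
    (m : ℕ) : ∃ ψ' : Fin n → A, Ψ - ∑ j, ψ' j ^ 2 ∈ Ideal.span {p ^ m} * K := by
  have key : ∀ k : ℕ, ∃ (ψ' : Fin n → A) (c : A), c ∈ K ∧ Ψ - ∑ j, ψ' j ^ 2 = p ^ (k + 1) * c ∧
      ∀ j, p ∣ ψ' j - ψ j := by
    intro k
    induction k with
    | zero =>
      obtain ⟨t, ht⟩ := hτp
      obtain ⟨y, hy⟩ := h
      have e1 : ∑ j, (τ * ψ j) ^ 2 = τ ^ 2 * ∑ j, ψ j ^ 2 := by
        rw [Finset.mul_sum]
        exact Finset.sum_congr rfl fun j _ => by ring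
      set S := ∑ j, ψ j ^ 2 with hS
      have hx : Ψ - τ ^ 2 * S = p * (y + t * (1 + τ) * S) := by
        linear_combination hy + (1 + τ) * S * ht
      have hxK : Ψ - τ ^ 2 * S ∈ K := by
        refine K.sub_mem hΨ ?_
        rw [pow_two, mul_assoc]
        exact K.mul_mem_right _ hτ
      refine ⟨fun j => τ * ψ j, τ * (y + t * (1 + τ) * S) + t * (Ψ - τ ^ 2 * S),
        K.add_mem (K.mul_mem_right _ hτ) (K.mul_mem_left _ hxK), ?_, ?_⟩
      · rw [e1]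
        linear_combination τ * hx + (Ψ - τ ^ 2 * S) * ht
      · intro j
        exact ⟨-(t * ψ j), by linear_combination -(ψ j) * ht⟩
    | succ k ih =>
      obtain ⟨ψ', c, hc, h1, h2⟩ := ih
      choose d hd using h2
      obtain ⟨w, hw⟩ := hβ
      have e1 : ∑ j, ψ' j * β j = 1 + p * (∑ j, d j * β j - w) := by
        have : ∑ j, ψ' j * β j = ∑ j, β j * ψ j + p * ∑ j, d j * β j := by
          rw [Finset.mul_sum, ← Finset.sum_add_distrib]
          exact Finset.sum_congr rfl fun j _ => by linear_combination β j * hd j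
        rw [this]
        linear_combination -hw
      set w' := ∑ j, d j * β j - w with hw'
      have h2C : (2 : A) * MvPolynomial.C (1 / 2 : ℝ) = 1 := by
        have : (2 : A) = MvPolynomial.C (2 : ℝ) := (map_ofNat MvPolynomial.C 2).symm
        rw [this, ← map_mul]
        norm_num
      set H : A := MvPolynomial.C (1 / 2 : ℝ) with hH
      refine ⟨fun j => ψ' j + p ^ (k + 1) * (c * H) * β j, c * (-w' - p ^ k * c * H ^ 2 * ∑ j, β j ^ 2),
        K.mul_mem_right _ hc, ?_, ?_⟩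
      · have e2 : ∑ j, (ψ' j + p ^ (k + 1) * (c * H) * β j) ^ 2 =
            ∑ j, ψ' j ^ 2 + 2 * (p ^ (k + 1) * (c * H)) * ∑ j, ψ' j * β j +
              (p ^ (k + 1) * (c * H)) ^ 2 * ∑ j, β j ^ 2 := by
          rw [Finset.mul_sum, Finset.mul_sum, ← Finset.sum_add_distrib, ← Finset.sum_add_distrib]
          exact Finset.sum_congr rfl fun j _ => by ring
        rw [e2, e1]
        linear_combination h1 - p ^ (k + 1) * c * (1 + p * w') * h2C
      · intro j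
        refine ⟨d j + p ^ k * (c * H) * β j, ?_⟩
        linear_combination hd j
  obtain ⟨ψ', c, hc, h1, -⟩ := key m
  refine ⟨ψ', ?_⟩
  rw [h1, pow_succ, mul_assoc]
  exact Ideal.mul_mem_mul (Ideal.mem_span_singleton_self _) (K.mul_mem_left _ hc)

end Pool.Agent.Helper10.GN
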