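import Pool.Agent.Helper10.GN.Spa
import Pool.Agent.Helper10.GN.Lft

set_option autoImplicit false

/-!
# Project GN, block ELM: the E-lemma

`P₁` not divisible by `p`, `f₀ = P₁ H` vanishes at the real infinite places and is `≥ 0` at the real zeros of `p`. `K` an ideal with `τ ∈ K`, `p ∣ 1 - τ`. For
all `m, m'` there is `f ≡ f₀` modulo `p P₁` such that `f + ε ∈ Σ + (P₁^(2m) p^m') K` for all `ε > 0`.

Proof. `f = P₁ τ H`. On the curve `τ = 1`. Let `ϖ = P₁^(2m)` (w.l.o.g. `m ≥ 1`).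
(1) `exists_theta` with `M` such that `2 M ≥ 1 +` the pole order of `ϖ` at every real infinite place: `θ_i`, `β_i`; `e₀ = ∑ θ_i²`. `π e₀` is positive at all real finite
places, `e₀(z) > 0` at all real zeros `z` of `p` (not all `θ_i(z) = 0`). `e₀ ϖ` is regular at all real places (value `0` at the infinite ones), bounded (`bdd`), also at the
finitely many real singular points; choose `η > 0` with `η e₀ ϖ ≤ 1/2` at all real places and at the real singular points. `e = η τ² e₀ ∈ K`, `y = e ϖ ∈ K`.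
(2) Let `T_N` be a truncated binomial series of `√(1+x)`: `1 + x - T_N(x)² = x^(N+1) c_N(x)`, a polynomial identity. Fix `ε > 0`. With `x = f/ε` and `N + 1 ≥ 2m`:
`f + ε - ε T_N(f/ε)² = ε^(-N) f^(N+1) c_N(f/ε) = ϖ R`, `R ∈ A` divisible by `τ^(N+1)`, so `R ∈ K`; at a real infinite place `ω`
`ord R ≥ (N + 1) - 2m ord_ω(P₁)` (`ord f ≥ 1`), `≥ ord_ω e₀` if `N` is large. So `R/e₀` is regular at all real places.
(3) For `n : ℕ` let `g₁ = √ε T_N(f/ε) (1 - y)^n`. `Ψ := (f + ε) e q(y) + R (1 - y)^(2n)`, `q(y) = ∑_{k<2n} (1 - y)^k`, satisfies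
`f + ε = g₁² + ϖ Ψ`: `ϖ e q(y) = y q(y) = 1 - (1 - y)^(2n)`. `Ψ ∈ K`.
(4) Positivity on the curve (where `e = η e₀`, `0 ≤ y ≤ 1/2`): `Ψ/e = (f + ε) q(y) + (R/e) (1 - y)^(2n) ≥ (2 n ε - C) (1 - y)^(2n) ≥ 4^(-n)` if `2 n ε ≥ C + 1`,
`C` a bound of `|R/e|` at the real places and at the real singular points (`f ≥ 0` at all real zeros, `q(y) ≥ 2n (1 - y)^(2n)`). Let `c' = η 4^(-n)/2`,
`Ψ' = Ψ - c' ∑ θ_i²`: `Ψ'/e₀ ≥ c' > 0` at all real places (and `Ψ'/e₀` is regular there), so `Ψ'` is `PosAt` there (`e₀` is `Sos`, nonzero: `Sos.posAt`,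
`PosAt.mul`), and `Ψ'(z) > 0` at the real singular points. `spa`: `Ψ' ≡ ∑ ψ_j²` mod `p`. So `Ψ ≡ ∑ (√c' θ_i)² + ∑ ψ_j²`; this vector is unimodular mod `p`
(`β_i/√c'`, and `0`). `lift_sq`: `Ψ - ∑ ψ'_j² ∈ (p^m') K`. Multiply by `ϖ`: `f + ε - g₁² - ∑ (P₁^m ψ'_j)² ∈ (P₁^(2m) p^m') K`.
-/

namespace Pool.Agent.Helper10.GN

open VC FF MvPolynomial Pool.Agent.Helper68.QM

variable {F : Type} [Field F] [Algebra ℂ F] {s : RStr F} (hF : IsFunctionField ℂ F)
variable {p : A} {π : CP →ₐ[ℂ] F}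


private theorem taylor93 (N : ℕ) : ∃ T : Polynomial ℝ, T.coeff 0 = 1 ∧
    Polynomial.X ^ (N + 1) ∣ 1 + Polynomial.X - T ^ 2 := by
  induction N with
  | zero => exact ⟨1, by simp, ⟨1, by ring⟩⟩
  | succ N ih =>
    obtain ⟨T, hT, c, hc⟩ := ih
    refine ⟨T + Polynomial.C (c.coeff 0 / 2) * Polynomial.X ^ (N + 1), ?_, ?_⟩
    · rw [Polynomial.coeff_add, hT, Polynomial.coeff_C_mul, Polynomial.coeff_X_pow]
      simp
    · have h1 : Polynomial.X ∣ c - Polynomial.C (c.coeff 0) * T := by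
        rw [Polynomial.X_dvd_iff, Polynomial.coeff_sub, Polynomial.coeff_C_mul, hT]
        ring
      obtain ⟨d, hd⟩ := h1
      refine ⟨d - Polynomial.C (c.coeff 0 / 2) ^ 2 * Polynomial.X ^ N, ?_⟩
      have h2 : Polynomial.C (c.coeff 0) = 2 * Polynomial.C (c.coeff 0 / 2) := by
        rw [← Polynomial.C_ofNat (R := ℝ), ← Polynomial.C_mul]
        congr 1
        ring
      rw [h2] at hd
      linear_combination hc + Polynomial.X ^ (N + 1) * hd

theorem exists_taylor (N : ℕ) : ∃ T c : Polynomial ℝ,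
    1 + Polynomial.X - T ^ 2 = Polynomial.X ^ (N + 1) * c := by
  obtain ⟨T, -, c, hc⟩ := taylor93 N
  exact ⟨T, c, hc⟩

/-- the inequality behind the positivity of `Ψ` -/
private theorem real93 {η ε D y f Q : ℝ} {n : ℕ} (hη : 0 < η) (hε : 0 < ε) (hy : 0 ≤ y) (hy' : y ≤ 1 / 2)
    (hf : 0 ≤ f) (hQ : |Q| ≤ D) (hn : D + 1 ≤ 2 * n * (η * ε)) :
    (1 / 4 : ℝ) ^ n ≤ η * (f + ε) * (∑ k ∈ Finset.range (2 * n), (1 - y) ^ k) + Q * (1 - y) ^ (2 * n) := by
  have h0 : 0 ≤ 1 - y := by linarith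
  have h1 : 1 - y ≤ 1 := by linarith
  have hs : (2 * n : ℝ) * (1 - y) ^ (2 * n) ≤ ∑ k ∈ Finset.range (2 * n), (1 - y) ^ k := by
    have h2 : ∑ _k ∈ Finset.range (2 * n), (1 - y) ^ (2 * n) ≤ ∑ k ∈ Finset.range (2 * n), (1 - y) ^ k :=
      Finset.sum_le_sum fun k hk => pow_le_pow_of_le_one h0 h1 (Finset.mem_range.1 hk).le
    rw [Finset.sum_const, Finset.card_range, nsmul_eq_mul] at h2
    push_cast at h2
    exact h2
  have hp : (0 : ℝ) ≤ (1 - y) ^ (2 * n) := pow_nonneg h0 _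
  have hs0 : (0 : ℝ) ≤ ∑ k ∈ Finset.range (2 * n), (1 - y) ^ k :=
    Finset.sum_nonneg fun k _ => pow_nonneg h0 _
  have h3 : (1 / 4 : ℝ) ^ n ≤ (1 - y) ^ (2 * n) := by
    rw [pow_mul]
    apply pow_le_pow_left₀ (by norm_num)
    nlinarith
  have h4 : -D * (1 - y) ^ (2 * n) ≤ Q * (1 - y) ^ (2 * n) :=
    mul_le_mul_of_nonneg_right (by linarith [(abs_le.1 hQ).1]) hp
  have h5 : η * ε * ((2 * n : ℝ) * (1 - y) ^ (2 * n)) ≤ η * (f + ε) * (∑ k ∈ Finset.range (2 * n), (1 - y) ^ k) := by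
    calc η * ε * ((2 * n : ℝ) * (1 - y) ^ (2 * n)) ≤ η * ε * (∑ k ∈ Finset.range (2 * n), (1 - y) ^ k) :=
          mul_le_mul_of_nonneg_left hs (by positivity)
      _ ≤ η * (f + ε) * (∑ k ∈ Finset.range (2 * n), (1 - y) ^ k) := by
          apply mul_le_mul_of_nonneg_right _ hs0
          apply mul_le_mul_of_nonneg_left _ hη.le
          linarith
  have h6 : (1 - y) ^ (2 * n) ≤ (2 * n * (η * ε) - D) * (1 - y) ^ (2 * n) := by
    nlinarith
  nlinarith

private theorem eval_dvd93 {a b : A} (h : a ∣ b) {z : Fin 2 → ℝ} (hz : eval z a = 0) : eval z b = 0 := by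
  obtain ⟨c, rfl⟩ := h
  rw [map_mul, hz, zero_mul]

/-- a real finite place lies over a real point -/
private theorem real_pt93 (hc : IsCrv p s π) {P : Place ℂ F} (hP : s.cj P = P) (hfin : FinP π P) :
    ∃ z : Fin 2 → ℝ, Over hF π P (cz z) ∧ eval z p = 0 := by
  obtain ⟨z', hz'⟩ := exists_point (hF := hF) hfin
  have h1 := real_of_over (hF := hF) hc hP hz'
  refine ⟨fun i => (z' i).re, by rw [← h1]; exact hz', ?_⟩
  have h2 := over_zero (hF := hF) hc hz'
  rw [h1, eval_cx] at h2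
  exact_mod_cast h2

private theorem sg_finite93 (hc : IsCrv p s π) (hp : Irreducible p) (hF : IsFunctionField ℂ F) :
    {z : Fin 2 → ℝ | Sg p z}.Finite := by
  obtain ⟨i, hi⟩ := hc.pderiv_ne_zero hp
  have h1 := finite_common hF hc hi
  have hinj : Function.Injective cz := by
    intro z z' h
    funext j
    exact Complex.ofReal_injective (congrFun h j)
  refine (h1.preimage hinj.injOn).subset fun z hz => ?_
  show eval (cz z) (cx p) = 0 ∧ eval (cz z) (pderiv i (cx p)) = 0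
  rw [pderiv_cx, eval_cx, eval_cx, hz.1, hz.2 i]
  simp

/-- a function on a finite set is bounded -/
private theorem bd93 {α : Type} {S : Set α} (hS : S.Finite) (g : α → ℝ) : ∃ C : ℝ, 0 ≤ C ∧ ∀ z ∈ S, |g z| ≤ C := by
  obtain ⟨C, hC⟩ := (hS.image fun z => |g z|).bddAbove
  exact ⟨max C 0, le_max_right _ _, fun z hz => (hC ⟨z, hz, rfl⟩).trans (le_max_left _ _)⟩

private theorem bdn93 {α : Type} {S : Set α} (hS : S.Finite) (g : α → ℤ) : ∃ N : ℕ, ∀ z ∈ S, g z ≤ N := by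
  obtain ⟨C, hC⟩ := (hS.image g).bddAbove
  refine ⟨C.toNat, fun z hz => (hC ⟨z, hz, rfl⟩).trans (Int.self_le_toNat C)⟩

include hF in
theorem e_lemma (hc : IsCrv p s π) (hp : Irreducible p) (hsc : SC p)
    (hn : ∃ P : Place ℂ F, ¬ FinP π P ∧ s.cj P ≠ P) {P₁ H : A} (hP₁ : ¬ p ∣ P₁)
    (hf1 : ∀ P : Place ℂ F, ¬ FinP π P → s.cj P = P → Oge P 1 (π (cx (P₁ * H))))
    (hf2 : ∀ z : Fin 2 → ℝ, eval z p = 0 → 0 ≤ eval z (P₁ * H))
    {K : Ideal A} {τ : A} (hτ : τ ∈ K) (hτp : p ∣ 1 - τ) (m m' : ℕ) :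
    ∃ f : A, p * P₁ ∣ f - P₁ * H ∧ ∀ ε : ℝ, 0 < ε → ∃ (n : ℕ) (B : Fin n → A),
      f + C ε - ∑ j, B j ^ 2 ∈ Ideal.span {P₁ ^ (2 * m) * p ^ m'} * K := by
  classical
  let r : A →+* F := (π : CP →+* F).comp cx
  have hr : ∀ a, π (cx a) = r a := fun _ => rfl
  have hr0 : ∀ a, r a = 0 ↔ p ∣ a := fun a => hc.eq_zero_iff a
  have hreal : ∀ a, s.σ (r a) = r a := fun a => hc.real a
  have hrC : ∀ c : ℝ, r (C c) = algebraMap ℂ F (c : ℂ) := by
    intro c
    show π (cx (C c)) = _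
    rw [cx_C]
    exact IsCrv.pi_C _
  have hrτ : r τ = 1 := by
    have := (hr0 (1 - τ)).2 hτp
    rw [map_sub, map_one, sub_eq_zero] at this
    exact this.symm
  have hτz : ∀ z : Fin 2 → ℝ, eval z p = 0 → eval z τ = 1 := by
    intro z hz
    have := eval_dvd93 hτp hz
    rw [map_sub, map_one, sub_eq_zero] at this
    exact this.symm
  have hrP₁ : r P₁ ≠ 0 := fun h => hP₁ ((hr0 _).1 h)
  set ϖ : A := P₁ ^ (2 * (m + 1)) with hϖ
  have hrϖ : r ϖ ≠ 0 := by
    rw [hϖ, map_pow]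
    exact pow_ne_zero _ hrP₁
  have hinf : {P : Place ℂ F | ¬ FinP π P}.Finite := finite_inf hF hc
  -- the functions `θ`
  obtain ⟨M, hM⟩ := bdn93 hinf (fun P => 1 - ord P.ring (r ϖ))
  obtain ⟨n₀, θ, β, hθ, hβ⟩ := exists_theta hF hc hp hn M
  set e₀ : A := ∑ i, θ i ^ 2 with he₀
  have hβ1 : ∑ i, r (β i) * r (θ i) = 1 := by
    have := (hr0 _).2 hβ
    rw [map_sub, map_one, map_sum, sub_eq_zero] at this
    rw [this]
    exact Finset.sum_congr rfl fun i _ => (map_mul r _ _).symm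
  have he₀z : ∀ z : Fin 2 → ℝ, eval z p = 0 → 0 < eval z e₀ := by
    intro z hz
    have h1 : ∑ i, eval z (β i) * eval z (θ i) = 1 := by
      have := eval_dvd93 hβ hz
      rw [map_sub, map_one, map_sum, sub_eq_zero] at this
      rw [this]
      exact Finset.sum_congr rfl fun i _ => (map_mul (eval z) _ _).symm
    rw [he₀, map_sum]
    simp only [map_pow]
    by_contra hcon
    have h2 : ∑ i, eval z (θ i) ^ 2 = 0 :=
      le_antisymm (not_lt.1 hcon) (Finset.sum_nonneg fun i _ => sq_nonneg _)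
    have h3 : ∀ i, eval z (θ i) = 0 := by
      intro i
      have := (Finset.sum_eq_zero_iff_of_nonneg fun i _ => sq_nonneg (eval z (θ i))).1 h2 i (Finset.mem_univ i)
      exact pow_eq_zero_iff (two_ne_zero) |>.1 this
    rw [Finset.sum_eq_zero fun i _ => by rw [h3 i, mul_zero]] at h1
    exact zero_ne_one h1
  -- a real finite place; `e₀ ≠ 0` on the curve
  have hre₀ : r e₀ ≠ 0 := by
    obtain ⟨P, hP, hPf⟩ := (infinite_real hF hc hp hsc).exists_notMem_finite hinf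
    have hPf' : FinP π P := by
      by_contra h
      exact hPf h
    obtain ⟨z, hz, hz0⟩ := real_pt93 hF hc hP hPf'
    intro h0
    have h1 := (rv_over (hF := hF) hz e₀).2
    rw [hr, h0] at h1
    have h2 : rv hF P (0 : F) = 0 := by
      unfold rv
      rw [vl_zero, Complex.zero_re]
    rw [h2] at h1
    exact absurd (he₀z z hz0) (by rw [← h1]; exact lt_irrefl _)
  have hsos : Sos s (r e₀) := ⟨n₀, fun i => r (θ i), fun i => hreal _, by
    rw [he₀, map_sum]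
    exact Finset.sum_congr rfl fun i _ => map_pow r _ _⟩
  have hsosϖ : Sos s (r ϖ) := by
    have : r ϖ = (r (P₁ ^ (m + 1))) ^ 2 := by
      rw [← map_pow, hϖ, ← pow_mul]
      congr 2
      ring
    rw [this]
    exact Sos.sq (hreal _)
  -- at the real infinite places
  have hinf1 : ∀ P : Place ℂ F, ¬ FinP π P → s.cj P = P → Oge P 1 (r (e₀ * ϖ)) := by
    intro P hP hcj
    have h1 : Oge P (2 * (M : ℤ)) (r e₀) := by
      rw [he₀, map_sum]
      refine oge_sum hF _ _ fun i _ => ?_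
      rw [map_pow]
      have := oge_pow hF (hθ i P hP hcj) 2
      exact_mod_cast this
    have h2 : Oge P (ord P.ring (r ϖ)) (r ϖ) := Or.inr le_rfl
    rw [map_mul]
    refine (oge_mul hF h1 h2).mono ?_
    have := hM P hP
    have hM0 : (0 : ℤ) ≤ M := Int.natCast_nonneg M
    linarith
  have hmemfin : ∀ (P : Place ℂ F), FinP π P → ∀ a, r a ∈ P.ring := fun P hP a => mem_of_fin hP _
  have hregeϖ : Reg s (r (e₀ * ϖ)) := by
    intro P hP
    by_cases hf : FinP π P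
    · exact hmemfin P hf _
    · exact (oge_zero_iff hF).1 ((hinf1 P hf hP).mono (by norm_num))
  obtain ⟨C₁, hC₁0, hC₁⟩ := bdd hF hregeϖ
  have hsing := sg_finite93 hc hp hF
  obtain ⟨C₂, hC₂0, hC₂⟩ := bd93 hsing (fun z => eval z (e₀ * ϖ))
  set η : ℝ := 1 / (2 * (C₁ + C₂ + 1)) with hη
  have hη0 : 0 < η := by positivity
  have hηle : ∀ x : ℝ, |x| ≤ C₁ + C₂ → η * x ≤ 1 / 2 := by
    intro x hx
    have h1 : x ≤ C₁ + C₂ + 1 := (le_abs_self x).trans (by linarith)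
    calc η * x ≤ η * (C₁ + C₂ + 1) := mul_le_mul_of_nonneg_left h1 hη0.le
      _ = 1 / 2 := by rw [hη]; field_simp
  set e : A := C η * τ ^ 2 * e₀ with he
  have heK : e ∈ K := by
    have : e = (C η * τ * e₀) * τ := by rw [he]; ring
    rw [this]
    exact K.mul_mem_left _ hτ
  set y : A := e * ϖ with hy
  have hre : r e = algebraMap ℂ F (η : ℂ) * r e₀ := by
    rw [he, map_mul, map_mul, map_pow, hrτ, hrC]
    ring
  have hry : r y = algebraMap ℂ F (η : ℂ) * r (e₀ * ϖ) := by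
    rw [hy, map_mul, hre, map_mul]
    ring
  have hryreg : ∀ P, s.cj P = P → r y ∈ P.ring := by
    intro P hP
    rw [hry]
    exact P.ring.mul_mem _ _ (P.algebraMap_mem _) (hregeϖ P hP)
  -- the values of `y` are in `[0, 1/2]`
  have hyP : ∀ P, s.cj P = P → 0 ≤ rv hF P (r y) ∧ rv hF P (r y) ≤ 1 / 2 := by
    intro P hP
    have h1 : rv hF P (r y) = η * rv hF P (r (e₀ * ϖ)) := by
      rw [hry, rv_mul s hF hP (P.algebraMap_mem _) (hregeϖ P hP) (by rw [s.alg, Complex.conj_ofReal]) (hreal _), rv_ofReal]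
    have h2 : 0 ≤ rv hF P (r (e₀ * ϖ)) := by
      rw [map_mul]
      have := (hsos.mul hsosϖ).rv_nonneg (hF := hF) hP (by rw [← map_mul]; exact hregeϖ P hP)
      exact this
    have h3 : |rv hF P (r (e₀ * ϖ))| ≤ C₁ := (Complex.abs_re_le_norm _).trans (hC₁ P hP)
    rw [h1]
    exact ⟨mul_nonneg hη0.le h2, hηle _ (h3.trans (by linarith))⟩
  have hyz : ∀ z, Sg p z → 0 ≤ eval z y ∧ eval z y ≤ 1 / 2 := by
    intro z hz
    have h1 : eval z y = η * eval z (e₀ * ϖ) := by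
      rw [hy, he]
      simp only [map_mul, map_pow, eval_C, hτz z hz.1]
      ring
    have h2 : 0 ≤ eval z (e₀ * ϖ) := by
      rw [map_mul, hϖ, map_pow]
      exact mul_nonneg (he₀z z hz.1).le (Even.pow_nonneg ⟨m + 1, by ring⟩ _)
    rw [h1]
    exact ⟨mul_nonneg hη0.le h2, hηle _ ((hC₂ z hz).trans (by linarith))⟩
  -- the function `f`
  set f : A := P₁ * τ * H with hf
  have hrf : r f = r (P₁ * H) := by
    rw [hf, map_mul, map_mul, hrτ, map_mul, mul_one]
  have hfz : ∀ z : Fin 2 → ℝ, eval z p = 0 → 0 ≤ eval z f := by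
    intro z hz
    have h1 : eval z f = eval z (P₁ * H) := by
      rw [hf, map_mul, map_mul, hτz z hz, map_mul, mul_one]
    rw [h1]
    exact hf2 z hz
  have hfreg : ∀ P, s.cj P = P → r f ∈ P.ring ∧ 0 ≤ rv hF P (r f) := by
    intro P hP
    by_cases hfin : FinP π P
    · obtain ⟨z, hz, hz0⟩ := real_pt93 hF hc hP hfin
      refine ⟨hmemfin P hfin _, ?_⟩
      have := (rv_over (hF := hF) hz f).2
      rw [hr] at this
      rw [this]
      exact hfz z hz0
    · have h1 : Oge P 1 (r f) := by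
        rw [hrf]
        exact hf1 P hfin hP
      have h2 : r f ∈ P.ring := (oge_zero_iff hF).1 (h1.mono (by norm_num))
      refine ⟨h2, ?_⟩
      unfold rv
      rw [(vl_eq_zero hF h2).2 h1, Complex.zero_re]
  refine ⟨f, ?_, fun ε hε => ?_⟩
  · obtain ⟨t, ht⟩ := hτp
    refine ⟨-(t * H), ?_⟩
    rw [hf]
    linear_combination (-(P₁ * H)) * ht
  -- the exponent `N`
  obtain ⟨N₁, hN₁⟩ := bdn93 hinf (fun P => ord P.ring (r (e₀ * ϖ)))
  set N : ℕ := N₁ + 2 * (m + 1) with hN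
  obtain ⟨T, c, hTc⟩ := exists_taylor N
  set x : A := C (1 / ε) * f with hx
  set Tx : A := Polynomial.aeval x T with hTx
  set cxx : A := Polynomial.aeval x c with hcxx
  have hTcx : 1 + x - Tx ^ 2 = x ^ (N + 1) * cxx := by
    have := congrArg (Polynomial.aeval x) hTc
    simpa only [map_sub, map_add, map_one, Polynomial.aeval_X, map_pow, map_mul] using this
  set R : A := C (ε * (1 / ε) ^ (N + 1)) * (P₁ ^ (N + 1 - 2 * (m + 1)) * (τ * H) ^ (N + 1)) * cxx with hR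
  have hεC : (C ε : A) * C (1 / ε) = 1 := by
    rw [← C_mul, mul_one_div, div_self hε.ne', C_1]
  have hRK : R ∈ K := by
    have : R = (C (ε * (1 / ε) ^ (N + 1)) * (P₁ ^ (N + 1 - 2 * (m + 1)) * (τ ^ N * H ^ (N + 1))) * cxx) * τ := by
      rw [hR]; ring
    rw [this]
    exact K.mul_mem_left _ hτ
  have hϖR : ϖ * R = C ε * (x ^ (N + 1) * cxx) := by
    have h1 : P₁ ^ (2 * (m + 1)) * P₁ ^ (N + 1 - 2 * (m + 1)) = P₁ ^ (N + 1) := by
      rw [← pow_add]
      congr 1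
      omega
    rw [hR, hϖ, hx, hf]
    simp only [C_mul, C_pow]
    linear_combination (C ε * (C (1 / ε)) ^ (N + 1) * (τ * H) ^ (N + 1) * cxx) * h1
  have hfR : f + C ε - C ε * Tx ^ 2 = ϖ * R := by
    rw [hϖR, ← hTcx, hx]
    linear_combination (-f) * hεC
  -- `R / e₀` is regular at the real places
  have hQreg : Reg s (r R / r e₀) := by
    intro P hP
    by_cases hfin : FinP π P
    · obtain ⟨z, hz, hz0⟩ := real_pt93 hF hc hP hfin
      have h1 := rv_over (hF := hF) hz e₀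
      have h2 : vl hF P (r e₀) ≠ 0 := by
        intro h0
        have h3 : rv hF P (r e₀) = 0 := by unfold rv; rw [h0, Complex.zero_re]
        rw [← hr, h1.2] at h3
        exact absurd (he₀z z hz0) (by rw [h3]; exact lt_irrefl _)
      rw [div_eq_mul_inv]
      exact P.ring.mul_mem _ _ (hmemfin P hfin _) (vl_inv hF (hmemfin P hfin _) h2).1
    · rw [← oge_zero_iff hF, oge_div_iff hF hre₀, ← oge_mul_iff hF hrϖ, ← map_mul, mul_comm R ϖ, hϖR]
      have h1 : Oge P 1 (r f) := by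
        rw [hrf]
        exact hf1 P hfin hP
      have h2 : Oge P 1 (r x) := by
        rw [hx, map_mul, hrC]
        have := oge_mul hF (oge_alg hF (P := P) ((1 / ε : ℝ) : ℂ)) h1
        rwa [zero_add] at this
      have h3 : Oge P 0 (r cxx) := by
        have hxm : r x ∈ P.ring := (oge_zero_iff hF).1 (h2.mono (by norm_num))
        rw [oge_zero_iff hF, hcxx, Polynomial.aeval_eq_sum_range, map_sum]
        refine sum_mem fun k _ => ?_
        rw [Algebra.smul_def, map_mul, map_pow]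
        refine P.ring.mul_mem _ _ ?_ (pow_mem hxm _)
        have : r (algebraMap ℝ A (c.coeff k)) = algebraMap ℂ F ((c.coeff k : ℝ) : ℂ) := hrC _
        rw [this]
        exact P.algebraMap_mem _
      have h4 := oge_mul hF (oge_alg hF (P := P) ((ε : ℝ) : ℂ)) (oge_mul hF (oge_pow hF h2 (N + 1)) h3)
      rw [map_mul, map_mul, map_pow r x (N + 1), hrC]
      refine Oge.mono h4 ?_
      have h5 : ord P.ring (r (e₀ * ϖ)) = ord P.ring (r e₀) + ord P.ring (r ϖ) := by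
        rw [map_mul, FF.ord_mul hF P hre₀ hrϖ]
      have h6 := hN₁ P hfin
      rw [h5] at h6
      have h7 : (N₁ : ℤ) ≤ (N : ℤ) := by
        rw [hN]
        push_cast
        linarith
      push_cast
      linarith
  obtain ⟨C₃, hC₃0, hC₃⟩ := bdd hF hQreg
  obtain ⟨C₄, hC₄0, hC₄⟩ := bd93 hsing (fun z => eval z R / eval z e₀)
  obtain ⟨n, hn'⟩ := exists_nat_ge ((C₃ + C₄ + 1) / (2 * (η * ε)))
  have hηε : 0 < η * ε := mul_pos hη0 hε
  have hn2 : (C₃ + C₄) + 1 ≤ 2 * n * (η * ε) := by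
    rw [div_le_iff₀ (by positivity)] at hn'
    linarith
  set q : A := ∑ k ∈ Finset.range (2 * n), (1 - y) ^ k with hq
  have hyq : y * q = 1 - (1 - y) ^ (2 * n) := by
    have := mul_neg_geom_sum (1 - y) (2 * n)
    rw [← this, hq]
    ring
  set g₁ : A := C (Real.sqrt ε) * Tx * (1 - y) ^ n with hg₁
  have hg₁2 : g₁ ^ 2 = C ε * Tx ^ 2 * (1 - y) ^ (2 * n) := by
    rw [hg₁]
    have h1 : (C (Real.sqrt ε) : A) ^ 2 = C ε := by
      rw [← C_pow, Real.sq_sqrt hε.le]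
    calc (C (Real.sqrt ε) * Tx * (1 - y) ^ n) ^ 2 = (C (Real.sqrt ε) : A) ^ 2 * Tx ^ 2 * (1 - y) ^ (2 * n) := by ring
      _ = _ := by rw [h1]
  set Ψ : A := (f + C ε) * e * q + R * (1 - y) ^ (2 * n) with hΨ
  have hΨK : Ψ ∈ K := by
    rw [hΨ]
    refine K.add_mem ?_ (K.mul_mem_right _ hRK)
    exact K.mul_mem_right _ (K.mul_mem_left _ heK)
  have hmain : f + C ε = g₁ ^ 2 + ϖ * Ψ := by
    rw [hg₁2, hΨ]
    have h1 : ϖ * e = y := by rw [hy]; ring
    linear_combination ((1 - y) ^ (2 * n)) * hfR + (-(f + C ε) * q) * h1 + (-(f + C ε)) * hyq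
  -- positivity
  set c' : ℝ := (1 / 4 : ℝ) ^ n / 2 with hc'
  have hc'0 : 0 < c' := by positivity
  set Ψ' : A := Ψ - C c' * e₀ with hΨ'
  have hΨ'pos : ∀ P, s.cj P = P → PosAt s hF P (π (cx Ψ')) := by
    intro P hP
    have hW : r Ψ' / r e₀ = algebraMap ℂ F (η : ℂ) * (r f + algebraMap ℂ F (ε : ℂ)) *
        (∑ k ∈ Finset.range (2 * n), (1 - r y) ^ k) + (r R / r e₀) * (1 - r y) ^ (2 * n) -
        algebraMap ℂ F (c' : ℂ) := by
      have h1 : r Ψ' = (r f + algebraMap ℂ F (ε : ℂ)) * (algebraMap ℂ F (η : ℂ) * r e₀) *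
          (∑ k ∈ Finset.range (2 * n), (1 - r y) ^ k) + r R * (1 - r y) ^ (2 * n) -
          algebraMap ℂ F (c' : ℂ) * r e₀ := by
        rw [hΨ', hΨ, hq]
        simp only [map_sub, map_add, map_mul, map_pow, map_sum, map_one, hrC, hre]
      rw [h1]
      field_simp
    have hy1 := hryreg P hP
    have hy2 : 1 - r y ∈ P.ring := sub_mem (one_mem _) hy1
    have hσy : s.σ (1 - r y) = 1 - r y := by rw [map_sub, map_one, hreal]
    have hσC : ∀ a : ℝ, s.σ (algebraMap ℂ F (a : ℂ)) = algebraMap ℂ F (a : ℂ) := fun a => by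
      rw [s.alg, Complex.conj_ofReal]
    obtain ⟨hf3, hf4⟩ := hfreg P hP
    have hQ1 := hQreg P hP
    have hσQ : s.σ (r R / r e₀) = r R / r e₀ := by rw [map_div₀, hreal, hreal]
    have hs1 : (∑ k ∈ Finset.range (2 * n), (1 - r y) ^ k) ∈ P.ring := sum_mem fun k _ => pow_mem hy2 k
    have hσs : s.σ (∑ k ∈ Finset.range (2 * n), (1 - r y) ^ k) = ∑ k ∈ Finset.range (2 * n), (1 - r y) ^ k := by
      rw [map_sum]
      exact Finset.sum_congr rfl fun k _ => by rw [map_pow, hσy]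
    have hfe : r f + algebraMap ℂ F (ε : ℂ) ∈ P.ring := add_mem hf3 (P.algebraMap_mem _)
    have hσfe : s.σ (r f + algebraMap ℂ F (ε : ℂ)) = r f + algebraMap ℂ F (ε : ℂ) := by
      rw [map_add, hreal, hσC]
    have hηm : algebraMap ℂ F (η : ℂ) ∈ P.ring := P.algebraMap_mem _
    have hp1 : (1 - r y) ^ (2 * n) ∈ P.ring := pow_mem hy2 _
    have hσp : s.σ ((1 - r y) ^ (2 * n)) = (1 - r y) ^ (2 * n) := by rw [map_pow, hσy]
    have hmem1 : algebraMap ℂ F (η : ℂ) * (r f + algebraMap ℂ F (ε : ℂ)) ∈ P.ring := P.ring.mul_mem _ _ hηm hfe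
    have hσ1 : s.σ (algebraMap ℂ F (η : ℂ) * (r f + algebraMap ℂ F (ε : ℂ))) =
        algebraMap ℂ F (η : ℂ) * (r f + algebraMap ℂ F (ε : ℂ)) := by rw [map_mul, hσC, hσfe]
    have hmem2 := P.ring.mul_mem _ _ hmem1 hs1
    have hmem3 := P.ring.mul_mem _ _ hQ1 hp1
    have hmem4 := add_mem hmem2 hmem3
    have hmemW : r Ψ' / r e₀ ∈ P.ring := by
      rw [hW]
      exact sub_mem hmem4 (P.algebraMap_mem _)
    have hrv1 : rv hF P (1 - r y) = 1 - rv hF P (r y) := by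
      have h1 : (1 : F) = algebraMap ℂ F ((1 : ℝ) : ℂ) := by rw [Complex.ofReal_one, map_one]
      rw [rv_sub hF (one_mem _) hy1, h1, rv_ofReal]
    have hrvW : rv hF P (r Ψ' / r e₀) = η * (rv hF P (r f) + ε) *
        (∑ k ∈ Finset.range (2 * n), (1 - rv hF P (r y)) ^ k) +
        rv hF P (r R / r e₀) * (1 - rv hF P (r y)) ^ (2 * n) - c' := by
      rw [hW, rv_sub hF hmem4 (P.algebraMap_mem _), rv_add hF hmem2 hmem3,
        rv_mul s hF hP hmem1 hs1 hσ1 hσs, rv_mul s hF hP hηm hfe (hσC η) hσfe,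
        rv_mul s hF hP hQ1 hp1 hσQ hσp, rv_add hF hf3 (P.algebraMap_mem _),
        rv_pow s hF hP hy2 hσy, rv_sum hF _ _ (fun k _ => pow_mem hy2 k), hrv1, rv_ofReal, rv_ofReal, rv_ofReal]
      congr 2
      congr 1
      exact Finset.sum_congr rfl fun k _ => by rw [rv_pow s hF hP hy2 hσy, hrv1]
    have hQb : |rv hF P (r R / r e₀)| ≤ C₃ + C₄ :=
      ((Complex.abs_re_le_norm _).trans (hC₃ P hP)).trans (by linarith)
    have h5 := real93 hη0 hε (hyP P hP).1 (hyP P hP).2 hf4 hQb hn2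
    have h6 : 0 < rv hF P (r Ψ' / r e₀) := by
      rw [hrvW]
      have : c' < (1 / 4 : ℝ) ^ n := by
        rw [hc']
        have : (0 : ℝ) < (1 / 4 : ℝ) ^ n := by positivity
        linarith
      linarith
    have h7 := PosAt.mul (hF := hF) hP (f := r Ψ' / r e₀) (g := r e₀) (by rw [map_div₀, hreal, hreal]) (hreal _)
      (PosAt.of_pos hmemW h6) (hsos.posAt hre₀ hP)
    rw [div_mul_cancel₀ _ hre₀] at h7
    exact h7
  have hΨ'z : ∀ z : Fin 2 → ℝ, Sg p z → 0 < eval z Ψ' := by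
    intro z hz
    have h0 := he₀z z hz.1
    have h1 : eval z Ψ' / eval z e₀ = η * (eval z f + ε) * (∑ k ∈ Finset.range (2 * n), (1 - eval z y) ^ k) +
        (eval z R / eval z e₀) * (1 - eval z y) ^ (2 * n) - c' := by
      have h2 : eval z Ψ' = (eval z f + ε) * (η * eval z e₀) * (∑ k ∈ Finset.range (2 * n), (1 - eval z y) ^ k) +
          eval z R * (1 - eval z y) ^ (2 * n) - c' * eval z e₀ := by
        rw [hΨ', hΨ, hq, he]
        simp only [map_sub, map_add, map_mul, map_pow, map_sum, map_one, eval_C, hτz z hz.1]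
        ring
      rw [h2]
      field_simp
    have hQb : |eval z R / eval z e₀| ≤ C₃ + C₄ := (hC₄ z hz).trans (by linarith)
    have h5 := real93 hη0 hε (hyz z hz).1 (hyz z hz).2 (hfz z hz.1) hQb hn2
    have h6 : 0 < eval z Ψ' / eval z e₀ := by
      rw [h1]
      have : c' < (1 / 4 : ℝ) ^ n := by
        rw [hc']
        have : (0 : ℝ) < (1 / 4 : ℝ) ^ n := by positivity
        linarith
      linarith
    exact (div_pos_iff_of_pos_right h0).1 h6
  obtain ⟨n', ψ, hψ⟩ := spa hF hc hp hsc hn hΨ'pos hΨ'z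
  -- the unimodular vector
  have hsc' : (C (Real.sqrt c') : A) ^ 2 = C c' := by
    rw [← C_pow, Real.sq_sqrt hc'0.le]
  have hsc'' : (C (1 / Real.sqrt c') : A) * C (Real.sqrt c') = 1 := by
    rw [← C_mul, one_div_mul_cancel (Real.sqrt_pos.2 hc'0).ne', C_1]
  let v : Fin (n₀ + n') → A := Fin.append (fun i => C (Real.sqrt c') * θ i) ψ
  let β' : Fin (n₀ + n') → A := Fin.append (fun i => C (1 / Real.sqrt c') * β i) (fun _ => 0)
  have hβ' : p ∣ 1 - ∑ j, β' j * v j := by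
    have h1 : ∑ j, β' j * v j = ∑ i, β i * θ i := by
      rw [Fin.sum_univ_add]
      simp only [β', v, Fin.append_left, Fin.append_right, zero_mul, Finset.sum_const_zero, add_zero]
      refine Finset.sum_congr rfl fun i _ => ?_
      linear_combination (β i * θ i) * hsc''
    rw [h1]
    exact hβ
  have hv : p ∣ Ψ - ∑ j, v j ^ 2 := by
    have h1 : Ψ - ∑ j, v j ^ 2 = Ψ' - ∑ j, ψ j ^ 2 := by
      rw [Fin.sum_univ_add]
      simp only [v, Fin.append_left, Fin.append_right]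
      rw [hΨ', he₀, Finset.mul_sum]
      have : ∑ i, (C (Real.sqrt c') * θ i) ^ 2 = ∑ i, C c' * θ i ^ 2 :=
        Finset.sum_congr rfl fun i _ => by rw [mul_pow, hsc']
      rw [this]
      ring
    rw [h1]
    exact hψ
  obtain ⟨ψ', hψ'⟩ := lift_sq v β' hβ' hτ hτp hΨK hv m'
  refine ⟨(n₀ + n') + 1, Fin.cons g₁ (fun j => P₁ ^ (m + 1) * ψ' j), ?_⟩
  have hfin : f + C ε - ∑ j, (Fin.cons g₁ (fun j => P₁ ^ (m + 1) * ψ' j) : Fin ((n₀ + n') + 1) → A) j ^ 2 =
      ϖ * (Ψ - ∑ j, ψ' j ^ 2) := by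
    rw [Fin.sum_univ_succ]
    simp only [Fin.cons_zero, Fin.cons_succ]
    have h1 : ∑ j, (P₁ ^ (m + 1) * ψ' j) ^ 2 = ϖ * ∑ j, ψ' j ^ 2 := by
      rw [Finset.mul_sum]
      refine Finset.sum_congr rfl fun j _ => ?_
      rw [hϖ]
      ring
    rw [h1, hmain]
    ring
  rw [hfin]
  have h8 : ϖ * (Ψ - ∑ j, ψ' j ^ 2) ∈ Ideal.span {ϖ} * (Ideal.span {p ^ m'} * K) :=
    Ideal.mul_mem_mul (Ideal.mem_span_singleton_self _) hψ'
  rw [← mul_assoc, Ideal.span_singleton_mul_span_singleton] at h8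
  refine Ideal.mul_mono_left ?_ h8
  rw [Ideal.span_singleton_le_span_singleton]
  exact mul_dvd_mul_right (pow_dvd_pow _ (by omega)) _

end Pool.Agent.Helper10.GN
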