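import Pool.Agent.Helper10.GN.Posf

set_option autoImplicit false

/-!
# Project GN, block ETA: partition functions at the marked places

`Mk` a finite set of real places, `Zs` a finite set of nonreal places closed under conjugation, disjoint from `S`. Result: a real function `θ`,
regular outside `S`, of order exactly `2 N` at the marked places and positive at the other real places, and for every
`P ∈ Mk` a real function `η P`, regular outside `S`, which is `1` at `P` and `0` at the other marked places and at `Zs`, up to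
order `2 N`, such that `(1 - (∑ η²)²)/θ` is regular with values `≥ 1` at all real places.

Proof. `θ` from `posfn` with `Z = Mk`. By `appr_real` (`Z = Mk ∪ Zs`, precision `r = 4 N + 1`) there are real `e P`, regular outside `S`,
with `Oge P r (e P - 1)` and `Oge Q r (e P)` for the other `Q ∈ Mk ∪ Zs`. Let `e = ∑_{P ∈ Mk} (e P)²`. At a marked place
`Oge P r (e - 1)`, so `(e - 1)/θ` is regular at all real places, `|rv ((e - 1)/θ)| ≤ K` with a natural number
`K` (`bdd`). Let `n = K + 1`, `η P = e P (1 - θ)^n`; then `E = ∑ η² = e (1 - θ)^{2n}`. The values at a real place `P` outside `Mk`: with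
`t = θ(P) ∈ (0, 1/2]`, `0 ≤ e(P) ≤ 1 + K t`, `E(P) ≤ (1 + K t) (1 - t)^{2K+2} ≤ 1 - t` because
`(1 + K t)(1 - t)^K ≤ ((1 + t)(1 - t))^K ≤ 1`; so `1 - E(P)² ≥ 1 - E(P) ≥ t` (`0 ≤ E(P) ≤ 1`) and the quotient by `θ` has value `≥ 1`. At a
marked place `P`: `E = (1 + O(r)) (1 - 2 n θ + O(2 ord θ))`, `1 - E² = 4 n θ + O(2 N + 1)`, so `(1 - E²)/θ` is regular with value `4 n ≥ 1`
(write `1 - E² = (1 - (1-θ)^{4n}) + (1 - e²) (1 - θ)^{4n}` and `1 - (1 - θ)^{4n} = θ ∑_{k<4n} (1 - θ)^k`). `N ≥ 1`.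
`Oge P (2N) (η P - 1)`: `η P - 1 = (e P - 1)(1 - θ)^n + ((1-θ)^n - 1)`.
-/

namespace Pool.Agent.Helper10.GN

open VC FF

variable {F : Type} [Field F] [Algebra ℂ F] {s : RStr F} (hF : IsFunctionField ℂ F)

private theorem bern50 (K : ℕ) {t : ℝ} (h0 : 0 < t) (h1 : t ≤ 1 / 2) :
    (1 + K * t) * (1 - t) ^ (2 * (K + 1)) ≤ 1 - t := by
  have h2 : 1 + (K : ℝ) * t ≤ (1 + t) ^ K := one_add_mul_le_pow (by linarith) K
  have h3 : (0 : ℝ) ≤ 1 - t := by linarith
  have h4 : (1 + (K : ℝ) * t) * (1 - t) ^ K ≤ 1 := by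
    calc (1 + (K : ℝ) * t) * (1 - t) ^ K ≤ (1 + t) ^ K * (1 - t) ^ K :=
          mul_le_mul_of_nonneg_right h2 (pow_nonneg h3 K)
      _ = ((1 + t) * (1 - t)) ^ K := (mul_pow _ _ _).symm
      _ ≤ 1 := pow_le_one₀ (by nlinarith) (by nlinarith)
  have h5 : (1 - t) ^ (K + 2) ≤ 1 - t := by
    calc (1 - t) ^ (K + 2) ≤ (1 - t) ^ 1 := pow_le_pow_of_le_one h3 (by linarith) (by omega)
      _ = 1 - t := pow_one _
  have e : (1 - t) ^ (2 * (K + 1)) = (1 - t) ^ K * (1 - t) ^ (K + 2) := by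
    rw [← pow_add]
    congr 1
    omega
  rw [e, ← mul_assoc]
  calc (1 + (K : ℝ) * t) * (1 - t) ^ K * (1 - t) ^ (K + 2) ≤ 1 * (1 - t) ^ (K + 2) :=
        mul_le_mul_of_nonneg_right h4 (pow_nonneg h3 _)
    _ ≤ 1 - t := by rw [one_mul]; exact h5

omit [Algebra ℂ F] in
private theorem geom50 (x : F) (m : ℕ) : 1 - (1 - x) ^ m = x * ∑ k ∈ Finset.range m, (1 - x) ^ k := by
  rw [← mul_neg_geom_sum (1 - x) m]
  ring

/-- partition functions at the marked places -/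
structure EtaData (s : RStr F) (hF : IsFunctionField ℂ F) (S Mk Zs : Finset (Place ℂ F)) (N : ℕ)
    (θ : F) (η : Place ℂ F → F) : Prop where
  θ_ne : θ ≠ 0
  θ_real : s.σ θ = θ
  θ_reg : ∀ P, P ∉ S → θ ∈ P.ring
  θ_ord : ∀ P ∈ Mk, ord P.ring θ = 2 * N
  θ_pos : ∀ P, s.cj P = P → PosAt s hF P θ
  θ_le : ∀ P, s.cj P = P → rv hF P θ ≤ 1 / 2
  θ_rv : ∀ P, s.cj P = P → P ∉ Mk → 0 < rv hF P θ
  η_real : ∀ P ∈ Mk, s.σ (η P) = η P
  η_reg : ∀ P ∈ Mk, ∀ Q, Q ∉ S → η P ∈ Q.ring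
  η_one : ∀ P ∈ Mk, Oge P (2 * N) (η P - 1)
  η_zero : ∀ P ∈ Mk, ∀ Q ∈ Mk, Q ≠ P → Oge Q (2 * N) (η P)
  η_zs : ∀ P ∈ Mk, ∀ Q ∈ Zs, Oge Q (2 * N) (η P)
  quot : ∀ P, s.cj P = P → (1 - (∑ Q ∈ Mk, η Q ^ 2) ^ 2) / θ ∈ P.ring ∧
    1 ≤ rv hF P ((1 - (∑ Q ∈ Mk, η Q ^ 2) ^ 2) / θ)

theorem exists_eta {S : Finset (Place ℂ F)} (hS : SData s S) (Mk Zs : Finset (Place ℂ F))
    (hMk : ∀ P ∈ Mk, s.cj P = P) (hZs : ∀ P ∈ Zs, s.cj P ∈ Zs ∧ s.cj P ≠ P ∧ P ∉ S) (N : ℕ)
    (hN : 1 ≤ N) : ∃ (θ : F) (η : Place ℂ F → F), EtaData s hF S Mk Zs N θ η := by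
  classical
  have hSr : ∀ P, s.cj P = P → P ∉ S := fun P hP h => hS.cj_ne P h hP
  have hd1 : Disjoint Mk S := Finset.disjoint_left.2 fun P hP => hSr P (hMk P hP)
  obtain ⟨θ, hθ0, hθσ, hθreg, hθZ, hθord, hθpos, hθrv⟩ :=
    posfn hF hS Mk hd1 (fun P hP => by rw [hMk P hP]; exact hP) N
  have hN' : (1 : ℤ) ≤ N := by exact_mod_cast hN
  -- the approximating functions
  have he : ∀ P ∈ Mk, ∃ e : F, s.σ e = e ∧
      (∀ R ∈ Mk ∪ Zs, Oge R (4 * (N : ℤ) + 1) (e - if R = P then 1 else 0)) ∧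
      ∀ R, R ∉ S → e ∈ R.ring := by
    intro P hP
    obtain ⟨e, h1, h2, h3⟩ := appr_real s hF hS (Mk ∪ Zs) (by
        rw [Finset.disjoint_left]
        intro R hR
        rcases Finset.mem_union.1 hR with h | h
        · exact Finset.disjoint_left.1 hd1 h
        · exact (hZs R h).2.2) (by
        intro R hR
        rcases Finset.mem_union.1 hR with h | h
        · rw [hMk R h]
          exact Finset.mem_union_left _ h
        · exact Finset.mem_union_right _ (hZs R h).1)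
      (fun R => if R = P then (1 : F) else 0) (4 * (N : ℤ) + 1) (by
        intro R _
        have e1 : (s.cj R = P) ↔ (R = P) := by
          constructor
          · intro h
            rw [← cj_cj s R, h, hMk P hP]
          · intro h
            rw [h, hMk P hP]
        have e2 : s.σ (if s.cj R = P then (1 : F) else 0) - (if R = P then (1 : F) else 0) = 0 := by
          by_cases h : R = P
          · rw [if_pos h, if_pos (e1.2 h), map_one, sub_self]
          · rw [if_neg h, if_neg (fun h' => h (e1.1 h')), map_zero, sub_self]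
        show Oge R (4 * (N : ℤ) + 1) (s.σ (if s.cj R = P then (1 : F) else 0) - (if R = P then (1 : F) else 0))
        rw [e2]
        exact oge_zero)
    refine ⟨e, h1, h2, fun R hR => ?_⟩
    by_cases hRZ : R ∈ Mk ∪ Zs
    · have h4 := (oge_zero_iff hF).1 ((h2 R hRZ).mono (by omega))
      have h5 : (if R = P then (1 : F) else 0) ∈ R.ring := by
        split_ifs
        · exact R.ring.one_mem
        · exact R.ring.zero_mem
      have h6 := R.ring.add_mem _ _ h4 h5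
      rwa [sub_add_cancel] at h6
    · exact h3 R hR hRZ
  choose! e heσ heO hereg using he
  obtain ⟨E0, hE0⟩ : ∃ E0 : F, E0 = ∑ P ∈ Mk, e P ^ 2 := ⟨_, rfl⟩
  have hE0reg : ∀ R, R ∉ S → E0 ∈ R.ring := by
    intro R hR
    rw [hE0]
    exact sum_mem fun P hP => pow_mem (hereg P hP R hR) 2
  have hE0σ : s.σ E0 = E0 := by
    rw [hE0, map_sum]
    refine Finset.sum_congr rfl fun P hP => ?_
    rw [map_pow, heσ P hP]
  have hE0one : ∀ Q ∈ Mk, Oge Q (4 * (N : ℤ) + 1) (E0 - 1) := by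
    intro Q hQ
    have hQS := Finset.disjoint_left.1 hd1 hQ
    have e1 : E0 - 1 = ∑ P ∈ Mk, (e P ^ 2 - if P = Q then 1 else 0) := by
      rw [Finset.sum_sub_distrib, Finset.sum_ite_eq' Mk Q (fun _ => (1 : F)), if_pos hQ, hE0]
    rw [e1]
    refine oge_sum hF _ _ fun P hP => ?_
    have h1 := heO P hP Q (Finset.mem_union_left _ hQ)
    by_cases h : P = Q
    · rw [if_pos h]
      rw [if_pos h.symm] at h1
      have e2 : e P ^ 2 - 1 = (e P - 1) * (e P + 1) := by ring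
      rw [e2]
      have h2 : Oge Q 0 (e P + 1) := (oge_zero_iff hF).2 (Q.ring.add_mem _ _ (hereg P hP Q hQS) Q.ring.one_mem)
      have h3 := oge_mul hF h1 h2
      rwa [add_zero] at h3
    · rw [if_neg h, sub_zero, pow_two]
      rw [if_neg (Ne.symm h), sub_zero] at h1
      have h3 := oge_mul hF h1 ((oge_zero_iff hF).2 (hereg P hP Q hQS))
      rwa [add_zero] at h3
  -- values of θ
  have hθvl : ∀ P, s.cj P = P → P ∉ Mk → vl hF P θ ≠ 0 := by
    intro P hP hPM h0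
    have h1 := hθrv P hP hPM
    unfold rv at h1
    rw [h0] at h1
    simp at h1
  have hθinv : ∀ P, s.cj P = P → P ∉ Mk → θ⁻¹ ∈ P.ring := fun P hP hPM =>
    (vl_inv hF (hθreg P (hSr P hP)) (hθvl P hP hPM)).1
  have hquot : ∀ P ∈ Mk, ∀ x : F, Oge P (4 * (N : ℤ) + 1) x → Oge P 1 (x / θ) := by
    intro P hP x hx
    rw [oge_div_iff hF hθ0, hθord P hP (hMk P hP)]
    exact hx.mono (by omega)
  have hfreg : Reg s ((E0 - 1) / θ) := by
    intro P hP
    by_cases hPM : P ∈ Mk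
    · exact (oge_zero_iff hF).1 ((hquot P hPM _ (hE0one P hPM)).mono (by omega))
    · rw [div_eq_mul_inv]
      exact P.ring.mul_mem _ _ (sub_mem (hE0reg P (hSr P hP)) P.ring.one_mem) (hθinv P hP hPM)
  obtain ⟨C, hC, hCb⟩ := bdd hF hfreg
  obtain ⟨K, hK⟩ := exists_nat_ge C
  have hθ1reg : ∀ R, R ∉ S → ∀ m : ℕ, (1 - θ) ^ m ∈ R.ring := fun R hR m =>
    pow_mem (sub_mem R.ring.one_mem (hθreg R hR)) m
  have hθ1σ : ∀ m : ℕ, s.σ ((1 - θ) ^ m) = (1 - θ) ^ m := fun m => by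
    rw [map_pow, map_sub, map_one, hθσ]
  have hsum : ∑ Q ∈ Mk, (e Q * (1 - θ) ^ (K + 1)) ^ 2 = E0 * (1 - θ) ^ (2 * (K + 1)) := by
    rw [hE0, Finset.sum_mul]
    refine Finset.sum_congr rfl fun Q _ => ?_
    rw [mul_pow, ← pow_mul, mul_comm (K + 1) 2]
  refine ⟨θ, fun P => e P * (1 - θ) ^ (K + 1), ⟨hθ0, hθσ, hθreg, fun P hP => hθord P hP (hMk P hP),
    fun P hP => (hθpos P hP).1, fun P hP => (hθpos P hP).2, hθrv, ?_, ?_, ?_, ?_, ?_, ?_⟩⟩
  · intro P hP
    rw [map_mul, heσ P hP, hθ1σ]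
  · intro P hP Q hQ
    exact Q.ring.mul_mem _ _ (hereg P hP Q hQ) (hθ1reg Q hQ _)
  · intro P hP
    have hPS := Finset.disjoint_left.1 hd1 hP
    have e1 : e P * (1 - θ) ^ (K + 1) - 1 = (e P - 1) * (1 - θ) ^ (K + 1) - (1 - (1 - θ) ^ (K + 1)) := by ring
    show Oge P (2 * (N : ℤ)) (e P * (1 - θ) ^ (K + 1) - 1)
    rw [e1]
    refine oge_sub hF ?_ ?_
    · have h1 := heO P hP P (Finset.mem_union_left _ hP)
      rw [if_pos rfl] at h1
      have h2 := oge_mul hF h1 ((oge_zero_iff hF).2 (hθ1reg P hPS (K + 1)))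
      exact h2.mono (by omega)
    · rw [geom50]
      have h2 := oge_mul hF (hθZ P hP) ((oge_zero_iff hF).2
        (sum_mem fun k (_ : k ∈ Finset.range (K + 1)) => hθ1reg P hPS k))
      rwa [add_zero] at h2
  · intro P hP Q hQ hne
    have hQS := Finset.disjoint_left.1 hd1 hQ
    have h1 := heO P hP Q (Finset.mem_union_left _ hQ)
    rw [if_neg hne, sub_zero] at h1
    have h2 := oge_mul hF h1 ((oge_zero_iff hF).2 (hθ1reg Q hQS (K + 1)))
    exact h2.mono (by omega)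
  · intro P hP Q hQ
    have hne : Q ≠ P := by
      rintro rfl
      exact (hZs Q hQ).2.1 (hMk Q hP)
    have h1 := heO P hP Q (Finset.mem_union_right _ hQ)
    rw [if_neg hne, sub_zero] at h1
    have h2 := oge_mul hF h1 ((oge_zero_iff hF).2 (hθ1reg Q (hZs Q hQ).2.2 (K + 1)))
    exact h2.mono (by omega)
  · intro P hP
    show (1 - (∑ Q ∈ Mk, (e Q * (1 - θ) ^ (K + 1)) ^ 2) ^ 2) / θ ∈ P.ring ∧
      1 ≤ rv hF P ((1 - (∑ Q ∈ Mk, (e Q * (1 - θ) ^ (K + 1)) ^ 2) ^ 2) / θ)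
    rw [hsum]
    have hPS := hSr P hP
    by_cases hPM : P ∈ Mk
    · -- marked places
      have e1 : (1 - (E0 * (1 - θ) ^ (2 * (K + 1))) ^ 2) / θ =
          (∑ k ∈ Finset.range (4 * (K + 1)), (1 - θ) ^ k) -
            ((E0 - 1) * (E0 + 1)) / θ * (1 - θ) ^ (4 * (K + 1)) := by
        have h1 := geom50 θ (4 * (K + 1))
        have e2 : (1 - (E0 * (1 - θ) ^ (2 * (K + 1))) ^ 2) =
            (1 - (1 - θ) ^ (4 * (K + 1))) - ((E0 - 1) * (E0 + 1)) * (1 - θ) ^ (4 * (K + 1)) := by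
          have e3 : (1 - θ) ^ (4 * (K + 1)) = ((1 - θ) ^ (2 * (K + 1))) ^ 2 := by
            rw [← pow_mul]
            congr 1
            omega
          rw [e3]
          ring
        rw [e2, h1]
        field_simp
      have hA : (∑ k ∈ Finset.range (4 * (K + 1)), (1 - θ) ^ k) ∈ P.ring :=
        sum_mem fun k _ => hθ1reg P hPS k
      have h2 : Oge P (4 * (N : ℤ) + 1) ((E0 - 1) * (E0 + 1)) := by
        have h3 := oge_mul hF (hE0one P hPM) ((oge_zero_iff hF).2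
          (P.ring.add_mem _ _ (hE0reg P hPS) P.ring.one_mem))
        rwa [add_zero] at h3
      have h4 : Oge P 1 (((E0 - 1) * (E0 + 1)) / θ * (1 - θ) ^ (4 * (K + 1))) := by
        have h5 := oge_mul hF (hquot P hPM _ h2) ((oge_zero_iff hF).2 (hθ1reg P hPS (4 * (K + 1))))
        rwa [add_zero] at h5
      have hB : ((E0 - 1) * (E0 + 1)) / θ * (1 - θ) ^ (4 * (K + 1)) ∈ P.ring :=
        (oge_zero_iff hF).1 (h4.mono (by omega))
      have hB0 := (vl_eq_zero hF hB).2 h4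
      have hθ0' : vl hF P θ = 0 :=
        (vl_eq_zero hF (hθreg P hPS)).2 ((hθZ P hPM).mono (by omega))
      have hθ1 : vl hF P (1 - θ) = 1 := by
        rw [vl_sub hF P.ring.one_mem (hθreg P hPS), vl_one, hθ0', sub_zero]
      have hAv : vl hF P (∑ k ∈ Finset.range (4 * (K + 1)), (1 - θ) ^ k) = (4 * (K + 1) : ℕ) := by
        rw [vl_sum hF _ _ fun k _ => hθ1reg P hPS k]
        have h6 : ∀ k ∈ Finset.range (4 * (K + 1)), vl hF P ((1 - θ) ^ k) = 1 := by
          intro k _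
          rw [vl_pow hF (sub_mem P.ring.one_mem (hθreg P hPS)), hθ1, one_pow]
        rw [Finset.sum_congr rfl h6, Finset.sum_const, Finset.card_range, nsmul_eq_mul, mul_one]
      rw [e1]
      refine ⟨sub_mem hA hB, ?_⟩
      unfold rv
      rw [vl_sub hF hA hB, hAv, hB0, sub_zero, Complex.natCast_re]
      have : (1 : ℕ) ≤ 4 * (K + 1) := by omega
      exact_mod_cast this
    · -- other real places
      have ht0 := hθrv P hP hPM
      have ht1 := (hθpos P hP).2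
      have hinv := hθinv P hP hPM
      obtain ⟨t, ht⟩ : ∃ t, t = rv hF P θ := ⟨_, rfl⟩
      have hv1 : rv hF P (1 : F) = 1 := by
        unfold rv
        rw [vl_one, Complex.one_re]
      have h1θ : rv hF P (1 - θ) = 1 - t := by
        rw [rv_sub hF P.ring.one_mem (hθreg P hPS), hv1, ht]
      have hEr : E0 * (1 - θ) ^ (2 * (K + 1)) ∈ P.ring :=
        P.ring.mul_mem _ _ (hE0reg P hPS) (hθ1reg P hPS _)
      have hEσ : s.σ (E0 * (1 - θ) ^ (2 * (K + 1))) = E0 * (1 - θ) ^ (2 * (K + 1)) := by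
        rw [map_mul, hE0σ, hθ1σ]
      have h1σ : s.σ (1 - θ) = 1 - θ := by rw [map_sub, map_one, hθσ]
      have hEv : rv hF P (E0 * (1 - θ) ^ (2 * (K + 1))) = rv hF P E0 * (1 - t) ^ (2 * (K + 1)) := by
        rw [rv_mul s hF hP (hE0reg P hPS) (hθ1reg P hPS _) hE0σ (hθ1σ _),
          rv_pow s hF hP (sub_mem P.ring.one_mem (hθreg P hPS)) h1σ, h1θ]
      have hE0nn : 0 ≤ rv hF P E0 := by
        rw [hE0, rv_sum hF _ _ fun Q hQ => pow_mem (hereg Q hQ P hPS) 2]
        refine Finset.sum_nonneg fun Q hQ => ?_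
        rw [rv_pow s hF hP (hereg Q hQ P hPS) (heσ Q hQ)]
        exact sq_nonneg _
      have hE0le : rv hF P E0 ≤ 1 + K * t := by
        have h2 := hCb P hP
        have h3 : rv hF P ((E0 - 1) / θ) ≤ K := by
          refine (Complex.re_le_norm _).trans (h2.trans hK)
        have h4 : E0 = 1 + (E0 - 1) / θ * θ := by
          rw [div_mul_cancel₀ _ hθ0]
          ring
        have hfσ : s.σ ((E0 - 1) / θ) = (E0 - 1) / θ := by
          rw [map_div₀, map_sub, map_one, hE0σ, hθσ]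
        have h5 : rv hF P E0 = 1 + rv hF P ((E0 - 1) / θ) * t := by
          have h6 : rv hF P (1 + (E0 - 1) / θ * θ) = 1 + rv hF P ((E0 - 1) / θ) * t := by
            rw [rv_add hF P.ring.one_mem (P.ring.mul_mem _ _ (hfreg P hP) (hθreg P hPS)), hv1,
              rv_mul s hF hP (hfreg P hP) (hθreg P hPS) hfσ hθσ, ht]
          rw [← h4] at h6
          exact h6
        rw [h5]
        rw [← ht] at ht0
        nlinarith
      rw [← ht] at ht0 ht1
      have hE1 : rv hF P (E0 * (1 - θ) ^ (2 * (K + 1))) ≤ 1 - t := by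
        rw [hEv]
        exact (mul_le_mul_of_nonneg_right hE0le (pow_nonneg (by linarith) _)).trans (bern50 K ht0 ht1)
      have hE2 : 0 ≤ rv hF P (E0 * (1 - θ) ^ (2 * (K + 1))) := by
        rw [hEv]
        exact mul_nonneg hE0nn (pow_nonneg (by linarith) _)
      have hnum : 1 - (E0 * (1 - θ) ^ (2 * (K + 1))) ^ 2 ∈ P.ring := sub_mem P.ring.one_mem (pow_mem hEr 2)
      have hnumσ : s.σ (1 - (E0 * (1 - θ) ^ (2 * (K + 1))) ^ 2) = 1 - (E0 * (1 - θ) ^ (2 * (K + 1))) ^ 2 := by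
        rw [map_sub, map_one, map_pow, hEσ]
      have hG : (1 - (E0 * (1 - θ) ^ (2 * (K + 1))) ^ 2) / θ ∈ P.ring := by
        rw [div_eq_mul_inv]
        exact P.ring.mul_mem _ _ hnum hinv
      have hGσ : s.σ ((1 - (E0 * (1 - θ) ^ (2 * (K + 1))) ^ 2) / θ) =
          (1 - (E0 * (1 - θ) ^ (2 * (K + 1))) ^ 2) / θ := by
        rw [map_div₀, hnumσ, hθσ]
      refine ⟨hG, ?_⟩
      have h7 : rv hF P ((1 - (E0 * (1 - θ) ^ (2 * (K + 1))) ^ 2) / θ) * t =
          1 - rv hF P (E0 * (1 - θ) ^ (2 * (K + 1))) ^ 2 := by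
        rw [ht, ← rv_mul s hF hP hG (hθreg P hPS) hGσ hθσ, div_mul_cancel₀ _ hθ0,
          rv_sub hF P.ring.one_mem (pow_mem hEr 2), hv1, rv_pow s hF hP hEr hEσ]
      have h8 : t ≤ 1 - rv hF P (E0 * (1 - θ) ^ (2 * (K + 1))) ^ 2 := by nlinarith
      rw [← h7] at h8
      by_contra hcon
      push Not at hcon
      nlinarith

end Pool.Agent.Helper10.GN
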