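import Pool.Agent.Helper10.GN.Rlp

set_option autoImplicit false

/-!
# Project GN, block FAC: the factorisation of a polynomial `g ≤ 0`

`exists_fac`: let `g ≤ 0` everywhere, `g ≠ 0`. By induction on the total degree: if `g` has a sign-changing irreducible factor `p`, then
`p² ∣ g` (`p_sq_dvd` for `-g`), and `g / p² ≤ 0` (`psd_quot`). So `-g = Q² h₀` with `Q` a product of sign-changing irreducible
polynomials, `h₀ ≥ 0` without sign-changing irreducible factors. Group associated factors of `Q`: `Q = c ∏_{i < n} p_i^(a_i)` with pairwise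
non-associated `p_i`, `a_i ≥ 1`, `c` a nonzero constant; put `c²` into `h₀`. (Alternatively choose the family first: the finitely many
classes of sign-changing irreducible factors of `g`.)
`unit_eval`: an associated polynomial is a constant multiple.
-/

namespace Pool.Agent.Helper10.GN

open VC FF MvPolynomial Pool.Agent.Helper68.QM

private theorem deg_pos {r : A} (hsc : SC r) : 0 < r.totalDegree := by
  rw [pos_iff_ne_zero]
  intro h
  rw [totalDegree_eq_zero_iff_eq_C] at h
  obtain ⟨⟨z₁, h1⟩, ⟨z₂, h2⟩⟩ := hsc
  rw [h, eval_C] at h1 h2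
  linarith

private theorem fac_aux (N : ℕ) : ∀ h : A, h.totalDegree ≤ N → (∀ z : Fin 2 → ℝ, 0 ≤ eval z h) → h ≠ 0 →
    ∃ (n : ℕ) (p : Fin n → A) (a : Fin n → ℕ) (h₀ : A), Fam p ∧ (∀ i, 1 ≤ a i) ∧
      h = (∏ i, p i ^ a i) ^ 2 * h₀ ∧ (∀ z : Fin 2 → ℝ, 0 ≤ eval z h₀) ∧
      ∀ r : A, Irreducible r → SC r → ¬ r ∣ h₀ := by
  induction N with
  | zero =>
    intro h hN hh h0
    refine ⟨0, Fin.elim0, Fin.elim0, h, ⟨fun i => i.elim0, fun i => i.elim0, fun i => i.elim0⟩,
      fun i => i.elim0, by simp, hh, ?_⟩
    rintro r hr hsc ⟨k, hk⟩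
    have hk0 : k ≠ 0 := by
      rintro rfl
      exact h0 (by rw [hk, mul_zero])
    have h1 := totalDegree_mul_of_isDomain hr.ne_zero hk0
    rw [← hk] at h1
    have h2 := deg_pos hsc
    omega
  | succ N ih =>
    intro h hN hh h0
    by_cases hex : ∃ r : A, Irreducible r ∧ SC r ∧ r ∣ h
    · obtain ⟨r, hr, hsc, hd⟩ := hex
      obtain ⟨k, hk⟩ := p_sq_dvd hr hsc hh hd
      have hk0 : k ≠ 0 := by
        rintro rfl
        exact h0 (by rw [hk, mul_zero])
      have hkpos := psd_quot hr.ne_zero hk hh
      have hdeg : k.totalDegree ≤ N := by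
        have h1 := totalDegree_mul_of_isDomain (pow_ne_zero 2 hr.ne_zero) hk0
        have h3 := totalDegree_mul_of_isDomain hr.ne_zero hr.ne_zero
        rw [← hk, pow_two, h3] at h1
        have h2 := deg_pos hsc
        omega
      obtain ⟨n, p, a, h₀, hfam, ha, hfac, hpos, hno⟩ := ih k hdeg hkpos hk0
      by_cases has : ∃ i, Associated (p i) r
      · obtain ⟨i, u, hu⟩ := has
        refine ⟨n, p, Function.update a i (a i + 1), (u : A) ^ 2 * h₀, hfam, ?_, ?_, ?_, ?_⟩
        · intro j
          rcases eq_or_ne j i with rfl | hj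
          · rw [Function.update_self]
            omega
          · rw [Function.update_of_ne hj]
            exact ha j
        · have h1 : ∏ j, p j ^ Function.update a i (a i + 1) j = (∏ j, p j ^ a j) * p i := by
            rw [← Finset.mul_prod_erase Finset.univ _ (Finset.mem_univ i),
              ← Finset.mul_prod_erase Finset.univ (fun j => p j ^ a j) (Finset.mem_univ i),
              Function.update_self]
            have h2 : ∏ j ∈ Finset.univ.erase i, p j ^ Function.update a i (a i + 1) j =
                ∏ j ∈ Finset.univ.erase i, p j ^ a j := by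
              refine Finset.prod_congr rfl fun j hj => ?_
              rw [Function.update_of_ne (Finset.ne_of_mem_erase hj)]
            rw [h2, pow_succ]
            ring
          rw [h1, hk, hfac, ← hu]
          ring
        · intro z
          rw [map_mul, map_pow]
          exact mul_nonneg (sq_nonneg _) (hpos z)
        · intro r' hr' hsc' hd'
          have hu2 : IsUnit ((u : A) ^ 2) := u.isUnit.pow 2
          exact hno r' hr' hsc' ((hu2.dvd_mul_left).1 hd')
      · push Not at has
        refine ⟨n + 1, Fin.cons r p, Fin.cons 1 a, h₀, ⟨?_, ?_, ?_⟩, ?_, ?_, hpos, hno⟩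
        · intro i
          refine Fin.cases ?_ (fun i => ?_) i
          · exact hr
          · exact hfam.irr i
        · intro i
          refine Fin.cases ?_ (fun i => ?_) i
          · exact hsc
          · exact hfam.sc i
        · intro i j
          refine Fin.cases ?_ (fun i => ?_) i
          · refine Fin.cases ?_ (fun j => ?_) j
            · intro h
              exact absurd rfl h
            · intro _ h
              rw [Fin.cons_zero, Fin.cons_succ] at h
              exact has j h.symm
          · refine Fin.cases ?_ (fun j => ?_) j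
            · intro _ h
              rw [Fin.cons_zero, Fin.cons_succ] at h
              exact has i h
            · intro hij
              rw [Fin.cons_succ, Fin.cons_succ]
              exact hfam.na i j fun h => hij (by rw [h])
        · intro i
          refine Fin.cases ?_ (fun i => ?_) i
          · exact le_refl 1
          · exact ha i
        · rw [Fin.prod_univ_succ, hk, hfac]
          simp only [Fin.cons_zero, Fin.cons_succ]
          ring
    · push Not at hex
      exact ⟨0, Fin.elim0, Fin.elim0, h, ⟨fun i => i.elim0, fun i => i.elim0, fun i => i.elim0⟩,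
        fun i => i.elim0, by simp, hh, hex⟩

theorem exists_fac {g : A} (hg : ∀ z : Fin 2 → ℝ, eval z g ≤ 0) (h0 : g ≠ 0) :
    ∃ (n : ℕ) (p : Fin n → A) (a : Fin n → ℕ) (h₀ : A), Fam p ∧ (∀ i, 1 ≤ a i) ∧
      g = - ((∏ i, p i ^ a i) ^ 2 * h₀) ∧ (∀ z : Fin 2 → ℝ, 0 ≤ eval z h₀) ∧
      ∀ r : A, Irreducible r → SC r → ¬ r ∣ h₀ := by
  obtain ⟨n, p, a, h₀, h1, h2, h3, h4, h5⟩ := fac_aux _ (-g) le_rfl (fun z => by
    rw [map_neg]
    linarith [hg z]) (neg_ne_zero.2 h0)
  exact ⟨n, p, a, h₀, h1, h2, by rw [← h3, neg_neg], h4, h5⟩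

end Pool.Agent.Helper10.GN
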