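import Pool.Agent.Helper10.GN.Jet

set_option autoImplicit false

/-!
# Project GN, block JTD: bad singular points with definite Hessian

`Sg p z`, `hess p z > 0`: the second order part of `p` at `z` is definite, so `z` is an isolated zero: `p(w) = q₂(w - z) + O(|w - z|³)`, `|q₂(v)| ≥ c |v|²`. So for small
`r` the only real zero of `p` in the ball is `z`. Take `j = X 0 - C (z 0)`; `jet_lin` with `i = 0`.
(Taylor: a polynomial is the sum of its Taylor coefficients; e.g. substitute `X i + C (z i)` and split the finite sum of monomials by degree; monomials of degree `≥ 3` are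
`≤ |v|³` in absolute value for `|v| ≤ 1`.)
-/

namespace Pool.Agent.Helper10.GN

open VC FF MvPolynomial Pool.Agent.Helper68.QM

/-- the second order Taylor polynomial of `f` at `z`, at the point `w` -/
private noncomputable def tay_h44 (f : A) (z w : Fin 2 → ℝ) : ℝ :=
  eval z f + (eval z (pderiv 0 f) * (w 0 - z 0) + eval z (pderiv 1 f) * (w 1 - z 1)) +
    (eval z (pderiv 0 (pderiv 0 f)) * (w 0 - z 0) ^ 2 +
      2 * eval z (pderiv 0 (pderiv 1 f)) * ((w 0 - z 0) * (w 1 - z 1)) +
      eval z (pderiv 1 (pderiv 1 f)) * (w 1 - z 1) ^ 2) / 2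

private lemma taylor_h44 (z : Fin 2 → ℝ) (f : A) :
    ∃ K : ℝ, 0 ≤ K ∧ ∀ w : Fin 2 → ℝ, ∀ d : ℝ, |w 0 - z 0| ≤ d → |w 1 - z 1| ≤ d → d ≤ 1 →
      |eval w f - tay_h44 f z w| ≤ K * d ^ 3 := by
  induction f using MvPolynomial.induction_on with
  | C a =>
    refine ⟨0, le_refl _, fun w d _ _ _ => ?_⟩
    have h : eval w (C a : A) - tay_h44 (C a) z w = 0 := by
      simp only [tay_h44, pderiv_C, map_zero, eval_C]
      ring
    rw [h, abs_zero, zero_mul]
  | add f g hf hg =>
    obtain ⟨K, hK, h1⟩ := hf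
    obtain ⟨L, hL, h2⟩ := hg
    refine ⟨K + L, add_nonneg hK hL, fun w d ha hb hd => ?_⟩
    have h3 := h1 w d ha hb hd
    have h4 := h2 w d ha hb hd
    have h5 : eval w (f + g) - tay_h44 (f + g) z w =
        (eval w f - tay_h44 f z w) + (eval w g - tay_h44 g z w) := by
      simp only [tay_h44, map_add]
      ring
    rw [h5, add_mul]
    exact (abs_add_le _ _).trans (add_le_add h3 h4)
  | mul_X f n hf =>
    obtain ⟨K, hK, h1⟩ := hf
    set a := eval z (pderiv 0 (pderiv 0 f)) with ha
    set b := eval z (pderiv 0 (pderiv 1 f)) with hb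
    set c := eval z (pderiv 1 (pderiv 1 f)) with hc
    refine ⟨K * |z n| + K + (|a| + 2 * |b| + |c|) / 2, by positivity, fun w d h0 h1' hd => ?_⟩
    have h3 := h1 w d h0 h1' hd
    have hd0 : 0 ≤ d := (abs_nonneg _).trans h0
    set x := w 0 - z 0 with hx
    set y := w 1 - z 1 with hy
    have hn : |w n - z n| ≤ d := by
      fin_cases n
      · exact h0
      · exact h1'
    have h5 : eval w (f * X n) - tay_h44 (f * X n) z w =
        (eval w f - tay_h44 f z w) * z n + (eval w f - tay_h44 f z w) * (w n - z n) +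
          (a * x ^ 2 + 2 * b * (x * y) + c * y ^ 2) / 2 * (w n - z n) := by
      fin_cases n
      · simp only [tay_h44, pderiv_mul, map_add, map_mul, eval_X, pderiv_X_self, Fin.zero_eta,
          Fin.isValue, mul_one, mul_zero, add_zero,
          pderiv_X_of_ne (show (0 : Fin 2) ≠ 1 by decide), ← ha, ← hb, ← hc, ← hx, ← hy]
        have e1 : w 0 = x + z 0 := by rw [hx]; ring
        rw [e1]
        ring
      · simp only [tay_h44, pderiv_mul, map_add, map_mul, eval_X, pderiv_X_self, Fin.mk_one,
          Fin.isValue, mul_one, mul_zero, add_zero,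
          pderiv_X_of_ne (show (1 : Fin 2) ≠ 0 by decide), ← ha, ← hb, ← hc, ← hx, ← hy]
        have e1 : w 1 = y + z 1 := by rw [hy]; ring
        rw [e1]
        ring
    rw [h5]
    have hq : |(a * x ^ 2 + 2 * b * (x * y) + c * y ^ 2) / 2| ≤
        (|a| + 2 * |b| + |c|) / 2 * d ^ 2 := by
      have hx2 : |x| * |x| ≤ d * d := mul_self_le_mul_self (abs_nonneg _) h0
      have hy2 : |y| * |y| ≤ d * d := mul_self_le_mul_self (abs_nonneg _) h1'
      have hxy : |x| * |y| ≤ d * d := mul_le_mul h0 h1' (abs_nonneg _) hd0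
      have i1 : |a * x ^ 2| ≤ |a| * (d * d) := by
        rw [abs_mul, pow_two, abs_mul]
        exact mul_le_mul_of_nonneg_left hx2 (abs_nonneg _)
      have i2 : |2 * b * (x * y)| ≤ 2 * |b| * (d * d) := by
        rw [abs_mul, abs_mul, abs_mul, abs_two]
        exact mul_le_mul_of_nonneg_left hxy (by positivity)
      have i3 : |c * y ^ 2| ≤ |c| * (d * d) := by
        rw [abs_mul, pow_two, abs_mul]
        exact mul_le_mul_of_nonneg_left hy2 (abs_nonneg _)
      rw [abs_div, abs_two]
      have i4 := (abs_add_le (a * x ^ 2 + 2 * b * (x * y)) (c * y ^ 2)).trans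
        (add_le_add ((abs_add_le _ _).trans (add_le_add i1 i2)) i3)
      calc _ ≤ (|a| * (d * d) + 2 * |b| * (d * d) + |c| * (d * d)) / 2 := by
            exact div_le_div_of_nonneg_right i4 (by norm_num)
        _ = _ := by ring
    have j1 : |(eval w f - tay_h44 f z w) * z n| ≤ K * d ^ 3 * |z n| := by
      rw [abs_mul]
      exact mul_le_mul_of_nonneg_right h3 (abs_nonneg _)
    have j2 : |(eval w f - tay_h44 f z w) * (w n - z n)| ≤ K * d ^ 3 := by
      rw [abs_mul]
      have : |w n - z n| ≤ 1 := hn.trans hd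
      calc _ ≤ K * d ^ 3 * 1 := mul_le_mul h3 this (abs_nonneg _) (by positivity)
        _ = _ := mul_one _
    have j3 : |(a * x ^ 2 + 2 * b * (x * y) + c * y ^ 2) / 2 * (w n - z n)| ≤
        (|a| + 2 * |b| + |c|) / 2 * d ^ 3 := by
      rw [abs_mul]
      calc _ ≤ (|a| + 2 * |b| + |c|) / 2 * d ^ 2 * d :=
            mul_le_mul hq hn (abs_nonneg _) (by positivity)
        _ = _ := by ring
    have j4 := (abs_add_le ((eval w f - tay_h44 f z w) * z n +
      (eval w f - tay_h44 f z w) * (w n - z n))
      ((a * x ^ 2 + 2 * b * (x * y) + c * y ^ 2) / 2 * (w n - z n))).trans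
      (add_le_add ((abs_add_le _ _).trans (add_le_add j1 j2)) j3)
    calc _ ≤ _ := j4
      _ = _ := by ring

theorem jet_definite {p : A} {z : Fin 2 → ℝ} (hp : Sg p z) (hh : 0 < hess p z) : Jet p z := by
  obtain ⟨K, hK, hT⟩ := taylor_h44 z p
  set a := eval z (pderiv 0 (pderiv 0 p)) with ha
  set b := eval z (pderiv 0 (pderiv 1 p)) with hb
  set c := eval z (pderiv 1 (pderiv 1 p)) with hc
  have hD : 0 < a * c - b ^ 2 := hh
  set D := a * c - b ^ 2 with hDd
  set M := 2 * (|a| + |c|) * K + 1 with hM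
  have hM0 : 0 < M := by positivity
  refine ⟨X 0 - C (z 0), by simp, ⟨min 1 (D / M), by positivity, ?_⟩, ?_⟩
  · intro w hw hd
    rw [lt_min_iff] at hd
    set d := dist w z with hdd
    have hd0 : 0 ≤ d := dist_nonneg
    have h0 : |w 0 - z 0| ≤ d := by
      rw [← Real.dist_eq]
      exact dist_le_pi_dist w z 0
    have h1 : |w 1 - z 1| ≤ d := by
      rw [← Real.dist_eq]
      exact dist_le_pi_dist w z 1
    have h2 := hT w d h0 h1 hd.1.le
    simp only [tay_h44, hp.1, hp.2, hw, zero_mul, add_zero, zero_add, zero_sub, abs_neg,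
      ← ha, ← hb, ← hc] at h2
    set x := w 0 - z 0 with hx
    set y := w 1 - z 1 with hy
    set q := a * x ^ 2 + 2 * b * (x * y) + c * y ^ 2 with hq
    have hq2 : |q| ≤ 2 * K * d ^ 3 := by
      rw [abs_div, abs_two] at h2
      have := (div_le_iff₀ (by norm_num : (0 : ℝ) < 2)).1 h2
      linarith
    have e1 : a * q = (a * x + b * y) ^ 2 + D * y ^ 2 := by rw [hq, hDd]; ring
    have e2 : c * q = (b * x + c * y) ^ 2 + D * x ^ 2 := by rw [hq, hDd]; ring
    have f1 : D * y ^ 2 ≤ (|a| + |c|) * |q| := by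
      have : a * q ≤ |a| * |q| := by rw [← abs_mul]; exact le_abs_self _
      nlinarith [sq_nonneg (a * x + b * y), mul_nonneg (abs_nonneg c) (abs_nonneg q)]
    have f2 : D * x ^ 2 ≤ (|a| + |c|) * |q| := by
      have : c * q ≤ |c| * |q| := by rw [← abs_mul]; exact le_abs_self _
      nlinarith [sq_nonneg (b * x + c * y), mul_nonneg (abs_nonneg a) (abs_nonneg q)]
    have f3 : D * d ^ 2 ≤ (|a| + |c|) * |q| := by
      have hmax : d = |x| ∨ d = |y| := by
        rcases le_total |x| |y| with hle | hle
        · right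
          apply le_antisymm _ h1
          rw [hdd, dist_pi_le_iff (abs_nonneg _)]
          intro i
          fin_cases i
          · exact hle
          · exact le_refl _
        · left
          apply le_antisymm _ h0
          rw [hdd, dist_pi_le_iff (abs_nonneg _)]
          intro i
          fin_cases i
          · exact le_refl _
          · exact hle
      rcases hmax with h | h
      · rw [h, sq_abs]; exact f2
      · rw [h, sq_abs]; exact f1
    have f4 : D * d ^ 2 ≤ 2 * (|a| + |c|) * K * d ^ 3 := by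
      calc _ ≤ (|a| + |c|) * |q| := f3
        _ ≤ (|a| + |c|) * (2 * K * d ^ 3) := mul_le_mul_of_nonneg_left hq2 (by positivity)
        _ = _ := by ring
    have hdz : d = 0 := by
      by_contra hne
      have hdpos : 0 < d := lt_of_le_of_ne hd0 (Ne.symm hne)
      have g1 : d * M < D := (lt_div_iff₀ hM0).1 hd.2
      have g2 : d * M * d ^ 2 < D * d ^ 2 := mul_lt_mul_of_pos_right g1 (by positivity)
      have g3 : 0 < d ^ 3 := by positivity
      have g4 : d * M * d ^ 2 = 2 * (|a| + |c|) * K * d ^ 3 + d ^ 3 := by rw [hM]; ring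
      linarith
    have hwz : w = z := dist_eq_zero.1 hdz
    rw [hwz]
    simp
  · intro n cc u
    refine jet_lin hp (by simp) (i := 0) ?_ n cc u
    simp

end Pool.Agent.Helper10.GN
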