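import Pool.Agent.Helper10.GN.Jet

set_option autoImplicit false

/-!
# Project GN, block JTM: singular points of multiplicity at least three

`Sg p z`, all second partial derivatives of `p` at `z` vanish, `p ≠ 0`. Let `p(z + v) = p_m(v) + (terms of degree ≥ m + 1)`, `p_m ≠ 0` homogeneous of degree `m ≥ 3`. Choose a unit
vector `v₀` with `p_m(v₀) ≠ 0`, and `λ > 1` such that `p_m ≠ 0` on the compact set `{|v| = 1, (v₀·v)² ≥ 1/λ}` (near `± v₀`, continuity). There
`|p_m(v)| ≥ c > 0`, so `|p_m(v)| ≥ c |v|^m` on the cone `{(v₀·v)² ≥ |v|²/λ}`, and `p(z + v) ≠ 0` for small `v ≠ 0` in the cone. So for real zeros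
`w = z + v` of `p` near `z`: `(v₀·v)² ≤ |v|²/λ`, i.e. `j(w) ≥ 0` for `j = |w - z|² - λ (v₀·(w - z))²`. `j` and its first derivatives vanish at `z` and its second derivative in the direction
`v₀` is `2 (1 - λ) < 0`: `jet_quad`.
-/

namespace Pool.Agent.Helper10.GN

open VC FF MvPolynomial Pool.Agent.Helper68.QM

/-- A polynomial vanishing on the line `x = 0` is divisible by `x`. -/
private theorem x_dvd {g : A} (h : ∀ c : ℝ, eval ![0, c] g = 0) : (X 0 : A) ∣ g := by
  let φ : A →ₐ[ℝ] A := aeval ![0, X 1]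
  have h1 : φ g = 0 := by
    apply MvPolynomial.funext
    intro w
    rw [map_zero]
    have e1 : eval w (φ g) = eval ![0, w 1] g := by
      have h2 : (eval w).comp φ.toRingHom = eval ![0, w 1] := by
        apply MvPolynomial.ringHom_ext
        · intro r
          simp
        · intro i
          fin_cases i
          · simp [φ]
          · simp [φ]
      exact congrArg (fun ψ => ψ g) h2
    rw [e1]
    exact h _
  have h2 : (Ideal.Quotient.mkₐ ℝ (Ideal.span {(X 0 : A)})).comp φ =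
      Ideal.Quotient.mkₐ ℝ (Ideal.span {(X 0 : A)}) := by
    apply MvPolynomial.algHom_ext
    intro i
    fin_cases i
    · change Ideal.Quotient.mk _ (φ (X 0)) = Ideal.Quotient.mk _ (X 0)
      rw [Ideal.Quotient.mk_eq_mk_iff_sub_mem]
      change aeval ![0, X 1] (X 0 : A) - X 0 ∈ _
      rw [aeval_X, Ideal.mem_span_singleton]
      exact ⟨-1, by simp⟩
    · change Ideal.Quotient.mk _ (φ (X 1)) = Ideal.Quotient.mk _ (X 1)
      congr 1
      change aeval ![0, X 1] (X 1 : A) = X 1
      rw [aeval_X]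
      rfl
  have h3 := congrArg (fun ψ => ψ g) h2
  have h4 : Ideal.Quotient.mk (Ideal.span {(X 0 : A)}) (φ g) =
      Ideal.Quotient.mk (Ideal.span {(X 0 : A)}) g := h3
  rw [h1, map_zero] at h4
  rw [← Ideal.mem_span_singleton]
  exact Ideal.Quotient.eq_zero_iff_mem.mp h4.symm

theorem jet_mult {p : A} (hp0 : p ≠ 0) {z : Fin 2 → ℝ} (hp : Sg p z)
    (hp2 : ∀ i k, eval z (pderiv i (pderiv k p)) = 0) : Jet p z := by
  let φ : A := aeval ![C (z 0) + X 0, C (z 1) + X 0 * X 1] p
  have hφ : ∀ a : Fin 2 → ℝ, eval a φ = eval ![z 0 + a 0, z 1 + a 0 * a 1] p := by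
    intro a
    have h1 : (eval a).comp (aeval ![C (z 0) + X 0, C (z 1) + X 0 * X 1] : A →ₐ[ℝ] A).toRingHom =
        eval ![z 0 + a 0, z 1 + a 0 * a 1] := by
      apply MvPolynomial.ringHom_ext
      · intro r
        simp
      · intro i
        fin_cases i
        · simp
        · simp
    exact congrArg (fun ψ => ψ p) h1
  have hφ0 : φ ≠ 0 := by
    intro h0
    have h1 : p * (X 0 - C (z 0)) = 0 := by
      apply MvPolynomial.funext
      intro w
      rw [map_zero, map_mul, map_sub, eval_X, eval_C]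
      by_cases hw : w 0 - z 0 = 0
      · rw [hw, mul_zero]
      · have h2 := hφ ![w 0 - z 0, (w 1 - z 1) / (w 0 - z 0)]
        rw [h0, map_zero] at h2
        have h3 : (![z 0 + (![w 0 - z 0, (w 1 - z 1) / (w 0 - z 0)] : Fin 2 → ℝ) 0,
            z 1 + (![w 0 - z 0, (w 1 - z 1) / (w 0 - z 0)] : Fin 2 → ℝ) 0 *
              (![w 0 - z 0, (w 1 - z 1) / (w 0 - z 0)] : Fin 2 → ℝ) 1] : Fin 2 → ℝ) = w := by
          funext i
          fin_cases i
          · simp
          · simp
            field_simp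
            ring
        rw [h3] at h2
        rw [← h2, zero_mul]
    rcases mul_eq_zero.mp h1 with h2 | h2
    · exact hp0 h2
    · have h3 := congrArg (eval ![z 0 + 1, 0]) h2
      simp at h3
  have hirr : ¬ IsUnit (X 0 : A) := by
    intro h
    have h1 := h.map (eval (0 : Fin 2 → ℝ))
    simp at h1
  obtain ⟨m, g, hg, hφg⟩ := WfDvdMonoid.max_power_factor' hφ0 hirr
  obtain ⟨c, hc⟩ : ∃ c : ℝ, eval ![0, c] g ≠ 0 := by
    by_contra hcon
    push Not at hcon
    exact hg (x_dvd hcon)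
  have hcont : ∀ᶠ a in nhds (![0, c] : Fin 2 → ℝ), eval a g ≠ 0 :=
    (MvPolynomial.continuous_eval g).continuousAt.eventually_ne hc
  obtain ⟨ε, hε, hεg⟩ := Metric.eventually_nhds_iff.mp hcont
  let j : A := (X 1 - C (z 1) - C c * (X 0 - C (z 0))) ^ 2 - C (ε ^ 2) * (X 0 - C (z 0)) ^ 2
  have hj : ∀ w, eval w j = (w 1 - z 1 - c * (w 0 - z 0)) ^ 2 - ε ^ 2 * (w 0 - z 0) ^ 2 := by
    intro w
    simp [j]
  have hd0 : pderiv 0 j = C (-2 * c) * (X 1 - C (z 1) - C c * (X 0 - C (z 0))) -
      C (2 * ε ^ 2) * (X 0 - C (z 0)) := by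
    simp only [j, map_sub, Derivation.leibniz_pow, Derivation.leibniz, pderiv_C, pderiv_X_self,
      smul_eq_mul, pderiv_X_of_ne (show (1 : Fin 2) ≠ 0 by decide), nsmul_eq_mul, map_mul, map_neg,
      map_ofNat]
    ring
  have hd1 : pderiv 1 j = C 2 * (X 1 - C (z 1) - C c * (X 0 - C (z 0))) := by
    simp only [j, map_sub, Derivation.leibniz_pow, Derivation.leibniz, pderiv_C, pderiv_X_self,
      smul_eq_mul, pderiv_X_of_ne (show (0 : Fin 2) ≠ 1 by decide), nsmul_eq_mul, map_ofNat]
    ring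
  have hj0 : eval z j = 0 := by
    rw [hj]
    ring
  refine ⟨j, hj0, ⟨ε, hε, fun w hw hwz => ?_⟩, fun n e u => ?_⟩
  · by_contra hneg
    rw [not_le, hj] at hneg
    have hs : |w 0 - z 0| < ε := by
      have := dist_le_pi_dist w z 0
      rw [Real.dist_eq] at this
      exact lt_of_le_of_lt this hwz
    have hs0 : w 0 - z 0 ≠ 0 := by
      intro h0
      rw [h0] at hneg
      nlinarith [sq_nonneg (w 1 - z 1 - c * 0)]
    have hspos : 0 < (w 0 - z 0) ^ 2 := by positivity
    have hy : |(w 1 - z 1) / (w 0 - z 0) - c| < ε := by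
      rw [← sq_lt_sq₀ (abs_nonneg _) hε.le, sq_abs]
      have e1 : (w 1 - z 1) / (w 0 - z 0) - c = (w 1 - z 1 - c * (w 0 - z 0)) / (w 0 - z 0) := by
        field_simp
      rw [e1, div_pow, div_lt_iff₀ hspos]
      linarith
    have h1 : eval ![w 0 - z 0, (w 1 - z 1) / (w 0 - z 0)] g ≠ 0 := by
      apply hεg
      rw [dist_pi_lt_iff hε]
      intro i
      fin_cases i
      · simpa [Real.dist_eq] using hs
      · simpa [Real.dist_eq] using hy
    have h2 := hφ ![w 0 - z 0, (w 1 - z 1) / (w 0 - z 0)]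
    have h3 : (![z 0 + (![w 0 - z 0, (w 1 - z 1) / (w 0 - z 0)] : Fin 2 → ℝ) 0,
        z 1 + (![w 0 - z 0, (w 1 - z 1) / (w 0 - z 0)] : Fin 2 → ℝ) 0 *
          (![w 0 - z 0, (w 1 - z 1) / (w 0 - z 0)] : Fin 2 → ℝ) 1] : Fin 2 → ℝ) = w := by
      funext i
      fin_cases i
      · simp
      · simp
        field_simp
        ring
    rw [h3, hw, hφg, map_mul, map_pow, eval_X] at h2
    rcases mul_eq_zero.mp h2 with h4 | h4
    · exact absurd h4 (pow_ne_zero m hs0)
    · exact h1 h4
  · refine jet_quad hp hp2 hj0 ?_ ![1, c] ?_ n e u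
    · intro i
      fin_cases i
      · change eval z (pderiv 0 j) = 0
        rw [hd0]
        simp
      · change eval z (pderiv 1 j) = 0
        rw [hd1]
        simp
    · rw [Fin.sum_univ_two, Fin.sum_univ_two, Fin.sum_univ_two, hd0, hd1]
      simp only [map_sub, Derivation.leibniz, pderiv_C, pderiv_X_self, smul_eq_mul,
        pderiv_X_of_ne (show (0 : Fin 2) ≠ 1 by decide),
        pderiv_X_of_ne (show (1 : Fin 2) ≠ 0 by decide), map_mul, map_neg, eval_C, map_zero,
        map_one, Matrix.cons_val_zero, Matrix.cons_val_one, map_add, eval_X]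
      nlinarith [hε, sq_nonneg ε, mul_pos hε hε]

end Pool.Agent.Helper10.GN
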