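import Pool.Agent.Helper10.GN.Jet

set_option autoImplicit false

/-!
# Project GN, block JTR: bad singular points with Hessian of rank one

`Sg p z`, `hess p z = 0`, the second derivatives not all zero. After replacing `p` by `c p`, `c ≠ 0` (same zeros, same ideal), and with orthonormal linear coordinates
`ℓ = α (X 0 - z 0) + β (X 1 - z 1)`, `m = - β (X 0 - z 0) + α (X 1 - z 1)`, `α² + β² = 1`: the second order part is `ℓ²` and
`p = ℓ² + a m³ + ℓ A₂ + A₄` where `a` is real, `A₂` has terms of degree `≥ 2` and `A₄` of degree `≥ 4` in `(ℓ, m)` (write `p(z + ·)` as a polynomial in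
`ℓ, m`; the only term of degree `3` without `ℓ` is `a m³`; all other terms of degree `≥ 3` contain `ℓ` or have degree `≥ 4`).
Let `w` be a real zero of `p` near `z` (`ρ² = ℓ² + m²` small), `|A₂| ≤ K ρ²`, `|A₄| ≤ K ρ⁴`: `ℓ² + ℓ A₂ + a m³ + A₄ = 0`.
From `|ℓ| K ρ² ≤ |ℓ| K ℓ² + |ℓ| K m²  ≤ ℓ²/8 + ℓ²/8 + 2 K² m⁴` (for small `ρ`) and `K ρ⁴ ≤ ℓ²/4 + 2 K m⁴` (small `ρ`):
(*) `ℓ²/2 + a m³ ≤ K' m⁴`. If `a = 0`: also from `-`(...): `ℓ² ≤ |ℓ| K ρ² + K ρ⁴` gives `ℓ² ≤ K'' m⁴`, so `ℓ + M m² ≥ 0` with `M = √K''`: `j = ℓ + M m²`. If `a ≠ 0`: (*)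
gives `a m³ ≤ K' m⁴`, so if `a m > 0` then `|a| ≤ K' |m|`, impossible for small `ρ`: so `- a m ≥ 0`: `j = - a m`. In both cases `j(z) = 0` and `j` has a
nonzero partial derivative at `z`: `jet_lin`.

(Written with linear coordinates which are not orthonormal: `ℓ = (X 0 - z 0) + e (X 1 - z 1)`, `m = X 1 - z 1`, or
`ℓ = X 1 - z 1`, `m = X 0 - z 0`.)
-/

namespace Pool.Agent.Helper10.GN

open VC FF MvPolynomial Pool.Agent.Helper68.QM

private lemma div_33 {l m : A} {z a b : Fin 2 → ℝ}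
    (hX : ∀ i, (X i : A) = C (z i) + C (a i) * l + C (b i) * m) (f : A) :
    ∃ g0 g1 : A, f = C (eval z f) + l * g0 + m * g1 := by
  induction f using MvPolynomial.induction_on with
  | C r => exact ⟨0, 0, by rw [eval_C]; ring⟩
  | add p q hp hq =>
    obtain ⟨g0, g1, h1⟩ := hp
    obtain ⟨g0', g1', h2⟩ := hq
    refine ⟨g0 + g0', g1 + g1', ?_⟩
    rw [map_add, map_add]
    linear_combination h1 + h2
  | mul_X p i hp =>
    obtain ⟨g0, g1, h1⟩ := hp
    refine ⟨C (eval z p) * C (a i) + g0 * X i, C (eval z p) * C (b i) + g1 * X i, ?_⟩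
    rw [map_mul, eval_X, C_mul]
    linear_combination (X i) * h1 + C (eval z p) * hX i

private lemma div0_33 {l m : A} {z a b : Fin 2 → ℝ}
    (hX : ∀ i, (X i : A) = C (z i) + C (a i) * l + C (b i) * m) {f : A} (hf : eval z f = 0) :
    ∃ g0 g1 : A, f = l * g0 + m * g1 := by
  obtain ⟨g0, g1, h⟩ := div_33 hX f
  refine ⟨g0, g1, ?_⟩
  rw [hf, C_0, zero_add] at h
  exact h

/-- the main inequality -/
private lemma ineq_33 {κ K H S W a l m : ℝ} (hκ : 0 < κ) (hH : κ / 2 ≤ H) (hS : |S| ≤ K) (hW : |W| ≤ K)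
    (h : l ^ 2 * H + l * m ^ 2 * S + a * m ^ 3 + m ^ 4 * W = 0) :
    κ / 4 * l ^ 2 + a * m ^ 3 ≤ (K ^ 2 / κ + K) * m ^ 4 := by
  have h1 : 0 ≤ κ / 4 * l ^ 2 + l * m ^ 2 * S + m ^ 4 * (S ^ 2 / κ) := by
    have h2 : κ / 4 * l ^ 2 + l * m ^ 2 * S + m ^ 4 * (S ^ 2 / κ) = (κ * l / 2 + m ^ 2 * S) ^ 2 / κ := by
      field_simp
      ring
    rw [h2]
    positivity
  have h3 : S ^ 2 ≤ K ^ 2 := by
    rw [← sq_abs S]
    exact pow_le_pow_left₀ (abs_nonneg _) hS 2
  have h4 : m ^ 4 * (S ^ 2 / κ) ≤ m ^ 4 * (K ^ 2 / κ) := by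
    apply mul_le_mul_of_nonneg_left _ (by positivity)
    exact (div_le_div_iff_of_pos_right hκ).2 h3
  have h5 : -(m ^ 4 * W) ≤ m ^ 4 * K := by
    have h6 : 0 ≤ m ^ 4 := by positivity
    have h7 : -W ≤ K := le_trans (neg_le_abs W) hW
    nlinarith [mul_le_mul_of_nonneg_left h7 h6]
  have h8 : κ / 2 * l ^ 2 ≤ l ^ 2 * H := by
    nlinarith [mul_le_mul_of_nonneg_left hH (sq_nonneg l)]
  nlinarith

private lemma core_33 {p l m h00 h01 h11 : A} {z a b : Fin 2 → ℝ}
    (hX : ∀ i, (X i : A) = C (z i) + C (a i) * l + C (b i) * m)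
    (hp : Sg p z) (hl : eval z l = 0) (hm : eval z m = 0)
    (hl' : ∃ i, eval z (pderiv i l) ≠ 0) (hm' : ∃ i, eval z (pderiv i m) ≠ 0)
    (h : p = l * l * h00 + l * m * h01 + m * m * h11)
    (h0 : 0 < eval z h00) (h1 : eval z h01 = 0) (h2 : eval z h11 = 0) : Jet p z := by
  obtain ⟨u0, u1, hu⟩ := div0_33 hX h1
  obtain ⟨v0, v1, hv⟩ := div0_33 hX h2
  obtain ⟨w0, w1, hw⟩ := div_33 hX v1
  set α : ℝ := eval z v1 with hα
  set κ : ℝ := eval z h00 with hκ
  obtain ⟨Hp, hHp⟩ : ∃ Hp : A, Hp = h00 + m * u0 := ⟨_, rfl⟩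
  obtain ⟨Sp, hSp⟩ : ∃ Sp : A, Sp = u1 + v0 + m * w0 := ⟨_, rfl⟩
  have hrep : p = l ^ 2 * Hp + l * m ^ 2 * Sp + C α * m ^ 3 + m ^ 4 * w1 := by
    rw [h, hu, hv, hw, hHp, hSp]
    ring
  have hev : ∀ w : Fin 2 → ℝ, eval w p = (eval w l) ^ 2 * eval w Hp + eval w l * (eval w m) ^ 2 * eval w Sp +
      α * (eval w m) ^ 3 + (eval w m) ^ 4 * eval w w1 := by
    intro w
    conv_lhs => rw [hrep]
    simp only [map_add, map_mul, map_pow, eval_C]
  have hc : ∀ f : A, Continuous fun w : Fin 2 → ℝ => eval w f := fun f => MvPolynomial.continuous_eval f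
  have hHz : eval z Hp = κ := by
    rw [hHp, map_add, map_mul, hm, zero_mul, add_zero]
  obtain ⟨K, hK⟩ : ∃ K : ℝ, K = |eval z Sp| + |eval z w1| + 1 := ⟨_, rfl⟩
  have hK0 : 0 < K := by
    rw [hK]
    positivity
  -- near `z`
  have e1 : ∀ᶠ w in nhds z, κ / 2 < eval w Hp :=
    (hc Hp).continuousAt.eventually (lt_mem_nhds (by
      change κ / 2 < eval z Hp
      rw [hHz]
      linarith))
  have e2 : ∀ᶠ w in nhds z, |eval w Sp| < K :=
    ((hc Sp).abs).continuousAt.eventually (gt_mem_nhds (by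
      change |eval z Sp| < K
      rw [hK]
      have := abs_nonneg (eval z w1)
      linarith))
  have e3 : ∀ᶠ w in nhds z, |eval w w1| < K :=
    ((hc w1).abs).continuousAt.eventually (gt_mem_nhds (by
      change |eval z w1| < K
      rw [hK]
      have := abs_nonneg (eval z Sp)
      linarith))
  have hKp : 0 < K ^ 2 / κ + K := by positivity
  have hmain : ∀ᶠ w in nhds z, eval w p = 0 →
      κ / 4 * (eval w l) ^ 2 + α * (eval w m) ^ 3 ≤ (K ^ 2 / κ + K) * (eval w m) ^ 4 := by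
    filter_upwards [e1, e2, e3] with w k1 k2 k3 hw0
    apply ineq_33 h0 k1.le k2.le k3.le
    rw [← hev, hw0]
  by_cases ha : α = 0
  · -- `j = l + M m ^ 2`
    obtain ⟨M, hM⟩ : ∃ M : ℝ, M = 1 + 4 * (K ^ 2 / κ + K) / κ := ⟨_, rfl⟩
    have hM1 : 0 < 4 * (K ^ 2 / κ + K) / κ := by positivity
    have hM0 : 0 < M := by
      rw [hM]
      linarith
    have hM2 : 4 * (K ^ 2 / κ + K) / κ ≤ M ^ 2 := by
      rw [hM]
      nlinarith
    obtain ⟨i, hi⟩ := hl'
    refine ⟨l + C M * m ^ 2, ?_, ?_, ?_⟩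
    · rw [map_add, map_mul, map_pow, hl, hm]
      ring
    · obtain ⟨r, hr, hr'⟩ := Metric.eventually_nhds_iff.1 hmain
      refine ⟨r, hr, fun w hw0 hwz => ?_⟩
      have k1 := hr' hwz hw0
      rw [ha, zero_mul, add_zero] at k1
      have k2 : (eval w l) ^ 2 ≤ (M * (eval w m) ^ 2) ^ 2 := by
        have k3 : (eval w l) ^ 2 ≤ 4 * (K ^ 2 / κ + K) / κ * (eval w m) ^ 4 := by
          have k4 : (eval w l) ^ 2 = 4 / κ * (κ / 4 * (eval w l) ^ 2) := by
            field_simp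
          have k5 : 4 * (K ^ 2 / κ + K) / κ * (eval w m) ^ 4 = 4 / κ * ((K ^ 2 / κ + K) * (eval w m) ^ 4) := by
            ring
          rw [k4, k5]
          exact mul_le_mul_of_nonneg_left k1 (by positivity)
        refine le_trans k3 ?_
        have k6 : (M * (eval w m) ^ 2) ^ 2 = M ^ 2 * (eval w m) ^ 4 := by ring
        rw [k6]
        exact mul_le_mul_of_nonneg_right hM2 (by positivity)
      have k7 := (abs_le_of_sq_le_sq' k2 (by positivity)).1
      rw [map_add, map_mul, map_pow, eval_C]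
      linarith
    · intro n c u
      refine jet_lin hp ?_ (i := i) ?_ n c u
      · rw [map_add, map_mul, map_pow, hl, hm]
        ring
      · have k1 : eval z (pderiv i (l + C M * m ^ 2)) = eval z (pderiv i l) := by
          rw [pow_two]
          simp only [map_add, pderiv_mul, pderiv_C, map_mul, hm, eval_C]
          simp
        rw [k1]
        exact hi
  · -- `j = - α m`
    obtain ⟨i, hi⟩ := hm'
    have e4 : ∀ᶠ w in nhds z, |eval w m| < |α| / (K ^ 2 / κ + K) :=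
      ((hc m).abs).continuousAt.eventually (gt_mem_nhds (by
        change |eval z m| < _
        rw [hm, abs_zero]
        have := abs_pos.2 ha
        positivity))
    refine ⟨C (-α) * m, ?_, ?_, ?_⟩
    · rw [map_mul, hm, mul_zero]
    · obtain ⟨r, hr, hr'⟩ := Metric.eventually_nhds_iff.1 (hmain.and e4)
      refine ⟨r, hr, fun w hw0 hwz => ?_⟩
      obtain ⟨k1, k2⟩ := hr' hwz
      have k3 := k1 hw0
      rw [map_mul, eval_C]
      by_contra hneg
      rw [not_le] at hneg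
      set μ : ℝ := eval w m with hμ
      have k4 : 0 < α * μ := by linarith
      have k5 : μ ≠ 0 := by
        rintro h6
        rw [h6, mul_zero] at k4
        exact lt_irrefl _ k4
      have k6 : 0 < μ ^ 2 := by positivity
      have k7 : α * μ ^ 3 ≤ (K ^ 2 / κ + K) * μ ^ 4 := by
        have : 0 ≤ κ / 4 * (eval w l) ^ 2 := by positivity
        linarith
      have k8 : α * μ ≤ (K ^ 2 / κ + K) * μ ^ 2 := by
        have k9 : (α * μ) * μ ^ 2 ≤ ((K ^ 2 / κ + K) * μ ^ 2) * μ ^ 2 := by nlinarith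
        exact le_of_mul_le_mul_right k9 k6
      have k10 : |α| * |μ| ≤ (K ^ 2 / κ + K) * |μ| * |μ| := by
        rw [← abs_mul, abs_of_pos k4, mul_assoc, ← pow_two, sq_abs]
        exact k8
      have k11 : |α| ≤ (K ^ 2 / κ + K) * |μ| := le_of_mul_le_mul_right k10 (abs_pos.2 k5)
      have k12 : (K ^ 2 / κ + K) * |μ| < |α| := by
        rw [lt_div_iff₀ hKp] at k2
        linarith
      linarith
    · intro n c u
      refine jet_lin hp ?_ (i := i) ?_ n c u
      · rw [map_mul, hm, mul_zero]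
      · rw [pderiv_C_mul, map_mul, eval_C]
        exact mul_ne_zero (neg_ne_zero.2 ha) hi

private lemma rep_33 {p l m : A} {z a b L M : Fin 2 → ℝ}
    (hX : ∀ i, (X i : A) = C (z i) + C (a i) * l + C (b i) * m)
    (hp : Sg p z) (hl : eval z l = 0) (hm : eval z m = 0)
    (hL : ∀ i, pderiv i l = C (L i)) (hM : ∀ i, pderiv i m = C (M i))
    (hD : L 0 * M 1 - L 1 * M 0 ≠ 0) :
    ∃ h00 h01 h11 : A, p = l * l * h00 + l * m * h01 + m * m * h11 ∧
      ∀ i k, eval z (pderiv i (pderiv k p)) = 2 * L i * L k * eval z h00 +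
        (L i * M k + L k * M i) * eval z h01 + 2 * M i * M k * eval z h11 := by
  obtain ⟨g0, g1, hg⟩ := div0_33 hX hp.1
  have h1 : ∀ i, L i * eval z g0 + M i * eval z g1 = 0 := by
    intro i
    have h2 := hp.2 i
    rw [hg] at h2
    simp only [map_add, pderiv_mul, hL, hM, map_mul, eval_C, hl, hm, zero_mul, add_zero] at h2
    exact h2
  have h3 : eval z g0 = 0 := by
    have h4 : (L 0 * M 1 - L 1 * M 0) * eval z g0 = 0 := by
      linear_combination M 1 * h1 0 - M 0 * h1 1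
    exact (mul_eq_zero.1 h4).resolve_left hD
  have h5 : eval z g1 = 0 := by
    have h4 : (L 0 * M 1 - L 1 * M 0) * eval z g1 = 0 := by
      linear_combination L 0 * h1 1 - L 1 * h1 0
    exact (mul_eq_zero.1 h4).resolve_left hD
  obtain ⟨s0, s1, hs⟩ := div0_33 hX h3
  obtain ⟨t0, t1, ht⟩ := div0_33 hX h5
  have h6 : p = l * l * s0 + l * m * (s1 + t0) + m * m * t1 := by
    rw [hg, hs, ht]
    ring
  refine ⟨s0, s1 + t0, t1, h6, fun i k => ?_⟩
  rw [h6]
  simp only [map_add, pderiv_mul, hL, hM, map_mul, eval_C, hl, hm, pderiv_C, zero_mul, mul_zero, zero_add,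
    add_zero]
  ring

theorem jet_neg_33 {p : A} {z : Fin 2 → ℝ} (h : Jet (-p) z) : Jet p z := by
  obtain ⟨j, h1, ⟨r, hr, h2⟩, h3⟩ := h
  refine ⟨j, h1, ⟨r, hr, fun w hw hd => h2 w (by rw [map_neg, hw, neg_zero]) hd⟩, fun n c u => ?_⟩
  have h4 := h3 n c (-u)
  rwa [neg_mul_neg] at h4

private lemma sg_neg_33 {p : A} {z : Fin 2 → ℝ} (h : Sg p z) : Sg (-p) z :=
  ⟨by rw [map_neg, h.1, neg_zero], fun i => by rw [map_neg, map_neg, h.2 i, neg_zero]⟩

private lemma comm_33 (p : A) : pderiv 1 (pderiv 0 p) = pderiv 0 (pderiv 1 p) := by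
  induction p using MvPolynomial.induction_on with
  | C r => rw [pderiv_C, pderiv_C, map_zero, map_zero]
  | add p q hp hq => rw [map_add, map_add, map_add, map_add, hp, hq]
  | mul_X p i hp =>
    fin_cases i <;> simp [pderiv_X, hp] <;> ring

/-- a coordinate system adapted to `p` -/
private lemma core2_33 {p l m : A} {z a b L M : Fin 2 → ℝ}
    (hX : ∀ i, (X i : A) = C (z i) + C (a i) * l + C (b i) * m)
    (hp : Sg p z) (hl : eval z l = 0) (hm : eval z m = 0)
    (hL : ∀ i, pderiv i l = C (L i)) (hM : ∀ i, pderiv i m = C (M i))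
    (hD : L 0 * M 1 - L 1 * M 0 ≠ 0)
    (hh : ∀ x y w : ℝ, (∀ i k, eval z (pderiv i (pderiv k p)) = 2 * L i * L k * x +
        (L i * M k + L k * M i) * y + 2 * M i * M k * w) → x ≠ 0 ∧ y = 0 ∧ w = 0) : Jet p z := by
  have hl' : ∃ i, eval z (pderiv i l) ≠ 0 := by
    by_contra hcon
    push Not at hcon
    apply hD
    have k0 := hcon 0
    have k1 := hcon 1
    rw [hL, eval_C] at k0 k1
    rw [k0, k1]
    ring
  have hm' : ∃ i, eval z (pderiv i m) ≠ 0 := by
    by_contra hcon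
    push Not at hcon
    apply hD
    have k0 := hcon 0
    have k1 := hcon 1
    rw [hM, eval_C] at k0 k1
    rw [k0, k1]
    ring
  obtain ⟨h00, h01, h11, h1, h2⟩ := rep_33 hX hp hl hm hL hM hD
  obtain ⟨h3, h4, h5⟩ := hh _ _ _ h2
  rcases lt_or_gt_of_ne h3 with h6 | h6
  · apply jet_neg_33
    refine core_33 (h00 := -h00) (h01 := -h01) (h11 := -h11) hX (sg_neg_33 hp) hl hm hl' hm' ?_ ?_ ?_ ?_
    · rw [h1]
      ring
    · rw [map_neg]
      linarith
    · rw [map_neg, h4, neg_zero]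
    · rw [map_neg, h5, neg_zero]
  · exact core_33 hX hp hl hm hl' hm' h1 h6 h4 h5

theorem jet_rank_one {p : A} {z : Fin 2 → ℝ} (hp : Sg p z) (hh : hess p z = 0)
    (hne : ∃ i k, eval z (pderiv i (pderiv k p)) ≠ 0) : Jet p z := by
  obtain ⟨D, hD⟩ : ∃ D : Fin 2 → Fin 2 → ℝ, ∀ i k, D i k = eval z (pderiv i (pderiv k p)) :=
    ⟨_, fun _ _ => rfl⟩
  have hh' : D 0 0 * D 1 1 - D 0 1 ^ 2 = 0 := by
    rw [hD, hD, hD]
    exact hh
  simp only [← hD] at hne
  have hsym : D 1 0 = D 0 1 := by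
    rw [hD, hD]
    congr 1
    exact comm_33 p
  by_cases h0 : D 0 0 = 0
  · have h01 : D 0 1 = 0 := by
      rw [h0, zero_mul, zero_sub, neg_eq_zero] at hh'
      exact pow_eq_zero_iff (two_ne_zero) |>.1 hh'
    have h11 : D 1 1 ≠ 0 := by
      intro h11
      obtain ⟨i, k, hik⟩ := hne
      apply hik
      fin_cases i <;> fin_cases k
      · exact h0
      · exact h01
      · exact hsym.trans h01
      · exact h11
    refine core2_33 (l := X 1 - C (z 1)) (m := X 0 - C (z 0)) (z := z) (a := ![0, 1]) (b := ![1, 0])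
      (L := ![0, 1]) (M := ![1, 0]) ?_ hp ?_ ?_ ?_ ?_ ?_ ?_
    · intro i
      fin_cases i
      · simp
      · simp
    · simp
    · simp
    · intro i
      fin_cases i
      · simp [pderiv_X]
      · simp [pderiv_X]
    · intro i
      fin_cases i
      · simp [pderiv_X]
      · simp [pderiv_X]
    · simp
    · intro x y w hxy
      simp only [← hD] at hxy
      have k00 := hxy 0 0
      have k01 := hxy 0 1
      have k11 := hxy 1 1
      simp at k00 k01 k11
      refine ⟨fun hx => h11 ?_, ?_, ?_⟩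
      · rw [k11, hx, mul_zero]
      · rw [← k01, h01]
      · linarith
  · obtain ⟨e, he⟩ : ∃ e : ℝ, e = D 0 1 / D 0 0 := ⟨_, rfl⟩
    refine core2_33 (l := X 0 - C (z 0) + C e * (X 1 - C (z 1))) (m := X 1 - C (z 1)) (z := z) (a := ![1, 0])
      (b := ![-e, 1]) (L := ![1, e]) (M := ![0, 1]) ?_ hp ?_ ?_ ?_ ?_ ?_ ?_
    · intro i
      fin_cases i
      · simp
        ring
      · simp
    · simp
    · simp
    · intro i
      fin_cases i
      · simp [pderiv_X]
      · simp [pderiv_X]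
    · intro i
      fin_cases i
      · simp [pderiv_X]
      · simp [pderiv_X]
    · simp
    · intro x y w hxy
      simp only [← hD] at hxy
      have k00 := hxy 0 0
      have k01 := hxy 0 1
      have k11 := hxy 1 1
      simp at k00 k01 k11
      have k1 : e * D 0 0 = D 0 1 := by
        rw [he]
        field_simp
      have k2 : y = 0 := by linear_combination (-1 : ℝ) * k01 - k1 + e * k00
      refine ⟨fun hx => h0 ?_, k2, ?_⟩
      · rw [k00, hx, mul_zero]
      · have k3 : D 0 0 * w = 0 := by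
          linear_combination (1 / 2 : ℝ) * (-D 0 0 * k11 + hh' - (e * D 0 0 + D 0 1) * k1 + D 0 0 * e ^ 2 * k00 -
            2 * e * D 0 0 * k2)
        exact (mul_eq_zero.1 k3).resolve_left h0

end Pool.Agent.Helper10.GN
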