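import Pool.Agent.Helper10.GN.Co2
import Pool.Agent.Helper10.GN.Sdx
import Pool.Agent.Helper10.GN.Appr

set_option autoImplicit false

/-!
# Project GN, block NNL: the local ring at a singular point is not normal

`z` a real singular point of `p`. There is a real function `x`, regular at all places over `z`, which is not in the local ring at `z`.

Proof. Otherwise every function regular at all places over `z` is in the local ring: real and imaginary parts (`(x + σ x)/2`, `(x - σ x)/(2i)` are regular at the places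
over `z` as these are permuted by conjugation, `over_cj`), and `Loc` is closed under complex combinations (`loc_add`, `loc_mul`, `loc_pi`). (1) There is only one place
over `z`: for two places `P ≠ Q` over `z` there is `x` regular at all places over `z` with `vl P x = 0`, `vl Q x = 1` (weak approximation `FF.approx`, or
`appr`); but `π b * x = π a`, `b(z) ≠ 0`, gives `vl P x = a(z)/b(z) = vl Q x`. (2) Let `P` be the place over `z` (`exists_over`), `ℓ_i = π (X i - z i)`; both
vanish at `P`, at least one is nonzero; if `ℓ₀ = 0` then `cx p ∣ X 0 - z 0`, so `p` is associated to it and not singular: both are nonzero. Let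
`ord ℓ_i ≤ ord ℓ_j`, `x = ℓ_j/ℓ_i` is regular at `P`, so `π b * ℓ_j = π a * ℓ_i`, `b(z) ≠ 0`, i.e.
`cx p ∣ b (X j - z j) - a (X i - z i)`. Taking `pderiv j` at `z`: the left side is singular at `z` (`∂(p c)(z) = c(z) ∂p(z) + p(z) ∂c(z) = 0`), the right side
gives `b(z) = 0`, contradiction.
-/

namespace Pool.Agent.Helper10.GN

open VC FF MvPolynomial Pool.Agent.Helper68.QM

variable {F : Type} [Field F] [Algebra ℂ F] {s : RStr F} (hF : IsFunctionField ℂ F)
variable {p : A} {π : CP →ₐ[ℂ] F}

theorem not_normal (hc : IsCrv p s π) (hp : Irreducible p) {z : Fin 2 → ℝ} (hz : Sg p z) :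
    ∃ x : F, s.σ x = x ∧ (∀ P, Over hF π P (cz z) → x ∈ P.ring) ∧ ¬ Loc π (cz z) x := by
  by_contra hcon
  push Not at hcon
  have hzb : zbar (cz z) = cz z := by
    funext i
    exact Complex.conj_ofReal (z i)
  -- all functions regular over the point are in the local ring
  have hall : ∀ x : F, (∀ P, Over hF π P (cz z) → x ∈ P.ring) → Loc π (cz z) x := by
    intro x hx
    have hσx : ∀ P, Over hF π P (cz z) → s.σ x ∈ P.ring := by
      intro P hP
      have h1 := over_cj hF hc hP
      rw [hzb] at h1
      exact (mem_cj s P x).1 (hx _ h1)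
    have h2 : (algebraMap ℂ F (1 / 2)) = 1 / 2 := by
      rw [map_div₀, map_one, map_ofNat]
    have hI : s.σ (algebraMap ℂ F Complex.I) = - algebraMap ℂ F Complex.I := by
      rw [s.alg, Complex.conj_I, map_neg]
    have hII : algebraMap ℂ F Complex.I * algebraMap ℂ F Complex.I = -1 := by
      rw [← map_mul, Complex.I_mul_I, map_neg, map_one]
    have hh : s.σ (algebraMap ℂ F (1 / 2)) = algebraMap ℂ F (1 / 2) := by
      rw [s.alg, map_div₀, map_one, map_ofNat]
    have h3 : Loc π (cz z) (algebraMap ℂ F (1 / 2) * (x + s.σ x)) := by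
      refine hcon _ ?_ fun P hP => P.ring.mul_mem _ _ (P.algebraMap_mem _) (P.ring.add_mem _ _ (hx P hP) (hσx P hP))
      rw [map_mul, map_add, s.inv, hh, add_comm (s.σ x) x]
    have h4 : Loc π (cz z) (algebraMap ℂ F (1 / 2) * (algebraMap ℂ F Complex.I * (s.σ x - x))) := by
      refine hcon _ ?_ fun P hP => P.ring.mul_mem _ _ (P.algebraMap_mem _)
        (P.ring.mul_mem _ _ (P.algebraMap_mem _) (sub_mem (hσx P hP) (hx P hP)))
      rw [map_mul, map_mul, map_sub, s.inv, hh, hI]
      ring
    have h5 : x = algebraMap ℂ F (1 / 2) * (x + s.σ x) +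
        π (C Complex.I) * (algebraMap ℂ F (1 / 2) * (algebraMap ℂ F Complex.I * (s.σ x - x))) := by
      rw [IsCrv.pi_C]
      have h6 : algebraMap ℂ F (1 / 2) + algebraMap ℂ F (1 / 2) = 1 := by
        rw [← map_add]
        norm_num
      linear_combination (-x) * h6 - (algebraMap ℂ F (1 / 2) * (s.σ x - x)) * hII
    rw [h5]
    exact loc_add h3 (loc_mul (loc_pi _ _) h4)
  have hpz : eval (cz z) (cx p) = 0 := by
    rw [eval_cx, hz.1, Complex.ofReal_zero]
  have hdz : ∀ i, eval (cz z) (pderiv i (cx p)) = 0 := by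
    intro i
    rw [pderiv_cx, eval_cx, hz.2 i, Complex.ofReal_zero]
  have hsing : ∀ (h : CP) (i : Fin 2), cx p ∣ h → eval (cz z) (pderiv i h) = 0 := by
    rintro _ i ⟨c, rfl⟩
    rw [Derivation.leibniz, map_add, smul_eq_mul, smul_eq_mul, map_mul, map_mul, hpz, hdz i, zero_mul, mul_zero,
      add_zero]
  obtain ⟨P, hP⟩ := exists_over hF hc hpz
  -- only one place over the point
  have huniq : ∀ Q, Over hF π Q (cz z) → Q = P := by
    intro Q hQ
    by_contra hne
    obtain ⟨S, hS, hZ⟩ := exists_sdata s hF (finite_over hF hc (cz z)).toFinset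
    have hnot : ∀ P', Over hF π P' (cz z) → P' ∉ S := fun P' hP' =>
      Finset.disjoint_left.1 hZ ((Set.Finite.mem_toFinset _).2 hP')
    obtain ⟨f, h1, h2, h3⟩ := exists_vl hF hS.ne (Ne.symm hne) (hnot P hP) (hnot Q hQ)
    obtain ⟨a, b, hb, hab⟩ := hall f fun P' hP' => h1 P' (hnot P' hP')
    have e1 := congrArg (vl hF P) hab
    have e2 := congrArg (vl hF Q) hab
    rw [vl_mul hF (mem_of_fin hP.1 b) (h1 P (hnot P hP)), vl_over hF hP, vl_over hF hP, h2, mul_zero] at e1
    rw [vl_mul hF (mem_of_fin hQ.1 b) (h1 Q (hnot Q hQ)), vl_over hF hQ, vl_over hF hQ, h3, mul_one] at e2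
    exact hb (e2.trans e1.symm)
  have hl0 : ∀ i : Fin 2, π (X i - C (cz z i)) ≠ 0 := by
    intro i h0
    have h1 := hsing _ i ((hc.ker _).1 h0)
    rw [map_sub, pderiv_X_self, pderiv_C, sub_zero, map_one] at h1
    exact one_ne_zero h1
  have key : ∀ i j : Fin 2, i ≠ j → ord P.ring (π (X i - C (cz z i))) ≤ ord P.ring (π (X j - C (cz z j))) → False := by
    intro i j hij hle
    have hx : π (X j - C (cz z j)) / π (X i - C (cz z i)) ∈ P.ring := by
      rw [← oge_zero_iff hF, oge_div_iff hF (hl0 i), zero_add]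
      exact Or.inr hle
    obtain ⟨a, b, hb, hab⟩ := hall _ fun P' hP' => by
      rw [huniq P' hP']
      exact hx
    have h1 : π (b * (X j - C (cz z j)) - a * (X i - C (cz z i))) = 0 := by
      rw [map_sub, map_mul, map_mul, ← hab, mul_assoc, div_mul_cancel₀ _ (hl0 i), sub_self]
    have h2 := hsing _ j ((hc.ker _).1 h1)
    apply hb
    have e1 : eval (cz z) (X j - C (cz z j) : CP) = 0 := by simp
    have e2 : eval (cz z) (X i - C (cz z i) : CP) = 0 := by simp
    have e3 : pderiv j (X j - C (cz z j) : CP) = 1 := by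
      rw [map_sub, pderiv_X_self, pderiv_C, sub_zero]
    have e4 : pderiv j (X i - C (cz z i) : CP) = 0 := by
      rw [map_sub, pderiv_X_of_ne hij, pderiv_C, sub_zero]
    rw [map_sub, Derivation.leibniz, Derivation.leibniz, e3, e4, smul_zero, zero_add] at h2
    simpa only [map_sub, map_add, smul_eq_mul, map_mul, e1, e2, zero_mul, add_zero, sub_zero, mul_one, map_one] using h2
  rcases le_total (ord P.ring (π (X 0 - C (cz z 0)))) (ord P.ring (π (X 1 - C (cz z 1)))) with h | h
  · exact key 0 1 (by decide) h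
  · exact key 1 0 (by decide) h

end Pool.Agent.Helper10.GN
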