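import Pool.Agent.Helper10.GN.Gen
import Pool.Agent.Helper10.GN.Nnl

set_option autoImplicit false

/-!
# Project GN, block OB1: the three obstructions at zeros of `P₁`

`no_nonreal`: `w` a nonreal common zero of `p` and `P₁`. Let `M` be from `gen`, `N₀` from `mem_high`, `N ≥ max M N₀`. `exists_fun` with `Z` = all places over
`w` and `zbar w` (nonreal: `real_of_over`), targets `y P = 1/π P₁`, precision `N`: a real `x` with `x ≡ 1/P₁` at `Z`, small at the other places over
singular points and at the real infinite places, regular elsewhere. `P₁ x` is regular at all finite places, at the places over `w`, `zbar w`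
`P₁ x ≡ 1` to order `≥ N`, at the other singular points `≡ 0`, so `P₁ x ∈ range π` (`mem_high`). `x` is regular at all real places. `gen`: `x = π h`, regular at the
places `P` over `w` (`mem_of_fin`), but `ord_P x = - ord_P P₁ < 0` (`vl_over`: `P₁(w) = 0`), contradiction.

`no_sing`: `z` real, `Sg p z`, `P₁(z) = 0`. `not_normal` gives `x₀`. For large `k` `P₁^k x₀` is in the local ring (`loc_of_cond`: its order at all places over `z` is large). Let
`k ≥ 1` be minimal with `Loc (P₁^k x₀)`, `x₁ = P₁^(k-1) x₀`: real, regular at the places over `z`, not in the local ring, `P₁ x₁` in the local ring. `exists_fun` with `Z` =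
the places over `z`, target `x₁`, precision `N` large (`≥ M, N₀` and such that functions of order `≥ N` at the places over `z` are `Loc`:
`loc_of_cond`): `x`. `x - x₁` is `Loc` at `z`, so `x` is not `Loc` and `P₁ x` is `Loc` at `z`; at the other singular points `P₁ x` is `Loc` too (order `≥ N ≥ N₀`, `loc_of_cond`) and at the
smooth ones (`loc_smooth`), so `P₁ x ∈ range π` (`mem_of_loc`). `x` is regular at all finite places. `gen`: `x ∈ range π`, so `Loc` (`loc_pi`), contradiction.

`no_tangent`: `z` real, `p(z) = 0`, some `pderiv i p (z) ≠ 0`, `P₁(z) = 0`, not `Trv p P₁ z`. Let `P` be the place over `z` (real, `real_smooth`, `over_unique`). `ord_P (π P₁) ≥ 2`: the gradients are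
dependent, so `P₁ - c p` has no linear part at `z` for a real constant `c`: it is in `(X 0 - z 0, X 1 - z 1)²`. `t` a real uniformizer at `P`
(`exists_real_unif`); `exists_fun` with `Z = {P}`, target `t⁻²`, precision `N = max M N₀ 1`: `x`, `PosAt` at `P` (`x/(t⁻¹)² = 1 + ...`), regular elsewhere. `P₁ x` is regular at
all finite places (at `P`: order `≥ 2 - 2`), `z` is smooth, at the singular points `O(N)`: `P₁ x ∈ range π` (`mem_high`). `gen`: `x ∈ range π`, but `x` has a pole at `P`.
-/

namespace Pool.Agent.Helper10.GN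

open VC FF MvPolynomial Pool.Agent.Helper68.QM

variable {F : Type} [Field F] [Algebra ℂ F] {s : RStr F} (hF : IsFunctionField ℂ F)
variable {p : A} {π : CP →ₐ[ℂ] F}
include hF

omit hF in
private theorem zbar_zbar93 (w : Fin 2 → ℂ) : zbar (zbar w) = w := by
  funext i
  simp [zbar]

omit hF in
private theorem zbar_cz93 (z : Fin 2 → ℝ) : zbar (cz z) = cz z := by
  funext i
  simp [zbar, cz]

private theorem mem_of_oge93 {P : Place ℂ F} {N : ℕ} {f : F} (h : Oge P N f) : f ∈ P.ring :=
  (oge_zero_iff hF).1 (h.mono (by exact_mod_cast Nat.zero_le N))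

theorem no_nonreal (hc : IsCrv p s π) (hp : Irreducible p) (hsc : SC p)
    (hn : ∃ P : Place ℂ F, ¬ FinP π P ∧ s.cj P ≠ P) {P₁ : A} (hP₁ : ¬ p ∣ P₁)
    (hstar : StarP p P₁ s π) {w : Fin 2 → ℂ} (hw : eval w (cx p) = 0)
    (hw₁ : eval w (cx P₁) = 0) : ¬ NR w := by
  classical
  intro hNR
  obtain ⟨M, hM⟩ := gen hF hc hp hsc hn hP₁ hstar
  obtain ⟨N₀, hN₀⟩ := mem_high hF hc hp
  set N : ℕ := max M N₀ + 1 with hN
  have hMN : (M : ℤ) ≤ N := by
    have : M ≤ N := (le_max_left M N₀).trans (Nat.le_succ _)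
    exact_mod_cast this
  have hN₀N : (N₀ : ℤ) ≤ N := by
    have : N₀ ≤ N := (le_max_right M N₀).trans (Nat.le_succ _)
    exact_mod_cast this
  have h1N : (1 : ℤ) ≤ N := by
    have : 1 ≤ N := by omega
    exact_mod_cast this
  set u : F := π (cx P₁) with hu
  have hu0 : u ≠ 0 := fun h => hP₁ ((hc.eq_zero_iff P₁).1 h)
  have hσu : s.σ u = u := hc.real P₁
  have hfinZ : ({P | Over hF π P w} ∪ {P | Over hF π P (zbar w)}).Finite :=
    (finite_over hF hc w).union (finite_over hF hc (zbar w))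
  set Z : Finset (Place ℂ F) := hfinZ.toFinset with hZ
  have hZm : ∀ P, P ∈ Z ↔ Over hF π P w ∨ Over hF π P (zbar w) := fun P => by
    rw [hZ, Set.Finite.mem_toFinset]
    rfl
  have hZf : ∀ P ∈ Z, FinP π P := by
    intro P hP
    rcases (hZm P).1 hP with h | h
    · exact h.1
    · exact h.1
  have hZc : ∀ P ∈ Z, s.cj P ∈ Z := by
    intro P hP
    rw [hZm]
    rcases (hZm P).1 hP with h | h
    · exact Or.inr (over_cj hF hc h)
    · left
      have := over_cj hF hc h
      rwa [zbar_zbar93] at this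
  obtain ⟨x, hσx, hx1, hx2, hx3, hx4⟩ := exists_fun hF hc hp hn N Z hZf hZc (fun _ => u⁻¹) (fun P _ => by
    rw [map_inv₀, hσu, sub_self]
    exact oge_zero)
  have hureg : ∀ P : Place ℂ F, FinP π P → u ∈ P.ring := fun P hP => mem_of_fin hP _
  have hux : ∀ P ∈ Z, Oge P N (u * x - 1) := by
    intro P hP
    have h1 := oge_mul hF ((oge_zero_iff hF).2 (hureg P (hZf P hP))) (hx1 P hP)
    have h2 : u * (x - u⁻¹) = u * x - 1 := by
      rw [mul_sub, mul_inv_cancel₀ hu0]
    rwa [h2, zero_add] at h1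
  have hrange : ∃ h : CP, u * x = π h := by
    apply hN₀
    · intro P hP
      by_cases hPZ : P ∈ Z
      · have h1 := mem_of_oge93 hF (hux P hPZ)
        have h2 : u * x = (u * x - 1) + 1 := by ring
        rw [h2]
        exact add_mem h1 (one_mem _)
      · exact P.ring.mul_mem _ _ (hureg P hP) (hx4 P hP hPZ)
    · intro z hz
      by_cases hzw : z = w ∨ z = zbar w
      · refine ⟨1, fun P hP => ?_⟩
        have hPZ : P ∈ Z := by
          rw [hZm]
          rcases hzw with h | h
          · exact Or.inl (h ▸ hP)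
          · exact Or.inr (h ▸ hP)
        rw [map_one]
        exact (hux P hPZ).mono hN₀N
      · refine ⟨0, fun P hP => ?_⟩
        have hPZ : P ∉ Z := by
          rw [hZm]
          rintro (h | h)
          · exact hzw (Or.inl (over_inj hF hP h))
          · exact hzw (Or.inr (over_inj hF hP h))
        rw [map_zero, sub_zero]
        have h1 := oge_mul hF ((oge_zero_iff hF).2 (hureg P hP.1)) (hx2 z hz P hP hPZ)
        rw [zero_add] at h1
        exact h1.mono hN₀N
  have hreal : ∀ P : Place ℂ F, s.cj P = P → FinP π P → x ∈ P.ring ∨ PosAt s hF P x := by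
    intro P hP hPf
    left
    refine hx4 P hPf fun hPZ => ?_
    obtain ⟨i, hi⟩ := hNR
    rcases (hZm P).1 hPZ with h | h
    · have h1 := real_of_over hF hc hP h
      have h2 := congrFun h1 i
      apply hi
      rw [h2]
      simp [cz]
    · have h1 := real_of_over hF hc hP h
      have h2 := congrFun h1 i
      apply hi
      have h3 : (zbar w i).im = 0 := by
        rw [h2]
        simp [cz]
      simpa [zbar] using h3
  obtain ⟨h, hh⟩ := hM x hσx hrange (fun P hP hcj => (hx3 P hP hcj).mono hMN) hreal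
  obtain ⟨P, hP⟩ := exists_over hF hc hw
  have hPZ : P ∈ Z := (hZm P).2 (Or.inl hP)
  have hxr : x ∈ P.ring := by
    rw [hh]
    exact mem_of_fin hP.1 _
  have h1 : vl hF P (u * x) = 0 := by
    rw [vl_mul hF (hureg P hP.1) hxr, hu, vl_over hF hP, hw₁, zero_mul]
  have h2 : vl hF P (u * x - 1) = 0 :=
    (vl_eq_zero hF (mem_of_oge93 hF (hux P hPZ))).2 ((hux P hPZ).mono h1N)
  rw [vl_sub hF (P.ring.mul_mem _ _ (hureg P hP.1) hxr) (one_mem _), h1, vl_one, zero_sub, neg_eq_zero] at h2
  exact one_ne_zero h2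

private theorem loc_cond93 (hc : IsCrv p s π) (hp : Irreducible p) {i₀ : Fin 2}
    (hne : π (pderiv i₀ (cx p)) ≠ 0) {z : Fin 2 → ℂ} {f : F}
    (h : ∀ P, Over hF π P z → Oge P (ord P.ring (π (pderiv i₀ (cx p)))) f) : Loc π z f := by
  classical
  have e : ∑ i, C ((Pi.single i₀ 1 : Fin 2 → ℂ) i) * pderiv i (cx p) = pderiv i₀ (cx p) := by
    rw [Finset.sum_eq_single i₀]
    · rw [Pi.single_eq_same, C_1, one_mul]
    · intro j _ hj
      rw [Pi.single_eq_of_ne hj, C_0, zero_mul]
    · intro h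
      exact absurd (Finset.mem_univ _) h
  refine loc_of_cond hF hc hp (Pi.single i₀ 1) (by rw [e]; exact hne) ?_
  rw [e]
  exact h

theorem no_sing (hc : IsCrv p s π) (hp : Irreducible p) (hsc : SC p)
    (hn : ∃ P : Place ℂ F, ¬ FinP π P ∧ s.cj P ≠ P) {P₁ : A} (hP₁ : ¬ p ∣ P₁)
    (hstar : StarP p P₁ s π) {z : Fin 2 → ℝ} (hz : Sg p z) : eval z P₁ ≠ 0 := by
  classical
  intro hz₁
  obtain ⟨M, hM⟩ := gen hF hc hp hsc hn hP₁ hstar
  obtain ⟨i₀, hi₀⟩ := hc.pderiv_ne_zero hp
  obtain ⟨x₀, hσx₀, hx₀, hx₀n⟩ := not_normal hF hc hp hz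
  set D : F := π (pderiv i₀ (cx p)) with hD
  obtain ⟨ND, hND⟩ : ∃ ND : ℕ, ∀ P : Place ℂ F, ord P.ring D ≤ ND := by
    obtain ⟨B, hB⟩ := ((FF.finite_support_ord hF hi₀).image fun P => ord P.ring D).bddAbove
    refine ⟨B.toNat, fun P => ?_⟩
    by_cases h0 : ord P.ring D = 0
    · rw [h0]
      exact_mod_cast Nat.zero_le _
    · exact (hB ⟨P, h0, rfl⟩).trans (Int.self_le_toNat B)
  have hloc : ∀ (z' : Fin 2 → ℂ) (N : ℕ) (f : F), ND ≤ N → (∀ P, Over hF π P z' → Oge P N f) → Loc π z' f := by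
    intro z' N f hN h
    refine loc_cond93 hF hc hp hi₀ fun P hP => (h P hP).mono ?_
    have : (ND : ℤ) ≤ N := by exact_mod_cast hN
    exact (hND P).trans this
  set u : F := π (cx P₁) with hu
  have hσu : s.σ u = u := hc.real P₁
  have hureg : ∀ P : Place ℂ F, FinP π P → u ∈ P.ring := fun P hP => mem_of_fin hP _
  have hu1 : ∀ P, Over hF π P (cz z) → Oge P 1 u := by
    intro P hP
    rw [← vl_eq_zero hF (hureg P hP.1), hu, vl_over hF hP, eval_cx, hz₁, Complex.ofReal_zero]
  -- the minimal power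
  have hex : ∃ k : ℕ, Loc π (cz z) (u ^ k * x₀) := by
    refine ⟨ND, hloc _ ND _ le_rfl fun P hP => ?_⟩
    have h1 := oge_mul hF (oge_pow hF (hu1 P hP) ND) ((oge_zero_iff hF).2 (hx₀ P hP))
    rwa [mul_one, add_zero] at h1
  have hk1 := Nat.find_spec hex
  have hk2 := fun k (hk : k < Nat.find hex) => Nat.find_min hex hk
  have hk0 : Nat.find hex ≠ 0 := by
    intro h0
    rw [h0, pow_zero, one_mul] at hk1
    exact hx₀n hk1
  obtain ⟨k, hk⟩ := Nat.exists_eq_succ_of_ne_zero hk0
  set x₁ : F := u ^ k * x₀ with hx₁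
  have hx₁n : ¬ Loc π (cz z) x₁ := hk2 k (by omega)
  have hux₁ : Loc π (cz z) (u * x₁) := by
    rw [hk] at hk1
    have : u * x₁ = u ^ (k + 1) * x₀ := by rw [hx₁]; ring
    rw [this]
    exact hk1
  have hσx₁ : s.σ x₁ = x₁ := by rw [hx₁, map_mul, map_pow, hσu, hσx₀]
  have hx₁r : ∀ P, Over hF π P (cz z) → x₁ ∈ P.ring := fun P hP =>
    P.ring.mul_mem _ _ (pow_mem (hureg P hP.1) k) (hx₀ P hP)
  set N : ℕ := max M ND with hN
  have hMN : (M : ℤ) ≤ N := by exact_mod_cast le_max_left M ND
  have hNDN : ND ≤ N := le_max_right M ND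
  set Z : Finset (Place ℂ F) := (finite_over hF hc (cz z)).toFinset with hZ
  have hZm : ∀ P, P ∈ Z ↔ Over hF π P (cz z) := fun P => by
    rw [hZ, Set.Finite.mem_toFinset]
    rfl
  obtain ⟨x, hσx, hx1, hx2, hx3, hx4⟩ := exists_fun hF hc hp hn N Z (fun P hP => ((hZm P).1 hP).1)
    (fun P hP => by
      rw [hZm] at hP ⊢
      have := over_cj hF hc hP
      rwa [zbar_cz93] at this) (fun _ => x₁) (fun P _ => by
    rw [hσx₁, sub_self]
    exact oge_zero)
  have hdiff : Loc π (cz z) (x - x₁) := hloc _ N _ hNDN fun P hP => hx1 P ((hZm P).2 hP)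
  have hxn : ¬ Loc π (cz z) x := by
    intro h
    apply hx₁n
    have h1 := loc_add h (loc_mul (loc_pi (π := π) (cz z) (-1)) hdiff)
    have h2 : x + π (-1) * (x - x₁) = x₁ := by
      rw [map_neg, map_one]
      ring
    rwa [h2] at h1
  have hxfin : ∀ P : Place ℂ F, FinP π P → x ∈ P.ring := by
    intro P hP
    by_cases hPZ : P ∈ Z
    · have h1 := mem_of_oge93 hF (hx1 P hPZ)
      have h2 : x = (x - x₁) + x₁ := by ring
      rw [h2]
      exact add_mem h1 (hx₁r P ((hZm P).1 hPZ))
    · exact hx4 P hP hPZ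
  have hrange : ∃ h : CP, u * x = π h := by
    apply mem_of_loc hc
    intro z' hz'
    by_cases hzz : z' = cz z
    · rw [hzz]
      have h1 := loc_add hux₁ (loc_mul (loc_pi (π := π) (cz z) (cx P₁)) hdiff)
      have h2 : u * x₁ + π (cx P₁) * (x - x₁) = u * x := by rw [← hu]; ring
      rwa [h2] at h1
    · have h1 : Loc π z' x := by
        by_cases hs' : SgC p z'
        · refine hloc z' N x hNDN fun P hP => hx2 z' hs' P hP fun hPZ => ?_
          exact hzz (over_inj hF hP ((hZm P).1 hPZ))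
        · have h2 : ∃ i, eval z' (pderiv i (cx p)) ≠ 0 := by
            by_contra hcon
            push Not at hcon
            exact hs' ⟨hz', hcon⟩
          obtain ⟨i, hi⟩ := h2
          obtain ⟨P, hP⟩ := exists_over hF hc hz'
          exact loc_smooth hF hc hi hP (hxfin P hP.1)
      exact loc_mul (loc_pi (π := π) z' (cx P₁)) h1
  obtain ⟨h, hh⟩ := hM x hσx hrange (fun P hP hcj => (hx3 P hP hcj).mono hMN)
    (fun P _ hPf => Or.inl (hxfin P hPf))
  apply hxn
  rw [hh]
  exact loc_pi (cz z) h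

/-- Taylor expansion of first order at a place -/
private theorem taylor1_93 {P : Place ℂ F} {z : Fin 2 → ℝ} (hP : Over hF π P (cz z)) (g : A) :
    Oge P 2 (π (cx g) - π (cx (C (eval z g))) -
      ∑ i, π (cx (C (eval z (pderiv i g)))) * (π (cx (X i)) - π (cx (C (z i))))) := by
  classical
  have hL : ∀ i, Oge P 1 (π (cx (X i)) - π (cx (C (z i)))) := by
    intro i
    have h1 : π (cx (X i)) - π (cx (C (z i))) = π (cx (X i - C (z i))) := by rw [map_sub, map_sub]
    rw [h1, ← vl_eq_zero hF (mem_of_fin hP.1 _), vl_over hF hP, eval_cx]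
    simp
  have hval : ∀ g : A, Oge P 1 (π (cx g) - π (cx (C (eval z g)))) := by
    intro g
    have h1 : π (cx g) - π (cx (C (eval z g))) = π (cx (g - C (eval z g))) := by rw [map_sub, map_sub]
    rw [h1, ← vl_eq_zero hF (mem_of_fin hP.1 _), vl_over hF hP, eval_cx]
    simp
  induction g using MvPolynomial.induction_on with
  | C a =>
    have : ∀ i : Fin 2, pderiv i (C a : A) = 0 := fun i => pderiv_C
    simp only [this, eval_C, map_zero, zero_mul, Finset.sum_const_zero, sub_self]
    exact oge_zero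
  | add a b ha hb =>
    have h1 := oge_add hF ha hb
    refine cast ?_ h1
    congr 1
    simp only [map_add, C_add, add_mul, Finset.sum_add_distrib]
    ring
  | mul_X a j ha =>
    have h1 := oge_mul hF (oge_zero_iff hF |>.2 (mem_of_fin hP.1 (cx (C (z j))))) ha
    have h2 := oge_mul hF (hval a) (hL j)
    rw [zero_add] at h1
    have h3 := oge_add hF h1 h2
    refine cast ?_ h3
    congr 1
    have h4 : ∀ i : Fin 2, eval z (pderiv i (a * X j)) = eval z (pderiv i a) * z j + (if i = j then eval z a else 0) := by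
      intro i
      rw [pderiv_mul, pderiv_X, map_add, map_mul, map_mul, eval_X]
      by_cases hij : i = j
      · subst hij
        simp
      · rw [Pi.single_eq_of_ne (Ne.symm hij), if_neg hij]
        simp
    have h5 : ∑ i, π (cx (C (eval z (pderiv i (a * X j))))) * (π (cx (X i)) - π (cx (C (z i)))) =
        π (cx (C (z j))) * (∑ i, π (cx (C (eval z (pderiv i a)))) * (π (cx (X i)) - π (cx (C (z i))))) +
          π (cx (C (eval z a))) * (π (cx (X j)) - π (cx (C (z j)))) := by
      rw [Finset.mul_sum]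
      have h6 : ∀ i : Fin 2, π (cx (C (eval z (pderiv i (a * X j))))) * (π (cx (X i)) - π (cx (C (z i)))) =
          π (cx (C (z j))) * (π (cx (C (eval z (pderiv i a)))) * (π (cx (X i)) - π (cx (C (z i))))) +
          (if i = j then π (cx (C (eval z a))) * (π (cx (X i)) - π (cx (C (z i)))) else 0) := by
        intro i
        rw [h4 i]
        by_cases hij : i = j
        · rw [if_pos hij, if_pos hij]
          simp only [C_add, C_mul, map_add, map_mul]
          ring
        · rw [if_neg hij, if_neg hij, add_zero, add_zero]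
          simp only [C_mul, map_mul]
          ring
      rw [Finset.sum_congr rfl fun i _ => h6 i, Finset.sum_add_distrib, Finset.sum_ite_eq']
      simp
    rw [h5]
    simp only [map_mul, eval_X, C_mul]
    ring

theorem no_tangent (hc : IsCrv p s π) (hp : Irreducible p) (hsc : SC p)
    (hn : ∃ P : Place ℂ F, ¬ FinP π P ∧ s.cj P ≠ P) {P₁ : A} (hP₁ : ¬ p ∣ P₁)
    (hstar : StarP p P₁ s π) {z : Fin 2 → ℝ} (hz : eval z p = 0) {i : Fin 2}
    (hi : eval z (pderiv i p) ≠ 0) (hz₁ : eval z P₁ = 0) : Trv p P₁ z := by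
  classical
  by_contra htr
  have hdet : eval z (pderiv 0 p) * eval z (pderiv 1 P₁) - eval z (pderiv 1 p) * eval z (pderiv 0 P₁) = 0 := by
    by_contra h
    exact htr h
  obtain ⟨M, hM⟩ := gen hF hc hp hsc hn hP₁ hstar
  obtain ⟨N₀, hN₀⟩ := mem_high hF hc hp
  have hzc : eval (cz z) (cx p) = 0 := by rw [eval_cx, hz, Complex.ofReal_zero]
  obtain ⟨P, hP⟩ := exists_over hF hc hzc
  have hic : eval (cz z) (pderiv i (cx p)) ≠ 0 := by
    rw [pderiv_cx, eval_cx]
    exact_mod_cast hi
  have hPr : s.cj P = P := real_smooth hF hc hi hP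
  set u : F := π (cx P₁) with hu
  have hσu : s.σ u = u := hc.real P₁
  have hureg : ∀ P : Place ℂ F, FinP π P → u ∈ P.ring := fun P hP => mem_of_fin hP _
  -- the order of `u` is at least two
  have hu2 : Oge P 2 u := by
    set c : ℝ := eval z (pderiv i P₁) / eval z (pderiv i p) with hcdef
    have h1 := taylor1_93 hF hP (P₁ - C c * p)
    have h2 : ∀ j : Fin 2, eval z (pderiv j (P₁ - C c * p)) = 0 := by
      intro j
      have h3 : eval z (pderiv j (P₁ - C c * p)) = eval z (pderiv j P₁) - c * eval z (pderiv j p) := by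
        rw [map_sub, pderiv_C_mul, map_sub, map_mul, eval_C]
      rw [h3, hcdef]
      field_simp
      fin_cases i <;> fin_cases j <;> simp only [Fin.zero_eta, Fin.mk_one] at * <;> linarith
    have h3 : eval z (P₁ - C c * p) = 0 := by
      rw [map_sub, map_mul, hz₁, hz]
      ring
    have hp0 : π (cx p) = 0 := (hc.eq_zero_iff p).2 dvd_rfl
    simp only [h2, h3, C_0, map_zero, zero_mul, Finset.sum_const_zero, sub_zero] at h1
    rw [map_sub, map_sub, map_mul, map_mul, hp0, mul_zero, sub_zero] at h1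
    exact h1
  obtain ⟨t, ht0, hσt, hordt⟩ := exists_real_unif s hF hPr
  have ht2 : t⁻¹ ^ 2 ≠ 0 := pow_ne_zero _ (inv_ne_zero ht0)
  have hordt2 : ord P.ring (t⁻¹ ^ 2) = -2 := by
    rw [FF.ord_pow hF P (inv_ne_zero ht0), FF.ord_inv hF P ht0, hordt]
    norm_num
  have hordt2' : ord P.ring (t ^ 2) = 2 := by
    rw [FF.ord_pow hF P ht0, hordt]
    norm_num
  set N : ℕ := max M N₀ with hN
  have hMN : (M : ℤ) ≤ N := by exact_mod_cast le_max_left M N₀
  have hN₀N : (N₀ : ℤ) ≤ N := by exact_mod_cast le_max_right M N₀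
  obtain ⟨x, hσx, hx1, hx2, hx3, hx4⟩ := exists_fun hF hc hp hn N {P} (fun Q hQ => by
      rw [Finset.mem_singleton.1 hQ]
      exact hP.1) (fun Q hQ => by
      rw [Finset.mem_singleton.1 hQ, hPr]
      exact Finset.mem_singleton_self _) (fun _ => t⁻¹ ^ 2) (fun Q _ => by
      rw [map_pow, map_inv₀, hσt, sub_self]
      exact oge_zero)
  have hxP : Oge P N (x - t⁻¹ ^ 2) := hx1 P (Finset.mem_singleton_self _)
  have hPsing : ∀ z', SgC p z' → ∀ Q, Over hF π Q z' → Q ∉ ({P} : Finset (Place ℂ F)) := by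
    intro z' hz' Q hQ hQP
    rw [Finset.mem_singleton.1 hQP] at hQ
    have h1 := over_inj hF hQ hP
    rw [h1] at hz'
    exact hic (hz'.2 i)
  have hrange : ∃ h : CP, u * x = π h := by
    apply hN₀
    · intro Q hQ
      by_cases hQP : Q = P
      · rw [hQP]
        have h1 : u * x = u * (x - t⁻¹ ^ 2) + u * t⁻¹ ^ 2 := by ring
        rw [h1]
        refine add_mem (P.ring.mul_mem _ _ (hureg P hP.1) (mem_of_oge93 hF hxP)) ?_
        rw [← oge_zero_iff hF]
        have h2 : Oge P (-2) (t⁻¹ ^ 2) := Or.inr hordt2.ge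
        have h3 := oge_mul hF hu2 h2
        exact h3.mono (by norm_num)
      · exact Q.ring.mul_mem _ _ (hureg Q hQ) (hx4 Q hQ (by rwa [Finset.mem_singleton]))
    · intro z' hz'
      refine ⟨0, fun Q hQ => ?_⟩
      rw [map_zero, sub_zero]
      have h1 := oge_mul hF ((oge_zero_iff hF).2 (hureg Q hQ.1)) (hx2 z' hz' Q hQ (hPsing z' hz' Q hQ))
      rw [zero_add] at h1
      exact h1.mono hN₀N
  have hpos : PosAt s hF P x := by
    refine ⟨t⁻¹, inv_ne_zero ht0, by rw [map_inv₀, hσt], ?_⟩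
    have h1 : x / t⁻¹ ^ 2 = (x - t⁻¹ ^ 2) * t ^ 2 + 1 := by
      field_simp
      ring
    have h2 : Oge P 1 ((x - t⁻¹ ^ 2) * t ^ 2) := by
      have h3 := oge_mul hF hxP (Or.inr hordt2'.ge : Oge P 2 (t ^ 2))
      refine h3.mono ?_
      have : (0 : ℤ) ≤ N := Int.natCast_nonneg N
      linarith
    have h3 : (x - t⁻¹ ^ 2) * t ^ 2 ∈ P.ring := (oge_zero_iff hF).1 (h2.mono (by norm_num))
    rw [h1]
    refine ⟨add_mem h3 (one_mem _), ?_⟩
    unfold rv
    rw [vl_add hF h3 (one_mem _), (vl_eq_zero hF h3).2 h2, vl_one]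
    norm_num
  obtain ⟨h, hh⟩ := hM x hσx hrange (fun Q hQ hcj => (hx3 Q hQ hcj).mono hMN) (fun Q _ hQf => by
    by_cases hQP : Q = P
    · rw [hQP]
      exact Or.inr hpos
    · exact Or.inl (hx4 Q hQf (by rwa [Finset.mem_singleton])))
  have hxr : x ∈ P.ring := by
    rw [hh]
    exact mem_of_fin hP.1 _
  have h1 : t⁻¹ ^ 2 ∈ P.ring := by
    have : t⁻¹ ^ 2 = x - (x - t⁻¹ ^ 2) := by ring
    rw [this]
    exact sub_mem hxr (mem_of_oge93 hF hxP)
  rw [← FF.ord_nonneg_iff hF P ht2, hordt2] at h1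
  norm_num at h1

end Pool.Agent.Helper10.GN
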