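import Pool.Agent.Helper10.GN.Mxi

set_option autoImplicit false

/-!
# Project GN: the predicate `Jet` and its algebraic part (block JET0)

`Jet p z`: a polynomial `j` vanishing at `z`, nonnegative on the real zeros of `p` near `z`, which is not a sum of squares modulo `p` and
`m_z^3`.

`jet_lin`: `j(z) = 0`, some partial derivative of `j` at `z` is not `0`, `Sg p z`: then `j - ∑ c_k² - p u ∉ m³`. Suppose it is in `m³`, `m = mz (cz z)`. An element of `m³` vanishes at
`z` with its first and second partial derivatives (products of three polynomials vanishing at `z`: `Ideal.pow`/`Submodule.span_induction`; or show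
`m² `-statements by the product rule). Evaluate at `z`: `∑ c_k(z)² = 0`, so `c_k(z) = 0`; take `pderiv i` at `z`: `∂_i j(z) = 2 ∑ c_k(z) ∂_i c_k(z) + ∂_i p(z) u(z) + p(z) ∂_i u(z) = 0`.
`jet_quad`: all second partial derivatives of `p` at `z` vanish too, `j` and its first derivatives vanish at `z`, and for a vector `v` the second derivative of `j` in the
direction `v`, `∑_{i,k} v_i v_k ∂_i ∂_k j(z)`, is negative. Then the same conclusion: the second derivative of `∑ c_k²` in direction `v` is `2 ∑ (∂_v c_k(z))² ≥ 0`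
because `c_k(z) = 0`, and that of `p u` is `0`.
-/

namespace Pool.Agent.Helper10.GN

open VC FF MvPolynomial Pool.Agent.Helper68.QM

/-- near the real point `z` the curve `p = 0` has a nonnegative polynomial which is not a sum of squares modulo `p` and `m_z^3` -/
def Jet (p : A) (z : Fin 2 → ℝ) : Prop :=
  ∃ j : A, eval z j = 0 ∧
    (∃ r : ℝ, 0 < r ∧ ∀ w : Fin 2 → ℝ, eval w p = 0 → dist w z < r → 0 ≤ eval w j) ∧
    ∀ (n : ℕ) (c : Fin n → A) (u : A), j - ∑ k, c k ^ 2 - p * u ∉ mz (cz z) ^ 3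

private lemma ev2_h12 {z : Fin 2 → ℝ} {f : A} (hf : f ∈ mz (cz z) ^ 2) :
    eval z f = 0 ∧ ∀ i, eval z (pderiv i f) = 0 := by
  rw [pow_two] at hf
  refine Submodule.mul_induction_on hf ?_ ?_
  · intro a ha b hb
    have ha' : eval z a = 0 := (mz_real z a).1 ha
    have hb' : eval z b = 0 := (mz_real z b).1 hb
    refine ⟨?_, fun i => ?_⟩
    · change eval z (a * b) = 0
      rw [map_mul, ha', zero_mul]
    · change eval z (pderiv i (a * b)) = 0
      rw [pderiv_mul, map_add, map_mul, map_mul, ha', hb', mul_zero, zero_mul, add_zero]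
  · intro a b ha hb
    refine ⟨?_, fun i => ?_⟩
    · rw [map_add, ha.1, hb.1, add_zero]
    · rw [map_add, map_add, ha.2 i, hb.2 i, add_zero]

private lemma ev3_h12 {z : Fin 2 → ℝ} {f : A} (hf : f ∈ mz (cz z) ^ 3) :
    eval z f = 0 ∧ (∀ i, eval z (pderiv i f) = 0) ∧
      ∀ i k, eval z (pderiv i (pderiv k f)) = 0 := by
  rw [pow_succ] at hf
  refine Submodule.mul_induction_on hf ?_ ?_
  · intro a ha b hb
    obtain ⟨ha0, ha1⟩ := ev2_h12 ha
    have hb' : eval z b = 0 := (mz_real z b).1 hb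
    refine ⟨?_, fun i => ?_, fun i k => ?_⟩
    · change eval z (a * b) = 0
      rw [map_mul, hb', mul_zero]
    · change eval z (pderiv i (a * b)) = 0
      rw [pderiv_mul, map_add, map_mul, map_mul, ha0, hb', mul_zero, zero_mul, add_zero]
    · change eval z (pderiv i (pderiv k (a * b))) = 0
      rw [pderiv_mul, map_add, pderiv_mul, pderiv_mul]
      simp only [map_add, map_mul, ha0, ha1, hb', mul_zero, zero_mul, add_zero]
  · intro a b ha hb
    refine ⟨?_, fun i => ?_, fun i k => ?_⟩
    · rw [map_add, ha.1, hb.1, add_zero]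
    · rw [map_add, map_add, ha.2.1 i, hb.2.1 i, add_zero]
    · rw [map_add, map_add, map_add, ha.2.2 i k, hb.2.2 i k, add_zero]

private lemma sq0_h12 {p j : A} {z : Fin 2 → ℝ} (hp : eval z p = 0) (hj : eval z j = 0) {n : ℕ}
    {c : Fin n → A} {u : A} (h : eval z (j - ∑ k, c k ^ 2 - p * u) = 0) :
    ∀ k, eval z (c k) = 0 := by
  have h1 : ∑ k, eval z (c k) ^ 2 = 0 := by
    simp only [map_sub, map_sum, map_pow, map_mul, hp, hj] at h
    linarith
  intro k
  have h2 := (Finset.sum_eq_zero_iff_of_nonneg (fun i _ => sq_nonneg (eval z (c i)))).1 h1 k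
    (Finset.mem_univ k)
  exact pow_eq_zero_iff (two_ne_zero) |>.1 h2

theorem jet_lin {p j : A} {z : Fin 2 → ℝ} (hp : Sg p z) (hj : eval z j = 0) {i : Fin 2}
    (hi : eval z (pderiv i j) ≠ 0) (n : ℕ) (c : Fin n → A) (u : A) :
    j - ∑ k, c k ^ 2 - p * u ∉ mz (cz z) ^ 3 := by
  intro h
  obtain ⟨h0, h1, -⟩ := ev3_h12 h
  have hc := sq0_h12 hp.1 hj h0
  apply hi
  have h2 := h1 i
  have h3 : ∀ k, eval z (pderiv i (c k ^ 2)) = 0 := by
    intro k
    rw [pow_two, pderiv_mul, map_add, map_mul, map_mul, hc k, mul_zero, zero_mul, add_zero]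
  simp only [map_sub, map_sum] at h2
  rw [pderiv_mul, map_add, map_mul, map_mul, hp.1, hp.2 i,
    Finset.sum_eq_zero (fun k _ => h3 k)] at h2
  linarith

theorem jet_quad {p j : A} {z : Fin 2 → ℝ} (hp : Sg p z)
    (hp2 : ∀ i k, eval z (pderiv i (pderiv k p)) = 0) (hj : eval z j = 0)
    (hj1 : ∀ i, eval z (pderiv i j) = 0) (v : Fin 2 → ℝ)
    (hv : ∑ i, ∑ k, v i * v k * eval z (pderiv i (pderiv k j)) < 0) (n : ℕ) (c : Fin n → A)
    (u : A) : j - ∑ k, c k ^ 2 - p * u ∉ mz (cz z) ^ 3 := by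
  intro h
  obtain ⟨h0, -, h1⟩ := ev3_h12 h
  have hc := sq0_h12 hp.1 hj h0
  have h3 : ∀ i k l, eval z (pderiv i (pderiv k (c l ^ 2))) =
      2 * (eval z (pderiv i (c l)) * eval z (pderiv k (c l))) := by
    intro i k l
    rw [pow_two, pderiv_mul, map_add, pderiv_mul, pderiv_mul]
    simp only [map_add, map_mul, hc l]
    ring
  have h4 : ∀ i k, eval z (pderiv i (pderiv k (p * u))) = 0 := by
    intro i k
    rw [pderiv_mul, map_add, pderiv_mul, pderiv_mul]
    simp only [map_add, map_mul, hp.1, hp.2, hp2, zero_mul, add_zero]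
  have h5 : ∀ i k, eval z (pderiv i (pderiv k j)) =
      ∑ l, 2 * (eval z (pderiv i (c l)) * eval z (pderiv k (c l))) := by
    intro i k
    have h6 := h1 i k
    simp only [map_sub, map_sum] at h6
    rw [h4 i k, Finset.sum_congr rfl (fun l _ => h3 i k l)] at h6
    linarith
  have h7 : ∑ i, ∑ k, v i * v k * eval z (pderiv i (pderiv k j)) =
      ∑ l, 2 * (∑ i, v i * eval z (pderiv i (c l))) ^ 2 := by
    simp only [h5, Fin.sum_univ_two, Finset.mul_sum, ← Finset.sum_add_distrib]
    refine Finset.sum_congr rfl fun l _ => ?_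
    ring
  rw [h7] at hv
  exact absurd hv (not_lt.2 (Finset.sum_nonneg fun l _ => by positivity))

end Pool.Agent.Helper10.GN
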