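import Pool.Agent.Helper10.GN.Str
import Pool.Agent.Helper10.GN.Jet

set_option autoImplicit false

/-!
# Project GN, block OB2: the obstruction at a bad singular point where `P₁ ≠ 0`

`StarP p P₁`, `p ∤ P₁`, `z` a real zero of `p`: `Jet p z` leads to a contradiction.

Proof. `j, r` from `Jet`. (1) `exists_theta` with `M₁`, `2 M₁ ≥ 1 +` the pole order of `P₁² ρ` at all real infinite places, `ρ = (X 0 - z 0)⁴ + (X 1 - z 1)⁴`: `θ_i`,
`e₀ = ∑ θ_i²`, positive at all real zeros of `p`, `P₁² ρ e₀` vanishes at the real infinite places. (2) `exists_theta` with `M₂` such that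
`M₂ ≥ (pole order of j) + ord_ω e₀` and `M₂ ≥ 1 +` the pole order of `P₁² j` at all real infinite places `ω`: some `θ'_i(z) ≠ 0` (unimodular); `u = θ'_i/θ'_i(z)`,
`χ = 1 - (1 - u)⁴ = u (...)`, divisible by `θ'_i`; `u` is regular (zero) at the real infinite places, so `Oge ω M₂ χ`.
(3) Near `z` `u` is near `1`, so there is `0 < r' ≤ r` with `χ(w) ≥ 0` for `dist w z < r'`; so `j χ ≥ 0` at the real zeros of `p` in this ball. (4) `j χ/e₀` is regular at all
real places, so `|j(w) χ(w)| ≤ K e₀(w)` at all real zeros `w` of `p` with a real place over them (`bdd`, `rv_over`), and also, enlarging `K`, at the finitely many others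
(singular points). For `dist w z ≥ r'` `ρ(w) ≥ δ > 0`. (5) `h = j χ + (K/δ) ρ e₀ ≥ 0` at all real zeros of `p`. `H = P₁ h`: `P₁ H = P₁² h ≥ 0` and vanishes at the real infinite
places. `StarP`: `p ∣ P₁ h - P₁ ∑ c_k²`, so `h = ∑ c_k² + p u'` (`p` prime, `p ∤ P₁`). But
`h - j = - j (1 - u)⁴ + (K/δ) ρ e₀ ∈ m³`, `m = mz (cz z)`. So `j - ∑ c_k² - p u' ∈ m³`, contradiction.
-/

namespace Pool.Agent.Helper10.GN

open VC FF MvPolynomial Pool.Agent.Helper68.QM

variable {F : Type} [Field F] [Algebra ℂ F] {s : RStr F} (hF : IsFunctionField ℂ F)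
variable {p : A} {π : CP →ₐ[ℂ] F}
include hF

omit hF in
private theorem pole75 (f : F) {T : Set (Place ℂ F)} (hT : T.Finite) :
    ∃ M : ℕ, ∀ P ∈ T, Oge P (-(M : ℤ)) f ∧ ord P.ring f ≤ M := by
  classical
  refine ⟨∑ P ∈ hT.toFinset, (ord P.ring f).natAbs, fun P hP => ?_⟩
  have h1 : (ord P.ring f).natAbs ≤ ∑ P ∈ hT.toFinset, (ord P.ring f).natAbs :=
    Finset.single_le_sum (f := fun P : Place ℂ F => (ord P.ring f).natAbs) (fun _ _ => Nat.zero_le _)
      (hT.mem_toFinset.2 hP)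
  constructor
  · right
    omega
  · omega

omit hF in
private theorem theta75 {p : A} {n : ℕ} {θ β : Fin n → A} (h : p ∣ 1 - ∑ i, β i * θ i) {w : Fin 2 → ℝ}
    (hw : eval w p = 0) : ∃ i, eval w (θ i) ≠ 0 := by
  by_contra hcon
  push Not at hcon
  obtain ⟨q, hq⟩ := h
  have h1 := congrArg (eval w) hq
  rw [map_mul, hw, zero_mul, map_sub, map_one, map_sum, Finset.sum_eq_zero, sub_zero] at h1
  · exact one_ne_zero h1
  · intro i _
    rw [map_mul, hcon i, mul_zero]

omit hF in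
private theorem rho75 {w z : Fin 2 → ℝ} {r : ℝ} (hr : 0 < r) (h : ¬ dist w z < r) :
    r ^ 4 ≤ (w 0 - z 0) ^ 4 + (w 1 - z 1) ^ 4 := by
  rw [dist_pi_lt_iff hr] at h
  push Not at h
  obtain ⟨b, hb⟩ := h
  rw [Real.dist_eq] at hb
  have h1 : r ^ 4 ≤ (w b - z b) ^ 4 := by
    have h2 : |w b - z b| ^ 4 = (w b - z b) ^ 4 := Even.pow_abs (by decide) _
    rw [← h2]
    exact pow_le_pow_left₀ hr.le hb 4
  have p0 : 0 ≤ (w 0 - z 0) ^ 4 := Even.pow_nonneg (by decide) _
  have p1 : 0 ≤ (w 1 - z 1) ^ 4 := Even.pow_nonneg (by decide) _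
  have hb' : b = 0 ∨ b = 1 := by
    fin_cases b
    · exact Or.inl rfl
    · exact Or.inr rfl
  rcases hb' with rfl | rfl
  · linarith
  · linarith

omit hF in
private theorem cz75_inj : Function.Injective cz := by
  intro a b h
  funext i
  exact Complex.ofReal_injective (congrFun h i)

/-- boundedness of `a / e` on the real zeros -/
private theorem bound75 (hc : IsCrv p s π) (hp : Irreducible p) {a e : A}
    (he : ∀ w : Fin 2 → ℝ, eval w p = 0 → 0 < eval w e) (he0 : π (cx e) ≠ 0)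
    (h : ∀ P : Place ℂ F, ¬ FinP π P → s.cj P = P → Oge P (ord P.ring (π (cx e))) (π (cx a))) :
    ∃ K : ℝ, 0 ≤ K ∧ ∀ w : Fin 2 → ℝ, eval w p = 0 → |eval w a| ≤ K * eval w e := by
  classical
  have hinv : ∀ (P : Place ℂ F) (w : Fin 2 → ℝ), Over hF π P (cz w) → eval w p = 0 →
      (π (cx e))⁻¹ ∈ P.ring ∧ vl hF P (π (cx a) / π (cx e)) = ((eval w a / eval w e : ℝ) : ℂ) := by
    intro P w hw hwp
    have h1 : vl hF P (π (cx e)) = ((eval w e : ℝ) : ℂ) := by rw [vl_over hF hw, eval_cx]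
    have h2 : vl hF P (π (cx a)) = ((eval w a : ℝ) : ℂ) := by rw [vl_over hF hw, eval_cx]
    have h3 : vl hF P (π (cx e)) ≠ 0 := by
      rw [h1]
      exact_mod_cast (he w hwp).ne'
    obtain ⟨h4, h5⟩ := vl_inv hF (mem_of_fin hw.1 _) h3
    refine ⟨h4, ?_⟩
    rw [div_eq_mul_inv, vl_mul hF (mem_of_fin hw.1 _) h4, h5, h1, h2]
    push_cast
    rw [div_eq_mul_inv]
  have hreg : Reg s (π (cx a) / π (cx e)) := by
    intro P hP
    by_cases hfin : FinP π P
    · obtain ⟨z', hz'⟩ := exists_point hF hfin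
      have h1 := real_of_over hF hc hP hz'
      set w : Fin 2 → ℝ := fun i => (z' i).re with hw
      rw [h1] at hz'
      have hwp : eval w p = 0 := by
        have h2 := over_zero hF hc hz'
        rw [eval_cx] at h2
        exact_mod_cast h2
      rw [div_eq_mul_inv]
      exact mul_mem (mem_of_fin hfin _) (hinv P w hz' hwp).1
    · rw [← oge_zero_iff hF, oge_div_iff hF he0, zero_add]
      exact h P hfin hP
  obtain ⟨C0, hC0, hb⟩ := bdd hF hreg
  -- the exceptional points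
  obtain ⟨i, hi⟩ := hc.pderiv_ne_zero hp
  have hfc := finite_common hF hc hi
  have hB : (cz ⁻¹' {z : Fin 2 → ℂ | eval z (cx p) = 0 ∧ eval z (pderiv i (cx p)) = 0}).Finite :=
    hfc.preimage cz75_inj.injOn
  refine ⟨C0 + ∑ w ∈ hB.toFinset, |eval w a| / |eval w e|, ?_, fun w hw => ?_⟩
  · have : 0 ≤ ∑ w ∈ hB.toFinset, |eval w a| / |eval w e| := Finset.sum_nonneg fun w _ => by positivity
    linarith
  · have hew := he w hw
    have hs : 0 ≤ ∑ w ∈ hB.toFinset, |eval w a| / |eval w e| := Finset.sum_nonneg fun w _ => by positivity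
    by_cases hwB : w ∈ hB.toFinset
    · have h1 : |eval w a| / |eval w e| ≤ ∑ w ∈ hB.toFinset, |eval w a| / |eval w e| :=
        Finset.single_le_sum (f := fun w : Fin 2 → ℝ => |eval w a| / |eval w e|) (fun _ _ => by positivity) hwB
      rw [abs_of_pos hew, div_le_iff₀ hew] at h1
      refine h1.trans (mul_le_mul_of_nonneg_right ?_ hew.le)
      linarith
    · have h0 : eval (cz w) (cx p) = 0 := by rw [eval_cx, hw, Complex.ofReal_zero]
      have h2 : eval w (pderiv i p) ≠ 0 := by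
        intro h3
        apply hwB
        rw [Set.Finite.mem_toFinset]
        refine ⟨h0, ?_⟩
        rw [pderiv_cx, eval_cx, h3, Complex.ofReal_zero]
      obtain ⟨P, hP⟩ := exists_over hF hc h0
      have h4 := real_smooth hF hc h2 hP
      have h5 := hb P h4
      rw [(hinv P w hP hw).2, Complex.norm_real, Real.norm_eq_abs, abs_div, abs_of_pos hew, div_le_iff₀ hew] at h5
      refine h5.trans (mul_le_mul_of_nonneg_right ?_ hew.le)
      linarith

theorem no_jet (hc : IsCrv p s π) (hp : Irreducible p) (hsc : SC p)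
    (hn : ∃ P : Place ℂ F, ¬ FinP π P ∧ s.cj P ≠ P) {P₁ : A} (hP₁ : ¬ p ∣ P₁)
    (hstar : StarP p P₁ s π) {z : Fin 2 → ℝ} (hz : eval z p = 0) : ¬ Jet p z := by
  rintro ⟨j, hj0, ⟨r, hr, hjr⟩, hjm⟩
  have hT := finite_inf hF hc
  set ρ : A := (X 0 - C (z 0)) ^ 4 + (X 1 - C (z 1)) ^ 4 with hρ
  have hρev : ∀ w : Fin 2 → ℝ, eval w ρ = (w 0 - z 0) ^ 4 + (w 1 - z 1) ^ 4 := by
    intro w
    simp [hρ]
  -- (1)
  obtain ⟨m1, hm1⟩ := pole75 (π (cx (P₁ ^ 2 * ρ))) hT
  obtain ⟨n₁, θ, β, hθ, hβ⟩ := exists_theta hF hc hp hn (m1 + 1)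
  set e₀ : A := ∑ i, θ i ^ 2 with he₀
  have hepos : ∀ w : Fin 2 → ℝ, eval w p = 0 → 0 < eval w e₀ := by
    intro w hw
    obtain ⟨i, hi⟩ := theta75 hβ hw
    rw [he₀, map_sum]
    refine Finset.sum_pos' (fun k _ => ?_) ⟨i, Finset.mem_univ _, ?_⟩
    · rw [map_pow]
      exact sq_nonneg _
    · rw [map_pow]
      positivity
  have hene : π (cx e₀) ≠ 0 := by
    intro h0
    obtain ⟨q, hq⟩ := (hc.eq_zero_iff e₀).1 h0
    have h1 := hepos z hz
    rw [hq, map_mul, hz, zero_mul] at h1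
    exact lt_irrefl _ h1
  have he1 : ∀ P : Place ℂ F, ¬ FinP π P → s.cj P = P → Oge P 1 (π (cx (P₁ ^ 2 * ρ)) * π (cx e₀)) := by
    intro P hP hP'
    have h1 : Oge P (((2 : ℕ) : ℤ) * ((m1 + 1 : ℕ) : ℤ)) (π (cx e₀)) := by
      rw [he₀, map_sum, map_sum]
      refine oge_sum hF _ _ fun i _ => ?_
      rw [map_pow, map_pow]
      exact oge_pow hF (hθ i P hP hP') 2
    refine (oge_mul hF (hm1 P hP).1 h1).mono ?_
    push_cast
    omega
  -- (2)
  obtain ⟨ma, hma⟩ := pole75 (π (cx j)) hT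
  obtain ⟨mb, hmb⟩ := pole75 (π (cx e₀)) hT
  obtain ⟨mc, hmc⟩ := pole75 (π (cx (P₁ ^ 2 * j))) hT
  obtain ⟨n₂, θ', β', hθ', hβ'⟩ := exists_theta hF hc hp hn (ma + mb + mc + 1)
  obtain ⟨i₀, hi₀⟩ := theta75 hβ' hz
  set u : A := C (eval z (θ' i₀))⁻¹ * θ' i₀ with hu
  have huz : eval z u = 1 := by
    rw [hu, map_mul, eval_C, inv_mul_cancel₀ hi₀]
  set v : A := 1 - u with hv
  set χ : A := u * (1 + v + v ^ 2 + v ^ 3) with hχ
  have hχv : χ = 1 - v ^ 4 := by
    rw [hχ, hv]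
    ring
  have hχo : ∀ P : Place ℂ F, ¬ FinP π P → s.cj P = P → Oge P ((ma + mb + mc + 1 : ℕ) : ℤ) (π (cx χ)) := by
    intro P hP hP'
    have h1 : Oge P ((ma + mb + mc + 1 : ℕ) : ℤ) (π (cx u)) := by
      rw [hu, map_mul, map_mul, cx_C, IsCrv.pi_C]
      have h2 := oge_mul hF (oge_alg hF (P := P) (((eval z (θ' i₀))⁻¹ : ℝ) : ℂ)) (hθ' i₀ P hP hP')
      rwa [zero_add] at h2
    have h2 : π (cx u) ∈ P.ring := (oge_zero_iff hF).1 (h1.mono (by positivity))
    have h3 : π (cx v) ∈ P.ring := by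
      rw [hv, map_sub, map_sub, map_one, map_one]
      exact sub_mem (one_mem _) h2
    have h4 : π (cx (1 + v + v ^ 2 + v ^ 3)) ∈ P.ring := by
      simp only [map_add, map_one, map_pow]
      exact add_mem (add_mem (add_mem (one_mem _) h3) (pow_mem h3 2)) (pow_mem h3 3)
    have h5 := oge_mul hF h1 ((oge_zero_iff hF).2 h4)
    rw [add_zero, ← map_mul, ← map_mul] at h5
    exact h5
  -- (3)
  have hcu : ContinuousAt (fun w : Fin 2 → ℝ => eval w u) z := (MvPolynomial.continuous_eval u).continuousAt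
  obtain ⟨r₁, hr₁, hur⟩ := Metric.continuousAt_iff.1 hcu 1 one_pos
  set r' : ℝ := min r r₁ with hr'
  have hr'0 : 0 < r' := lt_min hr hr₁
  have hχev : ∀ w : Fin 2 → ℝ, dist w z < r' → 0 ≤ eval w χ := by
    intro w hw
    have h1 := hur (lt_of_lt_of_le hw (min_le_right _ _))
    rw [huz, Real.dist_eq] at h1
    have h2 : eval w v = 1 - eval w u := by rw [hv, map_sub, map_one]
    rw [hχv, map_sub, map_one, map_pow, h2]
    have h3 : |1 - eval w u| ≤ 1 := by
      rw [abs_sub_comm]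
      exact h1.le
    have h4 : (1 - eval w u) ^ 4 = |1 - eval w u| ^ 4 := (Even.pow_abs (by decide) _).symm
    have h5 : |1 - eval w u| ^ 4 ≤ 1 := pow_le_one₀ (abs_nonneg _) h3
    linarith
  -- (4)
  obtain ⟨K, hK0, hK⟩ := bound75 hF hc hp (a := j * χ) (e := e₀) hepos hene (by
    intro P hP hP'
    rw [map_mul, map_mul]
    refine (oge_mul hF (hma P hP).1 (hχo P hP hP')).mono ?_
    have := (hmb P hP).2
    push_cast
    omega)
  -- (5)
  set δ : ℝ := r' ^ 4 with hδ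
  have hδ0 : 0 < δ := by positivity
  set h : A := j * χ + C (K / δ) * (ρ * e₀) with hh
  have hpos : ∀ w : Fin 2 → ℝ, eval w p = 0 → 0 ≤ eval w h := by
    intro w hw
    have e1 : eval w h = eval w (j * χ) + K / δ * (eval w ρ * eval w e₀) := by
      rw [hh, map_add, map_mul (eval w) (C (K / δ)), eval_C, map_mul (eval w) ρ]
    rw [e1]
    have e2 := hepos w hw
    have e3 : 0 ≤ eval w ρ := by
      rw [hρev]
      have p0 : 0 ≤ (w 0 - z 0) ^ 4 := Even.pow_nonneg (by decide) _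
      have p1 : 0 ≤ (w 1 - z 1) ^ 4 := Even.pow_nonneg (by decide) _
      linarith
    by_cases hd : dist w z < r'
    · have h1 : 0 ≤ eval w (j * χ) := by
        rw [map_mul]
        exact mul_nonneg (hjr w hw (lt_of_lt_of_le hd (min_le_left _ _))) (hχev w hd)
      positivity
    · have h1 := rho75 hr'0 hd
      rw [← hρev w, ← hδ] at h1
      have h2 : K * eval w e₀ ≤ K / δ * (eval w ρ * eval w e₀) := by
        have h3 : K / δ * (eval w ρ * eval w e₀) = K * eval w e₀ * (eval w ρ / δ) := by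
          field_simp
        rw [h3]
        have h4 : 1 ≤ eval w ρ / δ := (one_le_div hδ0).2 h1
        have h5 : 0 ≤ K * eval w e₀ := mul_nonneg hK0 e2.le
        nlinarith
      have h3 := (abs_le.1 (hK w hw)).1
      linarith
  obtain ⟨n, c, hdvd⟩ := hstar (P₁ * h) (by
    intro P hP hP'
    have e1 : P₁ * (P₁ * h) = (P₁ ^ 2 * j) * χ + C (K / δ) * ((P₁ ^ 2 * ρ) * e₀) := by
      rw [hh]
      ring
    rw [e1, map_add, map_add, map_mul cx (P₁ ^ 2 * j), map_mul π (cx (P₁ ^ 2 * j)), map_mul cx (C (K / δ)),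
      map_mul π (cx (C (K / δ))), map_mul cx (P₁ ^ 2 * ρ), map_mul π (cx (P₁ ^ 2 * ρ)), cx_C, IsCrv.pi_C]
    refine oge_add hF ((oge_mul hF (hmc P hP).1 (hχo P hP hP')).mono ?_) ?_
    · push_cast
      omega
    · have h2 := oge_mul hF (oge_alg hF (P := P) ((K / δ : ℝ) : ℂ)) (he1 P hP hP')
      rwa [zero_add] at h2) (by
    intro w hw
    have e1 : eval w (P₁ * (P₁ * h)) = eval w P₁ ^ 2 * eval w h := by
      rw [map_mul, map_mul]
      ring
    rw [e1]
    exact mul_nonneg (sq_nonneg _) (hpos w hw))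
  rw [← mul_sub] at hdvd
  have hpr : Prime p := UniqueFactorizationMonoid.irreducible_iff_prime.1 hp
  obtain ⟨u', hu'⟩ := (hpr.dvd_or_dvd hdvd).resolve_left hP₁
  refine hjm n c u' ?_
  have e1 : j - ∑ k, c k ^ 2 - p * u' = j * v ^ 4 - C (K / δ) * e₀ * ρ := by
    rw [← hu', hh, hχv]
    ring
  rw [e1]
  have hvm : v ∈ mz (cz z) := by
    rw [mz_real, hv, map_sub, map_one, huz, sub_self]
  have h43 : mz (cz z) ^ 4 ≤ mz (cz z) ^ 3 := Ideal.pow_le_pow_right (by norm_num)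
  have hXm : ∀ i, (X i - C (z i) : A) ∈ mz (cz z) := by
    intro i
    rw [mz_real, map_sub, eval_X, eval_C, sub_self]
  refine sub_mem (Ideal.mul_mem_left _ _ (h43 (Ideal.pow_mem_pow hvm 4))) (Ideal.mul_mem_left _ _ ?_)
  rw [hρ]
  exact add_mem (h43 (Ideal.pow_mem_pow (hXm 0) 4)) (h43 (Ideal.pow_mem_pow (hXm 1) 4))

end Pool.Agent.Helper10.GN
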