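import Pool.Agent.Helper10.GN.Glu
import Pool.Agent.Helper10.GN.CB

set_option autoImplicit false

/-!
# Project GN, block MXI: maximal ideals of `ℝ[x, y]`, ideals of finite colength

`exists_mz`: `CP` is integral over `A` (via `cx`; `CP = A + i A`), so there is a maximal ideal of `CP` over `𝔪` (lying over), it is
the ideal of a point `z` (`MvPolynomial.isMaximal_iff_eq_vanishingIdeal_singleton`), and its preimage under `cx` is `mz z = 𝔪`.
`mz_max`: `mz z` is the kernel of `A → ℂ`, the image is a domain finite over `ℝ`, so a field (or: the image is `ℝ` or `ℂ`).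
`mz_real`: `a ∈ mz (cz z) ↔ eval z a = 0` (`eval_cx`). `exists_inv`: `a ∉ 𝔪` is invertible modulo `𝔪^L`.
`fc_monic`: `A/I` finite-dimensional: for every `u : A` the powers of `u` are linearly dependent modulo `I`, so there is
`ν ≠ 0` with `aeval u ν ∈ I`. `fc_of_two`: if `ν(X 0), ν'(X 1) ∈ I`, both nonzero, then `A/I` is spanned by finitely many
monomials. `fc_points`: `ν(z 0) = 0 = ν'(z 1)` leaves finitely many points. `fc_mono`: bigger ideals. `fc_reduce`: a bound for
the degrees of representatives (a basis of `A/I`).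
`mem_of_maximal`: if for every maximal ideal `𝔪 ⊇ I` there is an `a ∉ 𝔪` with `a e ∈ I` then `e ∈ I` (the colon ideal is not contained in a maximal ideal:
it contains `I`).
-/

namespace Pool.Agent.Helper10.GN

open VC FF MvPolynomial Pool.Agent.Helper68.QM

theorem exists_mz {m : Ideal A} (hm : m.IsMaximal) : ∃ z : Fin 2 → ℂ, m = mz z := by
  let _ : Field (A ⧸ m) := Ideal.Quotient.field m
  have : Algebra.FiniteType ℝ (A ⧸ m) :=
    Algebra.FiniteType.of_surjective (Ideal.Quotient.mkₐ ℝ m) (Ideal.Quotient.mkₐ_surjective ℝ m)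
  have : Module.Finite ℝ (A ⧸ m) := finite_of_finite_type_of_isJacobsonRing ℝ (A ⧸ m)
  have : Algebra.IsAlgebraic ℝ (A ⧸ m) := Algebra.IsAlgebraic.of_finite ℝ (A ⧸ m)
  obtain ⟨φ⟩ : Nonempty ((A ⧸ m) →ₐ[ℝ] ℂ) := ⟨IsAlgClosed.lift⟩
  refine ⟨fun i => φ (Ideal.Quotient.mk m (X i)), ?_⟩
  have h1 : ∀ a : A, eval (fun i => φ (Ideal.Quotient.mk m (X i))) (cx a) =
      φ (Ideal.Quotient.mk m a) := by
    intro a
    induction a using MvPolynomial.induction_on with
    | C r =>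
      rw [cx_C, eval_C]
      exact (φ.commutes r).symm
    | add p q hp hq => rw [map_add, map_add, map_add, map_add, hp, hq]
    | mul_X p i hp => rw [map_mul, map_mul, map_mul, map_mul, hp, cx_X, eval_X]
  ext a
  change a ∈ m ↔ eval _ (cx a) = 0
  rw [h1, map_eq_zero_iff φ (RingHom.injective (φ : (A ⧸ m) →+* ℂ)), Ideal.Quotient.eq_zero_iff_mem]

theorem mz_max (z : Fin 2 → ℂ) : (mz z).IsMaximal := by
  obtain ⟨φ, hφ⟩ : ∃ φ : A →ₐ[ℝ] ℂ, ∀ a, φ a = eval z (cx a) := by
    refine ⟨{ (eval z).comp cx with commutes' := fun r => ?_ }, fun a => rfl⟩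
    change eval z (cx (C r)) = _
    rw [cx_C, eval_C]
    rfl
  have h1 : mz z = RingHom.ker φ.rangeRestrict := by
    ext a
    change eval z (cx a) = 0 ↔ φ.rangeRestrict a = 0
    rw [Subtype.ext_iff, ← hφ]
    rfl
  have h2 : IsField φ.range := Subalgebra.isField_of_algebraic φ.range
  rw [h1]
  apply Ideal.Quotient.maximal_of_isField
  exact MulEquiv.isField h2 (Ideal.quotientKerAlgEquivOfSurjective φ.rangeRestrict_surjective |>.toMulEquiv)

theorem mem_mz (z : Fin 2 → ℂ) (a : A) : a ∈ mz z ↔ eval z (cx a) = 0 := by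
  exact Iff.rfl

theorem mz_real (z : Fin 2 → ℝ) (a : A) : a ∈ mz (cz z) ↔ eval z a = 0 := by
  rw [mem_mz, eval_cx, Complex.ofReal_eq_zero]

theorem real_of_not_nr {z : Fin 2 → ℂ} (h : ¬ NR z) : ∃ z' : Fin 2 → ℝ, z = cz z' := by
  refine ⟨fun i => (z i).re, funext fun i => ?_⟩
  have h1 : (z i).im = 0 := by
    by_contra h2
    exact h ⟨i, h2⟩
  exact Complex.ext rfl h1

theorem exists_inv {m : Ideal A} (hm : m.IsMaximal) {a : A} (ha : a ∉ m) (L : ℕ) :
    ∃ a' : A, a * a' - 1 ∈ m ^ L := by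
  obtain ⟨b, c, hc, hbc⟩ := hm.exists_inv ha
  refine ⟨b * ∑ i ∈ Finset.range L, c ^ i, ?_⟩
  have h1 : a * (b * ∑ i ∈ Finset.range L, c ^ i) - 1 = -c ^ L := by
    have h2 := mul_geom_sum c L
    have h3 : b * a = 1 - c := by linear_combination hbc
    linear_combination (∑ i ∈ Finset.range L, c ^ i) * h3 - h2
  rw [h1]
  exact neg_mem (Ideal.pow_mem_pow hc L)

theorem fc_monic {I : Ideal A} (hI : FC I) (u : A) :
    ∃ ν : Polynomial ℝ, ν ≠ 0 ∧ Polynomial.aeval u ν ∈ I := by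
  have : Module.Finite ℝ (A ⧸ I) := hI
  obtain ⟨ν, hν, h⟩ := Algebra.IsIntegral.isIntegral (R := ℝ) (Ideal.Quotient.mkₐ ℝ I u)
  refine ⟨ν, hν.ne_zero, ?_⟩
  have h1 : Polynomial.aeval (Ideal.Quotient.mkₐ ℝ I u) ν = 0 := h
  rw [Polynomial.aeval_algHom_apply] at h1
  exact Ideal.Quotient.eq_zero_iff_mem.1 h1

theorem fc_of_two {I : Ideal A} {ν ν' : Polynomial ℝ} (h : ν ≠ 0) (h' : ν' ≠ 0)
    (hI : Polynomial.aeval (X 0 : A) ν ∈ I) (hI' : Polynomial.aeval (X 1 : A) ν' ∈ I) : FC I := by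
  have h0 : ∀ (u : A) (ν : Polynomial ℝ), ν ≠ 0 → Polynomial.aeval u ν ∈ I →
      IsIntegral ℝ (Ideal.Quotient.mkₐ ℝ I u) := by
    intro u ν hν hu
    refine IsAlgebraic.isIntegral ⟨ν, hν, ?_⟩
    rw [Polynomial.aeval_algHom_apply]
    exact Ideal.Quotient.eq_zero_iff_mem.2 hu
  have h1 : ∀ i : Fin 2, IsIntegral ℝ (Ideal.Quotient.mkₐ ℝ I (X i)) := by
    intro i
    fin_cases i
    · exact h0 _ ν h hI
    · exact h0 _ ν' h' hI'
  have h2 : ∀ a : A, IsIntegral ℝ (Ideal.Quotient.mkₐ ℝ I a) := by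
    intro a
    induction a using MvPolynomial.induction_on with
    | C r =>
      have : Ideal.Quotient.mkₐ ℝ I (C r) = algebraMap ℝ (A ⧸ I) r := rfl
      rw [this]
      exact isIntegral_algebraMap
    | add p q hp hq => rw [map_add]; exact hp.add hq
    | mul_X p i hp => rw [map_mul]; exact hp.mul (h1 i)
  have : Algebra.IsIntegral ℝ (A ⧸ I) := ⟨fun x => by
    obtain ⟨a, rfl⟩ := Ideal.Quotient.mkₐ_surjective ℝ I x
    exact h2 a⟩
  have : Algebra.FiniteType ℝ (A ⧸ I) :=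
    Algebra.FiniteType.of_surjective (Ideal.Quotient.mkₐ ℝ I) (Ideal.Quotient.mkₐ_surjective ℝ I)
  exact Algebra.IsIntegral.finite

theorem fc_points {I : Ideal A} (hI : FC I) :
    {z : Fin 2 → ℂ | ∀ a ∈ I, eval z (cx a) = 0}.Finite := by
  have h1 : ∀ i : Fin 2, ∃ ν : Polynomial ℝ, ν ≠ 0 ∧ Polynomial.aeval (X i : A) ν ∈ I :=
    fun i => fc_monic hI (X i)
  choose ν hν hνI using h1
  have h2 : {z : Fin 2 → ℂ | ∀ a ∈ I, eval z (cx a) = 0} ⊆
      Set.pi Set.univ (fun i => (ν i).rootSet ℂ) := by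
    intro z hz i _
    rw [Polynomial.mem_rootSet]
    refine ⟨hν i, ?_⟩
    have h3 := hz _ (hνI i)
    have h4 : ∀ q : Polynomial ℝ, eval z (cx (Polynomial.aeval (X i : A) q)) = Polynomial.aeval (z i) q := by
      intro q
      induction q using Polynomial.induction_on' with
      | add p q hp hq => rw [map_add, map_add, map_add, map_add, hp, hq]
      | monomial n r =>
        rw [Polynomial.aeval_monomial, Polynomial.aeval_monomial, map_mul, map_mul, map_pow, map_pow,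
          cx_X, eval_X]
        congr 1
        have : algebraMap ℝ A r = C r := rfl
        rw [this, cx_C, eval_C]
        rfl
    rw [h4] at h3
    exact h3
  exact (Set.Finite.pi' fun i => Polynomial.rootSet_finite (ν i) ℂ).subset fun z hz i => h2 hz i trivial

theorem fc_mono {I J : Ideal A} (hI : FC I) (h : I ≤ J) : FC J := by
  have : Module.Finite ℝ (A ⧸ I) := hI
  exact Module.Finite.of_surjective (Ideal.Quotient.factorₐ ℝ h).toLinearMap
    (Ideal.Quotient.factor_surjective h)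

theorem fc_reduce {I : Ideal A} (hI : FC I) :
    ∃ l : ℕ, ∀ a : A, ∃ a' : A, a'.totalDegree ≤ l ∧ a - a' ∈ I := by
  classical
  have : Module.Finite ℝ (A ⧸ I) := hI
  obtain ⟨s, hs⟩ := Module.finite_def.1 (inferInstance : Module.Finite ℝ (A ⧸ I))
  choose r hr using Ideal.Quotient.mkₐ_surjective ℝ I
  refine ⟨s.sup fun x => (r x).totalDegree, fun a => ?_⟩
  have h1 : Submodule.span ℝ (s : Set (A ⧸ I)) ≤ Submodule.map (Ideal.Quotient.mkₐ ℝ I).toLinearMap
      (restrictTotalDegree (Fin 2) ℝ (s.sup fun x => (r x).totalDegree)) := by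
    rw [Submodule.span_le]
    intro x hx
    refine ⟨r x, ?_, hr x⟩
    rw [SetLike.mem_coe, mem_restrictTotalDegree]
    exact Finset.le_sup (f := fun x => (r x).totalDegree) hx
  obtain ⟨a', ha', h2⟩ := h1 (hs ▸ Submodule.mem_top : Ideal.Quotient.mkₐ ℝ I a ∈
    Submodule.span ℝ (s : Set (A ⧸ I)))
  rw [SetLike.mem_coe, mem_restrictTotalDegree] at ha'
  refine ⟨a', ha', ?_⟩
  exact Ideal.Quotient.eq.1 h2.symm

theorem mem_of_maximal {I : Ideal A} {e : A}
    (h : ∀ m : Ideal A, m.IsMaximal → I ≤ m → ∃ a, a ∉ m ∧ a * e ∈ I) : e ∈ I := by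
  obtain ⟨J, hJ⟩ : ∃ J : Ideal A, ∀ a, a ∈ J ↔ a * e ∈ I := by
    refine ⟨⟨⟨⟨{a | a * e ∈ I}, ?_⟩, ?_⟩, ?_⟩, fun a => Iff.rfl⟩
    · intro a b ha hb
      change (a + b) * e ∈ I
      rw [add_mul]
      exact I.add_mem ha hb
    · change (0 : A) * e ∈ I
      rw [zero_mul]
      exact I.zero_mem
    · intro c a ha
      change (c * a) * e ∈ I
      rw [mul_assoc]
      exact I.mul_mem_left c ha
  by_cases hT : J = ⊤
  · have := (hJ 1).1 (by rw [hT]; trivial)
    rwa [one_mul] at this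
  · exfalso
    obtain ⟨m, hm, hJm⟩ := Ideal.exists_le_maximal J hT
    obtain ⟨a, ha, hae⟩ := h m hm (fun x hx => hJm ((hJ x).2 (I.mul_mem_right e hx)))
    exact ha (hJm ((hJ a).2 hae))

end Pool.Agent.Helper10.GN
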