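import Pool.Agent.Helper10.GN.Sup0
import Pool.Agent.Helper10.GN.Mxi

set_option autoImplicit false

/-!
# Project GN, block STA: from bounded representations modulo `Q² I₀` to stability

`g = - Q² h₀`, `I₀ = supM h₀`. Let `f = s + t g`, `totalDegree f ≤ d`, `t = ∑ c_j²`. By `fc_reduce` `c_j = c'_j + i_j`, `i_j ∈ I₀`, with
`c'_j` of degree `≤ l₀`; `h₀ c_j² - h₀ c'_j² ∈ I₀`. With `t' = ∑ c'_j²` (degree `≤ 2 l₀`) the polynomial
`f' = f + Q² h₀ t' = s - Q² h₀ (t - t') ∈ Σ + Q² I₀` has bounded degree, so by `hBR` `f' = ∑ b_j² + Q² e`, `b_j` of bounded degree, `e ∈ I₀`, and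
`e` has bounded degree (`Q ≠ 0`; if `Q = 0` then `g = 0` and the claim is the theorem for sums of squares: `degree_sum_sq`). The space of
the elements of `I₀` of degree `≤ l'` is finite-dimensional, with a basis `e_k`, `± e_k ∈ M_{-h₀}`; so `e = ∑ λ_k e_k = ∑ |λ_k| (± e_k)` is
`S₁ - h₀ T₁` with sums of squares of bounded degree. `f = (∑ b_j² + Q² S₁) + (T₁ + t') g`.
-/

namespace Pool.Agent.Helper10.GN

open VC FF MvPolynomial Pool.Agent.Helper68.QM


private def Bd1 (h₀ : A) (M : ℕ) (e : A) : Prop :=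
  ∃ S T : A, IsSumSq S ∧ IsSumSq T ∧ e = S + T * (-h₀) ∧ S.totalDegree ≤ M ∧ T.totalDegree ≤ M

private theorem bd_add1 {h₀ : A} {M : ℕ} {e e' : A} (h : Bd1 h₀ M e) (h' : Bd1 h₀ M e') :
    Bd1 h₀ M (e + e') := by
  obtain ⟨S, T, hS, hT, he, h1, h2⟩ := h
  obtain ⟨S', T', hS', hT', he', h1', h2'⟩ := h'
  refine ⟨S + S', T + T', hS.add hS', hT.add hT', by rw [he, he']; ring, ?_, ?_⟩
  · exact (totalDegree_add _ _).trans (max_le h1 h1')
  · exact (totalDegree_add _ _).trans (max_le h2 h2')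

private theorem deg_C_mul1 (c : ℝ) (S : A) : (C c * S).totalDegree ≤ S.totalDegree := by
  refine (totalDegree_mul _ _).trans ?_
  rw [totalDegree_C, zero_add]

private theorem bd_smul1 {h₀ : A} {M : ℕ} {e : A} {c : ℝ} (hc : 0 ≤ c) (h : Bd1 h₀ M e) :
    Bd1 h₀ M (C c * e) := by
  obtain ⟨S, T, hS, hT, he, h1, h2⟩ := h
  refine ⟨C c * S, C c * T, (isSumSq_C hc).mul hS, (isSumSq_C hc).mul hT, by rw [he]; ring, ?_, ?_⟩
  · exact (deg_C_mul1 c S).trans h1
  · exact (deg_C_mul1 c T).trans h2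

private theorem bd_smul2 {h₀ : A} {M : ℕ} {e : A} (c : ℝ) (h : Bd1 h₀ M e) (h' : Bd1 h₀ M (-e)) :
    Bd1 h₀ M (C c * e) := by
  rcases le_total 0 c with hc | hc
  · exact bd_smul1 hc h
  · have h1 := bd_smul1 (c := -c) (by linarith) h'
    have e1 : C (-c) * (-e) = C c * e := by
      rw [C_neg]
      ring
    rwa [e1] at h1

private theorem bd_mono1 {h₀ : A} {M M' : ℕ} (hM : M ≤ M') {e : A} (h : Bd1 h₀ M e) : Bd1 h₀ M' e := by
  obtain ⟨S, T, hS, hT, he, h1, h2⟩ := h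
  exact ⟨S, T, hS, hT, he, h1.trans hM, h2.trans hM⟩

private noncomputable def bdSub1 (h₀ : A) (M : ℕ) : Submodule ℝ A where
  carrier := {e | Bd1 h₀ M e ∧ Bd1 h₀ M (-e)}
  zero_mem' := by
    have h : Bd1 h₀ M 0 := ⟨0, 0, IsSumSq.zero, IsSumSq.zero, by ring, by simp, by simp⟩
    exact ⟨h, by rw [neg_zero]; exact h⟩
  add_mem' := fun {a b} ha hb => ⟨bd_add1 ha.1 hb.1, by
    rw [neg_add]
    exact bd_add1 ha.2 hb.2⟩
  smul_mem' := fun c {x} hx => by
    rw [smul_eq_C_mul]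
    refine ⟨bd_smul2 c hx.1 hx.2, ?_⟩
    rw [← mul_neg]
    exact bd_smul2 c hx.2 (by rw [neg_neg]; exact hx.1)

private theorem exists_bd1 {h₀ : A} (l : ℕ) :
    ∃ M : ℕ, ∀ e ∈ supM h₀, e.totalDegree ≤ l → Bd1 h₀ M e := by
  classical
  let W : Submodule ℝ A := (restrictTotalDegree (Fin 2) ℝ l) ⊓ ((supM h₀).restrictScalars ℝ)
  have hWfd : FiniteDimensional ℝ W :=
    Submodule.finiteDimensional_of_le (S₂ := restrictTotalDegree (Fin 2) ℝ l) inf_le_left
  obtain ⟨t, ht⟩ := (Submodule.fg_iff_finiteDimensional W).2 hWfd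
  have h1 : ∀ x : A, ∃ M : ℕ, x ∈ t → x ∈ bdSub1 h₀ M := by
    intro x
    by_cases hx : x ∈ t
    · have h1 : x ∈ W := by
        rw [← ht]
        exact Submodule.subset_span hx
      have h2 : x ∈ supM h₀ := h1.2
      rw [mem_supM] at h2
      obtain ⟨⟨S, T, hS, hT, he⟩, ⟨S', T', hS', hT', he'⟩⟩ := h2
      refine ⟨max (max S.totalDegree T.totalDegree) (max S'.totalDegree T'.totalDegree),
        fun _ => ⟨⟨S, T, hS, hT, he, ?_, ?_⟩, ⟨S', T', hS', hT', he', ?_, ?_⟩⟩⟩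
      · exact le_max_of_le_left (le_max_left _ _)
      · exact le_max_of_le_left (le_max_right _ _)
      · exact le_max_of_le_right (le_max_left _ _)
      · exact le_max_of_le_right (le_max_right _ _)
    · exact ⟨0, fun h => absurd h hx⟩
  choose M hM using h1
  refine ⟨t.sup M, fun e he hl => ?_⟩
  have h2 : W ≤ bdSub1 h₀ (t.sup M) := by
    rw [← ht, Submodule.span_le]
    intro x hx
    have h3 := hM x hx
    have h4 : M x ≤ t.sup M := Finset.le_sup (f := M) hx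
    exact ⟨bd_mono1 h4 h3.1, bd_mono1 h4 h3.2⟩
  have h3 : e ∈ W := ⟨(mem_restrictTotalDegree _ _ _).2 hl, he⟩
  exact (h2 h3).1

theorem stable_of_br {Q h₀ : A} (hFC : FC (supM h₀))
    (hBR : BRep (Ideal.span {Q ^ 2} * supM h₀) fun _ => True) : Stable (-(Q ^ 2 * h₀)) := by
  classical
  by_cases hQ : Q = 0
  · refine ⟨fun d => d, fun d f hf hd => ⟨f, 0, ?_, IsSumSq.zero, by ring, hd, by simp⟩⟩
    obtain ⟨s, t, hs, ht, rfl⟩ := hf
    rw [hQ]
    have e : s + t * -((0 : A) ^ 2 * h₀) = s := by ring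
    rw [e]
    exact hs
  obtain ⟨l₀, hl₀⟩ := fc_reduce hFC
  choose rd hrd1 hrd2 using hl₀
  choose lb hlb using hBR
  choose lM hlM using fun l => exists_bd1 (h₀ := h₀) l
  let d' : ℕ → ℕ := fun d => max d ((Q ^ 2 * h₀).totalDegree + 2 * l₀)
  let l' : ℕ → ℕ := fun d => max (d' d) (2 * lb (d' d))
  let M : ℕ → ℕ := fun d => lM (l' d)
  refine ⟨fun d => max (max (2 * lb (d' d)) ((Q ^ 2).totalDegree + M d))
    (max (M d) (2 * l₀) + (Q ^ 2 * h₀).totalDegree), fun d f hf hd => ?_⟩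
  obtain ⟨s, t, hs, ht, hfst⟩ := hf
  obtain ⟨n, a, ha⟩ := IsSumSq.exists_list hs
  obtain ⟨m, c, hc⟩ := IsSumSq.exists_list ht
  let t' : A := ∑ j, rd (c j) ^ 2
  have ht' : IsSumSq t' := IsSumSq.sum_sq _ _
  have ht'd : t'.totalDegree ≤ 2 * l₀ := by
    refine totalDegree_finsetSum_le fun j _ => ?_
    refine (totalDegree_pow _ _).trans ?_
    exact Nat.mul_le_mul_left 2 (hrd1 _)
  have htt : t - t' ∈ supM h₀ := by
    rw [hc]
    change ∑ i, c i ^ 2 - ∑ j, rd (c j) ^ 2 ∈ supM h₀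
    rw [← Finset.sum_sub_distrib]
    refine Ideal.sum_mem _ fun j _ => ?_
    have e : c j ^ 2 - rd (c j) ^ 2 = (c j + rd (c j)) * (c j - rd (c j)) := by ring
    rw [e]
    exact Ideal.mul_mem_left _ _ (hrd2 (c j))
  let f' : A := f + Q ^ 2 * h₀ * t'
  have hf'd : f'.totalDegree ≤ d' d := by
    refine (totalDegree_add _ _).trans (max_le_max hd ?_)
    refine (totalDegree_mul _ _).trans ?_
    exact Nat.add_le_add_left ht'd _
  have hf'r : f' - ∑ j, a j ^ 2 ∈ Ideal.span {Q ^ 2} * supM h₀ := by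
    rw [Ideal.mem_span_singleton_mul]
    refine ⟨-(h₀ * (t - t')), ?_, ?_⟩
    · exact neg_mem (Ideal.mul_mem_left _ _ htt)
    · change _ = f + Q ^ 2 * h₀ * t' - ∑ j, a j ^ 2
      rw [hfst, ← ha]
      ring
  obtain ⟨N, b, hbd, hb⟩ := hlb (d' d) f' hf'd trivial ⟨n, a, hf'r⟩
  rw [Ideal.mem_span_singleton_mul] at hb
  obtain ⟨e, he, hQe⟩ := hb
  have hsb : (∑ j, b j ^ 2).totalDegree ≤ 2 * lb (d' d) := by
    refine totalDegree_finsetSum_le fun j _ => ?_
    refine (totalDegree_pow _ _).trans ?_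
    exact Nat.mul_le_mul_left 2 (hbd j)
  have hed : e.totalDegree ≤ l' d := by
    by_cases he0 : e = 0
    · rw [he0, totalDegree_zero]
      exact Nat.zero_le _
    have h1 : (Q ^ 2 * e).totalDegree = (Q ^ 2).totalDegree + e.totalDegree :=
      totalDegree_mul_of_isDomain (pow_ne_zero 2 hQ) he0
    have h2 : (Q ^ 2 * e).totalDegree ≤ l' d := by
      rw [hQe]
      refine (totalDegree_sub _ _).trans (max_le_max hf'd hsb)
    omega
  obtain ⟨S, T, hS, hT, heST, hSd, hTd⟩ := hlM (l' d) e he hed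
  refine ⟨∑ j, b j ^ 2 + Q ^ 2 * S, T + t', (IsSumSq.sum_sq _ _).add ((isSumSq_sq Q).mul hS),
    hT.add ht', ?_, ?_, ?_⟩
  · have h1 : f = f' - Q ^ 2 * h₀ * t' := by
      change f = f + Q ^ 2 * h₀ * t' - Q ^ 2 * h₀ * t'
      ring
    have h2 : f' = ∑ j, b j ^ 2 + Q ^ 2 * e := by
      rw [hQe]
      ring
    rw [h1, h2, heST]
    ring
  · refine le_max_of_le_left ?_
    refine (totalDegree_add _ _).trans (max_le_max hsb ?_)
    refine (totalDegree_mul _ _).trans ?_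
    exact Nat.add_le_add_left hSd _
  · refine le_max_of_le_right ?_
    refine (totalDegree_mul _ _).trans ?_
    rw [totalDegree_neg]
    refine Nat.add_le_add_right ?_ _
    exact (totalDegree_add _ _).trans (max_le_max hTd ht'd)

end Pool.Agent.Helper10.GN
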