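import Pool.Agent.Helper10.GN.Ind
import Pool.Agent.Helper10.GN.Fac
import Pool.Agent.Helper10.GN.Sta
import Pool.Agent.Helper10.GN.Cal
import Pool.Agent.Helper10.GN.Ob1
import Pool.Agent.Helper10.GN.Ob2
import Pool.Agent.Helper10.GN.JtD
import Pool.Agent.Helper10.GN.JtR
import Pool.Agent.Helper10.GN.JtM

set_option autoImplicit false

/-!
# Project GN: final assembly
-/

namespace Pool.Agent.Helper10.GN

open VC FF MvPolynomial Pool.Agent.Helper68.QM

/-- The family `p` consists of the irreducible factors of `g` which change sign, up to constants. -/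
structure Comps (g : A) {ι : Type} (p : ι → A) : Prop where
  fam : Fam p
  dvd : ∀ i, p i ∣ g
  all : ∀ r : A, Irreducible r → SC r → r ∣ g → ∃ i, Associated r (p i)

/-- The condition on the components: if some polynomial is bounded on the real zeros of `p i`, but is not constant there, then at
every real zero of `p i` the product of all the `p j` has a nonzero gradient or a negative Hessian
determinant, and all common complex zeros of `p i` and the other `p j` are real. -/
def CondF {ι : Type} [Fintype ι] (p : ι → A) : Prop :=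
  ∀ i, NTy (p i) → (∀ z : Fin 2 → ℝ, eval z (p i) = 0 →
    (∃ k, eval z (pderiv k (∏ i, p i)) ≠ 0) ∨ hess (∏ i, p i) z < 0) ∧
    ∀ j, j ≠ i → ∀ z : Fin 2 → ℂ, eval z (cx (p i)) = 0 → eval z (cx (p j)) = 0 → ¬ NR z

theorem prime_of {p : A} (hp : Irreducible p) : Prime p :=
  UniqueFactorizationMonoid.irreducible_iff_prime.1 hp

theorem fam_not_dvd {ι : Type} {p : ι → A} (hp : Fam p) {i j : ι} (h : i ≠ j) : ¬ p i ∣ p j :=
  fun hd => hp.na i j h ((hp.irr i).associated_of_dvd (hp.irr j) hd)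

theorem fam_not_dvd_prod {ι : Type} {p : ι → A} (hp : Fam p) {i : ι} (s : Finset ι)
    (hi : i ∉ s) (a : ι → ℕ) : ¬ p i ∣ ∏ j ∈ s, p j ^ a j := by
  intro h
  obtain ⟨j, hj, hd⟩ := (prime_of (hp.irr i)).exists_mem_finset_dvd h
  have h2 := (prime_of (hp.irr i)).dvd_of_dvd_pow hd
  exact fam_not_dvd hp (i := i) (j := j) (fun e => hi (by rw [e]; exact hj)) h2

theorem exists_fac_fam {ι : Type} [Fintype ι] [DecidableEq ι] {g : A} {p : ι → A}
    (hg : ∀ z : Fin 2 → ℝ, eval z g ≤ 0) (h0 : g ≠ 0) (hc : Comps g p) :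
    ∃ (a : ι → ℕ) (h₀ : A), (∀ i, 1 ≤ a i) ∧ g = - ((∏ i, p i ^ a i) ^ 2 * h₀) ∧
      (∀ z : Fin 2 → ℝ, 0 ≤ eval z h₀) ∧ ∀ r : A, Irreducible r → SC r → ¬ r ∣ h₀ := by
  classical
  have hp := hc.fam
  -- exponents are bounded
  have hne : ∀ i, p i ≠ 0 := fun i => (hp.irr i).ne_zero
  have hdeg1 : ∀ i, 1 ≤ (p i).totalDegree := by
    intro i
    by_contra hcon
    have h1 : (p i).totalDegree = 0 := by omega
    rw [totalDegree_eq_zero_iff_eq_C] at h1
    obtain ⟨⟨z, hz⟩, w, hw⟩ := hp.sc i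
    rw [h1, eval_C] at hz hw
    exact absurd hz (not_lt.2 hw.le)
  have hprodne : ∀ a : ι → ℕ, ∏ i, p i ^ a i ≠ 0 := fun a =>
    Finset.prod_ne_zero_iff.2 fun i _ => pow_ne_zero _ (hne i)
  have hbound : ∀ a : ι → ℕ, (∏ i, p i ^ a i) ^ 2 ∣ g → ∑ i, a i ≤ g.totalDegree := by
    rintro a ⟨c, hc'⟩
    have hc0 : c ≠ 0 := by
      rintro rfl
      rw [mul_zero] at hc'
      exact h0 hc'
    have h1 : ∀ s : Finset ι, ∑ i ∈ s, a i ≤ (∏ i ∈ s, p i ^ a i).totalDegree := by
      intro s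
      induction s using Finset.induction_on with
      | empty => simp
      | insert i s hi ih =>
        rw [Finset.sum_insert hi, Finset.prod_insert hi, totalDegree_mul_of_isDomain
          (pow_ne_zero _ (hne i)) (Finset.prod_ne_zero_iff.2 fun j _ => pow_ne_zero _ (hne j))]
        have h2 : a i ≤ (p i ^ a i).totalDegree := by
          have h3 : ∀ k : ℕ, k ≤ (p i ^ k).totalDegree := by
            intro k
            induction k with
            | zero => simp
            | succ k ihk =>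
              rw [pow_succ, totalDegree_mul_of_isDomain (pow_ne_zero _ (hne i)) (hne i)]
              have := hdeg1 i
              omega
          exact h3 _
        omega
    have h2 := h1 Finset.univ
    rw [hc', totalDegree_mul_of_isDomain (pow_ne_zero _ (hprodne a)) hc0, pow_two,
      totalDegree_mul_of_isDomain (hprodne a) (hprodne a)]
    omega
  -- maximal exponents
  obtain ⟨a, ha, hmax⟩ : ∃ a : ι → ℕ, (∏ i, p i ^ a i) ^ 2 ∣ g ∧
      ∀ b : ι → ℕ, (∏ i, p i ^ b i) ^ 2 ∣ g → ∑ i, b i ≤ ∑ i, a i := by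
    have hP : ∃ k, ∃ a : ι → ℕ, (∏ i, p i ^ a i) ^ 2 ∣ g ∧ ∑ i, a i = k := ⟨0, fun _ => 0, by simp, by simp⟩
    let k := Nat.findGreatest (fun k => ∃ a : ι → ℕ, (∏ i, p i ^ a i) ^ 2 ∣ g ∧ ∑ i, a i = k)
      g.totalDegree
    have hk : ∃ a : ι → ℕ, (∏ i, p i ^ a i) ^ 2 ∣ g ∧ ∑ i, a i = k := by
      apply Nat.findGreatest_spec (P := fun k => ∃ a : ι → ℕ, (∏ i, p i ^ a i) ^ 2 ∣ g ∧ ∑ i, a i = k)
        (Nat.zero_le _)
      exact ⟨fun _ => 0, by simp, by simp⟩
    obtain ⟨a, ha, hak⟩ := hk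
    refine ⟨a, ha, fun b hb => ?_⟩
    rw [hak]
    exact Nat.le_findGreatest (hbound b hb) ⟨b, hb, rfl⟩
  obtain ⟨h, hh⟩ := ha
  have hgh : g = (∏ i, p i ^ a i) ^ 2 * h := hh
  -- `-h` is nonnegative
  have hpsd : ∀ z : Fin 2 → ℝ, 0 ≤ eval z (-h) := by
    refine psd_quot (hprodne a) (h := -g) (by rw [hgh]; ring) fun z => ?_
    rw [map_neg]
    have := hg z
    linarith
  have hnd : ∀ i, ¬ p i ∣ h := by
    intro i hi
    have h1 : p i ^ 2 ∣ -h := p_sq_dvd (hp.irr i) (hp.sc i) hpsd ((dvd_neg).2 hi)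
    have h2 : p i ^ 2 ∣ h := (dvd_neg).1 h1
    have h3 : (∏ j, p j ^ (a j + if j = i then 1 else 0)) ^ 2 ∣ g := by
      have e : ∏ j, p j ^ (a j + if j = i then 1 else 0) = (∏ j, p j ^ a j) * p i := by
        simp only [pow_add, Finset.prod_mul_distrib]
        congr 1
        rw [Finset.prod_eq_single i]
        · simp
        · intro j _ hj
          simp [hj]
        · simp
      rw [e, mul_pow, hgh]
      exact mul_dvd_mul_left _ h2
    have h4 := hmax _ h3
    rw [Finset.sum_add_distrib] at h4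
    simp at h4
  refine ⟨a, -h, ?_, ?_, hpsd, ?_⟩
  · intro i
    by_contra hcon
    have hai : a i = 0 := by omega
    have h1 : p i ∣ (∏ j, p j ^ a j) ^ 2 * h := hgh ▸ hc.dvd i
    rcases (prime_of (hp.irr i)).dvd_or_dvd h1 with h2 | h2
    · have h3 := (prime_of (hp.irr i)).dvd_of_dvd_pow h2
      have h4 : ∏ j, p j ^ a j = ∏ j ∈ Finset.univ.erase i, p j ^ a j := by
        rw [← Finset.mul_prod_erase Finset.univ _ (Finset.mem_univ i), hai, pow_zero, one_mul]
      rw [h4] at h3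
      exact fam_not_dvd_prod hp _ (Finset.notMem_erase i _) a h3
    · exact hnd i h2
  · rw [mul_neg, neg_neg]
    exact hgh
  · intro r hr hrsc hd
    have hd' : r ∣ h := (dvd_neg).1 hd
    obtain ⟨i, hi⟩ := hc.all r hr hrsc (hgh ▸ Dvd.dvd.mul_left hd' _)
    exact hnd i (hi.symm.dvd.trans hd')

theorem exists_comps {g : A} (hg : ∀ z : Fin 2 → ℝ, eval z g ≤ 0) (h0 : g ≠ 0) :
    ∃ (n : ℕ) (p : Fin n → A), Comps g p := by
  obtain ⟨n, p, a, h₀, hp, ha, he, -, hns⟩ := exists_fac hg h0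
  refine ⟨n, p, hp, fun i => ?_, fun r hr hsc hd => ?_⟩
  · rw [he]
    refine (dvd_neg).2 (Dvd.dvd.mul_right (dvd_pow ?_ two_ne_zero) _)
    exact (dvd_pow_self _ (by have := ha i; omega)).trans
      (Finset.dvd_prod_of_mem (fun j => p j ^ a j) (Finset.mem_univ i))
  · rw [he, dvd_neg] at hd
    rcases (prime_of hr).dvd_or_dvd hd with h1 | h1
    · obtain ⟨i, -, hi⟩ := (prime_of hr).exists_mem_finset_dvd ((prime_of hr).dvd_of_dvd_pow h1)
      exact ⟨i, hr.associated_of_dvd (hp.irr i) ((prime_of hr).dvd_of_dvd_pow hi)⟩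
    · exact absurd h1 (hns r hr hsc)

theorem neg_ne {h₀ : A} {q : A} (h : -(q * h₀) ≠ 0) : h₀ ≠ 0 := by
  rintro rfl
  simp at h

theorem stable_dir {ι : Type} [Fintype ι] [DecidableEq ι] {g : A} {p : ι → A}
    (hg : ∀ z : Fin 2 → ℝ, eval z g ≤ 0) (h0 : g ≠ 0) (hc : Comps g p) (h : CondF p) :
    Stable g := by
  obtain ⟨a, h₀, ha, he, hpsd, hns⟩ := exists_fac_fam hg h0 hc
  have hh0 : h₀ ≠ 0 := neg_ne (he ▸ h0)
  have hFC := fc_sup hpsd hh0 hns
  rw [he]
  exact stable_of_br hFC (br_all hc.fam (goodF_of h) a hFC)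

theorem unstable_dir {ι : Type} [Fintype ι] [DecidableEq ι] {g : A} {p : ι → A}
    (hg : ∀ z : Fin 2 → ℝ, eval z g ≤ 0) (h0 : g ≠ 0) (hc : Comps g p) (hst : Stable g) :
    CondF p := by
  obtain ⟨a, h₀, ha, he, hpsd, hns⟩ := exists_fac_fam hg h0 hc
  have hh0 : h₀ ≠ 0 := neg_ne (he ▸ h0)
  have hFC := fc_sup hpsd hh0 hns
  have hp := hc.fam
  intro i hni
  have hirr := hp.irr i
  have hsc := hp.sc i
  obtain ⟨F, _, _, s, π, hF, hcv⟩ := exists_crv hirr hsc
  have hn := nty_place hF hcv hirr hsc hni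
  rw [he] at hst
  set P₁ := ∏ j ∈ Finset.univ.erase i, p j with hP₁
  have hstar : StarP (p i) P₁ s π := star hp a ha hFC hst hni hF hcv
  have hnd : ¬ p i ∣ P₁ := by
    have := fam_not_dvd_prod hp (Finset.univ.erase i) (Finset.notMem_erase i _) (fun _ => 1)
    simpa using this
  have hprod : ∏ j, p j = p i * P₁ := (Finset.mul_prod_erase Finset.univ _ (Finset.mem_univ i)).symm
  refine ⟨fun z hz => ?_, fun j hj z hz hz' => ?_⟩
  · by_contra hcon
    push Not at hcon
    obtain ⟨hgrad, hhess⟩ := hcon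
    rw [hprod] at hgrad hhess
    have hpz : ∀ k, eval z (pderiv k (p i * P₁)) =
        eval z (pderiv k (p i)) * eval z P₁ := by
      intro k
      rw [Derivation.leibniz, smul_eq_mul, smul_eq_mul, map_add, map_mul, map_mul, hz]
      ring
    by_cases hsing : ∀ k, eval z (pderiv k (p i)) = 0
    · -- singular point of `p i`
      have hSg : Sg (p i) z := ⟨hz, hsing⟩
      have hne := no_sing hF hcv hirr hsc hn hnd hstar hSg
      have hhu := (hess_unit (r := P₁) hSg).2
      rw [hhu] at hhess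
      have hge : 0 ≤ hess (p i) z := by
        by_contra hlt
        push Not at hlt
        have : eval z P₁ ^ 2 * hess (p i) z < 0 := mul_neg_of_pos_of_neg (by positivity) hlt
        linarith
      have hnj := no_jet hF hcv hirr hsc hn hnd hstar hz
      rcases lt_or_eq_of_le hge with hgt | heq
      · exact hnj (jet_definite hSg hgt)
      · by_cases h2 : ∃ i' k, eval z (pderiv i' (pderiv k (p i))) ≠ 0
        · exact hnj (jet_rank_one hSg heq.symm h2)
        · push Not at h2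
          exact hnj (jet_mult hirr.ne_zero hSg h2)
    · push Not at hsing
      obtain ⟨k, hk⟩ := hsing
      have hz1 : eval z P₁ = 0 := by
        have h1 := hgrad k
        rw [hpz] at h1
        exact (mul_eq_zero.1 h1).resolve_left hk
      have ht := no_tangent hF hcv hirr hsc hn hnd hstar hz hk hz1
      have hm := (hess_mul hz hz1).2
      rw [hm] at hhess
      unfold Trv at ht
      have := sq_pos_of_ne_zero ht
      linarith
  · have hz1 : eval z (cx P₁) = 0 := by
      rw [hP₁, map_prod, map_prod]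
      exact Finset.prod_eq_zero (Finset.mem_erase.2 ⟨hj, Finset.mem_univ j⟩) hz'
    exact no_nonreal hF hcv hirr hsc hn hnd hstar hz hz1

/-- **Classification for `g ≤ 0`.** -/
theorem classification {ι : Type} [Fintype ι] [DecidableEq ι] {g : A} {p : ι → A}
    (hg : ∀ z : Fin 2 → ℝ, eval z g ≤ 0) (h0 : g ≠ 0) (hc : Comps g p) :
    Stable g ↔ CondF p :=
  ⟨unstable_dir hg h0 hc, stable_dir hg h0 hc⟩

end Pool.Agent.Helper10.GN
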