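import Pool.Agent.Helper10.GN.Str
import Pool.Agent.Helper10.GN.Blw

set_option autoImplicit false

/-!
# Project GN, block GEN: the general obstruction

`StarP p P₁`. There is `M` such that every real function `x` with `P₁ x` a polynomial, `Oge ω M x` at the real infinite places, and at every real finite
place regular or `PosAt`, is itself a polynomial.

Proof. `exists_theta` with `M₁` such that `2 M₁ ≥ 1 +` the pole order of `P₁²` at all real infinite places: `θ_i`, `e₀ = ∑ θ_i²`: positive at all real zeros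
of `p`, `P₁² e₀` vanishes at the real infinite places. Let `M` be such that `M ≥ ord_ω e₀` and `M ≥ 1 +` the pole order of `P₁²` at all real
infinite places `ω`. For `x` as in the statement let `v = x/e₀`: regular at `ω`, and at the real finite places regular or `PosAt` (`e₀` is a unit with positive value there). `blw`: `M'`
with `v + M'` `PosAt` at all real places, for all large `M'`. `P₁ x = π h` is real: `= π (cx k)` (`real_range`). Let `H = M' P₁ e₀ + k`, so
`π (P₁ H) = P₁² e₀ (M' + v)`, `PosAt` at all real places (`P₁² e₀` is a nonzero sum of squares; `p ∤ P₁`), so `P₁(z) H(z) ≥ 0` at every real zero `z` of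
`p` with a real place over it (`PosAt.rv_nonneg`, `rv_over`); the finitely many other real zeros (singular, `exists_over`, `real_smooth`):
`P₁(z) H(z) = M' P₁(z)² e₀(z) + P₁(z) k(z)` is `0` if `P₁(z) = 0` and `≥ 0` for large `M'` otherwise. At `ω`: `P₁² (M' e₀ + x)` vanishes. `StarP`:
`π H = π P₁ ∑ (π c_j)²`, so `M' e₀ + x = ∑ (π c_j)²` and `x` is in the range of `π`.
-/

namespace Pool.Agent.Helper10.GN

open VC FF MvPolynomial Pool.Agent.Helper68.QM

variable {F : Type} [Field F] [Algebra ℂ F] {s : RStr F} (hF : IsFunctionField ℂ F)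
variable {p : A} {π : CP →ₐ[ℂ] F}

private theorem bound61 (S : Finset (Place ℂ F)) (o : Place ℂ F → ℤ) :
    ∃ N : ℕ, ∀ P ∈ S, |o P| ≤ N := by
  refine ⟨∑ P ∈ S, (o P).natAbs, fun P hP => ?_⟩
  have h := Finset.single_le_sum (f := fun P => (o P).natAbs) (fun _ _ => Nat.zero_le _) hP
  have h' : (o P).natAbs ≤ ∑ P ∈ S, (o P).natAbs := h
  rw [Int.abs_eq_natAbs]
  exact_mod_cast h'

private theorem cz_inj61 : Function.Injective cz := by
  intro z z' h
  funext i
  exact Complex.ofReal_injective (congrFun h i)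

/-- the point below a real finite place -/
private theorem real_point61 (hc : IsCrv p s π) {P : Place ℂ F} (hf : FinP π P) (hP : s.cj P = P) :
    ∃ z : Fin 2 → ℝ, Over hF π P (cz z) ∧ eval z p = 0 := by
  obtain ⟨z, hz⟩ := exists_point hF hf
  have h1 := real_of_over hF hc hP hz
  refine ⟨fun i => (z i).re, h1 ▸ hz, ?_⟩
  have h2 := over_zero hF hc hz
  rw [h1, eval_cx] at h2
  exact_mod_cast h2

theorem gen (hc : IsCrv p s π) (hp : Irreducible p) (hsc : SC p)
    (hn : ∃ P : Place ℂ F, ¬ FinP π P ∧ s.cj P ≠ P) {P₁ : A} (hP₁ : ¬ p ∣ P₁)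
    (hstar : StarP p P₁ s π) :
    ∃ M : ℕ, ∀ x : F, s.σ x = x → (∃ h : CP, π (cx P₁) * x = π h) →
      (∀ P : Place ℂ F, ¬ FinP π P → s.cj P = P → Oge P M x) →
      (∀ P : Place ℂ F, s.cj P = P → FinP π P → x ∈ P.ring ∨ PosAt s hF P x) →
      ∃ h : CP, x = π h := by
  classical
  obtain ⟨SI, hSI⟩ : ∃ S : Finset (Place ℂ F), ∀ P, ¬ FinP π P → P ∈ S :=
    ⟨(finite_inf hF hc).toFinset, fun P hP => (Set.Finite.mem_toFinset _).2 hP⟩
  obtain ⟨q, hq⟩ : ∃ q : F, q = π (cx P₁) := ⟨_, rfl⟩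
  have hq0 : q ≠ 0 := fun h => hP₁ ((hc.eq_zero_iff P₁).1 (hq ▸ h))
  have hqσ : s.σ q = q := by rw [hq]; exact hc.real P₁
  obtain ⟨N, hN⟩ := bound61 SI fun P => ord P.ring q
  obtain ⟨n, θ, β, hθ, hβ⟩ := exists_theta hF hc hp hn (N + 1)
  obtain ⟨e₀, he₀⟩ : ∃ e : A, e = ∑ i, θ i ^ 2 := ⟨_, rfl⟩
  obtain ⟨E, hE⟩ : ∃ E : F, E = π (cx e₀) := ⟨_, rfl⟩
  have hEσ : s.σ E = E := by rw [hE]; exact hc.real e₀
  have hEsum : E = ∑ i, π (cx (θ i)) ^ 2 := by
    rw [hE, he₀, map_sum, map_sum]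
    exact Finset.sum_congr rfl fun i _ => by rw [map_pow, map_pow]
  have he0 : ∀ z : Fin 2 → ℝ, eval z p = 0 → 0 < eval z e₀ := by
    intro z hz
    have h1 : eval z e₀ = ∑ i, (eval z (θ i)) ^ 2 := by
      rw [he₀, map_sum]
      exact Finset.sum_congr rfl fun i _ => map_pow _ _ _
    rw [h1]
    refine lt_of_le_of_ne (Finset.sum_nonneg fun i _ => sq_nonneg _) fun h2 => ?_
    have h3 := (Finset.sum_eq_zero_iff_of_nonneg fun i _ => sq_nonneg (eval z (θ i))).1 h2.symm
    obtain ⟨c, hc'⟩ := hβ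
    have h4 := congrArg (eval z) hc'
    rw [map_mul, hz, zero_mul, map_sub, map_one, map_sum, sub_eq_zero] at h4
    rw [Finset.sum_eq_zero] at h4
    · exact one_ne_zero h4
    · intro i _
      rw [map_mul, (pow_eq_zero_iff (two_ne_zero)).1 (h3 i (Finset.mem_univ i)), mul_zero]
  have hpe : ¬ p ∣ e₀ := by
    intro h
    rw [he₀] at h
    have h1 := fun j => real_prime hp hsc h j
    have h2 : p ∣ ∑ i, β i * θ i := Finset.dvd_sum fun i _ => Dvd.dvd.mul_left (h1 i) _
    have h3 : p ∣ 1 := by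
      have h4 := dvd_add hβ h2
      rwa [sub_add_cancel] at h4
    exact hp.not_isUnit (isUnit_of_dvd_one h3)
  have hE0 : E ≠ 0 := fun h => hpe ((hc.eq_zero_iff e₀).1 (hE ▸ h))
  have hEsos : Sos s E := ⟨n, fun i => π (cx (θ i)), fun i => hc.real _, hEsum⟩
  obtain ⟨N', hN'⟩ := bound61 SI fun P => ord P.ring E
  obtain ⟨i, hi⟩ := hc.pderiv_ne_zero hp
  have hTfin := (finite_common hF hc hi).preimage cz_inj61.injOn
  obtain ⟨T, hT⟩ : ∃ T : Finset (Fin 2 → ℝ), ∀ z, eval z p = 0 → eval z (pderiv i p) = 0 → z ∈ T := by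
    refine ⟨hTfin.toFinset, fun z hz hz' => (Set.Finite.mem_toFinset _).2 ⟨?_, ?_⟩⟩
    · change eval (cz z) (cx p) = 0
      rw [eval_cx, hz, Complex.ofReal_zero]
    · change eval (cz z) (pderiv i (cx p)) = 0
      rw [pderiv_cx, eval_cx, hz', Complex.ofReal_zero]
  refine ⟨N' + 2 * N + 1, fun x hx hxh hxinf hxfin => ?_⟩
  -- the quotient
  obtain ⟨v, hv⟩ : ∃ v : F, v = x / E := ⟨_, rfl⟩
  have hvσ : s.σ v = v := by rw [hv, map_div₀, hx, hEσ]
  have hEv : E * v = x := by rw [hv, mul_div_cancel₀ x hE0]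
  have hvreg : ∀ P, s.cj P = P → v ∈ P.ring ∨ PosAt s hF P v := by
    intro P hP
    by_cases hfin : FinP π P
    · obtain ⟨z, hz, hz0⟩ := real_point61 hF hc hfin hP
      obtain ⟨h1, h2⟩ := rv_over hF hz e₀
      rw [← hE] at h1 h2
      have h3 : 0 < rv hF P E := by rw [h2]; exact he0 z hz0
      rcases hxfin P hP hfin with h4 | h4
      · left
        have h5 : vl hF P E ≠ 0 := by
          intro h6
          unfold rv at h3
          rw [h6, Complex.zero_re] at h3
          exact lt_irrefl _ h3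
        rw [hv, div_eq_mul_inv]
        exact P.ring.mul_mem _ _ h4 (vl_inv hF h1 h5).1
      · right
        rw [hv]
        exact PosAt.div hP hx hEσ h4 (PosAt.of_pos h1 h3)
    · left
      rw [← oge_zero_iff hF, hv, oge_div_iff hF hE0]
      refine (hxinf P hfin hP).mono ?_
      have h1 := (abs_le.1 (hN' P (hSI P hfin))).2
      push_cast
      omega
  obtain ⟨M₀, hM₀, hM₀'⟩ := blw hF hvσ hvreg
  obtain ⟨h, hh⟩ := hxh
  obtain ⟨k, hk⟩ := real_range hc (f := q * x) (by rw [map_mul, hqσ, hx]) ⟨h, by rw [hq]; exact hh⟩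
  obtain ⟨M', hM', hMT⟩ : ∃ M' : ℝ, M₀ ≤ M' ∧ ∀ z ∈ T, eval z P₁ ≠ 0 → eval z p = 0 →
      0 ≤ eval z P₁ * (M' * eval z P₁ * eval z e₀ + eval z k) := by
    refine ⟨M₀ + ∑ z ∈ T, |eval z P₁ * eval z k| / (eval z P₁ ^ 2 * |eval z e₀|), ?_, ?_⟩
    · have : 0 ≤ ∑ z ∈ T, |eval z P₁ * eval z k| / (eval z P₁ ^ 2 * |eval z e₀|) :=
        Finset.sum_nonneg fun z _ => by positivity
      linarith
    · intro z hz h1 h2
      have h3 := he0 z h2
      have h4 : |eval z P₁ * eval z k| / (eval z P₁ ^ 2 * |eval z e₀|) ≤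
          ∑ z ∈ T, |eval z P₁ * eval z k| / (eval z P₁ ^ 2 * |eval z e₀|) :=
        Finset.single_le_sum (f := fun z => |eval z P₁ * eval z k| / (eval z P₁ ^ 2 * |eval z e₀|))
          (fun z _ => by positivity) hz
      rw [abs_of_pos h3] at h4
      have h5 : 0 < eval z P₁ ^ 2 * eval z e₀ := by positivity
      rw [div_le_iff₀ h5] at h4
      have h6 := neg_abs_le (eval z P₁ * eval z k)
      nlinarith [mul_pos hM₀ h5]
  obtain ⟨H, hH⟩ : ∃ H : A, H = C M' * P₁ * e₀ + k := ⟨_, rfl⟩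
  have hπH : π (cx H) = algebraMap ℂ F (M' : ℂ) * q * E + q * x := by
    rw [hH, map_add, map_add, ← hk, map_mul, map_mul, map_mul, map_mul, cx_C, IsCrv.pi_C, ← hq, ← hE]
  have hπPH : π (cx (P₁ * H)) = q ^ 2 * E * (v + algebraMap ℂ F (M' : ℂ)) := by
    rw [map_mul, map_mul, hπH, ← hq, ← hEv]
    ring
  obtain ⟨n', c, hc'⟩ := hstar H (fun P hP hPr => by
    have hw := (abs_le.1 (hN P (hSI P hP))).1
    have hq1 : Oge P (ord P.ring q) q := Or.inr le_rfl
    have hq2 : Oge P (2 * ord P.ring q) (q ^ 2) := by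
      have := oge_pow hF hq1 2
      push_cast at this
      exact this
    have hE1 : Oge P (2 * (N + 1)) E := by
      rw [hEsum]
      refine oge_sum hF _ _ fun i _ => ?_
      have := oge_pow hF (hθ i P hP hPr) 2
      push_cast at this
      exact this
    have e : π (cx (P₁ * H)) = q ^ 2 * (algebraMap ℂ F (M' : ℂ) * E) + q ^ 2 * x := by
      rw [hπPH, ← hEv]
      ring
    rw [e]
    refine oge_add hF ?_ ?_
    · refine (oge_mul hF hq2 (oge_mul hF (oge_alg hF (M' : ℂ)) hE1)).mono ?_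
      omega
    · refine (oge_mul hF hq2 (hxinf P hP hPr)).mono ?_
      have := (abs_nonneg (ord P.ring E)).trans (hN' P (hSI P hP))
      push_cast
      omega) (fun z hz => by
    by_cases hzi : eval z (pderiv i p) = 0
    · have hzT := hT z hz hzi
      have e : eval z (P₁ * H) = eval z P₁ * (M' * eval z P₁ * eval z e₀ + eval z k) := by
        rw [hH, map_mul, map_add, map_mul, map_mul, eval_C]
      rw [e]
      by_cases h1 : eval z P₁ = 0
      · rw [h1, zero_mul]
      · exact hMT z hzT h1 hz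
    · obtain ⟨P, hP⟩ := exists_over hF hc (z := cz z) (by rw [eval_cx, hz, Complex.ofReal_zero])
      have hPr := real_smooth hF hc hzi hP
      obtain ⟨h1, h2⟩ := rv_over hF hP (P₁ * H)
      rw [← h2]
      refine PosAt.rv_nonneg hPr (hc.real _) ?_ h1
      rw [hπPH]
      have h3 : Sos s (q ^ 2 * E) := Sos.mul (Sos.sq hqσ) hEsos
      have h4 : q ^ 2 * E ≠ 0 := mul_ne_zero (pow_ne_zero 2 hq0) hE0
      exact PosAt.mul hPr h3.real (by rw [map_add, hvσ, s.alg, Complex.conj_ofReal])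
        (Sos.posAt h3 h4 hPr) (hM₀' M' hM' P hPr))
  have h1 := (hc.eq_zero_iff _).2 hc'
  rw [map_sub, map_sub, hπH, map_mul, map_mul, ← hq, sub_eq_zero] at h1
  refine ⟨cx (∑ j, c j ^ 2 - C M' * e₀), ?_⟩
  rw [map_sub, map_sub, map_mul, map_mul, cx_C, IsCrv.pi_C, ← hE]
  have h2 : q * (algebraMap ℂ F (M' : ℂ) * E + x) = q * π (cx (∑ j, c j ^ 2)) := by
    rw [← h1]
    ring
  have h3 := mul_left_cancel₀ hq0 h2
  rw [← h3]
  ring

end Pool.Agent.Helper10.GN
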