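import Pool.Agent.Helper10.GN.Trv

set_option autoImplicit false

/-!
# Project GN, block GL2: gluing

`glue`: `b i k` (`i` of N-type) agrees with `B k` at the common zeros of `p i` and the other members. For fixed `k` and `i` of N-type let
`e = b i k - B k`, `q = ∏_{j ≠ i} p j` (`Finset.univ.erase i`). The common zeros of `p i` and `q` are the common zeros of `p i` and some `p j`, they are
real (`GoodF.real`), and there `Trv (p i) q z` (`GoodF.trv`, `GoodF.two`, `trv_mul`); `e` vanishes there. So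
`e = x_i p_i + y_i q_i` (`trv_mem`). Let `c k = B k + ∑_{i N-type} y_i q_i`. Modulo `p_i` (`i` of N-type): `q_{i'} ≡ 0` for `i' ≠ i`, so
`c ≡ B + y_i q_i ≡ B + e = b i`. Modulo `p_j`, `j` not of N-type: all `q_i ≡ 0`, so `c ≡ B`. Moreover `c - B` is divisible by the
product of all `p_j` with `j` not of N-type (each `q_i`, `i` of N-type, is).

`reduce_family`: linear algebra. Let `V i` be the (finite-dimensional) image of the polynomials of degree `≤ l` in `A/(p i)`, `X` the set of classes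
`h ∈ A/(∏ p_i)` with image in `V i` for all `i`. `A/(∏ p_i) → ∏ A/(p_i)` is injective (pairwise non-associated irreducible polynomials: `∏ p_i` divides
`h` if all `p_i` do), so `X` is finite-dimensional; choose representatives of a basis, `l'` the maximum of their degrees.
-/

namespace Pool.Agent.Helper10.GN

open VC FF MvPolynomial Pool.Agent.Helper68.QM

variable {ι : Type} [Fintype ι] [DecidableEq ι]

theorem prod_dvd {p : ι → A} (hp : Fam p) {h : A} (s : Finset ι) (hd : ∀ i ∈ s, p i ∣ h) :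
    ∏ i ∈ s, p i ∣ h := by
  induction s using Finset.induction_on with
  | empty => simp
  | insert i s his ih =>
    rw [Finset.prod_insert his]
    obtain ⟨w, hw⟩ := ih fun j hj => hd j (Finset.mem_insert_of_mem hj)
    have h1 : p i ∣ h := hd i (Finset.mem_insert_self i s)
    have hpr : Prime (p i) := (hp.irr i).prime
    rw [hw] at h1
    rcases hpr.dvd_or_dvd h1 with h2 | h2
    · exfalso
      rw [hpr.dvd_finset_prod_iff] at h2
      obtain ⟨j, hj, h2⟩ := h2
      have h3 : Associated (p i) (p j) := ((hp.irr i).dvd_irreducible_iff_associated (hp.irr j)).mp h2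
      exact hp.na i j (fun hij => his (hij ▸ hj)) h3
    · rw [hw, mul_comm (p i)]
      exact mul_dvd_mul_left _ h2

theorem glue {p : ι → A} (hp : Fam p) (hg : GoodF p) {N : ℕ} (b : ι → Fin N → A)
    (B : Fin N → A)
    (h : ∀ i, NTy (p i) → ∀ j, j ≠ i → ∀ z : Fin 2 → ℝ, eval z (p i) = 0 → eval z (p j) = 0 →
      ∀ k, eval z (b i k) = eval z (B k)) :
    ∃ c : Fin N → A, (∀ i, NTy (p i) → ∀ k, p i ∣ c k - b i k) ∧
      ∀ k, ∀ s : Finset ι, (∀ j ∈ s, ¬ NTy (p j)) → ∏ j ∈ s, p j ∣ c k - B k := by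
  classical
  have hmem : ∀ i, NTy (p i) → ∀ k, ∃ x y : A,
      b i k - B k = x * p i + y * ∏ j ∈ Finset.univ.erase i, p j := by
    intro i hi k
    refine trv_mem ?_ ?_ ?_
    · intro z hz1 hz2
      rw [map_prod, map_prod, Finset.prod_eq_zero_iff] at hz2
      obtain ⟨j, hj, hz2⟩ := hz2
      exact hg.real i hi j (Finset.ne_of_mem_erase hj) z hz1 hz2
    · intro z hz1 hz2
      rw [map_prod, Finset.prod_eq_zero_iff] at hz2
      obtain ⟨j, hj, hz2⟩ := hz2
      rw [← Finset.mul_prod_erase _ _ hj]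
      refine trv_mul hz2 ?_ (hg.trv i hi j (Finset.ne_of_mem_erase hj) z hz1 hz2)
      rw [map_prod, Finset.prod_ne_zero_iff]
      intro k' hk'
      exact hg.two i hi j (Finset.ne_of_mem_erase hj) k'
        (Finset.ne_of_mem_erase (Finset.mem_of_mem_erase hk')) (Finset.ne_of_mem_erase hk') z hz1 hz2
    · intro z hz1 hz2
      rw [map_prod, Finset.prod_eq_zero_iff] at hz2
      obtain ⟨j, hj, hz2⟩ := hz2
      rw [map_sub, h i hi j (Finset.ne_of_mem_erase hj) z hz1 hz2 k, sub_self]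
  have key : ∀ i k, ∃ y : A, (NTy (p i) → ∃ x : A,
      b i k - B k = x * p i + y * ∏ j ∈ Finset.univ.erase i, p j) ∧ (¬ NTy (p i) → y = 0) := by
    intro i k
    by_cases hi : NTy (p i)
    · obtain ⟨x, y, hxy⟩ := hmem i hi k
      exact ⟨y, fun _ => ⟨x, hxy⟩, fun h => absurd hi h⟩
    · exact ⟨0, fun h => absurd h hi, fun _ => rfl⟩
  choose y hy1 hy2 using key
  refine ⟨fun k => B k + ∑ i, y i k * ∏ j ∈ Finset.univ.erase i, p j, ?_, ?_⟩
  · intro i hi k
    obtain ⟨x, hx⟩ := hy1 i k hi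
    have h1 : (B k + ∑ i', y i' k * ∏ j ∈ Finset.univ.erase i', p j) - b i k =
        (∑ i' ∈ Finset.univ.erase i, y i' k * ∏ j ∈ Finset.univ.erase i', p j) - x * p i := by
      rw [← Finset.add_sum_erase _ _ (Finset.mem_univ i)]
      linear_combination (-1) * hx
    beta_reduce
    rw [h1]
    refine dvd_sub (Finset.dvd_sum fun i' hi' => ?_) (dvd_mul_left _ _)
    refine Dvd.dvd.mul_left (Finset.dvd_prod_of_mem p ?_) _
    exact Finset.mem_erase.mpr ⟨(Finset.ne_of_mem_erase hi').symm, Finset.mem_univ i⟩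
  · intro k s hs
    beta_reduce
    rw [add_sub_cancel_left]
    refine Finset.dvd_sum fun i _ => ?_
    by_cases hi : NTy (p i)
    · refine Dvd.dvd.mul_left (Finset.prod_dvd_prod_of_subset _ _ _ ?_) _
      intro j hj
      refine Finset.mem_erase.mpr ⟨?_, Finset.mem_univ j⟩
      rintro rfl
      exact hs j hj hi
    · rw [hy2 i k hi, zero_mul]
      exact dvd_zero _

theorem reduce_family {p : ι → A} (hp : Fam p) (l : ℕ) :
    ∃ l' : ℕ, ∀ h : A, (∀ i, ∃ c : A, c.totalDegree ≤ l ∧ p i ∣ h - c) →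
      ∃ h' : A, h'.totalDegree ≤ l' ∧ ∏ i, p i ∣ h - h' := by
  classical
  let φ : A →ₗ[ℝ] ((i : ι) → A ⧸ Ideal.span {p i}) :=
    LinearMap.pi fun i => (Ideal.Quotient.mkₐ ℝ (Ideal.span {p i})).toLinearMap
  have hφ : ∀ a i, φ a i = Ideal.Quotient.mk (Ideal.span {p i}) a := fun a i => rfl
  let Ψ : (ι → restrictTotalDegree (Fin 2) ℝ l) →ₗ[ℝ] ((i : ι) → A ⧸ Ideal.span {p i}) :=
    LinearMap.pi fun i => ((Ideal.Quotient.mkₐ ℝ (Ideal.span {p i})).toLinearMap ∘ₗ
      (restrictTotalDegree (Fin 2) ℝ l).subtype) ∘ₗ LinearMap.proj i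
  have hΨ : ∀ a i, Ψ a i = Ideal.Quotient.mk (Ideal.span {p i}) (a i : A) := fun a i => rfl
  obtain ⟨W, hW⟩ : ∃ W : Submodule ℝ ((i : ι) → A ⧸ Ideal.span {p i}),
      W = LinearMap.range φ ⊓ LinearMap.range Ψ := ⟨_, rfl⟩
  have hfin : FiniteDimensional ℝ W := by
    rw [hW]
    exact Submodule.finiteDimensional_of_le (S₂ := LinearMap.range Ψ) inf_le_right
  have hfg : W.FG := (Submodule.fg_iff_finiteDimensional W).mpr hfin
  obtain ⟨S, hS⟩ := hfg
  have hlift : ∀ w : ((i : ι) → A ⧸ Ideal.span {p i}), ∃ g : A, w ∈ S → φ g = w := by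
    intro w
    by_cases hw : w ∈ S
    · have h1 : w ∈ W := by
        rw [← hS]
        exact Submodule.subset_span hw
      rw [hW] at h1
      obtain ⟨g, hg⟩ := h1.1
      exact ⟨g, fun _ => hg⟩
    · exact ⟨0, fun h => absurd h hw⟩
  choose g hg using hlift
  refine ⟨S.sup fun w => (g w).totalDegree, ?_⟩
  intro h hh
  choose c hc1 hc2 using hh
  have hhW : φ h ∈ W := by
    rw [hW]
    refine ⟨⟨h, rfl⟩, ⟨fun i => ⟨c i, (mem_restrictTotalDegree _ _ _).mpr (hc1 i)⟩, ?_⟩⟩
    funext i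
    rw [hΨ, hφ]
    exact (Ideal.Quotient.mk_eq_mk_iff_sub_mem _ _).mpr (by
      rw [Ideal.mem_span_singleton]
      have := (dvd_neg (a := p i)).mpr (hc2 i)
      rwa [neg_sub] at this)
  rw [← hS, Submodule.mem_span_finset] at hhW
  obtain ⟨f, -, hf⟩ := hhW
  refine ⟨∑ w ∈ S, f w • g w, ?_, ?_⟩
  · refine totalDegree_finsetSum_le fun w hw => ?_
    exact (totalDegree_smul_le _ _).trans (Finset.le_sup (f := fun w => (g w).totalDegree) hw)
  · refine prod_dvd hp Finset.univ fun i _ => ?_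
    have h1 : φ (∑ w ∈ S, f w • g w) = φ h := by
      rw [map_sum, ← hf]
      refine Finset.sum_congr rfl fun w hw => ?_
      rw [map_smul, hg w hw]
    have h2 := congrFun h1 i
    rw [hφ, hφ] at h2
    rw [← Ideal.mem_span_singleton]
    exact (Ideal.Quotient.mk_eq_mk_iff_sub_mem _ _).mp h2.symm

end Pool.Agent.Helper10.GN
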