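import Pool.Agent.Helper10.GN.Crv

set_option autoImplicit false

/-!
# Project GN (MP_63c74b, `g ≤ 0`): definitions, gluing

`mz z` is the maximal ideal of the complex point `z` in `A = ℝ[x, y]`. `Rot q z b B`: near the real point `z` there is an antisymmetric matrix
`S = M / D` with `S (B + b) ≡ B - b` modulo `q`. `Fam p`: a finite family of pairwise non-associated sign-changing
irreducible polynomials. `GoodF p`: the N-type members meet the others well.
-/

namespace Pool.Agent.Helper10.GN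

open VC FF MvPolynomial Pool.Agent.Helper68.QM

/-- the maximal ideal of a complex point -/
noncomputable def mz (z : Fin 2 → ℂ) : Ideal A := RingHom.ker ((eval z).comp cx)

/-- extension of a vector by zeros -/
noncomputable def extB {n : ℕ} (B : Fin n → A) (N : ℕ) : Fin N → A :=
  fun j => if h : (j : ℕ) < n then B ⟨j, h⟩ else 0

/-- near `z` there is an antisymmetric matrix `M / D` mapping `B + b` to `B - b` modulo `q` -/
def Rot {N : ℕ} (q : A) (z : Fin 2 → ℝ) (b B : Fin N → A) : Prop :=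
  ∃ (D : A) (M : Matrix (Fin N) (Fin N) A), eval z D ≠ 0 ∧ (∀ i j, M i j = - M j i) ∧
    ∀ i, q ∣ (∑ j, M i j * (B j + b j)) - D * (B i - b i)

/-- as `Rot`, with a matrix vanishing at `z`, and `b = B` at `z` -/
def RotV {N : ℕ} (q : A) (z : Fin 2 → ℝ) (b B : Fin N → A) : Prop :=
  (∀ j, eval z (b j) = eval z (B j)) ∧
  ∃ (D : A) (M : Matrix (Fin N) (Fin N) A), eval z D ≠ 0 ∧ (∀ i j, M i j = - M j i) ∧
    (∀ i j, eval z (M i j) = 0) ∧ ∀ i, q ∣ (∑ j, M i j * (B j + b j)) - D * (B i - b i)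

/-- the gradients of `p` and `q` at `z` are linearly independent -/
def Trv (p q : A) (z : Fin 2 → ℝ) : Prop :=
  eval z (pderiv 0 p) * eval z (pderiv 1 q) - eval z (pderiv 1 p) * eval z (pderiv 0 q) ≠ 0

/-- a finite family of pairwise non-associated irreducible polynomials changing sign -/
structure Fam {ι : Type} (p : ι → A) : Prop where
  irr : ∀ i, Irreducible (p i)
  sc : ∀ i, SC (p i)
  na : ∀ i j, i ≠ j → ¬ Associated (p i) (p j)

/-- the N-type members of the family have only nodes as real singular points, where no other member vanishes; they meet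
the other members only at real points, transversally, and no three members meet there -/
structure GoodF {ι : Type} (p : ι → A) : Prop where
  node : ∀ i, NTy (p i) → ∀ z : Fin 2 → ℝ, Sg (p i) z → hess (p i) z < 0
  nodeoff : ∀ i, NTy (p i) → ∀ z : Fin 2 → ℝ, Sg (p i) z → ∀ j, j ≠ i → eval z (p j) ≠ 0
  real : ∀ i, NTy (p i) → ∀ j, j ≠ i → ∀ z : Fin 2 → ℂ, eval z (cx (p i)) = 0 →
    eval z (cx (p j)) = 0 → ¬ NR z
  trv : ∀ i, NTy (p i) → ∀ j, j ≠ i → ∀ z : Fin 2 → ℝ, eval z (p i) = 0 → eval z (p j) = 0 →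
    Trv (p i) (p j) z
  two : ∀ i, NTy (p i) → ∀ j, j ≠ i → ∀ k, k ≠ i → k ≠ j → ∀ z : Fin 2 → ℝ,
    eval z (p i) = 0 → eval z (p j) = 0 → eval z (p k) ≠ 0

/-- finite colength -/
def FC (I : Ideal A) : Prop := Module.Finite ℝ (A ⧸ I)

/-- bounded representations for `Σ + I`, for the polynomials satisfying `C` -/
def BRep (I : Ideal A) (C : A → Prop) : Prop :=
  ∀ d : ℕ, ∃ l : ℕ, ∀ f : A, f.totalDegree ≤ d → C f →
    (∃ (n : ℕ) (B : Fin n → A), f - ∑ j, B j ^ 2 ∈ I) →
    ∃ (N : ℕ) (b : Fin N → A), (∀ j, (b j).totalDegree ≤ l) ∧ f - ∑ j, b j ^ 2 ∈ I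

/-- the function `x(δ) = c - 2 b·δ - P |δ|²` (with `f - |b|² = P c`: `P x(δ) = f - |b + P δ|²`) -/
noncomputable def xf {N : ℕ} (P c : A) (b δ : Fin N → A) : A :=
  c - 2 * (∑ j, b j * δ j) - P * ∑ j, δ j ^ 2

end Pool.Agent.Helper10.GN
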