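import Pool.Agent.Helper10.GN.Glu
import Pool.Agent.Helper10.GN.Rea
import Pool.Agent.Helper68.QM.Closed

set_option autoImplicit false

/-!
# Project GN, block RLP: sign-changing irreducible polynomials are real primes

`real_prime`: `p ∣ ∑ B_j²` implies `p ∣ B_j`: otherwise `exists_real_off` gives a real zero `z` of `p` with `B_j(z) ≠ 0`, but
`∑ B_j(z)² = 0`. `real_prime_div`: then `∑ B_j² = p² ∑ (B_j/p)²`. `p_sq_dvd`: if `p ∣ h`, `0 ≤ h` (or `≤ 0`) everywhere then `p² ∣ h`: let
`h = p k`; if `p ∤ k` there is a real smooth zero `z` of `p` with `k(z) ≠ 0` (`exists_real_off`); near `z` `k` has constant sign and `p` changes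
sign (gradient `≠ 0`), contradiction. `psd_quot`: if `h = p² k` and `h ≥ 0` everywhere, `p ≠ 0`, then `k ≥ 0` everywhere (density of `{p ≠ 0}`, continuity).
-/

namespace Pool.Agent.Helper10.GN

open VC FF MvPolynomial Pool.Agent.Helper68.QM

theorem real_prime {p : A} (hp : Irreducible p) (hsc : SC p) {n : ℕ} {B : Fin n → A}
    (h : p ∣ ∑ j, B j ^ 2) (j : Fin n) : p ∣ B j := by
  by_contra hj
  obtain ⟨z, hz, hB, -⟩ := exists_real_off hp hsc hj
  obtain ⟨c, hc⟩ := h
  have h1 : ∑ i, (eval z (B i)) ^ 2 = 0 := by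
    have h2 := congrArg (eval z) hc
    rw [map_sum, map_mul, hz, zero_mul] at h2
    rw [← h2]
    exact Finset.sum_congr rfl fun i _ => (map_pow _ _ _).symm
  have h3 := (Finset.sum_eq_zero_iff_of_nonneg fun i _ => sq_nonneg (eval z (B i))).1 h1 j
    (Finset.mem_univ j)
  exact hB (pow_eq_zero_iff (two_ne_zero)|>.1 h3)

private theorem h99_deriv (z : Fin 2 → ℝ) (i : Fin 2) (p : A) :
    HasDerivAt (fun t : ℝ => eval (fun j => z j + (if j = i then t else 0)) p)
      (eval z (pderiv i p)) 0 := by
  have h0 : (fun j => z j + (if j = i then (0 : ℝ) else 0)) = z := by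
    funext j
    simp
  induction p using MvPolynomial.induction_on with
  | C a =>
    simp only [eval_C, pderiv_C, map_zero]
    exact hasDerivAt_const _ _
  | add f g hf hg =>
    simp only [map_add]
    exact hf.add hg
  | mul_X f j hf =>
    have h1 : HasDerivAt (fun t : ℝ => z j + (if j = i then t else 0)) (if j = i then 1 else 0) 0 := by
      by_cases hj : j = i
      · simp only [hj, if_true]
        exact (hasDerivAt_id (0 : ℝ)).const_add (z i)
      · simp only [hj, if_false]
        exact hasDerivAt_const _ _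
    have h2 := hf.mul h1
    have h3 : (fun t : ℝ => eval (fun j => z j + (if j = i then t else 0)) (f * X j)) =
        (fun t : ℝ => eval (fun j => z j + (if j = i then t else 0)) f) *
          fun t : ℝ => z j + (if j = i then t else 0) := by
      funext t
      simp only [map_mul, eval_X, Pi.mul_apply]
    rw [h3]
    refine h2.congr_deriv ?_
    rw [h0, pderiv_mul, map_add, map_mul, map_mul, eval_X, pderiv_X]
    by_cases hj : j = i
    · subst hj
      simp
    · simp [hj]

theorem p_sq_dvd {p h : A} (hp : Irreducible p) (hsc : SC p) (hh : ∀ z : Fin 2 → ℝ, 0 ≤ eval z h)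
    (hd : p ∣ h) : p ^ 2 ∣ h := by
  obtain ⟨k, hk⟩ := hd
  by_cases hpk : p ∣ k
  · obtain ⟨c, hc⟩ := hpk
    exact ⟨c, by rw [hk, hc]; ring⟩
  exfalso
  obtain ⟨z, hz, hkz, i, hi⟩ := exists_real_off hp hsc hpk
  let w : ℝ → Fin 2 → ℝ := fun t j => z j + (if j = i then t else 0)
  have hw0 : w 0 = z := by
    funext j
    simp [w]
  have hwc : Continuous w := by
    refine continuous_pi fun j => ?_
    by_cases hj : j = i
    · simp only [w, hj, if_true]
      fun_prop
    · simp only [w, hj, if_false]
      fun_prop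
  have hkc : Continuous fun t => eval (w t) k := (MvPolynomial.continuous_eval k).comp hwc
  have hder := h99_deriv z i p
  have hprod : ∀ t, 0 ≤ eval (w t) p * eval (w t) k := by
    intro t
    have h1 := hh (w t)
    rwa [hk, map_mul] at h1
  have hz0 : eval (w 0) p = 0 := by rw [hw0, hz]
  rcases lt_or_gt_of_ne hkz with hneg | hpos
  · have hev : ∀ᶠ t in nhds (0 : ℝ), eval (w t) k < 0 :=
      hkc.continuousAt.eventually_lt_const (by change eval (w 0) k < 0; rw [hw0]; exact hneg)
    have hmax : IsLocalMax (fun t : ℝ => eval (w t) p) 0 := by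
      filter_upwards [hev] with t ht
      rw [hz0]
      by_contra hcon
      push Not at hcon
      have := hprod t
      nlinarith
    exact hi (hmax.hasDerivAt_eq_zero hder)
  · have hev : ∀ᶠ t in nhds (0 : ℝ), 0 < eval (w t) k :=
      hkc.continuousAt.eventually_const_lt (by change 0 < eval (w 0) k; rw [hw0]; exact hpos)
    have hmin : IsLocalMin (fun t : ℝ => eval (w t) p) 0 := by
      filter_upwards [hev] with t ht
      rw [hz0]
      by_contra hcon
      push Not at hcon
      have := hprod t
      nlinarith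
    exact hi (hmin.hasDerivAt_eq_zero hder)

theorem psd_quot {p h k : A} (hp : p ≠ 0) (hk : h = p ^ 2 * k)
    (hh : ∀ z : Fin 2 → ℝ, 0 ≤ eval z h) (z : Fin 2 → ℝ) : 0 ≤ eval z k := by
  by_contra hz
  push Not at hz
  apply hp
  refine eq_zero_of_vanish (g := -k) z (by rw [map_neg]; linarith) p fun w hw => ?_
  rw [map_neg] at hw
  have h1 := hh w
  rw [hk, map_mul, map_pow] at h1
  have h2 : (eval w p) ^ 2 ≤ 0 := by
    by_contra hcon
    push Not at hcon
    nlinarith
  exact pow_eq_zero_iff two_ne_zero |>.1 (le_antisymm h2 (sq_nonneg _))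

end Pool.Agent.Helper10.GN
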