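import Pool.Agent.Helper10.GN.Main
import Pool.Agent.Helper10.GN.Rlp

set_option autoImplicit false

/-!
# Project GN, block IND: bounded representations modulo `Q² I₀`, all `f`

Induction on `∑ a i` (for all `d` at once). Let `s = {i : a i ≠ 0}`. The polynomials `f ∈ Σ + Q² I₀` of degree `≤ d` not divisible by any
`p i`, `i ∈ s`: `main_case` for the subfamily `{i // a i ≠ 0}` (`Fam`, `GoodF` are inherited; the product over the subtype equals
`∏ p_i^(a_i)`). If `p i ∣ f`, `i ∈ s`: `f - ∑ B_j² ∈ (Q²) I₀` and `p i ∣ Q`, so `p i ∣ ∑ B_j²`, `p i ∣ B_j` for all `j` (`real_prime`), `f = p_i² f'`,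
`f' - ∑ (B_j/p_i)² ∈ ((Q/p_i)²) I₀` (cancel `p_i²`), `totalDegree f' ≤ d`; by induction for `a - e_i` there are `b` of bounded degree with
`f' - ∑ b_j² ∈ ((Q/p_i)²) I₀`; multiply by `p_i²`. Take the maximum of the finitely many bounds. (The case `f = 0` is covered: then `p i ∣ f`;
if `s` is empty, `main_case` applies.)
-/

namespace Pool.Agent.Helper10.GN

open VC FF MvPolynomial Pool.Agent.Helper68.QM

private theorem fam_sub {ι : Type} {p : ι → A} (hp : Fam p) (P : ι → Prop) :
    Fam (fun i : {i // P i} => p i) :=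
  ⟨fun i => hp.irr i, fun i => hp.sc i, fun i j hij => hp.na i j fun h => hij (Subtype.ext h)⟩

private theorem goodF_sub {ι : Type} {p : ι → A} (hg : GoodF p) (P : ι → Prop) :
    GoodF (fun i : {i // P i} => p i) where
  node i h z hz := hg.node i h z hz
  nodeoff i h z hz j hj := hg.nodeoff i h z hz j fun h => hj (Subtype.ext h)
  real i h j hj z h1 h2 := hg.real i h j (fun h => hj (Subtype.ext h)) z h1 h2
  trv i h j hj z h1 h2 := hg.trv i h j (fun h => hj (Subtype.ext h)) z h1 h2
  two i h j hj k hk hk' z h1 h2 := hg.two i h j (fun h => hj (Subtype.ext h)) k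
    (fun h => hk (Subtype.ext h)) (fun h => hk' (Subtype.ext h)) z h1 h2

theorem br_all {ι : Type} [Fintype ι] [DecidableEq ι] {p : ι → A} (hp : Fam p) (hg : GoodF p)
    (a : ι → ℕ) {I₀ : Ideal A} (hI : FC I₀) :
    BRep (Ideal.span {(∏ i, p i ^ a i) ^ 2} * I₀) fun _ => True := by
  obtain ⟨n, hn⟩ : ∃ n, ∑ i, a i = n := ⟨_, rfl⟩
  induction n using Nat.strong_induction_on generalizing a with
  | _ n ih =>
    have hstep : ∀ i, a i ≠ 0 → BRep (Ideal.span {(∏ j, p j ^ Function.update a i (a i - 1) j) ^ 2} *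
        I₀) fun _ => True := by
      intro i hi
      refine ih (∑ j, Function.update a i (a i - 1) j) ?_ _ rfl
      rw [← hn]
      refine Finset.sum_lt_sum (fun j _ => ?_) ⟨i, Finset.mem_univ i, ?_⟩
      · by_cases hj : j = i
        · rw [hj, Function.update_self]
          omega
        · rw [Function.update_of_ne hj]
      · rw [Function.update_self]
        omega
    have hprod : ∀ i, a i ≠ 0 → ∏ j, p j ^ a j = p i * ∏ j, p j ^ Function.update a i (a i - 1) j := by
      intro i hi
      rw [← Finset.mul_prod_erase Finset.univ (fun j => p j ^ a j) (Finset.mem_univ i),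
        ← Finset.mul_prod_erase Finset.univ (fun j => p j ^ Function.update a i (a i - 1) j)
          (Finset.mem_univ i), Function.update_self, ← mul_assoc, ← pow_succ']
      congr 1
      · congr 1
        omega
      · refine Finset.prod_congr rfl fun j hj => ?_
        rw [Function.update_of_ne (Finset.ne_of_mem_erase hj)]
    have hmain := main_case (fam_sub hp fun i => a i ≠ 0) (goodF_sub hg fun i => a i ≠ 0)
      (fun i : {i // a i ≠ 0} => a i) (fun i => Nat.one_le_iff_ne_zero.mpr i.2) hI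
    have hprod0 : ∏ i : {i // a i ≠ 0}, p i ^ a i = ∏ i, p i ^ a i := by
      rw [← Fintype.prod_subtype_mul_prod_subtype (fun i => a i ≠ 0) (fun i => p i ^ a i)]
      have h1 : ∏ i : {i // ¬ a i ≠ 0}, p i ^ a i = 1 := by
        refine Finset.prod_eq_one fun i _ => ?_
        rw [not_not.mp i.2, pow_zero]
      rw [h1, mul_one]
    rw [hprod0] at hmain
    intro d
    obtain ⟨l₀, hl₀⟩ := hmain d
    have hl : ∀ i, ∃ l : ℕ, a i ≠ 0 → ∀ f : A, f.totalDegree ≤ d →
        (∃ (n : ℕ) (B : Fin n → A), f - ∑ j, B j ^ 2 ∈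
          Ideal.span {(∏ j, p j ^ Function.update a i (a i - 1) j) ^ 2} * I₀) →
        ∃ (N : ℕ) (b : Fin N → A), (∀ j, (b j).totalDegree ≤ l) ∧ f - ∑ j, b j ^ 2 ∈
          Ideal.span {(∏ j, p j ^ Function.update a i (a i - 1) j) ^ 2} * I₀ := by
      intro i
      by_cases hi : a i ≠ 0
      · obtain ⟨l, hl⟩ := hstep i hi d
        exact ⟨l, fun _ f hf h => hl f hf trivial h⟩
      · exact ⟨0, fun h => absurd h hi⟩
    choose l hl using hl
    refine ⟨l₀ + ∑ i, (l i + (p i).totalDegree), fun f hf _ hB => ?_⟩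
    by_cases hdiv : ∃ i, a i ≠ 0 ∧ p i ∣ f
    · obtain ⟨i, hi, hpf⟩ := hdiv
      obtain ⟨m, B, hB⟩ := hB
      obtain ⟨r, hr, hr'⟩ := Ideal.mem_span_singleton_mul.mp hB
      set Q' := ∏ j, p j ^ Function.update a i (a i - 1) j with hQ'
      rw [hprod i hi] at hr'
      have hp0 : p i ≠ 0 := (hp.irr i).ne_zero
      have h1 : p i ∣ ∑ j, B j ^ 2 := by
        have e1 : ∑ j, B j ^ 2 = f - (p i * Q') ^ 2 * r := by rw [hr']; ring
        rw [e1]
        refine dvd_sub hpf (Dvd.dvd.mul_right ?_ _)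
        exact Dvd.dvd.pow (Dvd.intro _ rfl) two_ne_zero
      have h2 : ∀ j, p i ∣ B j := real_prime (hp.irr i) (hp.sc i) h1
      choose B' hB' using h2
      obtain ⟨f', hf'⟩ : ∃ f', f' = ∑ j, B' j ^ 2 + Q' ^ 2 * r := ⟨_, rfl⟩
      have hff : f = p i ^ 2 * f' := by
        have e1 : f = ∑ j, B j ^ 2 + (p i * Q') ^ 2 * r := by rw [hr']; ring
        have e2 : ∑ j, B j ^ 2 = p i ^ 2 * ∑ j, B' j ^ 2 := by
          rw [Finset.mul_sum]
          refine Finset.sum_congr rfl fun j _ => ?_
          rw [hB' j, mul_pow]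
        rw [e1, e2, hf']
        ring
      have hdeg : f'.totalDegree ≤ d := by
        by_cases h0 : f' = 0
        · rw [h0, totalDegree_zero]
          exact Nat.zero_le _
        · rw [hff, totalDegree_mul_of_isDomain (pow_ne_zero 2 hp0) h0] at hf
          omega
      obtain ⟨N, b, hb1, hb2⟩ := hl i hi f' hdeg ⟨m, B', by
        rw [Ideal.mem_span_singleton_mul]
        exact ⟨r, hr, by rw [hf']; ring⟩⟩
      obtain ⟨r', hr1, hr2⟩ := Ideal.mem_span_singleton_mul.mp hb2
      refine ⟨N, fun j => p i * b j, fun j => ?_, ?_⟩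
      · have h3 : l i + (p i).totalDegree ≤ ∑ i, (l i + (p i).totalDegree) :=
          Finset.single_le_sum (f := fun i => l i + (p i).totalDegree)
            (fun _ _ => Nat.zero_le _) (Finset.mem_univ i)
        have h4 := totalDegree_mul (p i) (b j)
        have h5 := hb1 j
        change (p i * b j).totalDegree ≤ _
        omega
      · rw [Ideal.mem_span_singleton_mul, hprod i hi]
        refine ⟨r', hr1, ?_⟩
        have e2 : ∑ j, (p i * b j) ^ 2 = p i ^ 2 * ∑ j, b j ^ 2 := by
          rw [Finset.mul_sum]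
          exact Finset.sum_congr rfl fun j _ => by rw [mul_pow]
        rw [e2, hff]
        linear_combination p i ^ 2 * hr2
    · push Not at hdiv
      obtain ⟨N, b, hb1, hb2⟩ := hl₀ f hf (fun i => hdiv i i.2) hB
      exact ⟨N, b, fun j => (hb1 j).trans (Nat.le_add_right _ _), hb2⟩

end Pool.Agent.Helper10.GN
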