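import Mathlib

set_option autoImplicit false

/-!
# Project GN, block INT (Mathlib only): bounded interpolation of `1/κ`

Proof. For a constant `c = κ(a)`, `|c| ≥ 1/K`, let `r = 1 - κ/c` (divisible by `X - a`) and `q_a = (1/c) ∑_{k<N} r^k`, so
`κ q_a = (1 - r)(∑_{k<N} r^k) = 1 - r^N ≡ 1 mod (X - a)^N`. The degree and the coefficients of `q_a` are bounded in terms of
`D, K, N`. The polynomials `(X - a_i)^N`, `(X - conj a_i)^N` (all `i`) are pairwise coprime (`Im a_i > 0`, `a` injective), so there are fixed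
polynomials `E_i` with `E_i ≡ 1 mod (X - a_i)^N` and `≡ 0` modulo the others. Take `q = ∑ E_i q_{a_i}`; if `m = 0` take `q = 0`.
For bounds use the norm `‖q‖ = ∑ |coeff|` (or: the set of the `κ` is bounded in a finite-dimensional space and everything is a polynomial
expression in the coefficients and `1/c`). `interp_bot`: the fixed polynomial for `β`: `q' ≡ 0 mod (X - a_i)^N`,
`q' ≡ 1 mod (X - conj a_i)^N`.
-/

open Polynomial

namespace Pool.Agent.Helper10.GN

/-- A family of polynomials with uniformly bounded degrees and coefficients. -/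
private def UB {ι : Type} (q : ι → ℂ[X]) : Prop :=
  ∃ (D : ℕ) (K : ℝ), ∀ i, (q i).natDegree ≤ D ∧ ∀ j, ‖(q i).coeff j‖ ≤ K

private theorem UB.const {ι : Type} (p : ℂ[X]) : UB (fun _ : ι => p) := by
  obtain ⟨K, hK⟩ : ∃ K : ℝ, ∀ j, ‖p.coeff j‖ ≤ K := by
    refine ⟨∑ k ∈ Finset.range (p.natDegree + 1), ‖p.coeff k‖, fun j => ?_⟩
    by_cases hj : j ∈ Finset.range (p.natDegree + 1)
    · exact Finset.single_le_sum (f := fun k => ‖p.coeff k‖) (fun k _ => norm_nonneg _) hj
    · have h1 : p.coeff j = 0 := by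
        apply coeff_eq_zero_of_natDegree_lt
        rw [Finset.mem_range] at hj
        omega
      rw [h1, norm_zero]
      exact Finset.sum_nonneg fun k _ => norm_nonneg _
  exact ⟨p.natDegree, K, fun _ => ⟨le_rfl, hK⟩⟩

private theorem UB.add {ι : Type} {p q : ι → ℂ[X]} (hp : UB p) (hq : UB q) : UB (fun i => p i + q i) := by
  obtain ⟨D, K, h⟩ := hp
  obtain ⟨D', K', h'⟩ := hq
  refine ⟨max D D', K + K', fun i => ⟨?_, fun j => ?_⟩⟩
  · exact (natDegree_add_le _ _).trans (max_le_max (h i).1 (h' i).1)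
  · rw [coeff_add]
    exact (norm_add_le _ _).trans (add_le_add ((h i).2 j) ((h' i).2 j))

private theorem UB.mul {ι : Type} {p q : ι → ℂ[X]} (hp : UB p) (hq : UB q) : UB (fun i => p i * q i) := by
  obtain ⟨D, K, h⟩ := hp
  obtain ⟨D', K', h'⟩ := hq
  refine ⟨D + D', (D + D' + 1) * (|K| * |K'|), fun i => ⟨?_, fun j => ?_⟩⟩
  · exact natDegree_mul_le.trans (add_le_add (h i).1 (h' i).1)
  · by_cases hj : D + D' < j
    · rw [coeff_eq_zero_of_natDegree_lt
        (lt_of_le_of_lt (natDegree_mul_le.trans (add_le_add (h i).1 (h' i).1)) hj), norm_zero]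
      positivity
    · rw [coeff_mul]
      refine (norm_sum_le _ _).trans ?_
      have h1 : ∀ x ∈ Finset.HasAntidiagonal.antidiagonal j, ‖(p i).coeff x.1 * (q i).coeff x.2‖ ≤ |K| * |K'| := by
        intro x _
        rw [norm_mul]
        exact mul_le_mul (((h i).2 _).trans (le_abs_self _)) (((h' i).2 _).trans (le_abs_self _))
          (norm_nonneg _) (abs_nonneg _)
      refine (Finset.sum_le_card_nsmul _ _ _ h1).trans ?_
      rw [Finset.Nat.card_antidiagonal, nsmul_eq_mul]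
      apply mul_le_mul_of_nonneg_right _ (by positivity)
      push_cast
      have h2 : (j : ℝ) ≤ D + D' := by
        exact_mod_cast not_lt.1 hj
      linarith

private theorem UB.C {ι : Type} {c : ι → ℂ} {K : ℝ} (h : ∀ i, ‖c i‖ ≤ K) : UB (fun i => C (c i)) := by
  refine ⟨0, |K|, fun i => ⟨by simp, fun j => ?_⟩⟩
  rw [coeff_C]
  split_ifs
  · exact (h i).trans (le_abs_self _)
  · rw [norm_zero]
    exact abs_nonneg _

private theorem UB.pow {ι : Type} {p : ι → ℂ[X]} (hp : UB p) (n : ℕ) : UB (fun i => p i ^ n) := by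
  induction n with
  | zero =>
    simp only [pow_zero]
    exact UB.const 1
  | succ n ih =>
    simp only [pow_succ]
    exact ih.mul hp

private theorem UB.sum {ι α : Type} (s : Finset α) {p : α → ι → ℂ[X]} (hp : ∀ a ∈ s, UB (p a)) :
    UB (fun i => ∑ a ∈ s, p a i) := by
  classical
  induction s using Finset.induction_on with
  | empty =>
    simp only [Finset.sum_empty]
    exact UB.const 0
  | insert a s ha ih =>
    simp only [Finset.sum_insert ha]
    exact (hp a (Finset.mem_insert_self a s)).add (ih fun b hb => hp b (Finset.mem_insert_of_mem hb))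

private theorem crt1 {ι : Type} [Fintype ι] [DecidableEq ι] (b : ι → ℂ) (hb : Function.Injective b) (N : ℕ) (i : ι) :
    ∃ E : ℂ[X], (X - C (b i)) ^ N ∣ E - 1 ∧ ∀ j, j ≠ i → (X - C (b j)) ^ N ∣ E := by
  have h1 : IsCoprime ((X - C (b i)) ^ N) (∏ j ∈ Finset.univ.erase i, (X - C (b j)) ^ N) := by
    apply IsCoprime.prod_right
    intro j hj
    apply IsCoprime.pow
    exact pairwise_coprime_X_sub_C hb (Finset.ne_of_mem_erase hj).symm
  obtain ⟨u, v, huv⟩ := h1
  refine ⟨v * ∏ j ∈ Finset.univ.erase i, (X - C (b j)) ^ N, ⟨-u, ?_⟩, fun j hj => ?_⟩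
  · rw [← huv]
    ring
  · exact (Finset.dvd_prod_of_mem (fun j => (X - C (b j)) ^ N)
      (Finset.mem_erase.2 ⟨hj, Finset.mem_univ j⟩)).mul_left v

private theorem crt2 {m : ℕ} (a : Fin m → ℂ) (ha : Function.Injective a) (him : ∀ i, 0 < (a i).im) :
    Function.Injective (Sum.elim a (fun i => (starRingEnd ℂ) (a i))) := by
  rintro (i | i) (j | j) h
  · exact congrArg Sum.inl (ha h)
  · exfalso
    have h1 := congrArg Complex.im h
    simp only [Sum.elim_inl, Sum.elim_inr, Complex.conj_im] at h1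
    linarith [him i, him j]
  · exfalso
    have h1 := congrArg Complex.im h
    simp only [Sum.elim_inl, Sum.elim_inr, Complex.conj_im] at h1
    linarith [him i, him j]
  · exact congrArg Sum.inr (ha ((starRingEnd ℂ).injective h))

theorem interp {m : ℕ} (a : Fin m → ℂ) (ha : Function.Injective a) (him : ∀ i, 0 < (a i).im)
    (N D : ℕ) (K : ℝ) (hK : 0 < K) :
    ∃ (D' : ℕ) (K' : ℝ), ∀ κ : ℝ[X], κ.natDegree ≤ D → (∀ j, |κ.coeff j| ≤ K) →
      (∀ i, 1 / K ≤ ‖(κ.map Complex.ofRealHom).eval (a i)‖) →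
      ∃ q : ℂ[X], q.natDegree ≤ D' ∧ (∀ j, ‖q.coeff j‖ ≤ K') ∧
        ∀ i, (X - C (a i)) ^ N ∣ q * κ.map Complex.ofRealHom - 1 ∧
          (X - C ((starRingEnd ℂ) (a i))) ^ N ∣ q := by
  classical
  let ι : Type := {κ : ℝ[X] // κ.natDegree ≤ D ∧ (∀ j, |κ.coeff j| ≤ K) ∧
      (∀ i, 1 / K ≤ ‖(κ.map Complex.ofRealHom).eval (a i)‖)}
  choose E hE1 hE2 using fun i : Fin m => crt1 _ (crt2 a ha him) N (Sum.inl i)
  let c : Fin m → ι → ℂ := fun i κ => (κ.1.map Complex.ofRealHom).eval (a i)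
  have hc : ∀ i κ, c i κ ≠ 0 := fun i κ h => by
    have h1 := κ.2.2.2 i
    change 1 / K ≤ ‖c i κ‖ at h1
    rw [h, norm_zero] at h1
    have h2 : 0 < 1 / K := by positivity
    linarith
  let r : Fin m → ι → ℂ[X] := fun i κ => 1 + C (-(c i κ)⁻¹) * κ.1.map Complex.ofRealHom
  let q : Fin m → ι → ℂ[X] := fun i κ => C ((c i κ)⁻¹) * ∑ k ∈ Finset.range N, r i κ ^ k
  have hκ : UB (fun κ : ι => κ.1.map Complex.ofRealHom) := by
    refine ⟨D, K, fun κ => ⟨natDegree_map_le.trans κ.2.1, fun j => ?_⟩⟩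
    rw [coeff_map]
    change ‖((κ.1.coeff j : ℝ) : ℂ)‖ ≤ K
    rw [Complex.norm_real, Real.norm_eq_abs]
    exact κ.2.2.1 j
  have hci : ∀ i κ, ‖(c i κ)⁻¹‖ ≤ K := fun i κ => by
    have h1 := κ.2.2.2 i
    change 1 / K ≤ ‖c i κ‖ at h1
    rw [norm_inv]
    have h2 : 0 < 1 / K := by positivity
    have h3 := inv_anti₀ h2 h1
    rwa [one_div, inv_inv] at h3
  have hr : ∀ i, UB (r i) := fun i =>
    (UB.const 1).add ((UB.C (K := K) fun κ => by rw [norm_neg]; exact hci i κ).mul hκ)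
  have hq : ∀ i, UB (q i) := fun i =>
    (UB.C (hci i)).mul (UB.sum _ fun k _ => (hr i).pow k)
  have hQ : UB (fun κ : ι => ∑ i, E i * q i κ) := UB.sum _ fun i _ => (UB.const (E i)).mul (hq i)
  obtain ⟨D', K', hDK⟩ := hQ
  refine ⟨D', K', fun κ h1 h2 h3 => ?_⟩
  let κ' : ι := ⟨κ, h1, h2, h3⟩
  refine ⟨∑ i, E i * q i κ', (hDK κ').1, (hDK κ').2, fun i => ⟨?_, ?_⟩⟩
  · have hroot : X - C (a i) ∣ r i κ' := by
      rw [dvd_iff_isRoot, IsRoot.def]
      change (1 + C (-(c i κ')⁻¹) * κ.map Complex.ofRealHom).eval (a i) = 0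
      rw [eval_add, eval_one, eval_mul, eval_C]
      change 1 + -(c i κ')⁻¹ * c i κ' = 0
      rw [neg_mul, inv_mul_cancel₀ (hc i κ')]
      ring
    have hgeo : q i κ' * κ.map Complex.ofRealHom - 1 = -(r i κ' ^ N) := by
      have h4 := geom_sum_mul_neg (r i κ') N
      have h5 : 1 - r i κ' = C ((c i κ')⁻¹) * κ.map Complex.ofRealHom := by
        change 1 - (1 + C (-(c i κ')⁻¹) * κ.map Complex.ofRealHom) = _
        rw [C_neg]
        ring
      rw [h5] at h4
      change C ((c i κ')⁻¹) * (∑ k ∈ Finset.range N, r i κ' ^ k) * κ.map Complex.ofRealHom - 1 = _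
      linear_combination h4
    have h6 : (X - C (a i)) ^ N ∣ q i κ' * κ.map Complex.ofRealHom - 1 := by
      rw [hgeo]
      exact (pow_dvd_pow_of_dvd hroot N).neg_right
    have h7 : (∑ j, E j * q j κ') * κ.map Complex.ofRealHom - 1 =
        ((E i - 1) * (q i κ' * κ.map Complex.ofRealHom) + (q i κ' * κ.map Complex.ofRealHom - 1)) +
          ∑ j ∈ Finset.univ.erase i, E j * (q j κ' * κ.map Complex.ofRealHom) := by
      rw [Finset.sum_mul, ← Finset.add_sum_erase _ _ (Finset.mem_univ i)]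
      simp only [mul_assoc]
      ring
    rw [h7]
    refine dvd_add (dvd_add ((hE1 i).mul_right _) h6) (Finset.dvd_sum fun j hj => ?_)
    have h8 := hE2 j (Sum.inl i) (fun h => (Finset.ne_of_mem_erase hj) (Sum.inl_injective h).symm)
    exact h8.mul_right _
  · refine Finset.dvd_sum fun j _ => ?_
    have h8 := hE2 j (Sum.inr i) (fun h => nomatch h)
    exact h8.mul_right _

theorem interp_bot {m : ℕ} (a : Fin m → ℂ) (ha : Function.Injective a) (him : ∀ i, 0 < (a i).im)
    (N : ℕ) : ∃ q : ℂ[X], ∀ i, (X - C (a i)) ^ N ∣ q ∧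
      (X - C ((starRingEnd ℂ) (a i))) ^ N ∣ q - 1 := by
  classical
  choose E hE1 hE2 using fun i : Fin m => crt1 _ (crt2 a ha him) N (Sum.inr i)
  refine ⟨∑ i, E i, fun i => ⟨?_, ?_⟩⟩
  · refine Finset.dvd_sum fun j _ => ?_
    exact hE2 j (Sum.inl i) (fun h => nomatch h)
  · have h7 : (∑ j, E j) - 1 = (E i - 1) + ∑ j ∈ Finset.univ.erase i, E j := by
      rw [← Finset.add_sum_erase _ _ (Finset.mem_univ i)]
      ring
    rw [h7]
    refine dvd_add (hE1 i) (Finset.dvd_sum fun j hj => ?_)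
    exact hE2 j (Sum.inr i) (fun h => (Finset.ne_of_mem_erase hj) (Sum.inr_injective h).symm)

end Pool.Agent.Helper10.GN
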