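import Pool.Agent.Helper10.GN.CB

set_option autoImplicit false

/-!
# Project GN, block IRC: a sign-changing irreducible real polynomial is irreducible over `ℂ`

Let `q ∈ ℂ[x,y]` be an irreducible factor of `cx p` (`UniqueFactorizationMonoid`; `cx p` is not zero and not a
unit, since `p` is not constant: `totalDegree_cx`). Then `cjp q` is irreducible and divides `cx p` too.
(1) If `q` and `cjp q` are not associated, then `q * cjp q ∣ cx p`. `q * cjp q` is
fixed by `cjp`, so it is `cx n` (`cjp_eq_iff`), `n ∣ p` (`cx_dvd`), `n` is not a unit, so `p = c n` with a real constant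
`c` (irreducible `p`; units of `A` are constants). But `eval z n = |eval z q|² ≥ 0` for real `z` (`eval_cx`, `eval_cjp`),
so `p` does not change sign. (2) If `cjp q = c q` with a constant `c`: `|c| = 1` (apply `cjp` again),
choose `e ≠ 0` with `e̅ c = e` (i.e. `cjp (e q) = e q`: `e = 1 + c̅`... or a square root of `c̅`, up to conjugation), so
`e q = cx n` is real, `n ∣ p`, not a unit, hence `p` is associated to `n` and `cx p` to `q`.
-/

namespace Pool.Agent.Helper10.GN

open VC FF MvPolynomial Pool.Agent.Helper68.QM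

private theorem irr_cjp {q : CP} (hq : Irreducible q) : Irreducible (cjp q) := by
  let E : CP ≃+* CP := RingEquiv.ofRingHom cjp cjp (RingHom.ext fun h => cjp_cjp h) (RingHom.ext fun h => cjp_cjp h)
  have h : Irreducible (E q) := (MulEquiv.irreducible_iff E).2 hq
  exact h

private theorem unit_const {u : A} (hu : IsUnit u) : ∃ c : ℝ, u = C c := by
  obtain ⟨c, _, hc⟩ := isUnit_iff_eq_C_of_isReduced.1 hu
  exact ⟨c, hc⟩

private theorem not_unit_of {q : CP} (hq : Irreducible q) {n : A} (h : q ∣ cx n) : ¬ IsUnit n := by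
  intro hn
  exact hq.not_isUnit (isUnit_of_dvd_unit h (hn.map cx))

theorem irred_cx {p : A} (hp : Irreducible p) (hsc : SC p) : Irreducible (cx p) := by
  have h0 : cx p ≠ 0 := fun h => hp.ne_zero (cx_injective (by rw [h, map_zero]))
  have hnu : ¬ IsUnit (cx p) := by
    intro h
    have h1 : cx p ∣ cx 1 := by rw [map_one]; exact h.dvd
    exact hp.not_isUnit (isUnit_of_dvd_one ((cx_dvd p 1).1 h1))
  obtain ⟨q, hq, hqp⟩ := WfDvdMonoid.exists_irreducible_factor hnu h0
  have hq' := irr_cjp hq
  have hqp' : cjp q ∣ cx p := by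
    have h := map_dvd cjp hqp
    rwa [cjp_cx] at h
  by_cases hass : Associated q (cjp q)
  · obtain ⟨u, hu⟩ := hass
    obtain ⟨c, hc0, hc⟩ := isUnit_iff_eq_C_of_isReduced.1 u.isUnit
    have e1 : cjp q = C c * q := by rw [← hu, hc, mul_comm]
    have e2 : q = C ((starRingEnd ℂ) c * c) * q := by
      conv_lhs => rw [← cjp_cjp q, e1, map_mul, cjp_C, e1]
      rw [C_mul]
      ring
    have e3 : (starRingEnd ℂ) c * c = 1 := by
      have h1 : (C ((starRingEnd ℂ) c * c) - 1) * q = 0 := by
        rw [sub_mul, ← e2, one_mul, sub_self]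
      rcases mul_eq_zero.1 h1 with h2 | h2
      · have h3 : (C ((starRingEnd ℂ) c * c) : CP) = C 1 := by
          rw [C_1]
          exact sub_eq_zero.1 h2
        exact C_injective _ _ h3
      · exact absurd h2 hq.ne_zero
    obtain ⟨e, he0, he⟩ : ∃ e : ℂ, e ≠ 0 ∧ (starRingEnd ℂ) e * c = e := by
      by_cases hc1 : c = -1
      · refine ⟨Complex.I, Complex.I_ne_zero, ?_⟩
        rw [hc1, Complex.conj_I]
        ring
      · refine ⟨1 + c, fun h => hc1 (eq_neg_of_add_eq_zero_right h), ?_⟩
        rw [map_add, map_one, add_mul, one_mul, e3, add_comm]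
    have hfix : cjp (C e * q) = C e * q := by
      rw [map_mul, cjp_C, e1, ← mul_assoc, ← C_mul, he]
    obtain ⟨n, hn⟩ := (cjp_eq_iff _).1 hfix
    have heu : IsUnit (C e : CP) := (isUnit_iff_ne_zero.2 he0).map C
    have hnp : n ∣ p := by
      rw [← cx_dvd, ← hn]
      exact heu.mul_left_dvd.2 hqp
    have hn1 : ¬ IsUnit n := not_unit_of hq (by rw [← hn]; exact dvd_mul_left q _)
    obtain ⟨w, hw⟩ := hnp
    have hwu : IsUnit w := (hp.isUnit_or_isUnit hw).resolve_left hn1
    have e4 : cx p = (C e * cx w) * q := by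
      rw [hw, map_mul, ← hn]
      ring
    have hass2 : Associated q (cx p) := by
      rw [e4]
      have hu2 : IsUnit (C e * cx w) := heu.mul (hwu.map cx)
      exact (associated_unit_mul_left q _ hu2).symm
    exact hass2.irreducible hq
  · exfalso
    obtain ⟨m, hm⟩ := hqp
    have hpr : Prime (cjp q) := hq'.prime
    have hndvd : ¬ cjp q ∣ q := by
      intro h
      exact hass ((Irreducible.dvd_irreducible_iff_associated hq' hq).1 h).symm
    have hdm : cjp q ∣ m := by
      rw [hm] at hqp'
      exact (hpr.dvd_or_dvd hqp').resolve_left hndvd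
    have hdvd : q * cjp q ∣ cx p := by
      rw [hm]
      exact mul_dvd_mul_left q hdm
    have hfix : cjp (q * cjp q) = q * cjp q := by
      rw [map_mul, cjp_cjp, mul_comm]
    obtain ⟨n, hn⟩ := (cjp_eq_iff _).1 hfix
    have hnp : n ∣ p := by
      rw [← cx_dvd, ← hn]
      exact hdvd
    have hn1 : ¬ IsUnit n := not_unit_of hq (by rw [← hn]; exact dvd_mul_right q _)
    obtain ⟨w, hw⟩ := hnp
    have hwu : IsUnit w := (hp.isUnit_or_isUnit hw).resolve_left hn1
    obtain ⟨c, hc⟩ := unit_const hwu
    have hz : ∀ z : Fin 2 → ℝ, 0 ≤ eval z n := by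
      intro z
      have h1 : ((eval z n : ℝ) : ℂ) = eval (cz z) q * (starRingEnd ℂ) (eval (cz z) q) := by
        rw [← eval_cx, ← hn, map_mul, eval_cjp]
        have h2 : zbar (cz z) = cz z := by
          funext i
          simp only [zbar, cz, Complex.conj_ofReal]
        rw [h2]
      rw [Complex.mul_conj] at h1
      have h3 : eval z n = Complex.normSq (eval (cz z) q) := by exact_mod_cast h1
      rw [h3]
      exact Complex.normSq_nonneg _
    obtain ⟨⟨z, hz1⟩, ⟨z', hz2⟩⟩ := hsc
    rw [hw, hc, map_mul, eval_C] at hz1 hz2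
    have h1 := hz z
    have h2 := hz z'
    have h3 : 0 < c := by
      by_contra h
      push Not at h
      nlinarith [mul_nonneg h1 (neg_nonneg.2 h)]
    nlinarith [mul_nonneg h2 h3.le]

end Pool.Agent.Helper10.GN
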