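import Pool.Agent.Helper10.GN.Deg

set_option autoImplicit false

/-!
# Project GN, block K1: multiples of `f` which are polynomials in one function `u`

For every `d` there is `D` such that for all `f` of degree `≤ d`, `p ∤ f`, there are `fs` and a nonzero one-variable polynomial
`ν`, degrees `≤ D`, with `f * fs ≡ ν(u)` modulo `p`.

Proof. Let `v = π (cx u)`, transcendental over `ℂ` (`hu`). W.l.o.g. `d ≥ 1`, `totalDegree u ≤ d` (replace `d` by a larger number).
Let `V n ⊆ F` be the real vector space of all `π (cx a)`, `totalDegree a ≤ n`. `dim V n ≤ n K + 1`, `K = deg D∞`: `exists_Dinf` and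
`FF.ell_le_deg` (real functions which are linearly independent over `ℝ` are linearly independent over `ℂ`: apply `σ`).
There is `N` depending only on `d`, `K` such that for some `k < N`: `dim V ((k+1) d) < dim V (k d) + (k + 2)`; otherwise
`dim V (N d) ≥ ∑_{k<N} (k + 2) ≥ N²/2`, while `dim V (N d) ≤ N d K + 1`. For this `k` and every `f` as in the statement
`π (cx f) * V (k d) ⊆ V ((k+1) d)` has the dimension of `V (k d)` (`π (cx f) ≠ 0`), and the `k + 2` powers `v^j`, `j ≤ k + 1`, are linearly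
independent elements of `V ((k+1) d)`. So the two subspaces have a nonzero common element `π (cx f) π (cx a) = π (cx (ν(u)))`, `natDegree ν ≤ k + 1`,
`ν ≠ 0`. Take `D = N d + N`.
-/

namespace Pool.Agent.Helper10.GN

open VC FF MvPolynomial Pool.Agent.Helper68.QM

variable {F : Type} [Field F] [Algebra ℂ F] {s : RStr F} (hF : IsFunctionField ℂ F)
variable {p : A} {π : CP →ₐ[ℂ] F}
include hF

omit [Algebra ℂ F] hF in
private theorem growth29 (D : ℕ → ℕ) (c : ℕ) (h : ∀ n, D n ≤ n * c + 1) :
    ∃ k, D (k + 1) < D k + (k + 2) := by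
  by_contra hcon
  push Not at hcon
  have h1 : ∀ n, n ^ 2 ≤ 2 * D n := by
    intro n
    induction n with
    | zero => exact Nat.zero_le _
    | succ n ih =>
      have := hcon n
      nlinarith
  have h2 := h (2 * c + 2)
  have h3 := h1 (2 * c + 2)
  nlinarith

/-- the functions given by polynomials of degree at most `n` -/
private noncomputable def VV29 (π : CP →ₐ[ℂ] F) (n : ℕ) : Submodule ℂ F :=
  (restrictTotalDegree (Fin 2) ℂ n).map π.toLinearMap

omit hF in
private theorem mem_VV29 {n : ℕ} {f : F} : f ∈ VV29 π n ↔ ∃ a : CP, a.totalDegree ≤ n ∧ π a = f := by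
  unfold VV29
  rw [Submodule.mem_map]
  constructor
  · rintro ⟨a, ha, h⟩
    rw [mem_restrictTotalDegree] at ha
    exact ⟨a, ha, h⟩
  · rintro ⟨a, ha, h⟩
    refine ⟨a, ?_, h⟩
    rw [mem_restrictTotalDegree]
    exact ha

private theorem dimV29 (hc : IsCrv p s π) : ∃ K : ℕ, ∀ n, FiniteDimensional ℂ (VV29 π n) ∧
    Module.finrank ℂ (VV29 π n) ≤ n * K + 1 := by
  obtain ⟨D, hD0, -, hD⟩ := exists_Dinf hF hc
  refine ⟨(deg D).toNat, fun n => ?_⟩
  have hK : (((deg D).toNat : ℕ) : ℤ) = deg D := Int.toNat_of_nonneg (deg_nonneg hD0)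
  have hle : VV29 π n ≤ L ((n : ℤ) • D) := by
    intro f hf
    obtain ⟨a, ha, rfl⟩ := mem_VV29.1 hf
    exact hD n a ha
  have hfd : FiniteDimensional ℂ (L ((n : ℤ) • D)) := FF.finite_rr hF _
  refine ⟨Submodule.finiteDimensional_of_le hle, ?_⟩
  have h1 : Module.finrank ℂ (VV29 π n) ≤ Module.finrank ℂ (L ((n : ℤ) • D)) :=
    Submodule.finrank_mono hle
  have h2 := FF.ell_le_deg hF (D := (n : ℤ) • D) (fun P => by
    rw [Finsupp.smul_apply, smul_eq_mul]
    exact mul_nonneg (Int.natCast_nonneg n) (hD0 P))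
  rw [map_zsmul, smul_eq_mul, ← hK] at h2
  have h3 : (ell ((n : ℤ) • D) : ℤ) ≤ ((n * (deg D).toNat + 1 : ℕ) : ℤ) := by
    push_cast
    exact h2
  exact h1.trans (by exact_mod_cast h3)

omit hF in
/-- the real part of a relation -/
private theorem realpart29 (hc : IsCrv p s π) (u f : A) (a : CP) (ν : Polynomial ℂ) (n : ℕ)
    (hν : ν.natDegree < n) (h : π (cx f) * π a = Polynomial.aeval (π (cx u)) ν) :
    ∃ a1 : A, a1.totalDegree ≤ a.totalDegree ∧
      p ∣ f * a1 - Polynomial.aeval u (∑ i ∈ Finset.range n,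
        Polynomial.monomial i (ν.coeff i).re) := by
  have hch : CharZero F := charZero_of_injective_algebraMap (algebraMap ℂ F).injective
  obtain ⟨a1, ha1⟩ := (cjp_eq_iff (C (1 / 2) * (a + cjp a))).1 (by
    rw [map_mul, map_add, cjp_cjp, cjp_C, add_comm (cjp a) a]
    congr 2
    rw [map_div₀, map_one, map_ofNat])
  have hcj : (cjp a).totalDegree ≤ a.totalDegree := by
    unfold cjp
    exact totalDegree_le_of_support_subset (support_map_subset _ _)
  refine ⟨a1, ?_, ?_⟩
  · rw [← totalDegree_cx, ← ha1]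
    refine (totalDegree_mul _ _).trans ?_
    rw [totalDegree_C, zero_add]
    exact (totalDegree_add _ _).trans (max_le le_rfl hcj)
  · rw [← hc.eq_zero_iff, map_sub, map_sub, sub_eq_zero, map_mul, map_mul, ← ha1]
    have e1 : π (C (1 / 2)) = 1 / 2 := by
      rw [IsCrv.pi_C, map_div₀, map_one, map_ofNat]
    rw [map_mul, map_add, e1, ← hc.conj]
    have e2 : π (cx f) * s.σ (π a) = s.σ (Polynomial.aeval (π (cx u)) ν) := by
      rw [← h, map_mul, hc.real]
    have e3 : Polynomial.aeval (π (cx u)) ν =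
        ∑ i ∈ Finset.range n, algebraMap ℂ F (ν.coeff i) * π (cx u) ^ i := by
      rw [Polynomial.aeval_eq_sum_range' hν]
      exact Finset.sum_congr rfl fun i _ => Algebra.smul_def _ _
    have e4 : s.σ (Polynomial.aeval (π (cx u)) ν) =
        ∑ i ∈ Finset.range n, algebraMap ℂ F ((starRingEnd ℂ) (ν.coeff i)) * π (cx u) ^ i := by
      rw [e3, map_sum]
      refine Finset.sum_congr rfl fun i _ => ?_
      rw [map_mul, map_pow, hc.real, s.alg]
    have e5 : π (cx (Polynomial.aeval u (∑ i ∈ Finset.range n,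
        Polynomial.monomial i (ν.coeff i).re))) =
        ∑ i ∈ Finset.range n, algebraMap ℂ F ((ν.coeff i).re : ℂ) * π (cx u) ^ i := by
      rw [map_sum, map_sum, map_sum]
      refine Finset.sum_congr rfl fun i _ => ?_
      rw [Polynomial.aeval_monomial, map_mul, map_mul, map_pow, map_pow]
      congr 1
      change π (cx (C (ν.coeff i).re)) = _
      rw [cx_C, IsCrv.pi_C]
    rw [e5]
    have e6 : π (cx f) * (1 / 2 * (π a + s.σ (π a))) =
        1 / 2 * (π (cx f) * π a + π (cx f) * s.σ (π a)) := by ring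
    rw [e6, h, e2, e4, e3, ← Finset.sum_add_distrib, Finset.mul_sum]
    refine Finset.sum_congr rfl fun i _ => ?_
    have e7 : ((ν.coeff i).re : ℂ) = 1 / 2 * (ν.coeff i + (starRingEnd ℂ) (ν.coeff i)) := by
      rw [Complex.add_conj]
      push_cast
      ring
    rw [e7, map_mul, map_add, map_div₀, map_one, map_ofNat]
    ring

theorem lemK1 (hc : IsCrv p s π) (u : A) (hu : Transcendental ℂ (π (cx u))) (d : ℕ) :
    ∃ D : ℕ, ∀ f : A, f.totalDegree ≤ d → ¬ p ∣ f →
      ∃ (fs : A) (ν : Polynomial ℝ), ν ≠ 0 ∧ ν.natDegree ≤ D ∧ fs.totalDegree ≤ D ∧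
        p ∣ f * fs - Polynomial.aeval u ν := by
  obtain ⟨K, hK⟩ := dimV29 hF hc
  set e : ℕ := max d u.totalDegree with he
  obtain ⟨k, hk⟩ := growth29 (fun n => Module.finrank ℂ (VV29 π (n * e))) (e * K) (fun n => by
    refine (hK (n * e)).2.trans (le_of_eq ?_)
    ring)
  refine ⟨k * e + k + 1, fun f hf hpf => ?_⟩
  have hf0 : π (cx f) ≠ 0 := fun h => hpf ((hc.eq_zero_iff f).1 h)
  set v := π (cx u) with hv
  -- the two subspaces
  let U1 : Submodule ℂ F := (VV29 π (k * e)).map (LinearMap.mulLeft ℂ (π (cx f)))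
  let U2 : Submodule ℂ F := (Polynomial.degreeLT ℂ (k + 2)).map (Polynomial.aeval v).toLinearMap
  have hfdW : FiniteDimensional ℂ (VV29 π ((k + 1) * e)) := (hK _).1
  have hfdV : FiniteDimensional ℂ (VV29 π (k * e)) := (hK _).1
  have hU1 : U1 ≤ VV29 π ((k + 1) * e) := by
    rintro _ ⟨g, hg, rfl⟩
    obtain ⟨a, ha, rfl⟩ := mem_VV29.1 hg
    refine mem_VV29.2 ⟨cx f * a, ?_, ?_⟩
    · refine (totalDegree_mul _ _).trans ?_
      rw [totalDegree_cx]
      have h1 : f.totalDegree ≤ e := hf.trans (le_max_left _ _)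
      have h2 : (k + 1) * e = e + k * e := by ring
      rw [h2]
      exact add_le_add h1 ha
    · rw [map_mul]
      rfl
  have hU2 : U2 ≤ VV29 π ((k + 1) * e) := by
    rintro _ ⟨ν, hν, rfl⟩
    rw [SetLike.mem_coe, Polynomial.mem_degreeLT] at hν
    have hν' : ν.natDegree < k + 2 := by
      rcases eq_or_ne ν 0 with rfl | h0
      · simp
      · exact (Polynomial.natDegree_lt_iff_degree_lt h0).2 hν
    change Polynomial.aeval v ν ∈ _
    rw [Polynomial.aeval_eq_sum_range' hν']
    refine Submodule.sum_mem _ fun i hi => Submodule.smul_mem _ _ ?_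
    rw [Finset.mem_range] at hi
    refine mem_VV29.2 ⟨cx u ^ i, ?_, ?_⟩
    · refine (totalDegree_pow _ _).trans ?_
      rw [totalDegree_cx]
      exact Nat.mul_le_mul (by omega) (le_max_right _ _)
    · rw [map_pow]
  have hd1 : Module.finrank ℂ U1 = Module.finrank ℂ (VV29 π (k * e)) :=
    (Submodule.equivMapOfInjective (LinearMap.mulLeft ℂ (π (cx f)))
      (fun x y hxy => mul_left_cancel₀ hf0 hxy) _).finrank_eq.symm
  have hinj : Function.Injective (Polynomial.aeval (R := ℂ) v) :=
    transcendental_iff_injective.1 hu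
  have hd2 : Module.finrank ℂ U2 = k + 2 := by
    have h1 := (Submodule.equivMapOfInjective (Polynomial.aeval (R := ℂ) v).toLinearMap hinj
      (Polynomial.degreeLT ℂ (k + 2))).finrank_eq
    rw [(Polynomial.degreeLTEquiv ℂ (k + 2)).finrank_eq, Module.finrank_fin_fun] at h1
    exact h1.symm
  have hfd1 : FiniteDimensional ℂ U1 := Submodule.finiteDimensional_of_le hU1
  have hfd2 : FiniteDimensional ℂ U2 := Submodule.finiteDimensional_of_le hU2
  have h1 := Submodule.finrank_sup_add_finrank_inf_eq U1 U2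
  have h2 : Module.finrank ℂ (U1 ⊔ U2 : Submodule ℂ F) ≤
      Module.finrank ℂ (VV29 π ((k + 1) * e)) := Submodule.finrank_mono (sup_le hU1 hU2)
  have h3 : U1 ⊓ U2 ≠ ⊥ := by
    intro h
    rw [h, finrank_bot, hd1, hd2] at h1
    have hk' : Module.finrank ℂ (VV29 π ((k + 1) * e)) <
        Module.finrank ℂ (VV29 π (k * e)) + (k + 2) := hk
    omega
  obtain ⟨x, hx, hx0⟩ := Submodule.exists_mem_ne_zero_of_ne_bot h3
  obtain ⟨⟨g, hg, hgx⟩, ⟨ν, hν, hνx⟩⟩ := Submodule.mem_inf.1 hx
  obtain ⟨a, ha, rfl⟩ := mem_VV29.1 hg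
  change π (cx f) * π a = x at hgx
  change Polynomial.aeval v ν = x at hνx
  have hν0 : ν ≠ 0 := by
    rintro rfl
    rw [map_zero] at hνx
    exact hx0 hνx.symm
  rw [SetLike.mem_coe, Polynomial.mem_degreeLT] at hν
  have hν' : ν.natDegree < k + 2 := (Polynomial.natDegree_lt_iff_degree_lt hν0).2 hν
  -- a coefficient which is real and not zero
  set c : ℂ := (starRingEnd ℂ) (ν.coeff ν.natDegree) with hcd
  have hc0 : ν.coeff ν.natDegree ≠ 0 := by
    rw [Polynomial.coeff_natDegree]
    exact Polynomial.leadingCoeff_ne_zero.2 hν0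
  obtain ⟨a1, ha1, hp1⟩ := realpart29 hc u f (C c * a) (Polynomial.C c * ν) (k + 2)
    (lt_of_le_of_lt (Polynomial.natDegree_C_mul_le _ _) hν') (by
      rw [map_mul, IsCrv.pi_C, map_mul, Polynomial.aeval_C, mul_left_comm, hgx, ← hνx])
  refine ⟨a1, _, ?_, ?_, ?_, hp1⟩
  · intro h0
    have h4 := congrArg (fun q : Polynomial ℝ => q.coeff ν.natDegree) h0
    simp only [Polynomial.finsetSum_coeff, Polynomial.coeff_monomial, Polynomial.coeff_zero] at h4
    rw [Finset.sum_ite_eq' , if_pos (Finset.mem_range.2 hν'), Polynomial.coeff_C_mul, hcd,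
      mul_comm, Complex.mul_conj] at h4
    rw [Complex.ofReal_re] at h4
    exact hc0 (Complex.normSq_eq_zero.1 h4)
  · refine (Polynomial.natDegree_sum_le_of_forall_le (n := k + 1) _ _ fun i hi => ?_).trans
      (by omega)
    rw [Finset.mem_range] at hi
    exact (Polynomial.natDegree_monomial_le _).trans (by omega)
  · refine ha1.trans ((totalDegree_mul _ _).trans ?_)
    rw [totalDegree_C, zero_add]
    omega

end Pool.Agent.Helper10.GN
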