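import Pool.Agent.Helper10.GN.K1

set_option autoImplicit false

/-!
# Project GN, block K2: the normalised form (compactness)

Proof. Let `D` be from `lemK1`. Let `A_n` be the finite-dimensional space of the polynomials of total degree `≤ n`
(`MvPolynomial.restrictTotalDegree`), `I_n = A_n ∩ (p)`, and `U_n` a complement of `I_n` in `A_n`; every `f ∈ A_n` is congruent to a
unique `f' ∈ U_n` modulo `p`, `f' ≠ 0` iff `p ∤ f`. Fix norms on `U_d`, `U_D` and `P_D = {ν : natDegree ≤ D}` (coordinates).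
Let `Ω` be the set of the triples `(f', a, ν) ∈ U_d × U_D × P_D` with `‖f'‖ = 1`, `max (‖a‖, ‖ν‖) = 1`, `p ∣ f' a - ν(u)`. It is compact
(the last condition: a continuous map into a finite-dimensional space `A_n` lands in the closed subspace `I_n`). On `Ω` `ν ≠ 0`: if
`ν = 0` then `p ∣ f' a`, `p` prime, `p ∤ f'`, so `p ∣ a`, `a = 0`, contradiction to `max = 1`. So `‖ν‖ ≥ c₀ > 0` on
`Ω` (if `Ω` is empty there is nothing to show). For `f ∈ A_d`, `p ∤ f`: let `f' ∈ U_d` be congruent to `l f`, `l > 0` real such that `‖f'‖ = 1`; by `lemK1`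
there is a nonzero pair `(a, ν)`, replace `a` by its representative in `U_D` and scale: `(f', a, ν) ∈ Ω` (not both zero, since `ν ≠ 0`).
-/

namespace Pool.Agent.Helper10.GN

open VC FF MvPolynomial Pool.Agent.Helper68.QM

variable {F : Type} [Field F] [Algebra ℂ F] {s : RStr F} (hF : IsFunctionField ℂ F)
variable {p : A} {π : CP →ₐ[ℂ] F}
/-- A basis of the polynomials of degree at most `n` modulo `p`. -/
private lemma exists_bas (p : A) (n : ℕ) : ∃ (r : ℕ) (e : Fin r → A),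
    (∀ i, (e i).totalDegree ≤ n) ∧
    (∀ f : A, f.totalDegree ≤ n → ∃ x : Fin r → ℝ, p ∣ f - ∑ i, C (x i) * e i) ∧
    (∀ x : Fin r → ℝ, p ∣ ∑ i, C (x i) * e i → x = 0) := by
  classical
  let V : Submodule ℝ A := restrictTotalDegree (Fin 2) ℝ n
  let mk : A →ₗ[ℝ] (A ⧸ Ideal.span {p}) := (Ideal.Quotient.mkₐ ℝ (Ideal.span {p})).toLinearMap
  have hmk : ∀ f, mk f = 0 ↔ p ∣ f := fun f => by
    change Ideal.Quotient.mk _ f = 0 ↔ _
    rw [Ideal.Quotient.eq_zero_iff_mem, Ideal.mem_span_singleton]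
  let W : Submodule ℝ (A ⧸ Ideal.span {p}) := V.map mk
  let b := Module.finBasis ℝ W
  have h1 : ∀ i, ∃ f ∈ V, mk f = (b i : A ⧸ Ideal.span {p}) := fun i => (b i).2
  choose e heV he using h1
  have hsum : ∀ x : Fin (Module.finrank ℝ W) → ℝ,
      mk (∑ i, C (x i) * e i) = ((∑ i, x i • b i : W) : A ⧸ Ideal.span {p}) := by
    intro x
    rw [map_sum, AddSubmonoidClass.coe_finsetSum]
    refine Finset.sum_congr rfl fun i _ => ?_
    rw [← smul_eq_C_mul, map_smul, he i]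
    rfl
  refine ⟨_, e, fun i => (mem_restrictTotalDegree _ _ _).mp (heV i), fun f hf => ?_,
    fun x hx => ?_⟩
  · have hfW : mk f ∈ W := ⟨f, (mem_restrictTotalDegree _ _ _).mpr hf, rfl⟩
    refine ⟨fun i => b.repr ⟨mk f, hfW⟩ i, ?_⟩
    rw [← hmk, map_sub, hsum, b.sum_repr ⟨mk f, hfW⟩, sub_self]
  · rw [← hmk, hsum] at hx
    have h2 : ∑ i, x i • b i = 0 := Subtype.ext hx
    funext i
    exact (Fintype.linearIndependent_iff.mp b.linearIndependent) x h2 i

private lemma dvd_iff_dual (p a : A) : p ∣ a ↔ ∀ φ : Module.Dual ℝ (A ⧸ Ideal.span {p}),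
    φ (Ideal.Quotient.mkₐ ℝ (Ideal.span {p}) a) = 0 := by
  rw [Module.forall_dual_apply_eq_zero_iff]
  change _ ↔ Ideal.Quotient.mk _ a = 0
  rw [Ideal.Quotient.eq_zero_iff_mem, Ideal.mem_span_singleton]

private lemma exists_bd {r : ℕ} (e : Fin r → A) : ∃ K : ℝ, 0 < K ∧ ∀ x : Fin r → ℝ, ‖x‖ ≤ 1 →
    ∀ m, |coeff m (∑ i, C (x i) * e i)| ≤ K := by
  classical
  have h1 : ∀ i, ∃ K : ℝ, ∀ m, |coeff m (e i)| ≤ K := by
    intro i
    refine ⟨∑ m ∈ (e i).support, |coeff m (e i)|, fun m => ?_⟩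
    by_cases hm : m ∈ (e i).support
    · exact Finset.single_le_sum (f := fun m => |coeff m (e i)|) (fun _ _ => abs_nonneg _) hm
    · rw [notMem_support_iff.mp hm, abs_zero]
      exact Finset.sum_nonneg fun _ _ => abs_nonneg _
  choose K hK using h1
  have hK0 : ∀ i, 0 ≤ K i := fun i => (abs_nonneg _).trans (hK i 0)
  refine ⟨∑ i, K i + 1, by have := Finset.sum_nonneg (fun i (_ : i ∈ Finset.univ) => hK0 i); linarith,
    fun x hx m => ?_⟩
  rw [coeff_sum]
  refine (Finset.abs_sum_le_sum_abs _ _).trans ?_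
  refine (Finset.sum_le_sum (fun i _ => ?_)).trans (le_add_of_nonneg_right zero_le_one)
  rw [coeff_C_mul, abs_mul]
  have h2 : |x i| ≤ 1 := (norm_le_pi_norm x i).trans hx
  calc |x i| * |coeff m (e i)| ≤ 1 * K i := mul_le_mul h2 (hK i m) (abs_nonneg _) zero_le_one
    _ = K i := one_mul _

private lemma deg_comb {n r : ℕ} {e : Fin r → A} (he : ∀ i, (e i).totalDegree ≤ n)
    (x : Fin r → ℝ) : (∑ i, C (x i) * e i).totalDegree ≤ n := by
  rw [← mem_restrictTotalDegree]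
  refine Submodule.sum_mem _ fun i _ => ?_
  rw [← smul_eq_C_mul]
  exact Submodule.smul_mem _ _ ((mem_restrictTotalDegree _ _ _).mpr (he i))

include hF

theorem lemK2 (hc : IsCrv p s π) (hp : Irreducible p) (u : A)
    (hu : Transcendental ℂ (π (cx u))) (d : ℕ) :
    ∃ (D : ℕ) (K c₀ : ℝ), 0 < K ∧ 0 < c₀ ∧ ∀ f : A, f.totalDegree ≤ d → ¬ p ∣ f →
      ∃ (l : ℝ) (f' fs : A) (ν : Polynomial ℝ), 0 < l ∧ p ∣ C l * f - f' ∧
        f'.totalDegree ≤ D ∧ fs.totalDegree ≤ D ∧ ν.natDegree ≤ D ∧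
        (∀ m, |coeff m f'| ≤ K) ∧ (∀ m, |coeff m fs| ≤ K) ∧ (∃ j, c₀ ≤ |ν.coeff j|) ∧
        p ∣ f' * fs - Polynomial.aeval u ν := by
  classical
  have hpp : Prime p := hp.prime
  obtain ⟨D, hD⟩ := lemK1 hF hc u hu d
  obtain ⟨r, e, he1, he2, he3⟩ := exists_bas p d
  obtain ⟨m, g, hg1, hg2, hg3⟩ := exists_bas p D
  obtain ⟨K1, hK1, hKe⟩ := exists_bd e
  obtain ⟨K2, hK2, hKg⟩ := exists_bd g
  let E : (Fin r → ℝ) → A := fun x => ∑ i, C (x i) * e i
  let G : (Fin m → ℝ) → A := fun y => ∑ i, C (y i) * g i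
  let N : (Fin (D + 1) → ℝ) → Polynomial ℝ := fun z => ∑ k : Fin (D + 1),
    Polynomial.C (z k) * Polynomial.X ^ (k : ℕ)
  have hEs : ∀ (c : ℝ) x, E (c • x) = C c * E x := by
    intro c x
    simp only [E, Finset.mul_sum, Pi.smul_apply, smul_eq_mul, C_mul, mul_assoc]
  have hGs : ∀ (c : ℝ) x, G (c • x) = C c * G x := by
    intro c x
    simp only [G, Finset.mul_sum, Pi.smul_apply, smul_eq_mul, C_mul, mul_assoc]
  have hNs : ∀ (c : ℝ) x, N (c • x) = Polynomial.C c * N x := by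
    intro c x
    simp only [N, Finset.mul_sum, Pi.smul_apply, smul_eq_mul, Polynomial.C_mul, mul_assoc]
  have hNc : ∀ z (k : Fin (D + 1)), (N z).coeff k = z k := by
    intro z k
    simp only [N, Polynomial.finsetSum_coeff, Polynomial.coeff_C_mul_X_pow]
    rw [Finset.sum_eq_single k]
    · simp
    · intro b _ hb
      rw [if_neg]
      intro h
      exact hb (Fin.ext h.symm)
    · intro h
      exact absurd (Finset.mem_univ k) h
  have hNd : ∀ z, (N z).natDegree ≤ D := by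
    intro z
    refine Polynomial.natDegree_sum_le_of_forall_le _ _ fun k _ => ?_
    exact (Polynomial.natDegree_C_mul_X_pow_le _ _).trans (Nat.lt_succ_iff.mp k.2)
  let Ω : Set ((Fin r → ℝ) × (Fin m → ℝ) × (Fin (D + 1) → ℝ)) :=
    {w | ‖w.1‖ = 1 ∧ ‖w.2‖ = 1 ∧ p ∣ E w.1 * G w.2.1 - Polynomial.aeval u (N w.2.2)}
  have hcl : IsClosed Ω := by
    refine (isClosed_eq (by fun_prop) continuous_const).inter
      ((isClosed_eq (by fun_prop) continuous_const).inter ?_)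
    have e1 : {w : (Fin r → ℝ) × (Fin m → ℝ) × (Fin (D + 1) → ℝ) |
        p ∣ E w.1 * G w.2.1 - Polynomial.aeval u (N w.2.2)} =
        ⋂ φ : Module.Dual ℝ (A ⧸ Ideal.span {p}), {w | φ (Ideal.Quotient.mkₐ ℝ (Ideal.span {p})
          (E w.1 * G w.2.1 - Polynomial.aeval u (N w.2.2))) = 0} := by
      ext w
      rw [Set.mem_iInter]
      exact dvd_iff_dual p _
    change IsClosed {w : (Fin r → ℝ) × (Fin m → ℝ) × (Fin (D + 1) → ℝ) |
        p ∣ E w.1 * G w.2.1 - Polynomial.aeval u (N w.2.2)}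
    rw [e1]
    refine isClosed_iInter fun φ => isClosed_eq ?_ continuous_const
    let ψ : A →ₗ[ℝ] ℝ := φ.comp (Ideal.Quotient.mkₐ ℝ (Ideal.span {p})).toLinearMap
    have e2 : ∀ w : (Fin r → ℝ) × (Fin m → ℝ) × (Fin (D + 1) → ℝ),
        φ (Ideal.Quotient.mkₐ ℝ (Ideal.span {p})
          (E w.1 * G w.2.1 - Polynomial.aeval u (N w.2.2))) =
        ∑ i, ∑ j, w.1 i * w.2.1 j * ψ (e i * g j) - ∑ k, w.2.2 k * ψ (u ^ (k : ℕ)) := by
      intro w
      change ψ (E w.1 * G w.2.1 - Polynomial.aeval u (N w.2.2)) = _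
      rw [map_sub]
      congr 1
      · simp only [E, G]
        rw [Finset.sum_mul_sum, map_sum]
        refine Finset.sum_congr rfl fun i _ => ?_
        rw [map_sum]
        refine Finset.sum_congr rfl fun j _ => ?_
        have e3 : C (w.1 i) * e i * (C (w.2.1 j) * g j) = (w.1 i * w.2.1 j) • (e i * g j) := by
          rw [smul_eq_C_mul, C_mul]; ring
        rw [e3, map_smul, smul_eq_mul]
      · simp only [N]
        rw [map_sum, map_sum]
        refine Finset.sum_congr rfl fun k _ => ?_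
        rw [map_mul, map_pow, Polynomial.aeval_X, Polynomial.aeval_C, ← Algebra.smul_def, map_smul,
          smul_eq_mul]
    simp only [e2]
    fun_prop
  have hbd : Bornology.IsBounded Ω := by
    rw [isBounded_iff_forall_norm_le]
    exact ⟨1, fun w hw => max_le hw.1.le hw.2.1.le⟩
  have hcpt : IsCompact Ω := Metric.isCompact_of_isClosed_isBounded hcl hbd
  have hz : ∀ w ∈ Ω, w.2.2 ≠ 0 := by
    rintro ⟨x, y, z⟩ ⟨h1, h2, h3⟩ h4
    change z = 0 at h4
    change ‖x‖ = 1 at h1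
    change ‖(y, z)‖ = 1 at h2
    change p ∣ E x * G y - Polynomial.aeval u (N z) at h3
    have h5 : N z = 0 := by
      have := hNs 0 z
      rwa [zero_smul, Polynomial.C_0, zero_mul, ← h4] at this
    rw [h5, map_zero, sub_zero] at h3
    rcases hpp.dvd_or_dvd h3 with h6 | h6
    · rw [he3 x h6, norm_zero] at h1
      exact zero_ne_one h1
    · rw [hg3 y h6, h4] at h2
      have : ‖((0, 0) : (Fin m → ℝ) × (Fin (D + 1) → ℝ))‖ = 0 := norm_zero
      rw [this] at h2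
      exact zero_ne_one h2
  obtain ⟨c₀, hc0, hc1⟩ : ∃ c₀ : ℝ, 0 < c₀ ∧ ∀ w ∈ Ω, c₀ ≤ ‖w.2.2‖ := by
    rcases Ω.eq_empty_or_nonempty with h0 | h0
    · exact ⟨1, one_pos, fun w hw => by rw [h0] at hw; exact hw.elim⟩
    · obtain ⟨w₀, hw₀, hmin⟩ := hcpt.exists_isMinOn h0
        (f := fun w : (Fin r → ℝ) × (Fin m → ℝ) × (Fin (D + 1) → ℝ) => ‖w.2.2‖)
        (Continuous.continuousOn (by fun_prop))
      exact ⟨‖w₀.2.2‖, norm_pos_iff.mpr (hz w₀ hw₀), fun w hw => hmin hw⟩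
  refine ⟨max d D, max K1 K2, c₀, lt_max_of_lt_left hK1, hc0, fun f hf hpf => ?_⟩
  obtain ⟨x, hx⟩ := he2 f hf
  have hx0 : x ≠ 0 := by
    rintro rfl
    apply hpf
    simpa using hx
  have hn0 : 0 < ‖x‖ := norm_pos_iff.mpr hx0
  obtain ⟨x', hx'⟩ : ∃ x' : Fin r → ℝ, x' = ‖x‖⁻¹ • x := ⟨_, rfl⟩
  have hx1 : ‖x'‖ = 1 := by
    rw [hx', norm_smul, norm_inv, norm_norm, inv_mul_cancel₀ hn0.ne']
  have hpE : ¬ p ∣ E x' := by
    intro h
    rw [he3 x' h, norm_zero] at hx1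
    exact zero_ne_one hx1
  obtain ⟨a, ν, hν0, hνD, haD, hdiv⟩ := hD (E x') (deg_comb he1 x') hpE
  obtain ⟨y, hy⟩ := hg2 a haD
  obtain ⟨z, hzd⟩ : ∃ z : Fin (D + 1) → ℝ, z = fun k : Fin (D + 1) => ν.coeff (k : ℕ) := ⟨_, rfl⟩
  have hNz : N z = ν := by
    ext j
    by_cases hj : j < D + 1
    · have := hNc z ⟨j, hj⟩
      rw [show ((⟨j, hj⟩ : Fin (D + 1)) : ℕ) = j from rfl] at this
      rw [this, hzd]
    · rw [Polynomial.coeff_eq_zero_of_natDegree_lt (lt_of_le_of_lt (hNd z) (by omega)),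
        Polynomial.coeff_eq_zero_of_natDegree_lt (lt_of_le_of_lt hνD (by omega))]
  have hz0 : z ≠ 0 := by
    intro h
    apply hν0
    rw [← hNz, h]
    have := hNs 0 0
    rwa [zero_smul, Polynomial.C_0, zero_mul] at this
  have ht : 0 < ‖(y, z)‖ := by
    rw [norm_pos_iff]
    intro h
    exact hz0 (congrArg Prod.snd h)
  have hdiv2 : p ∣ E x' * G y - Polynomial.aeval u (N z) := by
    rw [hNz]
    have h1 : E x' * G y - Polynomial.aeval u ν =
      (E x' * a - Polynomial.aeval u ν) - E x' * (a - G y) := by ring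
    rw [h1]
    exact dvd_sub hdiv (Dvd.dvd.mul_left hy _)
  set t : ℝ := ‖(y, z)‖ with htd
  have hw : ((x', t⁻¹ • y, t⁻¹ • z) : (Fin r → ℝ) × (Fin m → ℝ) × (Fin (D + 1) → ℝ)) ∈ Ω := by
    refine ⟨hx1, ?_, ?_⟩
    · change ‖(t⁻¹ • y, t⁻¹ • z)‖ = 1
      rw [← Prod.smul_mk, norm_smul, norm_inv, ← htd, Real.norm_eq_abs, abs_of_pos ht,
        inv_mul_cancel₀ ht.ne']
    · change p ∣ E x' * G (t⁻¹ • y) - Polynomial.aeval u (N (t⁻¹ • z))
      rw [hGs, hNs, map_mul, Polynomial.aeval_C]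
      have h1 : E x' * (C t⁻¹ * G y) - algebraMap ℝ A t⁻¹ * Polynomial.aeval u (N z) =
          C t⁻¹ * (E x' * G y - Polynomial.aeval u (N z)) := by
        rw [MvPolynomial.algebraMap_eq]
        ring
      rw [h1]
      exact Dvd.dvd.mul_left hdiv2 _
  have hw1 := hw.2.1
  have hwy : ‖t⁻¹ • y‖ ≤ 1 := hw1 ▸ le_max_left _ _
  refine ⟨‖x‖⁻¹, E x', G (t⁻¹ • y), N (t⁻¹ • z), inv_pos.mpr hn0, ?_,
    (deg_comb he1 x').trans (le_max_left _ _), (deg_comb hg1 _).trans (le_max_right _ _),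
    (hNd _).trans (le_max_right _ _), fun m => (hKe x' hx1.le m).trans (le_max_left _ _),
    fun m => (hKg _ hwy m).trans (le_max_right _ _), ?_, hw.2.2⟩
  · have h1 : C ‖x‖⁻¹ * f - E x' = C ‖x‖⁻¹ * (f - ∑ i, C (x i) * e i) := by
      rw [hx', hEs]
      ring
    rw [h1]
    exact Dvd.dvd.mul_left hx _
  · by_contra hcon
    push Not at hcon
    have h1 : ‖t⁻¹ • z‖ < c₀ := by
      rw [pi_norm_lt_iff hc0]
      intro k
      rw [Real.norm_eq_abs, ← hNc (t⁻¹ • z) k]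
      exact hcon k
    exact absurd (hc1 _ hw) (not_le.mpr h1)

end Pool.Agent.Helper10.GN
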