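import Pool.Agent.Helper10.GN.Conj

set_option autoImplicit false

/-!
# Project GN, block VAL: values of functions at places

`vl` is `FF.ev` extended by `0`; `FF.ev` is a ring homomorphism `P.ring →+* ℂ`, `FF.ev_spec`,
`FF.ev_eq_iff`, `FF.ev_eq_zero_iff`, `FF.ev_algebraMap`. `vl_cj`: if `σ f - c` is a nonunit at `P`
then `f - conj c = σ (σ f - c)` is a nonunit at `s.cj P` (`nonunits_cj`, `s.alg`, `s.inv`).
`vl_real`: `P` real: `vl P (σ f) = conj (vl P f)`; for real `f` the value is real.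
-/

namespace Pool.Agent.Helper10.GN

open VC FF

variable {F : Type} [Field F] [Algebra ℂ F] (s : RStr F) (hF : IsFunctionField ℂ F)
variable {P : Place ℂ F}

private theorem vl_mem68 {f : F} (hf : f ∈ P.ring) : vl hF P f = ev hF P ⟨f, hf⟩ := dif_pos hf

private theorem vl_not68 {f : F} (hf : f ∉ P.ring) : vl hF P f = 0 := dif_neg hf

theorem vl_eq_iff {f : F} (hf : f ∈ P.ring) (c : ℂ) :
    vl hF P f = c ↔ f - algebraMap ℂ F c ∈ P.ring.nonunits := by
  rw [vl_mem68 hF hf]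
  exact ev_eq_iff hF P ⟨f, hf⟩ c

theorem vl_alg (c : ℂ) : vl hF P (algebraMap ℂ F c) = c := by
  rw [vl_mem68 hF (P.algebraMap_mem c)]
  exact ev_algebraMap hF P c

theorem vl_zero : vl hF P (0 : F) = 0 := by
  have h := vl_alg hF (P := P) 0
  rwa [map_zero] at h

theorem vl_one : vl hF P (1 : F) = 1 := by
  have h := vl_alg hF (P := P) 1
  rwa [map_one] at h

theorem vl_add {f g : F} (hf : f ∈ P.ring) (hg : g ∈ P.ring) :
    vl hF P (f + g) = vl hF P f + vl hF P g := by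
  rw [vl_mem68 hF hf, vl_mem68 hF hg, vl_mem68 hF (add_mem hf hg), ← map_add]
  rfl

theorem vl_sub {f g : F} (hf : f ∈ P.ring) (hg : g ∈ P.ring) :
    vl hF P (f - g) = vl hF P f - vl hF P g := by
  rw [vl_mem68 hF hf, vl_mem68 hF hg, vl_mem68 hF (sub_mem hf hg), ← map_sub]
  rfl

theorem vl_neg {f : F} (hf : f ∈ P.ring) : vl hF P (-f) = - vl hF P f := by
  rw [vl_mem68 hF hf, vl_mem68 hF (neg_mem hf), ← map_neg]
  rfl

theorem vl_mul {f g : F} (hf : f ∈ P.ring) (hg : g ∈ P.ring) :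
    vl hF P (f * g) = vl hF P f * vl hF P g := by
  rw [vl_mem68 hF hf, vl_mem68 hF hg, vl_mem68 hF (mul_mem hf hg), ← map_mul]
  rfl

theorem vl_pow {f : F} (hf : f ∈ P.ring) (n : ℕ) : vl hF P (f ^ n) = vl hF P f ^ n := by
  rw [vl_mem68 hF hf, vl_mem68 hF (pow_mem hf n), ← map_pow]
  rfl

theorem vl_sum {ι : Type} (t : Finset ι) (f : ι → F) (h : ∀ i ∈ t, f i ∈ P.ring) :
    vl hF P (∑ i ∈ t, f i) = ∑ i ∈ t, vl hF P (f i) := by
  classical
  induction t using Finset.induction_on with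
  | empty => rw [Finset.sum_empty, Finset.sum_empty, vl_zero]
  | insert a t ha ih =>
    rw [Finset.sum_insert ha, Finset.sum_insert ha,
      vl_add hF (h a (Finset.mem_insert_self a t))
        (sum_mem fun i hi => h i (Finset.mem_insert_of_mem hi)),
      ih fun i hi => h i (Finset.mem_insert_of_mem hi)]

theorem vl_smul (c : ℂ) {f : F} (hf : f ∈ P.ring) : vl hF P (c • f) = c * vl hF P f := by
  rw [Algebra.smul_def, vl_mul hF (P.algebraMap_mem c) hf, vl_alg]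

theorem vl_eq_zero {f : F} (hf : f ∈ P.ring) : vl hF P f = 0 ↔ Oge P 1 f := by
  rw [vl_eq_iff hF hf, map_zero, sub_zero, oge_one_iff hF]

theorem vl_inv {f : F} (hf : f ∈ P.ring) (h0 : vl hF P f ≠ 0) :
    f⁻¹ ∈ P.ring ∧ vl hF P f⁻¹ = (vl hF P f)⁻¹ := by
  have h1 : f ∉ P.ring.nonunits := fun h => h0 ((vl_eq_iff hF hf 0).2 (by rwa [map_zero, sub_zero]))
  rw [ValuationSubring.mem_nonunits_iff_or, not_or, not_not] at h1
  refine ⟨h1.2, ?_⟩
  have h2 := vl_mul hF hf h1.2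
  rw [mul_inv_cancel₀ h1.1, vl_one] at h2
  exact eq_inv_of_mul_eq_one_right h2.symm

theorem ord_eq_zero_of_vl {f : F} (hf : f ∈ P.ring) (h0 : vl hF P f ≠ 0) : ord P.ring f = 0 := by
  have hf0 : f ≠ 0 := by
    rintro rfl
    exact h0 (vl_zero hF)
  have h1 := (FF.ord_nonneg_iff hF P hf0).2 hf
  have h2 : ¬ Oge P 1 f := fun h => h0 ((vl_eq_zero hF hf).2 h)
  unfold Oge at h2
  push Not at h2
  have h3 := h2.2
  omega

theorem vl_ne_zero {f : F} (hf0 : f ≠ 0) (h : ord P.ring f = 0) : vl hF P f ≠ 0 := by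
  intro h1
  have hf : f ∈ P.ring := (FF.ord_nonneg_iff hF P hf0).1 h.ge
  rcases (vl_eq_zero hF hf).1 h1 with h2 | h2
  · exact hf0 h2
  · omega

theorem vl_cj {f : F} (hf : s.σ f ∈ P.ring) :
    vl hF (s.cj P) f = (starRingEnd ℂ) (vl hF P (s.σ f)) := by
  have h1 : f ∈ (s.cj P).ring := (mem_cj s P f).2 hf
  rw [vl_eq_iff hF h1, nonunits_cj, map_sub, s.alg, Complex.conj_conj]
  exact (vl_eq_iff hF hf _).1 rfl

section real

variable (hP : s.cj P = P)
include hP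

theorem sigma_mem {f : F} (hf : f ∈ P.ring) : s.σ f ∈ P.ring := by
  rw [← mem_cj, hP]
  exact hf

theorem vl_sigma {f : F} (hf : f ∈ P.ring) : vl hF P (s.σ f) = (starRingEnd ℂ) (vl hF P f) := by
  have h1 := vl_cj s hF (P := P) (f := f) (sigma_mem s hP hf)
  rw [hP] at h1
  rw [h1, Complex.conj_conj]

theorem vl_real {f : F} (hσ : s.σ f = f) : vl hF P f = (rv hF P f : ℂ) := by
  by_cases hf : f ∈ P.ring
  · have h1 := vl_sigma s hF hP hf
    rw [hσ] at h1
    exact (Complex.conj_eq_iff_re.1 h1.symm).symm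
  · unfold rv
    rw [vl_not68 hF hf]
    simp

theorem rv_mul_cj {f : F} (hf : f ∈ P.ring) : rv hF P (f * s.σ f) = ‖vl hF P f‖ ^ 2 := by
  unfold rv
  rw [vl_mul hF hf (sigma_mem s hP hf), vl_sigma s hF hP hf, Complex.mul_conj, Complex.ofReal_re,
    Complex.normSq_eq_norm_sq]

theorem rv_mul {f g : F} (hf : f ∈ P.ring) (hg : g ∈ P.ring) (hσ : s.σ f = f)
    (hσ' : s.σ g = g) : rv hF P (f * g) = rv hF P f * rv hF P g := by
  have h1 := vl_mul hF hf hg
  rw [vl_real s hF hP hσ, vl_real s hF hP hσ', vl_real s hF hP (by rw [map_mul, hσ, hσ'])] at h1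
  exact_mod_cast h1

theorem rv_pow {f : F} (hf : f ∈ P.ring) (hσ : s.σ f = f) (n : ℕ) :
    rv hF P (f ^ n) = rv hF P f ^ n := by
  have h1 := vl_pow hF hf n
  rw [vl_real s hF hP hσ, vl_real s hF hP (by rw [map_pow, hσ])] at h1
  exact_mod_cast h1

end real

theorem rv_add {f g : F} (hf : f ∈ P.ring) (hg : g ∈ P.ring) :
    rv hF P (f + g) = rv hF P f + rv hF P g := by
  unfold rv
  rw [vl_add hF hf hg, Complex.add_re]

theorem rv_sub {f g : F} (hf : f ∈ P.ring) (hg : g ∈ P.ring) :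
    rv hF P (f - g) = rv hF P f - rv hF P g := by
  unfold rv
  rw [vl_sub hF hf hg, Complex.sub_re]

theorem rv_sum {ι : Type} (t : Finset ι) (f : ι → F) (h : ∀ i ∈ t, f i ∈ P.ring) :
    rv hF P (∑ i ∈ t, f i) = ∑ i ∈ t, rv hF P (f i) := by
  unfold rv
  rw [vl_sum hF t f h, Complex.re_sum]

theorem rv_ofReal (r : ℝ) : rv hF P (algebraMap ℂ F (r : ℂ)) = r := by
  unfold rv
  rw [vl_alg, Complex.ofReal_re]

end Pool.Agent.Helper10.GN
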