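import Pool.Agent.Helper10.GN.CB
import Pool.Agent.Helper10.GN.Val

set_option autoImplicit false

/-!
# Project GN, block PLC: places and points of the curve

`mem_of_fin`: polynomials in `π (X 0)`, `π (X 1)`. `vl_over`: `vl` is a homomorphism on `P.ring`. `over_zero`: apply
`vl_over` to `cx p`, `π (cx p) = 0`. `exists_over`: `FF.exists_place_of_subring` for the range of `π` and the ideal
`{π h : eval z h = 0}` (proper: if `1 = π h`, `h z = 0`, then `cx p ∣ 1 - h`, so `1 - h(z) = 0`, contradiction; it contains a nonzero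
element: `π (X 0 - z 0)` or `π (X 1 - z 1)`, as `F ≠ ℂ`). `exists_point`: `z i = vl P (π (X i))`.
`finite_over`: not both `π (X i) - z i` are zero (`hc.frac`, `F ≠ ℂ`), a nonzero function has finitely many zeros
(`FF.finite_support_ord`). `finite_inf`: poles of `π (X 0)` and of `π (X 1)`. `fin_cj`: `mem_cj`, `hc.conj`, `cjp_X`.
`over_cj`: `vl_cj`. `real_of_over`: `P` real gives `z = zbar z`. `finite_common`: a common zero `z` of
`cx p` and `h` gives a place over `z` (`exists_over`) at which the nonzero function `π h` vanishes; and `z` is determined by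
the place.
-/

namespace Pool.Agent.Helper10.GN

open VC FF MvPolynomial Pool.Agent.Helper68.QM

variable {F : Type} [Field F] [Algebra ℂ F] {s : RStr F} (hF : IsFunctionField ℂ F)
variable {p : A} {π : CP →ₐ[ℂ] F}

theorem mem_of_fin {P : Place ℂ F} (h : FinP π P) (a : CP) : π a ∈ P.ring := by
  induction a using MvPolynomial.induction_on with
  | C c =>
    have h1 : π (C c) = algebraMap ℂ F c := π.commutes c
    rw [h1]
    exact P.algebraMap_mem c
  | add f g hf hg =>
    rw [map_add]
    exact add_mem hf hg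
  | mul_X f i hf =>
    rw [map_mul]
    exact mul_mem hf (h i)

theorem vl_over {P : Place ℂ F} {z : Fin 2 → ℂ} (h : Over hF π P z) (a : CP) :
    vl hF P (π a) = eval z a := by
  induction a using MvPolynomial.induction_on with
  | C c =>
    have h1 : π (C c) = algebraMap ℂ F c := π.commutes c
    rw [h1, vl_alg, eval_C]
  | add f g hf hg =>
    rw [map_add, map_add, vl_add hF (mem_of_fin h.1 f) (mem_of_fin h.1 g), hf, hg]
  | mul_X f i hf =>
    rw [map_mul, map_mul, vl_mul hF (mem_of_fin h.1 f) (h.1 i), hf, h.2 i, eval_X]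

theorem over_zero (hc : IsCrv p s π) {P : Place ℂ F} {z : Fin 2 → ℂ} (h : Over hF π P z) :
    eval z (cx p) = 0 := by
  rw [← vl_over hF h, (hc.ker (cx p)).2 dvd_rfl, vl_zero]

include hF in
private theorem h99_ne (hc : IsCrv p s π) (z : Fin 2 → ℂ) : ∃ i, π (X i - C (z i)) ≠ 0 := by
  by_contra hcon
  push Not at hcon
  have h1 : ∀ a : CP, π a = algebraMap ℂ F (eval z a) := by
    intro a
    induction a using MvPolynomial.induction_on with
    | C c =>
      rw [eval_C]
      exact π.commutes c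
    | add f g hf hg => rw [map_add, map_add, map_add, hf, hg]
    | mul_X f i hf =>
      have h2 := hcon i
      have h3 : π (C (z i)) = algebraMap ℂ F (z i) := π.commutes (z i)
      rw [map_sub, sub_eq_zero, h3] at h2
      rw [map_mul, map_mul, map_mul, hf, eval_X, h2]
  obtain ⟨t, ht, -⟩ := hF
  obtain ⟨a, b, -, h2⟩ := hc.frac t
  apply ht
  rw [h2, h1 a, h1 b, ← map_div₀]
  exact isAlgebraic_algebraMap _

theorem exists_over (hc : IsCrv p s π) {z : Fin 2 → ℂ} (hz : eval z (cx p) = 0) :
    ∃ P, Over hF π P z := by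
  let φ : CP →+* π.toRingHom.range := π.toRingHom.rangeRestrict
  have hφ : Function.Surjective φ := π.toRingHom.rangeRestrict_surjective
  let I : Ideal π.toRingHom.range := Ideal.map φ (RingHom.ker (eval z))
  have hI : ∀ x ∈ I, ∃ a : CP, eval z a = 0 ∧ φ a = x := by
    intro x hx
    obtain ⟨a, ha, hax⟩ := (Ideal.mem_map_iff_of_surjective φ hφ).1 hx
    exact ⟨a, ha, hax⟩
  obtain ⟨i, hi⟩ := h99_ne hF hc z
  have hXi : ∀ j, φ (X j - C (z j)) ∈ I := by
    intro j
    apply Ideal.mem_map_of_mem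
    rw [RingHom.mem_ker, map_sub, eval_X, eval_C, sub_self]
  obtain ⟨P, hP1, hP2⟩ := exists_place_of_subring (k := ℂ) π.toRingHom.range
    (fun a => ⟨C a, π.commutes a⟩) I (by
      rw [Ne, Ideal.eq_top_iff_one]
      intro h1
      obtain ⟨a, ha, hax⟩ := hI 1 h1
      have h2 : π a = 1 := congrArg Subtype.val hax
      have h3 : π (a - 1) = 0 := by rw [map_sub, map_one, h2, sub_self]
      obtain ⟨c, h4⟩ := (hc.ker (a - 1)).1 h3
      have h5 : eval z (a - 1) = 0 := by rw [h4, map_mul, hz, zero_mul]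
      rw [map_sub, map_one, ha, zero_sub] at h5
      exact one_ne_zero (neg_eq_zero.1 h5))
    ⟨φ (X i - C (z i)), hXi i, fun h => hi (congrArg Subtype.val h)⟩
  have hfin : FinP π P := fun j => hP1 _ ⟨X j, rfl⟩
  refine ⟨P, hfin, fun j => ?_⟩
  rw [vl_eq_iff hF (hfin j)]
  have h1 : π (X j - C (z j)) ∈ P.ring.nonunits := hP2 _ (hXi j)
  have h2 : π (C (z j)) = algebraMap ℂ F (z j) := π.commutes (z j)
  rwa [map_sub, h2] at h1

theorem exists_point {P : Place ℂ F} (h : FinP π P) : ∃ z, Over hF π P z := by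
  exact ⟨fun i => vl hF P (π (X i)), h, fun _ => rfl⟩

theorem over_inj {P : Place ℂ F} {z z' : Fin 2 → ℂ} (h : Over hF π P z) (h' : Over hF π P z') :
    z = z' := by
  funext i
  rw [← h.2 i, h'.2 i]

theorem finite_over (hc : IsCrv p s π) (z : Fin 2 → ℂ) : {P | Over hF π P z}.Finite := by
  obtain ⟨i, hi⟩ := h99_ne hF hc z
  apply (FF.finite_support_ord hF hi).subset
  intro P hP
  have h1 : vl hF P (π (X i - C (z i))) = 0 := by
    rw [vl_over hF hP, map_sub, eval_X, eval_C, sub_self]
  rw [vl_eq_iff hF (mem_of_fin hP.1 _), map_zero, sub_zero, ← FF.ord_pos_iff hF P hi] at h1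
  exact h1.ne'

include hF in
theorem finite_inf (hc : IsCrv p s π) : {P : Place ℂ F | ¬ FinP π P}.Finite := by
  have _ := hc
  have h1 : ∀ i : Fin 2, {P : Place ℂ F | π (X i) ∉ P.ring}.Finite := by
    intro i
    by_cases h0 : π (X i) = 0
    · convert Set.finite_empty
      ext P
      simp only [Set.mem_ofPred_eq, Set.mem_empty_iff_false, iff_false, not_not]
      rw [h0]
      exact P.ring.zero_mem
    · apply (FF.finite_support_ord hF h0).subset
      intro P hP h2
      apply hP
      rw [← FF.ord_nonneg_iff hF P h0]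
      exact (le_of_eq h2.symm)
  apply (Set.finite_iUnion h1).subset
  intro P hP
  have h2 : ¬ ∀ i, π (X i) ∈ P.ring := hP
  push Not at h2
  obtain ⟨i, hi⟩ := h2
  exact Set.mem_iUnion.2 ⟨i, hi⟩

theorem fin_cj (hc : IsCrv p s π) (P : Place ℂ F) : FinP π (s.cj P) ↔ FinP π P := by
  apply forall_congr'
  intro i
  rw [mem_cj, hc.conj, cjp_X]

theorem over_cj (hc : IsCrv p s π) {P : Place ℂ F} {z : Fin 2 → ℂ} (h : Over hF π P z) :
    Over hF π (s.cj P) (zbar z) := by
  refine ⟨(fin_cj hc P).2 h.1, fun i => ?_⟩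
  have h1 : s.σ (π (X i)) = π (X i) := by rw [hc.conj, cjp_X]
  rw [vl_cj s hF (by rw [h1]; exact h.1 i), h1, h.2 i]
  rfl

theorem real_of_over (hc : IsCrv p s π) {P : Place ℂ F} (hP : s.cj P = P) {z : Fin 2 → ℂ}
    (h : Over hF π P z) : z = cz fun i => (z i).re := by
  have h1 := over_cj hF hc h
  rw [hP] at h1
  have h2 := over_inj hF h h1
  funext i
  have h3 : (starRingEnd ℂ) (z i) = z i := (congrFun h2 i).symm
  exact (Complex.conj_eq_iff_re.1 h3).symm

theorem finite_common (hF : IsFunctionField ℂ F) (hc : IsCrv p s π) {h : CP} (hh : π h ≠ 0) :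
    {z : Fin 2 → ℂ | eval z (cx p) = 0 ∧ eval z h = 0}.Finite := by
  apply ((FF.finite_support_ord hF hh).image fun P => fun i => vl hF P (π (X i))).subset
  rintro z ⟨hz1, hz2⟩
  obtain ⟨P, hP⟩ := exists_over hF hc hz1
  refine ⟨P, ?_, funext fun i => hP.2 i⟩
  have h1 : vl hF P (π h) = 0 := by rw [vl_over hF hP, hz2]
  rw [vl_eq_iff hF (mem_of_fin hP.1 _), map_zero, sub_zero, ← FF.ord_pos_iff hF P hh] at h1
  exact h1.ne'

theorem rv_over {P : Place ℂ F} {z : Fin 2 → ℝ} (h : Over hF π P (cz z)) (a : A) :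
    π (cx a) ∈ P.ring ∧ rv hF P (π (cx a)) = eval z a := by
  refine ⟨mem_of_fin h.1 _, ?_⟩
  unfold rv
  rw [vl_over hF h, eval_cx, Complex.ofReal_re]

end Pool.Agent.Helper10.GN
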