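import Mathlib

set_option autoImplicit false

/-!
# Project GN, block SPL (Mathlib only): splitting off the nearly real roots of a real polynomial

For all `D`, `δ > 0` there is `K > 0` such that every real `ν ≠ 0` of degree `≤ D` with some `|coeff| ≥ c₀` factors as
`ν = κ H`, the coefficients of `κ` are bounded by `K`, `κ` is not small at points `w ∈ ℂ` with `|Im w| ≥ 2 δ`, and `H` is not small at
real points.

Proof. Let `‖q‖ = ∑ |coeff|` (`‖q q'‖ ≤ ‖q‖ ‖q'‖`). We show by induction on the degree `n ≤ D` of `ν ≠ 0`: `ν = κ H`, `‖κ‖ ≤ 8^n`,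
`κ(w) ≥ (δ / (2 (1 + |w|)))^n` in absolute value for `|Im w| ≥ 2 δ` (w.l.o.g. `δ ≤ 1`), `|H(x)| (1 + |x|)^n * 8^n * (2/δ)^n ≥ ‖ν‖` for real `x`. Degree
`0`: `κ = 1`, `H = ν`. Degree `> 0`: `ν` has a real root or a pair of conjugate roots, so `ν = ℓ ν'` with
(1) `ℓ = (X - r)/max(1, |r|)`, `‖ℓ‖ ≤ 2`, or (2) `ℓ = ((X - a)² + b²)/max(1, a² + b²)`, `b > 0`, `‖ℓ‖ ≤ 4`. In all cases
`‖ν‖ ≤ 4 ‖ν'‖`. In case (1) and in case (2) with `b < δ` put `ℓ` into `κ`: for `|Im w| ≥ 2δ` and a (complex) root `ρ` of `ℓ`,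
`|Im ρ| < δ`: `|w - ρ| ≥ δ` and `|w - ρ| ≥ |ρ| - |w|`, hence `|w - ρ|/max(1, |ρ|) ≥ δ/(2 (1 + |w|))` (distinguish
`|ρ| ≤ 2 |w| + 2`... and `|ρ| > 2 |w| + 2`). In case (2) with `b ≥ δ` put `ℓ` into `H`: for real `x` and a root `ρ = a ± i b` of `ℓ`:
`|x - ρ| ≥ δ`, so in the same way `|x - ρ|/max(1, |ρ|) ≥ δ/(2 (1 + |x|))`. (Any explicit constants are fine.)
-/

open Polynomial

namespace Pool.Agent.Helper10.GN

/-- The factorisation which we construct by induction. -/
private def Good (δ δ' : ℝ) (n : ℕ) (c : ℝ) (ν : ℝ[X]) : Prop :=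
  ∃ κ H : ℝ[X], ν = κ * H ∧ κ.natDegree ≤ n ∧ (∀ j, |κ.coeff j| ≤ 4 ^ n) ∧
    (∀ w : ℂ, 2 * δ ≤ |w.im| → (δ' / (1 + ‖w‖)) ^ n ≤ ‖(κ.map Complex.ofRealHom).eval w‖) ∧
    ∀ x : ℝ, c / 4 ^ n * (δ' / (1 + |x|)) ^ n ≤ |H.eval x|

private theorem frac_mem {δ' : ℝ} (h0 : 0 < δ') (h1 : δ' ≤ 1) (y : ℝ) (hy : 0 ≤ y) :
    0 < δ' / (1 + y) ∧ δ' / (1 + y) ≤ 1 := by
  constructor
  · positivity
  · rw [div_le_one (by positivity)]
    linarith

private theorem Good.mono {δ δ' : ℝ} (h0 : 0 < δ') (h1 : δ' ≤ 1) {n m : ℕ} (hnm : n ≤ m) {c : ℝ} (hc : 0 < c)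
    {ν : ℝ[X]} (h : Good δ δ' n c ν) : Good δ δ' m c ν := by
  obtain ⟨κ, H, e, hd, hk, hw, hx⟩ := h
  refine ⟨κ, H, e, hd.trans hnm, fun j => (hk j).trans (pow_le_pow_right₀ (by norm_num) hnm),
    fun w hw' => le_trans ?_ (hw w hw'), fun x => le_trans ?_ (hx x)⟩
  · obtain ⟨a, b⟩ := frac_mem h0 h1 ‖w‖ (norm_nonneg w)
    exact pow_le_pow_of_le_one a.le b hnm
  · obtain ⟨a, b⟩ := frac_mem h0 h1 |x| (abs_nonneg x)
    refine mul_le_mul ?_ (pow_le_pow_of_le_one a.le b hnm) (by positivity) (by positivity)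
    exact div_le_div_of_nonneg_left hc.le (by positivity) (pow_le_pow_right₀ (by norm_num) hnm)

private theorem Good.step {δ δ' : ℝ} (h0 : 0 < δ') (h1 : δ' ≤ 1) {n k : ℕ} (hk : 1 ≤ k) {c : ℝ} (hc : 0 < c)
    {ν l : ℝ[X]} (h : Good δ δ' n (c / 4) ν) (hl : l.natDegree ≤ k)
    (hco : ∀ (p : ℝ[X]) (B : ℝ), (∀ j, |p.coeff j| ≤ B) → ∀ j, |(l * p).coeff j| ≤ 4 * B)
    (hlow : (∀ w : ℂ, 2 * δ ≤ |w.im| → (δ' / (1 + ‖w‖)) ^ k ≤ ‖(l.map Complex.ofRealHom).eval w‖) ∨
      ∀ x : ℝ, (δ' / (1 + |x|)) ^ k ≤ |l.eval x|) : Good δ δ' (n + k) c (l * ν) := by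
  obtain ⟨κ, H, e, hd, hkk, hw, hx⟩ := h
  have h4 : (4 : ℝ) * 4 ^ n ≤ 4 ^ (n + k) := by
    calc (4 : ℝ) * 4 ^ n = 4 ^ (n + 1) := by ring
      _ ≤ 4 ^ (n + k) := pow_le_pow_right₀ (by norm_num) (by omega)
  have hc4 : c / 4 ^ (n + k) ≤ c / 4 / 4 ^ n := by
    rw [div_div]
    exact div_le_div_of_nonneg_left hc.le (by positivity) h4
  rcases hlow with hlow | hlow
  · refine ⟨l * κ, H, by rw [e, mul_assoc], ?_, fun j => (hco κ _ hkk j).trans h4, fun w hw' => ?_, fun x => ?_⟩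
    · exact natDegree_mul_le.trans (by omega)
    · rw [Polynomial.map_mul, eval_mul, norm_mul, pow_add, mul_comm]
      have := (frac_mem h0 h1 ‖w‖ (norm_nonneg w)).1
      exact mul_le_mul (hlow w hw') (hw w hw') (by positivity) (norm_nonneg _)
    · refine le_trans ?_ (hx x)
      obtain ⟨a, b⟩ := frac_mem h0 h1 |x| (abs_nonneg x)
      exact mul_le_mul hc4 (pow_le_pow_of_le_one a.le b (by omega)) (by positivity) (by positivity)
  · refine ⟨κ, l * H, by rw [e]; ring, hd.trans (by omega), fun j => (hkk j).trans ?_, fun w hw' => ?_,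
      fun x => ?_⟩
    · exact pow_le_pow_right₀ (by norm_num) (by omega)
    · refine le_trans ?_ (hw w hw')
      obtain ⟨a, b⟩ := frac_mem h0 h1 ‖w‖ (norm_nonneg w)
      exact pow_le_pow_of_le_one a.le b (by omega)
    · have := (frac_mem h0 h1 |x| (abs_nonneg x)).1
      rw [eval_mul, abs_mul, pow_add (δ' / (1 + |x|))]
      calc c / 4 ^ (n + k) * ((δ' / (1 + |x|)) ^ n * (δ' / (1 + |x|)) ^ k)
          ≤ c / 4 / 4 ^ n * ((δ' / (1 + |x|)) ^ n * (δ' / (1 + |x|)) ^ k) :=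
            mul_le_mul_of_nonneg_right hc4 (by positivity)
        _ = (δ' / (1 + |x|)) ^ k * (c / 4 / 4 ^ n * (δ' / (1 + |x|)) ^ n) := by ring
        _ ≤ |l.eval x| * |H.eval x| :=
            mul_le_mul (hlow x) (hx x) (by positivity) (abs_nonneg _)

/-- A lower bound for `|w - ρ| / max 1 |ρ|`. -/
private theorem lin_low {δ δ' : ℝ} (h0 : 0 < δ') (h1 : δ' ≤ 1 / 2) (h2 : 2 * δ' ≤ δ) (w ρ : ℂ)
    (h : δ ≤ ‖w - ρ‖) : δ' / (1 + ‖w‖) ≤ ‖w - ρ‖ / max 1 ‖ρ‖ := by
  have hm : (0 : ℝ) < max 1 ‖ρ‖ := lt_of_lt_of_le one_pos (le_max_left _ _)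
  have hw := norm_nonneg w
  have hwr := norm_nonneg (w - ρ)
  rw [div_le_div_iff₀ (by positivity) hm]
  have h3 : max 1 ‖ρ‖ ≤ 1 + ‖w‖ + ‖w - ρ‖ := by
    refine max_le (by linarith) ?_
    have : ‖ρ‖ ≤ ‖w‖ + ‖w - ρ‖ := by
      calc ‖ρ‖ = ‖w - (w - ρ)‖ := by rw [sub_sub_cancel]
        _ ≤ ‖w‖ + ‖w - ρ‖ := norm_sub_le _ _
    linarith
  calc δ' * max 1 ‖ρ‖ ≤ δ' * (1 + ‖w‖ + ‖w - ρ‖) := mul_le_mul_of_nonneg_left h3 h0.le
    _ = δ' * (1 + ‖w‖) + δ' * ‖w - ρ‖ := by ring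
    _ ≤ (‖w - ρ‖ / 2) * (1 + ‖w‖) + (1 / 2 * (1 + ‖w‖)) * ‖w - ρ‖ := by
        refine add_le_add (mul_le_mul_of_nonneg_right (by linarith) (by linarith))
          (mul_le_mul_of_nonneg_right ?_ hwr)
        linarith
    _ = ‖w - ρ‖ * (1 + ‖w‖) := by ring

private theorem coeff_lin (r : ℝ) (p : ℝ[X]) (j : ℕ) :
    ((C (1 / max 1 |r|) * (X - C r)) * p).coeff j =
      1 / max 1 |r| * ((if 1 ≤ j then p.coeff (j - 1) else 0) - r * p.coeff j) := by
  rw [mul_assoc, coeff_C_mul, sub_mul, coeff_sub, coeff_C_mul]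
  congr 2
  cases j with
  | zero => simp
  | succ j => simp

private theorem coeff_quad (s t M : ℝ) (p : ℝ[X]) (j : ℕ) :
    ((C (1 / M) * (X ^ 2 - C s * X + C t)) * p).coeff j =
      1 / M * ((if 2 ≤ j then p.coeff (j - 2) else 0) - s * (if 1 ≤ j then p.coeff (j - 1) else 0) +
        t * p.coeff j) := by
  rw [mul_assoc, coeff_C_mul, add_mul, sub_mul, coeff_add, coeff_sub, coeff_C_mul, mul_assoc, coeff_C_mul]
  congr 3
  · rw [coeff_X_pow_mul']
  · congr 1
    cases j with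
    | zero => simp
    | succ j => simp

private theorem ite_le {P : Prop} [Decidable P] {a B : ℝ} (h : |a| ≤ B) (hB : 0 ≤ B) : |if P then a else 0| ≤ B := by
  split_ifs
  · exact h
  · simpa using hB

private theorem lin_bd (r : ℝ) (p : ℝ[X]) (B : ℝ) (hp : ∀ j, |p.coeff j| ≤ B) (j : ℕ) :
    |((C (1 / max 1 |r|) * (X - C r)) * p).coeff j| ≤ 2 * B := by
  have hB : 0 ≤ B := (abs_nonneg _).trans (hp 0)
  have hm : (0 : ℝ) < max 1 |r| := lt_of_lt_of_le one_pos (le_max_left _ _)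
  rw [coeff_lin, abs_mul, abs_of_pos (by positivity), one_div_mul_eq_div, div_le_iff₀ hm]
  have h1 : |if 1 ≤ j then p.coeff (j - 1) else 0| ≤ B := ite_le (hp _) hB
  calc |(if 1 ≤ j then p.coeff (j - 1) else 0) - r * p.coeff j|
      ≤ |if 1 ≤ j then p.coeff (j - 1) else 0| + |r * p.coeff j| := abs_sub _ _
    _ ≤ B * 1 + |r| * B := by
        rw [abs_mul, mul_one]
        exact add_le_add h1 (mul_le_mul_of_nonneg_left (hp j) (abs_nonneg r))
    _ ≤ B * max 1 |r| + max 1 |r| * B :=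
        add_le_add (mul_le_mul_of_nonneg_left (le_max_left _ _) hB)
          (mul_le_mul_of_nonneg_right (le_max_right _ _) hB)
    _ = 2 * B * max 1 |r| := by ring

private theorem quad_bd (ρ : ℂ) (p : ℝ[X]) (B : ℝ) (hp : ∀ j, |p.coeff j| ≤ B) (j : ℕ) :
    |((C (1 / (max 1 ‖ρ‖) ^ 2) * (X ^ 2 - C (2 * ρ.re) * X + C (‖ρ‖ ^ 2))) * p).coeff j| ≤ 4 * B := by
  have hB : 0 ≤ B := (abs_nonneg _).trans (hp 0)
  have hm1 : (1 : ℝ) ≤ max 1 ‖ρ‖ := le_max_left _ _
  have hm2 : ‖ρ‖ ≤ max 1 ‖ρ‖ := le_max_right _ _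
  have hn := norm_nonneg ρ
  generalize max 1 ‖ρ‖ = m at *
  have hm : (0 : ℝ) < m := by linarith
  rw [coeff_quad, abs_mul, abs_of_pos (by positivity), one_div_mul_eq_div, div_le_iff₀ (by positivity)]
  have h1 : |if 1 ≤ j then p.coeff (j - 1) else 0| ≤ B := ite_le (hp _) hB
  have h2 : |if 2 ≤ j then p.coeff (j - 2) else 0| ≤ B := ite_le (hp _) hB
  have h3 : |ρ.re| ≤ m := (Complex.abs_re_le_norm ρ).trans hm2
  have h4 : m ≤ m ^ 2 := by nlinarith
  have h5 : ‖ρ‖ ^ 2 ≤ m ^ 2 := by nlinarith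
  calc |(if 2 ≤ j then p.coeff (j - 2) else 0) - 2 * ρ.re * (if 1 ≤ j then p.coeff (j - 1) else 0) +
        ‖ρ‖ ^ 2 * p.coeff j|
      ≤ |if 2 ≤ j then p.coeff (j - 2) else 0| + |2 * ρ.re * (if 1 ≤ j then p.coeff (j - 1) else 0)| +
        |‖ρ‖ ^ 2 * p.coeff j| := (abs_add_le _ _).trans (by gcongr; exact abs_sub _ _)
    _ ≤ B * 1 + 2 * m * B + m ^ 2 * B := by
        rw [abs_mul, abs_mul, abs_mul, abs_two, abs_of_nonneg (by positivity : (0 : ℝ) ≤ ‖ρ‖ ^ 2), mul_one]
        gcongr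
        exact hp j
    _ ≤ B * m ^ 2 + 2 * m ^ 2 * B + m ^ 2 * B := by
        have : 1 ≤ m ^ 2 := by nlinarith
        gcongr
    _ = 4 * B * m ^ 2 := by ring

/-- If the coefficients of `l p` are at most `4 B` whenever those of `p` are at most `B`, then large coefficients of `l p` give
large coefficients of `p`. -/
private theorem big_of_bd (l : ℝ[X]) (hco : ∀ (p : ℝ[X]) (B : ℝ), (∀ j, |p.coeff j| ≤ B) →
    ∀ j, |(l * p).coeff j| ≤ 4 * B) (p : ℝ[X]) (c : ℝ) (h : ∃ j, c ≤ |(l * p).coeff j|) :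
    ∃ j, c / 4 ≤ |p.coeff j| := by
  by_contra hcon
  push Not at hcon
  obtain ⟨j, hj⟩ := h
  -- the maximum of the coefficients
  let B := (Finset.range (p.natDegree + 1)).sup' ⟨0, by simp⟩ (fun i => |p.coeff i|)
  have hB : ∀ i, |p.coeff i| ≤ B := by
    intro i
    by_cases hi : i ≤ p.natDegree
    · exact Finset.le_sup' (fun i => |p.coeff i|) (Finset.mem_range.2 (Nat.lt_succ_of_le hi))
    · rw [coeff_eq_zero_of_natDegree_lt (by omega), abs_zero]
      exact (abs_nonneg _).trans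
        (Finset.le_sup' (fun i => |p.coeff i|) (Finset.mem_range.2 (Nat.succ_pos _)))
  have hB' : B < c / 4 := by
    rw [Finset.sup'_lt_iff]
    exact fun i _ => hcon i
  have := hco p B hB j
  linarith

private theorem good_all {δ δ' : ℝ} (h0 : 0 < δ') (h1 : δ' ≤ 1 / 2) (h2 : 2 * δ' ≤ δ) (n : ℕ) :
    ∀ (c : ℝ) (ν : ℝ[X]), 0 < c → ν.natDegree ≤ n → (∃ j, c ≤ |ν.coeff j|) → Good δ δ' n c ν := by
  have h1' : δ' ≤ 1 := by linarith
  induction n using Nat.strong_induction_on with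
  | _ n ih =>
    intro c ν hc hν hj
    by_cases hd : ν.natDegree = 0
    · refine Good.mono h0 h1' (Nat.zero_le n) hc ?_
      obtain ⟨j, hj⟩ := hj
      rw [eq_C_of_natDegree_eq_zero hd] at hj ⊢
      generalize ν.coeff 0 = a at *
      have ha : c ≤ |a| := by
        rw [coeff_C] at hj
        split_ifs at hj with h
        · exact hj
        · rw [abs_zero] at hj
          linarith
      refine ⟨1, C a, by rw [one_mul], by simp, fun j => ?_, fun w _ => ?_, fun x => ?_⟩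
      · rw [coeff_one]
        split_ifs <;> simp
      · simp
      · simpa using ha
    · have hne : ν ≠ 0 := by
        rintro rfl
        exact hd natDegree_zero
      have hdeg : 0 < (ν.map Complex.ofRealHom).degree := by
        rw [degree_map]
        exact natDegree_pos_iff_degree_pos.1 (Nat.pos_of_ne_zero hd)
      obtain ⟨ρ, hρ⟩ := Complex.exists_root hdeg
      have hρ0 : aeval ρ ν = 0 := by
        rw [IsRoot.def, eval_map] at hρ
        exact hρ
      by_cases him : ρ.im = 0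
      · -- a real root
        have hr : ν.IsRoot ρ.re := by
          have e : ρ = ((ρ.re : ℝ) : ℂ) := by
            apply Complex.ext <;> simp [him]
          rw [e] at hρ0
          have h3 : aeval ((ρ.re : ℝ) : ℂ) ν = ((ν.eval ρ.re : ℝ) : ℂ) := by
            rw [show ((ρ.re : ℝ) : ℂ) = algebraMap ℝ ℂ ρ.re from rfl, aeval_algebraMap_apply]
            simp
          rw [h3] at hρ0
          exact_mod_cast hρ0
        obtain ⟨q, hq⟩ := dvd_iff_isRoot.2 hr
        generalize ρ.re = r at *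
        have hm : (0 : ℝ) < max 1 |r| := lt_of_lt_of_le one_pos (le_max_left _ _)
        have hfac : ν = (C (1 / max 1 |r|) * (X - C r)) * (C (max 1 |r|) * q) := by
          rw [hq]
          have : C (1 / max 1 |r|) * C (max 1 |r|) = (1 : ℝ[X]) := by
            rw [← C_mul, one_div_mul_cancel hm.ne', C_1]
          calc (X - C r) * q = (C (1 / max 1 |r|) * C (max 1 |r|)) * ((X - C r) * q) := by rw [this, one_mul]
            _ = _ := by ring
        have hco : ∀ (p : ℝ[X]) (B : ℝ), (∀ j, |p.coeff j| ≤ B) →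
            ∀ j, |((C (1 / max 1 |r|) * (X - C r)) * p).coeff j| ≤ 4 * B := fun p B hp j => by
          have hB : 0 ≤ B := (abs_nonneg _).trans (hp 0)
          exact (lin_bd r p B hp j).trans (by linarith)
        have hqn : q ≠ 0 := by
          rintro rfl
          exact hne (by rw [hq, mul_zero])
        have hqd : (C (max 1 |r|) * q).natDegree + 1 = ν.natDegree := by
          rw [natDegree_C_mul hm.ne', hq, natDegree_mul (X_sub_C_ne_zero r) hqn, natDegree_X_sub_C, add_comm]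
        have hn : n - 1 + 1 = n := by omega
        rw [hfac, ← hn]
        refine Good.step h0 h1' le_rfl hc (ih (n - 1) (by omega) (c / 4) _ (by positivity) (by omega) ?_) ?_
          hco ?_
        · exact big_of_bd _ hco _ c (by rw [← hfac]; exact hj)
        · refine (natDegree_C_mul_le _ _).trans ?_
          rw [natDegree_X_sub_C]
        · left
          intro w hw
          have h3 : δ ≤ ‖w - (r : ℂ)‖ := by
            have : |w.im| ≤ ‖w - (r : ℂ)‖ := by
              simpa using Complex.abs_im_le_norm (w - (r : ℂ))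
            have : 0 < δ := by linarith
            linarith
          have h4 := lin_low h0 h1 h2 w r h3
          rw [Complex.norm_real, Real.norm_eq_abs] at h4
          rw [pow_one]
          refine h4.trans (le_of_eq ?_)
          rw [Polynomial.map_mul, eval_mul, norm_mul, map_C, eval_C, Polynomial.map_sub, map_X, map_C, eval_sub,
            eval_X, eval_C, Complex.ofRealHom_eq_coe, Complex.ofRealHom_eq_coe, Complex.norm_real,
            Real.norm_eq_abs, abs_of_pos (show (0 : ℝ) < 1 / max 1 |r| by positivity)]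
          ring
      · -- a pair of conjugate roots
        obtain ⟨q, hq⟩ := quadratic_dvd_of_aeval_eq_zero_im_ne_zero ν hρ0 him
        have hm : (0 : ℝ) < max 1 ‖ρ‖ := lt_of_lt_of_le one_pos (le_max_left _ _)
        have hfac : ν = (C (1 / (max 1 ‖ρ‖) ^ 2) * (X ^ 2 - C (2 * ρ.re) * X + C (‖ρ‖ ^ 2))) *
            (C ((max 1 ‖ρ‖) ^ 2) * q) := by
          have : C (1 / (max 1 ‖ρ‖) ^ 2) * C ((max 1 ‖ρ‖) ^ 2) = (1 : ℝ[X]) := by
            rw [← C_mul, one_div_mul_cancel (by positivity), C_1]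
          calc ν = (C (1 / (max 1 ‖ρ‖) ^ 2) * C ((max 1 ‖ρ‖) ^ 2)) *
                ((X ^ 2 - C (2 * ρ.re) * X + C (‖ρ‖ ^ 2)) * q) := by rw [this, one_mul]; exact hq
            _ = _ := by ring
        have hco := quad_bd ρ
        have hqn : q ≠ 0 := by
          rintro rfl
          exact hne (by rw [hq, mul_zero])
        have hdq : (X ^ 2 - C (2 * ρ.re) * X + C (‖ρ‖ ^ 2)).natDegree = 2 := by
          compute_degree!
        have hq0 : (X ^ 2 - C (2 * ρ.re) * X + C (‖ρ‖ ^ 2)) ≠ 0 := by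
          intro h
          rw [h, natDegree_zero] at hdq
          omega
        have hqd : (C ((max 1 ‖ρ‖) ^ 2) * q).natDegree + 2 = ν.natDegree := by
          rw [natDegree_C_mul (by positivity)]
          conv_rhs => rw [hq, natDegree_mul hq0 hqn, hdq, add_comm]
        have hn : n - 2 + 2 = n := by omega
        have hev : ∀ w : ℂ, ‖((C (1 / (max 1 ‖ρ‖) ^ 2) * (X ^ 2 - C (2 * ρ.re) * X + C (‖ρ‖ ^ 2)) :
            ℝ[X]).map Complex.ofRealHom).eval w‖ =
            (‖w - ρ‖ / max 1 ‖ρ‖) * (‖w - (starRingEnd ℂ) ρ‖ / max 1 ‖(starRingEnd ℂ) ρ‖) := by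
          intro w
          rw [Complex.norm_conj, div_mul_div_comm, ← norm_mul, ← sq]
          have e : (w - ρ) * (w - (starRingEnd ℂ) ρ) = w ^ 2 - (2 * ρ.re : ℝ) * w + ((‖ρ‖ ^ 2 : ℝ) : ℂ) := by
            have e1 : ρ * (starRingEnd ℂ) ρ = ((‖ρ‖ ^ 2 : ℝ) : ℂ) := by
              rw [Complex.mul_conj, Complex.normSq_eq_norm_sq]
            have e2 : ρ + (starRingEnd ℂ) ρ = ((2 * ρ.re : ℝ) : ℂ) := Complex.add_conj ρ
            rw [← e1, ← e2]
            ring
          rw [e]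
          simp only [Polynomial.map_mul, Polynomial.map_add, Polynomial.map_sub, Polynomial.map_pow, map_X, map_C,
            eval_mul, eval_add, eval_sub, eval_pow, eval_X, eval_C, norm_mul, Complex.ofRealHom_eq_coe]
          rw [Complex.norm_real, Real.norm_eq_abs, abs_of_pos (by positivity)]
          ring
        rw [hfac, ← hn]
        refine Good.step h0 h1' (by norm_num) hc
          (ih (n - 2) (by omega) (c / 4) _ (by positivity) (by omega) ?_) ?_ hco ?_
        · exact big_of_bd _ hco _ c (by rw [← hfac]; exact hj)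
        · refine (natDegree_C_mul_le _ _).trans ?_
          rw [hdq]
        · have hδ : 0 < δ := by linarith
          by_cases hb : |ρ.im| < δ
          · left
            intro w hw
            rw [hev, sq]
            have a1 : δ ≤ ‖w - ρ‖ := by
              have h3 := Complex.abs_im_le_norm (w - ρ)
              rw [Complex.sub_im] at h3
              have h4 := abs_sub_abs_le_abs_sub w.im ρ.im
              linarith
            have a2 : δ ≤ ‖w - (starRingEnd ℂ) ρ‖ := by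
              have h3 := Complex.abs_im_le_norm (w - (starRingEnd ℂ) ρ)
              rw [Complex.sub_im, Complex.conj_im] at h3
              have h4 := abs_sub_abs_le_abs_sub w.im (-ρ.im)
              rw [abs_neg] at h4
              linarith
            have a3 := (frac_mem h0 h1' ‖w‖ (norm_nonneg w)).1
            exact mul_le_mul (lin_low h0 h1 h2 w _ a1) (lin_low h0 h1 h2 w _ a2) a3.le (by positivity)
          · right
            intro x
            push Not at hb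
            have e : |(C (1 / (max 1 ‖ρ‖) ^ 2) * (X ^ 2 - C (2 * ρ.re) * X + C (‖ρ‖ ^ 2)) : ℝ[X]).eval x| =
                ‖((C (1 / (max 1 ‖ρ‖) ^ 2) * (X ^ 2 - C (2 * ρ.re) * X + C (‖ρ‖ ^ 2)) :
                  ℝ[X]).map Complex.ofRealHom).eval (x : ℂ)‖ := by
              rw [show (x : ℂ) = Complex.ofRealHom x from rfl, eval_map, eval₂_at_apply,
                Complex.ofRealHom_eq_coe, Complex.norm_real, Real.norm_eq_abs]
            rw [e, hev, sq]
            have a1 : δ ≤ ‖(x : ℂ) - ρ‖ := by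
              have h3 := Complex.abs_im_le_norm ((x : ℂ) - ρ)
              rw [Complex.sub_im, Complex.ofReal_im, zero_sub, abs_neg] at h3
              linarith
            have a2 : δ ≤ ‖(x : ℂ) - (starRingEnd ℂ) ρ‖ := by
              have h3 := Complex.abs_im_le_norm ((x : ℂ) - (starRingEnd ℂ) ρ)
              rw [Complex.sub_im, Complex.ofReal_im, Complex.conj_im, zero_sub, neg_neg] at h3
              linarith
            have b1 := lin_low h0 h1 h2 (x : ℂ) _ a1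
            have b2 := lin_low h0 h1 h2 (x : ℂ) _ a2
            have a3 := (frac_mem h0 h1' ‖(x : ℂ)‖ (norm_nonneg _)).1
            have e2 : ‖(x : ℂ)‖ = |x| := by rw [Complex.norm_real, Real.norm_eq_abs]
            rw [e2] at b1 b2 a3
            exact mul_le_mul b1 b2 a3.le (by positivity)

theorem split_poly (D : ℕ) (c₀ δ : ℝ) (hc₀ : 0 < c₀) (hδ : 0 < δ) :
    ∃ K : ℝ, 0 < K ∧ ∀ ν : ℝ[X], ν.natDegree ≤ D → (∃ j, c₀ ≤ |ν.coeff j|) →
      ∃ κ H : ℝ[X], ν = κ * H ∧ κ.natDegree ≤ D ∧ (∀ j, |κ.coeff j| ≤ K) ∧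
        (∀ w : ℂ, 2 * δ ≤ |w.im| → 1 / (K * (1 + ‖w‖) ^ D) ≤ ‖(κ.map Complex.ofRealHom).eval w‖) ∧
        ∀ x : ℝ, 1 / (K * (1 + |x|) ^ D) ≤ |H.eval x| := by
  set δ' : ℝ := min δ 1 / 2 with hδ'
  have h0 : 0 < δ' := by
    have : 0 < min δ 1 := lt_min hδ one_pos
    positivity
  have h1 : δ' ≤ 1 / 2 := by
    have := min_le_right δ 1
    linarith
  have h2 : 2 * δ' ≤ δ := by
    have := min_le_left δ 1
    linarith
  set K : ℝ := 4 ^ D + 1 / δ' ^ D + 4 ^ D / (c₀ * δ' ^ D) with hK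
  have k1 : (0 : ℝ) < 4 ^ D := by positivity
  have k2 : (0 : ℝ) < 1 / δ' ^ D := by positivity
  have k3 : (0 : ℝ) < 4 ^ D / (c₀ * δ' ^ D) := by positivity
  refine ⟨K, by positivity, fun ν hν hj => ?_⟩
  obtain ⟨κ, H, e, hd, hk, hw, hx⟩ := good_all h0 h1 h2 D c₀ ν hc₀ hν hj
  refine ⟨κ, H, e, hd, fun j => (hk j).trans (by linarith), fun w hw' => le_trans ?_ (hw w hw'),
    fun x => le_trans ?_ (hx x)⟩
  · have hw0 := norm_nonneg w
    rw [div_pow, div_le_div_iff₀ (by positivity) (by positivity), one_mul]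
    have : 1 ≤ δ' ^ D * K := by
      calc (1 : ℝ) = δ' ^ D * (1 / δ' ^ D) := by field_simp
        _ ≤ δ' ^ D * K := mul_le_mul_of_nonneg_left (by linarith) (by positivity)
    calc (1 + ‖w‖) ^ D = 1 * (1 + ‖w‖) ^ D := (one_mul _).symm
      _ ≤ (δ' ^ D * K) * (1 + ‖w‖) ^ D := mul_le_mul_of_nonneg_right this (by positivity)
      _ = _ := by ring
  · have hx0 := abs_nonneg x
    rw [div_pow, div_mul_div_comm, div_le_div_iff₀ (by positivity) (by positivity), one_mul]
    have : 4 ^ D ≤ c₀ * δ' ^ D * K := by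
      calc (4 : ℝ) ^ D = c₀ * δ' ^ D * (4 ^ D / (c₀ * δ' ^ D)) := by field_simp
        _ ≤ c₀ * δ' ^ D * K := mul_le_mul_of_nonneg_left (by linarith) (by positivity)
    calc 4 ^ D * (1 + |x|) ^ D ≤ (c₀ * δ' ^ D * K) * (1 + |x|) ^ D :=
          mul_le_mul_of_nonneg_right this (by positivity)
      _ = _ := by ring

end Pool.Agent.Helper10.GN
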