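import Pool.Agent.Helper10.GN.K2
import Pool.Agent.Helper10.GN.Spl
import Pool.Agent.Helper10.GN.Plc

set_option autoImplicit false

/-!
# Project GN, block KL: Lemma K

For every `d` there are `D`, `K` such that for all `f` of degree `≤ d` with `p ∤ f` there are a scaling factor `l > 0` and a real polynomial
`κ` in one variable, with bounded coefficients, not small at the given nonreal points `a i`, such that at every real finite place `P` over
`z`: `|l f(z)| ≤ K (1 + z₀² + z₁²)^D`, and `κ(u) / (l f)` is regular at `P` with value of absolute value `≤ K (1 + z₀² + z₁²)^D`.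

Proof. `lemK2` gives `l, f', fs, ν`; `split_poly` (with `2 δ ≤ min |Im a_i|`) gives `ν = κ H`. In `F`: `π (l f) = π f'`,
`π f' π fs = κ(v) H(v)`, `v = π (cx u)`, so `κ(v) / π f' = π fs / H(v)`; at a real finite place `P` over `z` the value of `H(v)` is
`H(u(z)) ≠ 0` (`rv_over`, lower bound for `H` on the real line), so the quotient is regular with value
`fs(z) / H(u(z))`, of absolute value `≤ |fs(z)| K' (1 + |u(z)|)^D`. A polynomial of degree `≤ D` with coefficients
bounded by `K` satisfies `|fs(z)| ≤ K'' (1 + z₀² + z₁²)^D` (finitely many monomials), and `1 + |u(z)|` is bounded by a constant times a power of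
`1 + z₀² + z₁²`. Choose common constants.
-/

namespace Pool.Agent.Helper10.GN

open VC FF MvPolynomial Pool.Agent.Helper68.QM

variable {F : Type} [Field F] [Algebra ℂ F] {s : RStr F} (hF : IsFunctionField ℂ F)
variable {p : A} {π : CP →ₐ[ℂ] F}

private lemma h94_eval_le (a : A) (n : ℕ) (hn : a.totalDegree ≤ n) (z : Fin 2 → ℝ) :
    |eval z a| ≤ (∑ m ∈ a.support, |coeff m a|) * (1 + z 0 ^ 2 + z 1 ^ 2) ^ n := by
  have hW : 1 ≤ 1 + z 0 ^ 2 + z 1 ^ 2 := by nlinarith [sq_nonneg (z 0), sq_nonneg (z 1)]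
  have hz : ∀ i : Fin 2, |z i| ≤ 1 + z 0 ^ 2 + z 1 ^ 2 := by
    intro i
    have h1 : |z i| ≤ 1 + z i ^ 2 := by
      rw [← sq_abs]
      nlinarith [sq_nonneg (|z i| - 1), abs_nonneg (z i)]
    fin_cases i
    · have h2 : |z 0| ≤ 1 + z 0 ^ 2 := h1
      have h3 := sq_nonneg (z 1)
      show |z 0| ≤ _
      linarith
    · have h2 : |z 1| ≤ 1 + z 1 ^ 2 := h1
      have h3 := sq_nonneg (z 0)
      show |z 1| ≤ _
      linarith
  rw [eval_eq', Finset.sum_mul]
  refine (Finset.abs_sum_le_sum_abs _ _).trans (Finset.sum_le_sum fun m hm => ?_)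
  rw [abs_mul]
  refine mul_le_mul_of_nonneg_left ?_ (abs_nonneg _)
  rw [Finset.abs_prod, Fin.prod_univ_two, abs_pow, abs_pow]
  have h1 : |z 0| ^ m 0 * |z 1| ^ m 1 ≤
      (1 + z 0 ^ 2 + z 1 ^ 2) ^ m 0 * (1 + z 0 ^ 2 + z 1 ^ 2) ^ m 1 :=
    mul_le_mul (pow_le_pow_left₀ (abs_nonneg _) (hz 0) _)
      (pow_le_pow_left₀ (abs_nonneg _) (hz 1) _) (by positivity) (by positivity)
  refine h1.trans ?_
  rw [← pow_add]
  refine pow_le_pow_right₀ hW ?_
  have h2 := le_totalDegree hm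
  rw [Finsupp.sum_fintype _ _ (fun _ => rfl), Fin.sum_univ_two] at h2
  exact h2.trans hn

private lemma h94_card_le (a : A) (n : ℕ) (hn : a.totalDegree ≤ n) :
    a.support.card ≤ (n + 1) * (n + 1) := by
  have h1 := Finset.card_le_card_of_injOn (s := a.support)
    (t := Finset.range (n + 1) ×ˢ Finset.range (n + 1)) (fun m => (m 0, m 1)) (by
      intro m hm
      have h2 := le_totalDegree hm
      rw [Finsupp.sum_fintype _ _ (fun _ => rfl), Fin.sum_univ_two] at h2
      simp only [Finset.coe_product, Set.mem_prod, Finset.coe_range, Set.mem_Iio]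
      omega) (by
      intro m _ m' _ h
      simp only [Prod.mk.injEq] at h
      ext i
      fin_cases i
      · exact h.1
      · exact h.2)
  rwa [Finset.card_product, Finset.card_range] at h1

private lemma h94_eval_le' (a : A) (n : ℕ) (hn : a.totalDegree ≤ n) {K : ℝ}
    (hK : ∀ m, |coeff m a| ≤ K) (z : Fin 2 → ℝ) :
    |eval z a| ≤ ((n + 1) * (n + 1) * K) * (1 + z 0 ^ 2 + z 1 ^ 2) ^ n := by
  refine (h94_eval_le a n hn z).trans ?_
  have hK0 : 0 ≤ K := (abs_nonneg _).trans (hK 0)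
  refine mul_le_mul_of_nonneg_right ?_ (by positivity)
  refine (Finset.sum_le_card_nsmul _ _ K fun m _ => hK m).trans ?_
  rw [nsmul_eq_mul]
  refine mul_le_mul_of_nonneg_right ?_ hK0
  exact_mod_cast h94_card_le a n hn

private lemma h94_delta {m : ℕ} (a : Fin m → ℂ) (ha : ∀ i, (a i).im ≠ 0) :
    ∃ δ : ℝ, 0 < δ ∧ ∀ i, 2 * δ ≤ |(a i).im| := by
  rcases isEmpty_or_nonempty (Fin m) with h | h
  · exact ⟨1, one_pos, fun i => h.elim i⟩
  · obtain ⟨i, hi⟩ := Finite.exists_min (fun i => |(a i).im|)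
    refine ⟨|(a i).im| / 2, half_pos (abs_pos.2 (ha i)), fun j => ?_⟩
    rw [mul_div_cancel₀ _ two_ne_zero]
    exact hi j

theorem lemK (hc : IsCrv p s π) (hp : Irreducible p) (u : A)
    (hu : Transcendental ℂ (π (cx u))) {m : ℕ} (a : Fin m → ℂ) (ha : ∀ i, (a i).im ≠ 0) (d : ℕ) :
    ∃ (D : ℕ) (K : ℝ), 0 < K ∧ ∀ f : A, f.totalDegree ≤ d → ¬ p ∣ f →
      ∃ (l : ℝ) (κ : Polynomial ℝ), 0 < l ∧ κ.natDegree ≤ D ∧ (∀ j, |κ.coeff j| ≤ K) ∧
        (∀ i, 1 / K ≤ ‖(κ.map Complex.ofRealHom).eval (a i)‖) ∧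
        ∀ (P : Place ℂ F) (z : Fin 2 → ℝ), s.cj P = P → Over hF π P (cz z) →
          |l * eval z f| ≤ K * (1 + z 0 ^ 2 + z 1 ^ 2) ^ D ∧
          π (cx (Polynomial.aeval u κ)) / π (cx (C l * f)) ∈ P.ring ∧
          |rv hF P (π (cx (Polynomial.aeval u κ)) / π (cx (C l * f)))| ≤
            K * (1 + z 0 ^ 2 + z 1 ^ 2) ^ D := by
  obtain ⟨D₁, K₁, c₀, hK₁, hc₀, hk2⟩ := lemK2 hF hc hp u hu d
  obtain ⟨δ, hδ, hδa⟩ := h94_delta a ha
  obtain ⟨K₂, hK₂, hspl⟩ := split_poly D₁ c₀ δ hc₀ hδ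
  obtain ⟨B, hB⟩ : ∃ B : ℝ, B = ∑ m ∈ u.support, |coeff m u| := ⟨_, rfl⟩
  have hB0 : 0 ≤ B := by
    rw [hB]
    exact Finset.sum_nonneg fun _ _ => abs_nonneg _
  obtain ⟨N, hN⟩ : ∃ N : ℝ, N = ((D₁ : ℝ) + 1) * (D₁ + 1) * K₁ := ⟨_, rfl⟩
  have hN0 : 0 < N := by rw [hN]; positivity
  obtain ⟨Q, hQ⟩ : ∃ Q : ℝ, Q = N * (K₂ * (1 + B) ^ D₁) := ⟨_, rfl⟩
  have hQ0 : 0 < Q := by rw [hQ]; positivity
  obtain ⟨R, hR⟩ : ∃ R : ℝ, R = ∑ i, K₂ * (1 + ‖a i‖) ^ D₁ := ⟨_, rfl⟩
  have hR0 : 0 ≤ R := by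
    rw [hR]
    exact Finset.sum_nonneg fun _ _ => by positivity
  refine ⟨D₁ + u.totalDegree * D₁, N + K₂ + Q + R, by positivity, fun f hf hpf => ?_⟩
  obtain ⟨l, f', fs, ν, hl, hd1, hf', hfs, hν, hcf', hcfs, hcν, hd2⟩ := hk2 f hf hpf
  obtain ⟨κ, H, hνκ, hκd, hκc, hκa, hH⟩ := hspl ν hν hcν
  refine ⟨l, κ, hl, hκd.trans (Nat.le_add_right _ _), fun j => (hκc j).trans (by linarith),
    fun i => ?_, fun P z hP hz => ?_⟩
  · refine le_trans ?_ (hκa (a i) (hδa i))
    refine one_div_le_one_div_of_le (by positivity) ?_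
    have h1 : K₂ * (1 + ‖a i‖) ^ D₁ ≤ R := by
      rw [hR]
      exact Finset.single_le_sum (f := fun i => K₂ * (1 + ‖a i‖) ^ D₁)
        (fun _ _ => by positivity) (Finset.mem_univ i)
    linarith
  · have hW : 1 ≤ 1 + z 0 ^ 2 + z 1 ^ 2 := by nlinarith [sq_nonneg (z 0), sq_nonneg (z 1)]
    obtain ⟨W, hWd⟩ : ∃ W : ℝ, W = 1 + z 0 ^ 2 + z 1 ^ 2 := ⟨_, rfl⟩
    have hbf' := h94_eval_le' f' D₁ hf' hcf' z
    have hbfs := h94_eval_le' fs D₁ hfs hcfs z
    have hbu := h94_eval_le u _ le_rfl z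
    rw [← hN, ← hWd] at hbf' hbfs
    rw [← hB, ← hWd] at hbu
    rw [← hWd] at hW ⊢
    have hWn : ∀ n m : ℕ, n ≤ m → W ^ n ≤ W ^ m := fun n m h => pow_le_pow_right₀ hW h
    have hpz : eval z p = 0 := by
      have h1 := over_zero hF hc hz
      rw [eval_cx] at h1
      exact_mod_cast h1
    have hlf : l * eval z f = eval z f' := by
      obtain ⟨q, hq⟩ := hd1
      have h1 := congrArg (eval z) hq
      rw [map_sub, map_mul, map_mul, eval_C, hpz, zero_mul, sub_eq_zero] at h1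
      exact h1
    -- the function field
    have hlf2 : π (cx (C l * f)) = π (cx f') := by
      have h1 := (hc.eq_zero_iff (C l * f - f')).2 hd1
      rw [map_sub, map_sub, sub_eq_zero] at h1
      exact h1
    have hne : π (cx (C l * f)) ≠ 0 := by
      intro h0
      rw [hc.eq_zero_iff] at h0
      rcases hp.prime.dvd_or_dvd h0 with h1 | h1
      · apply hp.not_isUnit
        exact isUnit_of_dvd_unit h1 ((isUnit_iff_ne_zero.2 hl.ne').map C)
      · exact hpf h1
    have hprod : π (cx f') * π (cx fs) =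
        π (cx (Polynomial.aeval u κ)) * π (cx (Polynomial.aeval u H)) := by
      have h1 := (hc.eq_zero_iff (f' * fs - Polynomial.aeval u ν)).2 hd2
      rw [map_sub, map_sub, sub_eq_zero, hνκ, map_mul, map_mul, map_mul, map_mul, map_mul] at h1
      exact h1
    have hHv : vl hF P (π (cx (Polynomial.aeval u H))) = ((H.eval (eval z u) : ℝ) : ℂ) := by
      rw [vl_over hF hz, eval_cx]
      congr 1
      have h1 := Polynomial.hom_eval₂ H (algebraMap ℝ A) (eval z) u
      rw [Polynomial.aeval_def, h1]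
      have h2 : (eval z).comp (algebraMap ℝ A) = RingHom.id ℝ := by
        ext r
        exact eval_C r
      rw [h2]
      rfl
    have hHb := hH (eval z u)
    have hHpos : 0 < |H.eval (eval z u)| := lt_of_lt_of_le (by positivity) hHb
    have hH0 : H.eval (eval z u) ≠ 0 := abs_pos.1 hHpos
    have hHmem := mem_of_fin hz.1 (cx (Polynomial.aeval u H))
    have hHv0 : vl hF P (π (cx (Polynomial.aeval u H))) ≠ 0 := by
      rw [hHv]
      exact_mod_cast hH0
    obtain ⟨hi1, hi2⟩ := vl_inv hF hHmem hHv0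
    have hHF : π (cx (Polynomial.aeval u H)) ≠ 0 := by
      intro h0
      rw [h0] at hHv0
      exact hHv0 (vl_zero hF)
    have hquot : π (cx (Polynomial.aeval u κ)) / π (cx (C l * f)) =
        π (cx fs) * (π (cx (Polynomial.aeval u H)))⁻¹ := by
      rw [div_eq_iff hne, hlf2]
      have h1 := mul_inv_cancel_right₀ hHF (π (cx (Polynomial.aeval u κ)))
      rw [← hprod] at h1
      rw [← h1]
      ring
    have hfsm := mem_of_fin hz.1 (cx fs)
    refine ⟨?_, ?_, ?_⟩
    · rw [hlf]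
      refine hbf'.trans ?_
      exact mul_le_mul (by linarith) (hWn _ _ (Nat.le_add_right _ _)) (by positivity)
        (by positivity)
    · rw [hquot]
      exact mul_mem hfsm hi1
    · rw [hquot]
      have h1 : vl hF P (π (cx fs) * (π (cx (Polynomial.aeval u H)))⁻¹) =
          ((eval z fs * (H.eval (eval z u))⁻¹ : ℝ) : ℂ) := by
        rw [vl_mul hF hfsm hi1, hi2, hHv, vl_over hF hz, eval_cx]
        push_cast
        rfl
      unfold rv
      rw [h1, Complex.ofReal_re, abs_mul, abs_inv]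
      have h2 : |H.eval (eval z u)|⁻¹ ≤ K₂ * (1 + |eval z u|) ^ D₁ := by
        have h3 : 0 < K₂ * (1 + |eval z u|) ^ D₁ := by positivity
        rw [inv_le_comm₀ hHpos h3, ← one_div]
        exact hHb
      have h3 : 1 + |eval z u| ≤ (1 + B) * W ^ u.totalDegree := by
        have h4 : 1 ≤ W ^ u.totalDegree := one_le_pow₀ hW
        nlinarith
      have h5 : (1 + |eval z u|) ^ D₁ ≤ (1 + B) ^ D₁ * W ^ (u.totalDegree * D₁) := by
        refine (pow_le_pow_left₀ (by positivity) h3 D₁).trans ?_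
        rw [mul_pow, ← pow_mul]
      have hW0 : 0 < W := by linarith
      calc |eval z fs| * |H.eval (eval z u)|⁻¹ ≤
          (N * W ^ D₁) * (K₂ * ((1 + B) ^ D₁ * W ^ (u.totalDegree * D₁))) :=
            mul_le_mul hbfs (h2.trans (mul_le_mul_of_nonneg_left h5 hK₂.le)) (by positivity)
              (by positivity)
        _ = Q * W ^ (D₁ + u.totalDegree * D₁) := by
            rw [hQ, pow_add]
            ring
        _ ≤ (N + K₂ + Q + R) * W ^ (D₁ + u.totalDegree * D₁) :=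
            mul_le_mul_of_nonneg_right (by linarith) (by positivity)

end Pool.Agent.Helper10.GN
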