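import Pool.Agent.Helper10.GN.Trv

set_option autoImplicit false

/-!
# Project GN, block RO2: combining rotations

`rot_unit`: multiply `D` and `M` by the factor `r` with `r(z) ≠ 0`: `(M r) s - (D r) e = r (M s - D e)` is divisible by `q r`.
`rot_two`: `(D₁, M₁)` for `p`, `(D₂, M₂)` for `q`, both matrices vanishing at `z`, `Trv p q z`, `p` and `q` coprime in the sense that `p ∣ h`, `q ∣ h` imply
`p q ∣ h`. The matrix `X = D₂ M₁ - D₁ M₂` vanishes at `z`; by `trv_local` `Δ X i j = Y i j p + W i j q` for `i < j`; continue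
antisymmetrically (`Y i j = - Y j i`, `0` on the diagonal: `M i i = 0` because `M i i = - M i i`). Let `D = Δ D₁ D₂`,
`M = Δ D₂ M₁ - p Y = Δ D₁ M₂ + q W`. Modulo `p`: `M s ≡ Δ D₂ M₁ s ≡ Δ D₂ D₁ e`, modulo `q`: `M s ≡ Δ D₁ M₂ s ≡ Δ D₁ D₂ e`.
`M` vanishes at `z` (`p(z) = 0`).
`rot_triv`: `q ∣ B j - b j` for all `j`, `q(z) = 0`: `D = 1`, `M = 0`. `rot_congr`: `Rot`/`RotV` depend only on `b` modulo `q` (for `RotV` `q(z) = 0`).
-/

namespace Pool.Agent.Helper10.GN

open VC FF MvPolynomial Pool.Agent.Helper68.QM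

variable {N : ℕ} {z : Fin 2 → ℝ} {b B : Fin N → A}

theorem rot_unit {q r : A} (hr : eval z r ≠ 0) (h : Rot q z b B) : Rot (q * r) z b B := by
  obtain ⟨D, M, hD, hM, hs⟩ := h
  refine ⟨D * r, fun i j => r * M i j, ?_, fun i j => ?_, fun i => ?_⟩
  · rw [map_mul]
    exact mul_ne_zero hD hr
  · change r * M i j = -(r * M j i)
    rw [hM i j]
    ring
  · obtain ⟨k, hk⟩ := hs i
    refine ⟨k, ?_⟩
    have e : ∑ j, r * M i j * (B j + b j) = r * ∑ j, M i j * (B j + b j) := by
      rw [Finset.mul_sum]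
      exact Finset.sum_congr rfl fun j _ => by ring
    rw [e]
    linear_combination r * hk

theorem rot_of_rotV {q : A} (h : RotV q z b B) : Rot q z b B := by
  obtain ⟨_, D, M, hD, hM, _, hs⟩ := h
  exact ⟨D, M, hD, hM, hs⟩

private theorem congr23 {q D : A} {M : Matrix (Fin N) (Fin N) A} {b b' : Fin N → A}
    (hb : ∀ j, q ∣ b' j - b j) (hs : ∀ i, q ∣ (∑ j, M i j * (B j + b j)) - D * (B i - b i))
    (i : Fin N) : q ∣ (∑ j, M i j * (B j + b' j)) - D * (B i - b' i) := by
  have e : (∑ j, M i j * (B j + b' j)) - D * (B i - b' i) =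
      ((∑ j, M i j * (B j + b j)) - D * (B i - b i)) + ∑ j, M i j * (b' j - b j) +
        D * (b' i - b i) := by
    have e1 : ∑ j, M i j * (B j + b' j) =
        ∑ j, M i j * (B j + b j) + ∑ j, M i j * (b' j - b j) := by
      rw [← Finset.sum_add_distrib]
      exact Finset.sum_congr rfl fun j _ => by ring
    rw [e1]
    ring
  rw [e]
  exact dvd_add (dvd_add (hs i) (Finset.dvd_sum fun j _ => dvd_mul_of_dvd_right (hb j) _))
    (dvd_mul_of_dvd_right (hb i) _)

private theorem eval23 {q a c : A} (hq : eval z q = 0) (h : q ∣ a - c) :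
    eval z a = eval z c := by
  obtain ⟨k, hk⟩ := h
  have h1 : eval z (a - c) = 0 := by rw [hk, map_mul, hq, zero_mul]
  rw [map_sub] at h1
  linarith

theorem rot_two {p q : A} (hp : eval z p = 0) (hq : eval z q = 0) (ht : Trv p q z)
    (hpq : ∀ h, p ∣ h → q ∣ h → p * q ∣ h) (h₁ : RotV p z b B) (h₂ : RotV q z b B) :
    RotV (p * q) z b B := by
  obtain ⟨hv, D₁, M₁, hD₁, hM₁, hz₁, hs₁⟩ := h₁
  obtain ⟨_, D₂, M₂, hD₂, hM₂, hz₂, hs₂⟩ := h₂
  obtain ⟨Δ, hΔ, hloc⟩ := trv_local hp hq ht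
  have hX : ∀ i j, ∃ x y : A, Δ * (D₂ * M₁ i j - D₁ * M₂ i j) = x * p + y * q := by
    intro i j
    apply hloc
    rw [map_sub, map_mul, map_mul, hz₁ i j, hz₂ i j, mul_zero, mul_zero, sub_zero]
  choose x y hxy using hX
  have hd : ∀ {M : Matrix (Fin N) (Fin N) A}, (∀ i j, M i j = - M j i) → ∀ i, M i i = 0 := by
    intro M hM i
    have h1 := hM i i
    have h2 : (2 : A) * M i i = 0 := by linear_combination h1
    rcases mul_eq_zero.1 h2 with h3 | h3
    · exact absurd h3 two_ne_zero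
    · exact h3
  let Y : Fin N → Fin N → A := fun i j => if i < j then x i j else if j < i then - x j i else 0
  let W : Fin N → Fin N → A := fun i j => if i < j then y i j else if j < i then - y j i else 0
  have hYlt : ∀ i j, i < j → Y i j = x i j := fun i j h => if_pos h
  have hYgt : ∀ i j, j < i → Y i j = - x j i := fun i j h => by
    change (if i < j then x i j else if j < i then - x j i else 0) = - x j i
    rw [if_neg (not_lt.2 h.le), if_pos h]
  have hYd : ∀ i, Y i i = 0 := fun i => by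
    change (if i < i then x i i else if i < i then - x i i else 0) = 0
    rw [if_neg (lt_irrefl i), if_neg (lt_irrefl i)]
  have hWlt : ∀ i j, i < j → W i j = y i j := fun i j h => if_pos h
  have hWgt : ∀ i j, j < i → W i j = - y j i := fun i j h => by
    change (if i < j then y i j else if j < i then - y j i else 0) = - y j i
    rw [if_neg (not_lt.2 h.le), if_pos h]
  have hWd : ∀ i, W i i = 0 := fun i => by
    change (if i < i then y i i else if i < i then - y i i else 0) = 0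
    rw [if_neg (lt_irrefl i), if_neg (lt_irrefl i)]
  have hYW : ∀ i j, Δ * (D₂ * M₁ i j - D₁ * M₂ i j) = Y i j * p + W i j * q := by
    intro i j
    rcases lt_trichotomy i j with h | h | h
    · rw [hYlt i j h, hWlt i j h, hxy]
    · subst h
      rw [hYd, hWd, hd hM₁, hd hM₂]
      ring
    · rw [hYgt i j h, hWgt i j h, hM₁ i j, hM₂ i j]
      linear_combination - hxy j i
  have hYa : ∀ i j, Y i j = - Y j i := by
    intro i j
    rcases lt_trichotomy i j with h | h | h
    · rw [hYlt i j h, hYgt j i h, neg_neg]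
    · subst h
      rw [hYd, neg_zero]
    · rw [hYgt i j h, hYlt j i h]
  refine ⟨hv, Δ * D₁ * D₂, fun i j => Δ * D₂ * M₁ i j - p * Y i j, ?_, fun i j => ?_,
    fun i j => ?_, fun i => ?_⟩
  · rw [map_mul, map_mul]
    exact mul_ne_zero (mul_ne_zero hΔ hD₁) hD₂
  · change Δ * D₂ * M₁ i j - p * Y i j = -(Δ * D₂ * M₁ j i - p * Y j i)
    rw [hM₁ i j, hYa i j]
    ring
  · change eval z (Δ * D₂ * M₁ i j - p * Y i j) = 0
    rw [map_sub, map_mul, map_mul, map_mul, hz₁ i j, hp]
    ring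
  · apply hpq
    · obtain ⟨k, hk⟩ := hs₁ i
      refine ⟨Δ * D₂ * k - ∑ j, Y i j * (B j + b j), ?_⟩
      have e : ∑ j, (Δ * D₂ * M₁ i j - p * Y i j) * (B j + b j) =
          Δ * D₂ * (∑ j, M₁ i j * (B j + b j)) - p * ∑ j, Y i j * (B j + b j) := by
        rw [Finset.mul_sum, Finset.mul_sum, ← Finset.sum_sub_distrib]
        exact Finset.sum_congr rfl fun j _ => by ring
      rw [e]
      linear_combination Δ * D₂ * hk
    · obtain ⟨k, hk⟩ := hs₂ i
      refine ⟨Δ * D₁ * k + ∑ j, W i j * (B j + b j), ?_⟩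
      have e : ∑ j, (Δ * D₂ * M₁ i j - p * Y i j) * (B j + b j) =
          Δ * D₁ * (∑ j, M₂ i j * (B j + b j)) + q * ∑ j, W i j * (B j + b j) := by
        rw [Finset.mul_sum, Finset.mul_sum, ← Finset.sum_add_distrib]
        refine Finset.sum_congr rfl fun j _ => ?_
        linear_combination (B j + b j) * hYW i j
      rw [e]
      linear_combination Δ * D₁ * hk

theorem rot_triv {q : A} (hq : eval z q = 0) (h : ∀ j, q ∣ B j - b j) : RotV q z b B := by
  refine ⟨fun j => (eval23 hq (h j)).symm, 1, fun _ _ => 0, ?_, fun i j => ?_, fun i j => ?_,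
    fun i => ?_⟩
  · rw [map_one]
    exact one_ne_zero
  · change (0 : A) = - 0
    rw [neg_zero]
  · change eval z (0 : A) = 0
    rw [map_zero]
  · have e : (∑ j, (0 : A) * (B j + b j)) - 1 * (B i - b i) = -(B i - b i) := by
      simp
    rw [e]
    exact (h i).neg_right

theorem rot_congr {q : A} {b' : Fin N → A} (hb : ∀ j, q ∣ b' j - b j) (h : Rot q z b B) :
    Rot q z b' B := by
  obtain ⟨D, M, hD, hM, hs⟩ := h
  exact ⟨D, M, hD, hM, congr23 hb hs⟩

theorem rotV_congr {q : A} (hq : eval z q = 0) {b' : Fin N → A} (hb : ∀ j, q ∣ b' j - b j)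
    (h : RotV q z b B) : RotV q z b' B := by
  obtain ⟨hv, D, M, hD, hM, hz, hs⟩ := h
  exact ⟨fun j => (eval23 hq (hb j)).trans (hv j), D, M, hD, hM, hz, congr23 hb hs⟩

end Pool.Agent.Helper10.GN
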