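import Pool.Agent.Helper10.GN.Art
import Pool.Agent.Helper10.GN.Deg
import Pool.Agent.Helper10.GN.MemO
import Pool.Agent.Helper10.GN.PosB
import Pool.Agent.Helper10.GN.Rea

set_option autoImplicit false

/-!
# Project GN, block NTY: N-type curves have a nonreal infinite place

`nty_place`: let `q` be bounded by `K` on the real zeros of `p`, and suppose all infinite places are real. `K² - q²` is `≥ 0` on the real
zeros, so `K² - (π q)²` is `Sos` (`art`), `π q` is regular at all real places (`sos_regular`), in particular at the infinite ones, and at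
the finite ones (`mem_of_fin`). So `π (cx q)` is constant, the constant `c` is real (`σ`), so `p ∣ q - c`, contradiction.

`place_nty`: let `P` be a nonreal infinite place. Let `S = {P, s.cj P}` (`SData`). Choose `i₀` with `w = π (pderiv i₀ (cx p)) ≠ 0`.
Let `E Q = ord_Q w` at the finite places, `0` elsewhere. By `FF.ell_ge` there is a nonconstant `f ∈ L (m S - E)` for large `m`;
`f / w` is regular at all finite places, so by `conductor` `f = π h`. `h = cx a + i cx b`; `π (cx a)` and `π (cx b)` are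
regular at all real places, one of `a`, `b` is not constant on the curve; it is bounded (`bdd`) at every real zero of `p` with a
real place over it, in particular at every zero with `pderiv i₀ p ≠ 0`. The remaining real zeros are finitely many.
-/

namespace Pool.Agent.Helper10.GN

open VC FF MvPolynomial Pool.Agent.Helper68.QM

variable {F : Type} [Field F] [Algebra ℂ F] {s : RStr F} (hF : IsFunctionField ℂ F)
variable {p : A} {π : CP →ₐ[ℂ] F}

/-- a real constant function -/
private theorem dvd_of_const56 (hc : IsCrv p s π) {q : A} {c : ℂ}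
    (h : algebraMap ℂ F c = π (cx q)) : ∃ r : ℝ, p ∣ q - C r := by
  have h1 := hc.real q
  rw [← h, s.alg] at h1
  have h2 := (algebraMap ℂ F).injective h1
  refine ⟨c.re, ?_⟩
  rw [← hc.eq_zero_iff, map_sub, map_sub, cx_C, IsCrv.pi_C, Complex.conj_eq_iff_re.1 h2, h, sub_self]

include hF

theorem nty_place (hc : IsCrv p s π) (hp : Irreducible p) (hsc : SC p) (h : NTy p) :
    ∃ P : Place ℂ F, ¬ FinP π P ∧ s.cj P ≠ P := by
  by_contra hcon
  push Not at hcon
  obtain ⟨q, ⟨K, hK⟩, hq⟩ := h
  have ha : ∀ z : Fin 2 → ℝ, eval z p = 0 → 0 ≤ eval z (C (K ^ 2) - q ^ 2 : A) := by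
    intro z hz
    rw [map_sub, eval_C, map_pow, sub_nonneg]
    exact sq_le_sq' (abs_le.1 (hK z hz)).1 (abs_le.1 (hK z hz)).2
  have h1 := art hc hp hsc ha
  have e : π (cx (C (K ^ 2) - q ^ 2 : A)) = algebraMap ℂ F ((K ^ 2 : ℝ) : ℂ) - π (cx q) ^ 2 := by
    rw [map_sub, map_sub, map_pow cx, map_pow π, cx_C, IsCrv.pi_C]
  rw [e] at h1
  have hreg := sos_regular hF (hc.real q) (K ^ 2) h1
  have hall : ∀ P : Place ℂ F, π (cx q) ∈ P.ring := by
    intro P
    by_cases hP : FinP π P
    · exact mem_of_fin hP _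
    · exact hreg P (hcon P hP)
  have hnt : ¬ Transcendental ℂ (π (cx q)) := by
    intro ht
    obtain ⟨P, hP⟩ := FF.exists_place (FF.transcendental_inv' ht)
    rw [ValuationSubring.mem_nonunits_iff_or, inv_inv, inv_eq_zero] at hP
    rcases hP with h0 | h0
    · rw [h0] at ht
      exact ht isAlgebraic_zero
    · exact h0 (hall P)
  obtain ⟨c, hcc⟩ := FF.exists_const_of_not_transcendental hnt
  obtain ⟨r, hr⟩ := dvd_of_const56 hc hcc
  exact hq r hr

omit hF in
/-- a nonconstant function in a Riemann-Roch space -/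
private theorem exists_nonconst56 {D : Place ℂ F →₀ ℤ} (h : 2 ≤ ell D) :
    ∃ f ∈ L D, ∀ c : ℂ, algebraMap ℂ F c ≠ f := by
  by_contra hcon
  push Not at hcon
  have h1 : L D ≤ Submodule.span ℂ {(1 : F)} := by
    intro f hf
    obtain ⟨c, hc⟩ := hcon f hf
    rw [Submodule.mem_span_singleton]
    exact ⟨c, by rw [← hc, Algebra.smul_def, mul_one]⟩
  have h2 := Submodule.finrank_mono h1
  rw [finrank_span_singleton one_ne_zero] at h2
  have h3 : ell D = Module.finrank ℂ (L D) := rfl
  omega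

theorem place_nty (hc : IsCrv p s π) (hp : Irreducible p) (hsc : SC p)
    (h : ∃ P : Place ℂ F, ¬ FinP π P ∧ s.cj P ≠ P) : NTy p := by
  classical
  obtain ⟨P, hP, hPcj⟩ := h
  obtain ⟨i, hi⟩ := hc.pderiv_ne_zero hp
  set w := π (pderiv i (cx p)) with hw
  let S : Finset (Place ℂ F) := {P, s.cj P}
  have hSinf : ∀ Q ∈ S, ¬ FinP π Q := by
    intro Q hQ
    rw [Finset.mem_insert, Finset.mem_singleton] at hQ
    rcases hQ with rfl | rfl
    · exact hP
    · rwa [fin_cj hc]
  have hSreal : ∀ Q ∈ S, s.cj Q ≠ Q := by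
    intro Q hQ
    rw [Finset.mem_insert, Finset.mem_singleton] at hQ
    rcases hQ with rfl | rfl
    · exact hPcj
    · rw [cj_cj]
      exact hPcj.symm
  -- the conductor divisor
  let E : Place ℂ F →₀ ℤ := Finsupp.ofSupportFinite
    (fun Q => if FinP π Q then ord Q.ring w else 0) ((FF.finite_support_ord hF hi).subset (by
      intro Q hQ
      rw [Function.mem_support] at hQ
      intro h0
      apply hQ
      rw [h0, ite_self]))
  have hE : ∀ Q, E Q = if FinP π Q then ord Q.ring w else 0 := fun Q => rfl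
  obtain ⟨g, hg⟩ := FF.exists_genus hF
  let m : ℕ := (deg E + g + 1).toNat
  obtain ⟨f, hf, hfc⟩ := exists_nonconst56 (D := dS S m - E) (by
    have h1 := FF.ell_ge hg (dS S m - E)
    rw [map_sub, deg_dS] at h1
    have h2 : (1 : ℤ) ≤ S.card := by
      have : 0 < S.card := Finset.card_pos.2 ⟨P, by simp [S]⟩
      exact_mod_cast this
    have h3 : deg E + g + 1 ≤ (m : ℤ) := Int.self_le_toNat _
    have h4 : (m : ℤ) ≤ S.card * m := by nlinarith [Int.natCast_nonneg m]
    have h5 : (2 : ℤ) ≤ ell (dS S m - E) := by linarith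
    exact_mod_cast h5)
  rw [mem_L hF] at hf
  -- `f` is regular outside `S`
  have hE0 : ∀ Q, 0 ≤ E Q := by
    intro Q
    rw [hE]
    split_ifs with h1
    · exact (FF.ord_nonneg_iff hF Q hi).2 (mem_of_fin h1 _)
    · exact le_rfl
  have hfS : ∀ Q, Q ∉ S → Oge Q (E Q) f := by
    intro Q hQ
    have h1 := hf Q
    rw [Finsupp.sub_apply, dS_notMem _ hQ, zero_sub, neg_neg] at h1
    exact h1
  have hfreg : Reg s f := by
    intro Q hQ
    rw [← oge_zero_iff hF]
    exact (hfS Q fun h1 => hSreal Q h1 hQ).mono (hE0 Q)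
  obtain ⟨h, hh⟩ := conductor hF hc hp i (f := f / w) (by
    intro Q hQ
    rw [← oge_zero_iff hF, oge_div_iff hF hi, zero_add]
    have h1 := hfS Q fun h1 => hSinf Q h1 hQ
    rw [hE, if_pos hQ] at h1
    exact h1)
  rw [← hw, mul_div_cancel₀ _ hi] at hh
  obtain ⟨a, b, hab⟩ := exists_re_im h
  -- real and imaginary part
  have hσf : s.σ f = π (cx a) - algebraMap ℂ F Complex.I * π (cx b) := by
    rw [hh, hc.conj, hab, map_add, map_mul, cjp_cx, cjp_cx, cjp_C, Complex.conj_I, map_add, map_mul,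
      IsCrv.pi_C, map_neg]
    ring
  have hf' : f = π (cx a) + algebraMap ℂ F Complex.I * π (cx b) := by
    rw [hh, hab, map_add, map_mul, IsCrv.pi_C]
  have hI : algebraMap ℂ F Complex.I * algebraMap ℂ F Complex.I = -1 := by
    rw [← map_mul, Complex.I_mul_I, map_neg, map_one]
  have h20 : algebraMap ℂ F 2 ≠ 0 := (map_ne_zero (algebraMap ℂ F)).2 (by norm_num)
  have h2i : algebraMap ℂ F (1 / 2) * 2 = 1 := by
    have : (2 : F) = algebraMap ℂ F 2 := (map_ofNat _ _).symm
    rw [this, ← map_mul]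
    norm_num
  have hra : Reg s (π (cx a)) := by
    intro Q hQ
    have e : π (cx a) = algebraMap ℂ F (1 / 2) * (f + s.σ f) := by
      rw [hσf, hf']
      linear_combination (-π (cx a)) * h2i
    rw [e]
    exact Q.ring.mul_mem _ _ (Q.algebraMap_mem _) (Q.ring.add_mem _ _ (hfreg Q hQ)
      (sigma_mem s hQ (hfreg Q hQ)))
  have hrb : Reg s (π (cx b)) := by
    intro Q hQ
    have e : π (cx b) = algebraMap ℂ F (1 / 2) * (algebraMap ℂ F (-Complex.I) * (f - s.σ f)) := by
      rw [hσf, hf', map_neg]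
      linear_combination (-π (cx b)) * h2i + algebraMap ℂ F (1 / 2) * 2 * π (cx b) * hI
    rw [e]
    exact Q.ring.mul_mem _ _ (Q.algebraMap_mem _) (Q.ring.mul_mem _ _ (Q.algebraMap_mem _)
      (sub_mem (hfreg Q hQ) (sigma_mem s hQ (hfreg Q hQ))))
  obtain ⟨q, hrq, hq⟩ : ∃ q : A, Reg s (π (cx q)) ∧ ∀ c : ℝ, ¬ p ∣ q - C c := by
    by_contra hcon
    push Not at hcon
    obtain ⟨c, hc1⟩ := hcon a hra
    obtain ⟨d, hd1⟩ := hcon b hrb
    rw [← hc.eq_zero_iff, map_sub, map_sub, cx_C, IsCrv.pi_C, sub_eq_zero] at hc1 hd1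
    apply hfc (c + Complex.I * d)
    rw [hf', hc1, hd1, map_add, map_mul]
  obtain ⟨K, -, hK⟩ := bdd hF hrq
  -- the singular points
  have hfin : {z : Fin 2 → ℝ | eval z p = 0 ∧ eval z (pderiv i p) = 0}.Finite := by
    have h1 := finite_common hF hc hi
    have h2 : Function.Injective (cz : (Fin 2 → ℝ) → Fin 2 → ℂ) := by
      intro z z' hz
      funext j
      exact Complex.ofReal_injective (congrFun hz j)
    refine (h1.preimage (h2.injOn)).subset ?_
    rintro z ⟨hz1, hz2⟩
    refine ⟨?_, ?_⟩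
    · rw [eval_cx, hz1, Complex.ofReal_zero]
    · rw [pderiv_cx, eval_cx, hz2, Complex.ofReal_zero]
  obtain ⟨M, hM⟩ := (hfin.image fun z => |eval z q|).bddAbove
  refine ⟨q, ⟨max K M, fun z hz => ?_⟩, hq⟩
  by_cases hd : eval z (pderiv i p) = 0
  · exact (hM ⟨z, ⟨hz, hd⟩, rfl⟩).trans (le_max_right _ _)
  · obtain ⟨Q, hQ⟩ := exists_over hF hc (z := cz z) (by rw [eval_cx, hz, Complex.ofReal_zero])
    have h1 := hK Q (real_smooth hF hc hd hQ)
    rw [vl_over hF hQ, eval_cx, Complex.norm_real, Real.norm_eq_abs] at h1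
    exact h1.trans (le_max_left _ _)

end Pool.Agent.Helper10.GN
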