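import Pool.Agent.Helper10.GN.Glu
import Pool.Agent.Helper10.GN.Nty
import Pool.Agent.Helper10.GN.Deg
import Pool.Agent.Helper10.GN.Cve

set_option autoImplicit false

/-!
# Project GN, block RTY: boundedness on curves which are not of N-type

Let `p` be not of N-type, `F, s, π` from `exists_crv`. By `place_nty` all infinite places are real. `D` from `exists_Dinf`. If
`p ∣ f - ∑ B_j²`, `totalDegree f ≤ d`: `π f = ∑ (π B_j)²`; at a real place `P` the orders satisfy `2 ord_P (π B_j) ≥ ord_P (π f) ≥ - d D P`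
(no cancellation of squares of real functions at a real place: let `m` be the minimum of the orders of the nonzero `π B_j`; then
`ord_P (∑ (π B_j)²) = 2 m`: divide by `t^(2m)`, `t` a real uniformizer (`exists_real_unif`), the value is a sum of squares of
real numbers, not all zero), so `π B_j ∈ L (d D)` (at finite places it is regular). `deg_bound` gives `c` with
`π (cx B_j) = π (cx c)`, so `p ∣ B_j - c` (`IsCrv.eq_zero_iff`).
-/

namespace Pool.Agent.Helper10.GN

open VC FF MvPolynomial Pool.Agent.Helper68.QM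

/-- no cancellation in sums of squares of real functions at a real place -/
private theorem oge_of_sq {F : Type} [Field F] [Algebra ℂ F] (s : RStr F) (hF : IsFunctionField ℂ F)
    {P : Place ℂ F} (hP : s.cj P = P) {n : ℕ} (g : Fin n → F) (hg : ∀ j, s.σ (g j) = g j) (m : ℤ)
    (h : Oge P (2 * m) (∑ j, g j ^ 2)) : ∀ j, Oge P m (g j) := by
  classical
  by_contra hcon
  push Not at hcon
  obtain ⟨j1, hj1⟩ := hcon
  unfold Oge at hj1
  push Not at hj1
  obtain ⟨hj1, hj1'⟩ := hj1
  let T : Finset (Fin n) := Finset.univ.filter fun j => g j ≠ 0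
  have hT : T.Nonempty := ⟨j1, Finset.mem_filter.2 ⟨Finset.mem_univ _, hj1⟩⟩
  obtain ⟨j0, hj0, hmin⟩ := T.exists_min_image (fun j => ord P.ring (g j)) hT
  have hh0 : g j0 ≠ 0 := (Finset.mem_filter.1 hj0).2
  have hm0 : ord P.ring (g j0) < m :=
    lt_of_le_of_lt (hmin j1 (Finset.mem_filter.2 ⟨Finset.mem_univ _, hj1⟩)) hj1'
  have hreg : ∀ j, g j / g j0 ∈ P.ring := by
    intro j
    by_cases hj : g j = 0
    · rw [hj, zero_div]
      exact P.ring.zero_mem
    · rw [← FF.ord_nonneg_iff hF P (div_ne_zero hj hh0), FF.ord_div hF P hj hh0]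
      have := hmin j (Finset.mem_filter.2 ⟨Finset.mem_univ _, hj⟩)
      omega
  have hreal : ∀ j, s.σ (g j / g j0) = g j / g j0 := fun j => by rw [map_div₀, hg, hg]
  have hsum : (∑ j, g j ^ 2) / g j0 ^ 2 = ∑ j, (g j / g j0) ^ 2 := by
    rw [Finset.sum_div]
    exact Finset.sum_congr rfl fun j _ => (div_pow _ _ _).symm
  have hreg2 : (∑ j, g j ^ 2) / g j0 ^ 2 ∈ P.ring := by
    rw [hsum]
    exact sum_mem fun j _ => pow_mem (hreg j) 2
  have hval : 0 < rv hF P ((∑ j, g j ^ 2) / g j0 ^ 2) := by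
    rw [hsum, rv_sum hF Finset.univ _ fun j _ => pow_mem (hreg j) 2]
    have h1 : ∀ j ∈ Finset.univ, rv hF P ((g j / g j0) ^ 2) = rv hF P (g j / g j0) ^ 2 :=
      fun j _ => rv_pow s hF hP (hreg j) (hreal j) 2
    rw [Finset.sum_congr rfl h1]
    refine Finset.sum_pos' (fun j _ => sq_nonneg _) ⟨j0, Finset.mem_univ _, ?_⟩
    rw [div_self hh0]
    have h2 : rv hF P (1 : F) = 1 := by
      unfold rv
      rw [vl_one]
      rfl
    rw [h2]
    norm_num
  have hv0 : vl hF P ((∑ j, g j ^ 2) / g j0 ^ 2) ≠ 0 := by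
    intro h0
    unfold rv at hval
    rw [h0, Complex.zero_re] at hval
    exact lt_irrefl _ hval
  have hord := ord_eq_zero_of_vl hF hreg2 hv0
  have hf0 : (∑ j, g j ^ 2) ≠ 0 := by
    intro h0
    rw [h0, zero_div, vl_zero] at hv0
    exact hv0 rfl
  rw [FF.ord_div hF P hf0 (pow_ne_zero _ hh0), FF.ord_pow hF P hh0] at hord
  rcases h with h | h
  · exact hf0 h
  · push_cast at hord
    omega

theorem rtype_bound {p : A} (hp : Irreducible p) (hsc : SC p) (hn : ¬ NTy p) (d : ℕ) :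
    ∃ l : ℕ, ∀ f : A, f.totalDegree ≤ d → ∀ (n : ℕ) (B : Fin n → A), p ∣ f - ∑ j, B j ^ 2 →
      ∀ j, ∃ c : A, c.totalDegree ≤ l ∧ p ∣ B j - c := by
  obtain ⟨F, _, _, s, π, hF, hc⟩ := exists_crv hp hsc
  obtain ⟨D, hD0, hDfin, hD⟩ := exists_Dinf hF hc
  obtain ⟨l, hl⟩ := deg_bound hF hc ((d : ℤ) • D)
  have hinf : ∀ P : Place ℂ F, ¬ FinP π P → s.cj P = P := by
    intro P hP
    by_contra h
    exact hn (place_nty hF hc hp hsc ⟨P, hP, h⟩)
  refine ⟨l, fun f hf n B hB j => ?_⟩
  have hsum : π (cx f) = ∑ j, π (cx (B j)) ^ 2 := by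
    have h1 := (hc.eq_zero_iff _).2 hB
    rw [map_sub, map_sub, sub_eq_zero, map_sum, map_sum] at h1
    rw [h1]
    exact Finset.sum_congr rfl fun j _ => by rw [map_pow, map_pow]
  have hfL := hD d (cx f) (by rw [totalDegree_cx]; exact hf)
  rw [mem_L hF] at hfL
  have hmem : π (cx (B j)) ∈ L ((d : ℤ) • D) := by
    rw [mem_L hF]
    intro P
    by_cases hP : FinP π P
    · rw [Finsupp.smul_apply, hDfin P hP, smul_zero, neg_zero, oge_zero_iff hF]
      exact mem_of_fin hP _
    · have h1 := hfL P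
      rw [hsum] at h1
      refine oge_of_sq s hF (hinf P hP) (fun j => π (cx (B j))) (fun j => hc.real (B j)) _ ?_ j
      refine h1.mono ?_
      rw [Finsupp.smul_apply, smul_eq_mul]
      have := mul_nonneg (Int.natCast_nonneg d) (hD0 P)
      linarith
  obtain ⟨a, ha, hae⟩ := hl _ hmem (hc.real (B j)) ⟨cx (B j), rfl⟩
  refine ⟨a, ha, (hc.eq_zero_iff _).1 ?_⟩
  rw [map_sub, map_sub, hae, sub_self]

end Pool.Agent.Helper10.GN
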