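import Pool.Agent.Helper10.GN.Glu

set_option autoImplicit false

/-!
# Project GN, block SQT: the square root trick

`exists_sqrt_series`: a one-variable real polynomial `s` with `X^m ∣ (1 - X) s² - 1` (truncated `(1 - X)^(-1/2)`): induction on `m`:
if `(1 - X) s² = 1 + X^m t`, replace `s` by `s - (t(0)/2) X^m` (the coefficient of `X^m` in `(1 - X) s²` changes by `- t(0)`, as `s(0)² = 1`; take
`s(0) = 1`).
`sqrt_trick`: `f - ∑ b_j² = P f e₁ + Q2 e₂`, `e₁, e₂ ∈ I₀`, `Q2 ∣ P^m`, `m ≥ 1`. With `σ = s(P e₁)`, `x = P e₁`,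
`(1 - x) σ² = 1 + x^m t`: `f - σ² ∑ b_j² = f - σ² (f (1 - x) - Q2 e₂) = - f x^m t + σ² Q2 e₂`, and `x^m = P^m e₁^m ∈ Q2 I₀`.
The degree of `σ` is at most `m' (totalDegree P + totalDegree e₁)`, `m' = natDegree s`.
-/

namespace Pool.Agent.Helper10.GN

open VC FF MvPolynomial Pool.Agent.Helper68.QM

private theorem exists_sqrt_series_aux (m : ℕ) : ∃ s : Polynomial ℝ, s.eval 0 = 1 ∧
    (Polynomial.X : Polynomial ℝ) ^ (m + 1) ∣ (1 - Polynomial.X) * s ^ 2 - 1 := by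
  induction m with
  | zero =>
    refine ⟨1, by simp, ⟨-1, by ring⟩⟩
  | succ m ih =>
    obtain ⟨s, hs, t, ht⟩ := ih
    refine ⟨s - Polynomial.C (t.eval 0 / 2) * Polynomial.X ^ (m + 1), ?_, ?_⟩
    · simp [hs]
    · have h1 : (1 - Polynomial.X) * (s - Polynomial.C (t.eval 0 / 2) * Polynomial.X ^ (m + 1)) ^ 2 - 1
          = Polynomial.X ^ (m + 1) * (t - 2 * Polynomial.C (t.eval 0 / 2) * (1 - Polynomial.X) * s
            + Polynomial.C (t.eval 0 / 2) ^ 2 * Polynomial.X ^ (m + 1) * (1 - Polynomial.X)) := by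
        linear_combination ht
      rw [h1, pow_succ (Polynomial.X : Polynomial ℝ) (m + 1)]
      refine mul_dvd_mul_left _ ?_
      rw [Polynomial.X_dvd_iff, Polynomial.coeff_zero_eq_eval_zero]
      simp [hs]
      ring

theorem exists_sqrt_series (m : ℕ) : ∃ s : Polynomial ℝ,
    (Polynomial.X : Polynomial ℝ) ^ m ∣ (1 - Polynomial.X) * s ^ 2 - 1 := by
  obtain ⟨s, -, hs⟩ := exists_sqrt_series_aux m
  exact ⟨s, (pow_dvd_pow _ (Nat.le_succ m)).trans hs⟩

private theorem totalDegree_aeval_le (s : Polynomial ℝ) (x : A) :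
    (Polynomial.aeval x s).totalDegree ≤ s.natDegree * x.totalDegree := by
  rw [Polynomial.aeval_eq_sum_range]
  refine (totalDegree_finsetSum _ _).trans (Finset.sup_le fun i hi => ?_)
  rw [Finset.mem_range] at hi
  refine (totalDegree_smul_le _ _).trans ((totalDegree_pow _ _).trans ?_)
  exact Nat.mul_le_mul_right _ (by omega)

theorem sqrt_trick (P Q2 : A) (m : ℕ) (hm : 1 ≤ m) (hQ : Q2 ∣ P ^ m) (I₀ : Ideal A) (l l' : ℕ) :
    ∃ L : ℕ, ∀ (f e₁ e₂ : A) (N : ℕ) (b : Fin N → A), e₁ ∈ I₀ → e₂ ∈ I₀ →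
      e₁.totalDegree ≤ l → (∀ j, (b j).totalDegree ≤ l') →
      f - ∑ j, b j ^ 2 = P * f * e₁ + Q2 * e₂ →
      ∃ b' : Fin N → A, (∀ j, (b' j).totalDegree ≤ L) ∧
        f - ∑ j, b' j ^ 2 ∈ Ideal.span {Q2} * I₀ := by
  obtain ⟨s, t, ht⟩ := exists_sqrt_series m
  obtain ⟨r, hr⟩ := hQ
  refine ⟨s.natDegree * (P.totalDegree + l) + l', ?_⟩
  intro f e₁ e₂ N b he₁ he₂ hl hb hf
  refine ⟨fun j => Polynomial.aeval (P * e₁) s * b j, fun j => ?_, ?_⟩
  · refine (totalDegree_mul _ _).trans (Nat.add_le_add ((totalDegree_aeval_le _ _).trans ?_) (hb j))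
    exact Nat.mul_le_mul_left _ ((totalDegree_mul _ _).trans (Nat.add_le_add_left hl _))
  · have h1 := congrArg (Polynomial.aeval (P * e₁)) ht
    simp only [map_sub, map_mul, map_pow, map_one, Polynomial.aeval_X] at h1
    have h2 : ∑ j, (Polynomial.aeval (P * e₁) s * b j) ^ 2
        = Polynomial.aeval (P * e₁) s ^ 2 * ∑ j, b j ^ 2 := by
      rw [Finset.mul_sum]
      exact Finset.sum_congr rfl fun j _ => mul_pow _ _ _
    have h3 : f - ∑ j, (Polynomial.aeval (P * e₁) s * b j) ^ 2 =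
        Q2 * (Polynomial.aeval (P * e₁) s ^ 2 * e₂ - f * r * Polynomial.aeval (P * e₁) t * e₁ ^ m) := by
      rw [h2]
      have h4 : (P * e₁) ^ m = Q2 * r * e₁ ^ m := by rw [mul_pow, hr]
      rw [h4] at h1
      linear_combination (Polynomial.aeval (P * e₁) s ^ 2) * hf - f * h1
    have h5 : (f - ∑ j, (fun j => Polynomial.aeval (P * e₁) s * b j) j ^ 2) =
        f - ∑ j, (Polynomial.aeval (P * e₁) s * b j) ^ 2 := rfl
    rw [h5, h3]
    refine Ideal.mul_mem_mul (Ideal.mem_span_singleton_self _) ?_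
    refine I₀.sub_mem (I₀.mul_mem_left _ he₂) (I₀.mul_mem_left _ ?_)
    exact I₀.pow_mem_of_mem he₁ m (by omega)

end Pool.Agent.Helper10.GN
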