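import Pool.Agent.Helper10.GN.Cloc
import Pool.Agent.Helper10.GN.Rty
import Pool.Agent.Helper10.GN.Gl2
import Pool.Agent.Helper10.GN.Ro2
import Pool.Agent.Helper10.GN.Apx
import Pool.Agent.Helper10.GN.Crt
import Pool.Agent.Helper10.GN.Col
import Pool.Agent.Helper10.GN.Dg2
import Pool.Agent.Helper10.GN.Sqt

set_option autoImplicit false

/-!
# Project GN, block MAIN: bounded representations modulo `Q² I₀` for `f` prime to `Q`

`p : ι → A` a good family, `a i ≥ 1`, `Q = ∏ p_i^(a_i)`, `P = ∏ p_i`, `q = ∏ p_i^(2 a_i - 1)`, `Q² = P q`, `J = I₀ (f, q)`.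

Proof. Let `f - ∑ B_j² = Q² r`-type: `∈ (Q²) I₀`, so `= P r`, `r ∈ (q) I₀` (`P ≠ 0`), in particular every `p_i ∣ f - ∑ B_j²`.
(1) For `i` of N-type let `Z i` be the finite set of the real zeros of `p i` which are singular on `p i` or zeros of another `p j`
(finite: `finite_common` after `exists_crv`, `p i ∤ p j`). `curve_loc` gives a bound `l₁ i` and, with `T` = the finite set of the nonreal points `z` at
which all elements of `J` vanish (`col_fc`, `fc_points`), `N₀ i`. Let `N = max` of the `N₀ i` and of `n`; `b i : Fin N → A` and `B' = extB B N`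
(`∑ B'_j² = ∑ B_j²`).
(2) `glue` (the hypothesis: for `z` a common zero of `p i` and `p j`, `z ∈ Z i`, `RotV` contains `b i = B'` at `z`): `c : Fin N → A`,
`c ≡ b i` mod `p i` for N-type `i`, and `c - B'` divisible by the product over the others. `p_i ∣ f - ∑ c_j²` for all `i`, so `P ∣`
(`prod_dvd`). (3) For all `i` `c k` is congruent to a polynomial of degree `≤ l₂` modulo `p i` (`rtype_bound` for the others); `reduce_family` gives
`b k` of degree `≤ l₃` with `P ∣ c k - b k`. `f - ∑ b_j² = P c'`.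
(4) `crt_sol` for `J` and `x = xf P c' b` (`xf_congr`): let `m ⊇ J` be maximal, `m = mz z` (`exists_mz`), `L`. `q`-part: `r ∈ (q) I₀ ≤ J`.
- no `p i` of N-type vanishes at `z`: `a = ∏_{i N-type} p i ∉ m` and `P ∣ a (B'_j - b_j)`: `loc_one` (this includes the case `P ∉ m`).
- `p i` of N-type vanishes at `z`, `NR z`: `z ∈ T`, so some `b i j` does not vanish at `z`, and `b j ≡ b i j` mod `p i`: `loc_two` (`P ∈ m`).
- `p i` of N-type vanishes at the real point `z = cz z'`: if `f(z') ≠ 0`, then `∑ b_j(z')² = f(z') ≠ 0`: `loc_two`. If `f(z') = 0`: if no other `p j` vanishes at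
`z'`: `curve_loc` gives `ε` with `Rot (p i) z' (b i) (ε B')`, so `Rot (p i) z' b (ε B')` (`rot_congr`), `Rot P z' b (ε B')` (`rot_unit`, the product of the
others), `loc_rot` with `B := ε B'`. If `p j` vanishes at `z'`, `j ≠ i` (then no third: `GoodF.two`): `RotV (p i) z' b B'`, and `RotV (p j) z' b B'` (N-type: by
symmetry `z' ∈ Z j`; otherwise `rot_triv`), `GoodF.trv`, `rot_two`, `rot_unit`, `loc_rot`. (In fact `f(z') = 0` is not needed in these cases.)
So there is `δ` with `x(δ) ∈ J`; by `col_reduce` replace `δ` by `δ'` of degree `≤ L₁` (`xf_congr` with `K = J`). `b' = b + P δ'` has bounded degree,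
`f - ∑ b'_j² = P x(δ')`, `h = x(δ')` of bounded degree, `h ∈ J`.
(5) `deg_two`: `h = f e₁ + q e₂`, `e₁` of bounded degree; `f - ∑ b'_j² = P f e₁ + Q² e₂`; `sqrt_trick` (`Q² ∣ P^m` for `m = 2 max a_i`).
-/

namespace Pool.Agent.Helper10.GN

open VC FF MvPolynomial Pool.Agent.Helper68.QM

/-- the conclusion of `curve_loc` -/
private def CL97 (p : A) (Z : Finset (Fin 2 → ℝ)) (d l : ℕ) : Prop :=
  ∀ f : A, f.totalDegree ≤ d → ¬ p ∣ f →
    ∀ (n : ℕ) (B : Fin n → A), p ∣ f - ∑ j, B j ^ 2 →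
    ∀ T : Finset (Fin 2 → ℂ), (∀ z ∈ T, NR z) →
    ∃ N₀ : ℕ, ∀ N : ℕ, N₀ ≤ N → ∃ b : Fin N → A, (∀ j, (b j).totalDegree ≤ l) ∧
      p ∣ f - ∑ j, b j ^ 2 ∧ (∀ z ∈ Z, RotV p z b (extB B N)) ∧
      (∀ z : Fin 2 → ℝ, eval z p = 0 → ∃ ε : ℝ, (ε = 1 ∨ ε = -1) ∧
        Rot p z b fun j => C ε * extB B N j) ∧
      ∀ z ∈ T, eval z (cx p) = 0 → ∃ j, eval z (cx (b j)) ≠ 0

/-- the conclusion of `rtype_bound` -/
private def RT97 (p : A) (d l : ℕ) : Prop :=
  ∀ f : A, f.totalDegree ≤ d → ∀ (n : ℕ) (B : Fin n → A), p ∣ f - ∑ j, B j ^ 2 →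
    ∀ j, ∃ c : A, c.totalDegree ≤ l ∧ p ∣ B j - c

private theorem cz_inj97 : Function.Injective cz := fun _ _ h =>
  funext fun i => Complex.ofReal_injective (congrFun h i)

private theorem finite_Z97 {ι : Type} [Fintype ι] {p : ι → A} (hp : Fam p) (i : ι) :
    {z : Fin 2 → ℝ | eval z (p i) = 0 ∧ ((∀ k, eval z (pderiv k (p i)) = 0) ∨
      ∃ j, j ≠ i ∧ eval z (p j) = 0)}.Finite := by
  classical
  obtain ⟨F, iF, iA, s, π, hF, hc⟩ := exists_crv (hp.irr i) (hp.sc i)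
  obtain ⟨k₀, hk₀⟩ := hc.pderiv_ne_zero (hp.irr i)
  have h1 := finite_common hF hc hk₀
  have h2 : ∀ j : {j : ι // j ≠ i},
      {z : Fin 2 → ℂ | eval z (cx (p i)) = 0 ∧ eval z (cx (p j)) = 0}.Finite := by
    intro j
    refine finite_common hF hc (h := cx (p j)) fun h => ?_
    have h3 := (hc.eq_zero_iff _).1 h
    exact hp.na i j j.2.symm
      (((hp.irr i).dvd_irreducible_iff_associated (hp.irr j)).mp h3)
  have h3 := (h1.union (Set.finite_iUnion h2)).preimage (cz_inj97.injOn (s := cz ⁻¹' _))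
  refine h3.subset ?_
  rintro z ⟨hz, hz' | ⟨j, hj, hz'⟩⟩
  · left
    refine ⟨?_, ?_⟩
    · rw [eval_cx, hz, Complex.ofReal_zero]
    · rw [pderiv_cx, eval_cx, hz' k₀, Complex.ofReal_zero]
  · right
    rw [Set.mem_iUnion]
    refine ⟨⟨j, hj⟩, ?_, ?_⟩
    · rw [eval_cx, hz, Complex.ofReal_zero]
    · change eval (cz z) (cx (p j)) = 0
      rw [eval_cx, hz', Complex.ofReal_zero]

private theorem sum_extB97 {n N : ℕ} (h : n ≤ N) (B : Fin n → A) :
    ∑ j, extB B N j ^ 2 = ∑ j, B j ^ 2 := by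
  obtain ⟨k, rfl⟩ := Nat.exists_eq_add_of_le h
  rw [Fin.sum_univ_add]
  have h1 : ∀ i : Fin n, extB B (n + k) (Fin.castAdd k i) = B i := by
    intro i
    unfold extB
    rw [dif_pos (by rw [Fin.val_castAdd]; exact i.2)]
    rfl
  have h2 : ∀ i : Fin k, extB B (n + k) (Fin.natAdd n i) = 0 := by
    intro i
    unfold extB
    rw [dif_neg (by rw [Fin.val_natAdd]; omega)]
  simp only [h1, h2]
  simp

private theorem local97 {ι : Type} [Fintype ι] [DecidableEq ι] {p : ι → A} (hp : Fam p)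
    (hg : GoodF p) {f c' r : A} {J : Ideal A} {N : ℕ} (B' bb c : Fin N → A)
    (b : ι → Fin N → A) (Z : ι → Finset (Fin 2 → ℝ))
    (hZ : ∀ i z, z ∈ Z i ↔ eval z (p i) = 0 ∧ ((∀ k, eval z (pderiv k (p i)) = 0) ∨
      ∃ j, j ≠ i ∧ eval z (p j) = 0))
    (hc' : f - ∑ j, bb j ^ 2 = (∏ i, p i) * c') (hr : f - ∑ j, B' j ^ 2 = (∏ i, p i) * r)
    (hrJ : r ∈ J) (hbc : ∀ k, ∏ i, p i ∣ c k - bb k)
    (hcN : ∀ i, NTy (p i) → ∀ k, p i ∣ c k - b i k)
    (hcs : ∀ k, ∀ s : Finset ι, (∀ j ∈ s, ¬ NTy (p j)) → ∏ j ∈ s, p j ∣ c k - B' k)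
    (hV : ∀ i, NTy (p i) → ∀ z ∈ Z i, RotV (p i) z (b i) B')
    (hR : ∀ i, NTy (p i) → ∀ z : Fin 2 → ℝ, eval z (p i) = 0 →
      ∃ ε : ℝ, (ε = 1 ∨ ε = -1) ∧ Rot (p i) z (b i) fun j => C ε * B' j)
    (hT : ∀ i, NTy (p i) → ∀ z, NR z → (∀ a ∈ J, eval z (cx a) = 0) →
      eval z (cx (p i)) = 0 → ∃ j, eval z (cx (b i j)) ≠ 0)
    {m : Ideal A} (hm : m.IsMaximal) (hJm : J ≤ m) (L : ℕ) :
    ∃ δ : Fin N → A, xf (∏ i, p i) c' bb δ ∈ J ⊔ m ^ L := by
  classical
  have hP0 : (∏ i, p i) ≠ 0 := Finset.prod_ne_zero_iff.2 fun i _ => (hp.irr i).ne_zero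
  have hbi : ∀ i, NTy (p i) → ∀ k, p i ∣ bb k - b i k := by
    intro i hi k
    have h1 := hcN i hi k
    have h2 := (Finset.dvd_prod_of_mem p (Finset.mem_univ i)).trans (hbc k)
    have h3 : bb k - b i k = (c k - b i k) - (c k - bb k) := by ring
    rw [h3]
    exact dvd_sub h1 h2
  by_cases hA : ∀ i, NTy (p i) → p i ∉ m
  · refine loc_one (a := ∏ i ∈ Finset.univ.filter (fun i => NTy (p i)), p i) hP0 hc' hr hrJ hm
      ?_ ?_ L
    · have hmp : m.IsPrime := hm.isPrime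
      rw [hmp.prod_mem_iff]
      rintro ⟨i, hi, hi'⟩
      exact hA i (Finset.mem_filter.1 hi).2 hi'
    · intro k
      have h1 := hcs k (Finset.univ.filter (fun i => ¬ NTy (p i)))
        fun j hj => (Finset.mem_filter.1 hj).2
      have h2 : (∏ i ∈ Finset.univ.filter (fun i => NTy (p i)), p i) *
          ∏ i ∈ Finset.univ.filter (fun i => ¬ NTy (p i)), p i = ∏ i, p i :=
        Finset.prod_filter_mul_prod_filter_not _ _ _
      have h3 : (∏ i ∈ Finset.univ.filter (fun i => NTy (p i)), p i) * (B' k - bb k) =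
          (∏ i ∈ Finset.univ.filter (fun i => NTy (p i)), p i) * (c k - bb k) -
          (∏ i ∈ Finset.univ.filter (fun i => NTy (p i)), p i) * (c k - B' k) := by ring
      rw [h3]
      refine dvd_sub ((hbc k).mul_left _) ?_
      rw [← h2]
      exact mul_dvd_mul_left _ h1
  · push Not at hA
    obtain ⟨i, hi, him⟩ := hA
    obtain ⟨z, rfl⟩ := exists_mz hm
    have hPm : (∏ i, p i) ∈ mz z :=
      Ideal.mem_of_dvd _ (Finset.dvd_prod_of_mem p (Finset.mem_univ i)) him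
    rw [mem_mz] at him
    by_cases hz : NR z
    · obtain ⟨j, hj⟩ := hT i hi z hz (fun a ha => (mem_mz z a).1 (hJm ha)) him
      have h1 : bb j ∉ mz z := by
        rw [mem_mz]
        intro h2
        apply hj
        obtain ⟨w, hw⟩ := hbi i hi j
        have h3 := congrArg (fun x => eval z (cx x)) hw
        simp only [map_sub, map_mul, him, zero_mul, h2] at h3
        simpa using h3
      obtain ⟨δ, hδ⟩ := loc_two (c := c') hm hPm h1 L
      exact ⟨δ, Ideal.mem_sup_right hδ⟩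
    · obtain ⟨z', rfl⟩ := real_of_not_nr hz
      have hzi : eval z' (p i) = 0 := by
        rw [← mz_real, mem_mz]
        exact him
      by_cases hj : ∃ j, j ≠ i ∧ eval z' (p j) = 0
      · obtain ⟨j, hji, hzj⟩ := hj
        have h1 : RotV (p i) z' bb B' := by
          refine rotV_congr hzi (hbi i hi) (hV i hi z' ((hZ i z').2 ⟨hzi, Or.inr ⟨j, hji, hzj⟩⟩))
        have h2 : RotV (p j) z' bb B' := by
          by_cases hnj : NTy (p j)
          · exact rotV_congr hzj (hbi j hnj)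
              (hV j hnj z' ((hZ j z').2 ⟨hzj, Or.inr ⟨i, hji.symm, hzi⟩⟩))
          · refine rot_triv hzj fun k => ?_
            have h3 := hcs k {j} (by
              intro j' hj'
              rw [Finset.mem_singleton] at hj'
              rw [hj']
              exact hnj)
            rw [Finset.prod_singleton] at h3
            have h4 := (Finset.dvd_prod_of_mem p (Finset.mem_univ j)).trans (hbc k)
            have h5 : B' k - bb k = (c k - bb k) - (c k - B' k) := by ring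
            rw [h5]
            exact dvd_sub h4 h3
        have h3 : RotV (p i * p j) z' bb B' := by
          refine rot_two hzi hzj (hg.trv i hi j hji z' hzi hzj) (fun h h4 h5 => ?_) h1 h2
          have h6 := prod_dvd hp (h := h) {i, j} (by
            intro k hk
            rw [Finset.mem_insert, Finset.mem_singleton] at hk
            rcases hk with rfl | rfl
            · exact h4
            · exact h5)
          rwa [Finset.prod_pair hji.symm] at h6
        have hr0 : eval z' (∏ k ∈ (Finset.univ.erase i).erase j, p k) ≠ 0 := by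
          rw [map_prod, Finset.prod_ne_zero_iff]
          intro k hk
          exact hg.two i hi j hji k (Finset.ne_of_mem_erase (Finset.mem_of_mem_erase hk))
            (Finset.ne_of_mem_erase hk) z' hzi hzj
        have h4 := rot_unit hr0 (rot_of_rotV h3)
        have h5 : p i * p j * ∏ k ∈ (Finset.univ.erase i).erase j, p k = ∏ i, p i := by
          rw [mul_assoc, Finset.mul_prod_erase _ _ (Finset.mem_erase.2 ⟨hji, Finset.mem_univ j⟩),
            Finset.mul_prod_erase _ _ (Finset.mem_univ i)]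
        rw [h5] at h4
        exact loc_rot hP0 hc' hr hrJ h4 L
      · obtain ⟨ε, hε, h1⟩ := hR i hi z' hzi
        have h2 := rot_congr (hbi i hi) h1
        have hr0 : eval z' (∏ k ∈ Finset.univ.erase i, p k) ≠ 0 := by
          rw [map_prod, Finset.prod_ne_zero_iff]
          intro k hk h
          exact hj ⟨k, Finset.ne_of_mem_erase hk, h⟩
        have h3 := rot_unit hr0 h2
        rw [Finset.mul_prod_erase _ _ (Finset.mem_univ i)] at h3
        refine loc_rot (r := r) hP0 hc' ?_ hrJ h3 L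
        rw [← hr]
        congr 1
        refine Finset.sum_congr rfl fun j _ => ?_
        rw [mul_pow, ← map_pow]
        have h4 : ε ^ 2 = 1 := by
          rcases hε with rfl | rfl <;> norm_num
        rw [h4, C_1, one_mul]

private theorem deg_sq97 {N : ℕ} (b : Fin N → A) {l : ℕ} (h : ∀ j, (b j).totalDegree ≤ l) :
    (∑ j, b j ^ 2).totalDegree ≤ 2 * l :=
  totalDegree_finsetSum_le fun j _ =>
    (totalDegree_pow _ _).trans (Nat.mul_le_mul_left _ (h j))

theorem main_case {ι : Type} [Fintype ι] [DecidableEq ι] {p : ι → A} (hp : Fam p) (hg : GoodF p)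
    (a : ι → ℕ) (ha : ∀ i, 1 ≤ a i) {I₀ : Ideal A} (hI : FC I₀) :
    BRep (Ideal.span {(∏ i, p i ^ a i) ^ 2} * I₀) fun f => ∀ i, ¬ p i ∣ f := by
  intro d
  have hP0 : (∏ i, p i) ≠ 0 := Finset.prod_ne_zero_iff.2 fun i _ => (hp.irr i).ne_zero
  obtain ⟨P, hPe⟩ : ∃ P, P = ∏ i, p i := ⟨_, rfl⟩
  obtain ⟨q, hqe⟩ : ∃ q, q = ∏ i, p i ^ (2 * a i - 1) := ⟨_, rfl⟩
  obtain ⟨Q2, hQe⟩ : ∃ Q2, Q2 = (∏ i, p i ^ a i) ^ 2 := ⟨_, rfl⟩
  have hPq : P * q = Q2 := by
    rw [hPe, hqe, hQe, ← Finset.prod_mul_distrib, ← Finset.prod_pow]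
    refine Finset.prod_congr rfl fun i _ => ?_
    rw [← pow_succ', ← pow_mul]
    congr 1
    have := ha i
    omega
  obtain ⟨Z, hZ⟩ : ∃ Z : ι → Finset (Fin 2 → ℝ), ∀ i z, z ∈ Z i ↔ eval z (p i) = 0 ∧
      ((∀ k, eval z (pderiv k (p i)) = 0) ∨ ∃ j, j ≠ i ∧ eval z (p j) = 0) :=
    ⟨fun i => (finite_Z97 hp i).toFinset, fun i z => by
      rw [Set.Finite.mem_toFinset]
      exact Iff.rfl⟩
  have h1 : ∀ i, ∃ l : ℕ, NTy (p i) → CL97 (p i) (Z i) d l := by
    intro i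
    by_cases hi : NTy (p i)
    · obtain ⟨l, hl⟩ := curve_loc (hp.irr i) (hp.sc i) hi (hg.node i hi) (Z i)
        (fun z hz => ((hZ i z).1 hz).1) (fun z hz => (hZ i z).2 ⟨hz.1, Or.inl hz.2⟩) d
      exact ⟨l, fun _ => hl⟩
    · exact ⟨0, fun h => absurd h hi⟩
  choose l₁ hl₁ using h1
  have h2 : ∀ i, ∃ l : ℕ, ¬ NTy (p i) → RT97 (p i) d l := by
    intro i
    by_cases hi : NTy (p i)
    · exact ⟨0, fun h => absurd hi h⟩
    · obtain ⟨l, hl⟩ := rtype_bound (hp.irr i) (hp.sc i) hi d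
      exact ⟨l, fun _ => hl⟩
  choose l₂ hl₂ using h2
  have hle₁ : ∀ i, l₁ i ≤ ∑ i, l₁ i + ∑ i, l₂ i := fun i =>
    (Finset.single_le_sum (f := l₁) (fun _ _ => Nat.zero_le _) (Finset.mem_univ i)).trans
      (Nat.le_add_right _ _)
  have hle₂ : ∀ i, l₂ i ≤ ∑ i, l₁ i + ∑ i, l₂ i := fun i =>
    (Finset.single_le_sum (f := l₂) (fun _ _ => Nat.zero_le _) (Finset.mem_univ i)).trans
      (Nat.le_add_left _ _)
  obtain ⟨l₃, hl₃⟩ := reduce_family hp (∑ i, l₁ i + ∑ i, l₂ i)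
  obtain ⟨L₁, hL₁⟩ := col_reduce hp.irr hp.sc (fun i => 2 * a i - 1) hI d
  obtain ⟨l₄, hl₄⟩ : ∃ l₄, l₄ = d + 2 * l₃ + (l₃ + L₁) + (P.totalDegree + 2 * L₁) := ⟨_, rfl⟩
  obtain ⟨L₂, hL₂⟩ := deg_two hp.irr hp.sc (fun i => 2 * a i - 1) hI d l₄
  have hQm : Q2 ∣ P ^ (2 * (∑ i, a i) + 1) := by
    rw [hPe, hQe, ← Finset.prod_pow, ← Finset.prod_pow]
    refine Finset.prod_dvd_prod_of_dvd _ _ fun i _ => ?_
    rw [← pow_mul]
    refine pow_dvd_pow _ ?_
    have := Finset.single_le_sum (f := a) (fun _ _ => Nat.zero_le _) (Finset.mem_univ i)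
    omega
  obtain ⟨L, hL⟩ := sqrt_trick P Q2 (2 * (∑ i, a i) + 1) (by omega) hQm I₀ L₂
    (l₃ + (P.totalDegree + L₁))
  refine ⟨L, fun f hfd hpf hrep => ?_⟩
  obtain ⟨n, B, hB⟩ := hrep
  rw [← hQe] at hB
  rw [← hQe]
  obtain ⟨r₀, hr₀, hr₀'⟩ := Ideal.mem_span_singleton_mul.1 hB
  obtain ⟨J, hJ⟩ : ∃ J, J = I₀ * Ideal.span {f, q} := ⟨_, rfl⟩
  have hrJ : r₀ * q ∈ J := by
    rw [hJ]
    exact Ideal.mul_mem_mul hr₀ (Ideal.subset_span (by simp))
  have hJ' : J = I₀ * Ideal.span {f, ∏ i, p i ^ (2 * a i - 1)} := by rw [hJ, hqe]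
  have hJfc : FC J := by
    rw [hJ']
    exact col_fc hp.irr hp.sc _ hI hpf
  have hBP : P ∣ f - ∑ j, B j ^ 2 := ⟨q * r₀, by rw [← hr₀', ← hPq]; ring⟩
  have hPi : ∀ i, p i ∣ P := fun i => by
    rw [hPe]
    exact Finset.dvd_prod_of_mem p (Finset.mem_univ i)
  obtain ⟨T, hT⟩ : ∃ T : Finset (Fin 2 → ℂ), ∀ z, z ∈ T ↔ (∀ a ∈ J, eval z (cx a) = 0) ∧ NR z := by
    classical
    refine ⟨(fc_points hJfc).toFinset.filter NR, fun z => ?_⟩
    rw [Finset.mem_filter, Set.Finite.mem_toFinset]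
    exact Iff.rfl
  have h3 : ∀ i, ∃ N₀ : ℕ, NTy (p i) → ∀ N : ℕ, N₀ ≤ N → ∃ b : Fin N → A,
      (∀ j, (b j).totalDegree ≤ l₁ i) ∧ p i ∣ f - ∑ j, b j ^ 2 ∧
      (∀ z ∈ Z i, RotV (p i) z b (extB B N)) ∧
      (∀ z : Fin 2 → ℝ, eval z (p i) = 0 → ∃ ε : ℝ, (ε = 1 ∨ ε = -1) ∧
        Rot (p i) z b fun j => C ε * extB B N j) ∧
      ∀ z ∈ T, eval z (cx (p i)) = 0 → ∃ j, eval z (cx (b j)) ≠ 0 := by
    intro i
    by_cases hi : NTy (p i)
    · obtain ⟨N₀, hN₀⟩ := hl₁ i hi f hfd (hpf i) n B ((hPi i).trans hBP) T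
        fun z hz => ((hT z).1 hz).2
      exact ⟨N₀, fun _ => hN₀⟩
    · exact ⟨0, fun h => absurd h hi⟩
  choose N₀ hN₀ using h3
  obtain ⟨N, hN⟩ : ∃ N, N = n + ∑ i, N₀ i := ⟨_, rfl⟩
  have hNi : ∀ i, N₀ i ≤ N := fun i => by
    have := Finset.single_le_sum (f := N₀) (fun _ _ => Nat.zero_le _) (Finset.mem_univ i)
    omega
  have h4 : ∀ i, ∃ b : Fin N → A, NTy (p i) → (∀ j, (b j).totalDegree ≤ l₁ i) ∧
      p i ∣ f - ∑ j, b j ^ 2 ∧ (∀ z ∈ Z i, RotV (p i) z b (extB B N)) ∧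
      (∀ z : Fin 2 → ℝ, eval z (p i) = 0 → ∃ ε : ℝ, (ε = 1 ∨ ε = -1) ∧
        Rot (p i) z b fun j => C ε * extB B N j) ∧
      ∀ z ∈ T, eval z (cx (p i)) = 0 → ∃ j, eval z (cx (b j)) ≠ 0 := by
    intro i
    by_cases hi : NTy (p i)
    · obtain ⟨b, hb⟩ := hN₀ i hi N (hNi i)
      exact ⟨b, fun _ => hb⟩
    · exact ⟨0, fun h => absurd h hi⟩
  choose b hb using h4
  have hBs : ∑ j, extB B N j ^ 2 = ∑ j, B j ^ 2 := sum_extB97 (by omega) B
  have hr : f - ∑ j, extB B N j ^ 2 = (∏ i, p i) * (r₀ * q) := by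
    rw [hBs, ← hPe, ← hr₀', ← hPq]
    ring
  obtain ⟨c, hc1, hc2⟩ := glue hp hg b (extB B N) (by
    intro i hi j hj z hz hz' k
    exact ((hb i hi).2.2.1 z ((hZ i z).2 ⟨hz, Or.inr ⟨j, hj, hz'⟩⟩)).1 k)
  have hci : ∀ i, ¬ NTy (p i) → ∀ k, p i ∣ c k - extB B N k := by
    intro i hi k
    have h5 := hc2 k {i} (by
      intro j hj
      rw [Finset.mem_singleton] at hj
      rw [hj]
      exact hi)
    rwa [Finset.prod_singleton] at h5
  have hPB : ∀ i, p i ∣ f - ∑ j, extB B N j ^ 2 := fun i => by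
    rw [hBs]
    exact (hPi i).trans hBP
  have h5 : ∀ k, ∃ h' : A, h'.totalDegree ≤ l₃ ∧ ∏ i, p i ∣ c k - h' := by
    intro k
    refine hl₃ (c k) fun i => ?_
    by_cases hi : NTy (p i)
    · exact ⟨b i k, ((hb i hi).1 k).trans (hle₁ i), hc1 i hi k⟩
    · obtain ⟨c', hc', hc''⟩ := hl₂ i hi f hfd N (extB B N) (hPB i) k
      refine ⟨c', hc'.trans (hle₂ i), ?_⟩
      have h6 := dvd_add (hci i hi k) hc''
      rwa [sub_add_sub_cancel] at h6
  choose bb hbb1 hbb2 using h5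
  have hsq : ∀ (i : ι) (u v : Fin N → A), (∀ k, p i ∣ u k - v k) → p i ∣ f - ∑ j, v j ^ 2 →
      p i ∣ f - ∑ j, u j ^ 2 := by
    intro i u v huv hv
    have h6 : f - ∑ j, u j ^ 2 = (f - ∑ j, v j ^ 2) - ∑ j, (u j - v j) * (u j + v j) := by
      have h7 : ∑ j, (u j - v j) * (u j + v j) = ∑ j, u j ^ 2 - ∑ j, v j ^ 2 := by
        rw [← Finset.sum_sub_distrib]
        exact Finset.sum_congr rfl fun j _ => by ring
      rw [h7]
      ring
    rw [h6]
    exact dvd_sub hv (Finset.dvd_sum fun j _ => (huv j).mul_right _)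
  have hbbi : ∀ i, p i ∣ f - ∑ j, bb j ^ 2 := by
    intro i
    have h6 : ∀ k, p i ∣ bb k - c k := fun k => by
      have h7 := (dvd_neg (a := p i)).2
        ((Finset.dvd_prod_of_mem p (Finset.mem_univ i)).trans (hbb2 k))
      rwa [neg_sub] at h7
    refine hsq i bb c h6 ?_
    by_cases hi : NTy (p i)
    · exact hsq i c (b i) (hc1 i hi) (hb i hi).2.1
    · exact hsq i c (extB B N) (hci i hi) (hPB i)
  obtain ⟨c', hc'⟩ := prod_dvd hp Finset.univ fun i _ => hbbi i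
  obtain ⟨δ, hδ⟩ := crt_sol hJfc (xf (∏ i, p i) c' bb) (fun K δ δ' h => xf_congr K _ _ _ _ _ h)
    fun m hm hJm L => local97 hp hg (extB B N) bb c b Z hZ hc' hr hrJ hbb2 hc1 hc2
      (fun i hi => (hb i hi).2.2.1) (fun i hi => (hb i hi).2.2.2.1)
      (fun i hi z hz hzJ hzp => (hb i hi).2.2.2.2 z ((hT z).2 ⟨hzJ, hz⟩) hzp) hm hJm L
  have h6 : ∀ j, ∃ h' : A, h'.totalDegree ≤ L₁ ∧ δ j - h' ∈ J := by
    intro j
    rw [hJ']
    exact hL₁ f hfd hpf (δ j)
  choose δ' hδ'1 hδ'2 using h6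
  have hx : xf (∏ i, p i) c' bb δ' ∈ J := by
    have h7 := xf_congr J (∏ i, p i) c' bb δ δ' hδ'2
    have h8 := J.sub_mem hδ h7
    rwa [sub_sub_cancel] at h8
  rw [← hPe] at hc' hx hP0
  have hc'd : c'.totalDegree ≤ d + 2 * l₃ := by
    by_cases h7 : c' = 0
    · rw [h7, totalDegree_zero]
      exact Nat.zero_le _
    · have h8 := congrArg totalDegree hc'
      rw [totalDegree_mul_of_isDomain hP0 h7] at h8
      have h9 : (f - ∑ j, bb j ^ 2).totalDegree ≤ d + 2 * l₃ :=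
        (totalDegree_sub _ _).trans (max_le (hfd.trans (Nat.le_add_right _ _))
          ((deg_sq97 bb hbb1).trans (Nat.le_add_left _ _)))
      omega
  have hxd : (xf P c' bb δ').totalDegree ≤ l₄ := by
    unfold xf
    refine (totalDegree_sub _ _).trans (max_le ((totalDegree_sub _ _).trans (max_le ?_ ?_)) ?_)
    · exact hc'd.trans (by omega)
    · have h7 : (2 : A) = C 2 := by rw [map_ofNat]
      refine (totalDegree_mul _ _).trans ?_
      rw [h7, totalDegree_C, zero_add]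
      refine (totalDegree_finsetSum_le (d := l₃ + L₁) fun j _ =>
        (totalDegree_mul _ _).trans (add_le_add (hbb1 j) (hδ'1 j))).trans ?_
      omega
    · refine (totalDegree_mul _ _).trans ((add_le_add le_rfl (deg_sq97 δ' hδ'1)).trans ?_)
      omega
  obtain ⟨e₁, he₁, e₂, he₂, he₁d, hee⟩ := hL₂ f hfd hpf (xf P c' bb δ') hxd (by rw [← hJ']; exact hx)
  have hspec := xf_spec hc' δ'
  obtain ⟨b', hb'1, hb'2⟩ := hL f e₁ e₂ N (fun j => bb j + P * δ' j) he₁ he₂ he₁d (by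
    intro j
    refine (totalDegree_add _ _).trans (max_le ((hbb1 j).trans (Nat.le_add_right _ _)) ?_)
    exact (totalDegree_mul _ _).trans ((add_le_add le_rfl (hδ'1 j)).trans (Nat.le_add_left _ _)))
    (by
      rw [← hspec, hee, ← hqe, ← hPq]
      ring)
  exact ⟨N, b', hb'1, hb'2⟩

end Pool.Agent.Helper10.GN
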