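import Pool.Agent.Helper10.GN.Co2
import Pool.Agent.Helper10.GN.Sdx
import Pool.Agent.Helper10.GN.Appr
import Pool.Agent.Helper10.GN.Mxi

set_option autoImplicit false

/-!
# Project GN, block MEH: polynomials with prescribed jets (arbitrary singularities)

`mem_high`: like `mem_O` without a hypothesis on the singular points: `N₀` = a bound for the orders of `w = π (pderiv i₀ (cx p)) ≠ 0` at the finite
places (`IsCrv.pderiv_ne_zero`, `FF.finite_support_ord`). `f = π h + (f - π h)` at a singular point, `loc_of_cond` for `f - π h` with the unit vector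
`i₀`; smooth points: `loc_smooth`; then `mem_of_loc`.
`exists_fun`: the real places at infinite distance and the singular points are handled automatically: `Z` a finite set of finite places, closed
under conjugation, targets `y P` with `σ (y (cj P)) ≡ y P`. There is a real `x` with `Oge P N (x - y P)` on `Z`, `Oge P N x` at all
places over singular points which are not in `Z`, `Oge P N x` at all real infinite places, and `x` regular at all other finite places: `appr_real` with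
`S` = the nonreal infinite places (`finite_inf`, nonempty by `hn`; or `S = {Q, s.cj Q}` and the other infinite nonreal places anything), and the finite set
`Z ∪ {places over singular points} ∪ {real infinite places}` (singular points: `finite_common`, `finite_over`).
`exists_jet`: `Zp` a finite set of points of the curve closed under conjugation, target polynomials `h z` with `h (zbar z) = cjp (h z)`:
`exists_fun` with `Z` = all places over `Zp`, targets `π (h z)`, precision `max N N₀ M`; the result is in the range of `π` by `mem_high` (at a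
singular point outside `Zp` with `h = 0`), `real_range`.
`exists_theta`: the ideal `I` generated by `p` and all `a : A` with `Oge ω M (π (cx a))` at all real infinite places `ω`. If
`I ≠ ⊤` it is contained in `mz z` for a point `z` (`exists_mz`), `z` is on the curve; `exists_jet` with `Zp = {z, zbar z}`, `h = 1`, gives `a ∈ I` with
`eval z (cx a) = 1` (`exists_over`, `vl_over`), contradiction. So `1 ∈ I`: `1 = ∑ β_i θ_i + p c` (finitely many, `Submodule.mem_span`/`Finsupp`; products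
`β θ`).
-/

namespace Pool.Agent.Helper10.GN

open VC FF MvPolynomial Pool.Agent.Helper68.QM

variable {F : Type} [Field F] [Algebra ℂ F] {s : RStr F} (hF : IsFunctionField ℂ F)
variable {p : A} {π : CP →ₐ[ℂ] F}

include hF in
private theorem exists_bound46 {g : F} (hg : g ≠ 0) :
    ∃ N₀ : ℕ, ∀ P : Place ℂ F, ord P.ring g ≤ (N₀ : ℤ) := by
  classical
  have hfin := FF.finite_support_ord hF hg
  refine ⟨∑ P ∈ hfin.toFinset, (ord P.ring g).natAbs, fun P => ?_⟩
  by_cases h : ord P.ring g = 0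
  · rw [h]
    exact Int.natCast_nonneg _
  · have hP : P ∈ hfin.toFinset := hfin.mem_toFinset.2 h
    have h1 : (ord P.ring g).natAbs ≤ ∑ P ∈ hfin.toFinset, (ord P.ring g).natAbs :=
      Finset.single_le_sum (f := fun P : Place ℂ F => (ord P.ring g).natAbs)
        (fun _ _ => Nat.zero_le _) hP
    omega

private theorem sum_single46 (i₀ : Fin 2) (q : CP) :
    (∑ i, C ((Pi.single i₀ 1 : Fin 2 → ℂ) i) * pderiv i q) = pderiv i₀ q := by
  rw [Finset.sum_eq_single i₀]
  · rw [Pi.single_eq_same, C_1, one_mul]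
  · intro i _ hi
    rw [Pi.single_eq_of_ne hi, C_0, zero_mul]
  · intro h
    exact absurd (Finset.mem_univ _) h

private theorem sgc_bar46 {z : Fin 2 → ℂ} (hz : SgC p z) : SgC p (zbar z) := by
  constructor
  · rw [eval_zbar, hz.1, map_zero]
  · intro i
    rw [pderiv_cx, eval_zbar, ← pderiv_cx, hz.2 i, map_zero]

private theorem finite_sing46 (hc : IsCrv p s π) (hp : Irreducible p) (hF : IsFunctionField ℂ F) :
    {P : Place ℂ F | ∃ z, SgC p z ∧ Over hF π P z}.Finite := by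
  obtain ⟨i₀, hi₀⟩ := hc.pderiv_ne_zero hp
  have h1 := finite_common hF hc hi₀
  have h2 : {P : Place ℂ F | ∃ z, SgC p z ∧ Over hF π P z} ⊆
      ⋃ z ∈ {z : Fin 2 → ℂ | eval z (cx p) = 0 ∧ eval z (pderiv i₀ (cx p)) = 0}, {P | Over hF π P z} := by
    rintro P ⟨z, hz, hP⟩
    exact Set.mem_biUnion (show z ∈ {z : Fin 2 → ℂ | eval z (cx p) = 0 ∧ eval z (pderiv i₀ (cx p)) = 0} from
      ⟨hz.1, hz.2 i₀⟩) hP
  exact (h1.biUnion fun z _ => finite_over hF hc z).subset h2

theorem mem_high (hc : IsCrv p s π) (hp : Irreducible p) :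
    ∃ N₀ : ℕ, ∀ f : F, (∀ P : Place ℂ F, FinP π P → f ∈ P.ring) →
      (∀ z : Fin 2 → ℂ, SgC p z → ∃ h : CP, ∀ P, Over hF π P z → Oge P N₀ (f - π h)) →
      ∃ h : CP, f = π h := by
  classical
  obtain ⟨i₀, hi₀⟩ := hc.pderiv_ne_zero hp
  obtain ⟨N₀, hN₀⟩ := exists_bound46 hF hi₀
  refine ⟨N₀, fun f hf hs => ?_⟩
  refine mem_of_loc hc fun z hz => ?_
  by_cases hsm : ∃ i, eval z (pderiv i (cx p)) ≠ 0
  · obtain ⟨i, hd⟩ := hsm
    obtain ⟨P, hP⟩ := exists_over hF hc hz
    exact loc_smooth hF hc hd hP (hf P hP.1)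
  · push Not at hsm
    obtain ⟨h, hh⟩ := hs z ⟨hz, hsm⟩
    have h1 : Loc π z (f - π h) := by
      refine loc_of_cond hF hc hp (Pi.single i₀ 1) ?_ fun P hP => ?_
      · rw [sum_single46]
        exact hi₀
      · rw [sum_single46]
        exact (hh P hP).mono (hN₀ P)
    have h2 := loc_add h1 (loc_pi z h)
    rwa [sub_add_cancel] at h2

theorem exists_fun (hc : IsCrv p s π) (hp : Irreducible p)
    (hn : ∃ P : Place ℂ F, ¬ FinP π P ∧ s.cj P ≠ P) (N : ℕ) (Z : Finset (Place ℂ F))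
    (hZf : ∀ P ∈ Z, FinP π P) (hZ : ∀ P ∈ Z, s.cj P ∈ Z) (y : Place ℂ F → F)
    (hy : ∀ P ∈ Z, Oge P N (s.σ (y (s.cj P)) - y P)) :
    ∃ x : F, s.σ x = x ∧ (∀ P ∈ Z, Oge P N (x - y P)) ∧
      (∀ z, SgC p z → ∀ P, Over hF π P z → P ∉ Z → Oge P N x) ∧
      (∀ P : Place ℂ F, ¬ FinP π P → s.cj P = P → Oge P N x) ∧
      ∀ P : Place ℂ F, FinP π P → P ∉ Z → x ∈ P.ring := by
  classical
  have hinf := finite_inf hF hc
  have hsing := finite_sing46 hc hp hF
  obtain ⟨S, hSd⟩ : ∃ S : Finset (Place ℂ F), S = hinf.toFinset.filter (fun P => s.cj P ≠ P) := ⟨_, rfl⟩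
  have hS : ∀ P, P ∈ S ↔ ¬ FinP π P ∧ s.cj P ≠ P := by
    intro P
    rw [hSd, Finset.mem_filter, Set.Finite.mem_toFinset]
    rfl
  obtain ⟨R, hRd⟩ : ∃ R : Finset (Place ℂ F), R = hinf.toFinset.filter (fun P => s.cj P = P) := ⟨_, rfl⟩
  have hR : ∀ P, P ∈ R ↔ ¬ FinP π P ∧ s.cj P = P := by
    intro P
    rw [hRd, Finset.mem_filter, Set.Finite.mem_toFinset]
    rfl
  have hSD : SData s S := by
    refine ⟨?_, ?_, ?_⟩
    · obtain ⟨P, hP⟩ := hn
      exact ⟨P, (hS P).2 hP⟩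
    · intro P hP
      rw [hS] at hP ⊢
      rw [fin_cj hc, cj_cj]
      exact ⟨hP.1, hP.2.symm⟩
    · intro P hP
      exact ((hS P).1 hP).2
  obtain ⟨ZZ, hZZd⟩ : ∃ ZZ : Finset (Place ℂ F), ZZ = Z ∪ (hsing.toFinset ∪ R) := ⟨_, rfl⟩
  have hZZ : ∀ P, P ∈ ZZ ↔ P ∈ Z ∨ (∃ z, SgC p z ∧ Over hF π P z) ∨ (¬ FinP π P ∧ s.cj P = P) := by
    intro P
    rw [hZZd, Finset.mem_union, Finset.mem_union, Set.Finite.mem_toFinset, hR]
    rfl
  have hdis : Disjoint ZZ S := by
    rw [Finset.disjoint_left]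
    intro P hP hP'
    rw [hS] at hP'
    rw [hZZ] at hP
    rcases hP with h | ⟨z, -, h⟩ | h
    · exact hP'.1 (hZf P h)
    · exact hP'.1 h.1
    · exact hP'.2 h.2
  have hcj : ∀ P ∈ ZZ, s.cj P ∈ ZZ := by
    intro P hP
    rw [hZZ] at hP ⊢
    rcases hP with h | ⟨z, hz, h⟩ | h
    · exact Or.inl (hZ P h)
    · exact Or.inr (Or.inl ⟨zbar z, sgc_bar46 hz, over_cj hF hc h⟩)
    · right
      right
      rw [h.2]
      exact h
  obtain ⟨yy, hyy⟩ : ∃ yy : Place ℂ F → F, yy = fun P => if P ∈ Z then y P else 0 := ⟨_, rfl⟩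
  have hyy1 : ∀ P, P ∈ Z → yy P = y P := fun P hP => by
    rw [hyy]
    exact if_pos hP
  have hyy2 : ∀ P, P ∉ Z → yy P = 0 := fun P hP => by
    rw [hyy]
    exact if_neg hP
  obtain ⟨x, hx1, hx2, hx3⟩ := appr_real s hF hSD ZZ hdis hcj yy (N : ℤ) (by
    intro P _
    by_cases hP : P ∈ Z
    · rw [hyy1 P hP, hyy1 _ (hZ P hP)]
      exact hy P hP
    · have h1 : s.cj P ∉ Z := fun h => hP (by
        have := hZ _ h
        rwa [cj_cj] at this)
      rw [hyy2 P hP, hyy2 _ h1, map_zero, sub_zero]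
      exact oge_zero)
  have hz0 : ∀ P, P ∈ ZZ → P ∉ Z → Oge P N x := by
    intro P hP hP'
    have := hx2 P hP
    rwa [hyy2 P hP', sub_zero] at this
  refine ⟨x, hx1, ?_, ?_, ?_, ?_⟩
  · intro P hP
    have := hx2 P ((hZZ P).2 (Or.inl hP))
    rwa [hyy1 P hP] at this
  · intro z hz P hP hP'
    exact hz0 P ((hZZ P).2 (Or.inr (Or.inl ⟨z, hz, hP⟩))) hP'
  · intro P hP hP'
    exact hz0 P ((hZZ P).2 (Or.inr (Or.inr ⟨hP, hP'⟩))) fun h => hP (hZf P h)
  · intro P hP hP'
    by_cases h : P ∈ ZZ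
    · exact (oge_zero_iff hF).1 ((hz0 P h hP').mono (Int.natCast_nonneg N))
    · exact hx3 P (fun h' => ((hS P).1 h').1 hP) h

theorem exists_jet (hc : IsCrv p s π) (hp : Irreducible p)
    (hn : ∃ P : Place ℂ F, ¬ FinP π P ∧ s.cj P ≠ P) (N M : ℕ) (Zp : Finset (Fin 2 → ℂ))
    (hZ : ∀ z ∈ Zp, zbar z ∈ Zp) (h : (Fin 2 → ℂ) → CP) (hh : ∀ z ∈ Zp, h (zbar z) = cjp (h z)) :
    ∃ a : A, (∀ z ∈ Zp, ∀ P, Over hF π P z → Oge P N (π (cx a) - π (h z))) ∧
      ∀ P : Place ℂ F, ¬ FinP π P → s.cj P = P → Oge P M (π (cx a)) := by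
  classical
  obtain ⟨N₀, hN₀⟩ := mem_high hF hc hp
  obtain ⟨K, hK1, hK2, hK3⟩ : ∃ K : ℕ, N ≤ K ∧ N₀ ≤ K ∧ M ≤ K :=
    ⟨max N (max N₀ M), le_max_left _ _, (le_max_left _ _).trans (le_max_right _ _),
      (le_max_right _ _).trans (le_max_right _ _)⟩
  have hfin : {P : Place ℂ F | ∃ z ∈ Zp, Over hF π P z}.Finite := by
    have h2 : {P : Place ℂ F | ∃ z ∈ Zp, Over hF π P z} ⊆
        ⋃ z ∈ (Zp : Set (Fin 2 → ℂ)), {P | Over hF π P z} := by
      rintro P ⟨z, hz, hP⟩
      exact Set.mem_biUnion (show z ∈ (Zp : Set (Fin 2 → ℂ)) from hz) hP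
    exact (Zp.finite_toSet.biUnion fun z _ => finite_over hF hc z).subset h2
  obtain ⟨Z, hZd⟩ : ∃ Z : Finset (Place ℂ F), Z = hfin.toFinset := ⟨_, rfl⟩
  have hZm : ∀ P, P ∈ Z ↔ ∃ z ∈ Zp, Over hF π P z := by
    intro P
    rw [hZd, Set.Finite.mem_toFinset]
    rfl
  obtain ⟨y, hyd⟩ : ∃ y : Place ℂ F → F, y = fun P => if hP : ∃ z ∈ Zp, Over hF π P z then
    π (h hP.choose) else 0 := ⟨_, rfl⟩
  have hy : ∀ z ∈ Zp, ∀ P, Over hF π P z → y P = π (h z) := by
    intro z hz P hP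
    have hex : ∃ z ∈ Zp, Over hF π P z := ⟨z, hz, hP⟩
    rw [hyd]
    dsimp only
    rw [dif_pos hex, over_inj hF hex.choose_spec.2 hP]
  obtain ⟨x, hx1, hx2, hx3, hx4, hx5⟩ := exists_fun hF hc hp hn K Z
    (by
      intro P hP
      obtain ⟨z, -, hP⟩ := (hZm P).1 hP
      exact hP.1)
    (by
      intro P hP
      obtain ⟨z, hz, hP⟩ := (hZm P).1 hP
      exact (hZm _).2 ⟨zbar z, hZ z hz, over_cj hF hc hP⟩) y
    (by
      intro P hP
      obtain ⟨z, hz, hP⟩ := (hZm P).1 hP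
      rw [hy z hz P hP, hy (zbar z) (hZ z hz) _ (over_cj hF hc hP), hc.conj, hh z hz, cjp_cjp, sub_self]
      exact oge_zero)
  obtain ⟨g, hg⟩ := hN₀ x
    (by
      intro P hP
      by_cases hPZ : P ∈ Z
      · obtain ⟨z, hz, hPz⟩ := (hZm P).1 hPZ
        have h1 := (hx2 P hPZ).mono (Int.natCast_nonneg K)
        rw [oge_zero_iff hF, hy z hz P hPz] at h1
        have h2 := P.ring.add_mem _ _ h1 (mem_of_fin hP (h z))
        rwa [sub_add_cancel] at h2
      · exact hx5 P hP hPZ)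
    (by
      intro z hz
      by_cases hzp : z ∈ Zp
      · refine ⟨h z, fun P hP => ?_⟩
        have h1 := hx2 P ((hZm P).2 ⟨z, hzp, hP⟩)
        rw [hy z hzp P hP] at h1
        exact h1.mono (by exact_mod_cast hK2)
      · refine ⟨0, fun P hP => ?_⟩
        rw [map_zero, sub_zero]
        refine (hx3 z hz P hP fun hPZ => ?_).mono (by exact_mod_cast hK2)
        obtain ⟨z', hz', hP'⟩ := (hZm P).1 hPZ
        rw [over_inj hF hP hP'] at hzp
        exact hzp hz')
  obtain ⟨a, ha⟩ := real_range hc hx1 ⟨g, hg⟩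
  refine ⟨a, fun z hz P hP => ?_, fun P hP hP' => ?_⟩
  · have h1 := hx2 P ((hZm P).2 ⟨z, hz, hP⟩)
    rw [hy z hz P hP] at h1
    rw [← ha]
    exact h1.mono (by exact_mod_cast hK1)
  · rw [← ha]
    exact (hx4 P hP hP').mono (by exact_mod_cast hK3)

include hF in
theorem exists_theta (hc : IsCrv p s π) (hp : Irreducible p)
    (hn : ∃ P : Place ℂ F, ¬ FinP π P ∧ s.cj P ≠ P) (M : ℕ) :
    ∃ (n : ℕ) (θ β : Fin n → A),
      (∀ i, ∀ P : Place ℂ F, ¬ FinP π P → s.cj P = P → Oge P M (π (cx (θ i)))) ∧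
      p ∣ 1 - ∑ i, β i * θ i := by
  classical
  obtain ⟨T, hT⟩ : ∃ T : Set A, T = {a | ∀ P : Place ℂ F, ¬ FinP π P → s.cj P = P → Oge P M (π (cx a))} :=
    ⟨_, rfl⟩
  have htop : Ideal.span {p} ⊔ Ideal.span T = ⊤ := by
    by_contra hne
    obtain ⟨m, hm, hle⟩ := Ideal.exists_le_maximal _ hne
    obtain ⟨z, rfl⟩ := exists_mz hm
    have hz : eval z (cx p) = 0 := by
      rw [← mem_mz]
      exact hle (Ideal.mem_sup_left (Ideal.mem_span_singleton_self p))
    have hzz : zbar (zbar z) = z := by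
      funext i
      exact Complex.conj_conj _
    obtain ⟨a, ha1, ha2⟩ := exists_jet hF hc hp hn 1 M {z, zbar z}
      (by
        intro w hw
        rw [Finset.mem_insert, Finset.mem_singleton] at hw ⊢
        rcases hw with rfl | rfl
        · exact Or.inr rfl
        · exact Or.inl hzz) (fun _ => 1) (fun w _ => by rw [map_one])
    have haT : a ∈ T := by
      rw [hT]
      exact ha2
    have h1 : eval z (cx a) = 0 := by
      rw [← mem_mz]
      exact hle (Ideal.mem_sup_right (Ideal.subset_span haT))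
    obtain ⟨P, hP⟩ := exists_over hF hc hz
    have h2 := ha1 z (Finset.mem_insert_self _ _) P hP
    have h3 := vl_over hF hP (cx a - 1)
    rw [map_sub, map_sub, map_one, map_one, h1, zero_sub] at h3
    have h4 : π (cx a) - 1 ∈ P.ring := P.ring.toSubring.sub_mem (mem_of_fin hP.1 _) P.ring.one_mem
    rw [map_one] at h2
    have h5 := (vl_eq_zero hF h4).2 h2
    rw [h5] at h3
    exact one_ne_zero (neg_eq_zero.1 h3.symm)
  have h1 : (1 : A) ∈ Ideal.span {p} ⊔ Ideal.span T := by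
    rw [htop]
    exact Submodule.mem_top
  obtain ⟨u, hu, v, hv, huv⟩ := Submodule.mem_sup.1 h1
  obtain ⟨n, β, θ, hβ⟩ := (Submodule.mem_span_set' (R := A) (s := T)).1 hv
  refine ⟨n, fun i => (θ i : A), β, fun i => ?_, ?_⟩
  · have hmem : ∀ a : A, a ∈ T → ∀ P : Place ℂ F, ¬ FinP π P → s.cj P = P → Oge P M (π (cx a)) := by
      intro a ha
      rw [hT] at ha
      exact ha
    exact hmem _ (θ i).2
  · have h2 : (1 : A) - ∑ i, β i * (θ i : A) = u := by
      rw [← huv, ← hβ]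
      simp only [smul_eq_mul]
      ring
    rw [h2]
    exact Ideal.mem_span_singleton.1 hu

end Pool.Agent.Helper10.GN
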