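import Pool.Agent.Helper10.GN.Bpf
import Pool.Agent.Helper10.GN.SosB

set_option autoImplicit false

/-!
# Project GN, block ORTH: orthonormal bases of `L (G - E)`

`f ≠ 0` a sum of squares of real functions, `E` a divisor with `E P + E (s.cj P) = ord_P f` for all `P`,
`G = dS S k`, `P j` (`j < N`) distinct real places, `N > 2 k S.card = deg (2G)`. If
`r = ℓ(G - E)` then `L (G - E)` has a basis `w a` with `κ a b = w a * σ (w b) / f` satisfying `Kap`.

Proof. For `w, w' ∈ L (G - E)`: `w σ(w') / f ∈ L (2G)`: at `P` the order is at least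
`(-G + E)(P) + (-G + E)(s.cj P) - ord_P f = - 2 G P` (`ord_cj`; `G (s.cj P) = G P`, `cjD_dS`).
`h(w, w') = ∑ j vl (P j) (w σ(w') / f)` is a Hermitian form (`vl_sigma`: the conjugate of
`w σ(w')/f` is `w' σ(w)/f`, `f` real), `h(w, w) ≥ 0` because `w σ w / f` is `Sos` (`Sos.mul_cj`, `Sos.div`,
`Sos.rv_nonneg`). If `h(w,w) = 0` then `w σ w / f` vanishes at all `P j`, so (if nonzero) lies in
`L (2G - ∑ P j)` of negative degree, so it is `0` (`FF.ell_eq_zero_of_deg_neg`), `w = 0`. A positive
definite Hermitian form on a finite-dimensional space has an orthonormal basis (`InnerProductSpace.Core`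
and `stdOrthonormalBasis`, or a direct induction; attention to the convention which variable is
conjugate-linear). `Kap`: `rk` is clear, `cj`: `s.σ f = f`, `pos`: the sum is
`(∑ v a • w a) σ(∑ v b • w b) / f`, which is `Sos`.
-/

namespace Pool.Agent.Helper10.GN

open VC FF

variable {F : Type} [Field F] [Algebra ℂ F]

/-- an orthonormal basis for a positive definite form -/
private theorem exists_onb {V : Type} [AddCommGroup V] [Module ℂ V] [FiniteDimensional ℂ V]
    (c : InnerProductSpace.Core ℂ V) {r : ℕ} (hr : Module.finrank ℂ V = r) :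
    ∃ w : Fin r → V, ∀ a b, c.inner (w a) (w b) = if a = b then 1 else 0 := by
  let _ : NormedAddCommGroup V := @InnerProductSpace.Core.toNormedAddCommGroup ℂ V _ _ _ c
  let _ : InnerProductSpace ℂ V := InnerProductSpace.ofCore c.toCore
  subst hr
  exact ⟨stdOrthonormalBasis ℂ V, fun a b =>
    orthonormal_iff_ite.1 (stdOrthonormalBasis ℂ V).orthonormal a b⟩

section

variable {s : RStr F} (hF : IsFunctionField ℂ F) {S : Finset (Place ℂ F)} (hS : SData s S)
  {k N : ℕ} {P : Fin N → Place ℂ F} (hP : ∀ j, s.cj (P j) = P j) {f : F} (hf0 : f ≠ 0)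
  (hf : Sos s f) {E : Place ℂ F →₀ ℤ} (hE : ∀ Q, E Q + E (s.cj Q) = ord Q.ring f)

include hF hS hf0 hE in
private theorem prod_mem {x y : F} (hx : x ∈ L (dS S k - E)) (hy : y ∈ L (dS S k - E)) :
    x * s.σ y / f ∈ L (dS S (2 * k)) := by
  rw [mem_L hF] at hx hy ⊢
  intro Q
  rw [oge_div_iff hF hf0]
  have h1 := hx Q
  have h2 := (oge_cj s hF).1 (hy (s.cj Q))
  have h3 := oge_mul hF h1 h2
  have h4 : dS S (k : ℤ) (s.cj Q) = dS S (k : ℤ) Q := by
    rw [← cjD_apply s, cjD_dS s hS]
  have h5 : dS S (2 * (k : ℤ)) Q = dS S (k : ℤ) Q + dS S (k : ℤ) Q := by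
    rw [two_mul, dS_add, Finsupp.add_apply]
  refine h3.mono (le_of_eq ?_)
  rw [Finsupp.sub_apply, Finsupp.sub_apply, h4, h5, ← hE Q]
  ring

include hS in
private theorem real_notMem {Q : Place ℂ F} (hQ : s.cj Q = Q) : Q ∉ S :=
  fun h => hS.cj_ne Q h hQ

include hF hS hf0 hE in
private theorem prod_ring {x y : F} (hx : x ∈ L (dS S k - E)) (hy : y ∈ L (dS S k - E))
    {Q : Place ℂ F} (hQ : s.cj Q = Q) : x * s.σ y / f ∈ Q.ring :=
  ((mem_L_dS_iff hF).1 (prod_mem hF hS hf0 hE hx hy)).2 Q (real_notMem hS hQ)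

include hF hS hf0 hf hE in
private theorem self_nonneg {x : F} (hx : x ∈ L (dS S k - E))
    {Q : Place ℂ F} (hQ : s.cj Q = Q) : 0 ≤ rv hF Q (x * s.σ x / f) :=
  ((Sos.mul_cj x).div hf).rv_nonneg hQ (prod_ring hF hS hf0 hE hx hx hQ)

include hF hf in
private theorem self_real {x : F} {Q : Place ℂ F} (hQ : s.cj Q = Q) :
    vl hF Q (x * s.σ x / f) = (rv hF Q (x * s.σ x / f) : ℂ) := by
  refine vl_real s hF hQ ?_
  rw [map_div₀, map_mul, s.inv, hf.real, mul_comm]

include hF hS hP hf0 hf hE in
private theorem self_zero (hPi : Function.Injective P) (hN : 2 * k * S.card < N) {x : F}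
    (hx : x ∈ L (dS S k - E)) (h : ∀ j, vl hF (P j) (x * s.σ x / f) = 0) : x = 0 := by
  classical
  obtain ⟨D, hD⟩ : ∃ D : Place ℂ F →₀ ℤ, D = dS S (2 * k) - ∑ j, Finsupp.single (P j) (1 : ℤ) :=
    ⟨_, rfl⟩
  have hdeg : deg D < 0 := by
    rw [hD, map_sub, map_sum, deg_dS]
    simp only [deg_single, Finset.sum_const, Finset.card_univ, Fintype.card_fin]
    rw [nsmul_eq_mul, mul_one]
    have : ((2 * k * S.card : ℕ) : ℤ) < (N : ℤ) := by exact_mod_cast hN
    push_cast at this
    linarith
  have hmem : x * s.σ x / f ∈ L D := by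
    rw [mem_L hF]
    intro Q
    have h1 := (mem_L hF).1 (prod_mem hF hS hf0 hE hx hx) Q
    by_cases hQ : ∃ j, P j = Q
    · obtain ⟨j, rfl⟩ := hQ
      have h2 := (vl_eq_zero hF (prod_ring hF hS hf0 hE hx hx (hP j))).1 (h j)
      refine h2.mono (le_of_eq ?_)
      rw [hD, Finsupp.sub_apply, Finsupp.finsetSum_apply,
        dS_notMem _ (real_notMem hS (hP j)), Finset.sum_eq_single j]
      · rw [Finsupp.single_eq_same]
        norm_num
      · intro i _ hi
        rw [Finsupp.single_apply, if_neg]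
        exact fun h' => hi (hPi h')
      · intro h'
        exact absurd (Finset.mem_univ _) h'
    · refine h1.mono (le_of_eq ?_)
      rw [hD, Finsupp.sub_apply, Finsupp.finsetSum_apply, Finset.sum_eq_zero, sub_zero]
      intro i _
      rw [Finsupp.single_apply, if_neg]
      exact fun h' => hQ ⟨i, h'⟩
  have hfin := finite_rr hF D
  have hbot : L D = ⊥ := Submodule.finrank_eq_zero.1 (ell_eq_zero_of_deg_neg hF hdeg)
  rw [hbot, Submodule.mem_bot] at hmem
  rcases div_eq_zero_iff.1 hmem with h1 | h1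
  · rcases mul_eq_zero.1 h1 with h2 | h2
    · exact h2
    · rw [← s.inv x, h2, map_zero]
  · exact absurd h1 hf0

end

theorem orth {s : RStr F} (hF : IsFunctionField ℂ F) {S : Finset (Place ℂ F)} (hS : SData s S)
    {k N r : ℕ} {P : Fin N → Place ℂ F} (hP : ∀ j, s.cj (P j) = P j)
    (hPi : Function.Injective P) (hN : 2 * k * S.card < N) {f : F} (hf0 : f ≠ 0) (hf : Sos s f)
    {E : Place ℂ F →₀ ℤ} (hE : ∀ Q, E Q + E (s.cj Q) = ord Q.ring f)
    (hr : ell (dS S k - E) = r) :
    ∃ w : Fin r → F, (∀ a, w a ∈ L (dS S k - E)) ∧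
      Kap s hF S k P (fun a b => w a * s.σ (w b) / f) := by
  obtain ⟨c, hc⟩ : ∃ c : InnerProductSpace.Core ℂ (L (dS S k - E)),
      ∀ x y, c.inner x y = ∑ j, vl hF (P j) ((y : F) * s.σ (x : F) / f) := by
    refine ⟨{ inner := fun x y => ∑ j, vl hF (P j) ((y : F) * s.σ (x : F) / f)
              conj_inner_symm := ?_
              re_inner_nonneg := ?_
              add_left := ?_
              smul_left := ?_
              definite := ?_ }, fun x y => rfl⟩
    · intro x y
      rw [map_sum]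
      refine Finset.sum_congr rfl fun j _ => ?_
      rw [← vl_sigma s hF (hP j) (prod_ring hF hS hf0 hE x.2 y.2 (hP j)), map_div₀, map_mul,
        s.inv, hf.real, mul_comm]
    · intro x
      show 0 ≤ (∑ j, vl hF (P j) ((x : F) * s.σ (x : F) / f)).re
      rw [Complex.re_sum]
      exact Finset.sum_nonneg fun j _ => self_nonneg hF hS hf0 hf hE x.2 (hP j)
    · intro x y z
      rw [← Finset.sum_add_distrib]
      refine Finset.sum_congr rfl fun j _ => ?_
      rw [← vl_add hF (prod_ring hF hS hf0 hE z.2 x.2 (hP j))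
        (prod_ring hF hS hf0 hE z.2 y.2 (hP j))]
      congr 1
      rw [Submodule.coe_add, map_add]
      ring
    · intro x y c
      rw [Finset.mul_sum]
      refine Finset.sum_congr rfl fun j _ => ?_
      rw [← vl_smul hF _ (prod_ring hF hS hf0 hE y.2 x.2 (hP j))]
      congr 1
      rw [Submodule.coe_smul, Algebra.smul_def, Algebra.smul_def, map_mul, s.alg]
      ring
    · intro x hx
      have h1 : ∑ j, vl hF (P j) ((x : F) * s.σ (x : F) / f) = 0 := hx
      have h2 : ∑ j, rv hF (P j) ((x : F) * s.σ (x : F) / f) = 0 := by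
        have := congrArg Complex.re h1
        rw [Complex.re_sum] at this
        exact this
      rw [Finset.sum_eq_zero_iff_of_nonneg
        fun j _ => self_nonneg hF hS hf0 hf hE x.2 (hP j)] at h2
      apply Subtype.ext
      refine self_zero hF hS hP hf0 hf hE hPi hN x.2 fun j => ?_
      rw [self_real hF hf (hP j), h2 j (Finset.mem_univ _), Complex.ofReal_zero]
  have hfin := finite_rr hF (dS S k - E)
  obtain ⟨w, hw⟩ := exists_onb c hr
  refine ⟨fun a => (w a : F), fun a => (w a).2, ?_, ?_, ?_, ?_, ?_⟩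
  · intro a b
    exact prod_mem hF hS hf0 hE (w a).2 (w b).2
  · intro a b
    rw [map_div₀, map_mul, s.inv, hf.real, mul_comm]
  · intro a b c d
    ring
  · intro a b
    have h1 := hw b a
    rw [hc] at h1
    rw [h1]
    simp only [eq_comm]
  · intro v Q hQ
    have hz : ∑ a, v a • (w a : F) ∈ L (dS S k - E) :=
      Submodule.sum_mem _ fun a _ => Submodule.smul_mem _ _ (w a).2
    have e : ∑ a, ∑ b, (v a * (starRingEnd ℂ) (v b)) • ((w a : F) * s.σ (w b : F) / f) =
        (∑ a, v a • (w a : F)) * s.σ (∑ a, v a • (w a : F)) / f := by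
      rw [map_sum, Finset.sum_mul_sum, Finset.sum_div]
      refine Finset.sum_congr rfl fun a _ => ?_
      rw [Finset.sum_div]
      refine Finset.sum_congr rfl fun b _ => ?_
      rw [Algebra.smul_def, Algebra.smul_def, Algebra.smul_def, map_mul, map_mul, s.alg]
      ring
    rw [e]
    exact self_nonneg hF hS hf0 hf hE hz hQ

end Pool.Agent.Helper10.GN
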