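import Pool.Agent.Helper10.GN.Conj

set_option autoImplicit false

/-!
# Project GN, block PEN: the base point free pencil trick

`h i ∈ L D` (`i` in a finite type), and at every place `Q` some `h i` has order exactly `- D Q`. Then for all
`D₁` of large degree (bound independent of the `h i`) `L (D₁ + D) = ∑ i, L D₁ * h i`.

Proof. Let `c` be the constant of `FF.ell_eq_of_large` (`FF.exists_genus`). `deg D ≥ 0`: some `h i ≠ 0` and
`ord h i ≥ - D` sums to `0 ≥ - deg D` (`FF.deg_dv`). Let `h₀ = h i₀ ≠ 0` and let `Z` be the finite set of places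
with `ord h₀ ≠ - D Q`, i.e. `ord_Q h₀ > - D Q`. Choose `h₁ = ∑ t_i • h i` with
`ord_Q h₁ = - D Q` for all `Q ∈ Z`: for `Q ∈ Z` the set of `t ∈ ℂ^ι` with
`ord_Q (∑ t_i • h i) > - D Q` or the sum zero is a proper subspace (proper because of the hypothesis), and finitely many proper
subspaces do not cover `ℂ^ι` (`Subspace.biUnion_ne_univ_of_top_notMem` or so, or induction). (If `Z = ∅` take `h₁ = h₀`.) The
map `L D₁ × L D₁ → L (D₁ + D)`, `(x, y) ↦ x h₀ + y h₁`, has the kernel
`{(z h₁, - z h₀) : z ∈ L (D₁ - D)}`: if `x h₀ = - y h₁` put `z = x / h₁ = - y / h₀` (`h₁ ≠ 0`; if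
`Z = ∅`, `h₁ = h₀`, also fine); at a place
`Q` with `ord h₁ = - D Q`: `ord z = ord x + D Q ≥ - D₁ Q + D Q`; otherwise `Q ∉ Z`, `ord h₀ = - D Q`
and `ord z = ord y + D Q`. So the image has dimension `2 ℓ(D₁) - ℓ(D₁ - D)`, which is
`2 (d₁ + 1 - g) - (d₁ - d + 1 - g) = d₁ + d + 1 - g = ℓ(D₁ + D)` if `d₁ - d ≥ c` (`d ≥ 0`). So it
is everything, and `h₁` is a combination of the `h i`.
-/

namespace Pool.Agent.Helper10.GN

open VC FF

variable {F : Type} [Field F] [Algebra ℂ F] (hF : IsFunctionField ℂ F)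
include hF

theorem pencil : ∃ c : ℤ, ∀ (ι : Type) [Fintype ι] (D : Place ℂ F →₀ ℤ) (h : ι → F),
    (∀ i, h i ∈ L D) → (∀ Q : Place ℂ F, ∃ i, h i ≠ 0 ∧ ord Q.ring (h i) = - D Q) →
    ∀ D₁ : Place ℂ F →₀ ℤ, c ≤ deg D₁ - deg D → ∀ y ∈ L (D₁ + D),
      ∃ a : ι → F, (∀ i, a i ∈ L D₁) ∧ y = ∑ i, a i * h i := by
  classical
  obtain ⟨g, hg⟩ := exists_genus hF
  obtain ⟨c, hc⟩ := ell_eq_of_large hF hg
  refine ⟨c, fun ι _ D h hL hQ D₁ hD₁ y hy => ?_⟩
  -- a nonzero generator
  obtain ⟨i₀, hi₀⟩ : ∃ i, h i ≠ 0 := by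
    obtain ⟨x, hx, -⟩ := id hF
    obtain ⟨P, -⟩ := FF.exists_place hx
    obtain ⟨i, hi, _⟩ := hQ P
    exact ⟨i, hi⟩
  have hord : ∀ f : F, f ≠ 0 → f ∈ L D → ∀ P : Place ℂ F, - D P ≤ ord P.ring f := by
    intro f hf0 hf P
    have := (mem_rr hF D hf0).mp hf P
    omega
  have hdegD : 0 ≤ deg D := by
    have h1 : deg (dv hF (h i₀) + D) = deg D := by
      rw [map_add, deg_dv hF hi₀, zero_add]
    rw [← h1]
    apply deg_nonneg
    intro P
    rw [Finsupp.add_apply, dv_apply]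
    have := hord _ hi₀ (hL i₀) P
    omega
  -- the bad places
  set Z : Finset (Place ℂ F) := (dv hF (h i₀) + D).support with hZ
  have hZ' : ∀ Q, Q ∉ Z → ord Q.ring (h i₀) = - D Q := by
    intro Q hQ'
    rw [hZ, Finsupp.notMem_support_iff, Finsupp.add_apply, dv_apply] at hQ'
    omega
  -- the linear combination map
  let Φ : (ι → ℂ) →ₗ[ℂ] F := Fintype.linearCombination ℂ h
  have hΦ : ∀ t, Φ t = ∑ i, t i • h i := fun t => by
    rw [Fintype.linearCombination_apply]
  have hΦL : ∀ t, Φ t ∈ L D := by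
    intro t
    rw [hΦ]
    exact Submodule.sum_mem _ fun i _ => Submodule.smul_mem _ _ (hL i)
  have hΦs : ∀ i, Φ (Pi.single i 1) = h i := by
    intro i
    rw [hΦ, Finset.sum_eq_single i]
    · rw [Pi.single_eq_same, one_smul]
    · intro j _ hj
      rw [Pi.single_eq_of_ne hj, zero_smul]
    · intro hi
      exact absurd (Finset.mem_univ i) hi
  let B : Finset (Subspace ℂ (ι → ℂ)) :=
    insert (LinearMap.ker Φ) (Z.image fun Q => (L (D - Finsupp.single Q 1)).comap Φ)
  have hB : (⊤ : Subspace ℂ (ι → ℂ)) ∉ B := by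
    intro hmem
    rcases Finset.mem_insert.mp hmem with h1 | h1
    · have h2 : Pi.single i₀ (1 : ℂ) ∈ LinearMap.ker Φ := by
        rw [← h1]; exact Submodule.mem_top
      rw [LinearMap.mem_ker, hΦs] at h2
      exact hi₀ h2
    · obtain ⟨Q, _, hQ2⟩ := Finset.mem_image.mp h1
      obtain ⟨i, hi, hiQ⟩ := hQ Q
      have h2 : Pi.single i (1 : ℂ) ∈ (L (D - Finsupp.single Q 1)).comap Φ := by
        rw [hQ2]; exact Submodule.mem_top
      rw [Submodule.mem_comap, hΦs] at h2
      have h3 := (mem_rr hF _ hi).mp h2 Q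
      rw [Finsupp.sub_apply, Finsupp.single_eq_same] at h3
      omega
  obtain ⟨t, ht⟩ : ∃ t : ι → ℂ, ∀ V ∈ B, t ∉ V := by
    by_contra hcon
    push Not at hcon
    apply Subspace.biUnion_ne_univ_of_top_notMem hB
    apply Set.eq_univ_of_forall
    intro t
    obtain ⟨V, hV, htV⟩ := hcon t
    exact Set.mem_biUnion hV htV
  set h₁ : F := Φ t with hh₁
  have hh₁0 : h₁ ≠ 0 := by
    intro h0
    exact ht _ (Finset.mem_insert_self _ _) (LinearMap.mem_ker.mpr h0)
  have hh₁Z : ∀ Q ∈ Z, ord Q.ring h₁ = - D Q := by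
    intro Q hQZ
    have h1 := ht _ (Finset.mem_insert_of_mem (Finset.mem_image_of_mem _ hQZ))
    rw [Submodule.mem_comap] at h1
    have h2 := hord h₁ hh₁0 (hΦL t)
    by_contra hne
    apply h1
    rw [mem_rr hF _ hh₁0]
    intro P
    have h3 := h2 P
    rw [Finsupp.sub_apply, Finsupp.single_apply]
    split_ifs with hQP
    · subst hQP
      omega
    · omega
  -- the map
  have hm0 : ∀ x ∈ L D₁, x * h i₀ ∈ L (D₁ + D) := by
    intro x hx
    rcases eq_or_ne x 0 with h0 | h0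
    · rw [h0, zero_mul]; exact Submodule.zero_mem _
    · rw [mem_rr hF _ (mul_ne_zero h0 hi₀)]
      intro P
      have h1 := (mem_rr hF _ h0).mp hx P
      have h2 := hord _ hi₀ (hL i₀) P
      rw [FF.ord_mul hF P h0 hi₀, Finsupp.add_apply]
      omega
  have hm1 : ∀ x ∈ L D₁, x * h₁ ∈ L (D₁ + D) := by
    intro x hx
    rcases eq_or_ne x 0 with h0 | h0
    · rw [h0, zero_mul]; exact Submodule.zero_mem _
    · rw [mem_rr hF _ (mul_ne_zero h0 hh₁0)]
      intro P
      have h1 := (mem_rr hF _ h0).mp hx P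
      have h2 := hord _ hh₁0 (hΦL t) P
      rw [FF.ord_mul hF P h0 hh₁0, Finsupp.add_apply]
      omega
  have := finite_rr hF D₁
  have := finite_rr hF (D₁ - D)
  have := finite_rr hF (D₁ + D)
  let Ψ : (L D₁ × L D₁) →ₗ[ℂ] L (D₁ + D) :=
    { toFun := fun p => ⟨p.1.1 * h i₀ + p.2.1 * h₁,
        Submodule.add_mem _ (hm0 _ p.1.2) (hm1 _ p.2.2)⟩
      map_add' := by
        intro p q
        apply Subtype.ext
        change ((p.1 : F) + q.1) * h i₀ + ((p.2 : F) + q.2) * h₁ =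
          (p.1 * h i₀ + p.2 * h₁) + (q.1 * h i₀ + q.2 * h₁)
        ring
      map_smul' := by
        intro a p
        apply Subtype.ext
        change (a • (p.1 : F)) * h i₀ + (a • (p.2 : F)) * h₁ = a • (p.1 * h i₀ + p.2 * h₁)
        simp only [Algebra.smul_def]
        ring }
  have hΨ : ∀ p, ((Ψ p : L (D₁ + D)) : F) = p.1.1 * h i₀ + p.2.1 * h₁ := fun _ => rfl
  have hkerm : ∀ p : LinearMap.ker Ψ, (p.1.1 : F) / h₁ ∈ L (D₁ - D) := by
    intro p
    have h0 : (p.1.1 : F) * h i₀ + p.1.2 * h₁ = 0 := by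
      rw [← hΨ]
      have := LinearMap.mem_ker.mp p.2
      rw [this]
      rfl
    rcases eq_or_ne (p.1.1 : F) 0 with hx0 | hx0
    · rw [hx0, zero_div]; exact Submodule.zero_mem _
    · have hy0 : (p.1.2 : F) ≠ 0 := by
        intro hy0
        rw [hy0, zero_mul, add_zero] at h0
        exact (mul_ne_zero hx0 hi₀) h0
      have h2 : (p.1.1 : F) / h₁ = - ((p.1.2 : F) / h i₀) := by
        field_simp
        linear_combination h0
      rw [mem_rr hF _ (div_ne_zero hx0 hh₁0)]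
      intro Q
      rw [Finsupp.sub_apply]
      have ha := (mem_rr hF _ hx0).mp p.1.1.2 Q
      have hb := (mem_rr hF _ hy0).mp p.1.2.2 Q
      by_cases hQZ : Q ∈ Z
      · rw [FF.ord_div hF Q hx0 hh₁0, hh₁Z Q hQZ]
        omega
      · rw [h2, FF.ord_neg hF Q (div_ne_zero hy0 hi₀), FF.ord_div hF Q hy0 hi₀, hZ' Q hQZ]
        omega
  let Θ : LinearMap.ker Ψ →ₗ[ℂ] L (D₁ - D) :=
    { toFun := fun p => ⟨(p.1.1 : F) / h₁, hkerm p⟩
      map_add' := by
        intro p q
        apply Subtype.ext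
        change ((p.1.1 : F) + q.1.1) / h₁ = p.1.1 / h₁ + q.1.1 / h₁
        ring
      map_smul' := by
        intro a p
        apply Subtype.ext
        change (a • (p.1.1 : F)) / h₁ = a • ((p.1.1 : F) / h₁)
        simp only [Algebra.smul_def]
        ring }
  have hker0 : ∀ p : LinearMap.ker Ψ, (p.1.1 : F) * h i₀ + p.1.2 * h₁ = 0 := by
    intro p
    rw [← hΨ]
    have := LinearMap.mem_ker.mp p.2
    rw [this]
    rfl
  have hΘ : Function.Injective Θ := by
    intro p q hpq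
    have h1 : (p.1.1 : F) / h₁ = (q.1.1 : F) / h₁ := congrArg Subtype.val hpq
    have hx : (p.1.1 : F) = q.1.1 := (div_left_inj' hh₁0).mp h1
    have hp0 := hker0 p
    have hq0 := hker0 q
    rw [hx] at hp0
    have hy' : (p.1.2 : F) = q.1.2 := by
      apply mul_right_cancel₀ hh₁0
      linear_combination hp0 - hq0
    apply Subtype.ext
    exact Prod.ext (Subtype.ext hx) (Subtype.ext hy')
  have hsurj : LinearMap.range Ψ = ⊤ := by
    apply Submodule.eq_top_of_finrank_eq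
    apply le_antisymm (Submodule.finrank_le _)
    have h1 := LinearMap.finrank_range_add_finrank_ker Ψ
    have h2 := LinearMap.finrank_le_finrank_of_injective hΘ
    rw [Module.finrank_prod] at h1
    have h3 := hc D₁ (by omega)
    have h4 := hc (D₁ - D) (by rw [map_sub]; omega)
    have h5 := hc (D₁ + D) (by rw [map_add]; omega)
    rw [map_sub] at h4
    rw [map_add] at h5
    change Module.finrank ℂ (L (D₁ + D)) ≤ _
    change ((Module.finrank ℂ (L D₁) : ℕ) : ℤ) = _ at h3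
    change ((Module.finrank ℂ (L (D₁ - D)) : ℕ) : ℤ) = _ at h4
    change ((Module.finrank ℂ (L (D₁ + D)) : ℕ) : ℤ) = _ at h5
    omega
  obtain ⟨p, hp⟩ : ∃ p, Ψ p = ⟨y, hy⟩ := by
    have : (⟨y, hy⟩ : L (D₁ + D)) ∈ LinearMap.range Ψ := by rw [hsurj]; exact Submodule.mem_top
    exact this
  have hp' : (p.1.1 : F) * h i₀ + p.2.1 * h₁ = y := by
    rw [← hΨ, hp]
  refine ⟨fun i => (if i = i₀ then (p.1 : F) else 0) + t i • (p.2 : F), fun i => ?_, ?_⟩
  · refine Submodule.add_mem _ ?_ (Submodule.smul_mem _ _ p.2.2)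
    split_ifs
    · exact p.1.2
    · exact Submodule.zero_mem _
  · rw [← hp', hh₁, hΦ, Finset.mul_sum]
    simp only [add_mul, ite_mul, zero_mul, Finset.sum_add_distrib, Finset.sum_ite_eq',
      Finset.mem_univ, if_true]
    congr 1
    apply Finset.sum_congr rfl
    intro i _
    rw [smul_mul_assoc, mul_smul_comm]

end Pool.Agent.Helper10.GN
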