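import Mathlib

set_option autoImplicit false

/-!
# Project GN, block PERT (Mathlib only): perturbation of a surjective linear map

`Φ_x = ∑ j, x j • Φ j : W → V`, `V` finite-dimensional, `Φ_{x₀}` surjective. There are finitely many
vectors `a l` of `W` such that for `x` near `x₀` the equation `Φ_x (w₀ - ∑ c l • a l) = Φ_{x₀} w₀` has a
solution with small coefficients `c l`.

Proof. Let `b l` be a basis of `V` (`Module.finBasis ℝ V`) and `a l` with `Φ_{x₀} (a l) = b l`. In the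
coordinates of the basis let `A x` be the matrix with columns `Φ_x (a l)` (entries are linear in `x`, so
`A` is continuous, `A x₀ = 1`) and `d x` the coordinate vector of `Φ_x w₀ - Φ_{x₀} w₀` (continuous,
`d x₀ = 0`). Near `x₀` the determinant of `A x` is nonzero, `c x = (A x)⁻¹ *ᵥ d x` is continuous at `x₀`
with `c x₀ = 0`, and `Φ_x (w₀ - ∑ c l • a l) = Φ_x w₀ - (Φ_x w₀ - Φ_{x₀} w₀)`.
-/

namespace Pool.Agent.Helper10.GN

theorem pert {V W : Type*} [AddCommGroup V] [Module ℝ V] [FiniteDimensional ℝ V]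
    [AddCommGroup W] [Module ℝ W] {ι : Type*} [Fintype ι] (Φ : ι → W →ₗ[ℝ] V) (x₀ : ι → ℝ)
    (hsurj : ∀ v : V, ∃ w : W, ∑ j, x₀ j • Φ j w = v) (w₀ : W) :
    ∃ (n : ℕ) (a : Fin n → W), ∀ δ : ℝ, 0 < δ → ∃ η : ℝ, 0 < η ∧
      ∀ x : ι → ℝ, dist x x₀ < η → ∃ c : Fin n → ℝ, (∀ l, |c l| < δ) ∧
        ∑ j, x j • Φ j (w₀ - ∑ l, c l • a l) = ∑ j, x₀ j • Φ j w₀ := by
  classical
  obtain ⟨n, hn⟩ : ∃ n, n = Module.finrank ℝ V := ⟨_, rfl⟩
  obtain ⟨b, -⟩ : ∃ b : Module.Basis (Fin n) ℝ V, True := ⟨(Module.finBasis ℝ V).reindex (finCongr hn.symm), trivial⟩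
  choose a ha using fun l => hsurj (b l)
  refine ⟨n, a, fun δ hδ => ?_⟩
  let A : (ι → ℝ) → Matrix (Fin n) (Fin n) ℝ := fun x => Matrix.of fun k l => b.repr (∑ j, x j • Φ j (a l)) k
  let d : (ι → ℝ) → Fin n → ℝ := fun x k => b.repr (∑ j, x j • Φ j w₀ - ∑ j, x₀ j • Φ j w₀) k
  have hA : Continuous A := by
    refine continuous_matrix fun k l => ?_
    have h1 : (fun x : ι → ℝ => A x k l) = fun x => ∑ j, x j * b.repr (Φ j (a l)) k := by
      funext x
      simp only [A, Matrix.of_apply, map_sum, map_smul, Finsupp.coe_finsetSum, Finset.sum_apply, Finsupp.smul_apply, smul_eq_mul]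
    rw [h1]
    fun_prop
  have hd : Continuous d := by
    refine continuous_pi fun k => ?_
    have h1 : (fun x : ι → ℝ => d x k) = fun x => ∑ j, x j * b.repr (Φ j w₀) k - ∑ j, x₀ j * b.repr (Φ j w₀) k := by
      funext x
      simp only [d, map_sub, map_sum, map_smul, Finsupp.coe_sub, Pi.sub_apply, Finsupp.coe_finsetSum, Finset.sum_apply,
        Finsupp.smul_apply, smul_eq_mul]
    rw [h1]
    fun_prop
  have hA0 : A x₀ = 1 := by
    ext k l
    simp only [A, Matrix.of_apply, ha, b.repr_self]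
    rw [Matrix.one_apply, Finsupp.single_apply]
    simp [eq_comm]
  have hd0 : d x₀ = 0 := by
    funext k
    simp [d]
  let c : (ι → ℝ) → Fin n → ℝ := fun x => ((A x).det)⁻¹ • Matrix.mulVec (A x).adjugate (d x)
  have hc : ContinuousAt c x₀ := by
    refine ContinuousAt.smul (ContinuousAt.inv₀ hA.matrix_det.continuousAt ?_) ?_
    · rw [hA0, Matrix.det_one]
      exact one_ne_zero
    · exact (Continuous.matrix_mulVec hA.matrix_adjugate hd).continuousAt
  have hc0 : c x₀ = 0 := by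
    simp only [c, hd0, Matrix.mulVec_zero, smul_zero]
  have h1 : ∀ᶠ x in nhds x₀, ∀ l, |c x l| < δ := by
    have h2 : ∀ᶠ x in nhds x₀, dist (c x) (c x₀) < δ := hc (Metric.ball_mem_nhds _ hδ)
    refine h2.mono fun x hx l => ?_
    rw [hc0, dist_zero_right] at hx
    exact lt_of_le_of_lt (norm_le_pi_norm (c x) l) hx
  have h2 : ∀ᶠ x in nhds x₀, (A x).det ≠ 0 := by
    refine hA.matrix_det.continuousAt.eventually_ne ?_
    rw [hA0, Matrix.det_one]
    exact one_ne_zero
  obtain ⟨η, hη, h3⟩ := Metric.eventually_nhds_iff.1 (h1.and h2)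
  refine ⟨η, hη, fun x hx => ⟨c x, (h3 hx).1, ?_⟩⟩
  have h4 : Matrix.mulVec (A x) (c x) = d x := by
    simp only [c, Matrix.mulVec_smul, Matrix.mulVec_mulVec, Matrix.mul_adjugate, Matrix.smul_mulVec, Matrix.one_mulVec]
    rw [smul_smul, inv_mul_cancel₀ (h3 hx).2, one_smul]
  have h5 : ∑ l, c x l • ∑ j, x j • Φ j (a l) = ∑ j, x j • Φ j w₀ - ∑ j, x₀ j • Φ j w₀ := by
    apply b.repr.injective
    ext k
    have h6 := congrFun h4 k
    simp only [Matrix.mulVec, dotProduct, A, d, Matrix.of_apply] at h6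
    rw [← h6]
    rw [map_sum, Finsupp.coe_finsetSum, Finset.sum_apply]
    refine Finset.sum_congr rfl fun l _ => ?_
    rw [map_smul, Finsupp.smul_apply, smul_eq_mul, mul_comm]
  have h6 : ∑ j, x j • Φ j (w₀ - ∑ l, c x l • a l) = ∑ j, x j • Φ j w₀ - ∑ l, c x l • ∑ j, x j • Φ j (a l) := by
    simp only [map_sub, map_sum, map_smul, smul_sub, Finset.sum_sub_distrib, Finset.smul_sum]
    congr 1
    rw [Finset.sum_comm]
    refine Finset.sum_congr rfl fun l _ => Finset.sum_congr rfl fun j _ => ?_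
    rw [smul_comm]
  rw [h6, h5]
  abel

end Pool.Agent.Helper10.GN
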