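import Pool.Agent.Helper10.GN.PosB
import Pool.Agent.Helper10.GN.Pert

set_option autoImplicit false

/-!
# Project GN, block PSC: bounded certificates for a compact family

`S i x = ∑ j, x j • Y i j` (`i < N`) are real functions depending linearly on the real parameter `x`, with
poles in `S` only, nonnegative at the real places for `x ∈ K` (compact), and such that for all
`m ≥ m₀` every real `y ∈ L ((m+k) S)` is a combination `∑ a_i S_i(x)` with real `a_i ∈ L (m S)`. Then there is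
a bound `m'` such that for all `x ∈ K`: `∑ i, σ_i S_i(x) = 1` with `σ_i` sums of products `v σ v`,
`v ∈ L (m' S)`.

Proof. By compactness (`IsCompact.elim_nhds_subcover` or `IsCompact.induction_on`; the conclusion is
monotone in `m'`, `HS.mono`) it is enough to find for every `x₀ ∈ K` an `m'` which works for all `x ∈ K`
(indeed for all `x`) near `x₀`.
(1) At `x₀`: `1 ∈ L ((m₀+k) S)`, so `1 = ∑ a_i S_i`, `a_i ∈ L (m₀ S)` real. `u = ∑ S_i ≥ 0` on the real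
places; `u(P) = 0` would give all `S_i(P) = 0` and `1 = 0`; so `u > 0`, by `bdd`, `lower`
`0 < δ ≤ u ≤ C` on the real places, `|a_i| ≤ A`. Let `q = 1 - δ/C < 1`,
`γ = (1/C) ∑_{k<n} (1 - u/C)^k`, so `1 - γ u = (1 - u/C)^n` and on the real places
`γ ≥ 1/C` (the term `k = 0`; `0 ≤ 1 - u/C ≤ q`), `|a_i (1 - γ u)| ≤ A q^n ≤ 1/(2C)` for large `n`. So
`τ_i = γ + a_i (1 - γ u)` is real, regular outside `S`, `τ_i ≥ 1/(2C) > 0` on the real places and
`∑ τ_i S_i = γ u + (1 - γ u) = 1`. By `posB` there are `m₁`, `ε > 0` with `HS s (dS S m₁) (τ_i - ε)`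
for all `i`.
(2) Near `x₀`: let `m₂ ≥ m₀` with `τ_i ∈ L (m₂ S)` for all `i` (`exists_mem_L_dS`), `W` the real vector
space of all `a : Fin N → F` with `a i ∈ L (m₂ S)` real, `V` the real vector space of the real elements of
`L ((m₂+k) S)` (finite-dimensional), `Φ j a = ∑ i, a i * Y i j`, which is surjective at `x₀`. `pert` with
`w₀ = τ` gives finitely many `a l ∈ W` such that near `x₀`: `∑ i, (τ_i - ∑ l, c l • a l i) S_i(x) = 1`
with small `c l`. By `inter` there are `m₃` and `ε' > 0` with `HS s (dS S m₃) (1 ± ε' a l i)` for all `l, i`. If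
`|c l| ≤ ε ε' / (n+1)` for the `n` indices `l` then
`τ_i - ∑ c l a l i = (τ_i - ε) + (ε - ∑_l |c l|/ε') + ∑_l (|c l|/ε') (1 ∓ ε' a l i)` is `HS` with
`m' = max m₁ m₃` (`HS.smul`, `HS.const`, `HS.mono`).
-/

namespace Pool.Agent.Helper10.GN

open VC FF

variable {F : Type} [Field F] [Algebra ℂ F] {s : RStr F} (hF : IsFunctionField ℂ F)

/-- value at a real place, as a homomorphism -/
private noncomputable def ph10 {S : Finset (Place ℂ F)} (hS : SData s S) {P : Place ℂ F} (hP : s.cj P = P) :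
    BSub s S →ₐ[ℝ] ℝ where
  toFun b := rv hF P (b : F)
  map_one' := by
    have h := rv_ofReal hF (P := P) 1
    rw [Complex.ofReal_one, map_one] at h
    exact h
  map_mul' a b := rv_mul s hF hP (a.2.2 P fun h => hS.cj_ne P h hP) (b.2.2 P fun h => hS.cj_ne P h hP) a.2.1 b.2.1
  map_zero' := by
    have h := rv_ofReal hF (P := P) 0
    rw [Complex.ofReal_zero, map_zero] at h
    exact h
  map_add' a b := rv_add hF (a.2.2 P fun h => hS.cj_ne P h hP) (b.2.2 P fun h => hS.cj_ne P h hP)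
  commutes' r := rv_ofReal hF r

private theorem step1_10 {S : Finset (Place ℂ F)} (hS : SData s S) {N : ℕ} (T a : Fin N → BSub s S)
    (hT : ∀ i, ∀ P, ∀ hP : s.cj P = P, 0 ≤ ph10 hF hS hP (T i)) (ha : ∑ i, a i * T i = 1) :
    ∃ τ : Fin N → BSub s S, (∀ i, ∀ P, ∀ hP : s.cj P = P, 0 < ph10 hF hS hP (τ i)) ∧ ∑ i, τ i * T i = 1 := by
  have hreg : ∀ b : BSub s S, Reg s (b : F) := fun b P hP => b.2.2 P fun h => hS.cj_ne P h hP
  have hbd : ∀ b : BSub s S, ∃ C : ℝ, 0 < C ∧ ∀ P, ∀ hP : s.cj P = P, |ph10 hF hS hP b| ≤ C := by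
    intro b
    obtain ⟨C, hC, h⟩ := bdd hF (hreg b)
    exact ⟨C, hC, fun P hP => (Complex.abs_re_le_norm _).trans (h P hP)⟩
  have hu0 : ∀ P, ∀ hP : s.cj P = P, 0 < ph10 hF hS hP (∑ i, T i) := by
    intro P hP
    rw [map_sum]
    refine lt_of_le_of_ne (Finset.sum_nonneg fun i _ => hT i P hP) fun h => ?_
    have h1 := (Finset.sum_eq_zero_iff_of_nonneg fun i _ => hT i P hP).1 h.symm
    have h2 : ph10 hF hS hP (∑ i, a i * T i) = 0 := by
      rw [map_sum]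
      refine Finset.sum_eq_zero fun i hi => ?_
      rw [map_mul, h1 i hi, mul_zero]
    rw [ha, map_one] at h2
    exact one_ne_zero h2
  obtain ⟨δ, hδ, hδu⟩ := lower hF (∑ i, T i : BSub s S).2.1 (hreg _) hu0
  obtain ⟨C₀, hC₀, hC₀u⟩ := hbd (∑ i, T i)
  obtain ⟨C, hC, hCδ, hCu⟩ : ∃ C : ℝ, 0 < C ∧ δ ≤ C ∧ ∀ P, ∀ hP : s.cj P = P, ph10 hF hS hP (∑ i, T i) ≤ C :=
    ⟨max C₀ δ, lt_max_of_lt_left hC₀, le_max_right _ _, fun P hP => ((le_abs_self _).trans (hC₀u P hP)).trans (le_max_left _ _)⟩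
  choose A₀ hA₀ hA₀a using fun i => hbd (a i)
  obtain ⟨A, hA, hAa⟩ : ∃ A : ℝ, 0 < A ∧ ∀ i, ∀ P, ∀ hP : s.cj P = P, |ph10 hF hS hP (a i)| ≤ A := by
    refine ⟨1 + ∑ i, A₀ i, add_pos_of_pos_of_nonneg one_pos (Finset.sum_nonneg fun i _ => (hA₀ i).le), fun i P hP => ?_⟩
    have h1 := Finset.single_le_sum (f := A₀) (fun j _ => (hA₀ j).le) (Finset.mem_univ i)
    linarith [hA₀a i P hP]
  have hq0 : 0 ≤ 1 - δ / C := by
    have := (div_le_one hC).2 hCδ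
    linarith
  have hq1 : 1 - δ / C < 1 := by
    have := div_pos hδ hC
    linarith
  obtain ⟨n, hn⟩ := exists_pow_lt_of_lt_one (show (0 : ℝ) < 1 / (C * (A + 1)) by positivity) hq1
  obtain ⟨w, hw⟩ : ∃ w : BSub s S, w = 1 - (1 / C : ℝ) • ∑ i, T i := ⟨_, rfl⟩
  have hw' : (1 / C : ℝ) • ∑ i, T i = 1 - w := by rw [hw]; ring
  have hwP : ∀ P, ∀ hP : s.cj P = P, 0 ≤ ph10 hF hS hP w ∧ ph10 hF hS hP w ≤ 1 - δ / C := by
    intro P hP
    have e : ph10 hF hS hP w = 1 - 1 / C * ph10 hF hS hP (∑ i, T i) := by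
      rw [hw, map_sub, map_one, map_smul, smul_eq_mul]
    rw [e]
    have h1 : δ ≤ ph10 hF hS hP (∑ i, T i) := hδu P hP
    have h2 := hCu P hP
    constructor
    · have h3 : 1 / C * ph10 hF hS hP (∑ i, T i) ≤ 1 := by
        rw [one_div_mul_eq_div]
        exact (div_le_one hC).2 h2
      linarith
    · have h3 : δ / C ≤ 1 / C * ph10 hF hS hP (∑ i, T i) := by
        rw [one_div_mul_eq_div]
        exact div_le_div_of_nonneg_right h1 hC.le
      linarith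
  refine ⟨fun i => (1 / C : ℝ) • ∑ k ∈ Finset.range (n + 1), w ^ k + a i * w ^ (n + 1), fun i P hP => ?_, ?_⟩
  · have h0 : 0 ≤ ph10 hF hS hP w := (hwP P hP).1
    have h1 : 1 / C ≤ ph10 hF hS hP ((1 / C : ℝ) • ∑ k ∈ Finset.range (n + 1), w ^ k) := by
      rw [map_smul, map_sum, smul_eq_mul]
      have h2 := Finset.single_le_sum (f := fun k => ph10 hF hS hP (w ^ k)) (s := Finset.range (n + 1))
        (fun k _ => by rw [map_pow]; exact pow_nonneg h0 k) (Finset.mem_range.2 (Nat.succ_pos n))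
      have h3 : ph10 hF hS hP (w ^ 0) = 1 := by rw [pow_zero, map_one]
      have h4 : (1 : ℝ) ≤ ∑ k ∈ Finset.range (n + 1), ph10 hF hS hP (w ^ k) := by
        rw [← h3]
        exact h2
      have h5 : 0 < 1 / C := by positivity
      nlinarith
    have h2 : |ph10 hF hS hP (a i * w ^ (n + 1))| < 1 / C := by
      rw [map_mul, map_pow, abs_mul, abs_of_nonneg (pow_nonneg h0 _)]
      have h3 : ph10 hF hS hP w ^ (n + 1) ≤ (1 - δ / C) ^ n := by
        have h4 : ph10 hF hS hP w ^ (n + 1) ≤ (1 - δ / C) ^ (n + 1) := pow_le_pow_left₀ h0 (hwP P hP).2 _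
        have h5 : (1 - δ / C) ^ (n + 1) ≤ (1 - δ / C) ^ n := pow_le_pow_of_le_one hq0 hq1.le (Nat.le_succ n)
        linarith
      have h4 := hAa i P hP
      have h5 : |ph10 hF hS hP (a i)| * ph10 hF hS hP w ^ (n + 1) ≤ A * (1 - δ / C) ^ n :=
        mul_le_mul h4 h3 (pow_nonneg h0 _) hA.le
      have h6 : A * (1 - δ / C) ^ n ≤ A * (1 / (C * (A + 1))) := mul_le_mul_of_nonneg_left hn.le hA.le
      have h7 : A * (1 / (C * (A + 1))) < 1 / C := by
        rw [mul_one_div, div_lt_div_iff₀ (by positivity) hC]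
        nlinarith
      linarith
    rw [map_add]
    have := (abs_lt.1 h2).1
    linarith
  · have hG : (∑ k ∈ Finset.range (n + 1), w ^ k) * (1 - w) = 1 - w ^ (n + 1) := geom_sum_mul_neg w (n + 1)
    generalize (∑ k ∈ Finset.range (n + 1), w ^ k) = G at hG
    have e1 : ∑ i, ((1 / C : ℝ) • G + a i * w ^ (n + 1)) * T i =
        G * ((1 / C : ℝ) • ∑ i, T i) + w ^ (n + 1) * ∑ i, a i * T i := by
      rw [Finset.smul_sum, Finset.mul_sum, Finset.mul_sum, ← Finset.sum_add_distrib]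
      refine Finset.sum_congr rfl fun i _ => ?_
      simp only [Algebra.smul_def]
      ring
    rw [e1, ha, hw', mul_one, hG]
    ring

private theorem dS_le10 (S : Finset (Place ℂ F)) {m n : ℤ} (h : m ≤ n) (P : Place ℂ F) : dS S m P ≤ dS S n P := by
  by_cases hP : P ∈ S
  · rw [dS_mem m hP, dS_mem n hP]
    exact h
  · rw [dS_notMem m hP, dS_notMem n hP]

/-- the real elements of `L D` -/
private noncomputable def RL10 (s : RStr F) (D : Place ℂ F →₀ ℤ) : Submodule ℝ F where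
  carrier := {b | s.σ b = b ∧ b ∈ L D}
  add_mem' := fun ha hb => ⟨by rw [map_add, ha.1, hb.1], Submodule.add_mem _ ha.2 hb.2⟩
  zero_mem' := ⟨map_zero _, Submodule.zero_mem _⟩
  smul_mem' := fun r x hx => by
    have h1 : r • x = algebraMap ℂ F (r : ℂ) * x := Algebra.smul_def r x
    rw [h1]
    refine ⟨by rw [map_mul, s.alg, Complex.conj_ofReal, hx.1], ?_⟩
    rw [← Algebra.smul_def]
    exact Submodule.smul_mem _ _ hx.2

include hF in
private theorem fin10 (D : Place ℂ F →₀ ℤ) : FiniteDimensional ℝ (RL10 s D) := by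
  have h1 : Module.Finite ℂ (L D) := FF.finite_rr hF _
  have h2 : Module.Finite ℝ (L D) := Module.Finite.trans ℂ _
  let ι : RL10 s D →ₗ[ℝ] L D :=
    { toFun := fun x => ⟨x.1, x.2.2⟩
      map_add' := fun x y => rfl
      map_smul' := fun r x => rfl }
  refine Module.Finite.of_injective ι fun x y h => ?_
  have h3 : (ι x).1 = (ι y).1 := by rw [h]
  exact Subtype.ext h3

include hF in
private theorem int_ev10 {S : Finset (Place ℂ F)} {m' : ℕ} {b : F} {ε : ℝ} (hε : 0 < ε)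
    (h : HS s (dS S m') (1 + algebraMap ℂ F (ε : ℂ) * b)) :
    ∀ᶠ e : ℝ in nhdsWithin (0 : ℝ) (Set.Ioi 0), HS s (dS S m') (1 + algebraMap ℂ F (e : ℂ) * b) := by
  have h1 : ∀ᶠ e : ℝ in nhdsWithin (0 : ℝ) (Set.Ioi 0), e < ε :=
    (eventually_lt_nhds hε).filter_mono nhdsWithin_le_nhds
  filter_upwards [h1, self_mem_nhdsWithin] with e he he0
  have he0' : 0 < e := he0
  have h2 := HS.smul (r := e / ε) (by positivity) h
  have h3 : HS s (dS S m') (algebraMap ℂ F ((1 - e / ε : ℝ) : ℂ)) :=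
    HS.const (hF := hF) (by rw [sub_nonneg]; exact (div_le_one hε).2 he.le)
  have h4 := HS.add h3 h2
  have e1 : algebraMap ℂ F ((1 - e / ε : ℝ) : ℂ) + algebraMap ℂ F ((e / ε : ℝ) : ℂ) *
      (1 + algebraMap ℂ F (ε : ℂ) * b) = 1 + algebraMap ℂ F (e : ℂ) * b := by
    have e2 : algebraMap ℂ F (e : ℂ) = algebraMap ℂ F ((e / ε : ℝ) : ℂ) * algebraMap ℂ F (ε : ℂ) := by
      rw [← map_mul, ← Complex.ofReal_mul, div_mul_cancel₀ _ hε.ne']
    rw [e2, Complex.ofReal_sub, map_sub, Complex.ofReal_one, map_one]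
    ring
  rwa [e1] at h4

private theorem step2_10 {S : Finset (Place ℂ F)} (hS : SData s S) {N : ℕ} {ι : Type} [Fintype ι] (k m₀ : ℕ)
    (Y : Fin N → ι → F) (hY : ∀ i j, s.σ (Y i j) = Y i j) (hYL : ∀ i j, Y i j ∈ L (dS S k))
    (x₀ : ι → ℝ)
    (hpos : ∀ i, ∀ P, s.cj P = P → 0 ≤ rv hF P (∑ j, (x₀ j : ℂ) • Y i j))
    (hsurj : ∀ m : ℕ, m₀ ≤ m → ∀ y : F, s.σ y = y → y ∈ L (dS S (m + k)) →
      ∃ a : Fin N → F, (∀ i, s.σ (a i) = a i ∧ a i ∈ L (dS S m)) ∧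
        y = ∑ i, a i * ∑ j, (x₀ j : ℂ) • Y i j) :
    ∃ (m' : ℕ) (η : ℝ), 0 < η ∧ ∀ x : ι → ℝ, dist x x₀ < η → ∃ τ : Fin N → F, (∀ i, HS s (dS S m') (τ i)) ∧
      ∑ i, τ i * ∑ j, (x j : ℂ) • Y i j = 1 := by
  classical
  have hregL : ∀ (m : ℤ) (f : F), f ∈ L (dS S m) → ∀ P, P ∉ S → f ∈ P.ring := fun m f hf P hP =>
    ((mem_L_dS_iff hF).1 hf).2 P hP
  have hσR : ∀ r : ℝ, s.σ (algebraMap ℂ F (r : ℂ)) = algebraMap ℂ F (r : ℂ) := by
    intro r
    rw [s.alg, Complex.conj_ofReal]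
  have hTr : ∀ i, s.σ (∑ j, (x₀ j : ℂ) • Y i j) = ∑ j, (x₀ j : ℂ) • Y i j := by
    intro i
    rw [map_sum]
    refine Finset.sum_congr rfl fun j _ => ?_
    rw [Algebra.smul_def, map_mul, hσR, hY]
  have hTL : ∀ i, ∑ j, (x₀ j : ℂ) • Y i j ∈ L (dS S k) := fun i =>
    Submodule.sum_mem _ fun j _ => Submodule.smul_mem _ _ (hYL i j)
  have h1L : (1 : F) ∈ L (dS S ((m₀ : ℤ) + k)) := by
    rw [mem_L_dS_iff hF]
    refine ⟨fun P _ => Or.inr ?_, fun P _ => one_mem P.ring⟩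
    rw [FF.ord_one hF P]
    omega
  obtain ⟨a₀, ha₀, ha₀1⟩ := hsurj m₀ le_rfl 1 (map_one _) h1L
  obtain ⟨τ, hτ, hτ1⟩ := step1_10 hF hS (fun i => (⟨∑ j, (x₀ j : ℂ) • Y i j, hTr i, hregL _ _ (hTL i)⟩ : BSub s S))
    (fun i => (⟨a₀ i, (ha₀ i).1, hregL _ _ (ha₀ i).2⟩ : BSub s S)) (fun i P hP => hpos i P hP) (by
      apply Subtype.ext
      push_cast
      exact ha₀1.symm)
  have hτ1' : ∑ i, (τ i : F) * ∑ j, (x₀ j : ℂ) • Y i j = 1 := by
    have h := congrArg (fun b : BSub s S => (b : F)) hτ1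
    push_cast at h
    exact h
  choose m₁ ε₁ hε₁ h₁ using fun i => posB hF hS (τ i).2.1 (τ i).2.2 (hτ i)
  obtain ⟨M, hM⟩ : ∃ M : ℕ, ∀ i, m₁ i ≤ M :=
    ⟨∑ i, m₁ i, fun i => Finset.single_le_sum (f := m₁) (fun _ _ => Nat.zero_le _) (Finset.mem_univ i)⟩
  obtain ⟨ε₀, hε₀, hε₀1⟩ : ∃ ε₀ : ℝ, 0 < ε₀ ∧ ∀ i, ε₀ ≤ ε₁ i := by
    have h : ∀ᶠ e : ℝ in nhdsWithin (0 : ℝ) (Set.Ioi 0), ∀ i, e ≤ ε₁ i := by
      rw [Filter.eventually_all]
      exact fun i => (eventually_le_nhds (hε₁ i)).filter_mono nhdsWithin_le_nhds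
    obtain ⟨e, h1, h2⟩ := (h.and self_mem_nhdsWithin).exists
    exact ⟨e, h2, h1⟩
  have hτε : ∀ i, HS s (dS S M) ((τ i : F) - algebraMap ℂ F (ε₀ : ℂ)) := by
    intro i
    have h2 : (m₁ i : ℤ) ≤ ((M : ℕ) : ℤ) := by exact_mod_cast hM i
    have h3 := HS.add (HS.mono (hF := hF) (h₁ i) (dS_le10 S h2))
      (HS.const (hF := hF) (S := S) (m := M) (r := ε₁ i - ε₀) (by linarith [hε₀1 i]))
    have e : (τ i : F) - algebraMap ℂ F (ε₁ i : ℂ) + algebraMap ℂ F ((ε₁ i - ε₀ : ℝ) : ℂ) =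
        (τ i : F) - algebraMap ℂ F (ε₀ : ℂ) := by
      rw [Complex.ofReal_sub, map_sub]
      ring
    rwa [e] at h3
  choose nn hnn using fun i => exists_mem_L_dS hF (τ i).2.2
  obtain ⟨m₂, hm₂, hτm⟩ : ∃ m₂ : ℕ, m₀ ≤ m₂ ∧ ∀ i, (τ i : F) ∈ L (dS S m₂) := by
    refine ⟨m₀ + ∑ i, nn i, Nat.le_add_right _ _, fun i => L_mono hF (dS_le10 S ?_) (hnn i)⟩
    have h := Finset.single_le_sum (f := nn) (fun _ _ => Nat.zero_le _) (Finset.mem_univ i)
    exact_mod_cast h.trans (Nat.le_add_left _ _)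
  have hfin : FiniteDimensional ℝ (RL10 s (dS S ((m₂ : ℤ) + k))) := fin10 hF _
  let Φ : ι → (Fin N → RL10 s (dS S m₂)) →ₗ[ℝ] RL10 s (dS S ((m₂ : ℤ) + k)) := fun j =>
    { toFun := fun a => ⟨∑ i, (a i : F) * Y i j, by
        rw [map_sum]
        exact Finset.sum_congr rfl fun i _ => by rw [map_mul, (a i).2.1, hY], by
        refine Submodule.sum_mem _ fun i _ => ?_
        rw [dS_add]
        exact L_mul hF (a i).2.2 (hYL i j)⟩
      map_add' := fun a b => by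
        apply Subtype.ext
        change ∑ i, ((a i : F) + (b i : F)) * Y i j = ∑ i, (a i : F) * Y i j + ∑ i, (b i : F) * Y i j
        rw [← Finset.sum_add_distrib]
        exact Finset.sum_congr rfl fun i _ => by ring
      map_smul' := fun r a => by
        apply Subtype.ext
        change ∑ i, (r • (a i : F)) * Y i j = r • ∑ i, (a i : F) * Y i j
        rw [Finset.smul_sum]
        exact Finset.sum_congr rfl fun i _ => by rw [smul_mul_assoc] }
  have hΦ : ∀ (x : ι → ℝ) (a : Fin N → RL10 s (dS S m₂)), ((∑ j, x j • Φ j a : RL10 s (dS S ((m₂ : ℤ) + k))) : F) =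
      ∑ i, (a i : F) * ∑ j, (x j : ℂ) • Y i j := by
    intro x a
    rw [Submodule.coe_sum]
    have e1 : ∀ j, ((x j • Φ j a : RL10 s (dS S ((m₂ : ℤ) + k))) : F) = ∑ i, (a i : F) * ((x j : ℂ) • Y i j) := by
      intro j
      change x j • ∑ i, (a i : F) * Y i j = _
      rw [Finset.smul_sum]
      refine Finset.sum_congr rfl fun i _ => ?_
      rw [← Complex.coe_smul, mul_smul_comm]
    simp only [e1]
    rw [Finset.sum_comm]
    exact Finset.sum_congr rfl fun i _ => by rw [Finset.mul_sum]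
  obtain ⟨n, a, ha⟩ := pert Φ x₀ (fun v => by
    obtain ⟨w, hw, hw1⟩ := hsurj m₂ hm₂ (v : F) v.2.1 v.2.2
    refine ⟨fun i => ⟨w i, hw i⟩, ?_⟩
    apply Subtype.ext
    rw [hΦ]
    exact hw1.symm) (fun i => ⟨(τ i : F), (τ i).2.1, hτm i⟩)
  obtain ⟨m₃, h₃⟩ := inter hF hS m₂
  obtain ⟨e₀, he₀, h₄⟩ : ∃ e₀ : ℝ, 0 < e₀ ∧ ∀ (l : Fin n) (i : Fin N),
      HS s (dS S m₃) (1 + algebraMap ℂ F (e₀ : ℂ) * (a l i : F)) ∧
      HS s (dS S m₃) (1 + algebraMap ℂ F (e₀ : ℂ) * (-(a l i : F))) := by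
    have h : ∀ᶠ e : ℝ in nhdsWithin (0 : ℝ) (Set.Ioi 0), ∀ (l : Fin n) (i : Fin N),
        HS s (dS S m₃) (1 + algebraMap ℂ F (e : ℂ) * (a l i : F)) ∧
        HS s (dS S m₃) (1 + algebraMap ℂ F (e : ℂ) * (-(a l i : F))) := by
      rw [Filter.eventually_all]
      intro l
      rw [Filter.eventually_all]
      intro i
      obtain ⟨ε, hε, h5⟩ := h₃ (a l i : F) (a l i).2.1 (a l i).2.2
      obtain ⟨ε', hε', h6⟩ := h₃ (-(a l i : F)) (by rw [map_neg, (a l i).2.1]) (neg_mem (a l i).2.2)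
      rw [Algebra.smul_def] at h5 h6
      exact (int_ev10 hF hε h5).and (int_ev10 hF hε' h6)
    obtain ⟨e, h1, h2⟩ := (h.and self_mem_nhdsWithin).exists
    exact ⟨e, h2, h1⟩
  obtain ⟨η, hη, h⟩ := ha (ε₀ * e₀ / (n + 1)) (by positivity)
  refine ⟨max M m₃, η, hη, fun x hx => ?_⟩
  obtain ⟨c, hc, hc1⟩ := h x hx
  have hle1 : (M : ℤ) ≤ ((max M m₃ : ℕ) : ℤ) := by exact_mod_cast le_max_left M m₃
  have hle2 : (m₃ : ℤ) ≤ ((max M m₃ : ℕ) : ℤ) := by exact_mod_cast le_max_right M m₃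
  have h5 := congrArg (fun b : RL10 s (dS S ((m₂ : ℤ) + k)) => (b : F)) hc1
  simp only [hΦ] at h5
  refine ⟨fun i => (τ i : F) - ∑ l, algebraMap ℂ F (c l : ℂ) * (a l i : F), fun i => ?_, ?_⟩
  · have h6 : ∀ l, HS s (dS S m₃) (algebraMap ℂ F ((|c l| / e₀ : ℝ) : ℂ) - algebraMap ℂ F (c l : ℂ) * (a l i : F)) := by
      intro l
      have e2 : algebraMap ℂ F (e₀ : ℂ) * algebraMap ℂ F ((|c l| / e₀ : ℝ) : ℂ) = algebraMap ℂ F ((|c l| : ℝ) : ℂ) := by
        rw [← map_mul, ← Complex.ofReal_mul, mul_div_cancel₀ _ he₀.ne']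
      rcases le_total 0 (c l) with h7 | h7
      · have h8 := HS.smul (r := |c l| / e₀) (by positivity) (h₄ l i).2
        have e3 : algebraMap ℂ F ((|c l| / e₀ : ℝ) : ℂ) * (1 + algebraMap ℂ F (e₀ : ℂ) * (-(a l i : F))) =
            algebraMap ℂ F ((|c l| / e₀ : ℝ) : ℂ) -
              (algebraMap ℂ F (e₀ : ℂ) * algebraMap ℂ F ((|c l| / e₀ : ℝ) : ℂ)) * (a l i : F) := by ring
        rw [e3, e2] at h8
        rw [abs_of_nonneg h7] at h8 ⊢
        exact h8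
      · have h8 := HS.smul (r := |c l| / e₀) (by positivity) (h₄ l i).1
        have e3 : algebraMap ℂ F ((|c l| / e₀ : ℝ) : ℂ) * (1 + algebraMap ℂ F (e₀ : ℂ) * (a l i : F)) =
            algebraMap ℂ F ((|c l| / e₀ : ℝ) : ℂ) +
              (algebraMap ℂ F (e₀ : ℂ) * algebraMap ℂ F ((|c l| / e₀ : ℝ) : ℂ)) * (a l i : F) := by ring
        rw [e3, e2] at h8
        rw [abs_of_nonpos h7] at h8 ⊢
        have e4 : algebraMap ℂ F ((-c l / e₀ : ℝ) : ℂ) + algebraMap ℂ F ((-c l : ℝ) : ℂ) * (a l i : F) =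
            algebraMap ℂ F ((-c l / e₀ : ℝ) : ℂ) - algebraMap ℂ F (c l : ℂ) * (a l i : F) := by
          rw [Complex.ofReal_neg, map_neg]
          ring
        rw [e4] at h8
        exact h8
    have h7 : 0 ≤ ε₀ - ∑ l, |c l| / e₀ := by
      have h8 : ∑ l, |c l| / e₀ ≤ ∑ _l : Fin n, ε₀ / (n + 1) := by
        refine Finset.sum_le_sum fun l _ => ?_
        rw [div_le_div_iff₀ he₀ (by positivity)]
        have h9 := (hc l).le
        rw [le_div_iff₀ (by positivity)] at h9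
        exact h9
      rw [Finset.sum_const, Finset.card_univ, Fintype.card_fin, nsmul_eq_mul] at h8
      have h9 : (n : ℝ) * (ε₀ / (n + 1)) ≤ ε₀ := by
        rw [mul_div_assoc', div_le_iff₀ (by positivity)]
        nlinarith
      linarith
    have h8 := HS.sum (s := s) Finset.univ (fun l => algebraMap ℂ F ((|c l| / e₀ : ℝ) : ℂ) - algebraMap ℂ F (c l : ℂ) * (a l i : F))
      (fun l _ => HS.mono (hF := hF) (h6 l) (dS_le10 S hle2))
    have h9 := HS.add (HS.add (HS.mono (hF := hF) (hτε i) (dS_le10 S hle1))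
      (HS.const (hF := hF) (S := S) (m := max M m₃) h7)) h8
    have e5 : (τ i : F) - algebraMap ℂ F (ε₀ : ℂ) + algebraMap ℂ F ((ε₀ - ∑ l, |c l| / e₀ : ℝ) : ℂ) +
        ∑ l, (algebraMap ℂ F ((|c l| / e₀ : ℝ) : ℂ) - algebraMap ℂ F (c l : ℂ) * (a l i : F)) =
        (τ i : F) - ∑ l, algebraMap ℂ F (c l : ℂ) * (a l i : F) := by
      rw [Finset.sum_sub_distrib, Complex.ofReal_sub, Complex.ofReal_sum, map_sub, map_sum]
      ring
    rw [e5] at h9
    exact h9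
  · have e6 : ∀ i, (((fun i => ⟨(τ i : F), (τ i).2.1, hτm i⟩ : Fin N → RL10 s (dS S m₂)) - ∑ l, c l • a l) i : F) =
        (τ i : F) - ∑ l, algebraMap ℂ F (c l : ℂ) * (a l i : F) := by
      intro i
      rw [Pi.sub_apply, Submodule.coe_sub, Finset.sum_apply, Submodule.coe_sum]
      congr 1
      refine Finset.sum_congr rfl fun l _ => ?_
      rw [Pi.smul_apply, Submodule.coe_smul, Algebra.smul_def]
      rfl
    rw [hτ1'] at h5
    rw [← h5]
    exact Finset.sum_congr rfl fun i _ => by rw [e6]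

theorem psc {S : Finset (Place ℂ F)} (hS : SData s S) {N : ℕ} {ι : Type} [Fintype ι] (k m₀ : ℕ)
    (Y : Fin N → ι → F) (hY : ∀ i j, s.σ (Y i j) = Y i j) (hYL : ∀ i j, Y i j ∈ L (dS S k))
    (K : Set (ι → ℝ)) (hK : IsCompact K)
    (hpos : ∀ x ∈ K, ∀ i, ∀ P, s.cj P = P → 0 ≤ rv hF P (∑ j, (x j : ℂ) • Y i j))
    (hsurj : ∀ m : ℕ, m₀ ≤ m → ∀ x ∈ K, ∀ y : F, s.σ y = y → y ∈ L (dS S (m + k)) →
      ∃ a : Fin N → F, (∀ i, s.σ (a i) = a i ∧ a i ∈ L (dS S m)) ∧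
        y = ∑ i, a i * ∑ j, (x j : ℂ) • Y i j) :
    ∃ m' : ℕ, ∀ x ∈ K, ∃ τ : Fin N → F, (∀ i, HS s (dS S m') (τ i)) ∧
      ∑ i, τ i * ∑ j, (x j : ℂ) • Y i j = 1 := by
  have h := hK.induction_on (p := fun t : Set (ι → ℝ) => ∃ m' : ℕ, ∀ x ∈ t, ∃ τ : Fin N → F,
    (∀ i, HS s (dS S m') (τ i)) ∧ ∑ i, τ i * ∑ j, (x j : ℂ) • Y i j = 1) ⟨0, fun x hx => hx.elim⟩
    (fun t t' htt' ⟨m', h⟩ => ⟨m', fun x hx => h x (htt' hx)⟩) ?_ ?_
  · exact h
  · rintro t t' ⟨m, h⟩ ⟨m', h'⟩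
    refine ⟨max m m', ?_⟩
    have h1 : (m : ℤ) ≤ ((max m m' : ℕ) : ℤ) := by exact_mod_cast le_max_left m m'
    have h2 : (m' : ℤ) ≤ ((max m m' : ℕ) : ℤ) := by exact_mod_cast le_max_right m m'
    rintro x (hx | hx)
    · obtain ⟨τ, h3, h4⟩ := h x hx
      exact ⟨τ, fun i => HS.mono (hF := hF) (h3 i) (dS_le10 S h1), h4⟩
    · obtain ⟨τ, h3, h4⟩ := h' x hx
      exact ⟨τ, fun i => HS.mono (hF := hF) (h3 i) (dS_le10 S h2), h4⟩
  · intro x₀ hx₀
    obtain ⟨m', η, hη, h⟩ := step2_10 hF hS k m₀ Y hY hYL x₀ (hpos x₀ hx₀) (fun m hm => hsurj m hm x₀ hx₀)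
    exact ⟨Metric.ball x₀ η, mem_nhdsWithin_of_mem_nhds (Metric.ball_mem_nhds x₀ hη), m', fun x hx => h x hx⟩

end Pool.Agent.Helper10.GN
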