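import Pool.Agent.Helper10.GN.Cpt
import Pool.Agent.Helper10.GN.Orth
import Pool.Agent.Helper10.GN.Pen
import Pool.Agent.Helper10.GN.Psc

set_option autoImplicit false

/-!
# Project GN, block N1E: bounded sums of squares on a normal real curve

`n1e`. Let `g` be the genus, `c` the constant of `FF.ell_eq_of_large`. Choose `k` with
`k S.card > c`, `k S.card + 1 - g > 0`, `r` this number; `N > 2 k S.card` distinct real places `P j`
(`hreal`); `herm_span r` (vectors `cv`, `μ`), `kap_compact` (`y`, `K`). Apply `psc` with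
`k := 2 k`, the index type `ι = Fin n × Fin M` and `Y i (i', j) = if i = i' then y j else 0`, so
`∑_{(i',j)} x (i', j) • Y i (i', j) = ∑ j, x (i, j) • y j = hval κ (cv i)`:
`hpos` is `Kap.pos`; `hsurj`: `kap_bpf` and `pencil` with `D = dS S (2k)`, `D₁ = dS S m`
(`c ≤ (m - 2k) S.card` for `m ≥ m₀`), index type `Fin r × Fin r`: `y = ∑ a_{ab} κ a b`; insert
`κ a b = ∑ i, μ i a b • hval κ (cv i)`; so `y = ∑ i, A_i * hval κ (cv i)` with `A_i ∈ L (m S)`; `y` and
`hval κ (cv i)` are real (`Kap.cj`), so replace `A_i` by `(A_i + σ A_i)/2`. `psc` gives `m'`.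
Now let `f ≠ 0` be `Sos` and `E P + E (s.cj P) = ord_P f`. `deg E = 0` (`FF.deg_dv`, `deg_cjD`), so
`ℓ(dS S k - E) = r`; `orth` gives `w`, `κ a b = w a σ(w b) / f`, and `hval κ v = W σ(W) / f` with
`W = ∑ v a • w a ∈ L (dS S k - E)`. There is `x ∈ K` for `κ`, and `τ i` with `HS s (dS S m') (τ i)`,
`∑ τ i * W_i σ(W_i) / f = 1`. So `f = ∑_i ∑_l (t_{il} W_i) σ(t_{il} W_i)` with
`t_{il} ∈ L (m' S)`; `t_{il} W_i ∈ L (dS S (m' + k) - E)` (`L_mul`, `dS_add`).
-/

namespace Pool.Agent.Helper10.GN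

open VC FF

variable {F : Type} [Field F] [Algebra ℂ F]

theorem n1e_smul_alg (c : ℂ) (f : F) : c • f = algebraMap ℂ F c * f := Algebra.smul_def c f

theorem n1e_sigma_smul (s : RStr F) (c : ℂ) (f : F) :
    s.σ (c • f) = (starRingEnd ℂ) c • s.σ f := by
  rw [n1e_smul_alg, n1e_smul_alg, map_mul, s.alg]

theorem n1e_hval_real {s : RStr F} {hF : IsFunctionField ℂ F} {S : Finset (Place ℂ F)}
    {k N r : ℕ} {P : Fin N → Place ℂ F} {κ : Fin r → Fin r → F} (h : Kap s hF S k P κ)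
    (v : Fin r → ℂ) : s.σ (hval κ v) = hval κ v := by
  unfold hval
  simp only [map_sum]
  rw [Finset.sum_comm]
  refine Finset.sum_congr rfl fun b _ => ?_
  refine Finset.sum_congr rfl fun a _ => ?_
  rw [n1e_sigma_smul, h.cj, map_mul, Complex.conj_conj, mul_comm]

/-- `hval κ v = W σ(W) / f` for `κ a b = w a σ(w b) / f`. -/
theorem n1e_hval_rank (s : RStr F) {r : ℕ} (w : Fin r → F) (f : F) (v : Fin r → ℂ) :
    hval (fun a b => w a * s.σ (w b) / f) v =
      (∑ a, v a • w a) * s.σ (∑ a, v a • w a) / f := by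
  unfold hval
  rw [map_sum, Finset.sum_mul_sum, Finset.sum_div]
  refine Finset.sum_congr rfl fun a _ => ?_
  rw [Finset.sum_div]
  refine Finset.sum_congr rfl fun b _ => ?_
  rw [n1e_sigma_smul, n1e_smul_alg, n1e_smul_alg, n1e_smul_alg, map_mul]
  ring

theorem n1e_ysum {n M : ℕ} (y : Fin M → F) (x : Fin n × Fin M → ℝ) (i : Fin n) :
    ∑ p : Fin n × Fin M, (x p : ℂ) • (if i = p.1 then y p.2 else 0) =
      ∑ j, (x (i, j) : ℂ) • y j := by
  rw [Fintype.sum_prod_type, Finset.sum_eq_single i]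
  · simp
  · intro b _ hb
    refine Finset.sum_eq_zero fun j _ => ?_
    simp [Ne.symm hb]
  · intro h
    exact absurd (Finset.mem_univ i) h

/-- the surjectivity needed for `psc` -/
theorem n1e_surj {s : RStr F} (hF : IsFunctionField ℂ F) {S : Finset (Place ℂ F)}
    (hS : SData s S) {g : ℕ} {c c2 : ℤ}
    (hc : ∀ D : Place ℂ F →₀ ℤ, c ≤ deg D → (ell D : ℤ) = deg D + 1 - g)
    (hc2 : ∀ (ι : Type) [Fintype ι] (D : Place ℂ F →₀ ℤ) (h : ι → F),
      (∀ i, h i ∈ L D) → (∀ Q : Place ℂ F, ∃ i, h i ≠ 0 ∧ ord Q.ring (h i) = - D Q) →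
      ∀ D₁ : Place ℂ F →₀ ℤ, c2 ≤ deg D₁ - deg D → ∀ y ∈ L (D₁ + D),
        ∃ a : ι → F, (∀ i, a i ∈ L D₁) ∧ y = ∑ i, a i * h i)
    {k N r n : ℕ} (hr : (r : ℤ) = k * S.card + 1 - g) (hr0 : 0 < r) (hkc : c < k * S.card)
    {P : Fin N → Place ℂ F} (hP : ∀ j, s.cj (P j) = P j)
    {cv : Fin n → Fin r → ℂ} {μ : Fin n → Fin r → Fin r → ℂ}
    (hμ : ∀ {V : Type} [AddCommGroup V] [Module ℂ V] (κ : Fin r → Fin r → V) (a b : Fin r),
      κ a b = ∑ n, μ n a b • hval κ (cv n))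
    {κ : Fin r → Fin r → F} (h : Kap s hF S k P κ) (m : ℕ) (hm : 2 * k + c2.toNat ≤ m)
    (y : F) (hy : s.σ y = y) (hyL : y ∈ L (dS S ((m : ℤ) + ((2 * k : ℕ) : ℤ)))) :
    ∃ a : Fin n → F, (∀ i, s.σ (a i) = a i ∧ a i ∈ L (dS S m)) ∧
      y = ∑ i, a i * hval κ (cv i) := by
  classical
  have hcard : 1 ≤ S.card := Finset.card_pos.2 hS.ne
  have e0 : ((2 * k : ℕ) : ℤ) = 2 * (k : ℤ) := by push_cast; ring
  rw [e0, dS_add] at hyL
  obtain ⟨a, ha, hya⟩ := hc2 (Fin r × Fin r) (dS S (2 * k)) (fun p => κ p.1 p.2)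
    (fun p => h.mem _ _)
    (fun Q => by
      obtain ⟨a, b, h1, h2⟩ := kap_bpf hF hS hc hr hr0 hkc hP h Q
      exact ⟨(a, b), h1, h2⟩)
    (dS S m) (by
      rw [deg_dS, deg_dS, ← mul_sub]
      have h1 : c2 ≤ (m : ℤ) - 2 * k := by
        have := Int.self_le_toNat c2
        have : ((2 * k + c2.toNat : ℕ) : ℤ) ≤ (m : ℤ) := by exact_mod_cast hm
        push_cast at this
        omega
      have h0 : (0 : ℤ) ≤ (m : ℤ) - 2 * k := by
        have : ((2 * k + c2.toNat : ℕ) : ℤ) ≤ (m : ℤ) := by exact_mod_cast hm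
        push_cast at this
        omega
      have h2 : (1 : ℤ) ≤ S.card := by exact_mod_cast hcard
      nlinarith) y hyL
  set A : Fin n → F := fun i => ∑ p : Fin r × Fin r, μ i p.1 p.2 • a p with hA
  have hAL : ∀ i, A i ∈ L (dS S (m : ℤ)) := fun i =>
    Submodule.sum_mem _ fun p _ => Submodule.smul_mem _ _ (ha p)
  have hyA : y = ∑ i, A i * hval κ (cv i) := by
    rw [hya]
    simp only [hA, Finset.sum_mul]
    rw [Finset.sum_comm]
    refine Finset.sum_congr rfl fun p _ => ?_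
    rw [hμ κ p.1 p.2, Finset.mul_sum]
    refine Finset.sum_congr rfl fun i _ => ?_
    rw [mul_smul_comm, smul_mul_assoc]
  refine ⟨fun i => (1 / 2 : ℂ) • (A i + s.σ (A i)), fun i => ⟨?_, ?_⟩, ?_⟩
  · rw [n1e_sigma_smul, map_add, s.inv, add_comm]
    congr 1
    rw [map_div₀, map_one, Complex.conj_ofNat]
  · exact Submodule.smul_mem _ _ (Submodule.add_mem _ (hAL i) (sigma_mem_L_dS s hF hS (hAL i)))
  · have h1 : y = ∑ i, s.σ (A i) * hval κ (cv i) := by
      rw [← hy, hyA, map_sum]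
      refine Finset.sum_congr rfl fun i _ => ?_
      rw [map_mul, n1e_hval_real h]
    have h2 : y = (1 / 2 : ℂ) • (y + y) := by
      rw [← two_smul ℂ y, smul_smul]
      norm_num
    rw [h2]
    nth_rewrite 1 [hyA]
    nth_rewrite 1 [h1]
    rw [← Finset.sum_add_distrib, Finset.smul_sum]
    refine Finset.sum_congr rfl fun i _ => ?_
    rw [← add_mul, smul_mul_assoc]

theorem n1e {s : RStr F} (hF : IsFunctionField ℂ F) (hreal : {P : Place ℂ F | s.cj P = P}.Infinite)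
    {S : Finset (Place ℂ F)} (hS : SData s S) :
    ∃ m : ℕ, ∀ f : F, f ≠ 0 → Sos s f → ∀ E : Place ℂ F →₀ ℤ,
      (∀ Q, E Q + E (s.cj Q) = ord Q.ring f) →
      ∃ (n : ℕ) (v : Fin n → F), (∀ i, v i ∈ L (dS S m - E)) ∧ f = ∑ i, v i * s.σ (v i) := by
  classical
  have hcard : 1 ≤ S.card := Finset.card_pos.2 hS.ne
  obtain ⟨g, hg⟩ := exists_genus hF
  obtain ⟨c, hc⟩ := ell_eq_of_large hF hg
  obtain ⟨c2, hc2⟩ := pencil hF
  obtain ⟨k, hk1, hk2⟩ : ∃ k : ℕ, c < k * S.card ∧ (g : ℤ) < k * S.card + 1 := by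
    refine ⟨c.toNat + g + 1, ?_, ?_⟩
    · have h1 := Int.self_le_toNat c
      have h2 : (1 : ℤ) ≤ S.card := by exact_mod_cast hcard
      push_cast
      nlinarith
    · have h2 : (1 : ℤ) ≤ S.card := by exact_mod_cast hcard
      have h3 : (0 : ℤ) ≤ (c.toNat : ℤ) := Int.natCast_nonneg _
      push_cast
      nlinarith
  obtain ⟨r, hr⟩ : ∃ r : ℕ, (r : ℤ) = k * S.card + 1 - g :=
    ⟨((k : ℤ) * S.card + 1 - g).toNat, Int.toNat_of_nonneg (by linarith)⟩
  have hr0 : 0 < r := by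
    have : (0 : ℤ) < r := by rw [hr]; linarith
    exact_mod_cast this
  let e := hreal.natEmbedding
  let P : Fin (2 * k * S.card + 1) → Place ℂ F := fun j => (e j : Place ℂ F)
  have hP : ∀ j, s.cj (P j) = P j := fun j => (e j).2
  have hPi : Function.Injective P := fun i j hij => by
    have h1 : e (i : ℕ) = e (j : ℕ) := Subtype.ext hij
    exact Fin.ext (e.injective h1)
  have hN : 2 * k * S.card < 2 * k * S.card + 1 := Nat.lt_succ_self _
  obtain ⟨n, cv, μ, hμ⟩ := herm_span r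
  obtain ⟨M, y, K, hy, hK, hK1, hK2⟩ := kap_compact hF hS hP hPi hN cv
  obtain ⟨m', hm'⟩ := psc hF hS (2 * k) (2 * k + c2.toNat)
    (fun (i : Fin n) (p : Fin n × Fin M) => if i = p.1 then y p.2 else 0)
    (fun i p => by
      split_ifs
      · exact (hy _).1
      · exact map_zero _)
    (fun i p => by
      split_ifs
      · have := (hy p.2).2
        rw [show ((2 * k : ℕ) : ℤ) = 2 * (k : ℤ) by push_cast; ring]
        exact this
      · exact Submodule.zero_mem _) K hK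
    (fun x hx i Q hQ => by
      rw [n1e_ysum]
      obtain ⟨κ, h1, h2⟩ := hK2 x hx
      rw [← h2 i]
      exact h1.pos (cv i) Q hQ)
    (fun m hm x hx y' hy' hyL => by
      obtain ⟨κ, h1, h2⟩ := hK2 x hx
      obtain ⟨a, ha, hya⟩ := n1e_surj hF hS hc hc2 hr hr0 hk1 hP hμ h1 m hm y' hy' hyL
      refine ⟨a, ha, ?_⟩
      rw [hya]
      refine Finset.sum_congr rfl fun i _ => ?_
      rw [n1e_ysum, h2 i])
  refine ⟨m' + k, fun f hf0 hf E hE => ?_⟩
  have hdE : deg E = 0 := by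
    have h1 : E + cjD s E = dv hF f := by
      ext Q
      rw [Finsupp.add_apply, cjD_apply, dv_apply, hE]
    have h2 := congrArg deg h1
    rw [map_add, deg_cjD, deg_dv hF hf0] at h2
    linarith
  have hell : ell (dS S k - E) = r := by
    have h1 : deg (dS S (k : ℤ) - E) = k * S.card := by
      rw [map_sub, deg_dS, hdE]
      ring
    have h2 := hc (dS S k - E) (by rw [h1]; exact hk1.le)
    rw [h1, ← hr] at h2
    exact_mod_cast h2
  obtain ⟨w, hw, hκ⟩ := orth hF hS hP hPi hN hf0 hf hE hell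
  obtain ⟨x, hx, hxκ⟩ := hK1 _ hκ
  obtain ⟨τ, hτ, hτ1⟩ := hm' x hx
  have key : HS s (dS S (m' + k : ℕ) - E) f := by
    have h1 : f = ∑ i, τ i * ((∑ a, cv i a • w a) * s.σ (∑ a, cv i a • w a)) := by
      have h2 : ∀ i, ∑ p : Fin n × Fin M, (x p : ℂ) • (if i = p.1 then y p.2 else 0) =
          (∑ a, cv i a • w a) * s.σ (∑ a, cv i a • w a) / f := by
        intro i
        rw [n1e_ysum, ← hxκ i, n1e_hval_rank]
      have h3 : f * ∑ i, τ i * ∑ p : Fin n × Fin M,
          (x p : ℂ) • (if i = p.1 then y p.2 else 0) = f * 1 := by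
        rw [hτ1]
      rw [mul_one, Finset.mul_sum] at h3
      nth_rewrite 1 [← h3]
      refine Finset.sum_congr rfl fun i _ => ?_
      rw [h2 i]
      field_simp
    rw [h1]
    refine HS.sum _ _ fun i _ => ?_
    have h4 : HS s (dS S m' + (dS S k - E))
        (τ i * ((∑ a, cv i a • w a) * s.σ (∑ a, cv i a • w a))) :=
      HS.mul (hF := hF) (hτ i)
        (HS.mul_cj (Submodule.sum_mem _ fun a _ => Submodule.smul_mem _ _ (hw a)))
    refine HS.mono (hF := hF) h4 fun Q => le_of_eq ?_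
    rw [show ((m' + k : ℕ) : ℤ) = (m' : ℤ) + (k : ℤ) by push_cast; ring, dS_add, add_sub_assoc]
  exact key

end Pool.Agent.Helper10.GN
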