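import Pool.Agent.Helper10.GN.K1
import Pool.Agent.Helper10.GN.Cve
import Pool.Agent.Helper10.GN.Mxi
import Pool.Agent.Helper10.GN.Rea

set_option autoImplicit false

/-!
# Project GN, block NU: one-variable polynomials in `(f, q)`

`p : ι → A` irreducible, sign-changing, `q = ∏ p_i^(m_i)`, `f` of degree `≤ d` divisible by no `p_i`. If `u : A` is not algebraic modulo
any `p_i` then for a bounded `D` there are `ν ≠ 0`, `α`, `β` of degrees `≤ D` with `f α + q β = ν(u)`.

Proof. For every `i`: `exists_crv` and `lemK1` (`u` is transcendental in the function field: if `ν(π u) = 0` for a complex polynomial then the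
product with its conjugate is a real polynomial `ν'` with `ν'(π u) = 0`, `p_i ∣ ν'(u)`): `f α_i - ν_i(u) = - p_i β_i`, degrees bounded (the degree of
`β_i` is at most the degree of the left side). The product of the equations `ν_i(u) = f α_i + p_i β_i`, each taken `m_i` times:
`∏ ν_i(u)^(m_i) = f (...) + ∏ p_i^(m_i) ∏ β_i^(m_i)`: `∏ (f α_i + p_i β_i)^(m_i) - ∏ (p_i β_i)^(m_i)` is divisible by `f` with a quotient of bounded degree
(induction on the number of factors; or: the quotient of a polynomial of bounded degree by `f ≠ 0` has bounded degree).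

`exists_lin`: two linear forms as new variables: for all but finitely many real `l` the polynomial `X 0 + l X 1` is not algebraic modulo any
`p_i` (if `ν(X 0 + l X 1)` is divisible by the irreducible polynomial `p_i`, then `p_i` divides, hence is associated to, a real irreducible polynomial in
`X 0 + l X 1`, which changes sign, so it is `X 0 + l X 1 - c`; for one `p_i` this happens for at most one `l`).
-/

namespace Pool.Agent.Helper10.GN

open VC FF MvPolynomial Pool.Agent.Helper68.QM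

variable {ι : Type} [Fintype ι]

private theorem deg_aeval67 (u : A) (ν : Polynomial ℝ) :
    (Polynomial.aeval u ν).totalDegree ≤ ν.natDegree * u.totalDegree := by
  rw [Polynomial.aeval_eq_sum_range]
  refine totalDegree_finsetSum_le fun i hi => ?_
  rw [Finset.mem_range] at hi
  refine (totalDegree_smul_le _ _).trans ((totalDegree_pow _ _).trans ?_)
  exact Nat.mul_le_mul_right _ (by omega)

private theorem trans67 {F : Type} [Field F] [Algebra ℂ F] {s : RStr F} {p : A} {π : CP →ₐ[ℂ] F}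
    (hc : IsCrv p s π) (u : A) (hu : ∀ ν : Polynomial ℝ, ν ≠ 0 → ¬ p ∣ Polynomial.aeval u ν) :
    Transcendental ℂ (π (cx u)) := by
  intro halg
  let _ : Algebra ℝ F := ((algebraMap ℂ F).comp (algebraMap ℝ ℂ)).toAlgebra
  have _ : IsScalarTower ℝ ℂ F := IsScalarTower.of_algebraMap_eq fun x => rfl
  have h1 : IsAlgebraic ℝ (π (cx u)) := IsAlgebraic.restrictScalars ℝ halg
  obtain ⟨ν, hν, h2⟩ := h1
  refine hu ν hν ?_
  rw [← hc.eq_zero_iff]
  have h3 := Polynomial.hom_eval₂ ν (algebraMap ℝ A) ((π : CP →+* F).comp cx) u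
  rw [← Polynomial.aeval_def] at h3
  have h4 : ((π : CP →+* F).comp cx).comp (algebraMap ℝ A) = algebraMap ℝ F := by
    ext r
    change π (cx (C r)) = algebraMap ℂ F (algebraMap ℝ ℂ r)
    rw [cx_C, IsCrv.pi_C]
    rfl
  rw [h4] at h3
  change ((π : CP →+* F).comp cx) _ = 0
  rw [h3]
  exact h2

private theorem nu_one67 {p : A} (hirr : Irreducible p) (hsc : SC p) (u : A)
    (hu : ∀ ν : Polynomial ℝ, ν ≠ 0 → ¬ p ∣ Polynomial.aeval u ν) (d : ℕ) :
    ∃ D : ℕ, ∀ f : A, f.totalDegree ≤ d → ¬ p ∣ f →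
      ∃ (ν : Polynomial ℝ) (α β : A), ν ≠ 0 ∧ ν.natDegree ≤ D ∧ α.totalDegree ≤ D ∧
        β.totalDegree ≤ D ∧ f * α + p * β = Polynomial.aeval u ν := by
  obtain ⟨F, _, _, s, π, hF, hc⟩ := exists_crv hirr hsc
  obtain ⟨D, hD⟩ := lemK1 hF hc u (trans67 hc u hu) d
  refine ⟨D + d + D * u.totalDegree, fun f hf hpf => ?_⟩
  obtain ⟨fs, ν, hν, hνD, hfs, c, hc'⟩ := hD f hf hpf
  have h1 : (f * fs - Polynomial.aeval u ν).totalDegree ≤ d + D + D * u.totalDegree := by
    refine (totalDegree_sub _ _).trans (max_le ?_ ?_)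
    · refine (totalDegree_mul _ _).trans ?_
      omega
    · refine (deg_aeval67 u ν).trans ?_
      have := Nat.mul_le_mul_right u.totalDegree hνD
      omega
  have h2 : c.totalDegree ≤ d + D + D * u.totalDegree := by
    rcases eq_or_ne c 0 with rfl | hc0
    · rw [totalDegree_zero]
      exact Nat.zero_le _
    · rw [hc', totalDegree_mul_of_isDomain hirr.ne_zero hc0] at h1
      omega
  refine ⟨ν, fs, -c, hν, by omega, by omega, ?_, ?_⟩
  · rw [totalDegree_neg]
    omega
  · linear_combination hc'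

/-- the product of two relations -/
private theorem nu_mul67 {u f q q' α β α' β' : A} {ν ν' : Polynomial ℝ} {d D D' : ℕ} (hf : f.totalDegree ≤ d)
    (hν : ν ≠ 0) (hν' : ν' ≠ 0) (h1 : ν.natDegree ≤ D) (h1' : ν'.natDegree ≤ D') (h2 : α.totalDegree ≤ D)
    (h2' : α'.totalDegree ≤ D') (h3 : β.totalDegree ≤ D) (h3' : β'.totalDegree ≤ D')
    (h4 : f * α + q * β = Polynomial.aeval u ν) (h4' : f * α' + q' * β' = Polynomial.aeval u ν') :
    ∃ (ν : Polynomial ℝ) (α β : A), ν ≠ 0 ∧ ν.natDegree ≤ D + D' + d + q.totalDegree + q'.totalDegree ∧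
      α.totalDegree ≤ D + D' + d + q.totalDegree + q'.totalDegree ∧
      β.totalDegree ≤ D + D' + d + q.totalDegree + q'.totalDegree ∧ f * α + q * q' * β = Polynomial.aeval u ν := by
  refine ⟨ν * ν', f * α * α' + α * q' * β' + q * β * α', β * β', mul_ne_zero hν hν', ?_, ?_, ?_, ?_⟩
  · refine Polynomial.natDegree_mul_le.trans ?_
    omega
  · refine (totalDegree_add _ _).trans (max_le ((totalDegree_add _ _).trans (max_le ?_ ?_)) ?_)
    · refine (totalDegree_mul _ _).trans ?_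
      have := totalDegree_mul f α
      omega
    · refine (totalDegree_mul _ _).trans ?_
      have := totalDegree_mul α q'
      omega
    · refine (totalDegree_mul _ _).trans ?_
      have := totalDegree_mul q β
      omega
  · refine (totalDegree_mul _ _).trans ?_
    omega
  · rw [map_mul, ← h4, ← h4']
    ring

private theorem nu_pow67 {p : A} (hirr : Irreducible p) (hsc : SC p) (u : A)
    (hu : ∀ ν : Polynomial ℝ, ν ≠ 0 → ¬ p ∣ Polynomial.aeval u ν) (d : ℕ) (m : ℕ) :
    ∃ D : ℕ, ∀ f : A, f.totalDegree ≤ d → ¬ p ∣ f →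
      ∃ (ν : Polynomial ℝ) (α β : A), ν ≠ 0 ∧ ν.natDegree ≤ D ∧ α.totalDegree ≤ D ∧
        β.totalDegree ≤ D ∧ f * α + p ^ m * β = Polynomial.aeval u ν := by
  induction m with
  | zero =>
    refine ⟨0, fun f hf hpf => ⟨1, 0, 1, one_ne_zero, ?_, ?_, ?_, ?_⟩⟩
    · rw [Polynomial.natDegree_one]
    · rw [totalDegree_zero]
    · rw [totalDegree_one]
    · rw [map_one, pow_zero, mul_zero, zero_add, mul_one]
  | succ m ih =>
    obtain ⟨D, hD⟩ := ih
    obtain ⟨D', hD'⟩ := nu_one67 hirr hsc u hu d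
    refine ⟨D + D' + d + (p ^ m).totalDegree + p.totalDegree, fun f hf hpf => ?_⟩
    obtain ⟨ν, α, β, hν, h1, h2, h3, h4⟩ := hD f hf hpf
    obtain ⟨ν', α', β', hν', h1', h2', h3', h4'⟩ := hD' f hf hpf
    rw [pow_succ]
    exact nu_mul67 hf hν hν' h1 h1' h2 h2' h3 h3' h4 h4'

omit [Fintype ι] in
private theorem nu_all67 {p : ι → A} (hirr : ∀ i, Irreducible (p i)) (hsc : ∀ i, SC (p i))
    (m : ι → ℕ) (u : A) (hu : ∀ i, ∀ ν : Polynomial ℝ, ν ≠ 0 → ¬ p i ∣ Polynomial.aeval u ν)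
    (d : ℕ) (S : Finset ι) :
    ∃ D : ℕ, ∀ f : A, f.totalDegree ≤ d → (∀ i ∈ S, ¬ p i ∣ f) →
      ∃ (ν : Polynomial ℝ) (α β : A), ν ≠ 0 ∧ ν.natDegree ≤ D ∧ α.totalDegree ≤ D ∧
        β.totalDegree ≤ D ∧ f * α + (∏ i ∈ S, p i ^ m i) * β = Polynomial.aeval u ν := by
  classical
  induction S using Finset.induction_on with
  | empty =>
    refine ⟨0, fun f hf hpf => ⟨1, 0, 1, one_ne_zero, ?_, ?_, ?_, ?_⟩⟩
    · rw [Polynomial.natDegree_one]
    · rw [totalDegree_zero]
    · rw [totalDegree_one]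
    · rw [map_one, Finset.prod_empty, mul_zero, zero_add, mul_one]
  | insert a S ha ih =>
    obtain ⟨D', hD'⟩ := ih
    obtain ⟨D, hD⟩ := nu_pow67 (hirr a) (hsc a) u (hu a) d (m a)
    refine ⟨D + D' + d + (p a ^ m a).totalDegree + (∏ i ∈ S, p i ^ m i).totalDegree, fun f hf hpf => ?_⟩
    obtain ⟨ν, α, β, hν, h1, h2, h3, h4⟩ := hD f hf (hpf a (Finset.mem_insert_self _ _))
    obtain ⟨ν', α', β', hν', h1', h2', h3', h4'⟩ := hD' f hf fun i hi => hpf i (Finset.mem_insert_of_mem hi)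
    rw [Finset.prod_insert ha]
    exact nu_mul67 hf hν hν' h1 h1' h2 h2' h3 h3' h4 h4'

theorem exists_nu {p : ι → A} (hirr : ∀ i, Irreducible (p i)) (hsc : ∀ i, SC (p i))
    (m : ι → ℕ) (u : A) (hu : ∀ i, ∀ ν : Polynomial ℝ, ν ≠ 0 → ¬ p i ∣ Polynomial.aeval u ν)
    (d : ℕ) :
    ∃ D : ℕ, ∀ f : A, f.totalDegree ≤ d → (∀ i, ¬ p i ∣ f) →
      ∃ (ν : Polynomial ℝ) (α β : A), ν ≠ 0 ∧ ν.natDegree ≤ D ∧ α.totalDegree ≤ D ∧
        β.totalDegree ≤ D ∧ f * α + (∏ i, p i ^ m i) * β = Polynomial.aeval u ν := by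
  obtain ⟨D, hD⟩ := nu_all67 hirr hsc m u hu d Finset.univ
  exact ⟨D, fun f hf hpf => hD f hf fun i _ => hpf i⟩

theorem exists_lin {p : ι → A} (hirr : ∀ i, Irreducible (p i)) (hsc : ∀ i, SC (p i)) :
    {l : ℝ | ¬ ∀ i, ∀ ν : Polynomial ℝ, ν ≠ 0 →
      ¬ p i ∣ Polynomial.aeval (X 0 + C l * X 1 : A) ν}.Finite := by
  have h1 : ∀ i, {l : ℝ | ∃ ν : Polynomial ℝ, ν ≠ 0 ∧ p i ∣ Polynomial.aeval (X 0 + C l * X 1 : A) ν}.Subsingleton := by
    intro i l hl l' hl'
    obtain ⟨ν, hν, hd⟩ := hl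
    obtain ⟨ν', hν', hd'⟩ := hl'
    by_contra hne
    have key : ∀ (l : ℝ) (ν : Polynomial ℝ), ν ≠ 0 → p i ∣ Polynomial.aeval (X 0 + C l * X 1 : A) ν →
        ∀ z : Fin 2 → ℝ, eval z (p i) = 0 → z 0 + l * z 1 ∈ ν.roots.toFinset := by
      intro l ν hν hd z hz
      rw [Multiset.mem_toFinset, Polynomial.mem_roots hν, Polynomial.IsRoot.def]
      obtain ⟨c, hc⟩ := hd
      have h2 := congrArg (eval z) hc
      rw [map_mul, hz, zero_mul] at h2
      have h3 : eval z (Polynomial.aeval (X 0 + C l * X 1 : A) ν) = Polynomial.eval (z 0 + l * z 1) ν := by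
        have h4 := Polynomial.hom_eval₂ ν (algebraMap ℝ A) (eval z) (X 0 + C l * X 1 : A)
        rw [← Polynomial.aeval_def] at h4
        rw [h4, map_add, map_mul, eval_X, eval_X, eval_C, Polynomial.eval, Polynomial.eval₂_eq_sum_range,
          Polynomial.eval₂_eq_sum_range]
        refine Finset.sum_congr rfl fun j _ => ?_
        congr 1
        exact eval_C _
      rw [← h3, h2]
    refine infinite_zeros (hsc i) ?_
    have hfin : ((ν.roots.toFinset ×ˢ ν'.roots.toFinset : Finset (ℝ × ℝ)) : Set (ℝ × ℝ)).Finite := Finset.finite_toSet _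
    refine Set.Finite.of_finite_image (f := fun z : Fin 2 → ℝ => ((z 0 + l * z 1, z 0 + l' * z 1) : ℝ × ℝ)) (hfin.subset ?_) ?_
    · rintro _ ⟨z, hz, rfl⟩
      rw [Finset.mem_coe, Finset.mem_product]
      exact ⟨key l ν hν hd z hz, key l' ν' hν' hd' z hz⟩
    · intro z _ w _ hzw
      have e1 : z 0 + l * z 1 = w 0 + l * w 1 := congrArg Prod.fst hzw
      have e2 : z 0 + l' * z 1 = w 0 + l' * w 1 := congrArg Prod.snd hzw
      have e3 : (l - l') * (z 1 - w 1) = 0 := by linear_combination e1 - e2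
      have e4 : z 1 = w 1 := by
        rcases mul_eq_zero.1 e3 with h | h
        · exact absurd (sub_eq_zero.1 h) hne
        · exact sub_eq_zero.1 h
      have e5 : z 0 = w 0 := by
        rw [e4] at e1
        linarith
      funext j
      fin_cases j
      · exact e5
      · exact e4
  refine (Set.finite_iUnion fun i => (h1 i).finite).subset ?_
  intro l hl
  rw [Set.mem_ofPred_eq] at hl
  push Not at hl
  obtain ⟨i, ν, hν, hd⟩ := hl
  exact Set.mem_iUnion.2 ⟨i, ν, hν, hd⟩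

end Pool.Agent.Helper10.GN
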