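import Pool.Agent.Helper10.GN.Appr
import Pool.Agent.Helper10.GN.Sdx
import Pool.Agent.Helper10.GN.PosB

set_option autoImplicit false

/-!
# Project GN, block POSF: positive functions with prescribed zeros

Proof. Choose a real uniformizer at every real `P ∈ Z` (`exists_real_unif`). By `appr_real` (with the finite set `Z`; the target is
`y P = (uniformizer at P)^N` for real `P ∈ Z` and `0` for nonreal `P ∈ Z`; precision `r = N + 1` (then the order at real `P ∈ Z` is exactly `N`);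
for nonreal `P` precision `N + 1 ≥ N`) there is a real `h₁`, regular outside `S` (targets are regular: so `h₁` is regular at
`Z` too); if `Z` has no real places make sure that `h₁ ≠ 0` (add to `Z` one more real place or a further point where the target is `1`; or
take `h₁` from `exists_pole`-type functions; or if `Z = ∅` take `h₁ = 1`). Let `Z'` be the finite set of the real
zeros of `h₁` outside `Z`; `appr_real` for `Z ∪ Z'`: a real `h₂` regular outside `S` with
`Oge P (N + 1) h₂` on `Z` and `Oge P 1 (h₂ - 1)` on `Z'`. `h = c (h₁² + h₂²)`: at real `P ∈ Z` the order is `2 N` with positive leading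
coefficient; at `Z'` the value is `c`; at the other real places `h₁(P)² > 0`; bounded on the real places (`bdd`), so choose the constant
`c > 0` with `rv ≤ 1/2`. `PosAt` at `P ∈ Z`: divide by `h₁²`.
-/

namespace Pool.Agent.Helper10.GN

open VC FF

variable {F : Type} [Field F] [Algebra ℂ F] {s : RStr F} (hF : IsFunctionField ℂ F)

private theorem ord_eq67 {P : Place ℂ F} {n : ℤ} {f : F} (h : Oge P n f) (h' : ¬ Oge P (n + 1) f) :
    ord P.ring f = n := by
  unfold Oge at h h'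
  rw [not_or] at h'
  rcases h with h | h
  · exact absurd h h'.1
  · have := h'.2
    omega

private theorem sum_ne67 {f g : F} (hf : s.σ f = f) (hg : s.σ g = g) (h0 : f ≠ 0) : f ^ 2 + g ^ 2 ≠ 0 := by
  intro h
  have hg0 : g ≠ 0 := by
    rintro rfl
    apply h0
    have : f ^ 2 = 0 := by linear_combination h
    exact pow_eq_zero_iff (two_ne_zero) |>.1 this
  have hI : (algebraMap ℂ F Complex.I) ^ 2 = -1 := by
    rw [← map_pow, Complex.I_sq, map_neg, map_one]
  have h1 : (f / g) ^ 2 = (algebraMap ℂ F Complex.I) ^ 2 := by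
    rw [hI, div_pow, div_eq_iff (pow_ne_zero 2 hg0)]
    linear_combination h
  have h2 : s.σ (f / g) = f / g := by rw [map_div₀, hf, hg]
  have h3 : s.σ (algebraMap ℂ F Complex.I) = -algebraMap ℂ F Complex.I := by
    rw [s.alg, Complex.conj_I, map_neg]
  have h4 : algebraMap ℂ F Complex.I ≠ 0 := by
    rw [Ne, map_eq_zero]
    exact Complex.I_ne_zero
  have h5 : (2 : F) ≠ 0 := by
    have : (2 : F) = algebraMap ℂ F 2 := by rw [map_ofNat]
    rw [this, Ne, map_eq_zero]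
    exact two_ne_zero
  rcases sq_eq_sq_iff_eq_or_eq_neg.1 h1 with h6 | h6
  · rw [h6, h3] at h2
    have h7 : (2 : F) * algebraMap ℂ F Complex.I = 0 := by linear_combination -h2
    exact (mul_ne_zero h5 h4) h7
  · rw [h6, map_neg, h3] at h2
    have h7 : (2 : F) * algebraMap ℂ F Complex.I = 0 := by linear_combination h2
    exact (mul_ne_zero h5 h4) h7

theorem posfn {S : Finset (Place ℂ F)} (hS : SData s S) (Z : Finset (Place ℂ F))
    (hZ : Disjoint Z S) (hcj : ∀ P ∈ Z, s.cj P ∈ Z) (N : ℕ) :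
    ∃ h : F, h ≠ 0 ∧ s.σ h = h ∧ (∀ P, P ∉ S → h ∈ P.ring) ∧ (∀ P ∈ Z, Oge P (2 * N) h) ∧
      (∀ P ∈ Z, s.cj P = P → ord P.ring h = 2 * N) ∧
      (∀ P, s.cj P = P → PosAt s hF P h ∧ rv hF P h ≤ 1 / 2) ∧
      ∀ P, s.cj P = P → P ∉ Z → 0 < rv hF P h := by
  classical
  obtain ⟨S', hS', hd'⟩ := exists_sdata s hF (Z ∪ S)
  have hZS' : ∀ P ∈ Z, P ∉ S' := fun P hP h =>
    Finset.disjoint_left.1 hd' (Finset.mem_union_left _ hP) h
  have hSS' : ∀ P ∈ S, P ∉ S' := fun P hP h =>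
    Finset.disjoint_left.1 hd' (Finset.mem_union_right _ hP) h
  have hu : ∀ P : Place ℂ F, ∃ π : F, s.cj P = P → π ≠ 0 ∧ s.σ π = π ∧ ord P.ring π = 1 := by
    intro P
    by_cases h : s.cj P = P
    · obtain ⟨π, h1⟩ := exists_real_unif s hF h
      exact ⟨π, fun _ => h1⟩
    · exact ⟨0, fun h' => absurd h' h⟩
  choose π hπ using hu
  obtain ⟨y, hyd⟩ : ∃ y : Place ℂ F → F, ∀ P, y P =
    if P ∈ S' then 1 else if s.cj P = P then π P ^ N else 0 := ⟨_, fun _ => rfl⟩
  have hcj' : ∀ P ∈ Z ∪ S', s.cj P ∈ Z ∪ S' := by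
    intro P hP
    rcases Finset.mem_union.1 hP with h | h
    · exact Finset.mem_union_left _ (hcj P h)
    · exact Finset.mem_union_right _ (hS'.cj_mem P h)
  have hy : ∀ P ∈ Z ∪ S', Oge P ((N : ℤ) + 1) (s.σ (y (s.cj P)) - y P) := by
    intro P hP
    left
    rw [sub_eq_zero]
    rcases Finset.mem_union.1 hP with h | h
    · have h1 : P ∉ S' := hZS' P h
      have h2 : s.cj P ∉ S' := hZS' _ (hcj P h)
      by_cases hr : s.cj P = P
      · rw [hr, hyd, if_neg h1, if_pos hr, map_pow, (hπ P hr).2.1]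
      · have hr' : ¬ s.cj (s.cj P) = s.cj P := by
          rw [cj_cj]
          exact fun e => hr e.symm
        rw [hyd, if_neg h2, if_neg hr', hyd, if_neg h1, if_neg hr, map_zero]
    · rw [hyd, if_pos (hS'.cj_mem P h), hyd, if_pos h, map_one]
  have hdis : Disjoint (Z ∪ S') S := by
    rw [Finset.disjoint_left]
    intro P hP hPS
    rcases Finset.mem_union.1 hP with h | h
    · exact Finset.disjoint_left.1 hZ h hPS
    · exact hSS' P hPS h
  obtain ⟨h₁, hσ1, ha1, hr1⟩ := appr_real s hF hS (Z ∪ S') hdis hcj' y ((N : ℤ) + 1) hy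
  have hyr : ∀ P, y P ∈ P.ring := by
    intro P
    rw [hyd]
    split_ifs with h1 h2
    · exact P.ring.one_mem
    · have h3 : 0 < ord P.ring (π P) := by rw [(hπ P h2).2.2]; exact one_pos
      exact pow_mem ((FF.ord_nonneg_iff hF P (hπ P h2).1).1 h3.le) N
    · exact P.ring.zero_mem
  have hreg1 : ∀ P, P ∉ S → h₁ ∈ P.ring := by
    intro P hP
    by_cases h : P ∈ Z ∪ S'
    · have h2 := (oge_zero_iff hF).1 ((ha1 P h).mono (by omega))
      have h3 := P.ring.add_mem _ _ h2 (hyr P)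
      rwa [sub_add_cancel] at h3
    · exact hr1 P hP h
  have hne1 : h₁ ≠ 0 := by
    rintro rfl
    obtain ⟨Q, hQ⟩ := hS'.ne
    have h2 := ha1 Q (Finset.mem_union_right _ hQ)
    rw [hyd, if_pos hQ, zero_sub] at h2
    rcases h2 with h2 | h2
    · exact one_ne_zero (neg_eq_zero.1 h2)
    · rw [FF.ord_neg hF Q one_ne_zero, FF.ord_one hF Q] at h2
      omega
  -- the real zeros of `h₁` outside `Z`
  obtain ⟨Z', hZ'⟩ : ∃ Z' : Finset (Place ℂ F), ∀ P, P ∈ Z' ↔
      (ord P.ring h₁ ≠ 0 ∧ P ∉ Z ∧ s.cj P = P) := by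
    refine ⟨(finite_support_ord hF hne1).toFinset.filter fun P => P ∉ Z ∧ s.cj P = P, fun P => ?_⟩
    rw [Finset.mem_filter, Set.Finite.mem_toFinset]
    rfl
  have hcj2 : ∀ P ∈ Z ∪ Z', s.cj P ∈ Z ∪ Z' := by
    intro P hP
    rcases Finset.mem_union.1 hP with h | h
    · exact Finset.mem_union_left _ (hcj P h)
    · rw [((hZ' P).1 h).2.2]
      exact hP
  have hdis2 : Disjoint (Z ∪ Z') S := by
    rw [Finset.disjoint_left]
    intro P hP hPS
    rcases Finset.mem_union.1 hP with h | h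
    · exact Finset.disjoint_left.1 hZ h hPS
    · exact hS.cj_ne P hPS ((hZ' P).1 h).2.2
  obtain ⟨y₂, hy2d⟩ : ∃ y₂ : Place ℂ F → F, ∀ P, y₂ P = if P ∈ Z' then 1 else 0 := ⟨_, fun _ => rfl⟩
  have hy2 : ∀ P ∈ Z ∪ Z', Oge P ((N : ℤ) + 1) (s.σ (y₂ (s.cj P)) - y₂ P) := by
    intro P hP
    left
    rw [sub_eq_zero]
    rcases Finset.mem_union.1 hP with h | h
    · have h1 : P ∉ Z' := fun h' => ((hZ' P).1 h').2.1 h
      have h2 : s.cj P ∉ Z' := fun h' => ((hZ' _).1 h').2.1 (hcj P h)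
      rw [hy2d, if_neg h2, hy2d, if_neg h1, map_zero]
    · rw [((hZ' P).1 h).2.2, hy2d, if_pos h, map_one]
  obtain ⟨h₂, hσ2, ha2, hr2⟩ := appr_real s hF hS (Z ∪ Z') hdis2 hcj2 y₂ ((N : ℤ) + 1) hy2
  have hyr2 : ∀ P, y₂ P ∈ P.ring := by
    intro P
    rw [hy2d]
    split_ifs
    · exact P.ring.one_mem
    · exact P.ring.zero_mem
  have hreg2 : ∀ P, P ∉ S → h₂ ∈ P.ring := by
    intro P hP
    by_cases h : P ∈ Z ∪ Z'
    · have h2 := (oge_zero_iff hF).1 ((ha2 P h).mono (by omega))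
      have h3 := P.ring.add_mem _ _ h2 (hyr2 P)
      rwa [sub_add_cancel] at h3
    · exact hr2 P hP h
  have hreal : ∀ P, s.cj P = P → P ∉ S := fun P hP h => hS.cj_ne P h hP
  set h₀ : F := h₁ ^ 2 + h₂ ^ 2 with hh0
  have h0ne : h₀ ≠ 0 := sum_ne67 hσ1 hσ2 hne1
  have h0σ : s.σ h₀ = h₀ := by rw [hh0, map_add, map_pow, map_pow, hσ1, hσ2]
  have h0reg : ∀ P, P ∉ S → h₀ ∈ P.ring := fun P hP =>
    P.ring.add_mem _ _ (pow_mem (hreg1 P hP) 2) (pow_mem (hreg2 P hP) 2)
  have h0sos : Sos s h₀ := (Sos.sq hσ1).add (Sos.sq hσ2)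
  -- the orders on `Z`
  have hZ2 : ∀ P ∈ Z, Oge P (2 * (N : ℤ) + 2) (h₂ ^ 2) := by
    intro P hP
    have h1 := ha2 P (Finset.mem_union_left _ hP)
    rw [hy2d, if_neg (fun h' => ((hZ' P).1 h').2.1 hP), sub_zero] at h1
    exact (oge_pow hF h1 2).mono (by push_cast; omega)
  have hZ1 : ∀ P ∈ Z, Oge P (N : ℤ) h₁ := by
    intro P hP
    have h1 := ha1 P (Finset.mem_union_left _ hP)
    have h2 : Oge P (N : ℤ) (y P) := by
      rw [hyd, if_neg (hZS' P hP)]
      split_ifs with hr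
      · right
        rw [FF.ord_pow hF P (hπ P hr).1, (hπ P hr).2.2, mul_one]
      · exact Or.inl rfl
    have h3 := oge_add hF (h1.mono (by omega : (N : ℤ) ≤ (N : ℤ) + 1)) h2
    rwa [sub_add_cancel] at h3
  have hZ0 : ∀ P ∈ Z, Oge P (2 * (N : ℤ)) h₀ := fun P hP =>
    oge_add hF ((oge_pow hF (hZ1 P hP) 2).mono (by push_cast; omega)) ((hZ2 P hP).mono (by omega))
  have hZr : ∀ P ∈ Z, s.cj P = P → ord P.ring h₀ = 2 * (N : ℤ) := by
    intro P hP hr
    refine ord_eq67 (hZ0 P hP) fun h => ?_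
    have h1 : Oge P (2 * (N : ℤ) + 1) (h₁ ^ 2) := by
      have h2 := oge_sub hF h ((hZ2 P hP).mono (by omega : 2 * (N : ℤ) + 1 ≤ 2 * (N : ℤ) + 2))
      rwa [hh0, add_sub_cancel_right] at h2
    rcases h1 with h1 | h1
    · exact hne1 (pow_eq_zero_iff (two_ne_zero) |>.1 h1)
    · rw [FF.ord_pow hF P hne1] at h1
      push_cast at h1
      have h2 : Oge P ((N : ℤ) + 1) h₁ := Or.inr (by omega)
      have h3 := oge_sub hF h2 (ha1 P (Finset.mem_union_left _ hP))
      rw [sub_sub_cancel, hyd, if_neg (hZS' P hP), if_pos hr] at h3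
      rcases h3 with h3 | h3
      · exact pow_ne_zero N (hπ P hr).1 h3
      · rw [FF.ord_pow hF P (hπ P hr).1, (hπ P hr).2.2, mul_one] at h3
        omega
  -- positivity outside `Z`
  have hpos0 : ∀ P, s.cj P = P → P ∉ Z → 0 < rv hF P h₀ := by
    intro P hP hPZ
    have m1 := hreg1 P (hreal P hP)
    have m2 := hreg2 P (hreal P hP)
    rw [hh0, rv_add hF (pow_mem m1 2) (pow_mem m2 2), rv_pow s hF hP m1 hσ1, rv_pow s hF hP m2 hσ2]
    by_cases h : P ∈ Z'
    · have h1 := ha2 P (Finset.mem_union_right _ h)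
      rw [hy2d, if_pos h] at h1
      have h2 : vl hF P h₂ = 1 := by
        rw [vl_eq_iff hF m2, map_one]
        exact (oge_one_iff hF).1 (h1.mono (by omega))
      have h3 : rv hF P h₂ = 1 := by
        unfold rv
        rw [h2, Complex.one_re]
      rw [h3]
      positivity
    · have h1 : ord P.ring h₁ = 0 := by
        by_contra hne
        exact h ((hZ' P).2 ⟨hne, hPZ, hP⟩)
      have h2 : vl hF P h₁ ≠ 0 := vl_ne_zero hF hne1 h1
      have h3 : rv hF P h₁ ≠ 0 := by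
        intro h4
        rw [vl_real s hF hP hσ1, h4, Complex.ofReal_zero] at h2
        exact h2 rfl
      positivity
  -- the constant
  obtain ⟨C, hC, hCb⟩ := bdd hF (s := s) (f := h₀) (fun P hP => h0reg P (hreal P hP))
  set c : ℝ := 1 / (2 * C) with hc
  have hc0 : 0 < c := by positivity
  have hcne : (algebraMap ℂ F (c : ℂ)) ≠ 0 := by
    rw [Ne, map_eq_zero]
    exact_mod_cast hc0.ne'
  have hcσ : s.σ (algebraMap ℂ F (c : ℂ)) = algebraMap ℂ F (c : ℂ) := by
    rw [s.alg, Complex.conj_ofReal]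
  have hrv : ∀ P, s.cj P = P → rv hF P (algebraMap ℂ F (c : ℂ) * h₀) = c * rv hF P h₀ := by
    intro P hP
    rw [rv_mul s hF hP (P.algebraMap_mem _) (h0reg P (hreal P hP)) hcσ h0σ, rv_ofReal]
  refine ⟨algebraMap ℂ F (c : ℂ) * h₀, mul_ne_zero hcne h0ne, ?_, ?_, ?_, ?_, ?_, ?_⟩
  · rw [map_mul, hcσ, h0σ]
  · exact fun P hP => P.ring.mul_mem _ _ (P.algebraMap_mem _) (h0reg P hP)
  · intro P hP
    have h1 := oge_mul hF (oge_alg hF (P := P) (c : ℂ)) (hZ0 P hP)
    rwa [zero_add] at h1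
  · intro P hP hr
    rw [FF.ord_mul hF P hcne h0ne, FF.ord_algebraMap hF P (by exact_mod_cast hc0.ne'), zero_add, hZr P hP hr]
  · intro P hP
    refine ⟨((Sos.const hc0.le).mul h0sos).posAt (mul_ne_zero hcne h0ne) hP, ?_⟩
    rw [hrv P hP]
    have h1 : rv hF P h₀ ≤ C := (Complex.re_le_norm _).trans (hCb P hP)
    calc c * rv hF P h₀ ≤ c * C := mul_le_mul_of_nonneg_left h1 hc0.le
      _ = 1 / 2 := by rw [hc]; field_simp
  · intro P hP hPZ
    rw [hrv P hP]
    exact mul_pos hc0 (hpos0 P hP hPZ)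

end Pool.Agent.Helper10.GN
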