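import Pool.Agent.Helper10.GN.Glu
import Pool.Agent.Helper10.GN.MemO
import Pool.Agent.Helper10.GN.SosB

set_option autoImplicit false

/-!
# Project GN, block ROT: rotations on one curve

`loc_real`: if `x` is real and `b x = a` (`a, b : CP`, `b(z) ≠ 0`, `z` real) multiply by `cjp b`: `b * cjp b = cx b'`,
`a * cjp b = cx a' + i cx a''`, so `π (cx b') x = π (cx a') + i π (cx a'')` and, as `x` is real,
`π (cx b') x = π (cx a')`; `b'(z) = |b(z)|² ≠ 0`.

`rot_smooth`: `z` a real smooth point of the curve, `P` the place over it (real). `s = B + b`, `e = B - b` (as functions), `∑ e_j s_j = 0` on the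
curve. `a` (hypothesis `h`) is the minimum of the orders of the `s_j` at `P`, all `e_j` have order `≥ a`. `|s|² = ∑ s_j²` has order exactly
`2 a` (real place), in particular is not `0`. `x_ij = (e_i s_j - e_j s_i)/|s|²` is regular at `P`, real, so it is in the local ring
(`loc_smooth`), `x_ij = m_ij / D_ij` with real polynomials (`loc_real`), `D_ij(z) ≠ 0`; common denominator `D = ∏ D_ij`, `M i j` for `i < j` and
antisymmetric continuation. `∑_j x_ij s_j = (e_i |s|² - s_i (e·s))/|s|² = e_i` gives `p ∣ ∑ M i j s_j - D e_i` (`IsCrv.eq_zero_iff`).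
`rot_van`: `z` a smooth point or a node, with `Oge P (a + 1) (e_j)` at all places `P` over `z`, `a` = minimum of the orders of the
`s_j` at `P`. Now the `x_ij` vanish at all places over `z`, so they are in the local ring: smooth case as before; node: `node_places` and
`loc_of_cond` (order `1` at both places). `x_ij = m_ij/D_ij`, `m_ij(z) = 0` because `x_ij` vanishes at a place over `z` (`vl_over`). `b = B` at `z` because
the `e_j` vanish at a place over `z`: `a ≥ 0`, since the order of the `s_j` with `¬ Oge P (a + 1)` is `a` and `s_j` is regular.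
-/

namespace Pool.Agent.Helper10.GN

open VC FF MvPolynomial Pool.Agent.Helper68.QM

variable {F : Type} [Field F] [Algebra ℂ F] {s : RStr F} (hF : IsFunctionField ℂ F)
variable {p : A} {π : CP →ₐ[ℂ] F}

private theorem zbar_cz38 (z : Fin 2 → ℝ) : zbar (cz z) = cz z := by
  funext m
  exact Complex.conj_ofReal _

theorem loc_real (hc : IsCrv p s π) {z : Fin 2 → ℝ} {x : F} (hx : s.σ x = x)
    (h : Loc π (cz z) x) : ∃ a b : A, eval z b ≠ 0 ∧ π (cx b) * x = π (cx a) := by
  obtain ⟨a, b, hb, hab⟩ := h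
  obtain ⟨b', hb'⟩ := (cjp_eq_iff (cjp b * b)).1 (by rw [map_mul, cjp_cjp, mul_comm])
  obtain ⟨a', a'', ha'⟩ := exists_re_im (cjp b * a)
  refine ⟨a', b', ?_, ?_⟩
  · intro h0
    have h1 : eval (cz z) (cx b') = 0 := by rw [eval_cx, h0, Complex.ofReal_zero]
    rw [← hb', map_mul, eval_cjp, zbar_cz38, mul_eq_zero, map_eq_zero] at h1
    exact hb (h1.elim id id)
  · have h1 : π (cx b') * x = π (cx a') + algebraMap ℂ F Complex.I * π (cx a'') := by
      rw [← hb', map_mul, mul_assoc, hab, ← map_mul, ha', map_add, map_mul, IsCrv.pi_C]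
    have h2 := congrArg s.σ h1
    rw [map_mul, hc.real, hx, map_add, map_mul, hc.real, hc.real, s.alg, Complex.conj_I,
      map_neg] at h2
    have h3 : (2 : F) ≠ 0 := by
      have h5 : algebraMap ℂ F 2 ≠ 0 := (map_ne_zero (algebraMap ℂ F)).2 (by norm_num)
      rwa [map_ofNat] at h5
    refine mul_left_cancel₀ h3 ?_
    linear_combination h1 + h2

include hF in
/-- the order of a sum of squares at a real place -/
private theorem ord_sq38 {P : Place ℂ F} (hP : s.cj P = P) {N : ℕ} {S : Fin N → F}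
    (hS : ∀ j, s.σ (S j) = S j) {a : ℤ} (h1 : ∀ j, Oge P a (S j)) {j₀ : Fin N}
    (h2 : ¬ Oge P (a + 1) (S j₀)) : ∑ j, S j ^ 2 ≠ 0 ∧ ord P.ring (∑ j, S j ^ 2) = 2 * a := by
  obtain ⟨t, ht0, hts, ht⟩ := exists_real_unif s hF hP
  have hta : t ^ a ≠ 0 := zpow_ne_zero _ ht0
  have hoa : ord P.ring (t ^ a) = a := by rw [FF.ord_zpow hF P ht0, ht, mul_one]
  have hr : ∀ j, s.σ (S j / t ^ a) = S j / t ^ a := fun j => by
    rw [map_div₀, hS, map_zpow₀, hts]
  have hm : ∀ j, S j / t ^ a ∈ P.ring := fun j => by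
    rw [← oge_zero_iff hF, oge_div_iff hF hta, hoa, zero_add]
    exact h1 j
  have hv : rv hF P (S j₀ / t ^ a) ≠ 0 := by
    intro h3
    apply h2
    have h4 : vl hF P (S j₀ / t ^ a) = 0 := by
      rw [vl_real s hF hP (hr j₀), h3, Complex.ofReal_zero]
    rw [vl_eq_zero hF (hm j₀), oge_div_iff hF hta, hoa, add_comm] at h4
    exact h4
  have hm2 : ∀ j, (S j / t ^ a) ^ 2 ∈ P.ring := fun j => pow_mem (hm j) 2
  have hsum : 0 < rv hF P (∑ j, (S j / t ^ a) ^ 2) := by
    rw [rv_sum hF _ _ fun j _ => hm2 j]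
    have h3 : ∀ j, rv hF P ((S j / t ^ a) ^ 2) = rv hF P (S j / t ^ a) ^ 2 := fun j =>
      rv_pow s hF hP (hm j) (hr j) 2
    simp only [h3]
    refine Finset.sum_pos' (fun j _ => sq_nonneg _) ⟨j₀, Finset.mem_univ _, ?_⟩
    positivity
  have hmem : ∑ j, (S j / t ^ a) ^ 2 ∈ P.ring := P.ring.toSubring.sum_mem fun j _ => hm2 j
  have hvl : vl hF P (∑ j, (S j / t ^ a) ^ 2) ≠ 0 := by
    intro h3
    unfold rv at hsum
    rw [h3, Complex.zero_re] at hsum
    exact lt_irrefl _ hsum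
  have ho := ord_eq_zero_of_vl hF hmem hvl
  have hne : ∑ j, (S j / t ^ a) ^ 2 ≠ 0 := by
    intro h3
    rw [h3, vl_zero] at hvl
    exact hvl rfl
  have he : ∑ j, S j ^ 2 = (∑ j, (S j / t ^ a) ^ 2) * (t ^ a) ^ 2 := by
    rw [Finset.sum_mul]
    refine Finset.sum_congr rfl fun j _ => ?_
    rw [← mul_pow, div_mul_cancel₀ _ hta]
  rw [he]
  refine ⟨mul_ne_zero hne (pow_ne_zero 2 hta), ?_⟩
  rw [FF.ord_mul hF P hne (pow_ne_zero 2 hta), ho, FF.ord_pow hF P hta, hoa]
  push_cast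
  ring

private theorem sum_zero38 (hc : IsCrv p s π) {N : ℕ} (b B : Fin N → A)
    (he : p ∣ ∑ j, B j ^ 2 - ∑ j, b j ^ 2) :
    ∑ j, π (cx (B j - b j)) * π (cx (B j + b j)) = 0 := by
  rw [← (hc.eq_zero_iff _).2 he]
  rw [← Finset.sum_sub_distrib, map_sum, map_sum]
  refine Finset.sum_congr rfl fun j _ => ?_
  rw [← map_mul, ← map_mul]
  congr 2
  ring

/-- common denominators -/
private theorem mat38 (hc : IsCrv p s π) {z : Fin 2 → ℝ} {N : ℕ} (b B : Fin N → A)
    (he : p ∣ ∑ j, B j ^ 2 - ∑ j, b j ^ 2) (hW : ∑ j, π (cx (B j + b j)) ^ 2 ≠ 0)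
    (hx : ∀ i j, Loc π (cz z) ((π (cx (B i - b i)) * π (cx (B j + b j)) -
      π (cx (B j - b j)) * π (cx (B i + b i))) / ∑ j, π (cx (B j + b j)) ^ 2)) :
    ∃ (D : A) (M : Matrix (Fin N) (Fin N) A), eval z D ≠ 0 ∧ (∀ i j, M i j = - M j i) ∧
      (∀ i j, π (cx (M i j)) = π (cx D) * ((π (cx (B i - b i)) * π (cx (B j + b j)) -
        π (cx (B j - b j)) * π (cx (B i + b i))) / ∑ j, π (cx (B j + b j)) ^ 2)) ∧
      ∀ i, p ∣ (∑ j, M i j * (B j + b j)) - D * (B i - b i) := by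
  classical
  set E : Fin N → F := fun j => π (cx (B j - b j)) with hE
  set S : Fin N → F := fun j => π (cx (B j + b j)) with hS
  set W : F := ∑ j, S j ^ 2 with hWd
  have hES : ∑ j, E j * S j = 0 := sum_zero38 hc b B he
  have hEr : ∀ j, s.σ (E j) = E j := fun j => hc.real _
  have hSr : ∀ j, s.σ (S j) = S j := fun j => hc.real _
  have hWr : s.σ W = W := by
    rw [hWd, map_sum]
    refine Finset.sum_congr rfl fun j _ => ?_
    rw [map_pow, hSr]
  have hxr : ∀ i j, s.σ ((E i * S j - E j * S i) / W) = (E i * S j - E j * S i) / W := by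
    intro i j
    rw [map_div₀, map_sub, map_mul, map_mul, hEr, hEr, hSr, hSr, hWr]
  have h1 : ∀ q : Fin N × Fin N, ∃ a b : A, eval z b ≠ 0 ∧
      π (cx b) * ((E q.1 * S q.2 - E q.2 * S q.1) / W) = π (cx a) := fun q =>
    loc_real hc (hxr q.1 q.2) (hx q.1 q.2)
  choose m d hd hm using h1
  set D : A := ∏ q, d q with hD
  have hDd : ∀ q : Fin N × Fin N, D = d q * ∏ r ∈ Finset.univ.erase q, d r := fun q =>
    (Finset.mul_prod_erase _ _ (Finset.mem_univ q)).symm
  have hM0 : ∀ q : Fin N × Fin N, π (cx (m q * ∏ r ∈ Finset.univ.erase q, d r)) =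
      π (cx D) * ((E q.1 * S q.2 - E q.2 * S q.1) / W) := by
    intro q
    rw [map_mul, map_mul, ← hm q]
    conv_rhs => rw [hDd q, map_mul, map_mul]
    ring
  set M : Matrix (Fin N) (Fin N) A := fun i j =>
    C (1 / 2 : ℝ) * (m (i, j) * ∏ r ∈ Finset.univ.erase (i, j), d r -
      m (j, i) * ∏ r ∈ Finset.univ.erase (j, i), d r) with hMd
  have h2 : (2 : F) ≠ 0 := by
    have h5 : algebraMap ℂ F 2 ≠ 0 := (map_ne_zero (algebraMap ℂ F)).2 (by norm_num)
    rwa [map_ofNat] at h5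
  have hM : ∀ i j, π (cx (M i j)) = π (cx D) * ((E i * S j - E j * S i) / W) := by
    intro i j
    have h3 : M i j = C (1 / 2 : ℝ) * (m (i, j) * ∏ r ∈ Finset.univ.erase (i, j), d r -
      m (j, i) * ∏ r ∈ Finset.univ.erase (j, i), d r) := rfl
    rw [h3, map_mul, map_sub, map_mul, map_sub, hM0, hM0, cx_C, IsCrv.pi_C]
    have h4 : algebraMap ℂ F ((1 / 2 : ℝ) : ℂ) = 1 / 2 := by
      rw [Complex.ofReal_div, Complex.ofReal_one, Complex.ofReal_ofNat, map_div₀, map_one,
        map_ofNat]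
    rw [h4]
    field_simp
    ring
  refine ⟨D, M, ?_, ?_, hM, ?_⟩
  · rw [hD, map_prod]
    exact Finset.prod_ne_zero_iff.2 fun q _ => hd q
  · intro i j
    simp only [hMd]
    ring
  · intro i
    rw [← hc.eq_zero_iff, map_sub, map_sub, map_sum, map_sum, sub_eq_zero, map_mul, map_mul]
    have h5 : ∀ j, π (cx (M i j * (B j + b j))) =
        π (cx D) * ((E i * S j - E j * S i) / W * S j) := by
      intro j
      rw [map_mul, map_mul, hM, mul_assoc]
    simp only [h5]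
    rw [← Finset.mul_sum]
    congr 1
    have h6 : ∀ j, (E i * S j - E j * S i) / W * S j = (E i * S j ^ 2 - S i * (E j * S j)) / W :=
      fun j => by ring
    simp only [h6]
    rw [← Finset.sum_div, Finset.sum_sub_distrib, ← Finset.mul_sum, ← Finset.mul_sum, hES,
      mul_zero, sub_zero, ← hWd, mul_div_assoc, div_self hW, mul_one]

theorem rot_smooth (hc : IsCrv p s π) {z : Fin 2 → ℝ} (hz : eval z p = 0) {i : Fin 2}
    (hd : eval z (pderiv i p) ≠ 0) {N : ℕ} (b B : Fin N → A)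
    (he : p ∣ ∑ j, B j ^ 2 - ∑ j, b j ^ 2)
    (h : ∀ P, Over hF π P (cz z) → ∃ a : ℤ, (∀ j, Oge P a (π (cx (B j - b j)))) ∧
      (∀ j, Oge P a (π (cx (B j + b j)))) ∧ ∃ j, ¬ Oge P (a + 1) (π (cx (B j + b j)))) :
    Rot p z b B := by
  obtain ⟨P, hP⟩ := exists_over hF hc (z := cz z) (by rw [eval_cx, hz, Complex.ofReal_zero])
  have hcj := real_smooth hF hc hd hP
  obtain ⟨a, h1, h2, j₀, h3⟩ := h P hP
  obtain ⟨hW, hoW⟩ := ord_sq38 hF hcj (S := fun j => π (cx (B j + b j)))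
    (fun j => hc.real _) h2 h3
  obtain ⟨D, M, hD, hM, -, hdv⟩ := mat38 hc (z := z) b B he hW fun i' j' => by
    refine loc_smooth hF hc (i := i) ?_ hP ?_
    · rw [pderiv_cx, eval_cx]
      exact_mod_cast hd
    · rw [← oge_zero_iff hF, oge_div_iff hF hW, hoW]
      refine (oge_sub hF (oge_mul hF (h1 i') (h2 j')) (oge_mul hF (h1 j') (h2 i'))).mono ?_
      linarith
  exact ⟨D, M, hD, hM, hdv⟩

theorem rot_van (hc : IsCrv p s π) (hp : Irreducible p) {z : Fin 2 → ℝ} (hz : eval z p = 0)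
    (hnode : Sg p z → hess p z < 0) {N : ℕ} (b B : Fin N → A)
    (he : p ∣ ∑ j, B j ^ 2 - ∑ j, b j ^ 2)
    (h : ∀ P, Over hF π P (cz z) → ∃ a : ℤ, (∀ j, Oge P (a + 1) (π (cx (B j - b j)))) ∧
      (∀ j, Oge P a (π (cx (B j + b j)))) ∧ ∃ j, ¬ Oge P (a + 1) (π (cx (B j + b j)))) :
    RotV p z b B := by
  have hz' : eval (cz z) (cx p) = 0 := by rw [eval_cx, hz, Complex.ofReal_zero]
  obtain ⟨P, hP⟩ := exists_over hF hc (z := cz z) hz'
  have key : (∀ R, Over hF π R (cz z) → s.cj R = R) ∧ ∀ f : F, (∀ R, Over hF π R (cz z) →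
      Oge R 1 f) → Loc π (cz z) f := by
    by_cases hsg : Sg p z
    · obtain ⟨P', Q', -, hP', hQ', hR, c, hc0, hcP, hcQ⟩ := node_places hF hc hsg (hnode hsg)
      have hce : cx (∑ i, C (c i) * pderiv i p) = ∑ i, C ((c i : ℝ) : ℂ) * pderiv i (cx p) := by
        rw [map_sum]
        refine Finset.sum_congr rfl fun i _ => ?_
        rw [map_mul, cx_C, pderiv_cx]
      rw [hce] at hc0 hcP hcQ
      refine ⟨fun R h1 => ?_, fun f hf => ?_⟩
      · rcases (hR R).1 h1 with rfl | rfl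
        · exact hP'
        · exact hQ'
      · refine loc_of_cond hF hc hp (fun i => ((c i : ℝ) : ℂ)) hc0 fun R h1 => ?_
        rcases (hR R).1 h1 with rfl | rfl
        · rw [hcP]
          exact hf _ h1
        · rw [hcQ]
          exact hf _ h1
    · obtain ⟨i, hi⟩ : ∃ i, eval z (pderiv i p) ≠ 0 := by
        by_contra hcon
        push Not at hcon
        exact hsg ⟨hz, hcon⟩
      have hi' : eval (cz z) (pderiv i (cx p)) ≠ 0 := by
        rw [pderiv_cx, eval_cx]
        exact_mod_cast hi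
      refine ⟨fun R h1 => real_smooth hF hc hi h1, fun f hf => ?_⟩
      refine loc_smooth hF hc hi' hP ?_
      rw [← oge_zero_iff hF]
      exact (hf P hP).mono (by norm_num)
  obtain ⟨hreal, hloc⟩ := key
  have hsq : ∀ R, Over hF π R (cz z) → ∑ j, π (cx (B j + b j)) ^ 2 ≠ 0 ∧
      ∀ i j, Oge R 1 ((π (cx (B i - b i)) * π (cx (B j + b j)) -
      π (cx (B j - b j)) * π (cx (B i + b i))) / ∑ j, π (cx (B j + b j)) ^ 2) := by
    intro R hR
    obtain ⟨a, h1, h2, j₀, h3⟩ := h R hR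
    obtain ⟨hW, hoW⟩ := ord_sq38 hF (hreal R hR) (S := fun j => π (cx (B j + b j)))
      (fun j => hc.real _) h2 h3
    refine ⟨hW, fun i j => ?_⟩
    rw [oge_div_iff hF hW, hoW]
    refine (oge_sub hF (oge_mul hF (h1 i) (h2 j)) (oge_mul hF (h1 j) (h2 i))).mono ?_
    linarith
  obtain ⟨hW, hx1⟩ := hsq P hP
  obtain ⟨D, M, hD, hM, hMx, hdv⟩ := mat38 hc (z := z) b B he hW fun i j =>
    hloc _ fun R hR => (hsq R hR).2 i j
  refine ⟨fun j => ?_, D, M, hD, hM, fun i j => ?_, hdv⟩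
  · obtain ⟨a, h1, h2, j₀, h3⟩ := h P hP
    have ha : 0 ≤ a := by
      by_contra hcon
      apply h3
      refine ((oge_zero_iff hF).2 (mem_of_fin hP.1 _)).mono ?_
      omega
    have h4 : Oge P 1 (π (cx (B j - b j))) := (h1 j).mono (by omega)
    rw [← vl_eq_zero hF (mem_of_fin hP.1 _), vl_over hF hP, eval_cx, map_sub,
      Complex.ofReal_eq_zero, sub_eq_zero] at h4
    exact h4.symm
  · have h4 : Oge P 1 (π (cx (M i j))) := by
      rw [hMx]
      have h5 := oge_mul hF ((oge_zero_iff hF).2 (mem_of_fin hP.1 (cx D))) (hx1 i j)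
      rwa [zero_add] at h5
    rw [← vl_eq_zero hF (mem_of_fin hP.1 _), vl_over hF hP, eval_cx,
      Complex.ofReal_eq_zero] at h4
    exact h4

end Pool.Agent.Helper10.GN
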