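import Pool.Agent.Helper10.GN.Dat
import Pool.Agent.Helper10.GN.Posf

set_option autoImplicit false

/-!
# Project GN, block SMA: small functions with prescribed jets

For all `N, M, m` and `ε > 0` there is a real function `a`, regular outside `S`, with `a ≡ 1` at `Zs` and `a ≡ 0` at
`Mk` up to order `N`, `a ≡ 0` at `R` up to order `M`, such that `a² W^m / θ` is regular with values `≤ ε` at all real places, where
`W = π (cx (1 + X₀² + X₁²))`.

Proof. Let `N' ≥ N` with `2 N' > ord_P θ` for all `P ∈ Mk`, `M' ≥ M` with `2 M' ≥ 1 + m * (pole order of W at P)` for all `P ∈ R` (there `θ` is a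
unit: `θ_rv` positive). By `appr_real` (`Z = Mk ∪ R ∪ Zs`) there is a real `a₀`, regular outside `S` with `Oge P N' (a₀ - 1)` on
`Zs`, `Oge P N' a₀` on `Mk`, `Oge P M' a₀` on `R`. `a₀² W^m/θ` is regular at all real places (at the real finite places outside `Mk`
`θ` has a positive value), so bounded by `K` (`bdd`). `posfn` with `Z = Zs` gives a real `ϖ`, regular outside `S`,
`Oge P (2 N) ϖ` on `Zs`, with values in `(0, 1/2]` at all real places, and `≥ δ > 0` by `lower`. `a = a₀ (1 - ϖ)^n`: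
`Oge P N (a - 1)` on `Zs`, and the values of `a² W^m/θ` at the real places are `≤ K (1 - δ)^{2n} ≤ ε` for `n` large.
-/

namespace Pool.Agent.Helper10.GN

open VC FF MvPolynomial Pool.Agent.Helper68.QM

variable {F : Type} [Field F] [Algebra ℂ F] {s : RStr F} {hF : IsFunctionField ℂ F} {p : A}
  {π : CP →ₐ[ℂ] F} {S R Zs Mk : Finset (Place ℂ F)}

/-- powers of `1 - f`, `f` small -/
private theorem sma_pow (hF : IsFunctionField ℂ F) {P : Place ℂ F} {f : F} {N : ℤ} (hN : 0 ≤ N)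
    (h : Oge P N f) (n : ℕ) : Oge P N ((1 - f) ^ n - 1) := by
  have hf : f ∈ P.ring := (oge_zero_iff hF).1 (h.mono hN)
  have h1 : (1 : F) - f ∈ P.ring := P.ring.sub_mem P.ring.one_mem hf
  induction n with
  | zero =>
    rw [pow_zero, sub_self]
    exact oge_zero
  | succ n ih =>
    have e : (1 - f) ^ (n + 1) - 1 = ((1 - f) ^ n - 1) * (1 - f) - f := by ring
    rw [e]
    refine oge_sub hF ?_ h
    have h2 := oge_mul hF ih ((oge_zero_iff hF).2 h1)
    rwa [add_zero] at h2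

/-- the first function: prescribed jets, the quotient is regular -/
private theorem sma_first (hd : CData p s hF π S R Zs Mk) {θ : F} (hθ0 : θ ≠ 0)
    (hreg : ∀ P, P ∉ S → θ ∈ P.ring)
    (hrv : ∀ P, s.cj P = P → P ∉ Mk → 0 < rv hF P θ) (N M m : ℕ) (W : F)
    (hW : ∀ P, FinP π P → W ∈ P.ring) :
    ∃ a : F, s.σ a = a ∧ (∀ P, P ∉ S → a ∈ P.ring) ∧ (∀ P ∈ Zs, Oge P N (a - 1)) ∧
      (∀ P ∈ Mk, Oge P N a) ∧ (∀ P ∈ R, Oge P M a) ∧
      ∀ P, s.cj P = P → a ^ 2 * W ^ m / θ ∈ P.ring := by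
  classical
  obtain ⟨-, hSZ, hSM, hRZ, hRM, hZM⟩ := hd.disj
  have hSR := hd.disj.1
  set r : ℕ := N + M + ∑ P ∈ Mk ∪ R, ((ord P.ring θ).natAbs + m * (ord P.ring W).natAbs) with hr
  have hZd : Disjoint (Mk ∪ R ∪ Zs) S := by
    rw [Finset.disjoint_union_left, Finset.disjoint_union_left]
    exact ⟨⟨hSM.symm, hSR.symm⟩, hSZ.symm⟩
  have hcj : ∀ P ∈ Mk ∪ R ∪ Zs, s.cj P ∈ Mk ∪ R ∪ Zs := by
    intro P hP
    rw [Finset.mem_union, Finset.mem_union] at hP
    rcases hP with (hP | hP) | hP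
    · rw [(hd.mark P hP).1]
      exact Finset.mem_union_left _ (Finset.mem_union_left _ hP)
    · rw [((hd.memR P).1 hP).2]
      exact Finset.mem_union_left _ (Finset.mem_union_right _ hP)
    · exact Finset.mem_union_right _ (hd.zs_cj hP).1
  obtain ⟨a, ha, ha1, ha2⟩ := appr_real s hF hd.hS (Mk ∪ R ∪ Zs) hZd hcj
    (fun P => if P ∈ Zs then 1 else 0) (r : ℤ) (by
      intro P hP
      have h1 : s.σ (if s.cj P ∈ Zs then (1 : F) else 0) = if P ∈ Zs then 1 else 0 := by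
        by_cases h : P ∈ Zs
        · rw [if_pos h, if_pos (hd.zs_cj h).1, map_one]
        · have h' : s.cj P ∉ Zs := fun h' => h (by
            have := (hd.zs_cj h').1
            rwa [cj_cj] at this)
          rw [if_neg h, if_neg h', map_zero]
      rw [h1, sub_self]
      exact oge_zero)
  have hr0 : (0 : ℤ) ≤ r := Int.natCast_nonneg r
  have hrN : (N : ℤ) ≤ r := by
    have : N ≤ r := by omega
    exact_mod_cast this
  have hrM : (M : ℤ) ≤ r := by
    have : M ≤ r := by omega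
    exact_mod_cast this
  have haZ : ∀ P ∈ Zs, Oge P r (a - 1) := fun P hP => by
    have := ha1 P (Finset.mem_union_right _ hP)
    rwa [if_pos hP] at this
  have haM : ∀ P ∈ Mk ∪ R, Oge P r a := fun P hP => by
    have h1 : P ∉ Zs := by
      rcases Finset.mem_union.1 hP with h | h
      · exact fun h' => Finset.disjoint_left.1 hZM h' h
      · exact fun h' => Finset.disjoint_left.1 hRZ h h'
    have := ha1 P (Finset.mem_union_left _ hP)
    rwa [if_neg h1, sub_zero] at this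
  have hareg : ∀ P, P ∉ S → a ∈ P.ring := fun P hP => by
    by_cases h : P ∈ Mk ∪ R ∪ Zs
    · rcases Finset.mem_union.1 h with h' | h'
      · exact (oge_zero_iff hF).1 ((haM P h').mono hr0)
      · have h1 := P.ring.add_mem _ _ ((oge_zero_iff hF).1 ((haZ P h').mono hr0)) P.ring.one_mem
        rwa [sub_add_cancel] at h1
    · exact ha2 P hP h
  refine ⟨a, ha, hareg, fun P hP => (haZ P hP).mono hrN,
    fun P hP => (haM P (Finset.mem_union_left _ hP)).mono hrN,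
    fun P hP => (haM P (Finset.mem_union_right _ hP)).mono hrM, fun P hP => ?_⟩
  obtain ⟨hPS, hPZ, hcase⟩ := hd.real_cases hP
  by_cases h : P ∈ Mk ∪ R
  · have hsum : ((ord P.ring θ).natAbs + m * (ord P.ring W).natAbs) ≤
        ∑ P ∈ Mk ∪ R, ((ord P.ring θ).natAbs + m * (ord P.ring W).natAbs) :=
      Finset.single_le_sum (f := fun P : Place ℂ F => (ord P.ring θ).natAbs + m * (ord P.ring W).natAbs)
        (fun _ _ => Nat.zero_le _) h
    have hsum' : ((ord P.ring θ).natAbs + m * (ord P.ring W).natAbs) ≤ r := by omega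
    rw [← oge_zero_iff hF, oge_div_iff hF hθ0]
    have h2 := oge_pow hF (haM P h) 2
    have h3 := oge_pow hF (show Oge P (ord P.ring W) W from Or.inr le_rfl) m
    refine (oge_mul hF h2 h3).mono ?_
    have h4 : (((ord P.ring θ).natAbs : ℤ) + m * ((ord P.ring W).natAbs : ℤ)) ≤ r := by
      exact_mod_cast hsum'
    have h5 : ord P.ring θ ≤ ((ord P.ring θ).natAbs : ℤ) := Int.le_natAbs
    have h6 : -((m : ℤ) * (ord P.ring W)) ≤ (m : ℤ) * ((ord P.ring W).natAbs : ℤ) := by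
      rw [← mul_neg]
      refine mul_le_mul_of_nonneg_left ?_ (Int.natCast_nonneg m)
      rw [← Int.natAbs_neg]
      exact Int.le_natAbs
    push_cast
    linarith
  · have h1 : P ∉ Mk := fun h' => h (Finset.mem_union_left _ h')
    have h2 : P ∉ R := fun h' => h (Finset.mem_union_right _ h')
    have hfin : FinP π P := hd.fin_of hPS h2
    have h3 : vl hF P θ ≠ 0 := by
      intro h0
      have := hrv P hP h1
      unfold rv at this
      rw [h0] at this
      simp at this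
    rw [div_eq_mul_inv]
    exact P.ring.mul_mem _ _ (P.ring.mul_mem _ _ (pow_mem (hareg P hPS) 2)
      (pow_mem (hW P hfin) m)) (vl_inv hF (hreg P hPS) h3).1

theorem exists_small (hd : CData p s hF π S R Zs Mk) {θ : F} (hθ0 : θ ≠ 0) (hθ : s.σ θ = θ)
    (hpos : ∀ P, s.cj P = P → PosAt s hF P θ) (hreg : ∀ P, P ∉ S → θ ∈ P.ring)
    (hrv : ∀ P, s.cj P = P → P ∉ Mk → 0 < rv hF P θ) (N M m : ℕ) (ε : ℝ) (hε : 0 < ε) :
    ∃ a : F, s.σ a = a ∧ (∀ P, P ∉ S → a ∈ P.ring) ∧ (∀ P ∈ Zs, Oge P N (a - 1)) ∧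
      (∀ P ∈ Mk, Oge P N a) ∧ (∀ P ∈ R, Oge P M a) ∧
      ∀ P, s.cj P = P → a ^ 2 * π (cx (1 + X 0 ^ 2 + X 1 ^ 2)) ^ m / θ ∈ P.ring ∧
        rv hF P (a ^ 2 * π (cx (1 + X 0 ^ 2 + X 1 ^ 2)) ^ m / θ) ≤ ε := by
  classical
  have hWσ : s.σ (π (cx (1 + X 0 ^ 2 + X 1 ^ 2))) = π (cx (1 + X 0 ^ 2 + X 1 ^ 2)) := hd.crv.real _
  have hWm : ∀ P, FinP π P → π (cx (1 + X 0 ^ 2 + X 1 ^ 2)) ∈ P.ring := fun P hP => mem_of_fin hP _
  generalize π (cx (1 + X 0 ^ 2 + X 1 ^ 2)) = W at hWσ hWm ⊢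
  obtain ⟨a₀, ha, hareg, haZ, haM, haR, hg⟩ := sma_first hd hθ0 hreg hrv N M m W hWm
  have hgσ : s.σ (a₀ ^ 2 * W ^ m / θ) = a₀ ^ 2 * W ^ m / θ := by
    rw [map_div₀, map_mul, map_pow, map_pow, ha, hWσ, hθ]
  obtain ⟨K, hK0, hK⟩ := bdd hF (s := s) (f := a₀ ^ 2 * W ^ m / θ) hg
  obtain ⟨-, hSZ, -, -, -, -⟩ := hd.disj
  obtain ⟨w, hw0, hwσ, hwreg, hwZ, -, hwR, hwP⟩ := posfn hF hd.hS Zs hSZ.symm
    (fun P hP => (hd.zs_cj hP).1) N
  have hwpos : ∀ P, s.cj P = P → 0 < rv hF P w := fun P hP => hwP P hP (hd.real_cases hP).2.1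
  have hwReg : Reg s w := fun P hP => hwreg P (hd.real_cases hP).1
  obtain ⟨δ, hδ0, hδ⟩ := lower hF hwσ hwReg hwpos
  set d : ℝ := min δ (1 / 2) with hd'
  have hd0 : 0 < d := lt_min hδ0 (by norm_num)
  have hd1 : d ≤ 1 / 2 := min_le_right _ _
  obtain ⟨n, hn⟩ := exists_pow_lt_of_lt_one (show 0 < ε / K by positivity)
    (show 1 - d < 1 by linarith)
  have h1w : ∀ P, P ∉ S → (1 : F) - w ∈ P.ring := fun P hP =>
    P.ring.sub_mem P.ring.one_mem (hwreg P hP)
  have h1wσ : s.σ (1 - w) = 1 - w := by rw [map_sub, map_one, hwσ]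
  refine ⟨a₀ * (1 - w) ^ n, ?_, ?_, ?_, ?_, ?_, ?_⟩
  · rw [map_mul, map_pow, h1wσ, ha]
  · exact fun P hP => P.ring.mul_mem _ _ (hareg P hP) (pow_mem (h1w P hP) n)
  · intro P hP
    have hPS : P ∉ S := (hd.zs_cj hP).2.2.2
    have e : a₀ * (1 - w) ^ n - 1 = (a₀ - 1) * (1 - w) ^ n + ((1 - w) ^ n - 1) := by ring
    rw [e]
    refine oge_add hF ?_ ?_
    · have h2 := oge_mul hF (haZ P hP) ((oge_zero_iff hF).2 (pow_mem (h1w P hPS) n))
      rwa [add_zero] at h2
    · have h3 := sma_pow hF (N := 2 * (N : ℤ)) (by positivity) (hwZ P hP) n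
      exact h3.mono (by linarith [Int.natCast_nonneg N])
  · intro P hP
    have hPS : P ∉ S := (hd.real_cases (hd.mark P hP).1).1
    have h2 := oge_mul hF (haM P hP) ((oge_zero_iff hF).2 (pow_mem (h1w P hPS) n))
    rwa [add_zero] at h2
  · intro P hP
    have hPS : P ∉ S := (hd.real_cases ((hd.memR P).1 hP).2).1
    have h2 := oge_mul hF (haR P hP) ((oge_zero_iff hF).2 (pow_mem (h1w P hPS) n))
    rwa [add_zero] at h2
  · intro P hP
    have hPS : P ∉ S := (hd.real_cases hP).1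
    have e : (a₀ * (1 - w) ^ n) ^ 2 * W ^ m / θ = (a₀ ^ 2 * W ^ m / θ) * (1 - w) ^ (n * 2) := by
      rw [pow_mul]
      ring
    rw [e]
    have m1 := hg P hP
    have m2 : (1 - w) ^ (n * 2) ∈ P.ring := pow_mem (h1w P hPS) _
    refine ⟨P.ring.mul_mem _ _ m1 m2, ?_⟩
    rw [rv_mul s hF hP m1 m2 hgσ (by rw [map_pow, h1wσ]), rv_pow s hF hP (h1w P hPS) h1wσ]
    have e1 : rv hF P (1 - w) = 1 - rv hF P w := by
      have h5 := rv_sub hF (P := P) P.ring.one_mem (hwreg P hPS)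
      have h6 := rv_ofReal hF (P := P) 1
      rw [Complex.ofReal_one, map_one] at h6
      rw [h5, h6]
    have h7 : rv hF P w ≤ 1 / 2 := (hwR P hP).2
    have h8 : d ≤ rv hF P w := (min_le_left _ _).trans (hδ P hP)
    have h9 : 0 ≤ rv hF P (1 - w) := by rw [e1]; linarith
    have h10 : rv hF P (1 - w) ≤ 1 - d := by rw [e1]; linarith
    have h11 : rv hF P (1 - w) ^ (n * 2) ≤ (1 - d) ^ n := by
      calc rv hF P (1 - w) ^ (n * 2) ≤ (1 - d) ^ (n * 2) := pow_le_pow_left₀ h9 h10 _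
        _ ≤ (1 - d) ^ n := pow_le_pow_of_le_one (by linarith) (by linarith) (by omega)
    have h12 : rv hF P (a₀ ^ 2 * W ^ m / θ) ≤ K :=
      (le_abs_self _).trans ((Complex.abs_re_le_norm _).trans (hK P hP))
    have h13 : 0 ≤ rv hF P (1 - w) ^ (n * 2) := pow_nonneg h9 _
    calc rv hF P (a₀ ^ 2 * W ^ m / θ) * rv hF P (1 - w) ^ (n * 2)
        ≤ K * rv hF P (1 - w) ^ (n * 2) := mul_le_mul_of_nonneg_right h12 h13
      _ ≤ K * (ε / K) := mul_le_mul_of_nonneg_left (h11.trans hn.le) hK0.le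
      _ = ε := by field_simp

end Pool.Agent.Helper10.GN
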