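import Pool.Agent.Helper10.GN.Plc

set_option autoImplicit false

/-!
# Project GN, block SMO: smooth points of a plane model

`t, u ∈ F` generate `F`, `f(t, u) = 0`, `f(0,0) = 0`, `∂f/∂T (0,0) ≠ 0` (`T = X 0`, `U = X 1`).

`smooth_place`. (1) Write `f = T a + U b`, `a, b ∈ ℂ[T,U]`, with
`a(0,0) = ∂f/∂T(0,0) ≠ 0` (as `f(0,0) = 0`: monomials containing `T`, and the others, which contain `U`). (2) For a nonzero
`g ∈ ℂ[T,U]` with `g(t,u) ≠ 0` there are `k` and `g_k` with `a^k g (t,u) = u^k g_k(t,u)` and `g_k(0,0) ≠ 0`: if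
`g(0,0) = 0` write `g = T g' + U g''`, so `a g = T a g' + U a g'' ≡ U (a g'' - b g')` at `(t,u)`; iterate; the iteration stops: let `P`
be a place with `t, u ∈ P.ring.nonunits`, then `ord_P (g(t,u)) ≥ k` after `k` steps (`a(t,u)` is a unit at `P`, `u ≠ 0`: otherwise
`t a(t,0) = 0`, so `t = 0` and `F = ℂ`). (3) So every nonzero element `x` of `F` is
`x = u^k c(t,u) / d(t,u)`, `c(0,0), d(0,0) ≠ 0`, with `k ∈ ℤ`; then `ord_P x = k ord_P u` for every such place `P`; since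
the order takes the value `1` (`FF.exists_uniformizer`), `ord_P u = 1` (it is positive), `k = ord_P x`; hence `ord_P = ord_Q` and
`P = Q` (membership in the ring is `ord ≥ 0` or zero; `Place.ext`).

`smooth_exists`: if `f` is irreducible with kernel: here is the existence of `P` (used for nodes): hypothesis `hker`: every
polynomial `g` with `g(t,u) = 0` has `g(0,0) = 0`. Apply `FF.exists_place_of_subring` to the subring of
all `g(t,u)` and the ideal of those with `g(0,0) = 0` (well defined and proper by `hker`).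
-/

namespace Pool.Agent.Helper10.GN

open VC FF MvPolynomial Pool.Agent.Helper68.QM

variable {F : Type} [Field F] [Algebra ℂ F] (hF : IsFunctionField ℂ F)
include hF

omit hF in
omit [Field F] [Algebra ℂ F] in
private lemma decomp4 (g : CP) : ∃ g' g'' : CP, g = C (eval 0 g) + X 0 * g' + X 1 * g'' := by
  induction g using MvPolynomial.induction_on with
  | C a => exact ⟨0, 0, by simp⟩
  | add p q hp hq =>
    obtain ⟨p', p'', hp⟩ := hp
    obtain ⟨q', q'', hq⟩ := hq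
    refine ⟨p' + q', p'' + q'', ?_⟩
    rw [map_add, map_add]
    linear_combination hp + hq
  | mul_X p i hp =>
    fin_cases i
    · exact ⟨p, 0, by simp [mul_comm]⟩
    · exact ⟨0, p, by simp [mul_comm]⟩

omit hF in
private lemma E_mem4 {t u : F} {P : Place ℂ F} (ht : t ∈ P.ring.nonunits)
    (hu : u ∈ P.ring.nonunits) (g : CP) : aeval ![t, u] g ∈ P.ring := by
  induction g using MvPolynomial.induction_on with
  | C a =>
    rw [aeval_C]
    exact P.algebraMap_mem a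
  | add p q hp hq =>
    rw [map_add]
    exact add_mem hp hq
  | mul_X p i hp =>
    rw [map_mul, aeval_X]
    refine mul_mem hp ?_
    fin_cases i
    · exact ValuationSubring.nonunits_subset ht
    · exact ValuationSubring.nonunits_subset hu

omit hF in
private lemma E_dec4 (t u : F) {g g' g'' : CP} (hg : g = C (eval 0 g) + X 0 * g' + X 1 * g'') :
    aeval ![t, u] g = algebraMap ℂ F (eval 0 g) + t * aeval ![t, u] g' +
      u * aeval ![t, u] g'' := by
  have h := congrArg (aeval ![t, u] : CP →ₐ[ℂ] F) hg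
  rw [map_add, map_add, map_mul, map_mul, aeval_C, aeval_X, aeval_X] at h
  exact h

omit hF in
private lemma E_res4 {t u : F} {P : Place ℂ F} (ht : t ∈ P.ring.nonunits)
    (hu : u ∈ P.ring.nonunits) (g : CP) :
    aeval ![t, u] g - algebraMap ℂ F (eval 0 g) ∈ P.ring.nonunits := by
  obtain ⟨g', g'', hg⟩ := decomp4 g
  have h : aeval ![t, u] g - algebraMap ℂ F (eval 0 g) =
      aeval ![t, u] g' * t + aeval ![t, u] g'' * u := by
    linear_combination E_dec4 t u hg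
  rw [h]
  exact add_mem (mul_mem_nonunits (E_mem4 ht hu g') ht) (mul_mem_nonunits (E_mem4 ht hu g'') hu)

omit hF in
private lemma E_not4 {t u : F} {P : Place ℂ F} (ht : t ∈ P.ring.nonunits)
    (hu : u ∈ P.ring.nonunits) {g : CP} (hg : eval 0 g ≠ 0) :
    aeval ![t, u] g ∉ P.ring.nonunits := by
  intro h
  apply hg
  refine residue_unique P (E_res4 ht hu g) ?_
  rw [map_zero, sub_zero]
  exact h

omit hF in
private lemma E_ne4 {t u : F} {P : Place ℂ F} (ht : t ∈ P.ring.nonunits)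
    (hu : u ∈ P.ring.nonunits) {g : CP} (hg : eval 0 g ≠ 0) : aeval ![t, u] g ≠ 0 := by
  intro h
  apply E_not4 ht hu hg
  rw [h]
  exact zero_mem _

private lemma E_ord4 {t u : F} {P : Place ℂ F} (ht : t ∈ P.ring.nonunits)
    (hu : u ∈ P.ring.nonunits) {g : CP} (hg : eval 0 g ≠ 0) :
    ord P.ring (aeval ![t, u] g) = 0 := by
  have h1 := (FF.ord_nonneg_iff hF P (E_ne4 ht hu hg)).2 (E_mem4 ht hu g)
  have h2 : ¬ 0 < ord P.ring (aeval ![t, u] g) := fun h =>
    E_not4 ht hu hg ((FF.ord_pos_iff hF P (E_ne4 ht hu hg)).1 h)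
  omega

private lemma step4 {t u : F} {f a b : CP} (hfab : f = X 0 * a + X 1 * b)
    (hf : aeval ![t, u] f = 0) (ha : eval 0 a ≠ 0) {P : Place ℂ F}
    (ht : t ∈ P.ring.nonunits) (hu : u ∈ P.ring.nonunits) (hu0 : u ≠ 0) (N : ℕ) :
    ∀ g : CP, aeval ![t, u] g ≠ 0 → ord P.ring (aeval ![t, u] g) ≤ N →
      ∃ (k : ℕ) (g' : CP), eval 0 g' ≠ 0 ∧
        aeval ![t, u] a ^ k * aeval ![t, u] g = u ^ k * aeval ![t, u] g' := by
  have hfE : t * aeval ![t, u] a + u * aeval ![t, u] b = 0 := by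
    have h := hf
    rw [hfab, map_add, map_mul, map_mul, aeval_X, aeval_X] at h
    exact h
  have hA0 := E_ne4 ht hu ha
  have hordA := E_ord4 hF ht hu ha
  have hordu := (FF.ord_pos_iff hF P hu0).2 hu
  -- one step
  have one : ∀ g : CP, aeval ![t, u] g ≠ 0 → eval 0 g = 0 → ∃ g₁ : CP,
      aeval ![t, u] g₁ ≠ 0 ∧ aeval ![t, u] a * aeval ![t, u] g = u * aeval ![t, u] g₁ ∧
      ord P.ring (aeval ![t, u] g₁) < ord P.ring (aeval ![t, u] g) := by
    intro g hg hg0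
    obtain ⟨g', g'', hgd⟩ := decomp4 g
    have h1 := E_dec4 t u hgd
    rw [hg0, map_zero, zero_add] at h1
    have h2 : aeval ![t, u] a * aeval ![t, u] g = u * aeval ![t, u] (a * g'' - b * g') := by
      rw [map_sub, map_mul, map_mul]
      linear_combination aeval ![t, u] a * h1 + aeval ![t, u] g' * hfE
    have h3 : aeval ![t, u] (a * g'' - b * g') ≠ 0 := by
      intro h
      rw [h, mul_zero] at h2
      exact mul_ne_zero hA0 hg h2
    refine ⟨a * g'' - b * g', h3, h2, ?_⟩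
    have h4 := congrArg (ord P.ring) h2
    rw [FF.ord_mul hF P hA0 hg, FF.ord_mul hF P hu0 h3, hordA] at h4
    omega
  induction N with
  | zero =>
    intro g hg hN
    by_cases hg0 : eval 0 g = 0
    · exfalso
      obtain ⟨g₁, h1, _, h3⟩ := one g hg hg0
      have h4 := (FF.ord_nonneg_iff hF P h1).2 (E_mem4 ht hu g₁)
      push_cast at hN
      omega
    · exact ⟨0, g, hg0, by rw [pow_zero, pow_zero]⟩
  | succ N ih =>
    intro g hg hN
    by_cases hg0 : eval 0 g = 0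
    · obtain ⟨g₁, h1, h2, h3⟩ := one g hg hg0
      obtain ⟨k, g₂, h5, h6⟩ := ih g₁ h1 (by
        push_cast at hN
        omega)
      refine ⟨k + 1, g₂, h5, ?_⟩
      rw [pow_succ, pow_succ, mul_assoc, h2]
      linear_combination u * h6
    · exact ⟨0, g, hg0, by rw [pow_zero, pow_zero]⟩

omit hF in
omit [Field F] [Algebra ℂ F] in
private lemma split4 {f : CP} (h0 : eval 0 f = 0) (h1 : eval 0 (pderiv 0 f) ≠ 0) :
    ∃ a b : CP, f = X 0 * a + X 1 * b ∧ eval 0 a ≠ 0 := by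
  obtain ⟨a, b, hab⟩ := decomp4 f
  rw [h0, C_0, zero_add] at hab
  refine ⟨a, b, hab, ?_⟩
  rw [hab] at h1
  simpa [Derivation.leibniz, pderiv_X] using h1

private lemma u_ne4 {t u : F} {f : CP} (hf : aeval ![t, u] f = 0) (h0 : eval 0 f = 0)
    (h1 : eval 0 (pderiv 0 f) ≠ 0)
    (hgen : ∀ x : F, ∃ a b : CP, aeval ![t, u] b ≠ 0 ∧ x = aeval ![t, u] a / aeval ![t, u] b)
    {P : Place ℂ F} (ht : t ∈ P.ring.nonunits) (hu : u ∈ P.ring.nonunits) : u ≠ 0 := by
  intro hu0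
  obtain ⟨a, b, hab, ha⟩ := split4 h0 h1
  have hfE : t * aeval ![t, u] a + u * aeval ![t, u] b = 0 := by
    have h := hf
    rw [hab, map_add, map_mul, map_mul, aeval_X, aeval_X] at h
    exact h
  have ht0 : t = 0 := by
    have h2 : t * aeval ![t, u] a = 0 := by
      linear_combination hfE - (aeval ![t, u] b) * hu0
    exact (mul_eq_zero.1 h2).resolve_right (E_ne4 ht hu ha)
  have hE : ∀ g : CP, aeval ![t, u] g = algebraMap ℂ F (eval 0 g) := by
    intro g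
    obtain ⟨g', g'', hg⟩ := decomp4 g
    linear_combination E_dec4 t u hg + aeval ![t, u] g' * ht0 + aeval ![t, u] g'' * hu0
  obtain ⟨π, hπ0, hπ⟩ := exists_uniformizer hF P
  have hπn : π ∈ P.ring.nonunits := (FF.ord_pos_iff hF P hπ0).1 (by rw [hπ]; exact one_pos)
  obtain ⟨x, y, _, hxy⟩ := hgen π
  rw [hE, hE, ← map_div₀] at hxy
  rw [hxy] at hπn hπ0
  exact hπ0 (by rw [algebraMap_mem_nonunits P hπn, map_zero])

private lemma repr4 {t u : F} {f : CP} (hf : aeval ![t, u] f = 0) (h0 : eval 0 f = 0)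
    (h1 : eval 0 (pderiv 0 f) ≠ 0)
    (hgen : ∀ x : F, ∃ a b : CP, aeval ![t, u] b ≠ 0 ∧ x = aeval ![t, u] a / aeval ![t, u] b)
    {P : Place ℂ F} (ht : t ∈ P.ring.nonunits) (hu : u ∈ P.ring.nonunits) (x : F) (hx : x ≠ 0) :
    ∃ (n : ℤ) (c d : CP), eval 0 c ≠ 0 ∧ eval 0 d ≠ 0 ∧
      x = u ^ n * (aeval ![t, u] c / aeval ![t, u] d) := by
  have hu0 := u_ne4 hF hf h0 h1 hgen ht hu
  obtain ⟨a, b, hab, ha⟩ := split4 h0 h1
  have hA0 := E_ne4 ht hu ha
  obtain ⟨y, z, hz, hxyz⟩ := hgen x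
  have hy : aeval ![t, u] y ≠ 0 := by
    intro h
    rw [h, zero_div] at hxyz
    exact hx hxyz
  obtain ⟨k, y', hy', hyk⟩ := step4 hF hab hf ha ht hu hu0
    (ord P.ring (aeval ![t, u] y)).toNat y hy (Int.self_le_toNat _)
  obtain ⟨l, z', hz', hzl⟩ := step4 hF hab hf ha ht hu hu0
    (ord P.ring (aeval ![t, u] z)).toNat z hz (Int.self_le_toNat _)
  have hy0 := E_ne4 ht hu hy'
  have hz0 := E_ne4 ht hu hz'
  refine ⟨(k : ℤ) - l, y' * a ^ l, z' * a ^ k, ?_, ?_, ?_⟩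
  · rw [map_mul, map_pow]
    exact mul_ne_zero hy' (pow_ne_zero _ ha)
  · rw [map_mul, map_pow]
    exact mul_ne_zero hz' (pow_ne_zero _ ha)
  · rw [map_mul, map_mul, map_pow, map_pow, zpow_sub₀ hu0, zpow_natCast, zpow_natCast, hxyz]
    have e1 : aeval ![t, u] y = u ^ k * aeval ![t, u] y' / aeval ![t, u] a ^ k := by
      rw [eq_div_iff (pow_ne_zero _ hA0), ← hyk]
      ring
    have e2 : aeval ![t, u] z = u ^ l * aeval ![t, u] z' / aeval ![t, u] a ^ l := by
      rw [eq_div_iff (pow_ne_zero _ hA0), ← hzl]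
      ring
    rw [e1, e2]
    have hak : aeval ![t, u] a ^ k ≠ 0 := pow_ne_zero _ hA0
    have hal : aeval ![t, u] a ^ l ≠ 0 := pow_ne_zero _ hA0
    have huk : u ^ k ≠ 0 := pow_ne_zero _ hu0
    have hul : u ^ l ≠ 0 := pow_ne_zero _ hu0
    field_simp

private lemma ord_repr4 {t u : F} {P : Place ℂ F} (ht : t ∈ P.ring.nonunits)
    (hu : u ∈ P.ring.nonunits) (hu0 : u ≠ 0) {c d : CP} (hc : eval 0 c ≠ 0)
    (hd : eval 0 d ≠ 0) (n : ℤ) :
    ord P.ring (u ^ n * (aeval ![t, u] c / aeval ![t, u] d)) = n * ord P.ring u := by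
  have hc0 := E_ne4 ht hu hc
  have hd0 := E_ne4 ht hu hd
  rw [FF.ord_mul hF P (zpow_ne_zero _ hu0) (div_ne_zero hc0 hd0), FF.ord_div hF P hc0 hd0,
    E_ord4 hF ht hu hc, E_ord4 hF ht hu hd, FF.ord_zpow hF P hu0, sub_zero, add_zero]

private lemma ord_u4 {t u : F} {f : CP} (hf : aeval ![t, u] f = 0) (h0 : eval 0 f = 0)
    (h1 : eval 0 (pderiv 0 f) ≠ 0)
    (hgen : ∀ x : F, ∃ a b : CP, aeval ![t, u] b ≠ 0 ∧ x = aeval ![t, u] a / aeval ![t, u] b)
    {P : Place ℂ F} (ht : t ∈ P.ring.nonunits) (hu : u ∈ P.ring.nonunits) :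
    ord P.ring u = 1 := by
  have hu0 := u_ne4 hF hf h0 h1 hgen ht hu
  obtain ⟨π, hπ0, hπ⟩ := exists_uniformizer hF P
  obtain ⟨n, c, d, hc, hd, hx⟩ := repr4 hF hf h0 h1 hgen ht hu π hπ0
  rw [hx, ord_repr4 hF ht hu hu0 hc hd] at hπ
  have hpos := (FF.ord_pos_iff hF P hu0).2 hu
  rcases Int.mul_eq_one_iff_eq_one_or_neg_one.1 hπ with h | h
  · exact h.2
  · omega

theorem smooth_repr {t u : F} {f : CP} (hf : aeval ![t, u] f = 0) (h0 : eval 0 f = 0)
    (h1 : eval 0 (pderiv 0 f) ≠ 0)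
    (hgen : ∀ x : F, ∃ a b : CP, aeval ![t, u] b ≠ 0 ∧ x = aeval ![t, u] a / aeval ![t, u] b)
    {P : Place ℂ F} (ht : t ∈ P.ring.nonunits) (hu : u ∈ P.ring.nonunits) (x : F) (hx : x ≠ 0) :
    ∃ c d : CP, eval 0 c ≠ 0 ∧ eval 0 d ≠ 0 ∧
      x = u ^ (ord P.ring x) * (aeval ![t, u] c / aeval ![t, u] d) := by
  have hu0 := u_ne4 hF hf h0 h1 hgen ht hu
  obtain ⟨n, c, d, hc, hd, hxe⟩ := repr4 hF hf h0 h1 hgen ht hu x hx
  refine ⟨c, d, hc, hd, ?_⟩
  have h2 : ord P.ring x = n := by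
    rw [hxe, ord_repr4 hF ht hu hu0 hc hd, ord_u4 hF hf h0 h1 hgen ht hu, mul_one]
  rw [h2]
  exact hxe

theorem smooth_place {t u : F} {f : CP} (hf : aeval ![t, u] f = 0) (h0 : eval 0 f = 0)
    (h1 : eval 0 (pderiv 0 f) ≠ 0)
    (hgen : ∀ x : F, ∃ a b : CP, aeval ![t, u] b ≠ 0 ∧ x = aeval ![t, u] a / aeval ![t, u] b)
    {P Q : Place ℂ F} (ht : t ∈ P.ring.nonunits) (hu : u ∈ P.ring.nonunits)
    (ht' : t ∈ Q.ring.nonunits) (hu' : u ∈ Q.ring.nonunits) :
    P = Q ∧ u ≠ 0 ∧ ord P.ring u = 1 := by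
  have hu0 := u_ne4 hF hf h0 h1 hgen ht hu
  have hP := ord_u4 hF hf h0 h1 hgen ht hu
  have hQ := ord_u4 hF hf h0 h1 hgen ht' hu'
  refine ⟨?_, hu0, hP⟩
  have hord : ∀ x : F, x ≠ 0 → ord P.ring x = ord Q.ring x := by
    intro x hx
    obtain ⟨n, c, d, hc, hd, hxe⟩ := repr4 hF hf h0 h1 hgen ht hu x hx
    rw [hxe, ord_repr4 hF ht hu hu0 hc hd, ord_repr4 hF ht' hu' hu0 hc hd, hP, hQ]
  apply Place.ext
  ext x
  by_cases hx : x = 0
  · rw [hx]
    exact ⟨fun _ => zero_mem _, fun _ => zero_mem _⟩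
  · rw [← FF.ord_nonneg_iff hF P hx, ← FF.ord_nonneg_iff hF Q hx, hord x hx]

theorem smooth_exists {t u : F} (hne : t ≠ 0 ∨ u ≠ 0)
    (hker : ∀ g : CP, aeval ![t, u] g = 0 → eval 0 g = 0) :
    ∃ P : Place ℂ F, t ∈ P.ring.nonunits ∧ u ∈ P.ring.nonunits := by
  let R : Subring F := (aeval ![t, u] : CP →ₐ[ℂ] F).toRingHom.range
  let I : Ideal R :=
    { carrier := {x | ∃ g : CP, eval 0 g = 0 ∧ aeval ![t, u] g = (x : F)}
      add_mem' := by
        rintro x y ⟨g, hg, hgx⟩ ⟨g', hg', hgy⟩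
        refine ⟨g + g', by rw [map_add, hg, hg', add_zero], ?_⟩
        rw [map_add, hgx, hgy]
        rfl
      zero_mem' := ⟨0, map_zero _, by rw [map_zero]; rfl⟩
      smul_mem' := by
        rintro ⟨_, q, rfl⟩ x ⟨g, hg, hgx⟩
        refine ⟨q * g, by rw [map_mul, hg, mul_zero], ?_⟩
        rw [map_mul, hgx]
        rfl }
  have hI : I ≠ ⊤ := by
    intro h
    have h1 : (1 : R) ∈ I := by
      rw [h]
      trivial
    obtain ⟨g, hg, hg1⟩ := h1
    have h2 : aeval ![t, u] (1 - g) = 0 := by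
      rw [map_sub, map_one, hg1]
      exact sub_self _
    have h3 := hker _ h2
    rw [map_sub, map_one, hg, sub_zero] at h3
    exact one_ne_zero h3
  have htR : t ∈ R := ⟨X 0, by
    show aeval ![t, u] (X 0) = t
    rw [aeval_X]
    rfl⟩
  have huR : u ∈ R := ⟨X 1, by
    show aeval ![t, u] (X 1) = u
    rw [aeval_X]
    rfl⟩
  have htI : (⟨t, htR⟩ : R) ∈ I := ⟨X 0, by simp, by
    rw [aeval_X]
    rfl⟩
  have huI : (⟨u, huR⟩ : R) ∈ I := ⟨X 1, by simp, by
    rw [aeval_X]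
    rfl⟩
  obtain ⟨P, _, hP⟩ := exists_place_of_subring (k := ℂ) R (fun c => ⟨C c, by
    show aeval ![t, u] (C c) = algebraMap ℂ F c
    rw [aeval_C]⟩) I hI (by
    rcases hne with h | h
    · exact ⟨_, htI, fun h' => h (congrArg Subtype.val h')⟩
    · exact ⟨_, huI, fun h' => h (congrArg Subtype.val h')⟩)
  exact ⟨P, hP _ htI, hP _ huI⟩

end Pool.Agent.Helper10.GN
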