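import Pool.Agent.Helper10.GN.Meh
import Pool.Agent.Helper10.GN.N1
import Pool.Agent.Helper10.GN.Lpos
import Pool.Agent.Helper10.GN.Posf
import Pool.Agent.Helper10.GN.Rea

set_option autoImplicit false

/-!
# Project GN, block SPA: positive polynomials on an N-type curve are sums of squares

`Ψ` positive (`PosAt`) at all real places and positive at the real singular points. Then `Ψ ≡ ∑ ψ_j²` modulo `p`.

Proof. Let `N₀` be from `mem_high`, `N₁ = N₀ + 1`, `N' = 2 N₁ + 1`. Let `S` be the set of the nonreal infinite places, `Sing` the (finite) set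
of all places over singular points, `R` the real infinite places.
(1) Jets: at a real singular point `z` a real polynomial `q_z` with `q_z² ≡ Ψ` to order `N'` at the places over `z` (`Ψ(z) > 0`: `q_z = √(Ψ(z)) T(Ψ/Ψ(z) - 1)` with a
truncated binomial series of `√(1 + x)`; `Ψ/Ψ(z) - 1` vanishes at `z`). Choose one point of each pair of nonreal singular points. Two real functions `ψ₁⁰, ψ₂⁰`,
regular outside `S` (`appr_real`), with: at a real singular point `ψ₁⁰ ≡ q_z`, `ψ₂⁰ ≡ 0`; at a chosen nonreal singular point `z` and its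
conjugate: `ψ₁⁰ ≡ (1 + Ψ)/2`, `ψ₂⁰ ≡ ± (1 - Ψ)/(2 i)` (`+` at `z`, `-` at `zbar z`), so `ψ₁⁰² + ψ₂⁰² ≡ Ψ`, all to order `N'`; at `R` and at all
real places outside `Sing` where `ord Ψ ≠ 0` both vanish to order `≥ N''`, `N''` large (`2 N'' ≥ ord Ψ`).
(2) `θ` from `posfn` with `Z = Sing`, exponent `N₁`. `(ψ₁⁰² + ψ₂⁰² - Ψ)/(Ψ θ)` is regular at all real places (at real singular places: `Ψ` is a unit, `N' > 2 N₁`;
elsewhere `θ` is a unit), so bounded by a natural number `K` (`bdd`). `ψ_k = ψ_k⁰ (1 - θ)^n`, `2 n ≥ K + 1`. At a real place outside `Sing`, `t = θ(P) ∈ (0, 1/2]`: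
`(ψ₁² + ψ₂²)/Ψ ≤ (1 + K t)(1 - t)^(2n) ≤ 1 - t` (`(1 + K t)(1 - t)^K ≤ 1`); at a real place of `Sing`:
`(1 - (ψ₁² + ψ₂²)/Ψ)/θ` has value `2 n - (value of (ψ₁⁰² + ψ₂⁰² - Ψ)/(Ψ θ)) ≥ 2 n - K > 0`. So `Ψ₂ = Ψ - ψ₁² - ψ₂² = Ψ θ * u` with `u = (1 - (ψ₁² + ψ₂²)/Ψ)/θ` regular and positive at
all real places: `Ψ₂` is `PosAt` everywhere, `Sos` by `lpos`, and of order `≥ 2 N₁ - ...≥ N₀`-twice: at all places of `Sing` `Ψ₂ = O(2 N₁)`.
(3) `n1` for `Ψ₂` with `F0 = N₁` on `Sing` (symmetric), minus a symmetric divisor bounding the poles at the infinite places: `Ψ₂ = ∑ u_j²`, `u_j = O(N₁)` at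
`Sing`, regular at the finite places: in the range of `π` by `mem_high`. `ψ₁, ψ₂` are `≡` a polynomial to order `2 N₁ ≥ N₀` at each singular point, so in
the range as well. `real_range`, `IsCrv.eq_zero_iff`.
-/

namespace Pool.Agent.Helper10.GN

open VC FF MvPolynomial Pool.Agent.Helper68.QM

section aux

private theorem sqrt_series42 (m : ℕ) : ∃ s : Polynomial ℝ, s.eval 0 = 1 ∧
    (Polynomial.X : Polynomial ℝ) ^ (m + 1) ∣ (1 - Polynomial.X) * s ^ 2 - 1 := by
  induction m with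
  | zero =>
    refine ⟨1, by simp, ⟨-1, by ring⟩⟩
  | succ m ih =>
    obtain ⟨s, hs, t, ht⟩ := ih
    refine ⟨s - Polynomial.C (t.eval 0 / 2) * Polynomial.X ^ (m + 1), ?_, ?_⟩
    · simp [hs]
    · have h1 : (1 - Polynomial.X) * (s - Polynomial.C (t.eval 0 / 2) * Polynomial.X ^ (m + 1)) ^ 2 - 1
          = Polynomial.X ^ (m + 1) * (t - 2 * Polynomial.C (t.eval 0 / 2) * (1 - Polynomial.X) * s
            + Polynomial.C (t.eval 0 / 2) ^ 2 * Polynomial.X ^ (m + 1) * (1 - Polynomial.X)) := by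
        linear_combination ht
      rw [h1, pow_succ (Polynomial.X : Polynomial ℝ) (m + 1)]
      refine mul_dvd_mul_left _ ?_
      rw [Polynomial.X_dvd_iff, Polynomial.coeff_zero_eq_eval_zero]
      simp [hs]
      ring

/-- a square root of a polynomial near a point where it is positive -/
private theorem sqrt_jet42 {Ψ : A} {c : ℝ} (hc : 0 < c) (m : ℕ) :
    ∃ q r : A, q ^ 2 - Ψ = (C c - Ψ) ^ m * r := by
  obtain ⟨s, -, t, ht⟩ := sqrt_series42 m
  set x : A := C (c⁻¹) * (C c - Ψ) with hx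
  have hcc : (C c : A) * C c⁻¹ = 1 := by
    rw [← C_mul, mul_inv_cancel₀ hc.ne', C_1]
  have hΨ : Ψ = C c * (1 - x) := by
    rw [hx]
    linear_combination (-Ψ + C c) * hcc
  have h1 := congrArg (Polynomial.aeval x) ht
  simp only [map_sub, map_mul, map_pow, map_one, Polynomial.aeval_X] at h1
  set σ := Polynomial.aeval x s with hσ
  set τ := Polynomial.aeval x t with hτ
  have hsq : (C (Real.sqrt c) : A) ^ 2 = C c := by
    rw [← C_pow, Real.sq_sqrt hc.le]
  refine ⟨C (Real.sqrt c) * (1 - x) * σ, C c * (1 - x) * x * τ * C c⁻¹ ^ m, ?_⟩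
  have e1 : (C (Real.sqrt c) * (1 - x) * σ) ^ 2 - Ψ = C c * (1 - x) * ((1 - x) * σ ^ 2 - 1) := by
    conv_lhs => rw [hΨ]
    linear_combination ((1 - x) * σ) ^ 2 * hsq
  rw [e1, h1, pow_succ]
  have e2 : x ^ m = C c⁻¹ ^ m * (C c - Ψ) ^ m := by
    rw [hx, mul_pow]
  rw [e2]
  ring

end aux

variable {F : Type} [Field F] [Algebra ℂ F] {s : RStr F} (hF : IsFunctionField ℂ F)

private theorem fin_bound42 {A : Type} (o : A → ℤ) (h : {a | o a ≠ 0}.Finite) :
    ∃ B : ℕ, ∀ a, |o a| ≤ B := by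
  classical
  refine ⟨∑ a ∈ h.toFinset, (o a).natAbs, fun a => ?_⟩
  by_cases h0 : o a = 0
  · rw [h0, abs_zero]
    exact Nat.cast_nonneg _
  · have ha : a ∈ h.toFinset := by
      rw [Set.Finite.mem_toFinset]
      exact h0
    have h1 : (o a).natAbs ≤ ∑ a ∈ h.toFinset, (o a).natAbs :=
      Finset.single_le_sum (f := fun a => (o a).natAbs) (fun _ _ => Nat.zero_le _) ha
    have h2 : |o a| = ((o a).natAbs : ℤ) := (Int.natCast_natAbs _).symm
    rw [h2]
    exact_mod_cast h1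

include hF in
private theorem ord_bound42 {g : F} (hg : g ≠ 0) :
    ∃ B : ℕ, ∀ P : Place ℂ F, |ord P.ring g| ≤ B :=
  fin_bound42 (fun P : Place ℂ F => ord P.ring g) (finite_support_ord hF hg)

private theorem core42 (hreal : {P : Place ℂ F | s.cj P = P}.Infinite)
    {S : Finset (Place ℂ F)} (hS : SData s S) (Z : Finset (Place ℂ F))
    (hZ : Disjoint Z S) (hcj : ∀ P ∈ Z, s.cj P ∈ Z) (N : ℕ) {g G : F} (hg : s.σ g = g)
    (hG : s.σ G = G) (hgp : ∀ P, s.cj P = P → PosAt s hF P g)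
    (hQ : ∀ P, s.cj P = P → P ∉ Z → Oge P (ord P.ring g) (G - g))
    (hQ' : ∀ P, s.cj P = P → P ∈ Z → Oge P (ord P.ring g + 2 * N) (G - g)) :
    ∃ η : F, s.σ η = η ∧ (∀ P, P ∉ S → η ∈ P.ring) ∧ (∀ P ∈ Z, Oge P (2 * N) (η - 1)) ∧
      Sos s (g - G * η ^ 2) ∧ g - G * η ^ 2 ≠ 0 := by
  obtain ⟨P₀, hP₀⟩ := hreal.nonempty
  have hg0 : g ≠ 0 := (hgp P₀ hP₀).ne_zero
  obtain ⟨θ, hθ0, hθσ, hθr, hθZ, hθo, hθp, hθpos⟩ := posfn hF hS Z hZ hcj N
  have hSr : ∀ P, s.cj P = P → P ∉ S := fun P hP h => hS.cj_ne P h hP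
  set q := (G - g) / (g * θ) with hq
  have hqσ : s.σ q = q := by
    rw [hq, map_div₀, map_sub, map_mul, hg, hG, hθσ]
  have hGq : G = g * (1 + q * θ) := by
    rw [hq]
    field_simp
    ring
  have hreg : Reg s q := by
    intro P hP
    rw [← oge_zero_iff hF, hq, oge_div_iff hF (mul_ne_zero hg0 hθ0), zero_add,
      FF.ord_mul hF P hg0 hθ0]
    by_cases hPZ : P ∈ Z
    · rw [hθo P hPZ hP]
      exact hQ' P hP hPZ
    · have h1 : ord P.ring θ = 0 := by
        apply ord_eq_zero_of_vl hF (hθr P (hSr P hP))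
        intro h2
        have h3 := hθpos P hP hPZ
        unfold rv at h3
        rw [h2] at h3
        simp at h3
      rw [h1, add_zero]
      exact hQ P hP hPZ
  obtain ⟨K, hK0, hK⟩ := bdd hF hreg
  obtain ⟨n, hn⟩ := exists_nat_gt K
  set η := (1 - θ) ^ n with hη
  have h1θ : s.σ (1 - θ) = 1 - θ := by rw [map_sub, map_one, hθσ]
  have hησ : s.σ η = η := by rw [hη, map_pow, h1θ]
  set u := ∑ j ∈ Finset.range (2 * n), (1 - θ) ^ j - q * (1 - θ) ^ (2 * n) with hu
  have hgeo : ∀ k : ℕ, θ * ∑ j ∈ Finset.range k, (1 - θ) ^ j = 1 - (1 - θ) ^ k := by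
    intro k
    have := mul_neg_geom_sum (1 - θ) k
    rwa [sub_sub_cancel] at this
  have hmain : g - G * η ^ 2 = g * θ * u := by
    have e1 : η ^ 2 = (1 - θ) ^ (2 * n) := by
      rw [hη, ← pow_mul, mul_comm n 2]
    rw [e1, hu]
    have e2 := hgeo (2 * n)
    linear_combination (-(1 - θ) ^ (2 * n)) * hGq - g * e2
  have huσ : s.σ u = u := by
    rw [hu, map_sub, map_sum, map_mul, map_pow, h1θ, hqσ]
    congr 1
    refine Finset.sum_congr rfl fun j _ => ?_
    rw [map_pow, h1θ]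
  have hup : ∀ P, s.cj P = P → PosAt s hF P u := by
    intro P hP
    have hθP := hθr P (hSr P hP)
    have h1 : (1 - θ) ∈ P.ring := sub_mem P.ring.one_mem hθP
    have hqP := hreg P hP
    have hsP : ∑ j ∈ Finset.range (2 * n), (1 - θ) ^ j ∈ P.ring := sum_mem fun j _ => pow_mem h1 j
    have hmP : q * (1 - θ) ^ (2 * n) ∈ P.ring := P.ring.mul_mem _ _ hqP (pow_mem h1 _)
    have ht0 : 0 ≤ rv hF P θ := (hθp P hP).1.rv_nonneg hP hθσ hθP
    have ht1 := (hθp P hP).2
    have hr1 : rv hF P (1 - θ) = 1 - rv hF P θ := by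
      rw [rv_sub hF P.ring.one_mem hθP]
      congr 1
      have := rv_ofReal hF (P := P) 1
      simpa using this
    have hval : rv hF P u = ∑ j ∈ Finset.range (2 * n), (1 - rv hF P θ) ^ j -
        rv hF P q * (1 - rv hF P θ) ^ (2 * n) := by
      rw [hu, rv_sub hF hsP hmP, rv_sum hF _ _ (fun j _ => pow_mem h1 j),
        rv_mul s hF hP hqP (pow_mem h1 _) hqσ (by rw [map_pow, h1θ]), rv_pow s hF hP h1 h1θ, hr1]
      congr 1
      refine Finset.sum_congr rfl fun j _ => ?_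
      rw [rv_pow s hF hP h1 h1θ, hr1]
    apply PosAt.of_pos (sub_mem hsP hmP)
    change 0 < rv hF P u
    rw [hval]
    set x := 1 - rv hF P θ with hx
    have hx0 : 0 < x := by rw [hx]; linarith
    have hx1 : x ≤ 1 := by rw [hx]; linarith
    have hs1 : (2 * n : ℕ) * x ^ (2 * n) ≤ ∑ j ∈ Finset.range (2 * n), x ^ j := by
      have h2 : ∑ j ∈ Finset.range (2 * n), x ^ (2 * n) ≤ ∑ j ∈ Finset.range (2 * n), x ^ j := by
        refine Finset.sum_le_sum fun j hj => ?_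
        exact pow_le_pow_of_le_one hx0.le hx1 (Finset.mem_range.1 hj).le
      rwa [Finset.sum_const, Finset.card_range, nsmul_eq_mul] at h2
    have hκ : rv hF P q ≤ K := by
      have h2 := hK P hP
      have h3 : rv hF P q ≤ ‖vl hF P q‖ := Complex.re_le_norm _
      exact h3.trans h2
    have hxp : 0 < x ^ (2 * n) := pow_pos hx0 _
    have h4 : rv hF P q * x ^ (2 * n) ≤ K * x ^ (2 * n) := mul_le_mul_of_nonneg_right hκ hxp.le
    have h5 : K * x ^ (2 * n) < (2 * n : ℕ) * x ^ (2 * n) := by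
      apply mul_lt_mul_of_pos_right _ hxp
      push_cast
      have : (0 : ℝ) ≤ n := Nat.cast_nonneg n
      linarith
    linarith
  have hpos : ∀ P, s.cj P = P → PosAt s hF P (g * θ * u) := by
    intro P hP
    exact PosAt.mul hP (by rw [map_mul, hg, hθσ]) huσ
      (PosAt.mul hP hg hθσ (hgp P hP) (hθp P hP).1) (hup P hP)
  refine ⟨η, hησ, ?_, ?_, ?_, ?_⟩
  · intro P hP
    exact pow_mem (sub_mem P.ring.one_mem (hθr P hP)) n
  · intro P hP
    have hPS : P ∉ S := fun h => Finset.disjoint_left.1 hZ hP h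
    have hθP := hθr P hPS
    have h1 : (1 - θ) ∈ P.ring := sub_mem P.ring.one_mem hθP
    have e : η - 1 = -(θ * ∑ j ∈ Finset.range n, (1 - θ) ^ j) := by
      rw [hgeo, hη]
      ring
    rw [e]
    apply oge_neg hF
    have h2 : Oge P 0 (∑ j ∈ Finset.range n, (1 - θ) ^ j) :=
      (oge_zero_iff hF).2 (sum_mem fun j _ => pow_mem h1 j)
    have h3 := oge_mul hF (hθZ P hP) h2
    rwa [add_zero] at h3
  · rw [hmain]
    exact lpos hF (by rw [map_mul, map_mul, hg, hθσ, huσ]) hpos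
  · rw [hmain]
    exact (hpos P₀ hP₀).ne_zero


/-- a sign for every nonreal point -/
private noncomputable def es42 (z : Fin 2 → ℂ) : ℝ :=
  if (z 0).im = 0 then (z 1).im / |(z 1).im| else (z 0).im / |(z 0).im|

private theorem es_bar42 (z : Fin 2 → ℂ) : es42 (zbar z) = - es42 z := by
  unfold es42 zbar
  simp only [Complex.conj_im, neg_eq_zero, abs_neg, neg_div]
  split_ifs <;> rfl

private theorem es_sq42 {z : Fin 2 → ℂ} (h : NR z) : es42 z ^ 2 = 1 := by
  have key : ∀ x : ℝ, x ≠ 0 → (x / |x|) ^ 2 = 1 := by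
    intro x hx
    rw [div_pow, sq_abs, div_self (pow_ne_zero 2 hx)]
  unfold es42
  split_ifs with h0
  · apply key
    obtain ⟨i, hi⟩ := h
    fin_cases i
    · exact absurd h0 hi
    · exact hi
  · exact key _ h0

private theorem nr_bar42 (z : Fin 2 → ℂ) : NR (zbar z) ↔ NR z := by
  unfold NR zbar
  simp only [Complex.conj_im, ne_eq, neg_eq_zero]

private theorem real42 {z : Fin 2 → ℂ} (h : ¬ NR z) : z = cz fun i => (z i).re := by
  funext i
  have h1 : (z i).im = 0 := by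
    by_contra h2
    exact h ⟨i, h2⟩
  apply Complex.ext
  · rfl
  · rw [h1]
    rfl

private theorem bar_real42 {z : Fin 2 → ℂ} (h : ¬ NR z) : zbar z = z := by
  have e := real42 h
  funext i
  unfold zbar
  rw [e]
  exact Complex.conj_ofReal _

private theorem bar_bar42 (z : Fin 2 → ℂ) : zbar (zbar z) = z := by
  funext i
  exact Complex.conj_conj _

private theorem sgC_bar42 {p : A} {z : Fin 2 → ℂ} (h : SgC p z) : SgC p (zbar z) := by
  refine ⟨?_, fun i => ?_⟩
  · rw [eval_zbar, h.1, map_zero]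
  · have h1 := h.2 i
    rw [pderiv_cx] at h1 ⊢
    rw [eval_zbar, h1, map_zero]

private theorem sgC_real42 {p : A} {z : Fin 2 → ℝ} (h : SgC p (cz z)) : Sg p z := by
  refine ⟨?_, fun i => ?_⟩
  · have h1 := h.1
    rw [eval_cx] at h1
    exact_mod_cast h1
  · have h1 := h.2 i
    rw [pderiv_cx, eval_cx] at h1
    exact_mod_cast h1

/-- the targets for the squares at the singular points -/
private theorem targets42 {p Ψ : A} (h2 : ∀ z : Fin 2 → ℝ, Sg p z → 0 < eval z Ψ) (N : ℕ) :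
    ∃ H₁ H₂ : (Fin 2 → ℂ) → CP, (∀ z, H₁ (zbar z) = cjp (H₁ z)) ∧
      (∀ z, H₂ (zbar z) = cjp (H₂ z)) ∧ (∀ z, ¬ SgC p z → H₁ z = 0 ∧ H₂ z = 0) ∧
      ∀ z, SgC p z → ∃ (e : A) (r : CP), eval z (cx e) = 0 ∧
        H₁ z ^ 2 + H₂ z ^ 2 - cx Ψ = cx e ^ N * r := by
  classical
  have hq : ∀ z : Fin 2 → ℂ, ∃ q r : A, 0 < eval (fun i => (z i).re) Ψ →
      q ^ 2 - Ψ = (C (eval (fun i => (z i).re) Ψ) - Ψ) ^ N * r := by
    intro z
    by_cases h : 0 < eval (fun i => (z i).re) Ψ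
    · obtain ⟨q, r, hqr⟩ := sqrt_jet42 (Ψ := Ψ) h N
      exact ⟨q, r, fun _ => hqr⟩
    · exact ⟨0, 0, fun h' => absurd h' h⟩
  choose q r hqr using hq
  have c2 : (starRingEnd ℂ) (2 : ℂ) = 2 := map_ofNat _ 2
  have hS : ∀ z, SgC p (zbar z) ↔ SgC p z := fun z =>
    ⟨fun h => by have := sgC_bar42 h; rwa [bar_bar42] at this, sgC_bar42⟩
  refine ⟨fun z => if SgC p z then (if NR z then C (1 / 2) * (1 + cx Ψ) else cx (q z)) else 0,
    fun z => if SgC p z then (if NR z then C (-(Complex.I * es42 z) / 2) * (1 - cx Ψ) else 0)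
      else 0, ?_, ?_, ?_, ?_⟩
  · intro z
    by_cases h : SgC p z
    · by_cases hn : NR z
      · simp only [if_pos ((hS z).2 h), if_pos h, if_pos ((nr_bar42 z).2 hn), if_pos hn, map_mul,
          map_add, map_one, cjp_C, cjp_cx]
        congr 2
        simp [c2]
      · simp only [if_pos h, if_neg hn, bar_real42 hn, cjp_cx]
    · have h' : ¬ SgC p (zbar z) := fun h' => h ((hS z).1 h')
      simp only [if_neg h, if_neg h', map_zero]
  · intro z
    by_cases h : SgC p z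
    · by_cases hn : NR z
      · simp only [if_pos ((hS z).2 h), if_pos h, if_pos ((nr_bar42 z).2 hn), if_pos hn, map_mul,
          map_sub, map_one, cjp_C, cjp_cx, es_bar42]
        congr 2
        simp [c2]
      · have hn' : ¬ NR (zbar z) := fun h' => hn ((nr_bar42 z).1 h')
        simp only [if_pos ((hS z).2 h), if_pos h, if_neg hn', if_neg hn, map_zero]
    · have h' : ¬ SgC p (zbar z) := fun h' => h ((hS z).1 h')
      simp only [if_neg h, if_neg h', map_zero]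
  · intro z h
    simp only [if_neg h, and_self]
  · intro z h
    by_cases hn : NR z
    · refine ⟨0, 0, by simp, ?_⟩
      simp only [if_pos h, if_pos hn, mul_zero]
      have e1 : (C (1 / 2) : CP) ^ 2 = C (1 / 4) := by
        rw [← C_pow]
        norm_num
      have e2 : (C (-(Complex.I * es42 z) / 2) : CP) ^ 2 = C (-1 / 4) := by
        rw [← C_pow]
        congr 1
        have e3 : ((es42 z : ℝ) : ℂ) ^ 2 = 1 := by
          rw [← Complex.ofReal_pow, es_sq42 hn, Complex.ofReal_one]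
        have e4 : (-(Complex.I * (es42 z : ℂ)) / 2) ^ 2 = Complex.I ^ 2 * (es42 z : ℂ) ^ 2 / 4 := by
          ring
        rw [e4, e3, Complex.I_sq]
        norm_num
      have e3 : (C (1 / 4) : CP) - C (-1 / 4) = C (1 / 2) := by
        rw [← C_sub]
        norm_num
      have e4 : (C (1 / 2) : CP) * 2 = 1 := by
        have : (2 : CP) = C 2 := by rw [map_ofNat]
        rw [this, ← C_mul]
        norm_num
      have e5 : (C (1 / 4) : CP) + C (-1 / 4) = 0 := by
        rw [← C_add]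
        norm_num
      linear_combination (1 + cx Ψ) ^ 2 * e1 + (1 - cx Ψ) ^ 2 * e2 + (1 + cx Ψ ^ 2) * e5 +
        2 * cx Ψ * e3 + cx Ψ * e4
    · have e := real42 hn
      have hsg : Sg p (fun i => (z i).re) := by
        apply sgC_real42
        rw [← e]
        exact h
      have h3 := hqr z (h2 _ hsg)
      obtain ⟨w, hw⟩ : ∃ w : Fin 2 → ℝ, (fun i => (z i).re) = w := ⟨_, rfl⟩
      rw [hw] at e h3
      refine ⟨C (eval w Ψ) - Ψ, cx (r z), ?_, ?_⟩
      · rw [e, eval_cx]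
        simp
      · simp only [if_pos h, if_neg hn]
        have h4 := congrArg cx h3
        rw [map_sub, map_pow, map_mul, map_pow] at h4
        rw [← h4]
        ring


private theorem cjD_ind42 {Z : Finset (Place ℂ F)} (hcj : ∀ P ∈ Z, s.cj P ∈ Z) (m : ℤ)
    (P : Place ℂ F) : dS Z m (s.cj P) = dS Z m P := by
  by_cases h : P ∈ Z
  · rw [dS_mem m h, dS_mem m (hcj P h)]
  · have h' : s.cj P ∉ Z := by
      intro h1
      apply h
      have := hcj _ h1
      rwa [cj_cj] at this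
    rw [dS_notMem m h, dS_notMem m h']

variable {p : A} {π : CP →ₐ[ℂ] F}

theorem spa (hc : IsCrv p s π) (hp : Irreducible p) (hsc : SC p)
    (hn : ∃ P : Place ℂ F, ¬ FinP π P ∧ s.cj P ≠ P) {Ψ : A}
    (h1 : ∀ P, s.cj P = P → PosAt s hF P (π (cx Ψ)))
    (h2 : ∀ z : Fin 2 → ℝ, Sg p z → 0 < eval z Ψ) :
    ∃ (n : ℕ) (ψ : Fin n → A), p ∣ Ψ - ∑ j, ψ j ^ 2 := by
  classical
  have hreal := infinite_real hF hc hp hsc
  obtain ⟨N₀, hN₀⟩ := mem_high hF hc hp
  set g := π (cx Ψ) with hg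
  have hgσ : s.σ g = g := hc.real Ψ
  obtain ⟨P₀, hP₀⟩ := hreal.nonempty
  have hg0 : g ≠ 0 := (h1 P₀ hP₀).ne_zero
  obtain ⟨B, hB⟩ := ord_bound42 hF hg0
  have hB1 : ∀ P : Place ℂ F, ord P.ring g ≤ B := fun P => (le_abs_self _).trans (hB P)
  -- the infinite places
  set Inf := (finite_inf hF hc).toFinset with hInf
  have mInf : ∀ P, P ∈ Inf ↔ ¬ FinP π P := fun P => by
    rw [hInf, Set.Finite.mem_toFinset]
    rfl
  have hInfcj : ∀ P ∈ Inf, s.cj P ∈ Inf := fun P hP => by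
    rw [mInf] at hP ⊢
    rwa [fin_cj hc]
  set S := Inf.filter (fun P => s.cj P ≠ P) with hSd
  have mS : ∀ P, P ∈ S ↔ ¬ FinP π P ∧ s.cj P ≠ P := fun P => by
    rw [hSd, Finset.mem_filter, mInf]
  have hS : SData s S := by
    refine ⟨?_, ?_, ?_⟩
    · obtain ⟨P, hP⟩ := hn
      exact ⟨P, (mS P).2 hP⟩
    · intro P hP
      rw [mS] at hP ⊢
      refine ⟨by rw [fin_cj hc]; exact hP.1, ?_⟩
      intro h
      rw [cj_cj] at h
      exact hP.2 h.symm
    · intro P hP
      exact ((mS P).1 hP).2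
  -- the singular points
  obtain ⟨i₀, hi₀⟩ := hc.pderiv_ne_zero hp
  have hSingf : {z : Fin 2 → ℂ | SgC p z}.Finite :=
    (finite_common hF hc hi₀).subset fun z hz => ⟨hz.1, hz.2 i₀⟩
  set Sing := hSingf.toFinset with hSing
  have mSing : ∀ z, z ∈ Sing ↔ SgC p z := fun z => by
    rw [hSing, Set.Finite.mem_toFinset]
    rfl
  set Zr := (finite_common hF hc hg0).toFinset with hZr
  have mZr : ∀ z, z ∈ Zr ↔ eval z (cx p) = 0 ∧ eval z (cx Ψ) = 0 := fun z => by
    rw [hZr, Set.Finite.mem_toFinset]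
    rfl
  -- the places over the singular points
  set Z : Finset (Place ℂ F) := Sing.biUnion fun z => (finite_over hF hc z).toFinset with hZd
  have mZ : ∀ P, P ∈ Z ↔ ∃ z, SgC p z ∧ Over hF π P z := fun P => by
    rw [hZd, Finset.mem_biUnion]
    constructor
    · rintro ⟨z, hz, hP⟩
      rw [Set.Finite.mem_toFinset] at hP
      exact ⟨z, (mSing z).1 hz, hP⟩
    · rintro ⟨z, hz, hP⟩
      exact ⟨z, (mSing z).2 hz, (finite_over hF hc z).mem_toFinset.2 hP⟩
  have hZfin : ∀ P ∈ Z, FinP π P := fun P hP => by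
    obtain ⟨z, _, h⟩ := (mZ P).1 hP
    exact h.1
  have hZS : Disjoint Z S := by
    rw [Finset.disjoint_left]
    intro P hP hPS
    exact ((mS P).1 hPS).1 (hZfin P hP)
  have hZcj : ∀ P ∈ Z, s.cj P ∈ Z := fun P hP => by
    obtain ⟨z, hz, h⟩ := (mZ P).1 hP
    exact (mZ _).2 ⟨zbar z, sgC_bar42 hz, over_cj hF hc h⟩
  -- the jets
  set N := 2 * N₀ + B with hNd
  obtain ⟨H₁, H₂, hH₁, hH₂, hH0, hH⟩ := targets42 (p := p) h2 N
  have hZp : ∀ z ∈ Sing ∪ Zr, zbar z ∈ Sing ∪ Zr := by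
    intro z hz
    rw [Finset.mem_union] at hz ⊢
    rcases hz with h | h
    · left
      rw [mSing] at h ⊢
      exact sgC_bar42 h
    · right
      rw [mZr] at h ⊢
      rw [eval_zbar, eval_zbar, h.1, h.2, map_zero]
      exact ⟨rfl, rfl⟩
  obtain ⟨a₁, ha₁, ha₁'⟩ := exists_jet hF hc hp hn N B (Sing ∪ Zr) hZp H₁ fun z _ => hH₁ z
  obtain ⟨a₂, ha₂, ha₂'⟩ := exists_jet hF hc hp hn N B (Sing ∪ Zr) hZp H₂ fun z _ => hH₂ z
  set x₁ := π (cx a₁) with hx₁
  set x₂ := π (cx a₂) with hx₂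
  have hx₁σ : s.σ x₁ = x₁ := hc.real a₁
  have hx₂σ : s.σ x₂ = x₂ := hc.real a₂
  have hfinr : ∀ P : Place ℂ F, FinP π P → ∀ h : CP, Oge P 0 (π h) := fun P hP h =>
    (oge_zero_iff hF).2 (mem_of_fin hP h)
  set G := x₁ ^ 2 + x₂ ^ 2 with hGd
  have hGσ : s.σ G = G := by rw [hGd, map_add, map_pow, map_pow, hx₁σ, hx₂σ]
  have sqO : ∀ (P : Place ℂ F) (x : F), Oge P B x → Oge P B (x ^ 2) := by
    intro P x hx
    have h3 := oge_mul hF hx (hx.mono (Nat.cast_nonneg B))
    rwa [add_zero, ← pow_two] at h3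
  -- congruence at the singular points
  have hGZ : ∀ P ∈ Z, Oge P N (G - g) := by
    intro P hP
    obtain ⟨z, hz, hPz⟩ := (mZ P).1 hP
    have hzm : z ∈ Sing ∪ Zr := Finset.mem_union_left _ ((mSing z).2 hz)
    obtain ⟨e, r, he, her⟩ := hH z hz
    have h3 := ha₁ z hzm P hPz
    have h4 := ha₂ z hzm P hPz
    have hfP := hPz.1
    have h5 : G - g = (x₁ - π (H₁ z)) * (x₁ + π (H₁ z)) + (x₂ - π (H₂ z)) * (x₂ + π (H₂ z)) +
        π (cx e) ^ N * π r := by
      have h6 := congrArg π her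
      rw [map_sub, map_add, map_pow, map_pow, map_mul, map_pow] at h6
      rw [← h6, hGd, hg]
      ring
    have h6 : Oge P 1 (π (cx e)) := by
      rw [← vl_eq_zero hF (mem_of_fin hfP _), vl_over hF hPz]
      exact he
    have h7 := oge_mul hF (oge_pow hF h6 N) (hfinr P hfP r)
    rw [mul_one, add_zero] at h7
    have h8 := oge_mul hF h3 (oge_add hF (hfinr P hfP (cx a₁)) (hfinr P hfP (H₁ z)))
    have h9 := oge_mul hF h4 (oge_add hF (hfinr P hfP (cx a₂)) (hfinr P hfP (H₂ z)))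
    rw [add_zero] at h8 h9
    rw [h5]
    exact oge_add hF (oge_add hF h8 h9) h7
  have hQ' : ∀ P, s.cj P = P → P ∈ Z → Oge P (ord P.ring g + 2 * N₀) (G - g) := by
    intro P _ hPZ
    refine (hGZ P hPZ).mono ?_
    have := hB1 P
    rw [hNd]
    push_cast
    linarith
  have hQ : ∀ P, s.cj P = P → P ∉ Z → Oge P (ord P.ring g) (G - g) := by
    intro P _ hPZ
    apply oge_sub hF _ (Or.inr le_rfl)
    by_cases hPf : FinP π P
    · obtain ⟨z, hPz⟩ := exists_point hF hPf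
      by_cases h0 : eval z (cx Ψ) = 0
      · have hzm : z ∈ Sing ∪ Zr :=
          Finset.mem_union_right _ ((mZr z).2 ⟨over_zero hF hc hPz, h0⟩)
        have hns : ¬ SgC p z := fun h => hPZ ((mZ P).2 ⟨z, h, hPz⟩)
        obtain ⟨e1, e2⟩ := hH0 z hns
        have h3 := ha₁ z hzm P hPz
        have h4 := ha₂ z hzm P hPz
        rw [e1, map_zero, sub_zero] at h3
        rw [e2, map_zero, sub_zero] at h4
        have hBN : (B : ℤ) ≤ (N : ℤ) := by
          rw [hNd]
          push_cast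
          have : (0 : ℤ) ≤ N₀ := Nat.cast_nonneg _
          linarith
        exact (oge_add hF (sqO P _ (h3.mono hBN)) (sqO P _ (h4.mono hBN))).mono (hB1 P)
      · have h3 : ord P.ring g = 0 := by
          apply ord_eq_zero_of_vl hF (mem_of_fin hPf _)
          rw [vl_over hF hPz]
          exact h0
        rw [h3]
        have h4 := oge_mul hF (hfinr P hPf (cx a₁)) (hfinr P hPf (cx a₁))
        have h5 := oge_mul hF (hfinr P hPf (cx a₂)) (hfinr P hPf (cx a₂))
        rw [add_zero, ← pow_two] at h4 h5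
        exact oge_add hF h4 h5
    · rename_i hPr
      exact (oge_add hF (sqO P _ (ha₁' P hPf hPr)) (sqO P _ (ha₂' P hPf hPr))).mono (hB1 P)
  obtain ⟨η, hησ, hηr, hηZ, hsos, hne⟩ :=
    core42 hF hreal hS Z hZS hZcj N₀ hgσ hGσ h1 hQ hQ'
  set Ψ₂ := g - G * η ^ 2 with hΨ₂
  obtain ⟨K, hK⟩ := ord_bound42 hF hne
  -- the order of `Ψ₂`
  have hΨZ : ∀ P ∈ Z, Oge P (2 * N₀) Ψ₂ := by
    intro P hP
    have hPf := hZfin P hP
    have h3 : Oge P (2 * N₀) (G - g) := by
      refine (hGZ P hP).mono ?_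
      rw [hNd]
      push_cast
      have : (0 : ℤ) ≤ B := Nat.cast_nonneg _
      linarith
    have hPS : P ∉ S := fun h => Finset.disjoint_left.1 hZS hP h
    have hη0 : Oge P 0 η := (oge_zero_iff hF).2 (hηr P hPS)
    have hG0 : Oge P 0 G := by
      have h4 := oge_mul hF (hfinr P hPf (cx a₁)) (hfinr P hPf (cx a₁))
      have h5 := oge_mul hF (hfinr P hPf (cx a₂)) (hfinr P hPf (cx a₂))
      rw [add_zero, ← pow_two] at h4 h5
      exact oge_add hF h4 h5
    have h10 : Oge P 0 (1 : F) := (oge_zero_iff hF).2 P.ring.one_mem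
    have e : Ψ₂ = -(G - g) - (η - 1) * ((η + 1) * G) := by
      rw [hΨ₂]
      ring
    rw [e]
    have h4 := oge_mul hF (oge_add hF hη0 h10) hG0
    rw [add_zero] at h4
    have h5 := oge_mul hF (hηZ P hP) h4
    rw [add_zero] at h5
    exact oge_sub hF (oge_neg hF h3) h5
  have hΨr : ∀ P, FinP π P → Ψ₂ ∈ P.ring := by
    intro P hPf
    have hPS : P ∉ S := fun h => ((mS P).1 h).1 hPf
    have hG0 : G ∈ P.ring := add_mem (pow_mem (mem_of_fin hPf _) 2) (pow_mem (mem_of_fin hPf _) 2)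
    exact sub_mem (mem_of_fin hPf _) (P.ring.mul_mem _ _ hG0 (pow_mem (hηr P hPS) 2))
  -- the divisor
  set F0 : Place ℂ F →₀ ℤ := dS Z (N₀ : ℤ) + dS Inf (-(K : ℤ)) with hF0
  have hZI : ∀ P ∈ Z, P ∉ Inf := fun P hP h => (mInf P).1 h (hZfin P hP)
  have hF0v : ∀ P, F0 P = dS Z (N₀ : ℤ) P + dS Inf (-(K : ℤ)) P := fun P => rfl
  have hF0cj : cjD s F0 = F0 := by
    ext P
    rw [cjD_apply, hF0v, hF0v, cjD_ind42 hZcj, cjD_ind42 hInfcj]
  have hord : ∀ P, 2 * F0 P ≤ ord P.ring Ψ₂ := by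
    intro P
    rw [hF0v]
    by_cases hPZ : P ∈ Z
    · rw [dS_mem _ hPZ, dS_notMem _ (hZI P hPZ), add_zero]
      exact (hΨZ P hPZ).resolve_left hne
    · rw [dS_notMem _ hPZ, zero_add]
      by_cases hPI : P ∈ Inf
      · rw [dS_mem _ hPI]
        have h3 := hK P
        have h4 := neg_abs_le (ord P.ring Ψ₂)
        have h5 : (0 : ℤ) ≤ K := Nat.cast_nonneg _
        linarith
      · rw [dS_notMem _ hPI, mul_zero]
        have hPf : FinP π P := by
          by_contra h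
          exact hPI ((mInf P).2 h)
        exact (FF.ord_nonneg_iff hF P hne).2 (hΨr P hPf)
  obtain ⟨m, hm⟩ := n1 hF hreal hS
  obtain ⟨n, u, hu, hus⟩ := hm Ψ₂ hne hsos F0 hF0cj hord
  -- everything is polynomial
  have hpoly : ∀ f : F, s.σ f = f → (∀ P : Place ℂ F, FinP π P → f ∈ P.ring) →
      (∀ z : Fin 2 → ℂ, SgC p z → ∃ h : CP, ∀ P, Over hF π P z → Oge P N₀ (f - π h)) →
      ∃ a : A, f = π (cx a) := fun f hf h3 h4 => real_range hc hf (hN₀ f h3 h4)
  have hψ : ∀ a : A, ∃ b : A, π (cx a) * η = π (cx b) := by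
    intro a
    apply hpoly
    · rw [map_mul, hc.real, hησ]
    · intro P hPf
      have hPS : P ∉ S := fun h => ((mS P).1 h).1 hPf
      exact P.ring.mul_mem _ _ (mem_of_fin hPf _) (hηr P hPS)
    · intro z hz
      refine ⟨cx a, fun P hP => ?_⟩
      have hPZ : P ∈ Z := (mZ P).2 ⟨z, hz, hP⟩
      have e : π (cx a) * η - π (cx a) = π (cx a) * (η - 1) := by ring
      rw [e]
      have h3 := oge_mul hF (hfinr P hP.1 (cx a)) (hηZ P hPZ)
      refine h3.mono ?_
      have : (0 : ℤ) ≤ N₀ := Nat.cast_nonneg _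
      linarith
  obtain ⟨b₁, hb₁⟩ := hψ a₁
  obtain ⟨b₂, hb₂⟩ := hψ a₂
  have hui : ∀ i, ∃ c : A, u i = π (cx c) := by
    intro i
    have h3 := (mem_L hF).1 (hu i).2
    have h4 : ∀ P, FinP π P → Oge P (dS Z (N₀ : ℤ) P) (u i) := by
      intro P hPf
      have hPS : P ∉ S := fun h => ((mS P).1 h).1 hPf
      have hPI : P ∉ Inf := fun h => (mInf P).1 h hPf
      have h5 := h3 P
      have e : -((dS S (m : ℤ) - F0) P) = dS Z (N₀ : ℤ) P := by
        rw [Finsupp.sub_apply, hF0v, dS_notMem _ hPS, dS_notMem _ hPI]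
        ring
      rwa [e] at h5
    apply hpoly _ (hu i).1
    · intro P hPf
      have h5 := h4 P hPf
      rw [← oge_zero_iff hF]
      refine h5.mono ?_
      by_cases hPZ : P ∈ Z
      · rw [dS_mem _ hPZ]
        exact Nat.cast_nonneg _
      · rw [dS_notMem _ hPZ]
    · intro z hz
      refine ⟨0, fun P hP => ?_⟩
      have hPZ : P ∈ Z := (mZ P).2 ⟨z, hz, hP⟩
      have h5 := h4 P hP.1
      rw [dS_mem _ hPZ] at h5
      rw [map_zero, sub_zero]
      exact h5
  choose c hcu using hui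
  refine ⟨n + 2, Fin.cons b₁ (Fin.cons b₂ c), ?_⟩
  rw [← hc.eq_zero_iff]
  rw [Fin.sum_univ_succ, Fin.sum_univ_succ]
  simp only [Fin.cons_zero, Fin.cons_succ, map_sub, map_add, map_pow, map_sum]
  rw [← hb₁, ← hb₂]
  have e : ∑ i, π (cx (c i)) ^ 2 = Ψ₂ := by
    rw [hus]
    exact Finset.sum_congr rfl fun i _ => by rw [hcu]
  rw [e, hΨ₂, hGd]
  ring

end Pool.Agent.Helper10.GN
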