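import Pool.Agent.Helper10.GN.Rlp
import Pool.Agent.Helper10.GN.Mxi
import Pool.Agent.Helper10.TC.Art

set_option autoImplicit false

/-!
# Project GN, block SUP0: the support of `M_{-h₀}` has finite colength

`h₀ ≥ 0` everywhere, `h₀ ≠ 0`, without sign-changing irreducible factor. `supM h₀` = set of the `f` with `f, -f ∈ M_{-h₀}`.
`supM_ideal`: it is an ideal: closed under addition and, for `a : A`, `a f = ((a+1)/2)² f + ((a-1)/2)² (-f)`, similarly for `- a f`.

`exists_u`: there is `a ≠ 0` without sign-changing irreducible factor such that `a² h₀` is a sum of squares; so `u = a² h₀ ∈ supM`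
(`- a² h₀ = a² (-h₀)`). Proof: `artin` (TC/Art.lean) with `g := 1`, `p := h₀`: `c² h₀ = s + t` (sums of squares), so a sum of squares, `c ≠ 0`. If a
sign-changing irreducible `r` divides `c`, then it divides the sum of squares `c² h₀ = ∑ s_i²`, so all `s_i` (`real_prime`), and
`(c/r)² h₀ = ∑ (s_i/r)²`: descent on the degree of `c`.

`exists_sq_sum`: let `r` be irreducible and `≥ 0` everywhere. There are `s` with `r ∤ s` and a sum of squares `σ` with
`r ∣ s² + σ`: `artin`: `c² r = ∑ s_i²`, `c ≠ 0`, choose `c` of minimal degree. If all `s_i` are divisible by `r`: `c² = r ∑ (s_i/r)²`, so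
`r ∣ c`, `c = r c'`, `r c'² = ∑ (s_i/r)²`, contradicting minimality. So some `r ∤ s_i`; put the other squares into `σ`.
`double`: `s² + σ ∈ (r^k)`, `r ∤ s` implies the same for `2 k` with `s' = s² - σ`, `σ' = 4 s² σ`: `s'² + σ' = (s² + σ)²`, and
`s' ≡ 2 s²` modulo `r` (`k ≥ 1`). So for every `k` there are `s`, `σ` with `r ∤ s`, `r^k ∣ s² + σ`.
`exists_off`: for every irreducible `r ∣ u` (`r` does not change sign, so `r` or `-r` is `≥ 0`) there is an element of `supM` not divisible by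
`r`: `u = r^k u₂`, `r ∤ u₂`; `(s u₂)² + σ u₂² ∈ (r^k u₂²) ⊆ (u) ⊆ supM`, so `(s u₂)²` and `-(s u₂)² = σ u₂² - (...)` are in
`M_{-h₀}`: `(s u₂)² ∈ supM`. `fc_sup`: by prime avoidance (`Ideal.subset_union_prime`) some `w ∈ supM` is divisible by none of the finitely many
irreducible factors of `u`; so `u`, `w` are coprime and `A/(u, w)` is finite-dimensional: over the field `ℝ(X 0)` the polynomials `u, w` in
`X 1` are coprime (Gauss lemma), so there is `0 ≠ ν(X 0) ∈ (u, w)`, in the same way `0 ≠ ν'(X 1) ∈ (u, w)`; `fc_of_two`, `fc_mono`.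
-/

namespace Pool.Agent.Helper10.GN

open VC FF MvPolynomial Pool.Agent.Helper68.QM

theorem inM_zero (g : A) : InM g 0 := InM.of_sq IsSumSq.zero

/-- the support of the quadratic module `M_{-h}` -/
noncomputable def supM (h : A) : Ideal A where
  carrier := {f | InM (-h) f ∧ InM (-h) (-f)}
  zero_mem' := ⟨inM_zero _, by rw [neg_zero]; exact inM_zero _⟩
  add_mem' := fun {a b} ha hb => ⟨ha.1.add hb.1, by
    rw [neg_add]
    exact ha.2.add hb.2⟩
  smul_mem' := fun c {x} hx => by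
    have key : ∀ y : A, InM (-h) y → InM (-h) (-y) → InM (-h) (c * y) := by
      intro y h1 h2
      have e : c * y = (C (1 / 2) * (c + 1)) ^ 2 * y + (C (1 / 2) * (c - 1)) ^ 2 * (-y) := by
        have h4 : (C (1 / 2) : A) ^ 2 * 4 = 1 := by
          rw [← C_pow]
          have : (4 : A) = C 4 := (map_ofNat C 4).symm
          rw [this, ← C_mul]
          norm_num
        linear_combination (- c * y) * h4
      rw [e]
      exact ((InM.sq _).mul h1).add ((InM.sq _).mul h2)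
    refine ⟨?_, ?_⟩
    · rw [smul_eq_mul]
      exact key x hx.1 hx.2
    · rw [smul_eq_mul, ← mul_neg]
      exact key (-x) hx.2 (by rw [neg_neg]; exact hx.1)

theorem mem_supM (h f : A) : f ∈ supM h ↔ InM (-h) f ∧ InM (-h) (-f) := Iff.rfl

private theorem sumsq86 {ι : Type} (t : Finset ι) (a : ι → A) : IsSumSq (∑ i ∈ t, a i ^ 2) :=
  Finset.sum_induction (fun i => a i ^ 2) IsSumSq (fun _ _ h1 h2 => h1.add h2) IsSumSq.zero
    (fun i _ => isSumSq_sq (a i))

private theorem deg_pos86 {r : A} (hr : Irreducible r) : 0 < r.totalDegree := by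
  rw [Nat.pos_iff_ne_zero]
  intro h0
  rw [totalDegree_eq_zero_iff_eq_C] at h0
  have h1 : coeff 0 r ≠ 0 := by
    intro h2
    rw [h2, C_0] at h0
    exact hr.ne_zero h0
  apply hr.not_isUnit
  rw [h0]
  exact (isUnit_iff_ne_zero.2 h1).map C

private theorem deg_lt86 {r c c' : A} (hr : Irreducible r) (hc : c ≠ 0) (h : c = r * c') :
    c' ≠ 0 ∧ c'.totalDegree < c.totalDegree := by
  have hc' : c' ≠ 0 := by
    rintro rfl
    rw [mul_zero] at h
    exact hc h
  refine ⟨hc', ?_⟩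
  rw [h, totalDegree_mul_of_isDomain hr.ne_zero hc']
  have := deg_pos86 hr
  omega

private theorem artin86 {p : A} (h : ∀ z : Fin 2 → ℝ, 0 ≤ eval z p) :
    ∃ c : A, c ≠ 0 ∧ IsSumSq (c ^ 2 * p) := by
  obtain ⟨c, hc0, s, t, hs, ht, he⟩ := Pool.Agent.Helper10.TC.artin 1 p
    ⟨0, by rw [map_one]; exact one_pos⟩ (fun z _ => h z)
  refine ⟨c, hc0, ?_⟩
  rw [he, mul_one]
  exact hs.add ht

private theorem u_aux86 {h₀ : A} (n : ℕ) : ∀ c : A, c ≠ 0 → c.totalDegree ≤ n →
    IsSumSq (c ^ 2 * h₀) →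
    ∃ a : A, a ≠ 0 ∧ (∀ r : A, Irreducible r → SC r → ¬ r ∣ a) ∧ IsSumSq (a ^ 2 * h₀) := by
  induction n with
  | zero =>
    intro c hc hd hs
    refine ⟨c, hc, ?_, hs⟩
    rintro r hr _ ⟨c', hc'⟩
    have := (deg_lt86 hr hc hc').2
    omega
  | succ n ih =>
    intro c hc hd hs
    by_cases hex : ∃ r : A, Irreducible r ∧ SC r ∧ r ∣ c
    · obtain ⟨r, hr, hsc, c', hc'⟩ := hex
      obtain ⟨h1, h2⟩ := deg_lt86 hr hc hc'
      refine ih c' h1 (by omega) ?_
      obtain ⟨m, B, hB⟩ := hs.exists_list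
      have h3 : r ∣ ∑ j, B j ^ 2 := by
        rw [← hB, hc']
        exact ⟨c' * (r * c') * h₀, by ring⟩
      choose T hT using fun j => real_prime hr hsc h3 j
      have h4 : c' ^ 2 * h₀ = ∑ j, T j ^ 2 := by
        have h5 : r ^ 2 * (c' ^ 2 * h₀) = r ^ 2 * ∑ j, T j ^ 2 := by
          have h6 : ∑ j, B j ^ 2 = r ^ 2 * ∑ j, T j ^ 2 := by
            rw [Finset.mul_sum]
            refine Finset.sum_congr rfl fun j _ => ?_
            rw [hT j]
            ring
          rw [← h6, ← hB, hc']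
          ring
        exact mul_left_cancel₀ (pow_ne_zero 2 hr.ne_zero) h5
      rw [h4]
      exact sumsq86 _ T
    · push Not at hex
      exact ⟨c, hc, fun r hr hsc hd => hex r hr hsc hd, hs⟩

private theorem two_unit86 {r a : A} (hr : Irreducible r) (h : r ∣ 2 * a) : r ∣ a := by
  rcases hr.prime.dvd_or_dvd h with h1 | h1
  · exfalso
    apply hr.not_isUnit
    have h2 : IsUnit (2 : A) := by
      have h3 : (2 : A) = C (2 : ℝ) := (map_ofNat C 2).symm
      rw [h3]
      exact (isUnit_iff_ne_zero.2 (two_ne_zero)).map C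
    exact isUnit_of_dvd_unit h1 h2
  · exact h1

private theorem base86 {r : A} (hr : Irreducible r) (n : ℕ) : ∀ c : A, c ≠ 0 →
    c.totalDegree ≤ n → IsSumSq (c ^ 2 * r) →
    ∃ s σ : A, ¬ r ∣ s ∧ IsSumSq σ ∧ r ∣ s ^ 2 + σ := by
  classical
  induction n with
  | zero =>
    intro c hc hd hs
    obtain ⟨m, B, hB⟩ := hs.exists_list
    by_cases hex : ∃ i, ¬ r ∣ B i
    · obtain ⟨i, hi⟩ := hex
      refine ⟨B i, ∑ j ∈ Finset.univ.erase i, B j ^ 2, hi, sumsq86 _ B, ?_⟩
      rw [Finset.add_sum_erase _ (fun j => B j ^ 2) (Finset.mem_univ i), ← hB]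
      exact Dvd.intro_left _ rfl
    · exfalso
      push Not at hex
      choose T hT using hex
      have h6 : ∑ j, B j ^ 2 = r ^ 2 * ∑ j, T j ^ 2 := by
        rw [Finset.mul_sum]
        refine Finset.sum_congr rfl fun j _ => ?_
        rw [hT j]
        ring
      have h7 : c ^ 2 = r * ∑ j, T j ^ 2 := by
        apply mul_left_cancel₀ hr.ne_zero
        rw [mul_comm r (c ^ 2), hB, h6]
        ring
      obtain ⟨c', hc'⟩ := hr.prime.dvd_of_dvd_pow (Dvd.intro _ h7.symm)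
      have := (deg_lt86 hr hc hc').2
      omega
  | succ n ih =>
    intro c hc hd hs
    obtain ⟨m, B, hB⟩ := hs.exists_list
    by_cases hex : ∃ i, ¬ r ∣ B i
    · obtain ⟨i, hi⟩ := hex
      refine ⟨B i, ∑ j ∈ Finset.univ.erase i, B j ^ 2, hi, sumsq86 _ B, ?_⟩
      rw [Finset.add_sum_erase _ (fun j => B j ^ 2) (Finset.mem_univ i), ← hB]
      exact Dvd.intro_left _ rfl
    · push Not at hex
      choose T hT using hex
      have h6 : ∑ j, B j ^ 2 = r ^ 2 * ∑ j, T j ^ 2 := by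
        rw [Finset.mul_sum]
        refine Finset.sum_congr rfl fun j _ => ?_
        rw [hT j]
        ring
      have h7 : c ^ 2 = r * ∑ j, T j ^ 2 := by
        apply mul_left_cancel₀ hr.ne_zero
        rw [mul_comm r (c ^ 2), hB, h6]
        ring
      obtain ⟨c', hc'⟩ := hr.prime.dvd_of_dvd_pow (Dvd.intro _ h7.symm)
      obtain ⟨h1, h2⟩ := deg_lt86 hr hc hc'
      refine ih c' h1 (by omega) ?_
      have h8 : c' ^ 2 * r = ∑ j, T j ^ 2 := by
        apply mul_left_cancel₀ hr.ne_zero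
        rw [← h7, hc']
        ring
      rw [h8]
      exact sumsq86 _ T

private theorem dbl86 {r : A} (hr : Irreducible r) (h : ∀ z : Fin 2 → ℝ, 0 ≤ eval z r) (m : ℕ) :
    ∃ s σ : A, ¬ r ∣ s ∧ IsSumSq σ ∧ r ^ (2 ^ m) ∣ s ^ 2 + σ := by
  induction m with
  | zero =>
    obtain ⟨c, hc0, hc⟩ := artin86 h
    obtain ⟨s, σ, h1, h2, h3⟩ := base86 hr _ c hc0 le_rfl hc
    exact ⟨s, σ, h1, h2, by rwa [pow_zero, pow_one]⟩
  | succ m ih =>
    obtain ⟨s, σ, h1, h2, h3⟩ := ih
    refine ⟨s ^ 2 - σ, (2 * s) ^ 2 * σ, ?_, (isSumSq_sq _).mul h2, ?_⟩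
    · intro h4
      apply h1
      have h5 : r ∣ s ^ 2 + σ := (dvd_pow_self r (by positivity)).trans h3
      have h6 : r ∣ 2 * s ^ 2 := by
        have h7 := dvd_add h4 h5
        have h8 : s ^ 2 - σ + (s ^ 2 + σ) = 2 * s ^ 2 := by ring
        rwa [h8] at h7
      exact hr.prime.dvd_of_dvd_pow (two_unit86 hr h6)
    · have h7 : (s ^ 2 - σ) ^ 2 + (2 * s) ^ 2 * σ = (s ^ 2 + σ) ^ 2 := by ring
      rw [h7, pow_succ, pow_mul]
      exact pow_dvd_pow_of_dvd h3 2

theorem exists_u {h₀ : A} (h : ∀ z : Fin 2 → ℝ, 0 ≤ eval z h₀) (h0 : h₀ ≠ 0)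
    (hns : ∀ r : A, Irreducible r → SC r → ¬ r ∣ h₀) :
    ∃ a : A, a ≠ 0 ∧ (∀ r : A, Irreducible r → SC r → ¬ r ∣ a) ∧ IsSumSq (a ^ 2 * h₀) := by
  obtain ⟨c, hc0, hc⟩ := artin86 h
  exact u_aux86 _ c hc0 le_rfl hc

theorem exists_sq_sum {r : A} (hr : Irreducible r) (h : ∀ z : Fin 2 → ℝ, 0 ≤ eval z r) (k : ℕ) :
    ∃ s σ : A, ¬ r ∣ s ∧ IsSumSq σ ∧ r ^ k ∣ s ^ 2 + σ := by
  obtain ⟨s, σ, h1, h2, h3⟩ := dbl86 hr h k
  exact ⟨s, σ, h1, h2, (pow_dvd_pow r Nat.lt_two_pow_self.le).trans h3⟩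

theorem fc_coprime {u w : A} (hu : u ≠ 0) (h : ∀ r : A, Irreducible r → r ∣ u → ¬ r ∣ w) :
    FC (Ideal.span {u, w}) := by
  unfold FC
  rw [Module.finite_iff_krullDimLE_zero]
  refine Ring.KrullDimLE.mk₀ fun I hI => ?_
  by_contra hnm
  obtain ⟨M, hM, hIM⟩ := Ideal.exists_le_maximal I hI.ne_top
  have hlt : I < M := lt_of_le_of_ne hIM (fun h => hnm (h ▸ hM))
  set f := Ideal.Quotient.mk (Ideal.span {u, w}) with hf
  have hfs : Function.Surjective f := Ideal.Quotient.mk_surjective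
  have hP : (I.comap f).IsPrime := Ideal.comap_isPrime f I
  have hQ : (M.comap f).IsPrime := by
    have := hM.isPrime
    exact Ideal.comap_isPrime f M
  have hPQ : I.comap f < M.comap f := by
    refine lt_of_le_of_ne (Ideal.comap_mono hIM) ?_
    intro he
    exact hlt.ne (Ideal.comap_injective_of_surjective f hfs he)
  have hJ : Ideal.span {u, w} ≤ I.comap f := by
    intro a ha
    rw [Ideal.mem_comap, hf, Ideal.Quotient.eq_zero_iff_mem.2 ha]
    exact I.zero_mem
  have huP : u ∈ I.comap f := hJ (Ideal.subset_span (Set.mem_insert u {w}))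
  have hwP : w ∈ I.comap f := hJ (Ideal.subset_span (Set.mem_insert_of_mem u rfl))
  have hPb : I.comap f ≠ ⊥ := by
    intro hb
    rw [hb, Ideal.mem_bot] at huP
    exact hu huP
  obtain ⟨r, hrP, hr⟩ := hP.exists_mem_prime_of_ne_bot hPb
  have hrp : (Ideal.span {r} : Ideal A).IsPrime := (Ideal.span_singleton_prime hr.ne_zero).2 hr
  have hle : Ideal.span {r} ≤ I.comap f := (Ideal.span_singleton_le_iff_mem _).2 hrP
  have hlt2 : Ideal.span {r} < I.comap f := by
    refine lt_of_le_of_ne hle fun he => ?_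
    rw [← he, Ideal.mem_span_singleton] at huP hwP
    exact h r hr.irreducible huP hwP
  have hlt1 : (⊥ : Ideal A) < Ideal.span {r} := by
    rw [bot_lt_iff_ne_bot, Ne, Ideal.span_singleton_eq_bot]
    exact hr.ne_zero
  let x : Fin 4 → PrimeSpectrum A := ![⟨⊥, Ideal.isPrime_bot⟩, ⟨Ideal.span {r}, hrp⟩,
    ⟨I.comap f, hP⟩, ⟨M.comap f, hQ⟩]
  let l : LTSeries (PrimeSpectrum A) :=
    { length := 3
      toFun := x
      step := by
        intro i
        fin_cases i
        · exact hlt1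
        · exact hlt2
        · exact hPQ }
  have h1 : ((3 : ℕ) : WithBot ℕ∞) ≤ ringKrullDim A := Order.LTSeries.length_le_krullDim l
  have h2 : ringKrullDim A = 2 := by
    rw [MvPolynomial.ringKrullDim_of_isNoetherianRing, ringKrullDim_eq_zero_of_field]
    simp
  rw [h2] at h1
  have h3 : (3 : ℕ) ≤ 2 := by exact_mod_cast h1
  omega

theorem fc_sup {h₀ : A} (h : ∀ z : Fin 2 → ℝ, 0 ≤ eval z h₀) (h0 : h₀ ≠ 0)
    (hns : ∀ r : A, Irreducible r → SC r → ¬ r ∣ h₀) : FC (supM h₀) := by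
  classical
  obtain ⟨a, ha0, hans, has⟩ := exists_u h h0 hns
  set u := a ^ 2 * h₀ with hu
  have hu0 : u ≠ 0 := mul_ne_zero (pow_ne_zero 2 ha0) h0
  have huM : u ∈ supM h₀ := by
    rw [mem_supM]
    refine ⟨InM.of_sq has, ?_⟩
    have e : -u = a ^ 2 * (-h₀) := by rw [hu]; ring
    rw [e]
    exact (InM.sq a).mul InM.gen
  -- elements of the support which are not divisible by a given factor of `u`
  have key : ∀ r : A, Irreducible r → r ∣ u → (∀ z : Fin 2 → ℝ, 0 ≤ eval z r) →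
      ∃ e ∈ supM h₀, ¬ r ∣ e := by
    intro r hr hru hpos
    obtain ⟨u₂, hk, hu₂⟩ := (FiniteMultiplicity.of_not_isUnit hr.not_isUnit
      hu0).exists_eq_pow_mul_and_not_dvd
    obtain ⟨s, σ, h1, h2, v, hv⟩ := exists_sq_sum hr hpos (multiplicity r u)
    refine ⟨(s * u₂) ^ 2, ?_, ?_⟩
    · have h4 : (s ^ 2 + σ) * u₂ ^ 2 ∈ supM h₀ := by
        have e : (s ^ 2 + σ) * u₂ ^ 2 = (v * u₂) * u := by
          rw [hv, mul_comm (v * u₂) u]
          conv_rhs => rw [hk]
          ring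
        rw [e]
        exact Ideal.mul_mem_left _ _ huM
      rw [mem_supM]
      refine ⟨InM.sq _, ?_⟩
      have e : -(s * u₂) ^ 2 = σ * u₂ ^ 2 + -((s ^ 2 + σ) * u₂ ^ 2) := by ring
      rw [e]
      exact (InM.of_sq (h2.mul (isSumSq_sq u₂))).add h4.2
    · intro h4
      rcases hr.prime.dvd_or_dvd (hr.prime.dvd_of_dvd_pow h4) with h5 | h5
      · exact h1 h5
      · exact hu₂ h5
  set T : Finset A := (UniqueFactorizationMonoid.factors u).toFinset with hT
  have hTirr : ∀ r ∈ T, Irreducible r ∧ r ∣ u := by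
    intro r hr
    rw [hT, Multiset.mem_toFinset] at hr
    exact ⟨UniqueFactorizationMonoid.irreducible_of_factor r hr,
      UniqueFactorizationMonoid.dvd_of_mem_factors hr⟩
  have hTe : ∀ r ∈ T, ∃ e ∈ supM h₀, ¬ r ∣ e := by
    intro r hr
    obtain ⟨hri, hru⟩ := hTirr r hr
    have hnsc : ¬ SC r := by
      intro hsc
      rw [hu] at hru
      rcases hri.prime.dvd_or_dvd hru with h1 | h1
      · exact hans r hri hsc (hri.prime.dvd_of_dvd_pow h1)
      · exact hns r hri hsc h1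
    by_cases hneg : ∃ z : Fin 2 → ℝ, eval z r < 0
    · have hle : ∀ z : Fin 2 → ℝ, 0 ≤ eval z (-r) := by
        intro z
        rw [map_neg]
        by_contra hcon
        exact hnsc ⟨⟨z, by linarith⟩, hneg⟩
      obtain ⟨e, he, hre⟩ := key (-r) hri.prime.neg.irreducible (neg_dvd.2 hru) hle
      exact ⟨e, he, fun h1 => hre (neg_dvd.2 h1)⟩
    · push Not at hneg
      exact key r hri hru hneg
  obtain ⟨w, hwM, hw⟩ : ∃ w ∈ supM h₀, ∀ r ∈ T, ¬ r ∣ w := by
    by_contra hcon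
    push Not at hcon
    have hsub : ((supM h₀ : Ideal A) : Set A) ⊆ ⋃ r ∈ (↑T : Set A), (Ideal.span {r} : Ideal A) := by
      intro w hw
      obtain ⟨r, hr, hrw⟩ := hcon w hw
      rw [Set.mem_iUnion₂]
      exact ⟨r, hr, Ideal.mem_span_singleton.2 hrw⟩
    obtain ⟨r, hr, hle⟩ := (Ideal.subset_union_prime (s := T) (f := fun r : A => Ideal.span {r})
      0 0 (fun r hr _ _ => (Ideal.span_singleton_prime (hTirr r hr).1.ne_zero).2
        (hTirr r hr).1.prime)).1 hsub
    obtain ⟨e, he, hre⟩ := hTe r hr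
    exact hre (Ideal.mem_span_singleton.1 (hle he))
  refine fc_mono (fc_coprime (u := u) (w := w) hu0 ?_) ?_
  · intro r hr hru hrw
    obtain ⟨q, hq, hqr⟩ := UniqueFactorizationMonoid.exists_mem_factors_of_dvd hu0 hr hru
    exact hw q (Multiset.mem_toFinset.2 hq) (hqr.symm.dvd.trans hrw)
  · rw [Ideal.span_le]
    rintro x (rfl | hx)
    · exact huM
    · rw [Set.mem_singleton_iff.1 hx]
      exact hwM

end Pool.Agent.Helper10.GN
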