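import Pool.Agent.Helper10.GN.Elm
import Pool.Agent.Helper10.GN.Clm
import Pool.Agent.Helper10.GN.Gl2
import Pool.Agent.Helper10.GN.Rlp
import Pool.Agent.Helper10.GN.Sup0
import Pool.Agent.Helper10.GN.Nty

set_option autoImplicit false

/-!
# Project GN, block STR: consequences of stability on an N-type component

`g = - Q² h₀`, `Q = ∏ p_j^(a_j)`, `a_j ≥ 1`, `I₀ = supM h₀` of finite colength, `M_g` stable, `p i` of N-type, `P₁ = ∏_{j ≠ i} p j`. `StarP` for `p i`, `P₁`.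

Proof. `P = p i * P₁ = ∏ p_j`. `P ∣ ∑ B²` implies `P ∣ B_j` (`real_prime`, `prod_dvd`), the same for `P₁`.
(1) `Q² I₀ ⊆ M_g`: for `e ∈ I₀`: `e = s - t h₀` and `Q² e = Q² s + t g`.
(2) An ideal `K` with `τ ∈ K`, `p i ∣ 1 - τ`, `(p i)^k K ⊆ I₀`: the ideals `(I₀ : (p i)^k)` increase with `k`, `A/I₀` is finite-dimensional, so they are
constant for `k ≥ k₀`; `K = (I₀ : (p i)^k₀)`; multiplication by `p i` is injective on `A/K` (finite-dimensional), hence surjective: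
`1 - p i t ∈ K` for some `t`, `τ = 1 - p i t`.
(3) Let `H` satisfy the conditions. `e_lemma` (`nty_place` gives `hn`) with `m = ∑ a_j`, `m' = 2 a_i + k₀`: `f`, and `f + ε` is congruent to a sum of squares modulo
`(P₁^(2m) (p i)^m') K ⊆ Q² I₀ ⊆ M_g`, so `f + ε ∈ M_g`. Stability with `d = totalDegree f`: `f + ε = s + t g`, `s` a sum of squares of degree
`≤ l`, so of squares of polynomials of degree `≤ l` (`degree_sum_sq`), and `P ∣ g`. `closed_mod`: `f ≡ ∑ B_j²` modulo `P`. As `P ∣ f - P₁ H` (`p * P₁ ∣`):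
`P₁ H ≡ ∑ B_j²` mod `P`, so `P₁ ∣ ∑ B_j²`, `B_j = P₁ c_j`, `P₁ H - P₁² ∑ c_j² ∈ (p i P₁)`, cancel `P₁`: `p i ∣ H - P₁ ∑ c_j²`.
-/

namespace Pool.Agent.Helper10.GN

open VC FF MvPolynomial Pool.Agent.Helper68.QM

private theorem exists_colon {I : Ideal A} (hI : FC I) (q : A) :
    ∃ (k : ℕ) (K : Ideal A) (τ : A), τ ∈ K ∧ q ∣ 1 - τ ∧ ∀ x ∈ K, q ^ k * x ∈ I := by
  have h1 : Module.Finite ℝ (A ⧸ I) := hI
  have h2 : IsArtinian ℝ (A ⧸ I) := inferInstance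
  have h3 : IsArtinian A (A ⧸ I) := isArtinian_of_tower ℝ h2
  obtain ⟨k, y, hy⟩ := IsArtinian.exists_pow_succ_smul_dvd q (1 : A ⧸ I)
  obtain ⟨t, rfl⟩ := Ideal.Quotient.mk_surjective y
  refine ⟨k, Submodule.comap (LinearMap.mulLeft A (q ^ k)) I, 1 - q * t, ?_, ⟨t, by ring⟩, fun x hx => hx⟩
  rw [Submodule.mem_comap, LinearMap.mulLeft_apply]
  have h4 : q ^ (k + 1) * t - q ^ k * 1 ∈ I := by
    rw [← Ideal.Quotient.mk_eq_mk_iff_sub_mem]
    exact hy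
  have h5 := I.neg_mem h4
  have h6 : q ^ k * (1 - q * t) = -(q ^ (k + 1) * t - q ^ k * 1) := by ring
  rw [h6]
  exact h5

variable {F : Type} [Field F] [Algebra ℂ F]

/-- nonnegative multiples `P₁ H` of `P₁` on the curve, vanishing at the real infinite places, are of the form `P₁² ∑ c²` -/
def StarP (p P₁ : A) (s : RStr F) (π : CP →ₐ[ℂ] F) : Prop :=
  ∀ H : A, (∀ P : Place ℂ F, ¬ FinP π P → s.cj P = P → Oge P 1 (π (cx (P₁ * H)))) →
    (∀ z : Fin 2 → ℝ, eval z p = 0 → 0 ≤ eval z (P₁ * H)) →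
    ∃ (n : ℕ) (c : Fin n → A), p ∣ H - P₁ * ∑ j, c j ^ 2

theorem star {ι : Type} [Fintype ι] [DecidableEq ι] {p : ι → A} (hp : Fam p) (a : ι → ℕ)
    (ha : ∀ i, 1 ≤ a i) {h₀ : A} (hI : FC (supM h₀))
    (hst : Stable (-((∏ i, p i ^ a i) ^ 2 * h₀))) {i : ι} (hn : NTy (p i)) {s : RStr F}
    (hF : IsFunctionField ℂ F) {π : CP →ₐ[ℂ] F} (hc : IsCrv (p i) s π) :
    StarP (p i) (∏ j ∈ Finset.univ.erase i, p j) s π := by
  intro H hf1 hf2
  set P₁ : A := ∏ j ∈ Finset.univ.erase i, p j with hP₁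
  set Q : A := ∏ i, p i ^ a i with hQ
  have hPt : ∏ j, p j = p i * P₁ := (Finset.mul_prod_erase _ _ (Finset.mem_univ i)).symm
  have hpr : ∀ j, Prime (p j) := fun j => (hp.irr j).prime
  have hnd : ¬ p i ∣ P₁ := by
    intro h
    rw [hP₁, (hpr i).dvd_finsetProd_iff] at h
    obtain ⟨j, hj, h2⟩ := h
    exact hp.na i j (Finset.ne_of_mem_erase hj).symm
      (((hp.irr i).dvd_irreducible_iff_associated (hp.irr j)).mp h2)
  have hP₁0 : P₁ ≠ 0 := Finset.prod_ne_zero_iff.2 fun j _ => (hp.irr j).ne_zero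
  have hsq : ∀ (t : Finset ι) (n : ℕ) (B : Fin n → A), ∏ j ∈ t, p j ∣ ∑ k, B k ^ 2 →
      ∀ k, ∏ j ∈ t, p j ∣ B k := by
    intro t n B hB k
    exact prod_dvd hp t fun j hj => real_prime (hp.irr j) (hp.sc j)
      ((Finset.dvd_prod_of_mem p hj).trans hB) k
  obtain ⟨k, K, τ, hτ, hτp, hK⟩ := exists_colon hI (p i)
  obtain ⟨f, hf, hfε⟩ := e_lemma hF hc (hp.irr i) (hp.sc i) (nty_place hF hc (hp.irr i) (hp.sc i) hn)
    hnd hf1 hf2 hτ hτp (∑ j, a j) (2 * a i + k)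
  -- the ideal is contained in the quadratic module
  have hQd : Q ∣ P₁ ^ (∑ j, a j) * p i ^ a i := by
    rw [hQ, ← Finset.mul_prod_erase _ _ (Finset.mem_univ i), mul_comm, hP₁, ← Finset.prod_pow]
    refine mul_dvd_mul (Finset.prod_dvd_prod_of_dvd _ _ fun j _ => pow_dvd_pow _ ?_) dvd_rfl
    exact Finset.single_le_sum (f := a) (fun _ _ => Nat.zero_le _) (Finset.mem_univ j)
  have hin : ∀ x ∈ Ideal.span {P₁ ^ (2 * ∑ j, a j) * p i ^ (2 * a i + k)} * K, InM (-(Q ^ 2 * h₀)) x := by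
    intro x hx
    obtain ⟨y, hy, rfl⟩ := Ideal.mem_span_singleton_mul.1 hx
    obtain ⟨w, hw⟩ := hQd
    have h1 : w ^ 2 * (p i ^ k * y) ∈ supM h₀ := Ideal.mul_mem_left _ _ (hK y hy)
    obtain ⟨u, v, hu, hv, huv⟩ := ((mem_supM _ _).1 h1).1
    refine ⟨Q ^ 2 * u, v, (isSumSq_sq Q).mul hu, hv, ?_⟩
    have h2 : P₁ ^ (2 * ∑ j, a j) * p i ^ (2 * a i + k) * y = (P₁ ^ (∑ j, a j) * p i ^ a i) ^ 2 * (p i ^ k * y) := by
      rw [pow_add, mul_pow, ← pow_mul, ← pow_mul, mul_comm (∑ j, a j) 2, mul_comm (a i) 2]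
      ring
    rw [h2, hw]
    linear_combination Q ^ 2 * huv
  have hMem : ∀ ε : ℝ, 0 < ε → InM (-(Q ^ 2 * h₀)) (f + C ε) := by
    intro ε hε
    obtain ⟨n, B, hB⟩ := hfε ε hε
    have h1 : InM (-(Q ^ 2 * h₀)) (∑ j, B j ^ 2) := by
      refine InM.of_sq ?_
      exact Finset.sum_induction (fun i => B i ^ 2) IsSumSq (fun _ _ h1 h2 => h1.add h2) IsSumSq.zero
        (fun i _ => isSumSq_sq (B i))
    have h2 := h1.add (hin _ hB)
    rwa [add_sub_cancel] at h2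
  obtain ⟨l, hl⟩ := hst
  have hdvd : p i * P₁ ∣ -(Q ^ 2 * h₀) := by
    rw [← hPt, dvd_neg]
    have h1 : ∏ j, p j ∣ Q := Finset.prod_dvd_prod_of_dvd _ _ fun j _ => dvd_pow_self _ (by have := ha j; omega)
    exact (h1.trans (dvd_pow_self Q two_ne_zero)).mul_right _
  obtain ⟨n, B, hB⟩ := closed_mod (P := p i * P₁) (f := f) (fun n B h j => by
      rw [← hPt] at h ⊢
      exact hsq Finset.univ n B h j) (l f.totalDegree) fun ε hε => by
    obtain ⟨s', t, hs, -, hst, hsd, -⟩ := hl f.totalDegree (f + C ε) (hMem ε hε)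
      ((totalDegree_add _ _).trans (max_le le_rfl (by rw [totalDegree_C]; exact Nat.zero_le _)))
    obtain ⟨n, B, rfl⟩ := hs.exists_list
    refine ⟨n, B, fun j => degree_sum_sq B _ (by omega) j, ?_⟩
    rw [hst, add_sub_cancel_left]
    exact hdvd.mul_left t
  have h1 : p i * P₁ ∣ P₁ * H - ∑ j, B j ^ 2 := by
    have h2 := dvd_sub hB hf
    have h3 : f - ∑ j, B j ^ 2 - (f - P₁ * H) = P₁ * H - ∑ j, B j ^ 2 := by ring
    rwa [h3] at h2
  have h2 : P₁ ∣ ∑ j, B j ^ 2 := by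
    have h3 := (dvd_mul_left P₁ (p i)).trans h1
    exact (dvd_sub_right (dvd_mul_right P₁ H)).1 h3
  choose c hc' using fun j => hsq (Finset.univ.erase i) n B h2 j
  obtain ⟨w, hw⟩ := h1
  refine ⟨n, c, w, ?_⟩
  apply mul_left_cancel₀ hP₁0
  have h3 : ∑ j, B j ^ 2 = P₁ ^ 2 * ∑ j, c j ^ 2 := by
    rw [Finset.mul_sum]
    refine Finset.sum_congr rfl fun j _ => ?_
    rw [hc' j, mul_pow]
  rw [h3] at hw
  linear_combination hw

end Pool.Agent.Helper10.GN
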