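import Pool.Agent.Helper10.GN.Mxi

set_option autoImplicit false

/-!
# Project GN, block TRV: transversal intersections

`trv_local`: `z` a real common zero of `p`, `q` with independent gradients. By Taylor/division write
`p = m₀₀ (X 0 - z 0) + m₀₁ (X 1 - z 1)`, `q = m₁₀ (X 0 - z 0) + m₁₁ (X 1 - z 1)` with `m_ij ∈ A`, `m₀ᵢ(z) = ∂p/∂X_i (z)`,
`m₁ᵢ(z) = ∂q/∂X_i (z)` (a polynomial vanishing at `z` is in the ideal `(X 0 - z 0, X 1 - z 1)`; differentiate and evaluate at `z`). Let
`Δ = m₀₀ m₁₁ - m₀₁ m₁₀`, `Δ(z) ≠ 0`; `Δ (X i - z i) ∈ (p, q)` (Cramer), so `Δ e ∈ (p, q)` for every `e` vanishing at `z`.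
`trv_mem`: if all complex common zeros of `p`, `q` are real and transversal, and `e` vanishes at all of them, then `e ∈ (p, q)`:
`mem_of_maximal`, a maximal ideal containing `(p, q)` is `mz z` (`exists_mz`) with `z` a common zero, so real (`real_of_not_nr`).
`trv_mul`: `q` may be a product with factors not vanishing at `z`: if `r(z) ≠ 0` then `Trv p q z → Trv p (q * r) z` (product rule, `q(z) = 0`).
-/

namespace Pool.Agent.Helper10.GN

open VC FF MvPolynomial Pool.Agent.Helper68.QM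

private theorem div_27 (z : Fin 2 → ℝ) (p : A) : ∃ m n : A,
    p - C (eval z p) = m * (X 0 - C (z 0)) + n * (X 1 - C (z 1)) := by
  induction p using MvPolynomial.induction_on with
  | C a => exact ⟨0, 0, by simp⟩
  | add p q hp hq =>
    obtain ⟨m, n, h⟩ := hp
    obtain ⟨m', n', h'⟩ := hq
    refine ⟨m + m', n + n', ?_⟩
    rw [map_add, map_add]
    linear_combination h + h'
  | mul_X p i hp =>
    obtain ⟨m, n, h⟩ := hp
    have hi : i = 0 ∨ i = 1 := by
      fin_cases i
      · exact Or.inl rfl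
      · exact Or.inr rfl
    rcases hi with rfl | rfl
    · refine ⟨m * X 0 + C (eval z p), n * X 0, ?_⟩
      rw [map_mul, map_mul, eval_X]
      linear_combination X 0 * h
    · refine ⟨m * X 1, n * X 1 + C (eval z p), ?_⟩
      rw [map_mul, map_mul, eval_X]
      linear_combination X 1 * h

private theorem div_zero_27 {z : Fin 2 → ℝ} {p : A} (hp : eval z p = 0) : ∃ m n : A,
    p = m * (X 0 - C (z 0)) + n * (X 1 - C (z 1)) ∧ eval z m = eval z (pderiv 0 p) ∧
      eval z n = eval z (pderiv 1 p) := by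
  obtain ⟨m, n, h⟩ := div_27 z p
  rw [hp, map_zero, sub_zero] at h
  have h01 : pderiv (0 : Fin 2) (X 1 : A) = 0 := pderiv_X_of_ne (by decide)
  have h10 : pderiv (1 : Fin 2) (X 0 : A) = 0 := pderiv_X_of_ne (by decide)
  refine ⟨m, n, h, ?_, ?_⟩
  · have h1 := congrArg (fun a : A => eval z (pderiv 0 a)) h
    simp only [map_add, Derivation.leibniz, smul_eq_mul, map_sub, map_mul, pderiv_C, pderiv_X_self,
      h01, eval_X, eval_C, sub_self, sub_zero, mul_zero, zero_mul, mul_one, add_zero, map_one,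
      map_zero] at h1
    exact h1.symm
  · have h1 := congrArg (fun a : A => eval z (pderiv 1 a)) h
    simp only [map_add, Derivation.leibniz, smul_eq_mul, map_sub, map_mul, pderiv_C, pderiv_X_self,
      h10, eval_X, eval_C, sub_self, sub_zero, mul_zero, zero_mul, mul_one, add_zero, zero_add, map_one,
      map_zero] at h1
    exact h1.symm

theorem trv_local {p q : A} {z : Fin 2 → ℝ} (hp : eval z p = 0) (hq : eval z q = 0)
    (h : Trv p q z) : ∃ Δ : A, eval z Δ ≠ 0 ∧
      ∀ e : A, eval z e = 0 → ∃ x y : A, Δ * e = x * p + y * q := by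
  obtain ⟨m, n, h1, h2, h3⟩ := div_zero_27 hp
  obtain ⟨m', n', h1', h2', h3'⟩ := div_zero_27 hq
  refine ⟨m * n' - n * m', ?_, fun e he => ?_⟩
  · rw [map_sub, map_mul, map_mul, h2, h3, h2', h3']
    exact h
  · obtain ⟨a, b, h4, -, -⟩ := div_zero_27 he
    refine ⟨a * n' - b * m', b * m - a * n, ?_⟩
    linear_combination (m * n' - n * m') * h4 - (a * n' - b * m') * h1 - (b * m - a * n) * h1'

theorem trv_mem {p q : A}
    (hreal : ∀ z : Fin 2 → ℂ, eval z (cx p) = 0 → eval z (cx q) = 0 → ¬ NR z)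
    (ht : ∀ z : Fin 2 → ℝ, eval z p = 0 → eval z q = 0 → Trv p q z) {e : A}
    (he : ∀ z : Fin 2 → ℝ, eval z p = 0 → eval z q = 0 → eval z e = 0) :
    ∃ x y : A, e = x * p + y * q := by
  have key : e ∈ Ideal.span ({p, q} : Set A) := by
    refine mem_of_maximal fun m hm hI => ?_
    obtain ⟨z, rfl⟩ := exists_mz hm
    have hpm : p ∈ mz z := hI (Ideal.subset_span (by simp))
    have hqm : q ∈ mz z := hI (Ideal.subset_span (by simp))
    obtain ⟨z', rfl⟩ := real_of_not_nr (hreal z ((mem_mz z p).1 hpm) ((mem_mz z q).1 hqm))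
    rw [mz_real] at hpm hqm
    obtain ⟨Δ, hΔ, h⟩ := trv_local hpm hqm (ht z' hpm hqm)
    refine ⟨Δ, fun hc => hΔ ((mz_real z' Δ).1 hc), ?_⟩
    obtain ⟨x, y, hxy⟩ := h e (he z' hpm hqm)
    rw [hxy, Ideal.mem_span_pair]
    exact ⟨x, y, rfl⟩
  rw [Ideal.mem_span_pair] at key
  obtain ⟨x, y, h⟩ := key
  exact ⟨x, y, h.symm⟩

theorem trv_mul {p q r : A} {z : Fin 2 → ℝ} (hq : eval z q = 0) (hr : eval z r ≠ 0)
    (h : Trv p q z) : Trv p (q * r) z := by
  unfold Trv at h ⊢
  simp only [Derivation.leibniz, smul_eq_mul, map_add, map_mul, hq, zero_mul, zero_add]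
  intro h0
  apply mul_ne_zero hr h
  linear_combination h0

end Pool.Agent.Helper10.GN
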