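import Pool.Agent.Helper10.GN.Sma
import Pool.Agent.Helper10.GN.Kl
import Pool.Agent.Helper10.GN.Int
import Pool.Agent.Helper10.GN.Deg

set_option autoImplicit false

/-!
# Project GN, block WL: the function `w`

For fixed `N`, `d`, `θ` there is a divisor `Dw` (no poles at finite places) such that for all nonnegative `f` of degree `≤ d` and all
`f₁` of degree `≤ d` with `1/2 ≤ f₁/f ≤ 1` at the real places there is `w ∈ L Dw` with `w σ(w) ≡ f₁` at `Zs`, `w ≡` a polynomial at every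
nonreal singular point, `w ≡ 0` at `Mk` (all up to order `N`), and `w σ(w)/(θ f₁)` regular with values `≤ 1/2` at all real places.

Proof. Choose a real linear form `u = a X₀ + b X₁` with `Im u(z) ≠ 0` at all (finitely many) nonreal singular points `z`
and `v = π (cx u)` not constant, hence transcendental. Let `a_i` be the distinct values `u(z)` with positive imaginary part.
`lemK` (with `a_i`, `d`): `D, K`. `interp` for `N, D, K`: `D', K'`; `interp_bot`: the fixed polynomial `q'`. Let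
`G = π (κ(u))/(l f)`, `ρ = f₁/f`; `|G| ≤ K W^D` at the real finite places.
For a function `a` from `exists_small` put `w = a (κ(v) q(v) + l f₁ q'(v)) / √l = √l f a (G q(v) + ρ q'(v))`. Then
`w σ(w)/(θ f₁) = (l f) (a²/θ) |G q(v) + ρ q'(v)|² / ρ`, at a real finite place `P` over `z` at most
`K W^D * (a²/θ)(P) * 2 * (K W^D |q(u(z))| + |q'(u(z))|)² ≤ K₂ * (a² W^m/θ)(P)` with constants `m`, `K₂` depending only on
`D, K, D', K'`, `q'`, `u` (`|u(z)| ≤ const (1 + z₀² + z₁²)`, `W ≥ 1`). So take `exists_small` with this `m`, `ε = 1/(2 K₂)` (and `N`), `M` large: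
at `P ∈ R` the order of `w σ(w)/(θ f₁)` is `≥ 2 M - 2 max((D + D') e, d K₃ ...) - ord_P f₁ ≥ 1` (poles of `κ(v) q(v)`, `f₁ q'(v)` bounded:
`exists_Dinf`; `ord_P f₁ ≤ d K₃`: `exists_count`; `p ∤ f₁` because `ρ ≠ 0`), so its value is `0`.
At `P ∈ Zs` over `z`, `Im u(z) = Im a_i > 0`: `(X - a_i)^N ∣ q κ - 1` and `(X - a_i)^N ∣ q'` give `Oge P N (w - 1/√l)`
(`v - u(z)` vanishes at `P`; `Oge P N (a - 1)`), a constant; at the conjugate place, over `zbar z`: `(X - conj a_i)^N` divides `q` and `q' - 1`, so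
`Oge (w - √l f₁)`, a polynomial. So `w σ(w) ≡ (1/√l) (√l f₁) = f₁` at both. (`w` at `Zs` places is regular; use `oge_mul`.) `Mk`: `Oge P N a`, the rest is
regular. Poles of `w`: only at the infinite places, bounded.
-/

namespace Pool.Agent.Helper10.GN

open VC FF MvPolynomial Pool.Agent.Helper68.QM

private theorem wl_evbound (Q : Polynomial ℂ) {D : ℕ} {K y : ℝ} (hD : Q.natDegree ≤ D)
    (hK : ∀ j, ‖Q.coeff j‖ ≤ K) {x : ℂ} (hx : ‖x‖ ≤ y) (hy : 1 ≤ y) :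
    ‖Q.eval x‖ ≤ (D + 1) * |K| * y ^ D := by
  rw [Polynomial.eval_eq_sum_range' (Nat.lt_succ_of_le hD)]
  refine (norm_sum_le _ _).trans ?_
  have h1 : ∀ i ∈ Finset.range (D + 1), ‖Q.coeff i * x ^ i‖ ≤ |K| * y ^ D := by
    intro i hi
    rw [norm_mul, norm_pow]
    have h2 : ‖x‖ ^ i ≤ y ^ i := pow_le_pow_left₀ (norm_nonneg x) hx i
    have h3 : y ^ i ≤ y ^ D := pow_le_pow_right₀ hy (Nat.lt_succ_iff.1 (Finset.mem_range.1 hi))
    exact mul_le_mul ((hK i).trans (le_abs_self K)) (h2.trans h3) (by positivity) (abs_nonneg K)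
  refine (Finset.sum_le_card_nsmul _ _ _ h1).trans ?_
  rw [Finset.card_range, nsmul_eq_mul]
  push_cast
  linarith

private theorem wl_td (u : CP) (hu : u.totalDegree ≤ 1) (Q : Polynomial ℂ) {D : ℕ} (hD : Q.natDegree ≤ D) :
    (Polynomial.aeval u Q).totalDegree ≤ D := by
  rw [Polynomial.aeval_eq_sum_range' (Nat.lt_succ_of_le hD)]
  refine totalDegree_finsetSum_le fun i hi => ?_
  refine (totalDegree_smul_le _ _).trans ((totalDegree_pow _ _).trans ?_)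
  have h1 : i ≤ D := Nat.lt_succ_iff.1 (Finset.mem_range.1 hi)
  nlinarith

private theorem wl_eval (u : CP) (Q : Polynomial ℂ) (z : Fin 2 → ℂ) :
    eval z (Polynomial.aeval u Q) = Q.eval (eval z u) := by
  have h := Polynomial.aeval_algHom_apply (MvPolynomial.aeval z : CP →ₐ[ℂ] ℂ) u Q
  rw [MvPolynomial.aeval_eq_eval] at h
  rw [← h, Polynomial.coe_aeval_eq_eval]

private theorem wl_cx (u : A) (κ : Polynomial ℝ) :
    cx (Polynomial.aeval u κ) = Polynomial.aeval (cx u) (κ.map Complex.ofRealHom) := by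
  refine Polynomial.map_aeval_eq_aeval_map ?_ κ u
  exact RingHom.ext fun r => (cx_C r).symm

variable {F : Type} [Field F] [Algebra ℂ F] {s : RStr F} {hF : IsFunctionField ℂ F} {p : A}
  {π : CP →ₐ[ℂ] F} {S R Zs Mk : Finset (Place ℂ F)}

private theorem wl_oge (u : CP) {P : Place ℂ F} {z : Fin 2 → ℂ} (hP : Over hF π P z) (N : ℕ) (Q : Polynomial ℂ)
    (hQ : (Polynomial.X - Polynomial.C (eval z u)) ^ N ∣ Q) : Oge P N (π (Polynomial.aeval u Q)) := by
  obtain ⟨Q', rfl⟩ := hQ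
  rw [map_mul, map_pow, map_sub, Polynomial.aeval_X, Polynomial.aeval_C, map_mul, map_pow]
  have h0 : π (u - algebraMap ℂ CP (eval z u)) ∈ P.ring := mem_of_fin hP.1 _
  have h1 : Oge P 1 (π (u - algebraMap ℂ CP (eval z u))) := by
    rw [← vl_eq_zero hF h0, vl_over hF hP, map_sub]
    have : eval z (algebraMap ℂ CP (eval z u)) = eval z u := eval_C _
    rw [this, sub_self]
  have h2 := oge_mul hF (oge_pow hF h1 N) ((oge_zero_iff hF).2 (mem_of_fin hP.1 (Polynomial.aeval u Q')))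
  exact h2.mono (by simp)

private theorem wl_exists_a (T : Set (Fin 2 → ℂ)) (hT : T.Finite) (u : CP) (hu : ∀ z ∈ T, (eval z u).im ≠ 0) :
    ∃ (m : ℕ) (a : Fin m → ℂ), Function.Injective a ∧ (∀ i, 0 < (a i).im) ∧
      ∀ z ∈ T, ∃ i, eval z u = a i ∨ eval z u = (starRingEnd ℂ) (a i) := by
  classical
  let U : Finset ℂ := (hT.toFinset.image fun z => if 0 < (eval z u).im then eval z u else (starRingEnd ℂ) (eval z u))
  have hU : ∀ c ∈ U, 0 < c.im := by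
    intro c hc
    obtain ⟨z, hz, rfl⟩ := Finset.mem_image.1 hc
    have h1 := hu z (hT.mem_toFinset.1 hz)
    split_ifs with h2
    · exact h2
    · rw [Complex.conj_im]
      rcases lt_or_gt_of_ne h1 with h3 | h3
      · linarith
      · exact absurd h3 h2
  refine ⟨U.card, fun i => (U.equivFin.symm i : ℂ), ?_, fun i => hU _ (U.equivFin.symm i).2, fun z hz => ?_⟩
  · intro i j hij
    exact U.equivFin.symm.injective (Subtype.ext hij)
  · by_cases h2 : 0 < (eval z u).im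
    · have h3 : eval z u ∈ U := Finset.mem_image.2 ⟨z, hT.mem_toFinset.2 hz, if_pos h2⟩
      refine ⟨U.equivFin ⟨_, h3⟩, Or.inl ?_⟩
      simp only [Equiv.symm_apply_apply]
    · have h3 : (starRingEnd ℂ) (eval z u) ∈ U := Finset.mem_image.2 ⟨z, hT.mem_toFinset.2 hz, if_neg h2⟩
      refine ⟨U.equivFin ⟨_, h3⟩, Or.inr ?_⟩
      simp only [Equiv.symm_apply_apply, Complex.conj_conj]

private theorem wl_exists_u (hd : CData p s hF π S R Zs Mk) (T : Set (Fin 2 → ℂ)) (hT : T.Finite)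
    (hN : ∀ z ∈ T, NR z) : ∃ u : A, u.totalDegree ≤ 1 ∧ Transcendental ℂ (π (cx u)) ∧
      (∀ z ∈ T, (eval z (cx u)).im ≠ 0) ∧ ∃ B : ℝ, 1 ≤ B ∧
        ∀ z : Fin 2 → ℝ, |eval z u| ≤ B * (1 + z 0 ^ 2 + z 1 ^ 2) := by
  obtain ⟨P, hPS⟩ := hd.hS.ne
  have hPi := ((hd.memS P).1 hPS).1
  have h1 : (⋃ z ∈ T, {t : ℝ | (z 0).im + t * (z 1).im = 0}).Finite := by
    refine hT.biUnion fun z hz => Set.Subsingleton.finite ?_
    intro t ht t' ht'
    simp only [Set.mem_ofPred_eq] at ht ht'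
    by_contra hne
    have h2 : (t - t') * (z 1).im = 0 := by linear_combination ht - ht'
    have h3 : (z 1).im = 0 := (mul_eq_zero.1 h2).resolve_left (sub_ne_zero.2 hne)
    rw [h3, mul_zero, add_zero] at ht
    obtain ⟨i, hi⟩ := hN z hz
    fin_cases i
    · exact hi ht
    · exact hi h3
  have h2 : {t : ℝ | π (X 0 + C (t : ℂ) * X 1) ∈ P.ring}.Subsingleton := by
    intro t ht t' ht'
    simp only [Set.mem_ofPred_eq] at ht ht'
    by_contra hne
    apply hPi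
    have hne' : (t : ℂ) - t' ≠ 0 := by
      rw [sub_ne_zero]
      exact_mod_cast hne
    have h3 : π (X 1) ∈ P.ring := by
      have h4 : π (X 1) = algebraMap ℂ F ((t : ℂ) - t')⁻¹ *
          (π (X 0 + C (t : ℂ) * X 1) - π (X 0 + C (t' : ℂ) * X 1)) := by
        rw [← IsCrv.pi_C (π := π), ← map_sub, ← map_mul]
        congr 1
        have h5 : (X 0 + C (t : ℂ) * X 1 - (X 0 + C (t' : ℂ) * X 1) : CP) = C ((t : ℂ) - t') * X 1 := by
          rw [C_sub]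
          ring
        rw [h5, ← mul_assoc, ← C_mul, inv_mul_cancel₀ hne', C_1, one_mul]
      rw [h4]
      exact mul_mem (P.algebraMap_mem _) (sub_mem ht ht')
    have h4 : π (X 0) ∈ P.ring := by
      have h5 : π (X 0) = π (X 0 + C (t : ℂ) * X 1) - algebraMap ℂ F (t : ℂ) * π (X 1) := by
        rw [map_add, map_mul, IsCrv.pi_C]
        ring
      rw [h5]
      exact sub_mem ht (mul_mem (P.algebraMap_mem _) h3)
    intro i
    fin_cases i
    · exact h4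
    · exact h3
  obtain ⟨t, ht⟩ := (h1.union h2.finite).exists_notMem
  rw [Set.mem_union, not_or] at ht
  obtain ⟨ht1, ht2⟩ := ht
  have hcx : cx (X 0 + C t * X 1) = X 0 + C (t : ℂ) * X 1 := by
    rw [map_add, map_mul, cx_X, cx_X, cx_C]
  refine ⟨X 0 + C t * X 1, ?_, ?_, ?_, 1 + |t|, ?_, ?_⟩
  · refine (totalDegree_add _ _).trans (max_le ?_ ?_)
    · rw [totalDegree_X]
    · refine (totalDegree_mul _ _).trans ?_
      rw [totalDegree_C, totalDegree_X]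
  · rw [hcx]
    by_contra hcon
    obtain ⟨b, hb⟩ := exists_const_of_not_transcendental hcon
    apply ht2
    change π (X 0 + C (t : ℂ) * X 1) ∈ P.ring
    rw [← hb]
    exact P.algebraMap_mem b
  · intro z hz h3
    apply ht1
    refine Set.mem_biUnion hz ?_
    change (z 0).im + t * (z 1).im = 0
    rw [hcx, map_add, map_mul, eval_X, eval_X, eval_C, Complex.add_im, Complex.im_ofReal_mul] at h3
    exact h3
  · linarith [abs_nonneg t]
  · intro z
    rw [map_add, map_mul, eval_X, eval_X, eval_C]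
    have h4 : |z 0| ≤ 1 + z 0 ^ 2 + z 1 ^ 2 := by
      have := sq_abs (z 0)
      nlinarith [sq_nonneg (|z 0| - 1), sq_nonneg (z 1), abs_nonneg (z 0)]
    have h5 : |z 1| ≤ 1 + z 0 ^ 2 + z 1 ^ 2 := by
      have := sq_abs (z 1)
      nlinarith [sq_nonneg (|z 1| - 1), sq_nonneg (z 0), abs_nonneg (z 1)]
    calc |z 0 + t * z 1| ≤ |z 0| + |t| * |z 1| := by
          rw [← abs_mul]
          exact abs_add_le _ _
      _ ≤ (1 + z 0 ^ 2 + z 1 ^ 2) + |t| * (1 + z 0 ^ 2 + z 1 ^ 2) :=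
          add_le_add h4 (mul_le_mul_of_nonneg_left h5 (abs_nonneg t))
      _ = (1 + |t|) * (1 + z 0 ^ 2 + z 1 ^ 2) := by ring

private theorem wl_rv_inv {P : Place ℂ F} (hP : s.cj P = P) {f : F} (hf : f ∈ P.ring) (hσ : s.σ f = f)
    (h0 : rv hF P f ≠ 0) : f⁻¹ ∈ P.ring ∧ rv hF P f⁻¹ = (rv hF P f)⁻¹ := by
  have h1 := vl_real s hF hP hσ
  have h2 : vl hF P f ≠ 0 := by
    rw [h1]
    exact_mod_cast h0
  obtain ⟨h3, h4⟩ := vl_inv hF hf h2
  refine ⟨h3, ?_⟩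
  rw [h1, ← Complex.ofReal_inv] at h4
  unfold rv
  rw [h4, Complex.ofReal_re]
  rfl

private theorem wl_norm {P : Place ℂ F} (hP : s.cj P = P) {f : F} (hσ : s.σ f = f) :
    ‖vl hF P f‖ = |rv hF P f| := by
  rw [vl_real s hF hP hσ, Complex.norm_real, Real.norm_eq_abs]

private theorem wl_alg {F : Type} [Field F] {c b θ W f f₁ l y y' : F} (m : ℕ) (hc : c * c * l = 1) (hW : W ≠ 0) (hθ : θ ≠ 0)
    (hf : f ≠ 0) (hf₁ : f₁ ≠ 0) :
    c * b * (l * f * y) * (c * b * (l * f * y')) / (θ * f₁) =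
      b ^ 2 * W ^ m / θ * (W⁻¹) ^ m * (l * f) * (y * y') * (f₁ / f)⁻¹ := by
  rw [inv_pow, inv_div]
  field_simp
  linear_combination (l * b ^ 2 * y * y') * hc

private theorem wl_real {g q r q' W B K A A' : ℝ} {D D' D'' E : ℕ} (hW : 1 ≤ W) (hB : 0 ≤ B) (hK : 0 ≤ K) (hA : 0 ≤ A)
    (hA' : 0 ≤ A') (hg : |g| ≤ K * W ^ D) (hq0 : 0 ≤ q) (hq : q ≤ A * (B * W) ^ D') (hr : |r| ≤ 1) (hq0' : 0 ≤ q')
    (hq' : q' ≤ A' * (B * W) ^ D'') (h1 : D + D' ≤ E) (h2 : D'' ≤ E) :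
    |g| * q + |r| * q' ≤ (K * (A * B ^ D') + A' * B ^ D'') * W ^ E := by
  have hW0 : 0 < W := by linarith
  rw [mul_pow] at hq hq'
  have h4 : |g| * q ≤ (K * W ^ D) * (A * (B ^ D' * W ^ D')) := mul_le_mul hg hq hq0 (by positivity)
  have h5 : |r| * q' ≤ 1 * (A' * (B ^ D'' * W ^ D'')) := mul_le_mul hr hq' hq0' (by norm_num)
  have h6 : (K * W ^ D) * (A * (B ^ D' * W ^ D')) ≤ K * (A * B ^ D') * W ^ E := by
    have h7 : (K * W ^ D) * (A * (B ^ D' * W ^ D')) = K * (A * B ^ D') * W ^ (D + D') := by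
      rw [pow_add]
      ring
    rw [h7]
    exact mul_le_mul_of_nonneg_left (pow_le_pow_right₀ hW h1) (by positivity)
  have h8 : 1 * (A' * (B ^ D'' * W ^ D'')) ≤ A' * B ^ D'' * W ^ E := by
    have h7 : 1 * (A' * (B ^ D'' * W ^ D'')) = A' * B ^ D'' * W ^ D'' := by ring
    rw [h7]
    exact mul_le_mul_of_nonneg_left (pow_le_pow_right₀ hW h2) (by positivity)
  rw [add_mul]
  linarith

private theorem wl_ineq {W β ε lf K y K₁ ρ : ℝ} {D E : ℕ} (hW : 1 ≤ W) (hε : 0 ≤ ε) (hβ : β ≤ ε) (h0 : 0 ≤ lf)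
    (hlf : lf ≤ K * W ^ D) (hy0 : 0 ≤ y) (hy : y ≤ K₁ * W ^ E) (hρ : 1 / 2 ≤ ρ) :
    β * (W ^ (D + 2 * E))⁻¹ * lf * y ^ 2 * ρ⁻¹ ≤ ε * (2 * K * K₁ ^ 2) := by
  have hW0 : 0 < W := by linarith
  have hρ0 : 0 < ρ := by linarith
  have h1 : ρ⁻¹ ≤ 2 := by
    rw [inv_le_comm₀ hρ0 (by norm_num)]
    linarith
  have h2 : y ^ 2 ≤ (K₁ * W ^ E) ^ 2 := pow_le_pow_left₀ hy0 hy 2
  have h3 : lf * y ^ 2 ≤ (K * W ^ D) * (K₁ * W ^ E) ^ 2 := mul_le_mul hlf h2 (by positivity) (h0.trans hlf)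
  have h4 : lf * y ^ 2 * ρ⁻¹ ≤ (K * W ^ D) * (K₁ * W ^ E) ^ 2 * 2 :=
    mul_le_mul h3 h1 (by positivity) ((mul_nonneg h0 (sq_nonneg y)).trans h3)
  have h5 : (W ^ (D + 2 * E))⁻¹ * (lf * y ^ 2 * ρ⁻¹) ≤ 2 * K * K₁ ^ 2 := by
    rw [inv_mul_le_iff₀ (by positivity)]
    refine h4.trans (le_of_eq ?_)
    rw [pow_add, pow_mul']
    ring
  calc β * (W ^ (D + 2 * E))⁻¹ * lf * y ^ 2 * ρ⁻¹ = β * ((W ^ (D + 2 * E))⁻¹ * (lf * y ^ 2 * ρ⁻¹)) := by ring
    _ ≤ ε * ((W ^ (D + 2 * E))⁻¹ * (lf * y ^ 2 * ρ⁻¹)) :=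
        mul_le_mul_of_nonneg_right hβ (by positivity)
    _ ≤ ε * (2 * K * K₁ ^ 2) := mul_le_mul_of_nonneg_left h5 hε

private theorem wl_fin (hcrv : IsCrv p s π) {P : Place ℂ F} (hP : s.cj P = P) {z : Fin 2 → ℝ} (hz : Over hF π P (cz z))
    {θ b : F} (hθ0 : θ ≠ 0) (hθ : s.σ θ = θ) (hbσ : s.σ b = b) {f f₁ u : A} (hf0 : π (cx f) ≠ 0)
    (hf₁0 : π (cx f₁) ≠ 0) (hsos : Sos s (π (cx f))) (hρ1 : π (cx f₁) / π (cx f) ∈ P.ring)
    (hρ2 : 1 / 2 ≤ rv hF P (π (cx f₁) / π (cx f))) (hρ3 : rv hF P (π (cx f₁) / π (cx f)) ≤ 1)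
    {κ : Polynomial ℝ} {q q' : Polynomial ℂ} {l : ℝ} {c : ℂ} (hl : 0 < l)
    (hccl : algebraMap ℂ F c * algebraMap ℂ F c * algebraMap ℂ F (l : ℂ) = 1)
    (hσc : s.σ (algebraMap ℂ F c) = algebraMap ℂ F c) {D D' E : ℕ} {K K' K'' B ε : ℝ} (hB1 : 1 ≤ B)
    (hB : |eval z u| ≤ B * (1 + z 0 ^ 2 + z 1 ^ 2)) (hK : 0 < K)
    (hκ1 : |l * eval z f| ≤ K * (1 + z 0 ^ 2 + z 1 ^ 2) ^ D)
    (hκ2 : π (cx (Polynomial.aeval u κ)) / π (cx (C l * f)) ∈ P.ring)
    (hκ3 : |rv hF P (π (cx (Polynomial.aeval u κ)) / π (cx (C l * f)))| ≤ K * (1 + z 0 ^ 2 + z 1 ^ 2) ^ D)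
    (hqd : q.natDegree ≤ D') (hqK : ∀ j, ‖q.coeff j‖ ≤ K') (hK'' : ∀ j, ‖q'.coeff j‖ ≤ K'')
    (hE1 : D + D' ≤ E) (hE2 : q'.natDegree ≤ E)
    (hbb1 : b ^ 2 * π (cx (1 + X 0 ^ 2 + X 1 ^ 2)) ^ (D + 2 * E) / θ ∈ P.ring)
    (hbb2 : rv hF P (b ^ 2 * π (cx (1 + X 0 ^ 2 + X 1 ^ 2)) ^ (D + 2 * E) / θ) ≤ ε) (hε0 : 0 ≤ ε) :
    (algebraMap ℂ F c * b * π (Polynomial.aeval (cx u) (q * κ.map Complex.ofRealHom) +
        C (l : ℂ) * cx f₁ * Polynomial.aeval (cx u) q')) *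
      s.σ (algebraMap ℂ F c * b * π (Polynomial.aeval (cx u) (q * κ.map Complex.ofRealHom) +
        C (l : ℂ) * cx f₁ * Polynomial.aeval (cx u) q')) / (θ * π (cx f₁)) ∈ P.ring ∧
    rv hF P ((algebraMap ℂ F c * b * π (Polynomial.aeval (cx u) (q * κ.map Complex.ofRealHom) +
        C (l : ℂ) * cx f₁ * Polynomial.aeval (cx u) q')) *
      s.σ (algebraMap ℂ F c * b * π (Polynomial.aeval (cx u) (q * κ.map Complex.ofRealHom) +
        C (l : ℂ) * cx f₁ * Polynomial.aeval (cx u) q')) / (θ * π (cx f₁))) ≤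
      ε * (2 * K * (K * ((D' + 1) * |K'| * B ^ D') + (q'.natDegree + 1) * |K''| * B ^ q'.natDegree) ^ 2) := by
  set H : CP := Polynomial.aeval (cx u) (q * κ.map Complex.ofRealHom) +
    C (l : ℂ) * cx f₁ * Polynomial.aeval (cx u) q' with hH
  have hσf₁ : s.σ (π (cx f₁)) = π (cx f₁) := hcrv.real f₁
  have hσf : s.σ (π (cx f)) = π (cx f) := hcrv.real f
  have hB0 : 0 < B := by linarith
  set Wz : ℝ := 1 + z 0 ^ 2 + z 1 ^ 2 with hWz
  have hWz1 : 1 ≤ Wz := by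
    rw [hWz]
    nlinarith [sq_nonneg (z 0), sq_nonneg (z 1)]
  have hWz0 : 0 < Wz := by linarith
  set W : F := π (cx (1 + X 0 ^ 2 + X 1 ^ 2)) with hW
  obtain ⟨hWr, hWv⟩ := rv_over hF hz (1 + X 0 ^ 2 + X 1 ^ 2)
  have hWv' : rv hF P W = Wz := by
    rw [hW, hWv, hWz]
    simp
  have hσW : s.σ W = W := hcrv.real _
  obtain ⟨hWi, hWiv⟩ := wl_rv_inv (hF := hF) hP hWr hσW (by rw [hWv']; exact hWz0.ne')
  have hW0 : W ≠ 0 := by
    intro h0
    rw [h0] at hWv'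
    unfold rv at hWv'
    rw [vl_zero, Complex.zero_re] at hWv'
    exact hWz0.ne hWv'
  set G : F := π (cx (Polynomial.aeval u κ)) / π (cx (C l * f)) with hG
  have hσG : s.σ G = G := by rw [hG, map_div₀, hcrv.real, hcrv.real]
  set ρ : F := π (cx f₁) / π (cx f) with hρd
  have hσρ : s.σ ρ = ρ := by rw [hρd, map_div₀, hσf₁, hσf]
  obtain ⟨hρi, hρiv⟩ := wl_rv_inv (hF := hF) hP hρ1 hσρ (by linarith)
  have hσρi : s.σ ρ⁻¹ = ρ⁻¹ := by rw [map_inv₀, hσρ]
  set y : F := G * π (Polynomial.aeval (cx u) q) + ρ * π (Polynomial.aeval (cx u) q') with hy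
  have hqr : π (Polynomial.aeval (cx u) q) ∈ P.ring := mem_of_fin hz.1 _
  have hqr' : π (Polynomial.aeval (cx u) q') ∈ P.ring := mem_of_fin hz.1 _
  have hyr : y ∈ P.ring := add_mem (mul_mem hκ2 hqr) (mul_mem hρ1 hqr')
  have hlF : algebraMap ℂ F (l : ℂ) ≠ 0 := by
    rw [Ne, map_eq_zero]
    exact_mod_cast hl.ne'
  have hlf : π (cx (C l * f)) = algebraMap ℂ F (l : ℂ) * π (cx f) := by
    rw [map_mul, cx_C, map_mul, IsCrv.pi_C]
  have hlf0 : π (cx (C l * f)) ≠ 0 := by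
    rw [hlf]
    exact mul_ne_zero hlF hf0
  have hHy : π H = π (cx (C l * f)) * y := by
    have h1 : π (cx (C l * f)) * G = π (Polynomial.aeval (cx u) (κ.map Complex.ofRealHom)) := by
      rw [hG, mul_div_cancel₀ _ hlf0, wl_cx]
    have h2 : π (cx (C l * f)) * ρ = algebraMap ℂ F (l : ℂ) * π (cx f₁) := by
      rw [hlf, hρd]
      field_simp
    have h3 : π H = π (Polynomial.aeval (cx u) q) * π (Polynomial.aeval (cx u) (κ.map Complex.ofRealHom)) +
        algebraMap ℂ F (l : ℂ) * π (cx f₁) * π (Polynomial.aeval (cx u) q') := by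
      rw [hH, map_add, map_mul π, map_mul π, IsCrv.pi_C, map_mul, map_mul]
    rw [h3, hy, ← h1, ← h2]
    ring
  set bb : F := b ^ 2 * W ^ (D + 2 * E) / θ with hbb
  have hσbb : s.σ bb = bb := by rw [hbb, map_div₀, map_mul, map_pow, map_pow, hbσ, hσW, hθ]
  obtain ⟨hlr, hlv⟩ := rv_over hF hz (C l * f)
  have hσlf : s.σ (π (cx (C l * f))) = π (cx (C l * f)) := hcrv.real _
  have hexp : (algebraMap ℂ F c * b * π H) * s.σ (algebraMap ℂ F c * b * π H) / (θ * π (cx f₁)) =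
      bb * (W⁻¹) ^ (D + 2 * E) * π (cx (C l * f)) * (y * s.σ y) * ρ⁻¹ := by
    have h1 : s.σ (π H) = π (cx (C l * f)) * s.σ y := by rw [hHy, map_mul, hσlf]
    rw [map_mul, map_mul, hσc, hbσ, h1, hHy, hlf]
    exact wl_alg (D + 2 * E) hccl hW0 hθ0 hf0 hf₁0
  have hyσ : s.σ (y * s.σ y) = y * s.σ y := by rw [map_mul, s.inv, mul_comm]
  have hσy : s.σ y ∈ P.ring := sigma_mem s hP hyr
  have hWp : (W⁻¹) ^ (D + 2 * E) ∈ P.ring := pow_mem hWi _
  have hσWi : s.σ W⁻¹ = W⁻¹ := by rw [map_inv₀, hσW]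
  have hσWp : s.σ ((W⁻¹) ^ (D + 2 * E)) = (W⁻¹) ^ (D + 2 * E) := by rw [map_pow, hσWi]
  have m1 : bb * (W⁻¹) ^ (D + 2 * E) ∈ P.ring := mul_mem hbb1 hWp
  have s1 : s.σ (bb * (W⁻¹) ^ (D + 2 * E)) = bb * (W⁻¹) ^ (D + 2 * E) := by rw [map_mul, hσbb, hσWp]
  have m2 : bb * (W⁻¹) ^ (D + 2 * E) * π (cx (C l * f)) ∈ P.ring := mul_mem m1 hlr
  have s2 : s.σ (bb * (W⁻¹) ^ (D + 2 * E) * π (cx (C l * f))) =
      bb * (W⁻¹) ^ (D + 2 * E) * π (cx (C l * f)) := by rw [map_mul, s1, hσlf]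
  have m3 : bb * (W⁻¹) ^ (D + 2 * E) * π (cx (C l * f)) * (y * s.σ y) ∈ P.ring :=
    mul_mem m2 (mul_mem hyr hσy)
  have s3 : s.σ (bb * (W⁻¹) ^ (D + 2 * E) * π (cx (C l * f)) * (y * s.σ y)) =
      bb * (W⁻¹) ^ (D + 2 * E) * π (cx (C l * f)) * (y * s.σ y) := by rw [map_mul, s2, hyσ]
  rw [hexp]
  refine ⟨mul_mem m3 hρi, ?_⟩
  rw [rv_mul s hF hP m3 hρi s3 hσρi, rv_mul s hF hP m2 (mul_mem hyr hσy) s2 hyσ,
    rv_mul s hF hP m1 hlr s1 hσlf, rv_mul s hF hP hbb1 hWp hσbb hσWp, rv_pow s hF hP hWi hσWi,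
    rv_mul_cj s hF hP hyr, hWiv, hWv', hρiv, hlv, inv_pow]
  have hfz : 0 ≤ eval z f := by
    have h1 := hsos.rv_nonneg (hF := hF) hP (rv_over hF hz f).1
    rwa [(rv_over hF hz f).2] at h1
  have hle : eval z (C l * f) = l * eval z f := by rw [map_mul, eval_C]
  have hux : ‖eval (cz z) (cx u)‖ ≤ B * Wz := by
    rw [eval_cx, Complex.norm_real, Real.norm_eq_abs]
    exact hB
  have hBW : 1 ≤ B * Wz := by nlinarith
  have hny : ‖vl hF P y‖ ≤ (K * ((D' + 1) * |K'| * B ^ D') +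
      (q'.natDegree + 1) * |K''| * B ^ q'.natDegree) * Wz ^ E := by
    rw [hy, vl_add hF (mul_mem hκ2 hqr) (mul_mem hρ1 hqr'), vl_mul hF hκ2 hqr, vl_mul hF hρ1 hqr',
      vl_over hF hz, vl_over hF hz, wl_eval, wl_eval]
    refine (norm_add_le _ _).trans ?_
    rw [norm_mul, norm_mul, wl_norm hP hσG, wl_norm hP hσρ]
    exact wl_real hWz1 hB0.le hK.le (by positivity) (by positivity) hκ3 (norm_nonneg _)
      (wl_evbound q hqd hqK hux hBW) (abs_le.2 ⟨by linarith, hρ3⟩) (norm_nonneg _)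
      (wl_evbound q' le_rfl hK'' hux hBW) (by omega) (by omega)
  exact wl_ineq (D := D) (E := E) hWz1 hε0 hbb2 (lf := eval z (C l * f))
    (by rw [hle]; positivity) (by rw [hle]; exact (le_abs_self _).trans hκ1) (norm_nonneg (vl hF P y)) hny hρ2

theorem exists_w (hd : CData p s hF π S R Zs Mk) {θ : F} (hθ0 : θ ≠ 0) (hθ : s.σ θ = θ)
    (hpos : ∀ P, s.cj P = P → PosAt s hF P θ) (hreg : ∀ P, P ∉ S → θ ∈ P.ring)
    (hrv : ∀ P, s.cj P = P → P ∉ Mk → 0 < rv hF P θ) (N d : ℕ) :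
    ∃ Dw : Place ℂ F →₀ ℤ, (∀ P, FinP π P → Dw P = 0) ∧
      ∀ f f₁ : A, f.totalDegree ≤ d → f₁.totalDegree ≤ d → ¬ p ∣ f → Sos s (π (cx f)) →
      (∀ P, s.cj P = P → π (cx f₁) / π (cx f) ∈ P.ring ∧
        1 / 2 ≤ rv hF P (π (cx f₁) / π (cx f)) ∧ rv hF P (π (cx f₁) / π (cx f)) ≤ 1) →
      ∃ w : F, w ∈ L Dw ∧
        (∀ z : Fin 2 → ℂ, NR z → SgC p z → ∃ h : CP, ∀ P, Over hF π P z → Oge P N (w - π h)) ∧
        (∀ P ∈ Zs, Oge P N (w * s.σ w - π (cx f₁))) ∧ (∀ P ∈ Mk, Oge P N w) ∧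
        ∀ P, s.cj P = P → w * s.σ w / (θ * π (cx f₁)) ∈ P.ring ∧
          rv hF P (w * s.σ w / (θ * π (cx f₁))) ≤ 1 / 2 := by
  classical
  have hT : {z : Fin 2 → ℂ | NR z ∧ SgC p z}.Finite := by
    obtain ⟨i, hi⟩ := hd.crv.pderiv_ne_zero hd.irr
    refine (finite_common hF hd.crv hi).subset ?_
    rintro z ⟨_, hz⟩
    exact ⟨hz.1, hz.2 i⟩
  obtain ⟨u, hu1, hutr, huT, B, hB1, hB⟩ := wl_exists_u hd _ hT fun z hz => hz.1
  obtain ⟨n, a, ha, him, haT⟩ := wl_exists_a _ hT (cx u) huT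
  obtain ⟨D, K, hK, hlem⟩ := lemK hF hd.crv hd.irr u hutr a (fun i => (him i).ne') d
  obtain ⟨D', K', hint⟩ := interp a ha him N D K hK
  obtain ⟨q', hq'⟩ := interp_bot a ha him N
  obtain ⟨Di, hDi0, hDi1, hDi2⟩ := exists_Dinf hF hd.crv
  obtain ⟨K₃, hK₃⟩ := exists_count hF hd.crv
  obtain ⟨K'', hK''⟩ : ∃ K'' : ℝ, ∀ j, ‖q'.coeff j‖ ≤ K'' := by
    refine ⟨∑ k ∈ Finset.range (q'.natDegree + 1), ‖q'.coeff k‖, fun j => ?_⟩
    by_cases hj : j ∈ Finset.range (q'.natDegree + 1)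
    · exact Finset.single_le_sum (f := fun k => ‖q'.coeff k‖) (fun k _ => norm_nonneg _) hj
    · rw [Polynomial.coeff_eq_zero_of_natDegree_lt (by rw [Finset.mem_range] at hj; omega), norm_zero]
      exact Finset.sum_nonneg fun k _ => norm_nonneg _
  set D'' : ℕ := q'.natDegree with hD''
  set dH : ℕ := D + D' + (d + D'') with hdH
  set M : ℕ := ∑ P ∈ R, (dH * Di P).toNat + d * K₃ + 1 with hM
  set E : ℕ := D + D' + D'' with hE
  set K₁ : ℝ := K * ((D' + 1) * |K'| * B ^ D') + (D'' + 1) * |K''| * B ^ D'' with hK₁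
  set ε : ℝ := 1 / (2 * (2 * K * K₁ ^ 2 + 1)) with hε
  have hB0 : 0 < B := by linarith
  have hK₁0 : 0 ≤ K₁ := by positivity
  have hε0 : 0 < ε := by positivity
  obtain ⟨b, hbσ, hbreg, hbZ, hbM, hbR, hbε⟩ := exists_small hd hθ0 hθ hpos hreg hrv N M (D + 2 * E) ε hε0
  obtain ⟨mb, hmb⟩ := exists_mem_L_dS hF hbreg
  refine ⟨dS S mb + (dH : ℤ) • Di, fun P hP => ?_, fun f f₁ hfd hf₁d hpf hsos hρ => ?_⟩
  · rw [Finsupp.add_apply, Finsupp.smul_apply, hDi1 P hP, smul_zero, add_zero,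
      dS_notMem _ fun h => ((hd.memS P).1 h).1 hP]
  obtain ⟨l, κ, hl, hκd, hκK, hκa, hκP⟩ := hlem f hfd hpf
  obtain ⟨q, hqd, hqK, hqa⟩ := hint κ hκd hκK hκa
  have hf0 : π (cx f) ≠ 0 := fun h => hpf ((hd.crv.eq_zero_iff f).1 h)
  -- the polynomial
  set H : CP := Polynomial.aeval (cx u) (q * κ.map Complex.ofRealHom) +
    C (l : ℂ) * cx f₁ * Polynomial.aeval (cx u) q' with hH
  have hκn : (κ.map Complex.ofRealHom).natDegree ≤ D := Polynomial.natDegree_map_le.trans hκd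
  have hcu1 : (cx u).totalDegree ≤ 1 := by rw [totalDegree_cx]; exact hu1
  have hHd : H.totalDegree ≤ dH := by
    refine (totalDegree_add _ _).trans (max_le ?_ ?_)
    · have h1 : (q * κ.map Complex.ofRealHom).natDegree ≤ D' + D :=
        Polynomial.natDegree_mul_le.trans (add_le_add hqd hκn)
      exact (wl_td _ hcu1 _ h1).trans (by omega)
    · refine (totalDegree_mul _ _).trans ?_
      have h1 := wl_td _ hcu1 q' le_rfl
      have h2 : (C (l : ℂ) * cx f₁).totalDegree ≤ d := by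
        refine (totalDegree_mul _ _).trans ?_
        rw [totalDegree_C, totalDegree_cx, zero_add]
        exact hf₁d
      omega
  have hπH : π H ∈ L ((dH : ℤ) • Di) := hDi2 dH H hHd
  set c : ℂ := ((1 / √l : ℝ) : ℂ) with hc
  have hl0 : 0 < √l := Real.sqrt_pos.2 hl
  have hcl : c * c * (l : ℂ) = 1 := by
    rw [hc, ← Complex.ofReal_mul, ← Complex.ofReal_mul]
    have h1 : 1 / √l * (1 / √l) * l = 1 := by
      rw [div_mul_div_comm, Real.mul_self_sqrt hl.le]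
      field_simp
    rw [h1, Complex.ofReal_one]
  have hσc : s.σ (algebraMap ℂ F c) = algebraMap ℂ F c := by
    rw [s.alg, hc, Complex.conj_ofReal]
  set w : F := algebraMap ℂ F c * b * π H with hw
  have hσw : s.σ w = algebraMap ℂ F c * b * s.σ (π H) := by
    rw [hw, map_mul, map_mul, hσc, hbσ]
  have hσf₁ : s.σ (π (cx f₁)) = π (cx f₁) := hd.crv.real f₁
  have hσf : s.σ (π (cx f)) = π (cx f) := hd.crv.real f
  have hccl : algebraMap ℂ F c * algebraMap ℂ F c * algebraMap ℂ F (l : ℂ) = 1 := by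
    rw [← map_mul, ← map_mul, hcl, map_one]
  refine ⟨w, ?_, ?_, ?_, ?_, ?_⟩
  · have h1 : w = algebraMap ℂ F c * (b * π H) := by rw [hw]; ring
    rw [h1, ← Algebra.smul_def]
    exact (L _).smul_mem c (L_mul hF hmb hπH)
  · intro z hz hsg
    refine ⟨C c * H, fun P hP => ?_⟩
    have hPZ : P ∈ Zs := (hd.memZs P).2 ⟨z, hz, hsg, hP⟩
    have h1 : w - π (C c * H) = (b - 1) * (algebraMap ℂ F c * π H) := by
      rw [map_mul, IsCrv.pi_C, hw]
      ring
    rw [h1]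
    have h2 := oge_mul hF (hbZ P hPZ) ((oge_zero_iff hF).2 (mul_mem (P.algebraMap_mem c) (mem_of_fin hP.1 H)))
    exact h2.mono (by simp)
  · intro P hPZ
    obtain ⟨z, hz, hsg, hP⟩ := (hd.memZs P).1 hPZ
    have hPS : P ∉ S := (hd.zs_cj hPZ).2.2.2
    have hP' : Over hF π (s.cj P) (zbar z) := over_cj hF hd.crv hP
    obtain ⟨i, hi⟩ := haT z ⟨hz, hsg⟩
    set t : F := π (C (l : ℂ) * cx f₁) with ht
    have htl : t = algebraMap ℂ F (l : ℂ) * π (cx f₁) := by rw [ht, map_mul, IsCrv.pi_C]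
    have hσt : s.σ t = t := by rw [htl, map_mul, s.alg, Complex.conj_ofReal, hσf₁]
    have key1 : ∀ (Q : Place ℂ F) (y : Fin 2 → ℂ), Over hF π Q y → eval y (cx u) = a i →
        Oge Q N (π H - 1) := by
      intro Q y hQ hy
      have h1 := wl_oge (cx u) hQ N (q * κ.map Complex.ofRealHom - 1) (by rw [hy]; exact (hqa i).1)
      have h2 := wl_oge (cx u) hQ N q' (by rw [hy]; exact (hq' i).1)
      have h3 : π H - 1 = π (Polynomial.aeval (cx u) (q * κ.map Complex.ofRealHom - 1)) +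
          t * π (Polynomial.aeval (cx u) q') := by
        rw [hH, ht]
        simp only [map_sub, map_add, map_mul, map_one]
        ring
      rw [h3]
      exact oge_add hF h1 ((oge_mul hF ((oge_zero_iff hF).2 (mem_of_fin hQ.1 _)) h2).mono (by simp))
    have key2 : ∀ (Q : Place ℂ F) (y : Fin 2 → ℂ), Over hF π Q y →
        eval y (cx u) = (starRingEnd ℂ) (a i) → Oge Q N (π H - t) := by
      intro Q y hQ hy
      have h1 := wl_oge (cx u) hQ N (q * κ.map Complex.ofRealHom)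
        (by rw [hy]; exact (hqa i).2.mul_right _)
      have h2 := wl_oge (cx u) hQ N (q' - 1) (by rw [hy]; exact (hq' i).2)
      have h3 : π H - t = π (Polynomial.aeval (cx u) (q * κ.map Complex.ofRealHom)) +
          t * π (Polynomial.aeval (cx u) (q' - 1)) := by
        rw [hH, ht]
        simp only [map_sub, map_add, map_mul, map_one]
        ring
      rw [h3]
      exact oge_add hF h1 ((oge_mul hF ((oge_zero_iff hF).2 (mem_of_fin hQ.1 _)) h2).mono (by simp))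
    have gen : ∀ x y : F, Oge P N (x - 1) → Oge P N (y - t) → y ∈ P.ring → Oge P N (x * y - t) := by
      intro x y h1 h2 h3
      have h4 : x * y - t = (x - 1) * y + (y - t) := by ring
      rw [h4]
      exact oge_add hF ((oge_mul hF h1 ((oge_zero_iff hF).2 h3)).mono (by simp)) h2
    have hHr : π H ∈ P.ring := mem_of_fin hP.1 H
    have hHr' : s.σ (π H) ∈ P.ring := by
      rw [hd.crv.conj]
      exact mem_of_fin hP.1 _
    have hmain : Oge P N (π H * s.σ (π H) - t) := by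
      rcases hi with hi | hi
      · have h1 := key1 P z hP hi
        have h2 := key2 (s.cj P) (zbar z) hP' (by rw [eval_zbar, hi])
        rw [oge_cj (s := s) hF, map_sub, hσt] at h2
        exact gen _ _ h1 h2 hHr'
      · have h1 := key1 (s.cj P) (zbar z) hP' (by rw [eval_zbar, hi, Complex.conj_conj])
        have h2 := key2 P z hP hi
        rw [oge_cj (s := s) hF, map_sub, map_one] at h1
        rw [mul_comm]
        exact gen _ _ h1 h2 hHr
    have h1 : w * s.σ w - π (cx f₁) = (b - 1) * (algebraMap ℂ F c * algebraMap ℂ F c * (b + 1) *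
        (π H * s.σ (π H))) + algebraMap ℂ F c * algebraMap ℂ F c * (π H * s.σ (π H) - t) := by
      rw [hσw, hw, htl]
      linear_combination (π (cx f₁)) * hccl
    rw [h1]
    have hcP : algebraMap ℂ F c ∈ P.ring := P.algebraMap_mem c
    refine oge_add hF ?_ ?_
    · have h2 : algebraMap ℂ F c * algebraMap ℂ F c * (b + 1) * (π H * s.σ (π H)) ∈ P.ring :=
        mul_mem (mul_mem (mul_mem hcP hcP) (add_mem (hbreg P hPS) (one_mem _))) (mul_mem hHr hHr')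
      exact (oge_mul hF (hbZ P hPZ) ((oge_zero_iff hF).2 h2)).mono (by simp)
    · exact (oge_mul hF ((oge_zero_iff hF).2 (mul_mem hcP hcP)) hmain).mono (by simp)
  · intro P hPM
    have h1 : w = b * (algebraMap ℂ F c * π H) := by rw [hw]; ring
    rw [h1]
    have h2 := oge_mul hF (hbM P hPM) ((oge_zero_iff hF).2 (mul_mem (P.algebraMap_mem c) (mem_of_fin (hd.mark P hPM).2 H)))
    exact h2.mono (by simp)
  · intro P hP
    obtain ⟨hPS, hPZ, hcases⟩ := hd.real_cases hP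
    obtain ⟨hρ1, hρ2, hρ3⟩ := hρ P hP
    have hf₁0 : π (cx f₁) ≠ 0 := by
      intro h0
      rw [h0, zero_div] at hρ2
      unfold rv at hρ2
      rw [vl_zero, Complex.zero_re] at hρ2
      norm_num at hρ2
    have hpf₁ : ¬ p ∣ f₁ := fun h => hf₁0 ((hd.crv.eq_zero_iff f₁).2 h)
    rcases hcases with hPR | ⟨z, hz⟩
    · have hPM : P ∉ Mk := Finset.disjoint_left.1 hd.disj.2.2.2.2.1 hPR
      have hPi : ¬ FinP π P := ((hd.memR P).1 hPR).1
      have hθo : ord P.ring θ = 0 := by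
        refine ord_eq_zero_of_vl hF (hreg P hPS) fun h0 => ?_
        have h1 := hrv P hP hPM
        unfold rv at h1
        rw [h0, Complex.zero_re] at h1
        exact lt_irrefl _ h1
      have h1 : Oge P (-((dH : ℤ) * Di P)) (π H) := by
        have h2 := (mem_L hF).1 hπH P
        rwa [Finsupp.smul_apply, smul_eq_mul] at h2
      have h2 : Oge P (0 + M + -((dH : ℤ) * Di P)) w := oge_mul hF (oge_mul hF (oge_alg hF c) (hbR P hPR)) h1
      have h3 : Oge P (0 + M + -((dH : ℤ) * Di P)) (s.σ w) := by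
        rw [← oge_cj (s := s) hF, hP]
        exact h2
      have h4 := oge_mul hF h2 h3
      have h5 : ord P.ring (π (cx f₁)) ≤ d * K₃ := (hK₃ d f₁ hf₁d hpf₁).2 P hPi
      have h6 : (dH : ℤ) * Di P + (d * K₃ : ℤ) + 1 ≤ (M : ℤ) := by
        have h7 : ((dH : ℤ) * Di P).toNat ≤ ∑ P ∈ R, ((dH : ℤ) * Di P).toNat :=
          Finset.single_le_sum (f := fun P => ((dH : ℤ) * Di P).toNat) (fun _ _ => Nat.zero_le _) hPR
        have h8 := Int.self_le_toNat ((dH : ℤ) * Di P)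
        rw [hM]
        push_cast at h7 h8 ⊢
        have h9 : (((dH : ℤ) * Di P).toNat : ℤ) ≤ ((∑ P ∈ R, ((dH : ℤ) * Di P).toNat : ℕ) : ℤ) := by
          exact_mod_cast h7
        push_cast at h9
        linarith
      have h10 : Oge P 1 (w * s.σ w / (θ * π (cx f₁))) := by
        rw [oge_div_iff hF (mul_ne_zero hθ0 hf₁0), FF.ord_mul hF P hθ0 hf₁0, hθo]
        have h11 : (0 : ℤ) ≤ d * K₃ := by positivity
        exact h4.mono (by linarith)
      have h11 : w * s.σ w / (θ * π (cx f₁)) ∈ P.ring := (oge_zero_iff hF).1 (h10.mono (by norm_num))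
      refine ⟨h11, ?_⟩
      unfold rv
      rw [(vl_eq_zero hF h11).2 h10, Complex.zero_re]
      norm_num
    · obtain ⟨hκ1, hκ2, hκ3⟩ := hκP P z hP hz
      obtain ⟨h1, h2⟩ := wl_fin hd.crv hP hz hθ0 hθ hbσ hf0 hf₁0 hsos hρ1 hρ2 hρ3 hl hccl hσc hB1 (hB z) hK hκ1 hκ2 hκ3
        hqd hqK hK'' (E := E) (by omega) (by omega) (hbε P hP).1 (hbε P hP).2 hε0.le
      refine ⟨h1, h2.trans ?_⟩
      rw [← hK₁, hε, div_mul_eq_mul_div, one_mul, div_le_iff₀ (by positivity)]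
      have h9 : 0 ≤ 2 * K * K₁ ^ 2 := by positivity
      linarith

end Pool.Agent.Helper10.GN
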